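import Pool.Agent.Lib.MP_6e5bed_ag_CV.Cosp
import Pool.Agent.Lib.MP_6e5bed_ag_NC.Res

set_option autoImplicit false

/-!
# Algebras and bimodules in degree zero, the projections of Čech algebras
-/

namespace Pool.Agent.MP_6e5bed_ag_NC

universe u

variable {k : Type u} [CommRing k]

/-- The complex concentrated in degree `0`. -/
noncomputable def Dg.conc (k : Type u) [CommRing k] (V : Type u) [AddCommGroup V] [Module k V] :
    Dg k V where
  ρ := Finsupp.lsingle 0
  sum_ρ := fun v => by simp
  ρ_ρ := fun v n => by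
    by_cases h : n = 0
    · subst h
      simp
    · simp [Finsupp.single_eq_of_ne h]
  d := 0
  d_d := fun v => by simp
  ρ_d := fun v n => by simp

theorem Dg.conc_deg {V : Type u} [AddCommGroup V] [Module k V] (v : V) :
    (Dg.conc k V).IsDeg 0 v := rfl

theorem Dg.conc_cases {V : Type u} [AddCommGroup V] [Module k V] {i : ℤ} {v : V}
    (h : (Dg.conc k V).IsDeg i v) : i = 0 ∨ v = 0 := by
  by_cases h0 : i = 0
  · exact Or.inl h0
  · have h1 : Finsupp.single (0 : ℤ) v = Finsupp.single i v := h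
    have h2 := DFunLike.congr_fun h1 0
    rw [Finsupp.single_eq_same, Finsupp.single_eq_of_ne (Ne.symm h0)] at h2
    exact Or.inr h2

theorem Dg.conc_s {V : Type u} [AddCommGroup V] [Module k V] (v : V) :
    (Dg.conc k V).s v = v := Dg.s_of_even (Dg.o_of_even (Dg.conc_deg v) Even.zero)

theorem Dg.conc_bil {V V' W : Type u} [AddCommGroup V] [Module k V] [AddCommGroup V']
    [Module k V'] [AddCommGroup W] [Module k W] (β : V →ₗ[k] V' →ₗ[k] W) {i j : ℤ} {v : V}
    {v' : V'} (hv : (Dg.conc k V).IsDeg i v) (hv' : (Dg.conc k V').IsDeg j v') :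
    (Dg.conc k W).IsDeg (i + j) (β v v') := by
  rcases Dg.conc_cases hv with rfl | rfl
  · rcases Dg.conc_cases hv' with rfl | rfl
    · exact Dg.conc_deg _
    · rw [map_zero]
      exact Dg.IsDeg.zero _
  · rw [map_zero, LinearMap.zero_apply]
    exact Dg.IsDeg.zero _

/-- An algebra as a dg algebra concentrated in degree `0`. -/
noncomputable def ring (k : Type u) [CommRing k] (R : Type u) [Ring R] [Algebra k R] : DGA k where
  A := R
  dg := Dg.conc k R
  mul := LinearMap.mul k R
  one := 1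
  one_mul := fun a => by simp
  mul_one := fun a => by simp
  mul_assoc := fun a b c => by simp [mul_assoc]
  one_deg := rfl
  mul_deg := Dg.conc_bil _
  leibniz := fun a b => by
    change (0 : R) = (0 : R) * b + _ * (0 : R)
    simp

variable {R R' : Type u} [Ring R] [Algebra k R] [Ring R'] [Algebra k R']

/-- A bimodule as a dg bimodule concentrated in degree `0`. -/
noncomputable def KBi.bim (U : KBi k R R') : Bim (ring k R) (ring k R') where
  M := U.M
  dg := Dg.conc k U.M
  l := U.l
  r := U.r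
  l_one := U.l_one
  r_one := U.r_one
  l_mul := U.l_mul
  r_mul := U.r_mul
  l_r := U.l_r
  l_deg := Dg.conc_bil _
  r_deg := fun {i j b m} hm hb => by
    rw [add_comm]
    exact Dg.conc_bil _ hb hm
  d_l := fun a m => by
    change (0 : U.M) = U.l (0 : R) m + U.l _ (0 : U.M)
    simp
  d_r := fun b m => by
    change (0 : U.M) = U.r b (0 : U.M) + U.r (0 : R') _
    simp

namespace Cosp

variable (S : Cosp k)

/-- The projection of the Čech algebra to the first algebra. -/
noncomputable def proj0 : DHom S.cech (ring k S.A0) where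
  f := (LinearMap.fst k S.A0 S.A1).comp (LinearMap.fst k (S.A0 × S.A1) S.A01)
  deg := fun {i a} ha => by
    rcases Dg.two_isDeg S.δ (v := a.1) (w := a.2) ha with ⟨rfl, _⟩ | ⟨_, h⟩ | ⟨h, _⟩
    · exact Dg.conc_deg _
    · change (Dg.conc k S.A0).IsDeg i a.1.1
      rw [h]
      exact Dg.IsDeg.zero _
    · change (Dg.conc k S.A0).IsDeg i a.1.1
      rw [h]
      exact Dg.IsDeg.zero _
  d := fun a => rfl
  one := rfl
  mul := fun a b => rfl

/-- The projection of the Čech algebra to the second algebra. -/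
noncomputable def proj1 : DHom S.cech (ring k S.A1) where
  f := (LinearMap.snd k S.A0 S.A1).comp (LinearMap.fst k (S.A0 × S.A1) S.A01)
  deg := fun {i a} ha => by
    rcases Dg.two_isDeg S.δ (v := a.1) (w := a.2) ha with ⟨rfl, _⟩ | ⟨_, h⟩ | ⟨h, _⟩
    · exact Dg.conc_deg _
    · change (Dg.conc k S.A1).IsDeg i a.1.2
      rw [h]
      exact Dg.IsDeg.zero _
    · change (Dg.conc k S.A1).IsDeg i a.1.2
      rw [h]
      exact Dg.IsDeg.zero _
  d := fun a => rfl
  one := rfl
  mul := fun a b => rfl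

end Cosp

namespace KBi

/-- `U` has no sub-bimodules except `0` and `U`, which are different. -/
def Simple (U : KBi k R R') : Prop := Nontrivial U.M ∧ ∀ X : Submodule k U.M,
  (∀ a, ∀ x ∈ X, U.l a x ∈ X) → (∀ b, ∀ x ∈ X, U.r b x ∈ X) → X = ⊥ ∨ X = ⊤

/-- Isomorphism of bimodules. -/
def Iso (U V : KBi k R R') : Prop := ∃ f : U.M ≃ₗ[k] V.M, (∀ a x, f (U.l a x) = V.l a (f x)) ∧
  ∀ b x, f (U.r b x) = V.r b (f x)

/-- `0 → U' → U → U'' → 0` is exact for suitable maps. -/
def IsSes (U' U U'' : KBi k R R') : Prop :=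
  ∃ (i : U'.M →ₗ[k] U.M) (p : U.M →ₗ[k] U''.M), Function.Injective i ∧ Function.Surjective p ∧
    (∀ x, p x = 0 ↔ ∃ y, i y = x) ∧ (∀ a x, i (U'.l a x) = U.l a (i x)) ∧
    (∀ b x, i (U'.r b x) = U.r b (i x)) ∧ (∀ a x, p (U.l a x) = U''.l a (p x)) ∧
    ∀ b x, p (U.r b x) = U''.r b (p x)

/-- The external tensor product of a left and a right module. -/
noncomputable def ext (P : KBi k R k) (Q : KBi k k R') : KBi k R R' where
  M := TensorProduct k P.M Q.M
  l := LinearMap.rTensorHom Q.M ∘ₗ P.l
  r := LinearMap.lTensorHom P.M ∘ₗ Q.r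
  l_one := fun m => by
    have h : P.l 1 = LinearMap.id := LinearMap.ext P.l_one
    change (P.l 1).rTensor Q.M m = m
    rw [h, LinearMap.rTensor_id, LinearMap.id_apply]
  r_one := fun m => by
    have h : Q.r 1 = LinearMap.id := LinearMap.ext Q.r_one
    change (Q.r 1).lTensor P.M m = m
    rw [h, LinearMap.lTensor_id, LinearMap.id_apply]
  l_mul := fun a a' m => by
    have h : P.l (a * a') = P.l a ∘ₗ P.l a' := LinearMap.ext (P.l_mul a a')
    change (P.l (a * a')).rTensor Q.M m = (P.l a).rTensor Q.M ((P.l a').rTensor Q.M m)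
    rw [h, LinearMap.rTensor_comp, LinearMap.comp_apply]
  r_mul := fun b b' m => by
    have h : Q.r (b * b') = Q.r b' ∘ₗ Q.r b := LinearMap.ext (Q.r_mul b b')
    change (Q.r (b * b')).lTensor P.M m = (Q.r b').lTensor P.M ((Q.r b).lTensor P.M m)
    rw [h, LinearMap.lTensor_comp, LinearMap.comp_apply]
  l_r := fun a b m => by
    change (P.l a).rTensor Q.M ((Q.r b).lTensor P.M m) =
      (Q.r b).lTensor P.M ((P.l a).rTensor Q.M m)
    rw [← LinearMap.comp_apply, ← LinearMap.comp_apply, LinearMap.rTensor_comp_lTensor,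
      LinearMap.lTensor_comp_rTensor]

end KBi

end Pool.Agent.MP_6e5bed_ag_NC
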