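import Pool.Agent.Lib.MP_6e5bed_ag_CV.LP

set_option autoImplicit false
set_option linter.unusedSectionVars false

/-!
# The rings `k[t]` and `k[1/t]` in `k(t)`, lattices over them (NC CURVES)
-/

namespace Pool.Agent.MP_6e5bed_ag_NC

open RatFunc

universe u

variable {k : Type u} [Field k]

private theorem KK_mem {u f : RatFunc k} : f ∈ kk k u ↔ ∃ p : Polynomial k, Polynomial.aeval u p = f := by
  rw [kk, Algebra.adjoin_singleton_eq_range_aeval]
  rfl

theorem mem_kk_X {f : RatFunc k} : f ∈ kk k X ↔ ∃ p : Polynomial k, Polynomial.aeval X p = f := KK_mem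

theorem mem_kk_Xi {f : RatFunc k} :
    f ∈ kk k X⁻¹ ↔ ∃ p : Polynomial k, Polynomial.aeval (X : RatFunc k)⁻¹ p = f := KK_mem

private theorem KK_pid (u : RatFunc k) : IsPrincipalIdealRing (kk k u) := by
  refine IsPrincipalIdealRing.of_surjective
    (((Polynomial.aeval u : Polynomial k →ₐ[k] RatFunc k).codRestrict (kk k u)
      (fun p => KK_mem.2 ⟨p, rfl⟩)) : Polynomial k →+* kk k u) ?_
  rintro ⟨f, hf⟩
  obtain ⟨p, rfl⟩ := KK_mem.1 hf
  exact ⟨p, Subtype.ext rfl⟩

instance kk_pid_X : IsPrincipalIdealRing (kk k X) := KK_pid _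

instance kk_pid_Xi : IsPrincipalIdealRing (kk k X⁻¹) := KK_pid _

/-- the fraction property -/
private def KKfr (u : RatFunc k) : Prop := ∀ c : RatFunc k, ∃ g ∈ kk k u, g ≠ 0 ∧ g * c ∈ kk k u

/-- Elements of `k[t]` are in `k[1/t]` after multiplication by a power of `1/t`. -/
private theorem KK_pow {u f : RatFunc k} (hu : u ≠ 0) (h : f ∈ kk k u) :
    ∃ n : ℕ, ∀ m : ℕ, n ≤ m → (u⁻¹) ^ m * f ∈ kk k u⁻¹ := by
  have hg : u⁻¹ ∈ kk k u⁻¹ := Algebra.subset_adjoin (Set.mem_singleton _)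
  refine Algebra.adjoin_induction (s := {u}) (p := fun f _ => ∃ n : ℕ, ∀ m : ℕ, n ≤ m →
    (u⁻¹) ^ m * f ∈ kk k u⁻¹) ?_ ?_ ?_ ?_ h
  · intro x hx
    rw [Set.mem_singleton_iff] at hx
    subst hx
    refine ⟨1, fun m hm => ?_⟩
    obtain ⟨m, rfl⟩ := Nat.exists_eq_add_of_le hm
    rw [add_comm, pow_succ, mul_assoc, inv_mul_cancel₀ hu, mul_one]
    exact Subalgebra.pow_mem _ hg m
  · intro r
    exact ⟨0, fun m _ => Subalgebra.mul_mem _ (Subalgebra.pow_mem _ hg m)
      (Subalgebra.algebraMap_mem _ r)⟩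
  · rintro x y - - ⟨n, hn⟩ ⟨n', hn'⟩
    refine ⟨n + n', fun m hm => ?_⟩
    rw [mul_add]
    exact Subalgebra.add_mem _ (hn m (by omega)) (hn' m (by omega))
  · rintro x y - - ⟨n, hn⟩ ⟨n', hn'⟩
    refine ⟨n + n', fun m hm => ?_⟩
    obtain ⟨m', rfl⟩ := Nat.exists_eq_add_of_le hm
    have : (u⁻¹) ^ (n + n' + m') * (x * y) = ((u⁻¹) ^ n * x) * ((u⁻¹) ^ (n' + m') * y) := by ring
    rw [this]
    exact Subalgebra.mul_mem _ (hn n le_rfl) (hn' _ (by omega))

theorem kk_pow_X {f : RatFunc k} (h : f ∈ kk k X) :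
    ∃ n : ℕ, ∀ m : ℕ, n ≤ m → ((X : RatFunc k)⁻¹) ^ m * f ∈ kk k X⁻¹ :=
  KK_pow RatFunc.X_ne_zero h

theorem kk_pow_Xi {f : RatFunc k} (h : f ∈ kk k X⁻¹) :
    ∃ n : ℕ, ∀ m : ℕ, n ≤ m → (X : RatFunc k) ^ m * f ∈ kk k X := by
  have := KK_pow (u := (X : RatFunc k)⁻¹) (inv_ne_zero RatFunc.X_ne_zero) h
  rwa [inv_inv] at this

private theorem KK_num {f : RatFunc k} (h : f ∈ kk k X⁻¹) :
    ∃ (n : ℕ) (q : Polynomial k), q.natDegree ≤ n ∧
      (X : RatFunc k) ^ n * f = Polynomial.aeval X q := by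
  have hX : (X : RatFunc k) ≠ 0 := RatFunc.X_ne_zero
  refine Algebra.adjoin_induction (s := {(X : RatFunc k)⁻¹}) (p := fun f _ => ∃ (n : ℕ)
    (q : Polynomial k), q.natDegree ≤ n ∧
      (X : RatFunc k) ^ n * f = Polynomial.aeval X q) ?_ ?_ ?_ ?_ h
  · intro x hx
    rw [Set.mem_singleton_iff] at hx
    subst hx
    refine ⟨1, 1, by simp, ?_⟩
    rw [pow_one, mul_inv_cancel₀ hX, map_one]
  · intro r
    exact ⟨0, Polynomial.C r, by simp, by simp⟩
  · rintro x y - - ⟨n, q, hq, hn⟩ ⟨n', q', hq', hn'⟩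
    refine ⟨n + n', Polynomial.X ^ n' * q + Polynomial.X ^ n * q', ?_, ?_⟩
    · refine Polynomial.natDegree_add_le_of_degree_le ?_ ?_
      · refine (Polynomial.natDegree_mul_le).trans ?_
        rw [Polynomial.natDegree_X_pow]; omega
      · refine (Polynomial.natDegree_mul_le).trans ?_
        rw [Polynomial.natDegree_X_pow]; omega
    · rw [map_add, map_mul, map_mul, map_pow, map_pow, Polynomial.aeval_X, ← hn, ← hn']
      ring
  · rintro x y - - ⟨n, q, hq, hn⟩ ⟨n', q', hq', hn'⟩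
    refine ⟨n + n', q * q', ?_, ?_⟩
    · exact (Polynomial.natDegree_mul_le).trans (by omega)
    · rw [map_mul, ← hn, ← hn']
      ring

/-- `k[t] ∩ t^n k[1/t]` is finite-dimensional. -/
theorem kk_inter (n : ℤ) : Module.Finite k
    ↥((Subalgebra.toSubmodule (kk k X)) ⊓ (Subalgebra.toSubmodule (kk k X⁻¹)).comap
      (LinearMap.mulLeft k ((X : RatFunc k) ^ n))) := by
  have hX : (X : RatFunc k) ≠ 0 := RatFunc.X_ne_zero
  set d : ℕ := (-n).toNat + 1
  have hle : ((Subalgebra.toSubmodule (kk k X)) ⊓ (Subalgebra.toSubmodule (kk k X⁻¹)).comap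
      (LinearMap.mulLeft k ((X : RatFunc k) ^ n))) ≤
      (Polynomial.degreeLT k d).map (Polynomial.aeval (X : RatFunc k)).toLinearMap := by
    rintro f ⟨hf1, hf2⟩
    obtain ⟨p, rfl⟩ := mem_kk_X.1 hf1
    refine ⟨p, ?_, rfl⟩
    by_cases hp : p = 0
    · subst hp; exact Submodule.zero_mem _
    obtain ⟨N, q, hq, hN⟩ := KK_num hf2
    have h1 : (X : RatFunc k) ^ (N + n.toNat) * Polynomial.aeval X p =
        (X : RatFunc k) ^ (-n).toNat * Polynomial.aeval X q := by
      rw [← hN, LinearMap.mulLeft_apply, ← mul_assoc, ← mul_assoc]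
      congr 1
      rw [← zpow_natCast, ← zpow_natCast, ← zpow_natCast, ← zpow_add₀ hX, ← zpow_add₀ hX]
      congr 1
      push_cast
      omega
    have h2 : Polynomial.X ^ (N + n.toNat) * p = Polynomial.X ^ (-n).toNat * q := by
      have h3 : Function.Injective (algebraMap (Polynomial k) (RatFunc k)) :=
        IsFractionRing.injective _ _
      apply h3
      rw [map_mul, map_mul, map_pow, map_pow, RatFunc.algebraMap_X, ← aeval_X_left_eq_algebraMap,
        ← aeval_X_left_eq_algebraMap]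
      exact h1
    have h4 : (Polynomial.X ^ (N + n.toNat) * p).natDegree ≤ (-n).toNat + N := by
      rw [h2]
      refine (Polynomial.natDegree_mul_le).trans ?_
      rw [Polynomial.natDegree_X_pow]; omega
    rw [Polynomial.natDegree_mul (pow_ne_zero _ Polynomial.X_ne_zero) hp,
      Polynomial.natDegree_X_pow] at h4
    rw [SetLike.mem_coe, Polynomial.mem_degreeLT, Polynomial.degree_eq_natDegree hp]
    exact_mod_cast (by omega : p.natDegree < (-n).toNat + 1)
  have : Module.Finite k ↥(Polynomial.degreeLT k d) :=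
    Module.Finite.equiv (Polynomial.degreeLTEquiv k d).symm
  have : Module.Finite k
      ↥((Polynomial.degreeLT k d).map (Polynomial.aeval (X : RatFunc k)).toLinearMap) :=
    Module.Finite.map _ _
  exact Submodule.finiteDimensional_of_le hle

/-- Every element of `k(t)` is a quotient `f / g`, `g ≠ 0`, of elements of `k[t]`. -/
theorem exists_div_X (c : RatFunc k) : ∃ g ∈ kk k X, g ≠ 0 ∧ g * c ∈ kk k X := by
  have hd : algebraMap (Polynomial k) (RatFunc k) c.denom ≠ 0 :=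
    RatFunc.algebraMap_ne_zero c.denom_ne_zero
  refine ⟨algebraMap _ _ c.denom, mem_kk_X.2 ⟨_, aeval_X_left_eq_algebraMap _⟩, hd,
    mem_kk_X.2 ⟨c.num, ?_⟩⟩
  rw [aeval_X_left_eq_algebraMap]
  nth_rewrite 3 [← RatFunc.num_div_denom c]
  field_simp

theorem exists_div_Xi (c : RatFunc k) : ∃ g ∈ kk k X⁻¹, g ≠ 0 ∧ g * c ∈ kk k X⁻¹ := by
  have hX : (X : RatFunc k) ≠ 0 := RatFunc.X_ne_zero
  obtain ⟨g, hg, hg0, hgc⟩ := exists_div_X c
  obtain ⟨n, hn⟩ := kk_pow_X hg
  obtain ⟨m, hm⟩ := kk_pow_X hgc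
  refine ⟨(X : RatFunc k)⁻¹ ^ (n + m) * g, hn _ (by omega),
    mul_ne_zero (pow_ne_zero _ (inv_ne_zero hX)) hg0, ?_⟩
  rw [mul_assoc]
  exact hm _ (by omega)

private theorem KK_frac {u : RatFunc k} (hu : KKfr u) : IsFractionRing (kk k u) (RatFunc k) := by
  rw [IsFractionRing, isLocalization_iff]
  refine ⟨?_, ?_, ?_⟩
  · rintro ⟨y, hy⟩
    refine isUnit_iff_ne_zero.2 fun h => ?_
    have : y = 0 := Subtype.ext h
    exact nonZeroDivisors.ne_zero hy this
  · intro z
    obtain ⟨g, hg, hg0, hgc⟩ := hu z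
    refine ⟨(⟨g * z, hgc⟩, ⟨⟨g, hg⟩, mem_nonZeroDivisors_of_ne_zero fun h => hg0 ?_⟩), ?_⟩
    · exact congrArg Subtype.val h
    · show z * g = g * z
      exact mul_comm _ _
  · intro x y h
    exact ⟨1, by rw [show x = y from Subtype.ext h]⟩

instance kk_frac_X : IsFractionRing (kk k X) (RatFunc k) := KK_frac exists_div_X

instance kk_frac_Xi : IsFractionRing (kk k X⁻¹) (RatFunc k) := KK_frac exists_div_Xi

section

variable {E : Type u} [AddCommGroup E] [Module (RatFunc k) E]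

private theorem KK_span {u : RatFunc k} (hu : KKfr u) (N : Submodule (kk k u) E) :
    Submodule.span (RatFunc k) (N : Set E) = ⊤ ↔
      ∀ v : E, ∃ g : kk k u, g ≠ 0 ∧ g • v ∈ N := by
  constructor
  · intro h v
    have hv : v ∈ Submodule.span (RatFunc k) (N : Set E) := h ▸ Submodule.mem_top
    refine Submodule.span_induction (p := fun v _ => ∃ g : kk k u, g ≠ 0 ∧ g • v ∈ N)
      ?_ ?_ ?_ ?_ hv
    · intro x hx
      exact ⟨1, one_ne_zero, by rwa [one_smul]⟩
    · exact ⟨1, one_ne_zero, by rw [smul_zero]; exact N.zero_mem⟩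
    · rintro x y - - ⟨g, hg, hgx⟩ ⟨g', hg', hgy⟩
      refine ⟨g * g', mul_ne_zero hg hg', ?_⟩
      rw [smul_add]
      refine N.add_mem ?_ ?_
      · rw [mul_comm, mul_smul]; exact N.smul_mem _ hgx
      · rw [mul_smul]; exact N.smul_mem _ hgy
    · rintro c x - ⟨g, hg, hgx⟩
      obtain ⟨b, hb, hb0, hbc⟩ := hu c
      refine ⟨⟨b, hb⟩ * g, mul_ne_zero (fun h => hb0 (congrArg Subtype.val h)) hg, ?_⟩
      have : ((⟨b, hb⟩ : kk k u) * g) • c • x = (⟨b * c, hbc⟩ : kk k u) • (g • x) := by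
        simp only [Subalgebra.smul_def, MulMemClass.coe_mul, smul_smul]
        congr 1
        ring
      rw [this]
      exact N.smul_mem _ hgx
  · intro h
    rw [eq_top_iff]
    intro v _
    obtain ⟨g, hg, hgv⟩ := h v
    have hg0 : (g : RatFunc k) ≠ 0 := fun h => hg (Subtype.ext h)
    have : v = (g : RatFunc k)⁻¹ • (g • v) := by
      rw [Subalgebra.smul_def, smul_smul, inv_mul_cancel₀ hg0, one_smul]
    rw [this]
    exact Submodule.smul_mem _ _ (Submodule.subset_span hgv)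

/-- Full lattices: for all `v` there is `g ≠ 0` in `k[t]` with `g v ∈ N`. -/
theorem span_top_iff_X (N : Submodule (kk k X) E) :
    Submodule.span (RatFunc k) (N : Set E) = ⊤ ↔
      ∀ v : E, ∃ g : kk k X, g ≠ 0 ∧ g • v ∈ N :=
  KK_span exists_div_X N

theorem span_top_iff_Xi (N : Submodule (kk k X⁻¹) E) :
    Submodule.span (RatFunc k) (N : Set E) = ⊤ ↔
      ∀ v : E, ∃ g : kk k X⁻¹, g ≠ 0 ∧ g • v ∈ N :=
  KK_span exists_div_Xi N

private theorem KK_smul {u : RatFunc k} (hu : KKfr u) {M N : Submodule (kk k u) E} (hM : M.FG)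
    (hN : Submodule.span (RatFunc k) (N : Set E) = ⊤) :
    ∃ g : kk k u, g ≠ 0 ∧ ∀ v ∈ M, g • v ∈ N := by
  rw [KK_span hu] at hN
  obtain ⟨S, rfl⟩ := hM
  choose g hg0 hg using hN
  refine ⟨∏ s ∈ S, g s, Finset.prod_ne_zero_iff.2 fun s _ => hg0 s, fun v hv => ?_⟩
  refine Submodule.span_induction (p := fun v _ => (∏ s ∈ S, g s) • v ∈ N) ?_ ?_ ?_ ?_ hv
  · intro s hs
    classical
    rw [← Finset.mul_prod_erase S g (Finset.mem_coe.1 hs), mul_comm, mul_smul]
    exact N.smul_mem _ (hg s)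
  · rw [smul_zero]; exact N.zero_mem
  · intro x y _ _ hx hy
    rw [smul_add]; exact N.add_mem hx hy
  · intro c x _ hx
    rw [smul_comm]; exact N.smul_mem _ hx

/-- A finitely generated module is mapped into a full lattice by some `g ≠ 0`. -/
theorem exists_smul_le_X {M N : Submodule (kk k X) E} (hM : M.FG)
    (hN : Submodule.span (RatFunc k) (N : Set E) = ⊤) :
    ∃ g : kk k X, g ≠ 0 ∧ ∀ v ∈ M, g • v ∈ N :=
  KK_smul exists_div_X hM hN

theorem exists_smul_le_Xi {M N : Submodule (kk k X⁻¹) E} (hM : M.FG)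
    (hN : Submodule.span (RatFunc k) (N : Set E) = ⊤) :
    ∃ g : kk k X⁻¹, g ≠ 0 ∧ ∀ v ∈ M, g • v ∈ N :=
  KK_smul exists_div_Xi hM hN

private theorem KK_basis {u : RatFunc k} (hu : KKfr u) {N : Submodule (kk k u) E} (hN : N.FG)
    (hs : Submodule.span (RatFunc k) (N : Set E) = ⊤) :
    ∃ (n : ℕ) (b : Module.Basis (Fin n) (RatFunc k) E), ∀ v : E, v ∈ N ↔
      ∀ i, b.repr v i ∈ kk k u := by
  haveI := KK_pid u
  haveI := KK_frac hu
  haveI hL : Submodule.IsLattice (RatFunc k) N := ⟨hN, hs⟩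
  haveI : Module.Finite (kk k u) N := Submodule.IsLattice.finite (RatFunc k) N
  let b0 := Module.finBasis (kk k u) N
  let b := b0.extendOfIsLattice (RatFunc k)
  have hb : ∀ i, b i = (b0 i : E) := fun i => Module.Basis.extendOfIsLattice_apply _ b0 i
  refine ⟨_, b, fun v => ⟨fun hv i => ?_, fun h => ?_⟩⟩
  · have h1 : v = ∑ i, ((b0.repr ⟨v, hv⟩ i : kk k u) : RatFunc k) • b i := by
      have h2 := congrArg (Subtype.val) (b0.sum_repr ⟨v, hv⟩)
      refine h2.symm.trans ?_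
      simp only [hb, Submodule.coe_sum, Submodule.coe_smul]
      rfl
    have h3 := congrFun (b.repr_sum_self (fun i => ((b0.repr ⟨v, hv⟩ i : kk k u) : RatFunc k))) i
    rw [← h1] at h3
    rw [h3]
    exact (b0.repr ⟨v, hv⟩ i).2
  · rw [← b.sum_repr v]
    refine N.sum_mem fun i _ => ?_
    have : b.repr v i • b i = (⟨b.repr v i, h i⟩ : kk k u) • (b0 i : E) := by
      rw [hb]; rfl
    rw [this]
    exact N.smul_mem _ (b0 i).2

/-- A lattice has a basis which is a basis of the vector space. -/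
theorem exists_basis_X {N : Submodule (kk k X) E} (hN : N.FG)
    (hs : Submodule.span (RatFunc k) (N : Set E) = ⊤) :
    ∃ (n : ℕ) (b : Module.Basis (Fin n) (RatFunc k) E), ∀ v : E, v ∈ N ↔
      ∀ i, b.repr v i ∈ kk k X :=
  KK_basis exists_div_X hN hs

theorem exists_basis_Xi {N : Submodule (kk k X⁻¹) E} (hN : N.FG)
    (hs : Submodule.span (RatFunc k) (N : Set E) = ⊤) :
    ∃ (n : ℕ) (b : Module.Basis (Fin n) (RatFunc k) E), ∀ v : E, v ∈ N ↔
      ∀ i, b.repr v i ∈ kk k X⁻¹ :=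
  KK_basis exists_div_Xi hN hs

private theorem KK_quot {u : RatFunc k} (hu : KKfr u) [Module k E] [IsScalarTower k (RatFunc k) E]
    {N N' : Submodule (kk k u) E}
    (hs : Submodule.span (RatFunc k) (N : Set E) = ⊤) (hN' : N'.FG) :
    Module.Finite k (N' ⧸ N.submoduleOf N') := by
  obtain ⟨g, hg0, hg⟩ := KK_smul hu hN' hs
  obtain ⟨q, hq⟩ := KK_mem.1 g.2
  have hq0 : q ≠ 0 := by
    rintro rfl
    exact hg0 (Subtype.ext (by rw [← hq, map_zero]; rfl))
  haveI : Module.Finite (kk k u) N' := Module.Finite.iff_fg.2 hN'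
  obtain ⟨S, hS⟩ := (Module.Finite.fg_top : (⊤ : Submodule (kk k u) (N' ⧸ N.submoduleOf N')).FG)
  haveI : Module.Finite k ↥(Polynomial.degreeLT k q.natDegree) :=
    Module.Finite.equiv (Polynomial.degreeLTEquiv k q.natDegree).symm
  let ev : Polynomial k →ₐ[k] kk k u :=
    (Polynomial.aeval u : Polynomial k →ₐ[k] RatFunc k).codRestrict (kk k u)
      (fun p => KK_mem.2 ⟨p, rfl⟩)
  have hev : ∀ f : kk k u, ∃ p, ev p = f := by
    rintro ⟨f, hf⟩
    obtain ⟨p, rfl⟩ := KK_mem.1 hf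
    exact ⟨p, Subtype.ext rfl⟩
  have hevq : ev q = g := Subtype.ext hq
  have hkill : ∀ v : N' ⧸ N.submoduleOf N', g • v = 0 := by
    intro v
    obtain ⟨w, rfl⟩ := Submodule.Quotient.mk_surjective _ v
    rw [← Submodule.Quotient.mk_smul, Submodule.Quotient.mk_eq_zero]
    exact hg _ w.2
  let T : (S → ↥(Polynomial.degreeLT k q.natDegree)) →ₗ[k] (N' ⧸ N.submoduleOf N') :=
    { toFun := fun f => ∑ s : S, ev (f s).1 • (s : N' ⧸ N.submoduleOf N')
      map_add' := fun f f' => by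
        simp only [Pi.add_apply, Submodule.coe_add, map_add, add_smul, Finset.sum_add_distrib]
      map_smul' := fun c f => by
        simp only [Pi.smul_apply, Submodule.coe_smul, map_smul, smul_assoc, RingHom.id_apply,
          Finset.smul_sum] }
  refine Module.Finite.of_surjective T fun v => ?_
  have hv : v ∈ Submodule.span (kk k u) (S : Set (N' ⧸ N.submoduleOf N')) := hS ▸ Submodule.mem_top
  obtain ⟨c, hc⟩ := (Submodule.mem_span_finset (R := kk k u)).1 hv
  choose p hp using hev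
  have hdeg : ∀ r : Polynomial k, r % q ∈ Polynomial.degreeLT k q.natDegree := by
    intro r
    rw [Polynomial.mem_degreeLT, ← Polynomial.degree_eq_natDegree hq0]
    exact EuclideanDomain.mod_lt r hq0
  refine ⟨fun s => ⟨p (c s) % q, hdeg _⟩, ?_⟩
  show ∑ s : S, ev (p (c s) % q) • (s : N' ⧸ N.submoduleOf N') = v
  rw [← hc.2, ← Finset.sum_coe_sort S]
  refine Finset.sum_congr rfl fun s _ => ?_
  have h1 : p (c s) % q = p (c s) - q * (p (c s) / q) := by
    rw [eq_sub_iff_add_eq, add_comm]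
    exact EuclideanDomain.div_add_mod _ _
  rw [h1, map_sub, map_mul, hp, hevq, sub_smul, mul_smul, hkill, sub_zero]

/-- The quotient of two lattices is finite-dimensional over `k`. -/
theorem finite_quot_X [Module k E] [IsScalarTower k (RatFunc k) E] {N N' : Submodule (kk k X) E}
    (hs : Submodule.span (RatFunc k) (N : Set E) = ⊤) (hN' : N'.FG) :
    Module.Finite k (N' ⧸ N.submoduleOf N') :=
  KK_quot exists_div_X hs hN'

theorem finite_quot_Xi [Module k E] [IsScalarTower k (RatFunc k) E]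
    {N N' : Submodule (kk k X⁻¹) E} (hs : Submodule.span (RatFunc k) (N : Set E) = ⊤)
    (hN' : N'.FG) : Module.Finite k (N' ⧸ N.submoduleOf N') :=
  KK_quot exists_div_Xi hs hN'

end

end Pool.Agent.MP_6e5bed_ag_NC
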