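import Pool.Agent.Lib.MP_6e5bed_ag_CV.HRes

set_option autoImplicit false

/-!
# Direct summands of bimodules with a perfect resolution (NC CURVES, row 4)

Proof: `M` is a direct summand of `N` by `ι : M → N`, `π : N → M`, `f : P → N` a perfect resolution,
`e = ι π`. Lift `e f` to `E : P → P` with `f E ~ e f` (homotopy `H`). The telescope `X` of
`P -E-> P -E-> ...` is the cone of `1 - shift E : ⊕ P → ⊕ P` (countable sums, `ℕ →₀ P.M`); it is
h-projective, and `τ : X → M`, `p_n ↦ π f p_n`, shifted `p_n ↦ ± π H p_n`, is a quasi-isomorphism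
(`H(X) = colim (H(P), E) = e H(N)`). Lift `ι τ` to `i : X → P` (through `f`) and `π f` to
`r : P → X` (through `τ`): `τ r i ~ τ`, hence `r i ~ id` (`HProj.null_of_comp`), and `X` is perfect
(`Perf.of_htpy_retract`).
-/

namespace Pool.Agent.MP_6e5bed_ag_NC

universe u

variable {k : Type u} [Field k] {A B : DGA k}

section

variable {V : Type u} [AddCommGroup V] [Module k V]

/-- The coaction of the sum of countably many copies. -/
private noncomputable def teleρ (X : Dg k V) : (ℕ →₀ V) →ₗ[k] (ℤ →₀ (ℕ →₀ V)) :=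
  Finsupp.lsum k (fun n : ℕ => (Finsupp.mapRange.linearMap (Finsupp.lsingle n)) ∘ₗ X.ρ)

private theorem teleρ_single (X : Dg k V) (n : ℕ) (v : V) :
    teleρ X (Finsupp.single n v) =
      Finsupp.mapRange.linearMap (Finsupp.lsingle n : V →ₗ[k] (ℕ →₀ V)) (X.ρ v) := by
  rw [teleρ, Finsupp.lsum_single]
  rfl

private theorem teleρ_apply (X : Dg k V) (x : ℕ →₀ V) (i : ℤ) (n : ℕ) :
    (teleρ X x i) n = X.ρ (x n) i := by
  induction x using Finsupp.induction_linear with
  | zero => simp
  | add x y hx hy =>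
    rw [map_add, Finsupp.add_apply, Finsupp.add_apply, hx, hy, Finsupp.add_apply, map_add,
      Finsupp.add_apply]
  | single m v =>
    rw [teleρ_single, Finsupp.mapRange.linearMap_apply, Finsupp.mapRange_apply,
      Finsupp.lsingle_apply, Finsupp.single_apply, Finsupp.single_apply]
    split_ifs
    · rfl
    · simp

/-- The complex of the sum of countably many copies. -/
private noncomputable def teleDg (X : Dg k V) : Dg k (ℕ →₀ V) where
  ρ := teleρ X
  sum_ρ := fun v => by
    have h : (Finsupp.lsum k (fun _ : ℤ => (LinearMap.id : (ℕ →₀ V) →ₗ[k] (ℕ →₀ V)))) ∘ₗ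
        teleρ X = LinearMap.id := by
      refine Finsupp.lhom_ext fun n w => ?_
      rw [LinearMap.comp_apply, teleρ_single, Finsupp.mapRange.linearMap_apply, LinearMap.id_apply]
      have h1 : (Finsupp.lsum k (fun _ : ℤ => (LinearMap.id : (ℕ →₀ V) →ₗ[k] (ℕ →₀ V))))
          (Finsupp.mapRange (Finsupp.lsingle n : V →ₗ[k] (ℕ →₀ V))
            (map_zero _) (X.ρ w)) = (X.ρ w).sum (fun _ w => Finsupp.single n w) := by
        rw [Finsupp.lsum_apply, Finsupp.sum_mapRange_index (fun _ => rfl)]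
        rfl
      rw [h1]
      have h2 : (X.ρ w).sum (fun _ w => Finsupp.single n w) =
          Finsupp.lsingle (R := k) n ((X.ρ w).sum fun _ w => w) := by
        rw [map_finsuppSum]
        rfl
      rw [h2, X.sum_ρ]
      rfl
    exact LinearMap.congr_fun h v
  ρ_ρ := fun v i => by
    refine Finsupp.ext fun j => Finsupp.ext fun n => ?_
    rw [teleρ_apply, teleρ_apply, X.ρ_ρ, Finsupp.single_apply, Finsupp.single_apply]
    split_ifs
    · rw [teleρ_apply]
    · rfl
  d := Finsupp.mapRange.linearMap X.d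
  d_d := fun v => Finsupp.ext fun n => by
    rw [Finsupp.mapRange.linearMap_apply, Finsupp.mapRange.linearMap_apply,
      Finsupp.mapRange_apply, Finsupp.mapRange_apply, X.d_d]
    rfl
  ρ_d := fun v i => Finsupp.ext fun n => by
    rw [teleρ_apply, Finsupp.mapRange.linearMap_apply, Finsupp.mapRange.linearMap_apply,
      Finsupp.mapRange_apply, Finsupp.mapRange_apply, X.ρ_d, teleρ_apply]

private theorem teleDg_d (X : Dg k V) (x : ℕ →₀ V) (n : ℕ) : (teleDg X).d x n = X.d (x n) := rfl

private theorem teleDg_deg {X : Dg k V} {i : ℤ} {x : ℕ →₀ V} :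
    (teleDg X).IsDeg i x ↔ ∀ n, X.IsDeg i (x n) := by
  constructor
  · intro h n
    have h' : teleρ X x = Finsupp.single i x := h
    refine Finsupp.ext fun j => ?_
    rw [← teleρ_apply, h', Finsupp.single_apply, Finsupp.single_apply]
    split_ifs <;> rfl
  · intro h
    refine Finsupp.ext fun j => Finsupp.ext fun n => ?_
    have h1 : X.ρ (x n) = Finsupp.single i (x n) := h n
    change (teleρ X x j) n = _
    rw [teleρ_apply, h1, Finsupp.single_apply, Finsupp.single_apply]
    split_ifs <;> rfl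

private theorem teleDg_s (X : Dg k V) (x : ℕ →₀ V) (n : ℕ) : (teleDg X).s x n = X.s (x n) := by
  have h := Dg.s_degMap_even (X := teleDg X) (Y := X) (n := 0) Even.zero (Finsupp.lapply n)
    (fun {j v} hv => by
      rw [add_zero]
      exact teleDg_deg.1 hv n) x
  exact h.symm

end

/-- The sum of countably many copies of `M`. -/
noncomputable def dsum (M : Bim A B) : Bim A B where
  M := ℕ →₀ M.M
  dg := teleDg M.dg
  l := LinearMap.mk₂ k (fun a x => Finsupp.mapRange.linearMap (M.l a) x)
    (fun a a' x => Finsupp.ext fun n => by simp) (fun c a x => Finsupp.ext fun n => by simp)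
    (fun a x y => by rw [map_add]) (fun c a x => by rw [map_smul])
  r := LinearMap.mk₂ k (fun a x => Finsupp.mapRange.linearMap (M.r a) x)
    (fun a a' x => Finsupp.ext fun n => by simp) (fun c a x => Finsupp.ext fun n => by simp)
    (fun a x y => by rw [map_add]) (fun c a x => by rw [map_smul])
  l_one := fun x => Finsupp.ext fun n => M.l_one (x n)
  r_one := fun x => Finsupp.ext fun n => M.r_one (x n)
  l_mul := fun a a' x => Finsupp.ext fun n => M.l_mul a a' (x n)
  r_mul := fun a a' x => Finsupp.ext fun n => M.r_mul a a' (x n)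
  l_r := fun a b x => Finsupp.ext fun n => M.l_r a b (x n)
  l_deg := fun ha hx => teleDg_deg.2 fun n => M.l_deg ha (teleDg_deg.1 hx n)
  r_deg := fun hx hb => teleDg_deg.2 fun n => M.r_deg (teleDg_deg.1 hx n) hb
  d_l := fun a x => Finsupp.ext fun n => M.d_l a (x n)
  d_r := fun b x => Finsupp.ext fun n => by
    have h := M.d_r b (x n)
    rw [← teleDg_s] at h
    exact h

/-- The inclusion of a summand. -/
private noncomputable def teleInc (M : Bim A B) (n : ℕ) : GMap 0 M (dsum M) where
  f := Finsupp.lsingle n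
  deg := fun {i x} hx => by
    rw [add_zero]
    refine teleDg_deg.2 fun m => ?_
    change M.dg.IsDeg i (Finsupp.single n x m)
    rw [Finsupp.single_apply]
    split_ifs
    · exact hx
    · exact Dg.IsDeg.zero i
  map_l := fun a x => by
    rw [Dg.sp_zero]
    exact (Finsupp.mapRange_single (hf := map_zero (M.l a))).symm
  map_r := fun a x => (Finsupp.mapRange_single (hf := map_zero (M.r a))).symm

private theorem teleInc_closed (M : Bim A B) (n : ℕ) : (teleInc M n).dd = 0 := by
  refine LinearMap.ext fun x => ?_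
  rw [GMap.dd_apply, sg_zero, one_smul, LinearMap.zero_apply, sub_eq_zero]
  exact Finsupp.mapRange_single (hf := map_zero M.dg.d)

private theorem tele_ext {M Y : Bim A B} {f g : (dsum M).M →ₗ[k] Y.M}
    (h : ∀ n x, f ((teleInc M n).f x) = g ((teleInc M n).f x)) : f = g :=
  Finsupp.lhom_ext fun n x => h n x

private theorem tele_ind {M : Bim A B} {p : (dsum M).M → Prop} (h0 : p 0)
    (ha : ∀ x y, p x → p y → p (x + y)) (h : ∀ n x, p ((teleInc M n).f x)) (x : (dsum M).M) :
    p x :=
  Finsupp.induction_linear (motive := p) x h0 (fun x y => ha x y) (fun n x => h n x)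

private noncomputable def teleLin {M Y : Bim A B} (F : ℕ → M.M →ₗ[k] Y.M) :
    (dsum M).M →ₗ[k] Y.M := Finsupp.lsum k F

private theorem teleLin_inc {M Y : Bim A B} (F : ℕ → M.M →ₗ[k] Y.M) (n : ℕ) (x : M.M) :
    teleLin F ((teleInc M n).f x) = F n x := Finsupp.lsum_single _ _ _ _

/-- The map given by its restrictions to the summands. -/
private noncomputable def teleDesc {M Y : Bim A B} {m : ℤ} (F : ℕ → GMap m M Y) :
    GMap m (dsum M) Y where
  f := teleLin fun n => (F n).f
  deg := fun {i x} hx => by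
    have h1 : teleLin (fun n => (F n).f) x = ∑ n ∈ (show ℕ →₀ M.M from x).support,
      (F n).f ((show ℕ →₀ M.M from x) n) := rfl
    rw [h1]
    have h2 : ∀ s : Finset ℕ,
        Y.dg.IsDeg (i + m) (∑ n ∈ s, (F n).f ((show ℕ →₀ M.M from x) n)) := by
      classical
      intro s
      induction s using Finset.induction_on with
      | empty => exact Dg.IsDeg.zero _
      | insert a t ha ih =>
        rw [Finset.sum_insert ha]
        exact ((F a).deg (teleDg_deg.1 hx a)).add ih
    exact h2 _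
  map_l := fun a x => by
    refine tele_ind (p := fun x => teleLin (fun n => (F n).f) ((dsum M).l a x) =
      Y.l (A.dg.sp m a) (teleLin (fun n => (F n).f) x)) ?_ ?_ ?_ x
    · rw [map_zero, map_zero, map_zero]
    · intro x y hx hy
      rw [map_add, map_add, hx, hy, map_add, map_add]
    · intro n x
      have h1 : (dsum M).l a ((teleInc M n).f x) = (teleInc M n).f (M.l a x) := by
        rw [(teleInc M n).map_l, Dg.sp_zero]
      rw [h1, teleLin_inc, teleLin_inc, (F n).map_l]
  map_r := fun a x => by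
    refine tele_ind (p := fun x => teleLin (fun n => (F n).f) ((dsum M).r a x) =
      Y.r a (teleLin (fun n => (F n).f) x)) ?_ ?_ ?_ x
    · rw [map_zero, map_zero, map_zero]
    · intro x y hx hy
      rw [map_add, map_add, hx, hy, map_add, map_add]
    · intro n x
      have h1 : (dsum M).r a ((teleInc M n).f x) = (teleInc M n).f (M.r a x) := by
        rw [(teleInc M n).map_r]
      rw [h1, teleLin_inc, teleLin_inc, (F n).map_r]

private theorem teleDesc_inc {M Y : Bim A B} {m : ℤ} (F : ℕ → GMap m M Y) (n : ℕ) (x : M.M) :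
    (teleDesc F).f ((teleInc M n).f x) = (F n).f x := teleLin_inc _ n x

private theorem teleDesc_dd {M Y : Bim A B} {m : ℤ} (F : ℕ → GMap m M Y) (n : ℕ) (x : M.M) :
    (teleDesc F).dd ((teleInc M n).f x) = (F n).dd x := by
  rw [← null_pull (teleInc_closed M n)]
  have h : (teleInc M n).comp (teleDesc F) (zero_add m) = F n :=
    GMap.ext fun x => teleDesc_inc F n x
  rw [h]

private theorem tele_null {M Y : Bim A B} (h : NullTo M Y) : NullTo (dsum M) Y := by
  intro n m f hf hm
  have h1 : ∀ i : ℕ, ∃ g : GMap m M Y, ∀ x, g.dd x = f.f ((teleInc M i).f x) := by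
    intro i
    refine h n m ((teleInc M i).comp f (zero_add n)) ?_ hm
    refine LinearMap.ext fun x => ?_
    rw [null_pull (teleInc_closed M i), hf]
    rfl
  choose g hg using h1
  refine ⟨teleDesc g, fun x => ?_⟩
  have h2 : (teleDesc g).dd = f.f := tele_ext fun i x => by rw [teleDesc_dd, hg]
  rw [h2]

private theorem tele_hproj {P : Bim A B} (hP : HProj P) (φ : GMap 0 (dsum P) (dsum P))
    (hφ : φ.dd = 0) : HProj (cone φ hφ) := by
  intro Y hY
  have h1 : NullTo (dsum P) Y := tele_null (hP Y hY)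
  have h2 : NullTo ((dsum P).shift 1) Y :=
    NullTo.right (isCone_cone (GMap.id (dsum P)) (LinearMap.ext GMap.dd_id)).isExt h1
      (NullTo.of_contr (contr_cone_id (dsum P)) Y)
  exact NullTo.mid (isCone_cone φ hφ).isExt h1 h2

/-- The projection to a summand. -/
private noncomputable def teleEv (M : Bim A B) (n : ℕ) : GMap 0 (dsum M) M where
  f := Finsupp.lapply n
  deg := fun {i x} hx => by
    rw [add_zero]
    exact teleDg_deg.1 hx n
  map_l := fun a x => by
    rw [Dg.sp_zero]
    rfl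
  map_r := fun a x => rfl

private theorem teleEv_d (M : Bim A B) (n : ℕ) (x : (dsum M).M) :
    (teleEv M n).f ((dsum M).dg.d x) = M.dg.d ((teleEv M n).f x) := rfl

private theorem teleEv_inc (M : Bim A B) (n m : ℕ) (x : M.M) :
    (teleEv M n).f ((teleInc M m).f x) = if m = n then x else 0 := Finsupp.single_apply

private theorem tele_sum (M : Bim A B) (x : (dsum M).M) :
    ∃ s : Finset ℕ, x = ∑ n ∈ s, (teleInc M n).f ((teleEv M n).f x) :=
  ⟨(show ℕ →₀ M.M from x).support, (Finsupp.sum_single (show ℕ →₀ M.M from x)).symm⟩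

/-- The shift of a map. -/
private noncomputable def teleSh {P : Bim A B} (E : GMap 0 P P) : GMap 0 (dsum P) (dsum P) :=
  teleDesc fun n => E.comp (teleInc P (n + 1)) (add_zero 0)

private theorem teleSh_inc {P : Bim A B} (E : GMap 0 P P) (n : ℕ) (x : P.M) :
    (teleSh E).f ((teleInc P n).f x) = (teleInc P (n + 1)).f (E.f x) := by
  rw [teleSh, teleDesc_inc, GMap.comp_f]

private theorem teleSh_zero {P : Bim A B} (E : GMap 0 P P) (x : (dsum P).M) :
    (teleEv P 0).f ((teleSh E).f x) = 0 := by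
  refine tele_ind (p := fun x => (teleEv P 0).f ((teleSh E).f x) = 0) ?_ ?_ ?_ x
  · rw [map_zero, map_zero]
  · intro x y hx hy
    rw [map_add, map_add, hx, hy, add_zero]
  · intro n x
    rw [teleSh_inc, teleEv_inc, if_neg (by omega)]

private theorem teleSh_succ {P : Bim A B} (E : GMap 0 P P) (n : ℕ) (x : (dsum P).M) :
    (teleEv P (n + 1)).f ((teleSh E).f x) = E.f ((teleEv P n).f x) := by
  refine tele_ind (p := fun x => (teleEv P (n + 1)).f ((teleSh E).f x) =
    E.f ((teleEv P n).f x)) ?_ ?_ ?_ x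
  · rw [map_zero, map_zero, map_zero, map_zero]
  · intro x y hx hy
    rw [map_add, map_add, hx, hy, map_add, map_add]
  · intro m x
    rw [teleSh_inc, teleEv_inc, teleEv_inc]
    by_cases h : m = n
    · rw [if_pos h, if_pos (by omega)]
    · rw [if_neg h, if_neg (by omega), map_zero]

private theorem teleSh_closed {P : Bim A B} {E : GMap 0 P P} (hE : E.dd = 0) :
    (teleSh E).dd = 0 := by
  refine tele_ext fun n x => ?_
  rw [teleSh, teleDesc_dd, GMap.dd_comp, hE, teleInc_closed]
  simp

/-- A closed element is a boundary if its image by `1 - shift E` is one. -/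
private theorem tele_inj {P : Bim A B} {E : GMap 0 P P} (hE : E.dd = 0) {u v : (dsum P).M}
    (h : (dsum P).dg.d v = u - (teleSh E).f u) : ∃ w, (dsum P).dg.d w = u := by
  have h1 : ∀ n, ∃ w, P.dg.d w = (teleEv P n).f u := by
    intro n
    induction n with
    | zero =>
      refine ⟨(teleEv P 0).f v, ?_⟩
      rw [← teleEv_d, h, map_sub, teleSh_zero, sub_zero]
    | succ n ih =>
      obtain ⟨w, hw⟩ := ih
      refine ⟨(teleEv P (n + 1)).f v + E.f w, ?_⟩
      rw [map_add, ← teleEv_d, h, map_sub, teleSh_succ, GMap.d_f_zero hE, hw, sub_add_cancel]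
  choose w hw using h1
  obtain ⟨s, hs⟩ := tele_sum P u
  refine ⟨∑ n ∈ s, (teleInc P n).f (w n), ?_⟩
  rw [map_sum]
  conv_rhs => rw [hs]
  refine Finset.sum_congr rfl fun n _ => ?_
  rw [GMap.d_f_zero (teleInc_closed P n), hw]

/-- The map from a cone given by a closed map and a homotopy. -/
private theorem tele_cone {M N Y C : Bim A B} {φ : GMap 0 M N} {t : GMap (-1) M C}
    {j : GMap 0 N C} {p : GMap 1 C M} {q : GMap 0 C N} (h0 : p.dd = 0) (h1 : j.dd = 0)
    (h2 : ∀ x, t.dd x = j.f (φ.f x)) (h4 : ∀ y, q.f (j.f y) = y)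
    (h5 : ∀ y, p.f (j.f y) = 0) (h6 : ∀ x, q.f (t.f x) = 0)
    (h7 : ∀ c, t.f (p.f c) + j.f (q.f c) = c) (g : GMap 0 N Y) (hg : g.dd = 0)
    (s : GMap (-1) M Y) (hs : ∀ x, s.dd x = g.f (φ.f x)) :
    ∃ τ : GMap 0 C Y, τ.dd = 0 ∧ ∀ y, τ.f (j.f y) = g.f y := by
  have hq := IsCone.q_dd h1 h2 h4 h6 h7
  refine ⟨q.comp g (zero_add 0) + p.comp s (add_neg_cancel 1), ?_, ?_⟩
  · refine LinearMap.ext fun c => ?_
    rw [GMap.dd_add, GMap.dd_comp, GMap.dd_comp, hg, h0, hq, hs, LinearMap.zero_apply,
      LinearMap.zero_apply, map_zero, smul_zero, sg_zero, one_smul, map_neg, zero_add, add_zero,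
      neg_add_cancel]
    rfl
  · intro y
    rw [GMap.add_f, GMap.comp_f, GMap.comp_f, h4, h5, map_zero, add_zero]

theorem HasRes.summand {M N : Bim A B} (hN : HasRes N) (h : IsSummand M N) : HasRes M := by
  obtain ⟨P, f, hP, hf⟩ := hN
  obtain ⟨ι, π, hι, hπ, hπι⟩ := h
  have hPh : HProj P := hP.hproj
  -- the idempotent and its lift
  have hf0 : f.dd = 0 := hf.1
  obtain ⟨E, H, hE, hH⟩ := hPh.lift f hf ((f.comp π (add_zero 0)).comp ι (add_zero 0)) (by
    refine LinearMap.ext fun x => ?_
    rw [GMap.dd_comp, GMap.dd_comp, hf0, hπ, hι]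
    simp)
  -- the telescope
  obtain ⟨φ, hφd⟩ : ∃ φ : GMap 0 (dsum P) (dsum P), ∀ x, φ.f x = x - (teleSh E).f x :=
    ⟨GMap.id (dsum P) - teleSh E, fun x => by rw [GMap.sub_f, GMap.id_f]⟩
  have hφ : φ.dd = 0 := by
    refine LinearMap.ext fun x => ?_
    rw [GMap.dd_apply, hφd, hφd, sg_zero, one_smul, map_sub, GMap.d_f_zero (teleSh_closed hE),
      sub_self]
    rfl
  have hX : HProj (cone φ hφ) := tele_hproj hPh φ hφ
  obtain ⟨t, j, p, q, h0, h1, h2, h3, h4, h5, h6, h7⟩ := isCone_cone φ hφ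
  generalize cone φ hφ = X at *
  have htd : ∀ x, X.dg.d (t.f x) = j.f (φ.f x) - t.f ((dsum P).dg.d x) := by
    intro x
    have e := h2 x
    rw [GMap.dd_apply, sg_neg, sg_one, neg_smul, one_smul, sub_neg_eq_add] at e
    rw [← e, add_sub_cancel_right]
  -- the map to `M`
  have hfπ : (f.comp π (add_zero 0)).dd = 0 := by
    refine LinearMap.ext fun x => ?_
    rw [GMap.dd_comp, hf0, hπ]
    simp
  have ha : (teleDesc fun _ : ℕ => f.comp π (add_zero 0)).dd = 0 :=
    tele_ext fun n x => by rw [teleDesc_dd, hfπ]; rfl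
  have hb : ∀ x, (teleDesc fun _ : ℕ => H.comp π (add_zero (-1))).dd x =
      (teleDesc fun _ : ℕ => f.comp π (add_zero 0)).f (φ.f x) := by
    intro x
    have e : (teleDesc fun _ : ℕ => H.comp π (add_zero (-1))).dd =
        (teleDesc fun _ : ℕ => f.comp π (add_zero 0)).f ∘ₗ φ.f := by
      refine tele_ext fun n x => ?_
      rw [teleDesc_dd, LinearMap.comp_apply, hφd, teleSh_inc, map_sub, teleDesc_inc,
        teleDesc_inc, GMap.dd_comp, hπ, hH, LinearMap.zero_apply, zero_add, sg_zero, one_smul,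
        map_sub, GMap.comp_f, GMap.comp_f, hπι, GMap.comp_f]
    rw [e]
    rfl
  obtain ⟨τ, hτ, hτj⟩ := tele_cone h0 h1 h2 h4 h5 h6 h7 _ ha _ hb
  have hτi : ∀ n x, τ.f (j.f ((teleInc P n).f x)) = π.f (f.f x) := fun n x => by
    rw [hτj, teleDesc_inc, GMap.comp_f]
  -- moving a closed element
  have hmv : ∀ n x, P.dg.d x = 0 → X.dg.d (t.f ((teleInc P n).f x)) =
      j.f ((teleInc P n).f x) - j.f ((teleInc P (n + 1)).f (E.f x)) := by
    intro n x hx
    rw [htd, GMap.d_f_zero (teleInc_closed P n), hx, map_zero, map_zero, sub_zero, hφd,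
      teleSh_inc, map_sub]
  have hone : ∀ n x, P.dg.d x = 0 → ∀ L, n ≤ L → ∃ x', P.dg.d x' = 0 ∧
      ∃ z, X.dg.d z = j.f ((teleInc P n).f x) - j.f ((teleInc P L).f x') := by
    intro n x hx L hL
    induction L, hL using Nat.le_induction with
    | base => exact ⟨x, hx, 0, by rw [map_zero, sub_self]⟩
    | succ L hL ih =>
      obtain ⟨x', hx', z, hz⟩ := ih
      refine ⟨E.f x', by rw [GMap.d_f_zero hE, hx', map_zero],
        z + t.f ((teleInc P L).f x'), ?_⟩
      rw [map_add, hz, hmv L x' hx', sub_add_sub_cancel]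
  have hsum : ∀ w : ℕ → P.M, (∀ n, P.dg.d (w n) = 0) → ∀ s : Finset ℕ, ∃ K, ∀ L, K ≤ L →
      ∃ x, P.dg.d x = 0 ∧
        ∃ z, X.dg.d z = j.f (∑ n ∈ s, (teleInc P n).f (w n)) - j.f ((teleInc P L).f x) := by
    classical
    intro w hw s
    induction s using Finset.induction_on with
    | empty =>
      exact ⟨0, fun L _ => ⟨0, map_zero _, 0, by
        rw [Finset.sum_empty, map_zero, map_zero, map_zero, map_zero, sub_self]⟩⟩
    | insert a s ha ih =>
      obtain ⟨K, hK⟩ := ih
      refine ⟨max K a, fun L hL => ?_⟩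
      obtain ⟨x, hx, z, hz⟩ := hK L (le_of_max_le_left hL)
      obtain ⟨x', hx', z', hz'⟩ := hone a (w a) (hw a) L (le_of_max_le_right hL)
      refine ⟨x' + x, by rw [map_add, hx, hx', add_zero], z' + z, ?_⟩
      rw [Finset.sum_insert ha, map_add, hz, hz', map_add, map_add, map_add]
      abel
  have hcl : ∀ v : (dsum P).M, (dsum P).dg.d v = 0 → ∃ L x, P.dg.d x = 0 ∧
      ∃ z, X.dg.d z = j.f v - j.f ((teleInc P L).f x) := by
    intro v hv
    obtain ⟨s, hs⟩ := tele_sum P v
    obtain ⟨K, hK⟩ := hsum (fun n => (teleEv P n).f v) (fun n => by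
      rw [← teleEv_d, hv, map_zero]) s
    rw [← hs] at hK
    exact ⟨K, hK K le_rfl⟩
  have hτq : QIso τ := by
    refine ⟨hτ, ?_, ?_⟩
    · rintro c hc ⟨y, hy⟩
      have hdu : (dsum P).dg.d (p.f c) = 0 := by
        rw [GMap.d_f h0, hc, map_zero, smul_zero]
      have hfu : φ.f (p.f c) + (dsum P).dg.d (q.f c) = 0 := by
        have e : X.dg.d (t.f (p.f c) + j.f (q.f c)) = 0 := by rw [h7, hc]
        rw [map_add, htd, hdu, map_zero, sub_zero, GMap.d_f_zero h1, ← map_add] at e
        rw [← h4 (φ.f (p.f c) + (dsum P).dg.d (q.f c)), e, map_zero]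
      obtain ⟨w, hw⟩ := tele_inj hE (u := p.f c) (v := - q.f c) (by
        rw [map_neg, ← hφd]
        exact neg_eq_of_add_eq_zero_left hfu)
      have hcw : c + X.dg.d (t.f w) = j.f (q.f c + φ.f w) := by
        have e : c = t.f (p.f c) + j.f (q.f c) := (h7 c).symm
        rw [htd, hw, map_add]
        calc c + (j.f (φ.f w) - t.f (p.f c))
            = t.f (p.f c) + j.f (q.f c) + (j.f (φ.f w) - t.f (p.f c)) := by rw [← e]
          _ = j.f (q.f c) + j.f (φ.f w) := by abel
      have hv' : (dsum P).dg.d (q.f c + φ.f w) = 0 := by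
        have e : j.f ((dsum P).dg.d (q.f c + φ.f w)) = 0 := by
          rw [← GMap.d_f_zero h1, ← hcw, map_add, hc, X.dg.d_d, add_zero]
        rw [← h4 ((dsum P).dg.d (q.f c + φ.f w)), e, map_zero]
      obtain ⟨L, x, hx, z, hz⟩ := hcl _ hv'
      -- the image of `x` is a boundary
      have hπx : M.dg.d (y + τ.f (t.f w) - τ.f z) = π.f (f.f x) := by
        have e := congrArg τ.f hz
        rw [← hcw, map_sub, map_add, hτi] at e
        rw [map_sub, map_add, hy, GMap.d_f_zero hτ, GMap.d_f_zero hτ, e]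
        abel
      have hEx : N.dg.d (ι.f (y + τ.f (t.f w) - τ.f z) - H.f x) = f.f (E.f x) := by
        have e := hH x
        rw [GMap.dd_apply, hx, map_zero, smul_zero, sub_zero] at e
        rw [map_sub, GMap.d_f_zero hι, hπx, e, GMap.comp_f, GMap.comp_f, sub_sub_cancel]
      obtain ⟨z', hz'⟩ := hf.2.1 (E.f x) (by rw [GMap.d_f_zero hE, hx, map_zero]) ⟨_, hEx⟩
      have hjx : X.dg.d (t.f ((teleInc P L).f x) + j.f ((teleInc P (L + 1)).f z')) =
          j.f ((teleInc P L).f x) := by
        rw [map_add, hmv L x hx, GMap.d_f_zero h1, GMap.d_f_zero (teleInc_closed P (L + 1)), hz',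
          sub_add_cancel]
      refine ⟨z + (t.f ((teleInc P L).f x) + j.f ((teleInc P (L + 1)).f z')) - t.f w, ?_⟩
      rw [map_sub, map_add X.dg.d z, hjx, hz, ← hcw]
      abel
    · intro y hy
      obtain ⟨x, hx, z, hz⟩ := hf.2.2 (ι.f y) (by rw [GMap.d_f_zero hι, hy, map_zero])
      refine ⟨j.f ((teleInc P 0).f x), ?_, π.f z, ?_⟩
      · rw [GMap.d_f_zero h1, GMap.d_f_zero (teleInc_closed P 0), hx, map_zero, map_zero]
      · rw [GMap.d_f_zero hπ, hz, map_sub, hπι, hτi]
  -- the lifts
  obtain ⟨i, s1, hi, hs1⟩ := hX.lift f hf (τ.comp ι (add_zero 0)) (by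
    refine LinearMap.ext fun x => ?_
    rw [GMap.dd_comp, hτ, hι]
    simp)
  obtain ⟨r, s2, hr, hs2⟩ := hPh.lift τ hτq (f.comp π (add_zero 0)) hfπ
  have hid : (GMap.id X - i.comp r (add_zero 0)).dd = 0 := by
    refine LinearMap.ext fun x => ?_
    rw [GMap.dd_sub, GMap.dd_id, GMap.dd_comp, hi, hr]
    simp
  obtain ⟨s', hs'⟩ := hX.null_of_comp τ hτq (GMap.id X - i.comp r (add_zero 0)) hid
    (s1.comp π (add_zero (-1)) + i.comp s2 (zero_add (-1))) (by
    intro x
    rw [GMap.dd_add, null_pull hi, GMap.dd_comp, hπ, hs1, hs2, LinearMap.zero_apply, zero_add,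
      sg_zero, one_smul, map_sub, GMap.comp_f, GMap.comp_f, hπι, GMap.sub_f, GMap.id_f, map_sub,
      GMap.comp_f, sub_add_sub_cancel])
  exact ⟨X, τ, Perf.of_htpy_retract hP i r hi hr s' (fun x => hs' x), hτq⟩

end Pool.Agent.MP_6e5bed_ag_NC
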