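import Pool.Agent.Lib.MP_6e5bed_ag_CV.TriA
import Pool.Agent.Lib.MP_6e5bed_ag_CV.Tele

set_option autoImplicit false

/-!
# Torsion bimodules over cospans (NC CURVES, row 13)
-/

namespace Pool.Agent.MP_6e5bed_ag_NC

universe u

variable {k : Type u} [Field k]

namespace Tri

variable {S T : Cosp k} {A B : DGA k}

/-- The components are finite-dimensional, and the maps are surjective. -/
def Tors (M : Tri S T) : Prop := Module.Finite k M.M0.M ∧ Module.Finite k M.M1.M ∧
  Module.Finite k M.M01.M ∧ Function.Surjective M.ρ0 ∧ Function.Surjective M.ρ1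

section aux

variable {R R' : Type u} [Ring R] [Algebra k R] [Ring R'] [Algebra k R']

variable (k R R') in
/-- the zero bimodule -/
private def torsZ : KBi k R R' where
  M := PUnit.{u + 1}
  l := 0
  r := 0
  l_one := fun _ => rfl
  r_one := fun _ => rfl
  l_mul := fun _ _ _ => rfl
  r_mul := fun _ _ _ => rfl
  l_r := fun _ _ _ => rfl

/-- a sub-bimodule -/
private def torsSub (U : KBi k R R') (X : Submodule k U.M) (hl : ∀ a, ∀ x ∈ X, U.l a x ∈ X)
    (hr : ∀ b, ∀ x ∈ X, U.r b x ∈ X) : KBi k R R' where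
  M := X
  l := LinearMap.mk₂ k (fun a x => ⟨U.l a x, hl a x x.2⟩)
    (fun a a' x => Subtype.ext (by simp)) (fun c a x => Subtype.ext (by simp))
    (fun a x x' => Subtype.ext (by simp)) (fun c a x => Subtype.ext (by simp))
  r := LinearMap.mk₂ k (fun b x => ⟨U.r b x, hr b x x.2⟩)
    (fun a a' x => Subtype.ext (by simp)) (fun c a x => Subtype.ext (by simp))
    (fun a x x' => Subtype.ext (by simp)) (fun c a x => Subtype.ext (by simp))
  l_one := fun m => Subtype.ext (U.l_one m)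
  r_one := fun m => Subtype.ext (U.r_one m)
  l_mul := fun a a' m => Subtype.ext (U.l_mul a a' m)
  r_mul := fun a a' m => Subtype.ext (U.r_mul a a' m)
  l_r := fun a a' m => Subtype.ext (U.l_r a a' m)

private theorem IsSummand.torsRes {A' B' : DGA k} {M N : Bim A' B'} (h : IsSummand M N)
    (α : DHom A A') (β : DHom B B') : IsSummand (res α β M) (res α β N) := by
  obtain ⟨i, r, hi, hr, h⟩ := h
  exact ⟨i.res α β, r.res α β, hi, hr, h⟩

private theorem QIso.torsRes {A' B' : DGA k} {M N : Bim A' B'} {f : GMap 0 M N} (h : QIso f)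
    (α : DHom A A') (β : DHom B B') : QIso (f.res α β) := h

end aux

/-- the projection to `M0` -/
private noncomputable def torsP0 (M : Tri S T) :
    GMap 0 M.bim (res S.proj0 T.proj0 M.M0.bim) where
  f := (LinearMap.fst k M.M0.M M.M1.M).comp (LinearMap.fst k (M.M0.M × M.M1.M) M.M01.M)
  deg := fun {i m} hm => by
    rw [add_zero]
    rcases Dg.two_isDeg M.δ (v := m.1) (w := m.2) hm with ⟨rfl, _⟩ | ⟨_, h⟩ | ⟨h, _⟩
    · exact Dg.conc_deg _
    · change (Dg.conc k M.M0.M).IsDeg i m.1.1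
      rw [h]
      exact Dg.IsDeg.zero _
    · change (Dg.conc k M.M0.M).IsDeg i m.1.1
      rw [h]
      exact Dg.IsDeg.zero _
  map_l := fun a m => by
    rw [Dg.sp_zero]
    rfl
  map_r := fun b m => rfl

private theorem torsP0_dd (M : Tri S T) : (torsP0 M).dd = 0 := by
  refine LinearMap.ext fun x => ?_
  change (0 : M.M0.M) - (sg 0) • (0 : M.M0.M) = 0
  rw [smul_zero, sub_zero]

/-- the projection to `M1` -/
private noncomputable def torsP1 (M : Tri S T) :
    GMap 0 M.bim (res S.proj1 T.proj1 M.M1.bim) where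
  f := (LinearMap.snd k M.M0.M M.M1.M).comp (LinearMap.fst k (M.M0.M × M.M1.M) M.M01.M)
  deg := fun {i m} hm => by
    rw [add_zero]
    rcases Dg.two_isDeg M.δ (v := m.1) (w := m.2) hm with ⟨rfl, _⟩ | ⟨_, h⟩ | ⟨h, _⟩
    · exact Dg.conc_deg _
    · change (Dg.conc k M.M1.M).IsDeg i m.1.2
      rw [h]
      exact Dg.IsDeg.zero _
    · change (Dg.conc k M.M1.M).IsDeg i m.1.2
      rw [h]
      exact Dg.IsDeg.zero _
  map_l := fun a m => by
    rw [Dg.sp_zero]
    rfl
  map_r := fun b m => rfl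

private theorem torsP1_dd (M : Tri S T) : (torsP1 M).dd = 0 := by
  refine LinearMap.ext fun x => ?_
  change (0 : M.M1.M) - (sg 0) • (0 : M.M1.M) = 0
  rw [smul_zero, sub_zero]

private theorem torsP0_qiso (M : Tri S T) (hb : Function.Bijective M.ρ1) : QIso (torsP0 M) := by
  refine ⟨torsP0_dd M, ?_, ?_⟩
  · rintro ⟨⟨m0, m1⟩, n⟩ hx ⟨y, hy⟩
    have h0 : (0 : M.M0.M) = m0 := hy
    have h1 : M.ρ1 m1 - M.ρ0 m0 = 0 := congrArg Prod.snd hx
    subst h0
    rw [map_zero, sub_zero] at h1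
    have h2 : m1 = 0 := hb.1 (by rw [h1, map_zero])
    subst h2
    obtain ⟨m', rfl⟩ := hb.2 n
    refine ⟨((0, m'), 0), ?_⟩
    change ((0 : M.M0.M × M.M1.M), M.ρ1 m' - M.ρ0 0) = ((0, 0), M.ρ1 m')
    rw [map_zero, sub_zero]
    rfl
  · intro y _
    obtain ⟨m1, h1⟩ := hb.2 (M.ρ0 y)
    refine ⟨((y, m1), 0), ?_, 0, ?_⟩
    · change ((0 : M.M0.M × M.M1.M), M.ρ1 m1 - M.ρ0 y) = 0
      rw [h1, sub_self]
      rfl
    · exact (sub_self (y : M.M0.M)).symm

private theorem torsP1_qiso (M : Tri S T) (hb : Function.Bijective M.ρ0) : QIso (torsP1 M) := by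
  refine ⟨torsP1_dd M, ?_, ?_⟩
  · rintro ⟨⟨m0, m1⟩, n⟩ hx ⟨y, hy⟩
    have h0 : (0 : M.M1.M) = m1 := hy
    have h1 : M.ρ1 m1 - M.ρ0 m0 = 0 := congrArg Prod.snd hx
    subst h0
    rw [map_zero, zero_sub, neg_eq_zero] at h1
    have h2 : m0 = 0 := hb.1 (by rw [h1, map_zero])
    subst h2
    obtain ⟨m', rfl⟩ := hb.2 n
    refine ⟨((-m', 0), 0), ?_⟩
    change ((0 : M.M0.M × M.M1.M), M.ρ1 0 - M.ρ0 (-m')) = ((0, 0), M.ρ0 m')
    rw [map_zero, map_neg, zero_sub, neg_neg]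
    rfl
  · intro y _
    obtain ⟨m0, h1⟩ := hb.2 (M.ρ1 y)
    refine ⟨((m0, y), 0), ?_, 0, ?_⟩
    · change ((0 : M.M0.M × M.M1.M), M.ρ1 y - M.ρ0 m0) = 0
      rw [h1, sub_self]
      rfl
    · exact (sub_self (y : M.M1.M)).symm

/-- the part `m0 = 0` -/
private def torsZ1 (M : Tri S T) : Tri S T where
  M0 := torsZ k S.A0 T.A0
  M1 := M.M1
  M01 := M.M01
  ρ0 := 0
  ρ1 := M.ρ1
  ρ0_l := by simp
  ρ0_r := by simp
  ρ1_l := M.ρ1_l
  ρ1_r := M.ρ1_r

private def torsZ1hom (M : Tri S T) : Hom (torsZ1 M) M where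
  f0 := 0
  f1 := LinearMap.id
  f01 := LinearMap.id
  l0 := by simp
  r0 := by simp
  l1 := fun _ _ => rfl
  r1 := fun _ _ => rfl
  l01 := fun _ _ => rfl
  r01 := fun _ _ => rfl
  ρ0 := fun m => by
    change (0 : M.M01.M) = M.ρ0 0
    rw [map_zero]
  ρ1 := fun _ => rfl

/-- The sub-bimodule `m0 = 0` is quasi-isomorphic to the kernel of `ρ1`, the quotient is `M0`. -/
theorem ses0 (M : Tri S T) (h1 : Function.Surjective M.ρ1) :
    ∃ (U : KBi k S.A1 T.A1) (i : U.M →ₗ[k] M.M1.M) (Z : Bim S.cech T.cech),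
      Function.Injective i ∧ IsSes Z M.bim (res S.proj0 T.proj0 M.M0.bim) ∧
      ∃ q : GMap 0 (res S.proj1 T.proj1 U.bim) Z, QIso q := by
  have hl : ∀ a, ∀ x ∈ LinearMap.ker M.ρ1, M.M1.l a x ∈ LinearMap.ker M.ρ1 := by
    intro a x hx
    rw [LinearMap.mem_ker] at hx ⊢
    rw [M.ρ1_l, hx, map_zero]
  have hr : ∀ a, ∀ x ∈ LinearMap.ker M.ρ1, M.M1.r a x ∈ LinearMap.ker M.ρ1 := by
    intro a x hx
    rw [LinearMap.mem_ker] at hx ⊢
    rw [M.ρ1_r, hx, map_zero]
  refine ⟨torsSub M.M1 (LinearMap.ker M.ρ1) hl hr, (LinearMap.ker M.ρ1).subtype, (torsZ1 M).bim,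
    (LinearMap.ker M.ρ1).injective_subtype, ?_, ?_⟩
  · refine ⟨(torsZ1hom M).gmap, torsP0 M, (torsZ1hom M).gmap_dd, torsP0_dd M, ?_, ?_, ?_⟩
    · rintro ⟨⟨a0, a1⟩, a01⟩ ⟨⟨b0, b1⟩, b01⟩ hab
      have h2 : (((0 : M.M0.M), a1), a01) = (((0 : M.M0.M), b1), b01) := hab
      simp only [Prod.mk.injEq, true_and] at h2
      obtain ⟨rfl, rfl⟩ := h2
      rfl
    · intro y
      exact ⟨((y, 0), 0), rfl⟩
    · rintro ⟨⟨m0, m1⟩, n⟩
      constructor
      · intro h
        have h0 : m0 = 0 := h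
        subst h0
        exact ⟨((PUnit.unit, m1), n), rfl⟩
      · rintro ⟨⟨⟨a0, a1⟩, a01⟩, h⟩
        have h2 : (((0 : M.M0.M), a1), a01) = ((m0, m1), n) := h
        have h3 : (0 : M.M0.M) = m0 := congrArg (fun z => z.1.1) h2
        exact h3.symm
  · let q : GMap 0 (res S.proj1 T.proj1 (torsSub M.M1 (LinearMap.ker M.ρ1) hl hr).bim)
        (torsZ1 M).bim :=
      { f := (LinearMap.inl k (PUnit.{u + 1} × M.M1.M) M.M01.M).comp
          ((LinearMap.inr k PUnit.{u + 1} M.M1.M).comp (LinearMap.ker M.ρ1).subtype)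
        deg := fun {i m} hm => by
          rw [add_zero]
          have hm' : (Dg.conc k ↥(LinearMap.ker M.ρ1)).IsDeg i m := hm
          rcases Dg.conc_cases hm' with rfl | h
          · exact Dg.two_deg0 (torsZ1 M).δ _
          · have h0 : m = (0 : LinearMap.ker M.ρ1) := h
            have h2 : ((LinearMap.inl k (PUnit.{u + 1} × M.M1.M) M.M01.M).comp
              ((LinearMap.inr k PUnit.{u + 1} M.M1.M).comp (LinearMap.ker M.ρ1).subtype))
                m = 0 := by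
              rw [h0, map_zero]
            have h3 : (Dg.two (torsZ1 M).δ).IsDeg i
              (0 : (PUnit.{u + 1} × M.M1.M) × M.M01.M) := Dg.IsDeg.zero _
            exact h2 ▸ h3
        map_l := fun a m => by
          rw [Dg.sp_zero]
          have hm : M.ρ1 (m : LinearMap.ker M.ρ1).1 = 0 := (m : LinearMap.ker M.ρ1).2
          change (((PUnit.unit : PUnit.{u + 1}), M.M1.l a.1.2 (m : LinearMap.ker M.ρ1).1),
            (0 : M.M01.M)) = ((PUnit.unit, M.M1.l a.1.2 (m : LinearMap.ker M.ρ1).1),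
              M.M01.l (S.r0 a.1.1) 0 + M.M01.l a.2 (M.ρ1 (m : LinearMap.ker M.ρ1).1))
          rw [hm, map_zero, map_zero, add_zero]
        map_r := fun b m => by
          change (((PUnit.unit : PUnit.{u + 1}), M.M1.r b.1.2 (m : LinearMap.ker M.ρ1).1),
            (0 : M.M01.M)) = ((PUnit.unit, M.M1.r b.1.2 (m : LinearMap.ker M.ρ1).1),
              M.M01.r b.2 0 + M.M01.r (T.r1 b.1.2) 0)
          rw [map_zero, map_zero, add_zero] }
    refine ⟨q, ?_, ?_, ?_⟩
    · refine LinearMap.ext fun m => ?_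
      have hm : M.ρ1 (m : LinearMap.ker M.ρ1).1 = 0 := (m : LinearMap.ker M.ρ1).2
      have e1 : (torsZ1 M).bim.dg.d (q.f m) = 0 := by
        change ((0 : PUnit.{u + 1} × M.M1.M), M.ρ1 (m : LinearMap.ker M.ρ1).1 - 0) = 0
        rw [hm, sub_zero]
        rfl
      have e2 : (res S.proj1 T.proj1
        (torsSub M.M1 (LinearMap.ker M.ρ1) hl hr).bim).dg.d m = 0 := rfl
      rw [GMap.dd_apply, e1, e2, map_zero, smul_zero, sub_zero]
      rfl
    · rintro x hx ⟨⟨⟨y0, y1⟩, y01⟩, hy⟩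
      have h2 : ((0 : PUnit.{u + 1} × M.M1.M), M.ρ1 y1 - 0) =
        ((PUnit.unit, (x : LinearMap.ker M.ρ1).1), 0) := hy
      have h3 : (0 : M.M1.M) = (x : LinearMap.ker M.ρ1).1 := congrArg (fun z => z.1.2) h2
      refine ⟨(0 : LinearMap.ker M.ρ1), ?_⟩
      exact Subtype.ext h3
    · rintro ⟨⟨y0, y1⟩, y01⟩ hy
      have h2 : M.ρ1 y1 - 0 = 0 := congrArg Prod.snd hy
      rw [sub_zero] at h2
      obtain ⟨m', hm'⟩ := h1 y01
      refine ⟨(⟨y1, h2⟩ : LinearMap.ker M.ρ1), rfl, ((PUnit.unit, m'), 0), ?_⟩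
      have e : ∀ (z1 : M.M1.M) (z01 : M.M01.M), M.ρ1 m' = z01 →
          ((0 : PUnit.{u + 1} × M.M1.M), M.ρ1 m' - 0) =
          (((PUnit.unit, z1), z01) : (PUnit.{u + 1} × M.M1.M) × M.M01.M) -
            (((PUnit.unit, z1), 0) : (PUnit.{u + 1} × M.M1.M) × M.M01.M) := by
        intro z1 z01 hz
        rw [hz, sub_zero, Prod.mk_sub_mk, sub_zero, sub_self]
      exact e y1 y01 hm'

/-- The bimodule `M0` has a resolution if `M` has one, provided that the kernel of `ρ1` is a direct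
summand of `M1` (`(M0, range e, M01)` is a direct summand of `M`, and its Čech bimodule is
quasi-isomorphic to `M0`). -/
theorem hasRes_M0 (M : Tri S T) (h1 : Function.Surjective M.ρ1) (e : M.M1.M →ₗ[k] M.M1.M)
    (hl : ∀ a m, e (M.M1.l a m) = M.M1.l a (e m)) (hr : ∀ b m, e (M.M1.r b m) = M.M1.r b (e m))
    (he : ∀ m, e (e m) = e m) (hk : ∀ m, e m = 0 ↔ M.ρ1 m = 0) (α : DHom A S.cech)
    (β : DHom B T.cech) (h : HasRes (res α β M.bim)) :
    HasRes (res (α.comp S.proj0) (β.comp T.proj0) M.M0.bim) := by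
  have hρ : ∀ m, M.ρ1 (e m) = M.ρ1 m := by
    intro m
    have h2 : M.ρ1 (e m - m) = 0 := (hk _).1 (by rw [map_sub, he, sub_self])
    rwa [map_sub, sub_eq_zero] at h2
  let N : Tri S T :=
    { M0 := M.M0
      M1 := torsSub M.M1 (LinearMap.range e)
        (by rintro a _ ⟨x, rfl⟩; exact ⟨M.M1.l a x, hl a x⟩)
        (by rintro a _ ⟨x, rfl⟩; exact ⟨M.M1.r a x, hr a x⟩)
      M01 := M.M01
      ρ0 := M.ρ0
      ρ1 := M.ρ1.comp (LinearMap.range e).subtype
      ρ0_l := M.ρ0_l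
      ρ0_r := M.ρ0_r
      ρ1_l := fun a m => M.ρ1_l a _
      ρ1_r := fun a m => M.ρ1_r a _ }
  let i : Hom N M :=
    { f0 := LinearMap.id
      f1 := (LinearMap.range e).subtype
      f01 := LinearMap.id
      l0 := fun _ _ => rfl
      r0 := fun _ _ => rfl
      l1 := fun _ _ => rfl
      r1 := fun _ _ => rfl
      l01 := fun _ _ => rfl
      r01 := fun _ _ => rfl
      ρ0 := fun _ => rfl
      ρ1 := fun _ => rfl }
  let r : Hom M N :=
    { f0 := LinearMap.id
      f1 := e.rangeRestrict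
      f01 := LinearMap.id
      l0 := fun _ _ => rfl
      r0 := fun _ _ => rfl
      l1 := fun a m => Subtype.ext (hl a m)
      r1 := fun a m => Subtype.ext (hr a m)
      l01 := fun _ _ => rfl
      r01 := fun _ _ => rfl
      ρ0 := fun _ => rfl
      ρ1 := fun m => (hρ m).symm }
  have hs : IsSummand N.bim M.bim := by
    refine Tri.isSummand i r (fun _ => rfl) ?_ (fun _ => rfl)
    rintro ⟨_, x, rfl⟩
    exact Subtype.ext (he x)
  have hN : HasRes (res α β N.bim) := HasRes.summand h (IsSummand.torsRes hs α β)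
  have hb : Function.Bijective N.ρ1 := by
    constructor
    · rw [injective_iff_map_eq_zero]
      rintro ⟨_, x, rfl⟩ hx
      have h2 : M.ρ1 (e x) = 0 := hx
      rw [hρ] at h2
      exact Subtype.ext ((hk x).2 h2)
    · intro n
      obtain ⟨m, rfl⟩ := h1 n
      exact ⟨(⟨e m, m, rfl⟩ : LinearMap.range e), hρ m⟩
  exact HasRes.of_qiso hN ((torsP0 N).res α β) (QIso.torsRes (torsP0_qiso N hb) α β)

/-- The bimodule `M1` has a resolution if `M` has one, provided that the kernel of `ρ0` is a direct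
summand of `M0`. -/
theorem hasRes_M1 (M : Tri S T) (h0 : Function.Surjective M.ρ0) (e : M.M0.M →ₗ[k] M.M0.M)
    (hl : ∀ a m, e (M.M0.l a m) = M.M0.l a (e m)) (hr : ∀ b m, e (M.M0.r b m) = M.M0.r b (e m))
    (he : ∀ m, e (e m) = e m) (hk : ∀ m, e m = 0 ↔ M.ρ0 m = 0) (α : DHom A S.cech)
    (β : DHom B T.cech) (h : HasRes (res α β M.bim)) :
    HasRes (res (α.comp S.proj1) (β.comp T.proj1) M.M1.bim) := by
  have hρ : ∀ m, M.ρ0 (e m) = M.ρ0 m := by
    intro m
    have h2 : M.ρ0 (e m - m) = 0 := (hk _).1 (by rw [map_sub, he, sub_self])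
    rwa [map_sub, sub_eq_zero] at h2
  let N : Tri S T :=
    { M0 := torsSub M.M0 (LinearMap.range e)
        (by rintro a _ ⟨x, rfl⟩; exact ⟨M.M0.l a x, hl a x⟩)
        (by rintro a _ ⟨x, rfl⟩; exact ⟨M.M0.r a x, hr a x⟩)
      M1 := M.M1
      M01 := M.M01
      ρ0 := M.ρ0.comp (LinearMap.range e).subtype
      ρ1 := M.ρ1
      ρ0_l := fun a m => M.ρ0_l a _
      ρ0_r := fun a m => M.ρ0_r a _
      ρ1_l := M.ρ1_l
      ρ1_r := M.ρ1_r }
  let i : Hom N M :=
    { f0 := (LinearMap.range e).subtype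
      f1 := LinearMap.id
      f01 := LinearMap.id
      l0 := fun _ _ => rfl
      r0 := fun _ _ => rfl
      l1 := fun _ _ => rfl
      r1 := fun _ _ => rfl
      l01 := fun _ _ => rfl
      r01 := fun _ _ => rfl
      ρ0 := fun _ => rfl
      ρ1 := fun _ => rfl }
  let r : Hom M N :=
    { f0 := e.rangeRestrict
      f1 := LinearMap.id
      f01 := LinearMap.id
      l0 := fun a m => Subtype.ext (hl a m)
      r0 := fun a m => Subtype.ext (hr a m)
      l1 := fun _ _ => rfl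
      r1 := fun _ _ => rfl
      l01 := fun _ _ => rfl
      r01 := fun _ _ => rfl
      ρ0 := fun m => (hρ m).symm
      ρ1 := fun _ => rfl }
  have hs : IsSummand N.bim M.bim := by
    refine Tri.isSummand i r ?_ (fun _ => rfl) (fun _ => rfl)
    rintro ⟨_, x, rfl⟩
    exact Subtype.ext (he x)
  have hN : HasRes (res α β N.bim) := HasRes.summand h (IsSummand.torsRes hs α β)
  have hb : Function.Bijective N.ρ0 := by
    constructor
    · rw [injective_iff_map_eq_zero]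
      rintro ⟨_, x, rfl⟩ hx
      have h2 : M.ρ0 (e x) = 0 := hx
      rw [hρ] at h2
      exact Subtype.ext ((hk x).2 h2)
    · intro n
      obtain ⟨m, rfl⟩ := h0 n
      exact ⟨(⟨e m, m, rfl⟩ : LinearMap.range e), hρ m⟩
  exact HasRes.of_qiso hN ((torsP1 N).res α β) (QIso.torsRes (torsP1_qiso N hb) α β)

/-- Torsion bimodules have resolutions if the finite-dimensional bimodules have them. -/
theorem Tors.hasRes {M : Tri S T} (hM : M.Tors) (α : DHom A S.cech) (β : DHom B T.cech)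
    (h0 : ∀ U : KBi k S.A0 T.A0, Module.Finite k U.M →
      HasRes (res (α.comp S.proj0) (β.comp T.proj0) U.bim))
    (h1 : ∀ U : KBi k S.A1 T.A1, Module.Finite k U.M →
      HasRes (res (α.comp S.proj1) (β.comp T.proj1) U.bim)) : HasRes (res α β M.bim) := by
  obtain ⟨hM0, hM1, hM01, hs0, hs1⟩ := hM
  obtain ⟨U, i, Z, hi, hses, q, hq⟩ := M.ses0 hs1
  have hU : Module.Finite k U.M := Module.Finite.of_injective i hi
  have hZ : HasRes (res α β Z) := HasRes.of_qiso (h1 U hU) (q.res α β) (QIso.torsRes hq α β)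
  exact (hses.res α β).mid hZ (h0 M.M0 hM0)

/-- The classes of torsion bimodules are sums of classes of finite-dimensional bimodules. -/
theorem Tors.mem {M : Tri S T} (hM : M.Tors) (J : Submodule ℚ (K0Q S.cech T.cech))
    (h0 : ∀ U : KBi k S.A0 T.A0, Module.Finite k U.M →
      ∃ h : HasRes (res S.proj0 T.proj0 U.bim), rcls _ h ∈ J)
    (h1 : ∀ U : KBi k S.A1 T.A1, Module.Finite k U.M →
      ∃ h : HasRes (res S.proj1 T.proj1 U.bim), rcls _ h ∈ J) :
    ∃ h : HasRes M.bim, rcls _ h ∈ J := by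
  obtain ⟨hM0, hM1, hM01, hs0, hs1⟩ := hM
  obtain ⟨U, i, Z, hi, hses, q, hq⟩ := M.ses0 hs1
  have hU : Module.Finite k U.M := Module.Finite.of_injective i hi
  obtain ⟨hUr, hUJ⟩ := h1 U hU
  obtain ⟨h0r, h0J⟩ := h0 M.M0 hM0
  have hZ : HasRes Z := HasRes.of_qiso hUr q hq
  have hZJ : rcls Z hZ ∈ J := by
    rw [← rcls_qiso hUr hZ q hq]
    exact hUJ
  refine ⟨hses.mid hZ h0r, ?_⟩
  rw [hses.rcls hZ (hses.mid hZ h0r) h0r]
  exact Submodule.add_mem _ hZJ h0J

end Tri

end Pool.Agent.MP_6e5bed_ag_NC
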