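import Pool.Agent.Lib.MP_6e5bed_ag_CV.LPA
import Pool.Agent.Lib.MP_6e5bed_ag_CV.KK
import Pool.Agent.Lib.MP_6e5bed_ag_CV.TorsA

set_option autoImplicit false
set_option linter.unusedSectionVars false

/-!
# Inclusions of lattice pairs (NC CURVES)
-/

namespace Pool.Agent.MP_6e5bed_ag_NC

open RatFunc

universe u

variable {k : Type u} [Field k]

/-- the quotient of a bimodule -/
private noncomputable def LLe_q {A B : Type u} [Ring A] [Algebra k A] [Ring B] [Algebra k B]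
    (M : KBi k A B) (U : Submodule k M.M) (hl : ∀ a, ∀ x ∈ U, M.l a x ∈ U)
    (hr : ∀ b, ∀ x ∈ U, M.r b x ∈ U) : KBi k A B where
  M := M.M ⧸ U
  l :=
    { toFun := fun a => U.mapQ U (M.l a) (fun x hx => hl a x hx)
      map_add' := fun a a' => by ext x; simp
      map_smul' := fun c a => by ext x; simp }
  r :=
    { toFun := fun a => U.mapQ U (M.r a) (fun x hx => hr a x hx)
      map_add' := fun a a' => by ext x; simp
      map_smul' := fun c a => by ext x; simp }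
  l_one := fun v => by
    obtain ⟨v, rfl⟩ := U.mkQ_surjective v
    simp [M.l_one]
  r_one := fun v => by
    obtain ⟨v, rfl⟩ := U.mkQ_surjective v
    simp [M.r_one]
  l_mul := fun a a' v => by
    obtain ⟨v, rfl⟩ := U.mkQ_surjective v
    simp [M.l_mul]
  r_mul := fun a a' v => by
    obtain ⟨v, rfl⟩ := U.mkQ_surjective v
    simp [M.r_mul]
  l_r := fun a b v => by
    obtain ⟨v, rfl⟩ := U.mkQ_surjective v
    simp [M.l_r]

/-- the quotient of a bimodule over cospans -/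
private noncomputable def LLe_t {S T : Cosp k} (M : Tri S T) (U0 : Submodule k M.M0.M)
    (U1 : Submodule k M.M1.M) (U01 : Submodule k M.M01.M)
    (hl0 : ∀ a, ∀ x ∈ U0, M.M0.l a x ∈ U0) (hr0 : ∀ b, ∀ x ∈ U0, M.M0.r b x ∈ U0)
    (hl1 : ∀ a, ∀ x ∈ U1, M.M1.l a x ∈ U1) (hr1 : ∀ b, ∀ x ∈ U1, M.M1.r b x ∈ U1)
    (hl01 : ∀ a, ∀ x ∈ U01, M.M01.l a x ∈ U01) (hr01 : ∀ b, ∀ x ∈ U01, M.M01.r b x ∈ U01)
    (hρ0 : ∀ x ∈ U0, M.ρ0 x ∈ U01) (hρ1 : ∀ x ∈ U1, M.ρ1 x ∈ U01) : Tri S T where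
  M0 := LLe_q M.M0 U0 hl0 hr0
  M1 := LLe_q M.M1 U1 hl1 hr1
  M01 := LLe_q M.M01 U01 hl01 hr01
  ρ0 := U0.mapQ U01 M.ρ0 (fun x hx => hρ0 x hx)
  ρ1 := U1.mapQ U01 M.ρ1 (fun x hx => hρ1 x hx)
  ρ0_l := fun a v => by
    obtain ⟨v, rfl⟩ := U0.mkQ_surjective v
    exact congrArg U01.mkQ (M.ρ0_l a v)
  ρ0_r := fun a v => by
    obtain ⟨v, rfl⟩ := U0.mkQ_surjective v
    exact congrArg U01.mkQ (M.ρ0_r a v)
  ρ1_l := fun a v => by
    obtain ⟨v, rfl⟩ := U1.mkQ_surjective v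
    exact congrArg U01.mkQ (M.ρ1_l a v)
  ρ1_r := fun a v => by
    obtain ⟨v, rfl⟩ := U1.mkQ_surjective v
    exact congrArg U01.mkQ (M.ρ1_r a v)

section

variable {E : Type u} [AddCommGroup E] [Module (RatFunc k) E]

/-- Fitting: a finite-dimensional quotient of lattices surjects onto its localization. -/
private theorem LLe_fit [Module k E] [IsScalarTower k (RatFunc k) E] {u : RatFunc k}
    (N N' : Submodule (kk k u) E)
    (hf : Module.Finite k (N' ⧸ N.submoduleOf N')) (v : E) (n : ℕ) (hv : u ^ n • v ∈ N') :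
    ∃ w ∈ N', ∃ m : ℕ, u ^ m • (v - w) ∈ N := by
  let f : Module.End k (N' ⧸ N.submoduleOf N') :=
    { toFun := fun y => kk.gen k u • y
      map_add' := fun y z => smul_add _ y z
      map_smul' := fun c y => by
        obtain ⟨y, rfl⟩ := (N.submoduleOf N').mkQ_surjective y
        have h1 : kk.gen k u • (c • y) = c • (kk.gen k u • y) :=
          Subtype.ext (smul_comm u c y.1)
        exact congrArg (N.submoduleOf N').mkQ h1 }
  have hfp : ∀ (m : ℕ) (y : N' ⧸ N.submoduleOf N'), (f ^ m) y = (kk.gen k u) ^ m • y := by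
    intro m y
    induction m with
    | zero => rw [pow_zero, pow_zero, one_smul]; rfl
    | succ m ih => rw [pow_succ', pow_succ', mul_smul, ← ih]; rfl
  obtain ⟨m, hm⟩ := Filter.eventually_atTop.1 f.eventually_iInf_range_pow_eq
  have hr : LinearMap.range (f ^ m) = LinearMap.range (f ^ (m + n)) :=
    (hm m le_rfl).symm.trans (hm (m + n) (Nat.le_add_right _ _))
  let y : N' := ⟨u ^ n • v, hv⟩
  have hy : (f ^ m) (Submodule.Quotient.mk y) ∈ LinearMap.range (f ^ (m + n)) := by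
    rw [← hr]
    exact ⟨_, rfl⟩
  obtain ⟨z, hz⟩ := hy
  obtain ⟨w, rfl⟩ := (N.submoduleOf N').mkQ_surjective z
  rw [hfp, hfp] at hz
  have h1 : Submodule.Quotient.mk (p := N.submoduleOf N')
      ((kk.gen k u) ^ m • y - (kk.gen k u) ^ (m + n) • w) = 0 := by
    rw [Submodule.Quotient.mk_sub, Submodule.Quotient.mk_smul, Submodule.Quotient.mk_smul,
      sub_eq_zero]
    exact hz.symm
  rw [Submodule.Quotient.mk_eq_zero] at h1
  refine ⟨w.1, w.2, m + n, ?_⟩
  have h2 : ((kk.gen k u) ^ m • y - (kk.gen k u) ^ (m + n) • w : N').1 ∈ N := h1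
  have h3 : ((kk.gen k u) ^ m • y - (kk.gen k u) ^ (m + n) • w : N').1 =
      u ^ (m + n) • (v - w.1) := by
    change u ^ m • (u ^ n • v) - u ^ (m + n) • w.1 = _
    rw [smul_smul, ← pow_add, smul_sub]
  rw [← h3]
  exact h2

end

namespace LP

variable {S T : Cosp k} {G G' : GBi k S.A01 T.A01} {A B : DGA k}

private theorem LLe_N01 {E : Type u} [AddCommGroup E] [Module (RatFunc k) E] [Module k E]
    [IsScalarTower k (RatFunc k) E] {N N' : LP k E} (hle : Le N N') {v : E} (h : v ∈ N.N01) :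
    v ∈ N'.N01 := by
  obtain ⟨n, hn⟩ := h
  exact ⟨n, hle.1 hn⟩

/-- The quotient of lattice pairs `N ≤ N'` is a torsion bimodule. -/
theorem ses_le {N N' : LP k G.E} (h : Stable G N) (h' : Stable G N') (hle : Le N N') :
    ∃ τ : Tri S T, τ.Tors ∧ IsSes (tri h).bim (tri h').bim τ.bim := by
  -- the sub-bimodule
  let U0 : Submodule k (tri h').M0.M := (N.N0.submoduleOf N'.N0).restrictScalars k
  let U1 : Submodule k (tri h').M1.M := (N.N1.submoduleOf N'.N1).restrictScalars k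
  let U01 : Submodule k (tri h').M01.M := N.N01.comap N'.N01.subtype
  let τ : Tri S T := LLe_t (tri h') U0 U1 U01 (fun a x hx => h.l0 a x.1 hx)
    (fun b x hx => h.r0 b x.1 hx) (fun a x hx => h.l1 a x.1 hx) (fun b x hx => h.r1 b x.1 hx)
    (fun a x hx => h.l01 a x.1 hx) (fun b x hx => h.r01 b x.1 hx) (fun x hx => N.N0_le hx)
    (fun x hx => N.N1_le hx)
  have hf0 := finite_quot_X (N := N.N0) (N' := N'.N0) N.sp0 N'.fg0
  have hf1 := finite_quot_Xi (N := N.N1) (N' := N'.N1) N.sp1 N'.fg1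
  have hs0 : Function.Surjective τ.ρ0 := by
    intro z
    obtain ⟨v, rfl⟩ := U01.mkQ_surjective z
    obtain ⟨n, hn⟩ := (N'.mem_N01).1 v.2
    obtain ⟨w, hw, m, hm⟩ := LLe_fit N.N0 N'.N0 hf0 v.1 n hn
    refine ⟨U0.mkQ ⟨w, hw⟩, ?_⟩
    change U01.mkQ ((tri h').ρ0 ⟨w, hw⟩) = U01.mkQ v
    rw [← sub_eq_zero, ← map_sub, ← LinearMap.mem_ker, Submodule.ker_mkQ]
    have h1 : v.1 - w ∈ N.N01 := ⟨m, hm⟩
    have h2 : -(v.1 - w) ∈ N.N01 := N.N01.neg_mem h1
    rw [neg_sub] at h2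
    exact h2
  have hs1 : Function.Surjective τ.ρ1 := by
    intro z
    obtain ⟨v, rfl⟩ := U01.mkQ_surjective z
    obtain ⟨n, hn⟩ := (N'.mem_N01').1 v.2
    obtain ⟨w, hw, m, hm⟩ := LLe_fit N.N1 N'.N1 hf1 v.1 n hn
    refine ⟨U1.mkQ ⟨w, hw⟩, ?_⟩
    change U01.mkQ ((tri h').ρ1 ⟨w, hw⟩) = U01.mkQ v
    rw [← sub_eq_zero, ← map_sub, ← LinearMap.mem_ker, Submodule.ker_mkQ]
    have h1 : v.1 - w ∈ N.N01 := N.mem_N01'.2 ⟨m, hm⟩
    have h2 : -(v.1 - w) ∈ N.N01 := N.N01.neg_mem h1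
    rw [neg_sub] at h2
    exact h2
  have hF0 : Module.Finite k τ.M0.M :=
    Module.Finite.equiv (Submodule.Quotient.restrictScalarsEquiv k (N.N0.submoduleOf N'.N0)).symm
  have hF1 : Module.Finite k τ.M1.M :=
    Module.Finite.equiv (Submodule.Quotient.restrictScalarsEquiv k (N.N1.submoduleOf N'.N1)).symm
  have hF01 : Module.Finite k τ.M01.M := Module.Finite.of_surjective τ.ρ0 hs0
  refine ⟨τ, ⟨hF0, hF1, hF01, hs0, hs1⟩, ?_⟩
  -- the exact sequence
  let i : Tri.Hom (tri h) (tri h') :=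
    { f0 :=
        { toFun := fun x => ⟨x.1, hle.1 x.2⟩
          map_add' := fun _ _ => rfl
          map_smul' := fun _ _ => rfl }
      f1 :=
        { toFun := fun x => ⟨x.1, hle.2 x.2⟩
          map_add' := fun _ _ => rfl
          map_smul' := fun _ _ => rfl }
      f01 :=
        { toFun := fun x => ⟨x.1, LLe_N01 hle x.2⟩
          map_add' := fun _ _ => rfl
          map_smul' := fun _ _ => rfl }
      l0 := fun _ _ => rfl
      r0 := fun _ _ => rfl
      l1 := fun _ _ => rfl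
      r1 := fun _ _ => rfl
      l01 := fun _ _ => rfl
      r01 := fun _ _ => rfl
      ρ0 := fun _ => rfl
      ρ1 := fun _ => rfl }
  let p : Tri.Hom (tri h') τ :=
    { f0 := U0.mkQ
      f1 := U1.mkQ
      f01 := U01.mkQ
      l0 := fun _ _ => rfl
      r0 := fun _ _ => rfl
      l1 := fun _ _ => rfl
      r1 := fun _ _ => rfl
      l01 := fun _ _ => rfl
      r01 := fun _ _ => rfl
      ρ0 := fun _ => rfl
      ρ1 := fun _ => rfl }
  refine Tri.isSes i p ?_ ?_ ?_ U0.mkQ_surjective U1.mkQ_surjective U01.mkQ_surjective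
    ?_ ?_ ?_
  · intro x y hxy
    have h2 : (⟨x.1, hle.1 x.2⟩ : N'.N0) = ⟨y.1, hle.1 y.2⟩ := hxy
    exact Subtype.ext (Subtype.mk.inj h2)
  · intro x y hxy
    have h2 : (⟨x.1, hle.2 x.2⟩ : N'.N1) = ⟨y.1, hle.2 y.2⟩ := hxy
    exact Subtype.ext (Subtype.mk.inj h2)
  · intro x y hxy
    have h2 : (⟨x.1, LLe_N01 hle x.2⟩ : N'.N01) = ⟨y.1, LLe_N01 hle y.2⟩ := hxy
    exact Subtype.ext (Subtype.mk.inj h2)
  · intro x
    change U0.mkQ x = 0 ↔ _
    rw [← LinearMap.mem_ker, Submodule.ker_mkQ]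
    constructor
    · intro hx
      exact ⟨⟨x.1, hx⟩, rfl⟩
    · rintro ⟨y, rfl⟩
      exact y.2
  · intro x
    change U1.mkQ x = 0 ↔ _
    rw [← LinearMap.mem_ker, Submodule.ker_mkQ]
    constructor
    · intro hx
      exact ⟨⟨x.1, hx⟩, rfl⟩
    · rintro ⟨y, rfl⟩
      exact y.2
  · intro x
    change U01.mkQ x = 0 ↔ _
    rw [← LinearMap.mem_ker, Submodule.ker_mkQ]
    constructor
    · intro hx
      exact ⟨⟨x.1, hx⟩, rfl⟩
    · rintro ⟨y, rfl⟩
      exact y.2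

private theorem LLe_noeth (u : RatFunc k) : IsNoetherianRing (kk k u) := by
  refine isNoetherianRing_of_surjective (Polynomial k) (kk k u)
    (((Polynomial.aeval u : Polynomial k →ₐ[k] RatFunc k).codRestrict (kk k u)
      (fun p => by
        rw [kk, Algebra.adjoin_singleton_eq_range_aeval]
        exact ⟨p, rfl⟩)) : Polynomial k →+* kk k u) ?_
  rintro ⟨f, hf⟩
  have hf' := hf
  rw [kk, Algebra.adjoin_singleton_eq_range_aeval] at hf'
  obtain ⟨p, hp⟩ := hf'
  exact ⟨p, Subtype.ext hp⟩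

/-- Two lattice pairs contain a common lattice pair (their intersection). -/
theorem exists_inf {N N' : LP k G.E} (h : Stable G N) (h' : Stable G N') :
    ∃ N'' : LP k G.E, Stable G N'' ∧ Le N'' N ∧ Le N'' N' := by
  have := LLe_noeth (k := k) X
  have := LLe_noeth (k := k) X⁻¹
  let N'' : LP k G.E :=
    { N0 := N.N0 ⊓ N'.N0
      N1 := N.N1 ⊓ N'.N1
      fg0 := Submodule.FG.of_le N.fg0 inf_le_left
      fg1 := Submodule.FG.of_le N.fg1 inf_le_left
      sp0 := by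
        rw [span_top_iff_X]
        intro v
        obtain ⟨g, hg0, hg⟩ := (span_top_iff_X _).1 N.sp0 v
        obtain ⟨g', hg0', hg'⟩ := (span_top_iff_X _).1 N'.sp0 v
        refine ⟨g * g', mul_ne_zero hg0 hg0', ?_, ?_⟩
        · change (g * g') • v ∈ N.N0
          rw [mul_comm, mul_smul]
          exact N.N0.smul_mem _ hg
        · change (g * g') • v ∈ N'.N0
          rw [mul_smul]
          exact N'.N0.smul_mem _ hg'
      sp1 := by
        rw [span_top_iff_Xi]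
        intro v
        obtain ⟨g, hg0, hg⟩ := (span_top_iff_Xi _).1 N.sp1 v
        obtain ⟨g', hg0', hg'⟩ := (span_top_iff_Xi _).1 N'.sp1 v
        refine ⟨g * g', mul_ne_zero hg0 hg0', ?_, ?_⟩
        · change (g * g') • v ∈ N.N1
          rw [mul_comm, mul_smul]
          exact N.N1.smul_mem _ hg
        · change (g * g') • v ∈ N'.N1
          rw [mul_smul]
          exact N'.N1.smul_mem _ hg'
      loc01 := by
        rintro v ⟨h1, h2⟩
        obtain ⟨n, hn⟩ := N.loc01 v h1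
        obtain ⟨m, hm⟩ := N'.loc01 v h2
        refine ⟨n + m, ?_, ?_⟩
        · change ((X : RatFunc k)⁻¹) ^ (n + m) • v ∈ N.N1
          rw [add_comm, pow_add, mul_smul]
          exact N.Xi_pow_mem hn m
        · change ((X : RatFunc k)⁻¹) ^ (n + m) • v ∈ N'.N1
          rw [pow_add, mul_smul]
          exact N'.Xi_pow_mem hm n
      loc10 := by
        rintro v ⟨h1, h2⟩
        obtain ⟨n, hn⟩ := N.loc10 v h1
        obtain ⟨m, hm⟩ := N'.loc10 v h2
        refine ⟨n + m, ?_, ?_⟩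
        · change (X : RatFunc k) ^ (n + m) • v ∈ N.N0
          rw [add_comm, pow_add, mul_smul]
          exact N.X_pow_mem hn m
        · change (X : RatFunc k) ^ (n + m) • v ∈ N'.N0
          rw [pow_add, mul_smul]
          exact N'.X_pow_mem hm n }
  have hleft : Le N'' N := ⟨inf_le_left, inf_le_left⟩
  have hright : Le N'' N' := ⟨inf_le_right, inf_le_right⟩
  have hboth : ∀ v : G.E, v ∈ N.N01 → v ∈ N'.N01 → v ∈ N''.N01 := by
    rintro v ⟨n, hn⟩ ⟨m, hm⟩
    refine ⟨n + m, ?_, ?_⟩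
    · change (X : RatFunc k) ^ (n + m) • v ∈ N.N0
      rw [add_comm, pow_add, mul_smul]
      exact N.X_pow_mem hn m
    · change (X : RatFunc k) ^ (n + m) • v ∈ N'.N0
      rw [pow_add, mul_smul]
      exact N'.X_pow_mem hm n
  refine ⟨N'', ?_, hleft, hright⟩
  exact
    { l0 := fun a v hv => ⟨h.l0 a v hv.1, h'.l0 a v hv.2⟩
      r0 := fun b v hv => ⟨h.r0 b v hv.1, h'.r0 b v hv.2⟩
      l1 := fun a v hv => ⟨h.l1 a v hv.1, h'.l1 a v hv.2⟩
      r1 := fun b v hv => ⟨h.r1 b v hv.1, h'.r1 b v hv.2⟩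
      l01 := fun a v hv => hboth _ (h.l01 a v (LLe_N01 hleft hv)) (h'.l01 a v (LLe_N01 hright hv))
      r01 := fun b v hv => hboth _ (h.r01 b v (LLe_N01 hleft hv))
        (h'.r01 b v (LLe_N01 hright hv)) }

end LP

end Pool.Agent.MP_6e5bed_ag_NC
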