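import Pool.Agent.Lib.MP_6e5bed_ag_CV.LPA
import Pool.Agent.Lib.MP_6e5bed_ag_CV.KK

set_option autoImplicit false
set_option linter.unusedSectionVars false

/-!
# Lattice pairs in sub-bimodules, quotients and direct summands (NC CURVES)
-/

namespace Pool.Agent.MP_6e5bed_ag_NC

open RatFunc

universe u

variable {k : Type u} [Field k]

namespace GBi

variable {R R' : Type u} [Ring R] [Algebra k R] [Ring R'] [Algebra k R']

private theorem LSub_ind_aux {P : GBi k R R' → Prop} (h0 : ∀ G : GBi k R R', Subsingleton G.E → P G)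
    (hs : ∀ G : GBi k R R', G.Simple → P G)
    (he : ∀ (G : GBi k R R') (U : Submodule (RatFunc k) G.E) (hU : G.Stab U), P (G.sub U hU) →
      P (G.quot U hU) → P G) (n : ℕ) : ∀ G : GBi k R R',
      Module.finrank (RatFunc k) G.E < n → P G := by
  induction n with
  | zero => exact fun G h => absurd h (Nat.not_lt_zero _)
  | succ n ih =>
    intro G hG
    by_cases h1 : Subsingleton G.E
    · exact h0 G h1
    · by_cases h2 : G.Simple
      · exact hs G h2
      · have hn : Nontrivial G.E := not_subsingleton_iff_nontrivial.1 h1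
        have h3 : ∃ U : Submodule (RatFunc k) G.E, G.Stab U ∧ U ≠ ⊥ ∧ U ≠ ⊤ := by
          by_contra hcon
          apply h2
          refine ⟨hn, fun U hU => ?_⟩
          by_contra h4
          rw [not_or] at h4
          exact hcon ⟨U, hU, h4.1, h4.2⟩
        obtain ⟨U, hU, hb, ht⟩ := h3
        have h5 : Module.finrank (RatFunc k) U < Module.finrank (RatFunc k) G.E :=
          Submodule.finrank_lt ht
        have h6 : 0 < Module.finrank (RatFunc k) U := by
          have : Nontrivial U := Submodule.nontrivial_iff_ne_bot.2 hb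
          exact Module.finrank_pos
        have h7 := Submodule.finrank_quotient_add_finrank U
        refine he G U hU (ih _ ?_) (ih _ ?_)
        · change Module.finrank (RatFunc k) U < n
          omega
        · change Module.finrank (RatFunc k) (G.E ⧸ U) < n
          omega

/-- Induction on the dimension, by filtrations with simple subquotients. -/
theorem ind {P : GBi k R R' → Prop} (h0 : ∀ G : GBi k R R', Subsingleton G.E → P G)
    (hs : ∀ G : GBi k R R', G.Simple → P G)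
    (he : ∀ (G : GBi k R R') (U : Submodule (RatFunc k) G.E) (hU : G.Stab U), P (G.sub U hU) →
      P (G.quot U hU) → P G) (G : GBi k R R') : P G :=
  LSub_ind_aux h0 hs he _ G (Nat.lt_succ_self _)

end GBi

namespace LP

section

variable {E E' : Type u} [AddCommGroup E] [Module (RatFunc k) E] [AddCommGroup E']
  [Module (RatFunc k) E']

/-- The intersection of a lattice pair with a subspace. -/
private noncomputable def LSub_res (N : LP k E) (U : Submodule (RatFunc k) E) : LP k U where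
  N0 := N.N0.comap (U.subtype.restrictScalars (kk k X))
  N1 := N.N1.comap (U.subtype.restrictScalars (kk k X⁻¹))
  fg0 := by
    have h1 : IsNoetherian (kk k X) N.N0 := isNoetherian_of_fg_of_noetherian _ N.fg0
    have h2 : (N.N0.comap (U.subtype.restrictScalars (kk k X))).map
        (U.subtype.restrictScalars (kk k X)) ≤ N.N0 := Submodule.map_comap_le _ _
    have h3 := Submodule.FG.of_le N.fg0 h2
    exact Submodule.fg_of_fg_map_injective _ (by exact U.subtype_injective) h3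
  fg1 := by
    have h2 : (N.N1.comap (U.subtype.restrictScalars (kk k X⁻¹))).map
        (U.subtype.restrictScalars (kk k X⁻¹)) ≤ N.N1 := Submodule.map_comap_le _ _
    have h3 := Submodule.FG.of_le N.fg1 h2
    exact Submodule.fg_of_fg_map_injective _ (by exact U.subtype_injective) h3
  sp0 := by
    rw [span_top_iff_X]
    intro v
    obtain ⟨g, hg, h1⟩ := (span_top_iff_X N.N0).1 N.sp0 v.1
    exact ⟨g, hg, h1⟩
  sp1 := by
    rw [span_top_iff_Xi]
    intro v
    obtain ⟨g, hg, h1⟩ := (span_top_iff_Xi N.N1).1 N.sp1 v.1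
    exact ⟨g, hg, h1⟩
  loc01 := fun v hv => N.loc01 v.1 hv
  loc10 := fun v hv => N.loc10 v.1 hv

/-- The image of a lattice pair under a surjective map. -/
private noncomputable def LSub_map (N : LP k E) (f : E →ₗ[RatFunc k] E')
    (hf : Function.Surjective f) : LP k E' where
  N0 := N.N0.map (f.restrictScalars (kk k X))
  N1 := N.N1.map (f.restrictScalars (kk k X⁻¹))
  fg0 := N.fg0.map _
  fg1 := N.fg1.map _
  sp0 := by
    rw [span_top_iff_X]
    intro v
    obtain ⟨w, rfl⟩ := hf v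
    obtain ⟨g, hg, h1⟩ := (span_top_iff_X N.N0).1 N.sp0 w
    exact ⟨g, hg, g • w, h1, (f.restrictScalars (kk k X)).map_smul g w⟩
  sp1 := by
    rw [span_top_iff_Xi]
    intro v
    obtain ⟨w, rfl⟩ := hf v
    obtain ⟨g, hg, h1⟩ := (span_top_iff_Xi N.N1).1 N.sp1 w
    exact ⟨g, hg, g • w, h1, (f.restrictScalars (kk k X⁻¹)).map_smul g w⟩
  loc01 := by
    rintro _ ⟨w, hw, rfl⟩
    obtain ⟨n, hn⟩ := N.loc01 w hw
    exact ⟨n, _, hn, f.map_smul _ w⟩
  loc10 := by
    rintro _ ⟨w, hw, rfl⟩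
    obtain ⟨n, hn⟩ := N.loc10 w hw
    exact ⟨n, _, hn, f.map_smul _ w⟩

end

section

variable {E E' : Type u} [AddCommGroup E] [Module (RatFunc k) E] [Module k E]
  [IsScalarTower k (RatFunc k) E] [AddCommGroup E'] [Module (RatFunc k) E'] [Module k E']
  [IsScalarTower k (RatFunc k) E']

private theorem LSub_mem_map_N0 (N : LP k E) (f : E →ₗ[RatFunc k] E')
    (hf : Function.Surjective f) (v : E') : v ∈ (N.LSub_map f hf).N0 ↔ ∃ w ∈ N.N0, f w = v :=
  Iff.rfl

private theorem LSub_mem_map_N1 (N : LP k E) (f : E →ₗ[RatFunc k] E')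
    (hf : Function.Surjective f) (v : E') : v ∈ (N.LSub_map f hf).N1 ↔ ∃ w ∈ N.N1, f w = v :=
  Iff.rfl

private theorem LSub_mem_map_N01 (N : LP k E) (f : E →ₗ[RatFunc k] E')
    (hf : Function.Surjective f) (v : E') : v ∈ (N.LSub_map f hf).N01 ↔ ∃ w ∈ N.N01, f w = v := by
  have hX : (X : RatFunc k) ≠ 0 := RatFunc.X_ne_zero
  constructor
  · rintro ⟨n, w, hw, h⟩
    have h' : f w = (X : RatFunc k) ^ n • v := h
    refine ⟨((X : RatFunc k) ^ n)⁻¹ • w, ⟨n, ?_⟩, ?_⟩
    · rw [smul_inv_smul₀ (pow_ne_zero n hX)]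
      exact hw
    · rw [map_smul, h', inv_smul_smul₀ (pow_ne_zero n hX)]
  · rintro ⟨w, ⟨n, hn⟩, rfl⟩
    exact ⟨n, _, hn, f.map_smul _ w⟩

/-- linear maps which respect the first lattices respect the localizations -/
private theorem LSub_N01 {N : LP k E} {N' : LP k E'} (i : E →ₗ[RatFunc k] E')
    (i0 : ∀ x ∈ N.N0, i x ∈ N'.N0) {x : E} (hx : x ∈ N.N01) : i x ∈ N'.N01 := by
  obtain ⟨n, hn⟩ := hx
  refine ⟨n, ?_⟩
  rw [← map_smul]
  exact i0 _ hn

end

variable {S T : Cosp k} {G G' : GBi k S.A01 T.A01} {A B : DGA k}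

/-- a map of bimodules which respects the lattices -/
private noncomputable def LSub_hom {N : LP k G.E} {N' : LP k G'.E} (h : Stable G N)
    (h' : Stable G' N') (i : G.E →ₗ[RatFunc k] G'.E)
    (il : ∀ a x, i (G.l a x) = G'.l a (i x)) (ir : ∀ a x, i (G.r a x) = G'.r a (i x))
    (i0 : ∀ x ∈ N.N0, i x ∈ N'.N0) (i1 : ∀ x ∈ N.N1, i x ∈ N'.N1) :
    Tri.Hom (tri h) (tri h') where
  f0 :=
    { toFun := fun v => ⟨i v.1, i0 v.1 v.2⟩
      map_add' := fun v w => Subtype.ext (i.map_add v.1 w.1)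
      map_smul' := fun c v => Subtype.ext ((i.restrictScalars k).map_smul c v.1) }
  f1 :=
    { toFun := fun v => ⟨i v.1, i1 v.1 v.2⟩
      map_add' := fun v w => Subtype.ext (i.map_add v.1 w.1)
      map_smul' := fun c v => Subtype.ext ((i.restrictScalars k).map_smul c v.1) }
  f01 :=
    { toFun := fun v => ⟨i v.1, LSub_N01 i i0 v.2⟩
      map_add' := fun v w => Subtype.ext (i.map_add v.1 w.1)
      map_smul' := fun c v => Subtype.ext ((i.restrictScalars k).map_smul c v.1) }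
  l0 := fun _ m => Subtype.ext (il _ m.1)
  r0 := fun _ m => Subtype.ext (ir _ m.1)
  l1 := fun _ m => Subtype.ext (il _ m.1)
  r1 := fun _ m => Subtype.ext (ir _ m.1)
  l01 := fun a m => Subtype.ext (il a m.1)
  r01 := fun a m => Subtype.ext (ir a m.1)
  ρ0 := fun _ => rfl
  ρ1 := fun _ => rfl

/-- the intersection with a sub-bimodule is stable -/
private theorem LSub_stable_res {N : LP k G.E} (h : Stable G N) (U : Submodule (RatFunc k) G.E)
    (hU : G.Stab U) : Stable (G.sub U hU) (N.LSub_res U) where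
  l0 := fun a v hv => h.l0 a v.1 hv
  r0 := fun b v hv => h.r0 b v.1 hv
  l1 := fun a v hv => h.l1 a v.1 hv
  r1 := fun b v hv => h.r1 b v.1 hv
  l01 := fun a v hv => h.l01 a v.1 hv
  r01 := fun a v hv => h.r01 a v.1 hv

/-- the image under a surjective map of bimodules is stable -/
private theorem LSub_stable_map {N : LP k G.E} (h : Stable G N) (f : G.E →ₗ[RatFunc k] G'.E)
    (hf : Function.Surjective f) (il : ∀ a x, f (G.l a x) = G'.l a (f x))
    (ir : ∀ a x, f (G.r a x) = G'.r a (f x)) : Stable G' (N.LSub_map f hf) where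
  l0 := by
    rintro a _ ⟨w, hw, rfl⟩
    exact ⟨_, h.l0 a w hw, il _ w⟩
  r0 := by
    rintro a _ ⟨w, hw, rfl⟩
    exact ⟨_, h.r0 a w hw, ir _ w⟩
  l1 := by
    rintro a _ ⟨w, hw, rfl⟩
    exact ⟨_, h.l1 a w hw, il _ w⟩
  r1 := by
    rintro a _ ⟨w, hw, rfl⟩
    exact ⟨_, h.r1 a w hw, ir _ w⟩
  l01 := by
    intro a v hv
    obtain ⟨w, hw, rfl⟩ := (LSub_mem_map_N01 N f hf v).1 hv
    exact (LSub_mem_map_N01 N f hf _).2 ⟨_, h.l01 a w hw, il _ w⟩
  r01 := by
    intro a v hv
    obtain ⟨w, hw, rfl⟩ := (LSub_mem_map_N01 N f hf v).1 hv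
    exact (LSub_mem_map_N01 N f hf _).2 ⟨_, h.r01 a w hw, ir _ w⟩

/-- The intersection with a sub-bimodule and the image in the quotient are lattice pairs. -/
theorem ses_sub {N : LP k G.E} (h : Stable G N) (U : Submodule (RatFunc k) G.E)
    (hU : G.Stab U) : ∃ (N' : LP k (G.sub U hU).E) (h' : Stable (G.sub U hU) N')
      (N'' : LP k (G.quot U hU).E) (h'' : Stable (G.quot U hU) N''),
      IsSes (tri h').bim (tri h).bim (tri h'').bim := by
  let q : G.E →ₗ[RatFunc k] (G.quot U hU).E := U.mkQ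
  have hq : Function.Surjective q := U.mkQ_surjective
  let j : (G.sub U hU).E →ₗ[RatFunc k] G.E := U.subtype
  have h' := LSub_stable_res h U hU
  have h'' : Stable (G.quot U hU) (N.LSub_map q hq) :=
    LSub_stable_map h q hq (fun a x => rfl) (fun a x => rfl)
  refine ⟨N.LSub_res U, h', N.LSub_map q hq, h'', ?_⟩
  have hker : ∀ x : G.E, q x = 0 ↔ x ∈ U := fun x => Submodule.Quotient.mk_eq_zero U
  refine Tri.isSes (LSub_hom h' h j (fun a x => rfl) (fun a x => rfl) (fun x hx => hx)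
    (fun x hx => hx)) (LSub_hom h h'' q (fun a x => rfl) (fun a x => rfl)
    (fun x hx => ⟨x, hx, rfl⟩) (fun x hx => ⟨x, hx, rfl⟩)) ?_ ?_ ?_ ?_ ?_ ?_ ?_ ?_ ?_
  · intro x y hxy
    have h1 : j x.1 = j y.1 := congrArg (fun z : N.N0 => z.1) hxy
    exact Subtype.ext (Subtype.ext h1)
  · intro x y hxy
    have h1 : j x.1 = j y.1 := congrArg (fun z : N.N1 => z.1) hxy
    exact Subtype.ext (Subtype.ext h1)
  · intro x y hxy
    have h1 : j x.1 = j y.1 := congrArg (fun z : N.N01 => z.1) hxy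
    exact Subtype.ext (Subtype.ext h1)
  · rintro ⟨_, w, hw, rfl⟩
    exact ⟨⟨w, hw⟩, rfl⟩
  · rintro ⟨_, w, hw, rfl⟩
    exact ⟨⟨w, hw⟩, rfl⟩
  · rintro ⟨v, hv⟩
    obtain ⟨w, hw, rfl⟩ := (LSub_mem_map_N01 N q hq v).1 hv
    exact ⟨⟨w, hw⟩, rfl⟩
  · intro x
    constructor
    · intro hx
      have h1 : q x.1 = 0 := congrArg Subtype.val hx
      exact ⟨⟨⟨x.1, (hker _).1 h1⟩, x.2⟩, rfl⟩
    · rintro ⟨y, rfl⟩
      exact Subtype.ext ((hker _).2 y.1.2)
  · intro x
    constructor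
    · intro hx
      have h1 : q x.1 = 0 := congrArg Subtype.val hx
      exact ⟨⟨⟨x.1, (hker _).1 h1⟩, x.2⟩, rfl⟩
    · rintro ⟨y, rfl⟩
      exact Subtype.ext ((hker _).2 y.1.2)
  · intro x
    constructor
    · intro hx
      have h1 : q x.1 = 0 := congrArg Subtype.val hx
      exact ⟨⟨⟨x.1, (hker _).1 h1⟩, x.2⟩, rfl⟩
    · rintro ⟨y, rfl⟩
      exact Subtype.ext ((hker _).2 y.1.2)

/-- Transport along isomorphisms. -/
theorem exists_iso (hG : GBi.Iso G G') {N : LP k G.E} (h : Stable G N) :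
    ∃ (N' : LP k G'.E) (h' : Stable G' N'), BIso (tri h).bim (tri h').bim := by
  obtain ⟨f, fl, fr⟩ := hG
  have hf : Function.Surjective f.toLinearMap := f.surjective
  have h' : Stable G' (N.LSub_map f.toLinearMap hf) := LSub_stable_map h f.toLinearMap hf fl fr
  refine ⟨N.LSub_map f.toLinearMap hf, h', Tri.biso (LSub_hom h h' f.toLinearMap fl fr
    (fun x hx => ⟨x, hx, rfl⟩) (fun x hx => ⟨x, hx, rfl⟩)) ⟨?_, ?_⟩ ⟨?_, ?_⟩ ⟨?_, ?_⟩⟩
  · intro x y hxy
    exact Subtype.ext (f.injective (congrArg Subtype.val hxy))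
  · rintro ⟨_, w, hw, rfl⟩
    exact ⟨⟨w, hw⟩, rfl⟩
  · intro x y hxy
    exact Subtype.ext (f.injective (congrArg Subtype.val hxy))
  · rintro ⟨_, w, hw, rfl⟩
    exact ⟨⟨w, hw⟩, rfl⟩
  · intro x y hxy
    exact Subtype.ext (f.injective (congrArg Subtype.val hxy))
  · rintro ⟨v, hv⟩
    obtain ⟨w, hw, rfl⟩ := (LSub_mem_map_N01 N f.toLinearMap hf v).1 hv
    exact ⟨⟨w, hw⟩, rfl⟩

/-- Direct summands of lattice pairs: `i` and `r` map the lattices to each other, and
`r i = id`. -/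
theorem isSummand {N : LP k G.E} {N' : LP k G'.E} (h : Stable G N) (h' : Stable G' N')
    (i : G.E →ₗ[RatFunc k] G'.E) (r : G'.E →ₗ[RatFunc k] G.E)
    (il : ∀ a x, i (G.l a x) = G'.l a (i x)) (ir : ∀ a x, i (G.r a x) = G'.r a (i x))
    (rl : ∀ a x, r (G'.l a x) = G.l a (r x)) (rr : ∀ a x, r (G'.r a x) = G.r a (r x))
    (hri : ∀ x, r (i x) = x) (i0 : ∀ x ∈ N.N0, i x ∈ N'.N0) (i1 : ∀ x ∈ N.N1, i x ∈ N'.N1)
    (r0 : ∀ x ∈ N'.N0, r x ∈ N.N0) (r1 : ∀ x ∈ N'.N1, r x ∈ N.N1) :
    IsSummand (tri h).bim (tri h').bim :=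
  Tri.isSummand (LSub_hom h h' i il ir i0 i1) (LSub_hom h' h r rl rr r0 r1)
    (fun x => Subtype.ext (hri x.1)) (fun x => Subtype.ext (hri x.1))
    (fun x => Subtype.ext (hri x.1))

end LP

end Pool.Agent.MP_6e5bed_ag_NC
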