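import Pool.Agent.Lib.MP_6e5bed_ag_CV.FCRes
import Pool.Agent.Lib.MP_6e5bed_ag_NC.Cat

set_option autoImplicit false

/-!
# Combinations of classes which factor through given dg algebras (NC CURVES, row 10)
-/

namespace Pool.Agent.MP_6e5bed_ag_NC

universe u

variable {k : Type u} [Field k]

/-- The span of the classes which factor through a dg algebra in `Good`. -/
noncomputable def JS (Good : DGA k → Prop) (T : DGA k) : Submodule ℚ (K0Q T T) :=
  Submodule.span ℚ {z | ∃ (X : DGA k) (hX : Proper X) (f : K0Q T X) (g : K0Q X T),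
    Good X ∧ z = K0Q.comp hX f g}

theorem JS.comp {Good : DGA k → Prop} {T X : DGA k} (hX : Proper X) (hG : Good X)
    (f : K0Q T X) (g : K0Q X T) : K0Q.comp hX f g ∈ JS Good T :=
  Submodule.subset_span ⟨X, hX, f, g, hG, rfl⟩

/-- External products of one-sided modules. -/
theorem JS.tb_base {Good : DGA k → Prop} {T : DGA k} (hG : Good (base k))
    {P : Bim T (base k)} {Q : Bim (base k) T} (hP : HasRes P) (hQ : HasRes Q)
    (h : HasRes (tb P Q)) : rcls (tb P Q) h ∈ JS Good T := by
  rw [← rcls_tb base_proper hP hQ (rflat_base P) h]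
  exact JS.comp base_proper hG _ _

/-- Products over a good dg algebra. -/
theorem JS.tb {Good : DGA k → Prop} {T X : DGA k} (hX : Proper X) (hG : Good X)
    {P : Bim T X} {Q : Bim X T} (hP : HasRes P) (hQ : HasRes Q) (hf : RFlat P)
    (h : HasRes (tb P Q)) : rcls (tb P Q) h ∈ JS Good T := by
  rw [← rcls_tb hX hP hQ hf h]
  exact JS.comp hX hG _ _

open CategoryTheory in
private theorem JSpan.aux {Good : DGA k → Prop} (hs : ∀ X, Good X → Smooth X) (T : SP k)
    (z : K0Q T.alg T.alg) (hz : z ∈ JS Good T.alg) :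
    ∃ (ι : Type) (_ : Fintype ι) (X : ι → SP k), (∀ i, Good (X i).alg) ∧
      ∃ (f : ∀ i, T ⟶ X i) (g : ∀ i, X i ⟶ T), (z : T ⟶ T) = ∑ i, f i ≫ g i := by
  unfold JS at hz
  induction hz using Submodule.span_induction with
  | mem x hx =>
    obtain ⟨X, hX, f, g, hG, rfl⟩ := hx
    refine ⟨Unit, inferInstance, fun _ => ⟨X, hs X hG, hX⟩, fun _ => hG, fun _ => f,
      fun _ => g, ?_⟩
    rw [Fintype.sum_unique]
    rfl
  | zero =>
    refine ⟨Empty, inferInstance, fun i => i.elim, fun i => i.elim, fun i => i.elim,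
      fun i => i.elim, ?_⟩
    rw [Fintype.sum_empty]
  | add x y _ _ ihx ihy =>
    obtain ⟨ι, _, X, hX, f, g, hx⟩ := ihx
    obtain ⟨κ, _, Y, hY, f', g', hy⟩ := ihy
    refine ⟨ι ⊕ κ, inferInstance, Sum.elim X Y, ?_, Sum.rec f f', Sum.rec g g', ?_⟩
    · rintro (i | j)
      · exact hX i
      · exact hY j
    · rw [Fintype.sum_sum_type]
      exact congrArg₂ (fun a b : T ⟶ T => a + b) hx hy
  | smul c x _ ih =>
    obtain ⟨ι, _, X, hX, f, g, hx⟩ := ih
    refine ⟨ι, inferInstance, X, hX, fun i => c • f i, g, ?_⟩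
    simp only [Linear.smul_comp]
    rw [← Finset.smul_sum, ← hx]

/-- If all good dg algebras are smooth and proper, and the identity is in the span, then it is a
finite sum of morphisms through good objects. -/
theorem JS.exists_sum {Good : DGA k → Prop} (hs : ∀ X, Good X → Smooth X) (T : SP k)
    (h : K0Q.one T.smooth ∈ JS Good T.alg) : ∃ (n : ℕ) (X : Fin n → SP k),
      (∀ i, Good (X i).alg) ∧ ∃ (f : ∀ i, T ⟶ X i) (g : ∀ i, X i ⟶ T),
        CategoryTheory.CategoryStruct.id T =
          ∑ i, CategoryTheory.CategoryStruct.comp (f i) (g i) := by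
  obtain ⟨ι, _, X, hX, f, g, h1⟩ := JSpan.aux hs T _ h
  let e := Fintype.equivFin ι
  refine ⟨Fintype.card ι, fun i => X (e.symm i), fun i => hX _, fun i => f _, fun i => g _, ?_⟩
  rw [Equiv.sum_comp e.symm (fun i => CategoryTheory.CategoryStruct.comp (f i) (g i))]
  exact h1

end Pool.Agent.MP_6e5bed_ag_NC
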