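import Pool.Agent.Lib.MP_6e5bed_ag_CV.HRes

set_option autoImplicit false

/-!
# Exact sequences of dg bimodules (not necessarily graded split) (NC CURVES, row 3)
-/

namespace Pool.Agent.MP_6e5bed_ag_NC

universe u

variable {k : Type u} [Field k] {A B A' B' : DGA k}

/-! ### Pairs in a cone -/

section pairs

variable {M N : Bim A B} {φ : GMap 0 M N} {h : φ.dd = 0}

/-- A pair, as an element of the cone. -/
private def sesP (φ : GMap 0 M N) (h : φ.dd = 0) (x : M.M) (y : N.M) :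
    (MP_6e5bed_ag_NC.cone φ h).M := ((x, y) : M.M × N.M)

private theorem sesP_ex (c : (MP_6e5bed_ag_NC.cone φ h).M) :
    ∃ x y, c = sesP φ h x y := by
  change M.M × N.M at c
  obtain ⟨x, y⟩ := c
  exact ⟨x, y, rfl⟩

private theorem sesP_inj {x x' : M.M} {y y' : N.M} (e : sesP φ h x y = sesP φ h x' y') :
    x = x' ∧ y = y' := by
  have e1 : ((x, y) : M.M × N.M) = (x', y') := e
  exact ⟨congrArg Prod.fst e1, congrArg Prod.snd e1⟩

private theorem sesP_zero : sesP φ h 0 0 = 0 := rfl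

private theorem sesP_d (x : M.M) (y : N.M) :
    (MP_6e5bed_ag_NC.cone φ h).dg.d (sesP φ h x y) =
      sesP φ h (- M.dg.d x) (φ.f x + N.dg.d y) := cone_d x y

private theorem sesP_sub (x x' : M.M) (y y' : N.M) :
    sesP φ h x y - sesP φ h x' y' = sesP φ h (x - x') (y - y') := rfl

private theorem sesP_l (a : A.A) (x : M.M) (y : N.M) :
    (MP_6e5bed_ag_NC.cone φ h).l a (sesP φ h x y) =
      sesP φ h (M.l (A.dg.sp 1 a) x) (N.l a y) := rfl

private theorem sesP_r (b : B.A) (x : M.M) (y : N.M) :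
    (MP_6e5bed_ag_NC.cone φ h).r b (sesP φ h x y) = sesP φ h (M.r b x) (N.r b y) := rfl

private theorem sesP_deg {i : ℤ} {x : M.M} {y : N.M} :
    (MP_6e5bed_ag_NC.cone φ h).dg.IsDeg i (sesP φ h x y) ↔
      M.dg.IsDeg (i + 1) x ∧ N.dg.IsDeg i y := cone_deg

end pairs

/-! ### Maps between cones -/

section maps

variable {M N P P' : Bim A B}

/-- The map of cones which is given by a square which commutes up to homotopy. -/
private def sesT (f : GMap 0 M N) (hf : f.dd = 0) (g : GMap 0 P P') (hg : g.dd = 0)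
    (φ : GMap 0 P M) (ψ : GMap 0 P' N) (s : GMap (-1) P N) :
    GMap 0 (MP_6e5bed_ag_NC.cone g hg) (MP_6e5bed_ag_NC.cone f hf) where
  f := (φ.f ∘ₗ LinearMap.fst k P.M P'.M).prod
    (ψ.f ∘ₗ LinearMap.snd k P.M P'.M - s.f ∘ₗ LinearMap.fst k P.M P'.M)
  deg := fun {i c} hc => by
    obtain ⟨x, y, rfl⟩ := sesP_ex c
    have h1 := sesP_deg.1 hc
    rw [add_zero]
    refine cone_deg.2 ⟨?_, ?_⟩
    · have h2 := φ.deg h1.1
      rw [add_zero] at h2
      exact h2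
    · have h2 := ψ.deg h1.2
      have h3 := s.deg h1.1
      rw [add_zero] at h2
      rw [add_neg_cancel_right] at h3
      exact h2.sub h3
  map_l := fun a c => by
    obtain ⟨x, y, rfl⟩ := sesP_ex c
    change sesP f hf (φ.f (P.l (A.dg.sp 1 a) x)) (ψ.f (P'.l a y) - s.f (P.l (A.dg.sp 1 a) x)) =
      sesP f hf (M.l (A.dg.sp 1 (A.dg.sp 0 a)) (φ.f x)) (N.l (A.dg.sp 0 a) (ψ.f y - s.f x))
    rw [φ.map_l, ψ.map_l, s.map_l, ← Dg.sp_add (-1) 1, neg_add_cancel, Dg.sp_zero, Dg.sp_zero,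
      map_sub]
  map_r := fun b c => by
    obtain ⟨x, y, rfl⟩ := sesP_ex c
    change sesP f hf (φ.f (P.r b x)) (ψ.f (P'.r b y) - s.f (P.r b x)) =
      sesP f hf (M.r b (φ.f x)) (N.r b (ψ.f y - s.f x))
    rw [φ.map_r, ψ.map_r, s.map_r, map_sub]

private theorem sesT_f {f : GMap 0 M N} {hf : f.dd = 0} {g : GMap 0 P P'} {hg : g.dd = 0}
    {φ : GMap 0 P M} {ψ : GMap 0 P' N} {s : GMap (-1) P N} (x : P.M) (y : P'.M) :
    (sesT f hf g hg φ ψ s).f (sesP g hg x y) = sesP f hf (φ.f x) (ψ.f y - s.f x) := rfl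

private theorem sesT_dd {f : GMap 0 M N} {hf : f.dd = 0} {g : GMap 0 P P'} {hg : g.dd = 0}
    {φ : GMap 0 P M} {ψ : GMap 0 P' N} {s : GMap (-1) P N} (hφ : φ.dd = 0) (hψ : ψ.dd = 0)
    (hs : ∀ x, s.dd x = f.f (φ.f x) - ψ.f (g.f x)) : (sesT f hf g hg φ ψ s).dd = 0 := by
  refine LinearMap.ext (fun c => ?_)
  obtain ⟨x, y, rfl⟩ := sesP_ex c
  have h1 := hs x
  rw [GMap.dd_apply, sg_neg, sg_one, neg_smul, one_smul, sub_neg_eq_add] at h1
  rw [GMap.dd_apply, sg_zero, one_smul, LinearMap.zero_apply, sub_eq_zero, sesT_f, sesP_d,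
    sesP_d, sesT_f, map_neg, map_neg, GMap.d_f_zero hφ, map_sub, map_add, GMap.d_f_zero hψ]
  congr 1
  rw [sub_neg_eq_add]
  have h2 : f.f (φ.f x) = N.dg.d (s.f x) + s.f (P.dg.d x) + ψ.f (g.f x) := by
    rw [h1, sub_add_cancel]
  rw [h2]
  abel

private theorem sesT_qiso {f : GMap 0 M N} {hf : f.dd = 0} {g : GMap 0 P P'} {hg : g.dd = 0}
    {φ : GMap 0 P M} {ψ : GMap 0 P' N} {s : GMap (-1) P N} (hφ : QIso φ) (hψ : QIso ψ)
    (hs : ∀ x, s.dd x = f.f (φ.f x) - ψ.f (g.f x)) : QIso (sesT f hf g hg φ ψ s) := by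
  have hs' : ∀ x, P.dg.d x = 0 → f.f (φ.f x) = N.dg.d (s.f x) + ψ.f (g.f x) := by
    intro x hx
    have h1 := hs x
    rw [GMap.dd_apply, hx, map_zero, smul_zero, sub_zero] at h1
    rw [h1, sub_add_cancel]
  have hdf : ∀ x, N.dg.d (f.f x) = f.f (M.dg.d x) := fun x => GMap.d_f_zero hf x
  have hdg : ∀ x, P'.dg.d (g.f x) = g.f (P.dg.d x) := fun x => GMap.d_f_zero hg x
  have hdφ : ∀ x, M.dg.d (φ.f x) = φ.f (P.dg.d x) := fun x => GMap.d_f_zero hφ.1 x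
  have hdψ : ∀ x, N.dg.d (ψ.f x) = ψ.f (P'.dg.d x) := fun x => GMap.d_f_zero hψ.1 x
  refine ⟨sesT_dd hφ.1 hψ.1 hs, ?_, ?_⟩
  · rintro c hc ⟨e, he⟩
    obtain ⟨x, y, rfl⟩ := sesP_ex c
    obtain ⟨m, n, rfl⟩ := sesP_ex e
    rw [sesP_d, ← sesP_zero] at hc
    obtain ⟨hx, hy⟩ := sesP_inj hc
    rw [sesP_d, sesT_f] at he
    obtain ⟨hm, hn⟩ := sesP_inj he
    rw [neg_eq_zero] at hx
    obtain ⟨x1, hx1⟩ := hφ.2.1 x hx ⟨- m, by rw [map_neg, hm]⟩
    have hm1 : M.dg.d (m + φ.f x1) = 0 := by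
      rw [map_add, hdφ, hx1, ← hm, add_neg_cancel]
    obtain ⟨x2, hx2, m2, hm2⟩ := hφ.2.2 _ hm1
    have hy1 : P'.dg.d (y + g.f x1 - g.f x2) = 0 := by
      rw [map_sub, map_add, hdg, hdg, hx1, hx2, map_zero, sub_zero, add_comm]
      exact hy
    have hkey : N.dg.d (n - s.f x1 + s.f x2 + f.f m2) = ψ.f (y + g.f x1 - g.f x2) := by
      have e1 : f.f m + f.f (φ.f x1) = f.f (φ.f x2) + N.dg.d (f.f m2) := by
        rw [← map_add, hdf, hm2, map_sub, add_sub_cancel]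
      have e2 := hs' x2 hx2
      have e3 := hs x1
      rw [GMap.dd_apply, sg_neg, sg_one, neg_smul, one_smul, sub_neg_eq_add, hx1] at e3
      have e4 : N.dg.d (f.f m2) = f.f m + f.f (φ.f x1) - f.f (φ.f x2) := by
        rw [e1]
        abel
      have e5 : N.dg.d (s.f x1) = f.f (φ.f x1) - ψ.f (g.f x1) - s.f x := by
        rw [← e3]
        abel
      have e6 : N.dg.d (s.f x2) = f.f (φ.f x2) - ψ.f (g.f x2) := by
        rw [e2]
        abel
      have e7 : N.dg.d n = ψ.f y - s.f x - f.f m := by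
        rw [← hn]
        abel
      rw [map_add, map_add, map_sub, e4, e5, e6, e7, map_sub, map_add]
      abel
    obtain ⟨y2, hy2⟩ := hψ.2.1 _ hy1 ⟨_, hkey⟩
    refine ⟨sesP g hg (x2 - x1) y2, ?_⟩
    rw [sesP_d, map_sub, hx1, hx2, zero_sub, neg_neg, hy2, map_sub]
    congr 1
    abel
  · intro c hc
    obtain ⟨m, n, rfl⟩ := sesP_ex c
    rw [sesP_d, ← sesP_zero] at hc
    obtain ⟨hm, hn⟩ := sesP_inj hc
    rw [neg_eq_zero] at hm
    obtain ⟨x, hx, m1, hm1⟩ := hφ.2.2 m hm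
    have e1 : f.f m = ψ.f (g.f x) + N.dg.d (s.f x) + N.dg.d (f.f m1) := by
      rw [hdf, hm1, map_sub, hs' x hx]
      abel
    have hgx : P'.dg.d (g.f x) = 0 := by rw [hdg, hx, map_zero]
    obtain ⟨y1, hy1⟩ := hψ.2.1 (g.f x) hgx ⟨- (n + s.f x + f.f m1), by
      rw [map_neg, map_add, map_add, neg_eq_iff_add_eq_zero]
      rw [e1] at hn
      rw [← hn]
      abel⟩
    have hn2 : N.dg.d (n + ψ.f y1 + s.f x + f.f m1) = 0 := by
      rw [map_add, map_add, map_add, hdψ, hy1]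
      rw [e1] at hn
      rw [← hn]
      abel
    obtain ⟨y3, hy3, n3, hn3⟩ := hψ.2.2 _ hn2
    refine ⟨sesP g hg x (y3 - y1), ?_, sesP f hf (- m1) n3, ?_⟩
    · rw [sesP_d, hx, map_sub, hy3, hy1, neg_zero, zero_sub, add_neg_cancel]
      rfl
    · rw [sesP_d, sesT_f, sesP_sub, map_neg, neg_neg, hm1, hn3, map_neg, map_sub]
      congr 1
      abel

end maps

/-! ### Resolutions of cones -/

private theorem ses_cone_res {M N : Bim A B} (f : GMap 0 M N) (hf : f.dd = 0) (hM : HasRes M)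
    (hN : HasRes N) : ∃ h : HasRes (MP_6e5bed_ag_NC.cone f hf),
      rcls (MP_6e5bed_ag_NC.cone f hf) h = rcls N hN - rcls M hM := by
  obtain ⟨P, φ, hP, hφ⟩ := hM
  obtain ⟨P', ψ, hP', hψ⟩ := hN
  have hfφ : (φ.comp f (add_zero 0)).dd = 0 := by
    ext x
    rw [GMap.dd_comp, hφ.1, hf]
    simp
  obtain ⟨g, s, hg, hs⟩ := HProj.lift hP.hproj ψ hψ (φ.comp f (add_zero 0)) hfφ
  have hs' : ∀ x, s.dd x = f.f (φ.f x) - ψ.f (g.f x) := hs
  have hc : IsCone g (MP_6e5bed_ag_NC.cone g hg) := isCone_cone g hg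
  have hPc : Perf (MP_6e5bed_ag_NC.cone g hg) := hc.perf hP hP'
  have hq : QIso (sesT f hf g hg φ ψ s) := sesT_qiso hφ hψ hs'
  refine ⟨⟨_, _, hPc, hq⟩, ?_⟩
  rw [rcls_eq _ hPc _ hq, rcls_eq ⟨P, φ, hP, hφ⟩ hP φ hφ, rcls_eq ⟨P', ψ, hP', hψ⟩ hP' ψ hψ,
    K0Q.cls_ext hP' hPc (hP.shift 1) hc.isExt, K0Q.cls_shift hP 1, sg_one]
  simp [sub_eq_add_neg]

private theorem ses_qiso_shift {M N : Bim A B} {φ : GMap 0 M N} (h : QIso φ) (n : ℤ) :
    QIso (φ.extSh n) := by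
  have hsg : ∀ {V : Type u} [AddCommGroup V] (x : V), sg n • sg n • x = x := by
    intro V _ x
    rw [smul_smul, sg_mul_self, one_smul]
  refine ⟨φ.extSh_dd n h.1, ?_, ?_⟩
  · rintro x hx ⟨y, hy⟩
    change M.M at x
    change N.M at y
    have hx1 : sg n • M.dg.d x = 0 := hx
    have hy1 : sg n • N.dg.d y = φ.f x := hy
    have hx2 : M.dg.d x = 0 := by
      rw [← hsg (M.dg.d x), hx1, smul_zero]
    obtain ⟨z, hz⟩ := h.2.1 x hx2 ⟨sg n • y, by rw [map_zsmul, hy1]⟩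
    refine ⟨sg n • z, ?_⟩
    change sg n • M.dg.d (sg n • z) = x
    rw [map_zsmul, hsg, hz]
  · intro y hy
    change N.M at y
    have hy1 : sg n • N.dg.d y = 0 := hy
    have hy2 : N.dg.d y = 0 := by
      rw [← hsg (N.dg.d y), hy1, smul_zero]
    obtain ⟨x, hx, z, hz⟩ := h.2.2 y hy2
    refine ⟨x, ?_, sg n • z, ?_⟩
    · change sg n • M.dg.d x = 0
      rw [hx, smul_zero]
    · change sg n • N.dg.d (sg n • z) = y - φ.f x
      rw [map_zsmul, hsg, hz]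

private theorem ses_hasRes_shift {M : Bim A B} (h : HasRes M) (n : ℤ) :
    HasRes (M.shift n) := by
  obtain ⟨P, φ, hP, hφ⟩ := h
  exact ⟨P.shift n, φ.extSh n, hP.shift n, ses_qiso_shift hφ n⟩

private theorem ses_hasRes_unshift {M : Bim A B} {n : ℤ} (h : HasRes (M.shift n)) :
    HasRes M := (ses_hasRes_shift h (-n)).iso (shift_shift M n)

/-- There is an exact sequence `0 → M' → M → M'' → 0` of dg bimodules. -/
def IsSes (M' M M'' : Bim A B) : Prop :=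
  ∃ (i : GMap 0 M' M) (p : GMap 0 M M''), i.dd = 0 ∧ p.dd = 0 ∧ Function.Injective i.f ∧
    Function.Surjective p.f ∧ ∀ x, p.f x = 0 ↔ ∃ y, i.f y = x

theorem IsExt.isSes {M' M M'' : Bim A B} (h : IsExt M' M M'') : IsSes M' M M'' := by
  obtain ⟨i, p, r, σ, h0, h1, h2, h3, h4, h5, h6⟩ := h
  refine ⟨i, p, h0, h1, Function.LeftInverse.injective h2, fun y => ⟨σ.f y, h3 y⟩,
    fun x => ⟨fun hx => ⟨r.f x, ?_⟩, ?_⟩⟩
  · have h7 := h6 x
    rwa [hx, map_zero, add_zero] at h7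
  · rintro ⟨y, rfl⟩
    exact h4 y

theorem IsSes.res (α : DHom A' A) (β : DHom B' B) {M' M M'' : Bim A B} (h : IsSes M' M M'') :
    IsSes (MP_6e5bed_ag_NC.res α β M') (MP_6e5bed_ag_NC.res α β M)
      (MP_6e5bed_ag_NC.res α β M'') := by
  obtain ⟨i, p, h0, h1, h2, h3, h4⟩ := h
  exact ⟨i.res α β, p.res α β, h0, h1, h2, h3, h4⟩

/-- The cone of `M' → M` is quasi-isomorphic to `M''`. -/
theorem IsSes.cone {M' M M'' : Bim A B} (h : IsSes M' M M'') :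
    ∃ (i : GMap 0 M' M) (h0 : i.dd = 0) (q : GMap 0 (MP_6e5bed_ag_NC.cone i h0) M''), QIso q := by
  obtain ⟨i, p, h0, h1, h2, h3, h4⟩ := h
  have hdi : ∀ x, M.dg.d (i.f x) = i.f (M'.dg.d x) := fun x => GMap.d_f_zero h0 x
  have hdp : ∀ x, M''.dg.d (p.f x) = p.f (M.dg.d x) := fun x => GMap.d_f_zero h1 x
  have hpi : ∀ x, p.f (i.f x) = 0 := fun x => (h4 _).2 ⟨x, rfl⟩
  obtain ⟨q, hq⟩ : ∃ q : GMap 0 (MP_6e5bed_ag_NC.cone i h0) M'',
      ∀ x y, q.f (sesP i h0 x y) = p.f y := by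
    refine ⟨⟨p.f ∘ₗ LinearMap.snd k M'.M M.M, fun {j c} hc => ?_, fun a c => ?_,
      fun b c => ?_⟩, fun x y => rfl⟩
    · obtain ⟨x, y, rfl⟩ := sesP_ex c
      exact p.deg (sesP_deg.1 hc).2
    · obtain ⟨x, y, rfl⟩ := sesP_ex c
      exact p.map_l a y
    · obtain ⟨x, y, rfl⟩ := sesP_ex c
      exact p.map_r b y
  refine ⟨i, h0, q, ?_, ?_, ?_⟩
  · refine LinearMap.ext (fun c => ?_)
    obtain ⟨x, y, rfl⟩ := sesP_ex c
    rw [GMap.dd_apply, sg_zero, one_smul, LinearMap.zero_apply, sesP_d, hq, hq, hdp, map_add,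
      hpi, zero_add, sub_self]
  · rintro c hc ⟨y, hy⟩
    obtain ⟨x, m, rfl⟩ := sesP_ex c
    rw [sesP_d, ← sesP_zero] at hc
    obtain ⟨hx, hm⟩ := sesP_inj hc
    rw [hq] at hy
    obtain ⟨m1, hm1⟩ := h3 y
    obtain ⟨x1, hx1⟩ := (h4 (m - M.dg.d m1)).1 (by rw [map_sub, ← hdp, hm1, hy, sub_self])
    have e1 : M'.dg.d x1 = - x := by
      apply h2
      rw [← hdi, hx1, map_sub, M.dg.d_d, sub_zero, map_neg]
      exact (neg_eq_of_add_eq_zero_right hm).symm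
    refine ⟨sesP i h0 x1 m1, ?_⟩
    rw [sesP_d, e1, neg_neg, hx1, sub_add_cancel]
  · intro y hy
    obtain ⟨m, hm⟩ := h3 y
    obtain ⟨x0, hx0⟩ := (h4 (M.dg.d m)).1 (by rw [← hdp, hm, hy])
    have e1 : M'.dg.d x0 = 0 := by
      apply h2
      rw [← hdi, hx0, M.dg.d_d, map_zero]
    refine ⟨sesP i h0 (- x0) m, ?_, 0, ?_⟩
    · rw [sesP_d, map_neg, map_neg, e1, hx0, neg_zero, neg_zero, neg_add_cancel]
      rfl
    · rw [hq, hm, map_zero, sub_self]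

theorem IsSes.right {M' M M'' : Bim A B} (h : IsSes M' M M'') (h' : HasRes M') (hM : HasRes M) :
    HasRes M'' := by
  obtain ⟨i, h0, q, hq⟩ := h.cone
  obtain ⟨h1, -⟩ := ses_cone_res i h0 h' hM
  exact h1.of_qiso q hq

theorem IsSes.left {M' M M'' : Bim A B} (h : IsSes M' M M'') (hM : HasRes M)
    (h'' : HasRes M'') : HasRes M' := by
  obtain ⟨i, p, h0, h1, h2, h3, h4⟩ := h
  have hdi : ∀ x, M.dg.d (i.f x) = i.f (M'.dg.d x) := fun x => GMap.d_f_zero h0 x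
  have hdp : ∀ x, M''.dg.d (p.f x) = p.f (M.dg.d x) := fun x => GMap.d_f_zero h1 x
  have hpi : ∀ x, p.f (i.f x) = 0 := fun x => (h4 _).2 ⟨x, rfl⟩
  obtain ⟨hc, -⟩ := ses_cone_res p h1 hM h''
  obtain ⟨q, hq⟩ : ∃ q : GMap 0 (M'.shift 1) (MP_6e5bed_ag_NC.cone p h1),
      ∀ x : M'.M, q.f x = sesP p h1 (i.f x) 0 := by
    refine ⟨⟨(LinearMap.inl k M.M M''.M) ∘ₗ i.f, fun {j x} hx => ?_, fun a x => ?_,
      fun b x => ?_⟩, fun x => rfl⟩
    · rw [add_zero]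
      refine sesP_deg.2 ⟨?_, Dg.IsDeg.zero j⟩
      have h5 := i.deg ((M'.dg.shift_deg).1 hx)
      rw [add_zero] at h5
      exact h5
    · change sesP p h1 (i.f (M'.l (A.dg.sp 1 a) x)) 0 =
        sesP p h1 (M.l (A.dg.sp 1 (A.dg.sp 0 a)) (i.f x)) (M''.l (A.dg.sp 0 a) 0)
      rw [i.map_l, Dg.sp_zero, Dg.sp_zero, map_zero]
    · change sesP p h1 (i.f (M'.r b x)) 0 = sesP p h1 (M.r b (i.f x)) (M''.r b 0)
      rw [i.map_r, map_zero]
  have hqi : QIso q := by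
    refine ⟨?_, ?_, ?_⟩
    · refine LinearMap.ext (fun x => ?_)
      change M'.M at x
      rw [GMap.dd_apply, sg_zero, one_smul, LinearMap.zero_apply, sub_eq_zero]
      refine (congrArg _ (hq x)).trans ?_
      rw [sesP_d, hpi, map_zero, add_zero, hdi]
      refine Eq.trans ?_ (hq _).symm
      have h5 : (M'.shift 1).dg.d x = - M'.dg.d x := by
        have h6 : (M'.shift 1).dg.d x = sg 1 • M'.dg.d x := rfl
        rw [h6, sg_one, neg_smul, one_smul]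
      rw [h5, map_neg]
    · rintro x hx ⟨c, hc⟩
      change M'.M at x
      obtain ⟨m, n, rfl⟩ := sesP_ex c
      rw [sesP_d] at hc
      obtain ⟨e1, e2⟩ := sesP_inj (hc.trans (hq x))
      obtain ⟨m1, hm1⟩ := h3 n
      obtain ⟨x1, hx1⟩ := (h4 (m + M.dg.d m1)).1 (by rw [map_add, ← hdp, hm1, e2])
      refine ⟨x1, ?_⟩
      have h6 : (M'.shift 1).dg.d x1 = sg 1 • M'.dg.d x1 := rfl
      rw [h6, sg_one, neg_smul, one_smul]
      apply h2
      rw [map_neg, ← hdi, hx1, map_add, M.dg.d_d, add_zero, e1]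
    · intro c hc
      obtain ⟨m, n, rfl⟩ := sesP_ex c
      rw [sesP_d, ← sesP_zero] at hc
      obtain ⟨e1, e2⟩ := sesP_inj hc
      rw [neg_eq_zero] at e1
      obtain ⟨m1, hm1⟩ := h3 n
      obtain ⟨x1, hx1⟩ := (h4 (m + M.dg.d m1)).1 (by rw [map_add, ← hdp, hm1, e2])
      have e3 : M'.dg.d x1 = 0 := by
        apply h2
        rw [← hdi, hx1, map_add, M.dg.d_d, add_zero, e1, map_zero]
      refine ⟨x1, ?_, sesP p h1 m1 0, ?_⟩
      · have h6 : (M'.shift 1).dg.d x1 = sg 1 • M'.dg.d x1 := rfl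
        rw [h6, e3, smul_zero]
        rfl
      · refine Eq.trans ?_ (congrArg (fun z => sesP p h1 m n - z) (hq x1)).symm
        rw [sesP_d, sesP_sub, hx1, hm1, map_zero, add_zero, sub_zero]
        congr 1
        abel
  exact ses_hasRes_unshift (hc.of_qiso' q hqi)

theorem IsSes.mid {M' M M'' : Bim A B} (h : IsSes M' M M'') (h' : HasRes M')
    (h'' : HasRes M'') : HasRes M := by
  obtain ⟨i, h0, q, hq⟩ := h.cone
  have h1 : HasRes (MP_6e5bed_ag_NC.cone i h0) := h''.of_qiso' q hq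
  exact ((isCone_cone i h0).isExt.isSes).left h1 (ses_hasRes_shift h' 1)

/-- Additivity of the classes. -/
theorem IsSes.rcls {M' M M'' : Bim A B} (h : IsSes M' M M'') (h' : HasRes M') (hM : HasRes M)
    (h'' : HasRes M'') : rcls M hM = MP_6e5bed_ag_NC.rcls M' h' + MP_6e5bed_ag_NC.rcls M'' h'' := by
  obtain ⟨i, h0, q, hq⟩ := h.cone
  obtain ⟨h1, h2⟩ := ses_cone_res i h0 h' hM
  rw [← rcls_qiso h1 h'' q hq, h2, add_sub_cancel]

theorem IsSes.finCoh_mid {M' M M'' : Bim A B} (h : IsSes M' M M'') (h' : M'.dg.FinCoh)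
    (h'' : M''.dg.FinCoh) : M.dg.FinCoh := by
  obtain ⟨i, p, h0, h1, h2, h3, h4⟩ := h
  have hdi : ∀ x, M.dg.d (i.f x) = i.f (M'.dg.d x) := fun x => GMap.d_f_zero h0 x
  have hdp : ∀ x, M''.dg.d (p.f x) = p.f (M.dg.d x) := fun x => GMap.d_f_zero h1 x
  refine finCoh_exact (X := M'.dg) (Z := M''.dg) i.f p.f ?_ ?_ ?_ ?_ ?_ h' h''
  · intro x hx
    rw [hdi, hx, map_zero]
  · intro u
    exact ⟨i.f u, hdi u⟩
  · intro x hx
    rw [hdp, hx, map_zero]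
  · intro u
    exact ⟨p.f u, hdp u⟩
  · rintro y hy ⟨w, hw⟩
    obtain ⟨m1, hm1⟩ := h3 w
    obtain ⟨x, hx⟩ := (h4 (y - M.dg.d m1)).1 (by rw [map_sub, ← hdp, hm1, hw, sub_self])
    refine ⟨x, ?_, m1, ?_⟩
    · apply h2
      rw [← hdi, hx, map_sub, hy, M.dg.d_d, sub_zero, map_zero]
    · rw [hx, sub_add_cancel]

/-- If `M'` is acyclic, `M → M''` is a quasi-isomorphism. -/
theorem IsSes.hasRes_iff_of_acyc_left {M' M M'' : Bim A B} (h : IsSes M' M M'')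
    (h' : Acyc M') : HasRes M ↔ HasRes M'' := by
  obtain ⟨i, p, h0, h1, h2, h3, h4⟩ := h
  have hdi : ∀ x, M.dg.d (i.f x) = i.f (M'.dg.d x) := fun x => GMap.d_f_zero h0 x
  have hdp : ∀ x, M''.dg.d (p.f x) = p.f (M.dg.d x) := fun x => GMap.d_f_zero h1 x
  have hpi : ∀ x, p.f (i.f x) = 0 := fun x => (h4 _).2 ⟨x, rfl⟩
  have hq : QIso p := by
    refine ⟨h1, ?_, ?_⟩
    · rintro x hx ⟨y, hy⟩
      obtain ⟨m1, hm1⟩ := h3 y
      obtain ⟨x1, hx1⟩ := (h4 (x - M.dg.d m1)).1 (by rw [map_sub, ← hdp, hm1, hy, sub_self])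
      obtain ⟨x2, hx2⟩ := h' x1 (by
        apply h2
        rw [← hdi, hx1, map_sub, hx, M.dg.d_d, sub_zero, map_zero])
      refine ⟨m1 + i.f x2, ?_⟩
      rw [map_add, hdi, hx2, hx1, add_sub_cancel]
    · intro y hy
      obtain ⟨m, hm⟩ := h3 y
      obtain ⟨x1, hx1⟩ := (h4 (M.dg.d m)).1 (by rw [← hdp, hm, hy])
      obtain ⟨x2, hx2⟩ := h' x1 (by
        apply h2
        rw [← hdi, hx1, M.dg.d_d, map_zero])
      refine ⟨m - i.f x2, ?_, 0, ?_⟩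
      · rw [map_sub, hdi, hx2, hx1, sub_self]
      · rw [map_zero, map_sub, hpi, sub_zero, hm, sub_self]
  exact ⟨fun hM => hM.of_qiso p hq, fun hN => hN.of_qiso' p hq⟩

end Pool.Agent.MP_6e5bed_ag_NC
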