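import Pool.Agent.Lib.MP_6e5bed_ag_CV.KFilt
import Pool.Agent.Lib.MP_6e5bed_ag_CV.JSpan
import Pool.Agent.Lib.MP_6e5bed_ag_CV.Ses

set_option autoImplicit false

/-!
# Resolutions and classes of finite-dimensional bimodules (NC CURVES, row 15)
-/

namespace Pool.Agent.MP_6e5bed_ag_NC

open scoped TensorProduct

universe u

variable {k : Type u} [Field k] {R R' : Type u} [Ring R] [Algebra k R] [Ring R'] [Algebra k R']
  {A B : DGA k}

private theorem clsTors_deg {V W : Type u} [AddCommGroup V] [Module k V] [AddCommGroup W]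
    [Module k W] (f : V →ₗ[k] W) {i : ℤ} {v : V} (h : (Dg.conc k V).IsDeg i v) :
    (Dg.conc k W).IsDeg (i + 0) (f v) := by
  rw [add_zero]
  rcases Dg.conc_cases h with rfl | rfl
  · exact Dg.conc_deg _
  · rw [map_zero]
    exact Dg.IsDeg.zero _

/-- a map of bimodules in degree zero, restricted -/
private noncomputable def clsTorsMap (α : DHom A (ring k R)) (β : DHom B (ring k R'))
    {U V : KBi k R R'} (f : U.M →ₗ[k] V.M) (hl : ∀ a x, f (U.l a x) = V.l a (f x))
    (hr : ∀ b x, f (U.r b x) = V.r b (f x)) : GMap 0 (res α β U.bim) (res α β V.bim) where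
  f := f
  deg := fun h => clsTors_deg f h
  map_l := fun a m => by
    rw [Dg.sp_zero]
    exact hl _ _
  map_r := fun b m => hr _ _

private theorem clsTorsMap_dd (α : DHom A (ring k R)) (β : DHom B (ring k R'))
    {U V : KBi k R R'} (f : U.M →ₗ[k] V.M) (hl : ∀ a x, f (U.l a x) = V.l a (f x))
    (hr : ∀ b x, f (U.r b x) = V.r b (f x)) : (clsTorsMap α β f hl hr).dd = 0 := by
  refine LinearMap.ext fun x => ?_
  change (0 : V.M) - (sg 0) • f (0 : U.M) = 0
  rw [map_zero, smul_zero, sub_zero]

/-- The dg bimodule of an external tensor product. -/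
theorem KBi.ext_bim (α : DHom A (ring k R)) (β : DHom B (ring k R')) (P : KBi k R k)
    (Q : KBi k k R') : BIso (res α β (P.ext Q).bim)
      (tb (res α (DHom.unit (ring k k)) P.bim) (res (DHom.unit (ring k k)) β Q.bim)) := by
  set X := res α (DHom.unit (ring k k)) P.bim with hX
  set Y := res (DHom.unit (ring k k)) β Q.bim with hY
  let F : P.M ⊗[k] Q.M →ₗ[k] (tb X Y).M := (rel X Y).mkQ
  have hF : ∀ (p : P.M) (q : Q.M), F (p ⊗ₜ q) = (tm (M := X) (N := Y) p q) := fun p q => rfl
  let G : (tb X Y).M →ₗ[k] P.M ⊗[k] Q.M :=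
    tlift (M := X) (N := Y) (TensorProduct.mk k P.M Q.M) (fun m b n => by
      have h1 := base_r X b m
      have h2 := base_l Y b n
      rw [h1, h2]
      exact TensorProduct.smul_tmul (R := k) (R' := k) (M := P.M) (N := Q.M) b m n)
  have hG : ∀ (p : P.M) (q : Q.M), G (tm (M := X) (N := Y) p q) = p ⊗ₜ q := fun p q =>
    tlift_tm _ _ _ _
  refine ⟨{ f := F, deg := ?_, map_l := ?_, map_r := ?_ },
    { f := G, deg := ?_, map_l := ?_, map_r := ?_ }, ?_, ?_, ?_⟩
  · intro i m h
    rw [add_zero]
    have h' : (Dg.conc k (P.M ⊗[k] Q.M)).IsDeg i m := h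
    rcases Dg.conc_cases h' with rfl | rfl
    · refine TensorProduct.induction_on (motive := fun m : P.M ⊗[k] Q.M =>
        (tb X Y).dg.IsDeg 0 (F m)) m ?_ ?_ ?_
      · rw [map_zero]
        exact Dg.IsDeg.zero _
      · intro p q
        rw [hF]
        exact tb_deg (M := X) (N := Y) (Dg.conc_deg p) (Dg.conc_deg q)
      · intro x y hx hy
        rw [map_add]
        exact hx.add hy
    · have h0 : F 0 = 0 := map_zero F
      exact h0 ▸ Dg.IsDeg.zero _
  · intro a m
    rw [Dg.sp_zero]
    refine TensorProduct.induction_on (motive := fun m : P.M ⊗[k] Q.M =>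
        F (LinearMap.rTensor Q.M (P.l (α.f a)) m) = (tb X Y).l a (F m)) m ?_ ?_ ?_
    · simp
    · intro p q
      rw [LinearMap.rTensor_tmul, hF, hF]
      exact (tL_mk X Y a p q).symm
    · intro x y hx hy
      simp only [map_add, hx, hy]
  · intro b m
    refine TensorProduct.induction_on (motive := fun m : P.M ⊗[k] Q.M =>
        F (LinearMap.lTensor P.M (Q.r (β.f b)) m) = (tb X Y).r b (F m)) m ?_ ?_ ?_
    · simp
    · intro p q
      rw [LinearMap.lTensor_tmul, hF, hF]
      exact (tR_mk X Y b p q).symm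
    · intro x y hx hy
      simp only [map_add, hx, hy]
  · intro i m h
    refine tb_degMap (M := X) (N := Y) (Z := Dg.conc k (P.M ⊗[k] Q.M)) G ?_ h
    intro i j v w hv hw
    rw [hG, add_zero]
    exact Dg.conc_bil (TensorProduct.mk k P.M Q.M) hv hw
  · intro a m
    rw [Dg.sp_zero]
    refine tb_ind (M := X) (N := Y) (P := fun m => G ((tb X Y).l a m) =
      LinearMap.rTensor Q.M (P.l (α.f a)) (G m)) ?_ ?_ ?_ m
    · simp only [map_zero]
    · intro x y hx hy
      simp only [map_add, hx, hy]
    · intro p q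
      have h1 : (tb X Y).l a (tm p q) = tm (X.l a p) q := tL_mk X Y a p q
      rw [h1, hG, hG]
      exact (LinearMap.rTensor_tmul _ _ _ _).symm
  · intro b m
    refine tb_ind (M := X) (N := Y) (P := fun m => G ((tb X Y).r b m) =
      LinearMap.lTensor P.M (Q.r (β.f b)) (G m)) ?_ ?_ ?_ m
    · simp only [map_zero]
    · intro x y hx hy
      simp only [map_add, hx, hy]
    · intro p q
      have h1 : (tb X Y).r b (tm p q) = tm p (Y.r b q) := tR_mk X Y b p q
      rw [h1, hG, hG]
      exact (LinearMap.lTensor_tmul _ _ _ _).symm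
  · refine LinearMap.ext fun m => ?_
    refine TensorProduct.induction_on (motive := fun m : P.M ⊗[k] Q.M =>
        (tb X Y).dg.d (F m) - (sg 0) • F (0 : P.M ⊗[k] Q.M) = 0) m ?_ ?_ ?_
    · simp
    · intro p q
      have h1 : (tb X Y).dg.d (F (p ⊗ₜ q)) = F ((0 : P.M) ⊗ₜ q) + F (X.dg.s p ⊗ₜ (0 : Q.M)) :=
        tdg_d X Y p q
      rw [h1]
      simp
    · intro x y hx hy
      simp only [map_zero, smul_zero, sub_zero, map_add] at hx hy ⊢
      rw [hx, hy, add_zero]
  · intro m
    refine TensorProduct.induction_on (motive := fun m : P.M ⊗[k] Q.M => G (F m) = m) m ?_ ?_ ?_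
    · rw [map_zero, map_zero]
    · intro p q
      rw [hF, hG]
    · intro x y hx hy
      rw [map_add, map_add, hx, hy]
  · intro m
    refine tb_ind (M := X) (N := Y) (P := fun m => F (G m) = m) ?_ ?_ ?_ m
    · rw [map_zero, map_zero]
    · intro x y hx hy
      rw [map_add, map_add, hx, hy]
    · intro p q
      rw [hG, hF]

theorem KBi.Iso.biso {U V : KBi k R R'} (h : KBi.Iso U V) (α : DHom A (ring k R))
    (β : DHom B (ring k R')) : BIso (res α β U.bim) (res α β V.bim) := by
  obtain ⟨f, hl, hr⟩ := h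
  refine ⟨clsTorsMap α β f.toLinearMap hl hr, clsTorsMap α β f.symm.toLinearMap ?_ ?_,
    clsTorsMap_dd α β _ hl hr, fun m => f.symm_apply_apply m, fun m => f.apply_symm_apply m⟩
  · intro a x
    change f.symm (V.l a x) = U.l a (f.symm x)
    rw [LinearEquiv.symm_apply_eq, hl, f.apply_symm_apply]
  · intro b x
    change f.symm (V.r b x) = U.r b (f.symm x)
    rw [LinearEquiv.symm_apply_eq, hr, f.apply_symm_apply]

theorem KBi.IsSes.bim {U' U U'' : KBi k R R'} (h : KBi.IsSes U' U U'') (α : DHom A (ring k R))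
    (β : DHom B (ring k R')) :
    MP_6e5bed_ag_NC.IsSes (res α β U'.bim) (res α β U.bim) (res α β U''.bim) := by
  obtain ⟨i, p, hi, hp, hex, hil, hir, hpl, hpr⟩ := h
  exact ⟨clsTorsMap α β i hil hir, clsTorsMap α β p hpl hpr, clsTorsMap_dd α β i hil hir,
    clsTorsMap_dd α β p hpl hpr, hi, hp, hex⟩

theorem KBi.finCoh {U : KBi k R R'} (hU : Module.Finite k U.M) (α : DHom A (ring k R))
    (β : DHom B (ring k R')) : (res α β U.bim).dg.FinCoh := by
  have : Module.Finite k (res α β U.bim).M := hU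
  unfold Dg.FinCoh
  infer_instance

private theorem clsTors_acyc {U : KBi k R R'} (hU : Subsingleton U.M) (α : DHom A (ring k R))
    (β : DHom B (ring k R')) : Acyc (res α β U.bim) := fun x _ =>
  ⟨x, @Subsingleton.elim U.M hU _ _⟩

private theorem clsTors_sub {U' U U'' : KBi k R R'} (h : KBi.IsSes U' U U'')
    (hU : Module.Finite k U.M) : Module.Finite k U'.M ∧ Module.Finite k U''.M := by
  obtain ⟨i, p, hi, hp, -⟩ := h
  exact ⟨Module.Finite.of_injective i hi, Module.Finite.of_surjective p hp⟩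

/-- The finite-dimensional bimodules have resolutions if the simple left and right modules have
them. -/
theorem KBi.hasRes_of_simple [IsAlgClosed k] (α : DHom A (ring k R)) (β : DHom B (ring k R'))
    (hl : ∀ P : KBi k R k, Module.Finite k P.M → P.Simple →
      HasRes (res α (DHom.unit (ring k k)) P.bim))
    (hr : ∀ Q : KBi k k R', Module.Finite k Q.M → Q.Simple →
      HasRes (res (DHom.unit (ring k k)) β Q.bim))
    (U : KBi k R R') (hU : Module.Finite k U.M) : HasRes (res α β U.bim) := by
  refine KBi.ind (P := fun U => HasRes (res α β U.bim)) ?_ ?_ ?_ U hU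
  · intro U hs
    exact HasRes.of_acyc (clsTors_acyc hs α β)
  · intro U hf hs
    obtain ⟨P, Q, hP, hQ, hPs, hQs, hi⟩ := KBi.Simple.ext U hf hs
    have h1 : HasRes (tb (res α (DHom.unit (ring k k)) P.bim)
        (res (DHom.unit (ring k k)) β Q.bim)) :=
      HasRes.tb base_proper (hl P hP hPs) (hr Q hQ hQs) (rflat_base _)
    exact (h1.iso (KBi.ext_bim α β P Q).symm).iso (hi.biso α β)
  · intro U' U U'' hse hf h1 h2
    exact (hse.bim α β).mid h1 h2

/-- The classes of finite-dimensional bimodules are sums of classes which factor through `k`. -/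
theorem KBi.cls_mem [IsAlgClosed k] {Good : DGA k → Prop} (hG : Good (base k)) {T : DGA k}
    (hT : Smooth T) (α : DHom T (ring k R)) (β : DHom T (ring k R')) (U : KBi k R R')
    (hU : Module.Finite k U.M) : ∃ h : HasRes (res α β U.bim), rcls _ h ∈ JS Good T := by
  refine ⟨HasRes.of_finCoh hT hT _ (KBi.finCoh hU α β), ?_⟩
  have key : ∀ U : KBi k R R', Module.Finite k U.M →
      (Module.Finite k U.M → ∀ h : HasRes (res α β U.bim), rcls _ h ∈ JS Good T) := by
    intro U hU
    refine KBi.ind (P := fun U : KBi k R R' => Module.Finite k U.M →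
      ∀ h : HasRes (res α β U.bim), rcls _ h ∈ JS Good T) ?_ ?_ ?_ U hU
    · intro U hs _ h
      rw [rcls_acyc (clsTors_acyc hs α β) h]
      exact Submodule.zero_mem _
    · intro U hf hs _ h
      obtain ⟨P, Q, hP, hQ, hPs, hQs, hi⟩ := KBi.Simple.ext U hf hs
      have hP' : HasRes (res α (DHom.unit (ring k k)) P.bim) :=
        HasRes.of_finCoh hT smooth_base _ (KBi.finCoh hP α _)
      have hQ' : HasRes (res (DHom.unit (ring k k)) β Q.bim) :=
        HasRes.of_finCoh smooth_base hT _ (KBi.finCoh hQ _ β)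
      have h1 : HasRes (tb (res α (DHom.unit (ring k k)) P.bim)
          (res (DHom.unit (ring k k)) β Q.bim)) :=
        HasRes.tb base_proper hP' hQ' (rflat_base _)
      have h2 : BIso (tb (res α (DHom.unit (ring k k)) P.bim)
          (res (DHom.unit (ring k k)) β Q.bim)) (res α β U.bim) :=
        (KBi.ext_bim α β P Q).symm.trans (hi.biso α β)
      rw [← rcls_iso h2 h1 h]
      exact JS.tb_base hG hP' hQ' h1
    · intro U' U U'' hse hf h1 h2 _ h
      obtain ⟨hf', hf''⟩ := clsTors_sub hse hf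
      have h' : HasRes (res α β U'.bim) := HasRes.of_finCoh hT hT _ (KBi.finCoh hf' α β)
      have h'' : HasRes (res α β U''.bim) := HasRes.of_finCoh hT hT _ (KBi.finCoh hf'' α β)
      rw [(hse.bim α β).rcls h' h h'']
      exact Submodule.add_mem _ (h1 hf' h') (h2 hf'' h'')
  exact key U hU hU _

end Pool.Agent.MP_6e5bed_ag_NC
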