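import Pool.Agent.Lib.MP_6e5bed_ag_CV.ResRight

set_option autoImplicit false

/-!
# Bimodules with finite-dimensional cohomology over smooth dg algebras (NC CURVES, row 7)

`R_A ⊗_A M ⊗_B R_B` is perfect: induction on the perfectness of `R_A` and `R_B` reduces to
`A ⊗ M ⊗ B` with `M` a complex over `k` with finite-dimensional cohomology (`perf_of_finCoh`); see
`clos_free` in `Clos.lean` for the same reduction.
-/

namespace Pool.Agent.MP_6e5bed_ag_NC

universe u

variable {k : Type u} [Field k] {A B : DGA k}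

private theorem fcRes_und {M : Bim A B} (h : M.dg.FinCoh) (A' B' : DGA k) :
    Perf (tb (free A' (base k)) (tb (und M) (free (base k) B'))) := by
  have hV : (und M).dg.FinCoh := h
  have hP : Perf (und M) := (perf_of_finCoh hV).1
  have h1 : BIso (tb (free (base k) (base k)) (free (base k) B')) (free (base k) B') :=
    tb_free_free (base k) B'
  have h2 : BIso (tb (free A' (base k)) (tb (free (base k) (base k)) (free (base k) B')))
      (tb (free A' (base k)) (free (base k) B')) := (tbL (free A' (base k)) B').biso h1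
  have h3 : Perf (tb (free A' (base k)) (tb (free (base k) (base k)) (free (base k) B'))) :=
    (h2.trans (tb_free_free A' B')).symm.perf Perf.free
  exact ((tbR (base k) (free (base k) B')).comp (tbL (free A' (base k)) B')).perf h3 hP

/-- `R ⊗_A M ⊗_B S` is perfect if `R`, `S` are perfect and `M` has finite-dimensional
cohomology. -/
private theorem fcRes_perf {M : Bim A B} (h : M.dg.FinCoh) {R : Bim A A} {S : Bim B B}
    (hR : Perf R) (hS : Perf S) : Perf (tb R (tb M S)) := by
  refine (tbR A (tb M S)).perf ?_ hR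
  have h1 : BIso (tb (free A A) (tb M S)) (tb (free A (base k)) (fgL (tb M S))) :=
    tb_free_left A (tb M S)
  have h2 : BIso (fgL (tb M S)) (tb (fgL M) S) := res_tb (DHom.unit A) (DHom.id B) M S
  have h3 : BIso (tb (free A (base k)) (fgL (tb M S)))
      (tb (free A (base k)) (tb (fgL M) S)) := (tbL (free A (base k)) B).biso h2
  have h4 : BIso (tb (fgL M) (free B B)) (tb (und M) (free (base k) B)) :=
    tb_free_right (fgL M) B
  have h5 : BIso (tb (free A (base k)) (tb (fgL M) (free B B)))
      (tb (free A (base k)) (tb (und M) (free (base k) B))) :=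
    (tbL (free A (base k)) B).biso h4
  have h6 : Perf (tb (free A (base k)) (tb (fgL M) (free B B))) :=
    h5.symm.perf (fcRes_und h A B)
  have h7 : Perf (tb (free A (base k)) (tb (fgL M) S)) :=
    ((tbL (fgL M) B).comp (tbL (free A (base k)) B)).perf h6 hS
  exact (h1.trans h3).symm.perf h7

theorem HasRes.of_finCoh (hA : Smooth A) (hB : Smooth B) (M : Bim A B) (h : M.dg.FinCoh) :
    HasRes M := by
  obtain ⟨R, φ, hR, hφ⟩ := (smooth_iff A).1 hA
  obtain ⟨S, ψ, hS, hψ⟩ := (smooth_iff B).1 hB
  obtain ⟨g, hg⟩ := qiso_tbL_diag hS hψ M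
  obtain ⟨g', hg'⟩ := qiso_tbR_diag hR hφ (MP_6e5bed_ag_NC.tb M S)
  exact ⟨MP_6e5bed_ag_NC.tb R (MP_6e5bed_ag_NC.tb M S), g'.comp g (add_zero 0),
    fcRes_perf h hR hS, hg'.comp hg⟩

theorem Smooth.hasRes_diag (hA : Smooth A) : HasRes (diag A) := by
  obtain ⟨P, φ, hP, hφ⟩ := (smooth_iff A).1 hA
  exact ⟨P, φ, hP, hφ⟩

theorem smooth_of_hasRes (h : HasRes (diag A)) : Smooth A := by
  obtain ⟨P, φ, hP, hφ⟩ := h
  exact (smooth_iff A).2 ⟨P, φ, hP, hφ⟩

theorem rcls_diag (hA : Smooth A) (hA' : Proper A) (h : HasRes (diag A)) :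
    rcls (diag A) h = K0Q.one hA :=
  (K0Q.one_eq hA hA' h.choose_spec.choose_spec.1
    ((rqiso_iff h.choose_spec.choose).2 h.choose_spec.choose_spec.2)).symm

/-- The base field is smooth, and its diagonal is perfect. -/
theorem HasRes.of_finCoh_base {M : Bim (base k) (base k)} (h : M.dg.FinCoh) : HasRes M := by
  exact (perf_of_finCoh h).1.hasRes

end Pool.Agent.MP_6e5bed_ag_NC
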