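import Pool.Agent.Lib.MP_6e5bed_ag_CV.FCRes
import Pool.Agent.Lib.MP_6e5bed_ag_CV.Ses

set_option autoImplicit false

/-!
# Corners of dg algebras (NC CURVES, row 8)

A non-unital homomorphism `φ : A → W` gives the idempotent `e = φ 1`, and for a dg `W`-`B`-bimodule
`Y` the dg `A`-`B`-bimodule `e Y`.
-/

namespace Pool.Agent.MP_6e5bed_ag_NC

universe u

/-- The restriction of a complex to a homogeneous subspace stable under the differential. -/
noncomputable def Dg.sub {k : Type u} [CommRing k] {V : Type u} [AddCommGroup V] [Module k V]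
    (X : Dg k V) (S : Submodule k V) (hS : ∀ v ∈ S, ∀ n, X.ρ v n ∈ S)
    (hd : ∀ v ∈ S, X.d v ∈ S) : Dg k S where
  ρ :=
    { toFun := fun v => Finsupp.onFinset (X.ρ v.1).support (fun n => ⟨X.ρ v.1 n, hS v.1 v.2 n⟩)
        (fun n hn => by
          rw [Finsupp.mem_support_iff]
          intro h
          exact hn (Subtype.ext h))
      map_add' := fun v w => by
        ext n
        simp
      map_smul' := fun c v => by
        ext n
        simp }
  sum_ρ := fun v => by
    apply Subtype.ext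
    have h2 : ∀ (f : ℤ → S) (hf : ∀ n, f n ≠ 0 → n ∈ (X.ρ v.1).support),
        (Finsupp.onFinset (X.ρ v.1).support f hf).sum (fun _ w => w) =
          ∑ n ∈ (X.ρ v.1).support, f n := fun f hf => Finsupp.onFinset_sum hf (fun _ => rfl)
    refine (congrArg Subtype.val (h2 (fun n => ⟨X.ρ v.1 n, hS v.1 v.2 n⟩) (fun n hn => by
      rw [Finsupp.mem_support_iff]
      intro h
      exact hn (Subtype.ext h)))).trans ?_
    rw [AddSubmonoidClass.coe_finsetSum]
    exact X.sum_ρ v.1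
  ρ_ρ := fun v n => by
    ext m
    have h := DFunLike.congr_fun (X.ρ_ρ v.1 n) m
    change X.ρ (X.ρ v.1 n) m = _
    rw [h, Finsupp.single_apply, Finsupp.single_apply]
    split_ifs
    · rfl
    · rfl
  d := X.d.restrict hd
  d_d := fun v => by
    apply Subtype.ext
    exact X.d_d v.1
  ρ_d := fun v n => by
    apply Subtype.ext
    exact X.ρ_d v.1 n

theorem Dg.sub_ρ {k : Type u} [CommRing k] {V : Type u} [AddCommGroup V] [Module k V]
    (X : Dg k V) (S : Submodule k V) (hS : ∀ v ∈ S, ∀ n, X.ρ v n ∈ S)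
    (hd : ∀ v ∈ S, X.d v ∈ S) (v : S) (n : ℤ) : ((X.sub S hS hd).ρ v n).1 = X.ρ v.1 n := rfl

theorem Dg.sub_isDeg {k : Type u} [CommRing k] {V : Type u} [AddCommGroup V] [Module k V]
    (X : Dg k V) (S : Submodule k V) (hS : ∀ v ∈ S, ∀ n, X.ρ v n ∈ S)
    (hd : ∀ v ∈ S, X.d v ∈ S) (v : S) (n : ℤ) : (X.sub S hS hd).IsDeg n v ↔ X.IsDeg n v.1 := by
  have key : ∀ m : ℤ, ((Finsupp.single n v : ℤ →₀ S) m).1 = (Finsupp.single n v.1 : ℤ →₀ V) m := by
    intro m
    rw [Finsupp.single_apply, Finsupp.single_apply]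
    split_ifs
    · rfl
    · rfl
  constructor
  · intro h
    have h' : (X.sub S hS hd).ρ v = Finsupp.single n v := h
    change X.ρ v.1 = Finsupp.single n v.1
    ext m
    rw [← key m, ← h', Dg.sub_ρ]
  · intro h
    have h' : X.ρ v.1 = Finsupp.single n v.1 := h
    change (X.sub S hS hd).ρ v = Finsupp.single n v
    ext m
    rw [Dg.sub_ρ, key m, h']

variable {k : Type u} [Field k] {A B W : DGA k}

/-- A homomorphism of dg algebras which need not preserve the unit elements. -/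
structure NHom (A W : DGA k) where
  f : A.A →ₗ[k] W.A
  deg : ∀ {i : ℤ} {a : A.A}, A.dg.IsDeg i a → W.dg.IsDeg i (f a)
  d : ∀ a, W.dg.d (f a) = f (A.dg.d a)
  mul : ∀ a b, f (A.mul a b) = W.mul (f a) (f b)

/-- The subspace `e Y` for `e = φ 1`. -/
def pullS (φ : NHom A W) (Y : Bim W B) : Submodule k Y.M :=
  LinearMap.ker (Y.l (φ.f A.one) - LinearMap.id)

theorem mem_pullS (φ : NHom A W) (Y : Bim W B) (y : Y.M) :
    y ∈ pullS φ Y ↔ Y.l (φ.f A.one) y = y := by
  rw [pullS, LinearMap.mem_ker, LinearMap.sub_apply, LinearMap.id_apply, sub_eq_zero]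

theorem pullS_l (φ : NHom A W) (Y : Bim W B) (a : A.A) (y : Y.M) :
    Y.l (φ.f a) y ∈ pullS φ Y := by
  rw [mem_pullS, ← Y.l_mul, ← φ.mul, A.one_mul]

theorem pullS_r (φ : NHom A W) (Y : Bim W B) (b : B.A) (y : Y.M) (hy : y ∈ pullS φ Y) :
    Y.r b y ∈ pullS φ Y := by
  rw [mem_pullS] at hy ⊢
  rw [Y.l_r, hy]

theorem pullS_ρ (φ : NHom A W) (Y : Bim W B) (y : Y.M) (hy : y ∈ pullS φ Y) (n : ℤ) :
    Y.dg.ρ y n ∈ pullS φ Y := by
  rw [mem_pullS] at hy ⊢
  have h0 : ∀ (j : ℤ) (v : Y.M), Y.dg.IsDeg j v → Y.dg.IsDeg (j + 0) (Y.l (φ.f A.one) v) := by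
    intro j v hv
    rw [add_comm]
    exact Y.l_deg (φ.deg A.one_deg) hv
  have h := (Dg.degMap_iff (X := Y.dg) (Y := Y.dg) (n := 0) (Y.l (φ.f A.one))).1 h0 y n
  rw [hy, add_zero] at h
  exact h.symm

theorem pullS_d (φ : NHom A W) (Y : Bim W B) (y : Y.M) (hy : y ∈ pullS φ Y) :
    Y.dg.d y ∈ pullS φ Y := by
  rw [mem_pullS] at hy ⊢
  have h1 : W.dg.d (φ.f A.one) = 0 := by rw [φ.d, A.d_one, map_zero]
  have h2 : W.dg.s (φ.f A.one) = φ.f A.one :=
    Dg.s_of_even (Dg.o_of_even (φ.deg A.one_deg) Even.zero)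
  have h3 := Y.d_l (φ.f A.one) y
  rw [hy, h1, h2, map_zero, LinearMap.zero_apply, zero_add] at h3
  exact h3.symm

/-- The dg `A`-`B`-bimodule `e Y`. -/
noncomputable def pull (φ : NHom A W) (Y : Bim W B) : Bim A B where
  M := pullS φ Y
  dg := Y.dg.sub (pullS φ Y) (pullS_ρ φ Y) (pullS_d φ Y)
  l := LinearMap.mk₂ k (fun a y => ⟨Y.l (φ.f a) y.1, pullS_l φ Y a y.1⟩)
    (fun a a' y => Subtype.ext (by simp)) (fun c a y => Subtype.ext (by simp))
    (fun a y y' => Subtype.ext (by simp)) (fun c a y => Subtype.ext (by simp))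
  r := LinearMap.mk₂ k (fun b y => ⟨Y.r b y.1, pullS_r φ Y b y.1 y.2⟩)
    (fun a a' y => Subtype.ext (by simp)) (fun c a y => Subtype.ext (by simp))
    (fun a y y' => Subtype.ext (by simp)) (fun c a y => Subtype.ext (by simp))
  l_one := by
    intro y
    exact Subtype.ext ((mem_pullS φ Y y.1).1 y.2)
  r_one := by
    intro y
    exact Subtype.ext (Y.r_one y.1)
  l_mul := by
    intro a a' y
    apply Subtype.ext
    change Y.l (φ.f (A.mul a a')) y.1 = Y.l (φ.f a) (Y.l (φ.f a') y.1)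
    rw [φ.mul, Y.l_mul]
  r_mul := by
    intro b b' y
    exact Subtype.ext (Y.r_mul b b' y.1)
  l_r := by
    intro a b y
    exact Subtype.ext (Y.l_r (φ.f a) b y.1)
  l_deg := by
    intro i j a y ha hy
    rw [Dg.sub_isDeg] at hy ⊢
    exact Y.l_deg (φ.deg ha) hy
  r_deg := by
    intro i j b y hy hb
    rw [Dg.sub_isDeg] at hy ⊢
    exact Y.r_deg hy hb
  d_l := by
    intro a y
    apply Subtype.ext
    have hs : ∀ a : A.A, W.dg.s (φ.f a) = φ.f (A.dg.s a) := fun a =>
      Dg.s_degMap_even (n := 0) Even.zero φ.f (fun h => by rw [add_zero]; exact φ.deg h) a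
    change Y.dg.d (Y.l (φ.f a) y.1) = Y.l (φ.f (A.dg.d a)) y.1 + Y.l (φ.f (A.dg.s a)) (Y.dg.d y.1)
    rw [Y.d_l, φ.d, hs]
  d_r := by
    intro b y
    apply Subtype.ext
    have hs : (((Y.dg.sub (pullS φ Y) (pullS_ρ φ Y) (pullS_d φ Y)).s y : pullS φ Y) : Y.M) =
        Y.dg.s y.1 := by
      have h1 := Dg.s_degMap_even (X := Y.dg.sub (pullS φ Y) (pullS_ρ φ Y) (pullS_d φ Y))
        (Y := Y.dg) (n := 0) Even.zero (pullS φ Y).subtype (fun {j v} h => by
          rw [add_zero]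
          exact (Dg.sub_isDeg _ _ _ _ v j).1 h) y
      exact h1.symm
    change Y.dg.d (Y.r b y.1) = Y.r b (Y.dg.d y.1) + Y.r (B.dg.d b)
      ((Y.dg.sub (pullS φ Y) (pullS_ρ φ Y) (pullS_d φ Y)).s y : pullS φ Y).1
    rw [Y.d_r, hs]

theorem pull_l (φ : NHom A W) (Y : Bim W B) (a : A.A) (y : (pull φ Y).M) :
    ((pull φ Y).l a y).1 = Y.l (φ.f a) y.1 := rfl

theorem pull_r (φ : NHom A W) (Y : Bim W B) (b : B.A) (y : (pull φ Y).M) :
    ((pull φ Y).r b y).1 = Y.r b y.1 := rfl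

theorem pull_d (φ : NHom A W) (Y : Bim W B) (y : (pull φ Y).M) :
    ((pull φ Y).dg.d y).1 = Y.dg.d y.1 := rfl

theorem Corner_isDeg (φ : NHom A W) (Y : Bim W B) (n : ℤ) (y : (pull φ Y).M) :
    (pull φ Y).dg.IsDeg n y ↔ Y.dg.IsDeg n y.1 :=
  Dg.sub_isDeg Y.dg (pullS φ Y) (pullS_ρ φ Y) (pullS_d φ Y) y n

/-- An isomorphism with the corner: injective, with image the elements `e y = y`. -/
theorem pull_biso (φ : NHom A W) (Y : Bim W B) (Z : Bim A B) (f : Z.M →ₗ[k] Y.M)
    (hdeg : ∀ {i : ℤ} {z : Z.M}, Z.dg.IsDeg i z → Y.dg.IsDeg i (f z))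
    (hl : ∀ a z, f (Z.l a z) = Y.l (φ.f a) (f z)) (hr : ∀ b z, f (Z.r b z) = Y.r b (f z))
    (hd : ∀ z, f (Z.dg.d z) = Y.dg.d (f z)) (hi : Function.Injective f)
    (hs : ∀ y, Y.l (φ.f A.one) y = y → ∃ z, f z = y) : BIso (pull φ Y) Z := by
  have hmem : ∀ z : Z.M, f z ∈ pullS φ Y := by
    intro z
    rw [mem_pullS, ← hl, Z.l_one]
  refine BIso.symm (BIso.of_bij (M := Z) (N := pull φ Y)
    { f := LinearMap.codRestrict (pullS φ Y) f hmem
      deg := fun {i z} hz => by
        rw [add_zero, Corner_isDeg]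
        exact hdeg hz
      map_l := fun a z => by
        apply Subtype.ext
        rw [Dg.sp_even Even.zero]
        exact hl a z
      map_r := fun b z => Subtype.ext (hr b z) } ?_ ?_)
  · refine LinearMap.ext (fun z => ?_)
    rw [GMap.dd_apply, sg_zero, one_smul, LinearMap.zero_apply, sub_eq_zero]
    exact Subtype.ext (hd z).symm
  · constructor
    · intro z z' hz
      exact hi (congrArg Subtype.val hz)
    · intro y
      obtain ⟨z, hz⟩ := hs y.1 ((mem_pullS φ Y y.1).1 y.2)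
      exact ⟨z, Subtype.ext hz⟩

/-- The underlying complex of a corner is a direct summand of the complex. -/
theorem Corner_isSummand (φ : NHom A W) (Y : Bim W B) : IsSummand (und (pull φ Y)) (und Y) := by
  have h0 : ∀ y : Y.M, Y.l (φ.f A.one) y ∈ pullS φ Y := fun y => pullS_l φ Y A.one y
  have h1 : W.dg.d (φ.f A.one) = 0 := by rw [φ.d, A.d_one, map_zero]
  have h2 : W.dg.s (φ.f A.one) = φ.f A.one :=
    Dg.s_of_even (Dg.o_of_even (φ.deg A.one_deg) Even.zero)
  have h3 : ∀ z : Y.M, Y.dg.d (Y.l (φ.f A.one) z) = Y.l (φ.f A.one) (Y.dg.d z) := by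
    intro z
    rw [Y.d_l, h1, h2, map_zero, LinearMap.zero_apply, zero_add]
  refine ⟨GMap.ofBase (V := und (pull φ Y)) (W := und Y) (n := 0) (pullS φ Y).subtype
    (fun {i v} h => by
      rw [add_zero]
      exact (Corner_isDeg φ Y i v).1 h),
    GMap.ofBase (V := und Y) (W := und (pull φ Y)) (n := 0)
      (LinearMap.codRestrict (pullS φ Y) (Y.l (φ.f A.one)) h0)
    (fun {i v} h => by
      refine (Corner_isDeg φ Y (i + 0) _).2 ?_
      rw [add_comm]
      exact Y.l_deg (φ.deg A.one_deg) h), ?_, ?_, ?_⟩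
  · refine LinearMap.ext (fun z => ?_)
    rw [GMap.dd_apply, sg_zero, one_smul, LinearMap.zero_apply, sub_eq_zero]
    rfl
  · refine LinearMap.ext (fun z => ?_)
    rw [GMap.dd_apply, sg_zero, one_smul, LinearMap.zero_apply, sub_eq_zero]
    apply Subtype.ext
    exact h3 z
  · intro y
    exact Subtype.ext ((mem_pullS φ Y y.1).1 y.2)

/-- Finite-dimensional cohomology passes to corners (`e Y` is a direct summand of the complex
`Y`). -/
theorem finCoh_pull (φ : NHom A W) (Y : Bim W B) (h : Y.dg.FinCoh) : (pull φ Y).dg.FinCoh := by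
  have h1 : (und Y).dg.FinCoh := h
  have h2 : (und (pull φ Y)).dg.FinCoh := FinCoh.summand (Corner_isSummand φ Y) h1
  exact h2

/-- Acyclicity passes to corners. -/
theorem Corner_acyc (φ : NHom A W) (Y : Bim W B) (h : Acyc Y) : Acyc (pull φ Y) := by
  have h1 : Acyc (und Y) := h
  have h2 : Acyc (und (pull φ Y)) := Acyc.summand (Corner_isSummand φ Y) h1
  exact h2

private theorem corner_one_mem (φ : NHom A W) : φ.f A.one ∈ pullS φ (diag W) := by
  have h : W.mul (φ.f A.one) (φ.f A.one) = φ.f A.one := by rw [← φ.mul, A.one_mul]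
  exact (mem_pullS φ (diag W) (φ.f A.one)).2 h

/-- The element `e` of `e W`. -/
noncomputable def Corner_one (φ : NHom A W) : (pull φ (diag W)).M :=
  ⟨φ.f A.one, corner_one_mem φ⟩

/-- The map `w ⊗ y ↦ w y` from `e W ⊗_W Y` to `Y`. -/
noncomputable def Corner_f (φ : NHom A W) (Y : Bim W B) :
    (tb (pull φ (diag W)) Y).M →ₗ[k] Y.M :=
  tlift (M := pull φ (diag W)) (N := Y) (Y.l.comp (pullS φ (diag W)).subtype)
    (fun m b n => Y.l_mul m.1 b n)

theorem Corner_f_tm (φ : NHom A W) (Y : Bim W B) (w : (pull φ (diag W)).M) (y : Y.M) :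
    Corner_f φ Y (tm (M := pull φ (diag W)) (N := Y) w y) = Y.l w.1 y :=
  tlift_tm (M := pull φ (diag W)) (N := Y) _ _ w y

/-- `e W ⊗_W Y = e Y`. -/
theorem pull_tb (φ : NHom A W) (Y : Bim W B) : BIso (tb (pull φ (diag W)) Y) (pull φ Y) := by
  refine BIso.symm (pull_biso φ Y (tb (pull φ (diag W)) Y) (Corner_f φ Y) ?_ ?_ ?_ ?_ ?_ ?_)
  · intro i z hz
    have h := tb_degMap (Z := Y.dg) (n := 0) (Corner_f φ Y) (fun {i j v w} hv hw => by
      rw [add_zero, Corner_f_tm]
      exact Y.l_deg ((Corner_isDeg φ (diag W) i v).1 hv) hw) hz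
    rwa [add_zero] at h
  · intro a
    refine tb_ind (by simp only [map_zero]) (fun x y hx hy => by
      simp only [map_add, hx, hy]) (fun w y => ?_)
    rw [tb_l, Corner_f_tm, Corner_f_tm]
    exact Y.l_mul (φ.f a) w.1 y
  · intro b
    refine tb_ind (by simp only [map_zero]) (fun x y hx hy => by
      simp only [map_add, hx, hy]) (fun w y => ?_)
    rw [tb_r, Corner_f_tm, Corner_f_tm]
    exact Y.l_r w.1 b y
  · refine tb_ind (by simp only [map_zero]) (fun x y hx hy => by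
      simp only [map_add, hx, hy]) (fun w y => ?_)
    have hs : ((pull φ (diag W)).dg.s w).1 = W.dg.s w.1 := by
      have h1 := Dg.s_degMap_even (X := (pull φ (diag W)).dg)
        (Y := W.dg) (n := 0) Even.zero (pullS φ (diag W)).subtype (fun {j v} h => by
          rw [add_zero]
          exact (Corner_isDeg φ (diag W) j v).1 h) w
      exact h1.symm
    rw [tb_d, map_add, Corner_f_tm, Corner_f_tm, Corner_f_tm, hs]
    exact (Y.d_l w.1 y).symm
  · have hinv : ∀ x : (tb (pull φ (diag W)) Y).M,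
        tm (M := pull φ (diag W)) (N := Y) (Corner_one φ) (Corner_f φ Y x) = x := by
      refine tb_ind ?_ (fun x y hx hy => ?_) (fun w y => ?_)
      · rw [map_zero, tm_zero_right]
      · rw [map_add, tm_add_right, hx, hy]
      · rw [Corner_f_tm]
        refine (tm_r_l (M := pull φ (diag W)) (N := Y) (Corner_one φ) w.1 y).symm.trans ?_
        refine congrArg (fun v => tm (M := pull φ (diag W)) (N := Y) v y) ?_
        apply Subtype.ext
        exact (mem_pullS φ (diag W) w.1).1 w.2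
    intro x y hxy
    rw [← hinv x, ← hinv y, hxy]
  · intro y hy
    refine ⟨tm (M := pull φ (diag W)) (N := Y) (Corner_one φ) y, ?_⟩
    rw [Corner_f_tm]
    exact hy

/-- `e W` is flat on the right. -/
theorem rflat_pull (φ : NHom A W) : RFlat (pull φ (diag W)) := by
  intro B Y hY
  exact Acyc.iso (pull_tb φ Y).symm (Corner_acyc φ Y hY)

end Pool.Agent.MP_6e5bed_ag_NC
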