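import Pool.Agent.Lib.MP_6e5bed_ag_CV.Corner

set_option autoImplicit false

/-!
# Perfect one-sided modules from idempotents (NC CURVES, row 9)
-/

namespace Pool.Agent.MP_6e5bed_ag_NC

open scoped TensorProduct

universe u

variable {k : Type u} [Field k] {W : DGA k}

private theorem corPerf_deg {V U : Type u} [AddCommGroup V] [Module k V] [AddCommGroup U]
    [Module k U] {X : Dg k V} {Y : Dg k U} (f : V →ₗ[k] U)
    (hdeg : ∀ {i : ℤ} {v : V}, X.IsDeg i v → Y.IsDeg i (f v)) (hi : Function.Injective f)
    {i : ℤ} {v : V} (h : Y.IsDeg i (f v)) : X.IsDeg i v := by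
  have h1 := (Dg.degMap_iff (X := X) (Y := Y) (n := 0) f).1
    (fun j v hv => by rw [add_zero]; exact hdeg hv) v
  have h2 : Y.ρ (f v) = Finsupp.single i (f v) := h
  change X.ρ v = Finsupp.single i v
  ext j
  apply hi
  rw [← h1 j, add_zero, h2, Finsupp.single_apply, Finsupp.single_apply]
  split_ifs
  · rfl
  · rw [map_zero]

/-- `fgR (diag W)` is the free left module of rank one. -/
theorem perf_fgR_diag (W : DGA k) : Perf (fgR (diag W)) := by
  have h : BIso (fgR (diag W)) (free W (base k)) := by
    refine BIso.of_bij (M := fgR (diag W)) (N := free W (base k))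
      { f := TbUnitA.ι W
        deg := fun {i m} hm => by
          rw [add_zero]
          exact TbUnitA.ι_deg W hm
        map_l := fun a m => by
          rw [Dg.sp_even Even.zero]
          rfl
        map_r := fun (c : k) m => by
          rw [base_r (fgR (diag W)) c m, base_r (free W (base k)) c]
          exact map_smul (TbUnitA.ι W) c m } ?_ ?_
    · refine LinearMap.ext (fun z => ?_)
      rw [GMap.dd_apply, sg_zero, one_smul, LinearMap.zero_apply, sub_eq_zero]
      exact TbUnitA.ι_d W z
    · have h1 : ∀ a : W.A, TbUnitA.ι W a = (TensorProduct.rid k W.A).symm a := fun a => rfl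
      have h2 := (TensorProduct.rid k W.A).symm.bijective
      exact h2
  exact h.symm.perf Perf.free

/-- `fgL (diag W)` is the free right module of rank one. -/
theorem perf_fgL_diag (W : DGA k) : Perf (fgL (diag W)) := by
  have hd : ∀ z : W.A, (free (base k) W).dg.d ((base k).one ⊗ₜ[k] z) =
      (base k).one ⊗ₜ[k] W.dg.d z := by
    intro z
    refine (Dg.tensor_d (X := (base k).dg) (Y := W.dg) (base k).one z).trans ?_
    rw [(base k).d_one, (base k).s_one, TensorProduct.zero_tmul, zero_add]
  have h : BIso (fgL (diag W)) (free (base k) W) := by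
    refine BIso.of_bij (M := fgL (diag W)) (N := free (base k) W)
      { f := TensorProduct.mk k k W.A (1 : k)
        deg := fun {i m} hm => by
          have h1 : ((base k).dg.tensor W.dg).IsDeg (0 + i) ((base k).one ⊗ₜ[k] m) :=
            Dg.tensor_deg (base k).one_deg hm
          rw [zero_add] at h1
          rw [add_zero]
          exact h1
        map_l := fun (c : k) m => by
          have h1 : (base k).dg.sp 0 c = c := Dg.sp_even Even.zero c
          rw [h1, base_l (fgL (diag W)) c m, base_l (free (base k) W) c]
          exact map_smul (TensorProduct.mk k k W.A (1 : k)) c m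
        map_r := fun b m => rfl } ?_ ?_
    · refine LinearMap.ext (fun z => ?_)
      rw [GMap.dd_apply, sg_zero, one_smul, LinearMap.zero_apply, sub_eq_zero]
      exact hd z
    · have h2 := (TensorProduct.lid k W.A).symm.bijective
      exact h2
  exact h.symm.perf Perf.free

/-- A left module isomorphic to `W e`, for a closed idempotent `e` of degree `0`, is perfect. -/
theorem perf_of_right_idem {e : W.A} (h0 : W.dg.IsDeg 0 e) (hd : W.dg.d e = 0)
    (he : W.mul e e = e) (M : Bim W (base k)) (f : M.M →ₗ[k] W.A)
    (hdeg : ∀ {i : ℤ} {m : M.M}, M.dg.IsDeg i m → W.dg.IsDeg i (f m))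
    (hl : ∀ a m, f (M.l a m) = W.mul a (f m)) (hdf : ∀ m, f (M.dg.d m) = W.dg.d (f m))
    (hi : Function.Injective f) (hs : ∀ w, W.mul w e = w ↔ ∃ m, f m = w) : Perf M := by
  have hr : ∀ w : W.A, W.mul.flip e w ∈ LinearMap.range f := fun w =>
    (hs (W.mul w e)).1 (by rw [W.mul_assoc, he])
  let g : W.A →ₗ[k] M.M := (LinearEquiv.ofInjective f hi).symm.toLinearMap.comp
    (LinearMap.codRestrict (LinearMap.range f) (W.mul.flip e) hr)
  have hg : ∀ w : W.A, f (g w) = W.mul w e := by
    intro w
    exact congrArg Subtype.val ((LinearEquiv.ofInjective f hi).apply_symm_apply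
      ⟨W.mul.flip e w, hr w⟩)
  have hdegi : ∀ {i : ℤ} {m : M.M}, W.dg.IsDeg i (f m) → M.dg.IsDeg i m := fun h =>
    corPerf_deg f hdeg hi h
  have hgdeg : ∀ {i : ℤ} {w : W.A}, W.dg.IsDeg i w → M.dg.IsDeg (i + 0) (g w) := by
    intro i w hw
    refine hdegi ?_
    rw [hg]
    exact W.mul_deg hw h0
  have hgl : ∀ (a w : W.A), g (W.mul a w) = M.l a (g w) := by
    intro a w
    apply hi
    rw [hl, hg, hg, W.mul_assoc]
  have hgd : ∀ w : W.A, M.dg.d (g w) = g (W.dg.d w) := by
    intro w
    apply hi
    rw [hdf, hg, hg, W.leibniz, hd, map_zero, add_zero]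
  have hgf : ∀ m : M.M, g (f m) = m := by
    intro m
    apply hi
    rw [hg]
    exact (hs (f m)).2 ⟨m, rfl⟩
  have hsum : IsSummand M (fgR (diag W)) := by
    refine ⟨{ f := f
              deg := fun {i m} hm => by
                rw [add_zero]
                exact hdeg hm
              map_l := fun a m => by
                rw [Dg.sp_even Even.zero]
                exact hl a m
              map_r := fun (c : k) m => by
                rw [base_r M c m, base_r (fgR (diag W)) c]
                exact map_smul f c m },
      { f := g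
        deg := fun {i m} hm => hgdeg hm
        map_l := fun a m => by
          rw [Dg.sp_even Even.zero]
          exact hgl a m
        map_r := fun (c : k) m => by
          rw [base_r M c, base_r (fgR (diag W)) c m]
          exact map_smul g c m }, ?_, ?_, ?_⟩
    · refine LinearMap.ext (fun z => ?_)
      rw [GMap.dd_apply, sg_zero, one_smul, LinearMap.zero_apply, sub_eq_zero]
      exact (hdf z).symm
    · refine LinearMap.ext (fun z => ?_)
      rw [GMap.dd_apply, sg_zero, one_smul, LinearMap.zero_apply, sub_eq_zero]
      exact hgd z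
    · intro m
      exact hgf m
  exact Perf.summand hsum (perf_fgR_diag W)

/-- A right module isomorphic to `e W`, for a closed idempotent `e` of degree `0`, is perfect. -/
theorem perf_of_left_idem {e : W.A} (h0 : W.dg.IsDeg 0 e) (hd : W.dg.d e = 0)
    (he : W.mul e e = e) (M : Bim (base k) W) (f : M.M →ₗ[k] W.A)
    (hdeg : ∀ {i : ℤ} {m : M.M}, M.dg.IsDeg i m → W.dg.IsDeg i (f m))
    (hr : ∀ a m, f (M.r a m) = W.mul (f m) a) (hdf : ∀ m, f (M.dg.d m) = W.dg.d (f m))
    (hi : Function.Injective f) (hs : ∀ w, W.mul e w = w ↔ ∃ m, f m = w) : Perf M := by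
  have hr' : ∀ w : W.A, W.mul e w ∈ LinearMap.range f := fun w =>
    (hs (W.mul e w)).1 (by rw [← W.mul_assoc, he])
  let g : W.A →ₗ[k] M.M := (LinearEquiv.ofInjective f hi).symm.toLinearMap.comp
    (LinearMap.codRestrict (LinearMap.range f) (W.mul e) hr')
  have hg : ∀ w : W.A, f (g w) = W.mul e w := by
    intro w
    exact congrArg Subtype.val ((LinearEquiv.ofInjective f hi).apply_symm_apply
      ⟨W.mul e w, hr' w⟩)
  have hdegi : ∀ {i : ℤ} {m : M.M}, W.dg.IsDeg i (f m) → M.dg.IsDeg i m := fun h =>
    corPerf_deg f hdeg hi h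
  have hse : W.dg.s e = e := Dg.s_of_even (Dg.o_of_even h0 Even.zero)
  have hgdeg : ∀ {i : ℤ} {w : W.A}, W.dg.IsDeg i w → M.dg.IsDeg (i + 0) (g w) := by
    intro i w hw
    refine hdegi ?_
    rw [hg, add_comm]
    exact W.mul_deg h0 hw
  have hgr : ∀ (b w : W.A), g (W.mul w b) = M.r b (g w) := by
    intro b w
    apply hi
    rw [hr, hg, hg, W.mul_assoc]
  have hgd : ∀ w : W.A, M.dg.d (g w) = g (W.dg.d w) := by
    intro w
    apply hi
    rw [hdf, hg, hg, W.leibniz, hd, hse, map_zero, LinearMap.zero_apply, zero_add]
  have hgf : ∀ m : M.M, g (f m) = m := by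
    intro m
    apply hi
    rw [hg]
    exact (hs (f m)).2 ⟨m, rfl⟩
  have hsum : IsSummand M (fgL (diag W)) := by
    refine ⟨{ f := f
              deg := fun {i m} hm => by
                rw [add_zero]
                exact hdeg hm
              map_l := fun (c : k) m => by
                have h1 : (base k).dg.sp 0 c = c := Dg.sp_even Even.zero c
                rw [h1, base_l M c m, base_l (fgL (diag W)) c]
                exact map_smul f c m
              map_r := fun b m => hr b m },
      { f := g
        deg := fun {i m} hm => hgdeg hm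
        map_l := fun (c : k) m => by
          have h1 : (base k).dg.sp 0 c = c := Dg.sp_even Even.zero c
          rw [h1, base_l M c, base_l (fgL (diag W)) c m]
          exact map_smul g c m
        map_r := fun b m => hgr b m }, ?_, ?_, ?_⟩
    · refine LinearMap.ext (fun z => ?_)
      rw [GMap.dd_apply, sg_zero, one_smul, LinearMap.zero_apply, sub_eq_zero]
      exact (hdf z).symm
    · refine LinearMap.ext (fun z => ?_)
      rw [GMap.dd_apply, sg_zero, one_smul, LinearMap.zero_apply, sub_eq_zero]
      exact hgd z
    · intro m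
      exact hgf m
  exact Perf.summand hsum (perf_fgL_diag W)

end Pool.Agent.MP_6e5bed_ag_NC
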