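import Pool.Agent.Lib.MP_6e5bed_ag_CV.LTens

set_option autoImplicit false
set_option linter.unusedSectionVars false

/-!
# The span over the structure sheaf (NC CURVES)
-/

namespace Pool.Agent.MP_6e5bed_ag_NC

open RatFunc
open scoped TensorProduct

universe u

variable {k : Type u} [Field k] {D : FExt k}

private noncomputable def BSbil (E : LSp D) (w : RatFunc k) :
    D.L →ₗ[kk k w] E.F →ₗ[kk k w] E.F :=
  LinearMap.mk₂ (kk k w) (fun b v => b • v) (fun a b v => add_smul a b v)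
    (fun c b v => smul_assoc (c : RatFunc k) b v) (fun b v v' => smul_add b v v')
    (fun c b v => smul_comm b (c : RatFunc k) v)

private noncomputable def BSp {E : LSp D} {w : RatFunc k} (B : Submodule (kk k w) D.L)
    (N : Submodule (kk k w) E.F) : Submodule (kk k w) E.F :=
  Submodule.map₂ (BSbil E w) B N

private theorem BSp_mem {E : LSp D} {w : RatFunc k} {B : Submodule (kk k w) D.L}
    {N : Submodule (kk k w) E.F} {b : D.L} (hb : b ∈ B) {v : E.F} (hv : v ∈ N) :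
    b • v ∈ BSp B N :=
  Submodule.apply_mem_map₂ (BSbil E w) hb hv

private theorem BSp_ind {E : LSp D} {w : RatFunc k} {B : Submodule (kk k w) D.L}
    {N : Submodule (kk k w) E.F} {P : E.F → Prop} (h0 : P 0)
    (ha : ∀ x y, P x → P y → P (x + y)) (hm : ∀ b ∈ B, ∀ v ∈ N, P (b • v)) {y : E.F}
    (hy : y ∈ BSp B N) : P y := by
  rw [BSp, Submodule.map₂_eq_span_image2] at hy
  refine Submodule.closure_induction (p := fun x _ => P x) h0 (fun x y _ _ => ha x y) ?_ hy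
  rintro c x ⟨b, hb, v, hv, rfl⟩
  have h1 : c • ((BSbil E w) b) v = (c • b) • v :=
    (smul_assoc (c : RatFunc k) b v).symm
  rw [h1]
  exact hm _ (B.smul_mem c hb) _ hv

private theorem BSp_fg {E : LSp D} {w : RatFunc k} {B : Submodule (kk k w) D.L}
    {N : Submodule (kk k w) E.F} (hB : B.FG) (hN : N.FG) : (BSp B N).FG :=
  Submodule.FG.map₂ _ hB hN

private theorem BSp_le {E : LSp D} {w : RatFunc k} {B : Submodule (kk k w) D.L}
    {N : Submodule (kk k w) E.F} (h1 : (1 : D.L) ∈ B) : N ≤ BSp B N := by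
  intro v hv
  have := BSp_mem h1 hv
  rwa [one_smul] at this

private theorem BSp_top {E : LSp D} {w : RatFunc k} {B : Submodule (kk k w) D.L}
    {N : Submodule (kk k w) E.F} (h1 : (1 : D.L) ∈ B)
    (hN : Submodule.span (RatFunc k) (N : Set E.F) = ⊤) :
    Submodule.span (RatFunc k) (BSp B N : Set E.F) = ⊤ := by
  rw [eq_top_iff, ← hN]
  exact Submodule.span_mono (BSp_le h1)

private theorem BSp_one0 : (1 : D.L) ∈ (LP.OO D).N0 :=
  (LP.mem_OO_N0 1).2 isIntegral_one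

private theorem BSp_one1 : (1 : D.L) ∈ (LP.OO D).N1 :=
  (LP.mem_OO_N1 1).2 isIntegral_one

private theorem BSp_loc {E : LSp D} {w w' c : RatFunc k} {B : Submodule (kk k w) D.L}
    {N : Submodule (kk k w) E.F} {B' : Submodule (kk k w') D.L}
    {N' : Submodule (kk k w') E.F} (hc : c ∈ kk k w')
    (hB : ∀ b ∈ B, ∃ n : ℕ, c ^ n • b ∈ B') (hN : ∀ v ∈ N, ∃ n : ℕ, c ^ n • v ∈ N') :
    ∀ v ∈ BSp B N, ∃ n : ℕ, c ^ n • v ∈ BSp B' N' := by
  intro v hv
  refine BSp_ind (P := fun v => ∃ n : ℕ, c ^ n • v ∈ BSp B' N') ?_ ?_ ?_ hv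
  · exact ⟨0, by rw [smul_zero]; exact Submodule.zero_mem _⟩
  · rintro x y ⟨n, hn⟩ ⟨m, hm⟩
    have hp : ∀ (j : ℕ) (z : E.F), z ∈ BSp B' N' → c ^ j • z ∈ BSp B' N' := fun j z hz =>
      (BSp B' N').smul_mem (⟨c ^ j, Subalgebra.pow_mem _ hc j⟩ : kk k w') hz
    refine ⟨n + m, ?_⟩
    rw [smul_add]
    refine Submodule.add_mem _ ?_ ?_
    · rw [add_comm, pow_add, mul_smul]
      exact hp m _ hn
    · rw [pow_add, mul_smul]
      exact hp n _ hm
  · intro b hb v hv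
    obtain ⟨n, hn⟩ := hB b hb
    obtain ⟨m, hm⟩ := hN v hv
    refine ⟨n + m, ?_⟩
    have h1 : c ^ (n + m) • b • v = (c ^ n • b) • (c ^ m • v) := by
      rw [smul_assoc, smul_comm b (c ^ m) v, ← mul_smul, pow_add]
    rw [h1]
    exact BSp_mem hn hm

private noncomputable def BSlp {E : LSp D} (N : LP k E.F) : LP k E.F where
  N0 := BSp (LP.OO D).N0 N.N0
  N1 := BSp (LP.OO D).N1 N.N1
  fg0 := BSp_fg (LP.OO D).fg0 N.fg0
  fg1 := BSp_fg (LP.OO D).fg1 N.fg1
  sp0 := BSp_top BSp_one0 N.sp0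
  sp1 := BSp_top BSp_one1 N.sp1
  loc01 := BSp_loc (kk.gen k X⁻¹).2 (LP.OO D).loc01 N.loc01
  loc10 := BSp_loc (kk.gen k X).2 (LP.OO D).loc10 N.loc10

private theorem BSlp_smul {E : LSp D} (N : LP k E.F) {b : D.L} (hb : b ∈ (LP.OO D).N0)
    {v : E.F} (hv : v ∈ N.N01) : b • v ∈ (BSlp N).N01 := by
  obtain ⟨n, hn⟩ := hv
  refine ⟨n, ?_⟩
  rw [smul_comm]
  exact BSp_mem hb hn

private theorem BSlp_01 {E : LSp D} (N : LP k E.F) (f : E.F →ₗ[D.L] E.F)
    (hf : ∀ v ∈ N.N01, f v ∈ N.N01) : ∀ v ∈ (BSlp N).N01, f v ∈ (BSlp N).N01 := by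
  rintro v ⟨n, hn⟩
  have h1 : (X : RatFunc k) ^ n • f v = f ((X : RatFunc k) ^ n • v) :=
    ((f.restrictScalars (RatFunc k)).map_smul _ v).symm
  have h2 : f ((X : RatFunc k) ^ n • v) ∈ (BSlp N).N01 := by
    refine BSp_ind (P := fun v => f v ∈ (BSlp N).N01) ?_ ?_ ?_ hn
    · rw [map_zero]; exact Submodule.zero_mem _
    · intro x y hx hy
      rw [map_add]; exact Submodule.add_mem _ hx hy
    · intro b hb v hv
      rw [map_smul]
      exact BSlp_smul N hb (hf v (N.N0_le hv))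
  rw [← h1] at h2
  obtain ⟨m, hm⟩ := h2
  refine ⟨m + n, ?_⟩
  rw [pow_add, mul_smul]
  exact hm

private theorem BSlp_st {E : LSp D} {w : RatFunc k} {B : Submodule (kk k w) D.L}
    {N : Submodule (kk k w) E.F} (f : E.F →ₗ[D.L] E.F) (hf : ∀ v ∈ N, f v ∈ N) :
    ∀ v ∈ BSp B N, f v ∈ BSp B N := by
  intro v hv
  refine BSp_ind (P := fun v => f v ∈ BSp B N) ?_ ?_ ?_ hv
  · rw [map_zero]; exact Submodule.zero_mem _
  · intro x y hx hy
    rw [map_add]; exact Submodule.add_mem _ hx hy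
  · intro b hb v hv
    rw [map_smul]
    exact BSp_mem hb (hf v hv)

/-- The span of a stable lattice pair over the structure sheaf of the curve is stable. -/
theorem exists_bstable {S T : Cosp k} {E : LSp D} {l : LAct S.A01 E} {r : RAct T.A01 E}
    {N : LP k E.F} (hl : l.St N) (hr : r.St N) :
    ∃ N' : LP k E.F, LP.BStable N' ∧ l.St N' ∧ r.St N' := by
  refine ⟨BSlp N, ⟨?_, ?_⟩, ⟨?_, ?_, ?_⟩, ⟨?_, ?_, ?_⟩⟩
  · intro b hb v hv
    refine BSp_ind (P := fun v => b • v ∈ (BSlp N).N0) ?_ ?_ ?_ hv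
    · rw [smul_zero]; exact Submodule.zero_mem _
    · intro x y hx hy
      rw [smul_add]; exact Submodule.add_mem _ hx hy
    · intro b' hb' v hv
      rw [smul_smul]
      exact BSp_mem ((LP.mem_OO_N0 _).2 (((LP.mem_OO_N0 _).1 hb).mul ((LP.mem_OO_N0 _).1 hb'))) hv
  · intro b hb v hv
    refine BSp_ind (P := fun v => b • v ∈ (BSlp N).N1) ?_ ?_ ?_ hv
    · rw [smul_zero]; exact Submodule.zero_mem _
    · intro x y hx hy
      rw [smul_add]; exact Submodule.add_mem _ hx hy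
    · intro b' hb' v hv
      rw [smul_smul]
      exact BSp_mem ((LP.mem_OO_N1 _).2 (((LP.mem_OO_N1 _).1 hb).mul ((LP.mem_OO_N1 _).1 hb'))) hv
  · exact fun a v hv => BSlp_st (l.f (S.r0 a)) (fun v hv => hl.s0 a v hv) v hv
  · exact fun a v hv => BSlp_st (l.f (S.r1 a)) (fun v hv => hl.s1 a v hv) v hv
  · exact fun a v hv => BSlp_01 N (l.f a) (fun v hv => hl.s01 a v hv) v hv
  · exact fun a v hv => BSlp_st (r.f (T.r0 a)) (fun v hv => hr.s0 a v hv) v hv
  · exact fun a v hv => BSlp_st (r.f (T.r1 a)) (fun v hv => hr.s1 a v hv) v hv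
  · exact fun a v hv => BSlp_01 N (r.f a) (fun v hv => hr.s01 a v hv) v hv

end Pool.Agent.MP_6e5bed_ag_NC
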