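import Pool.Agent.Lib.MP_6e5bed_ag_CV.Ses

set_option autoImplicit false
set_option linter.unusedSectionVars false

/-!
# Shifts and cones of bimodules with resolutions (NC CURVES)
-/

namespace Pool.Agent.MP_6e5bed_ag_NC

universe u

variable {k : Type u} [Field k] {A B : DGA k}

private theorem coneRes_qiso_shift {M N : Bim A B} {φ : GMap 0 M N} (h : QIso φ) (n : ℤ) :
    QIso (φ.extSh n) := by
  have hsg : ∀ {V : Type u} [AddCommGroup V] (x : V), sg n • sg n • x = x := by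
    intro V _ x
    rw [smul_smul, sg_mul_self, one_smul]
  refine ⟨φ.extSh_dd n h.1, ?_, ?_⟩
  · rintro x hx ⟨y, hy⟩
    change M.M at x
    change N.M at y
    have hx1 : sg n • M.dg.d x = 0 := hx
    have hy1 : sg n • N.dg.d y = φ.f x := hy
    have hx2 : M.dg.d x = 0 := by
      rw [← hsg (M.dg.d x), hx1, smul_zero]
    obtain ⟨z, hz⟩ := h.2.1 x hx2 ⟨sg n • y, by rw [map_zsmul, hy1]⟩
    refine ⟨sg n • z, ?_⟩
    change sg n • M.dg.d (sg n • z) = x
    rw [map_zsmul, hsg, hz]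
  · intro y hy
    change N.M at y
    have hy1 : sg n • N.dg.d y = 0 := hy
    have hy2 : N.dg.d y = 0 := by
      rw [← hsg (N.dg.d y), hy1, smul_zero]
    obtain ⟨x, hx, z, hz⟩ := h.2.2 y hy2
    refine ⟨x, ?_, sg n • z, ?_⟩
    · change sg n • M.dg.d x = 0
      rw [hx, smul_zero]
    · change sg n • N.dg.d (sg n • z) = y - φ.f x
      rw [map_zsmul, hsg, hz]

theorem HasRes.shift {M : Bim A B} (h : HasRes M) (n : ℤ) : HasRes (M.shift n) := by
  obtain ⟨P, φ, hP, hφ⟩ := h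
  exact ⟨P.shift n, φ.extSh n, hP.shift n, coneRes_qiso_shift hφ n⟩

theorem HasRes.cone {M N : Bim A B} (hM : HasRes M) (hN : HasRes N) (φ : GMap 0 M N)
    (h : φ.dd = 0) : HasRes (MP_6e5bed_ag_NC.cone φ h) :=
  (isCone_cone φ h).isExt.isSes.mid hN (hM.shift 1)

end Pool.Agent.MP_6e5bed_ag_NC
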