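import Pool.Agent.Lib.MP_6e5bed_ag_CV.HRes
import Pool.Agent.Lib.MP_6e5bed_ag_NC.KComp
import Pool.Agent.Lib.MP_6e5bed_ag_NC.SmProp

set_option autoImplicit false

/-!
# Composition of classes of bimodules with a perfect resolution (NC CURVES, row 5)
-/

namespace Pool.Agent.MP_6e5bed_ag_NC

universe u

variable {k : Type u} [Field k] {A B W : DGA k}

/-- `X ⊗_W -` preserves acyclic bimodules. -/
def RFlat (X : Bim A W) : Prop := ∀ (B : DGA k) (Y : Bim W B), Acyc Y → Acyc (tb X Y)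

/-- Over the base field every bimodule is flat (acyclic complexes are contractible). -/
theorem rflat_base (X : Bim A (base k)) : RFlat X := by
  intro B Y hY
  have h1 : Acyc (fgR Y) := hY
  have h2 : Contr (fgR Y) := contr_of_acyc h1
  have h3 : Contr (tb X (fgR Y)) := (MP_6e5bed_ag_NC.tbL X (base k)).contr h2
  exact h3.acyc

private theorem rtb_qiso {X P : Bim A W} {Y Q : Bim W B} {φ : GMap 0 P X} (hφ : QIso φ)
    (hQ : Perf Q) {ψ : GMap 0 Q Y} (hψ : QIso ψ) (hf : RFlat X) :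
    QIso ((φ.tbR Q).comp (ψ.tbL X) (add_zero 0)) := by
  refine QIso.comp (RQIso.tbR ((rqiso_iff φ).2 hφ) hQ).qiso ?_
  have h1 : ψ.dd = 0 := hψ.1
  have hc : IsCone ψ (cone ψ h1) := isCone_cone ψ h1
  have h2 : Acyc (cone ψ h1) := (hc.qiso_iff h1).1 hψ
  have h3 : IsCone (ψ.tbL X) (tb X (cone ψ h1)) := (MP_6e5bed_ag_NC.tbL X B).isCone hc
  have h4 : (ψ.tbL X).dd = 0 := (MP_6e5bed_ag_NC.tbL X B).closed h1
  exact (h3.qiso_iff h4).2 (hf B _ h2)

theorem HasRes.tb (hW : Proper W) {X : Bim A W} {Y : Bim W B} (hX : HasRes X) (hY : HasRes Y)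
    (hf : RFlat X) : HasRes (tb X Y) := by
  obtain ⟨P, φ, hP, hφ⟩ := hX
  obtain ⟨Q, ψ, hQ, hψ⟩ := hY
  exact ⟨MP_6e5bed_ag_NC.tb P Q, (φ.tbR Q).comp (ψ.tbL X) (add_zero 0), Perf.tb hW hP hQ,
    rtb_qiso hφ hQ hψ hf⟩

theorem rcls_tb (hW : Proper W) {X : Bim A W} {Y : Bim W B} (hX : HasRes X) (hY : HasRes Y)
    (hf : RFlat X) (h : HasRes (tb X Y)) :
    K0Q.comp hW (rcls X hX) (rcls Y hY) = rcls (tb X Y) h := by
  obtain ⟨P, φ, hP, hφ⟩ := id hX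
  obtain ⟨Q, ψ, hQ, hψ⟩ := id hY
  rw [rcls_eq hX hP φ hφ, rcls_eq hY hQ ψ hψ, K0Q.comp_cls hW hP hQ,
    rcls_eq h (Perf.tb hW hP hQ) ((φ.tbR Q).comp (ψ.tbL X) (add_zero 0))
      (rtb_qiso hφ hQ hψ hf)]

theorem base_proper : Proper (base k) := by
  exact proper_base

end Pool.Agent.MP_6e5bed_ag_NC
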