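import Pool.Agent.Lib.MP_6e5bed_ag_CV.KerT
import Pool.Agent.Lib.MP_6e5bed_ag_CV.ConeRes
import Pool.Agent.Lib.MP_6e5bed_ag_CV.RTb

set_option autoImplicit false
set_option linter.unusedSectionVars false

/-!
# The Beilinson resolution (NC CURVES)

Section (8b) of the paper proof. `ν(v ⊗ f) = v ⊗ t f - t v ⊗ f`, and the cup product
`(v0,v1,c) ⊗ (f0,f1,c') ↦ (v0 ⊗ f0, v1 ⊗ f1, v0 ⊗ c' + c ⊗ f1)`. The cokernel of `ν` has the
components `P_{a ∪ b}`, `a, b ∈ {0, 1, 01}`, by `KerT`; the kernel of its map to `C(P)` is acyclic.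
-/

namespace Pool.Agent.MP_6e5bed_ag_NC

open RatFunc
open scoped TensorProduct

universe u

/-! ### The abstract argument -/

section core

variable {k : Type u} [CommRing k] {A B : DGA k} {Q Y Z : Bim A B}

/-- A pair, as an element of the cone. -/
private def Beil_pr (φ : GMap 0 Q Y) (h : φ.dd = 0) (x : Q.M) (y : Y.M) :
    (cone φ h).M := ((x, y) : Q.M × Y.M)

private theorem Beil_pr_ex {φ : GMap 0 Q Y} {h : φ.dd = 0} (c : (cone φ h).M) :
    ∃ x y, c = Beil_pr φ h x y := by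
  change Q.M × Y.M at c
  obtain ⟨x, y⟩ := c
  exact ⟨x, y, rfl⟩

/-- The map from the cone given by a map on the target. -/
private noncomputable def Beil_q (ν : GMap 0 Q Y) (h0 : ν.dd = 0) (μ : GMap 0 Y Z) :
    GMap 0 (cone ν h0) Z where
  f := μ.f ∘ₗ LinearMap.snd k Q.M Y.M
  deg := fun {i c} hc => by
    obtain ⟨x, y, rfl⟩ := Beil_pr_ex c
    exact μ.deg (cone_deg.1 hc).2
  map_l := fun a c => by
    obtain ⟨x, y, rfl⟩ := Beil_pr_ex c
    exact μ.map_l a y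
  map_r := fun b c => by
    obtain ⟨x, y, rfl⟩ := Beil_pr_ex c
    exact μ.map_r b y

private theorem Beil_q_f (ν : GMap 0 Q Y) (h0 : ν.dd = 0) (μ : GMap 0 Y Z) (x : Q.M)
    (y : Y.M) : (Beil_q ν h0 μ).f (Beil_pr ν h0 x y) = μ.f y := rfl

private theorem Beil_pr_d {φ : GMap 0 Q Y} {h : φ.dd = 0} (x : Q.M) (y : Y.M) :
    (cone φ h).dg.d (Beil_pr φ h x y) = Beil_pr φ h (- Q.dg.d x) (φ.f x + Y.dg.d y) :=
  cone_d x y

private theorem Beil_core (ν : GMap 0 Q Y) (h0 : ν.dd = 0) (μ : GMap 0 Y Z) (hμ : μ.dd = 0)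
    {W : Type u} [AddCommGroup W] [Module k W] (P : Fin 3 → Submodule k W)
    (hP0 : P 0 ≤ P 2) (hP1 : P 1 ≤ P 2) (φ : Fin 3 → Fin 3 → Y.M →ₗ[k] W)
    (e : Fin 3 → Z.M → W) (he : ∀ a z, e a z ∈ P a) (hinj : ∀ z z', (∀ a, e a z = e a z') → z = z')
    (hd2 : ∀ z, e 2 (Z.dg.d z) = e 1 z - e 0 z)
    (hμ0 : ∀ x, e 0 (μ.f x) = φ 0 0 x) (hμ1 : ∀ x, e 1 (μ.f x) = φ 1 1 x)
    (hμ2 : ∀ x, e 2 (μ.f x) = φ 0 2 x + φ 2 1 x) (hz : ∀ a, e a 0 = 0)
    (hmem : ∀ a b x, φ a b x ∈ P (if a = b then a else 2))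
    (hsurj : ∀ y : Fin 3 → Fin 3 → W, (∀ a b, y a b ∈ P (if a = b then a else 2)) →
      ∃ x, ∀ a b, φ a b x = y a b)
    (hker : ∀ x, (∀ a b, φ a b x = 0) → ∃ w, ν.f w = x)
    (hν : ∀ w, ν.f w = 0 → w = 0) (hφν : ∀ w a b, φ a b (ν.f w) = 0)
    (d00 : ∀ x, φ 0 0 (Y.dg.d x) = 0) (d01 : ∀ x, φ 0 1 (Y.dg.d x) = 0)
    (d10 : ∀ x, φ 1 0 (Y.dg.d x) = 0) (d11 : ∀ x, φ 1 1 (Y.dg.d x) = 0)
    (d20 : ∀ x, φ 2 0 (Y.dg.d x) = φ 1 0 x - φ 0 0 x)
    (d21 : ∀ x, φ 2 1 (Y.dg.d x) = φ 1 1 x - φ 0 1 x)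
    (d02 : ∀ x, φ 0 2 (Y.dg.d x) = φ 0 1 x - φ 0 0 x)
    (d12 : ∀ x, φ 1 2 (Y.dg.d x) = φ 1 1 x - φ 1 0 x)
    (d22 : ∀ x, φ 2 2 (Y.dg.d x) = φ 1 2 x - φ 0 2 x - φ 2 1 x + φ 2 0 x) :
    ∃ q : GMap 0 (cone ν h0) Z, QIso q := by
  have hμν : ∀ w, μ.f (ν.f w) = 0 := by
    intro w
    refine hinj _ _ fun a => ?_
    rw [hz]
    fin_cases a
    · exact (hμ0 _).trans (hφν _ _ _)
    · exact (hμ1 _).trans (hφν _ _ _)
    · refine (hμ2 _).trans ?_
      rw [hφν, hφν, add_zero]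
  have hq0 : (Beil_q ν h0 μ).dd = 0 := by
    refine LinearMap.ext fun c => ?_
    obtain ⟨x, y, rfl⟩ := Beil_pr_ex c
    rw [GMap.dd_apply, sg_zero, one_smul, Beil_q_f, Beil_pr_d, Beil_q_f, map_add, hμν, zero_add,
      GMap.d_f_zero hμ, sub_self]
    rfl
  refine ⟨Beil_q ν h0 μ, hq0, ?_, ?_⟩
  · intro c hc hex
    obtain ⟨a, b, rfl⟩ := Beil_pr_ex c
    obtain ⟨y, hy⟩ := hex
    rw [Beil_q_f] at hy
    rw [Beil_pr_d] at hc
    have hc' : ((- Q.dg.d a, ν.f a + Y.dg.d b) : Q.M × Y.M) = (0, 0) := hc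
    have hda : Q.dg.d a = 0 := neg_eq_zero.1 (congrArg Prod.fst hc')
    have hdb : Y.dg.d b = - ν.f a := by
      have h2 : ν.f a + Y.dg.d b = 0 := congrArg Prod.snd hc'
      rw [eq_neg_iff_add_eq_zero, add_comm]
      exact h2
    -- first step
    obtain ⟨b1, hb1⟩ := hsurj (![![e 0 y, 0, e 2 y], ![0, e 1 y, 0], ![0, 0, 0]]) (by
      intro a b
      fin_cases a <;> fin_cases b <;> simp [he])
    have hμb1 : μ.f b1 = y := by
      refine hinj _ _ fun a => ?_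
      fin_cases a
      · exact (hμ0 _).trans (hb1 0 0)
      · exact (hμ1 _).trans (hb1 1 1)
      · refine (hμ2 _).trans ?_
        rw [hb1, hb1]
        simp
    have hμ2' : μ.f (b - Y.dg.d b1) = 0 := by
      rw [map_sub, ← GMap.d_f_zero hμ, hμb1, hy, sub_self]
    have hd2' : Y.dg.d (b - Y.dg.d b1) = - ν.f a := by
      rw [map_sub, Y.dg.d_d, sub_zero, hdb]
    set b2 := b - Y.dg.d b1 with hb2
    have p00 : φ 0 0 b2 = 0 := by rw [← hμ0, hμ2', hz]
    have p11 : φ 1 1 b2 = 0 := by rw [← hμ1, hμ2', hz]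
    have p02 : φ 0 2 b2 + φ 2 1 b2 = 0 := by rw [← hμ2, hμ2', hz]
    have hφd : ∀ a b, φ a b (Y.dg.d b2) = 0 := by
      intro i j
      rw [hd2', map_neg, hφν, neg_zero]
    have p10 : φ 1 0 b2 = 0 := by
      have h1 := hφd 2 0
      rw [d20, p00, sub_zero] at h1
      exact h1
    have p01 : φ 0 1 b2 = 0 := by
      have h1 := hφd 2 1
      rw [d21, p11, zero_sub, neg_eq_zero] at h1
      exact h1
    have p12 : φ 1 2 b2 + φ 2 0 b2 = 0 := by
      have h1 := hφd 2 2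
      rw [d22] at h1
      have h2 : φ 1 2 b2 + φ 2 0 b2 =
        (φ 1 2 b2 - φ 0 2 b2 - φ 2 1 b2 + φ 2 0 b2) + (φ 0 2 b2 + φ 2 1 b2) := by abel
      rw [h2, h1, p02, add_zero]
    obtain ⟨b3, hb3⟩ := hsurj (![![0, φ 0 2 b2, 0], ![φ 2 0 b2, 0, φ 2 2 b2], ![0, 0, 0]]) (by
      intro i j
      fin_cases i <;> fin_cases j <;> simp
      · exact hmem 0 2 b2
      · exact hmem 2 0 b2
      · exact hmem 2 2 b2)
    have q00 : φ 0 0 b3 = 0 := hb3 0 0
    have q01 : φ 0 1 b3 = φ 0 2 b2 := hb3 0 1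
    have q02 : φ 0 2 b3 = 0 := hb3 0 2
    have q10 : φ 1 0 b3 = φ 2 0 b2 := hb3 1 0
    have q11 : φ 1 1 b3 = 0 := hb3 1 1
    have q12 : φ 1 2 b3 = φ 2 2 b2 := hb3 1 2
    have q20 : φ 2 0 b3 = 0 := hb3 2 0
    have q21 : φ 2 1 b3 = 0 := hb3 2 1
    obtain ⟨a', ha'⟩ := hker (b2 - Y.dg.d b3) (by
      intro i j
      rw [map_sub]
      fin_cases i <;> fin_cases j
      · change φ 0 0 b2 - φ 0 0 (Y.dg.d b3) = 0
        rw [p00, d00, sub_zero]
      · change φ 0 1 b2 - φ 0 1 (Y.dg.d b3) = 0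
        rw [p01, d01, sub_zero]
      · change φ 0 2 b2 - φ 0 2 (Y.dg.d b3) = 0
        rw [d02, q01, q00, sub_zero, sub_self]
      · change φ 1 0 b2 - φ 1 0 (Y.dg.d b3) = 0
        rw [p10, d10, sub_zero]
      · change φ 1 1 b2 - φ 1 1 (Y.dg.d b3) = 0
        rw [p11, d11, sub_zero]
      · change φ 1 2 b2 - φ 1 2 (Y.dg.d b3) = 0
        rw [d12, q11, q10, zero_sub, sub_neg_eq_add, p12]
      · change φ 2 0 b2 - φ 2 0 (Y.dg.d b3) = 0
        rw [d20, q10, q00, sub_zero, sub_self]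
      · change φ 2 1 b2 - φ 2 1 (Y.dg.d b3) = 0
        rw [d21, q11, q01, zero_sub, sub_neg_eq_add, add_comm, p02]
      · change φ 2 2 b2 - φ 2 2 (Y.dg.d b3) = 0
        rw [d22, q12, q02, q21, q20, sub_zero, sub_zero, add_zero, sub_self])
    refine ⟨Beil_pr ν h0 a' (b1 + b3), ?_⟩
    rw [Beil_pr_d]
    have h1 : ν.f a' + Y.dg.d (b1 + b3) = b := by
      rw [ha', hb2, map_add]
      abel
    have h2 : - Q.dg.d a' = a := by
      rw [← sub_eq_zero]
      refine hν _ ?_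
      rw [map_sub, map_neg, ← GMap.d_f_zero h0, ha', map_sub, Y.dg.d_d, sub_zero, hd2', neg_neg,
        sub_self]
    rw [h1, h2]
  · intro y hy
    have hy' : e 1 y = e 0 y := by
      have h1 := hd2 y
      rw [hy, hz] at h1
      exact (sub_eq_zero.1 h1.symm)
    obtain ⟨b, hb⟩ := hsurj (![![e 0 y, e 1 y, e 2 y], ![e 0 y, e 1 y, e 2 y], ![0, 0, 0]]) (by
      intro i j
      fin_cases i <;> fin_cases j <;> simp [he]
      · exact hP1 (he 1 y)
      · exact hP0 (he 0 y))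
    have q00 : φ 0 0 b = e 0 y := hb 0 0
    have q01 : φ 0 1 b = e 1 y := hb 0 1
    have q02 : φ 0 2 b = e 2 y := hb 0 2
    have q10 : φ 1 0 b = e 0 y := hb 1 0
    have q11 : φ 1 1 b = e 1 y := hb 1 1
    have q12 : φ 1 2 b = e 2 y := hb 1 2
    have q20 : φ 2 0 b = 0 := hb 2 0
    have q21 : φ 2 1 b = 0 := hb 2 1
    obtain ⟨a', ha'⟩ := hker (Y.dg.d b) (by
      intro i j
      fin_cases i <;> fin_cases j
      · exact d00 b
      · exact d01 b
      · change φ 0 2 (Y.dg.d b) = 0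
        rw [d02, q01, q00, hy', sub_self]
      · exact d10 b
      · exact d11 b
      · change φ 1 2 (Y.dg.d b) = 0
        rw [d12, q11, q10, hy', sub_self]
      · change φ 2 0 (Y.dg.d b) = 0
        rw [d20, q10, q00, sub_self]
      · change φ 2 1 (Y.dg.d b) = 0
        rw [d21, q11, q01, sub_self]
      · change φ 2 2 (Y.dg.d b) = 0
        rw [d22, q12, q02, q21, q20, sub_self, sub_zero, add_zero])
    refine ⟨Beil_pr ν h0 (-a') b, ?_, 0, ?_⟩
    · rw [Beil_pr_d, map_neg, map_neg, neg_neg, ha', neg_add_cancel]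
      have h1 : Q.dg.d a' = 0 := by
        refine hν _ ?_
        rw [← GMap.d_f_zero h0, ha', Y.dg.d_d]
      rw [h1]
      rfl
    · rw [map_zero, Beil_q_f, eq_comm, sub_eq_zero]
      refine hinj _ _ fun i => ?_
      fin_cases i
      · exact ((hμ0 _).trans q00).symm
      · exact ((hμ1 _).trans q11).symm
      · refine ((hμ2 _).trans ?_).symm
        rw [q02, q21, add_zero]
        rfl

end core

/-! ### Components -/

section comp

variable {k : Type u} [Field k] {F E : LSp (FExt.triv k)}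

/-- The components of an element of the Čech complex. -/
private noncomputable def Beil_v (V : LP k F.F) :
    (a : Fin 3) → ((V.N0 × V.N1) × V.N01 →ₗ[k] F.F)
  | 0 => { toFun := fun x => x.1.1.1, map_add' := fun _ _ => rfl, map_smul' := fun _ _ => rfl }
  | 1 => { toFun := fun x => x.1.2.1, map_add' := fun _ _ => rfl, map_smul' := fun _ _ => rfl }
  | 2 => { toFun := fun x => x.2.1, map_add' := fun _ _ => rfl, map_smul' := fun _ _ => rfl }

private theorem Beil_v_mem (V : LP k F.F) (a : Fin 3) (x : (V.N0 × V.N1) × V.N01) :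
    Beil_v V a x ∈ V.cp a := by
  fin_cases a
  · exact x.1.1.2
  · exact x.1.2.2
  · exact x.2.2

private noncomputable def Beil_p (V : LP k F.F) (a : Fin 3) :
    (V.N0 × V.N1) × V.N01 →ₗ[k] V.cp a :=
  LinearMap.codRestrict (V.cp a) (Beil_v V a) (Beil_v_mem V a)

private noncomputable def Beil_i (V : LP k F.F) :
    (a : Fin 3) → (V.cp a →ₗ[k] (V.N0 × V.N1) × V.N01)
  | 0 => { toFun := fun u => ((⟨u.1, u.2⟩, 0), 0)
           map_add' := fun u v => by
             refine Prod.ext (Prod.ext rfl ?_) ?_ <;> simp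
           map_smul' := fun c v => by
             refine Prod.ext (Prod.ext rfl ?_) ?_ <;> simp }
  | 1 => { toFun := fun u => ((0, ⟨u.1, u.2⟩), 0)
           map_add' := fun u v => by
             refine Prod.ext (Prod.ext ?_ rfl) ?_ <;> simp
           map_smul' := fun c v => by
             refine Prod.ext (Prod.ext ?_ rfl) ?_ <;> simp }
  | 2 => { toFun := fun u => ((0, 0), ⟨u.1, u.2⟩)
           map_add' := fun u v => by
             refine Prod.ext ?_ rfl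
             simp
           map_smul' := fun c v => by
             refine Prod.ext ?_ rfl
             simp }

private theorem Beil_p_i (V : LP k F.F) (a : Fin 3) (u : V.cp a) :
    Beil_p V a (Beil_i V a u) = u := by
  fin_cases a <;> rfl

private theorem Beil_p_i_ne (V : LP k F.F) {a b : Fin 3} (h : a ≠ b) (u : V.cp b) :
    Beil_p V a (Beil_i V b u) = 0 := by
  fin_cases a <;> fin_cases b <;> first | exact absurd rfl h | rfl

private theorem Beil_sum (V : LP k F.F) (x : (V.N0 × V.N1) × V.N01) :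
    Beil_i V 0 (Beil_p V 0 x) + Beil_i V 1 (Beil_p V 1 x) + Beil_i V 2 (Beil_p V 2 x) = x := by
  obtain ⟨⟨x0, x1⟩, x2⟩ := x
  change (((x0, (0 : V.N1)), (0 : V.N01)) + (((0 : V.N0), x1), (0 : V.N01)) +
    (((0 : V.N0), (0 : V.N1)), x2)) = ((x0, x1), x2)
  simp

end comp

variable {k : Type u} [Field k] {S T : Cosp k} {F E : LSp (FExt.triv k)}
  {l : LAct S.A01 F} {r : RAct T.A01 E} {V : LP k F.F} {N : LP k E.F}

/-- The component of an element of the left Čech complex. -/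
private noncomputable def Beil_cl (hl : l.St V) (a : Fin 3) : (CL hl).M →ₗ[k] V.cp a :=
  Beil_p V a

private noncomputable def Beil_cr (hr : r.St N) (a : Fin 3) : (CR hr).M →ₗ[k] N.cp a :=
  Beil_p N a

private noncomputable def Beil_il (hl : l.St V) (a : Fin 3) : V.cp a →ₗ[k] (CL hl).M :=
  Beil_i V a

private noncomputable def Beil_ir (hr : r.St N) (a : Fin 3) : N.cp a →ₗ[k] (CR hr).M :=
  Beil_i N a

/-- The component of an element of the tensor product. -/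
private noncomputable def Beil_pi (hl : l.St V) (hr : r.St N) (a b : Fin 3) :
    (tb (CL hl) (CR hr)).M →ₗ[k] V.cp a ⊗[k] N.cp b :=
  tlift ((TensorProduct.mk k (V.cp a) (N.cp b)).compl₁₂ (Beil_cl hl a) (Beil_cr hr b))
    (fun m c n => by
      rw [base_r, base_l, map_smul, LinearMap.smul_apply, map_smul])

private theorem Beil_pi_tm (hl : l.St V) (hr : r.St N) (a b : Fin 3) (m : (CL hl).M)
    (n : (CR hr).M) :
    Beil_pi hl hr a b (tm m n) = (Beil_cl hl a m) ⊗ₜ[k] (Beil_cr hr b n) := by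
  unfold Beil_pi
  rw [tlift_tm]
  rfl

/-- The inclusion of a component of the tensor product. -/
private noncomputable def Beil_io (hl : l.St V) (hr : r.St N) (a b : Fin 3) :
    V.cp a ⊗[k] N.cp b →ₗ[k] (tb (CL hl) (CR hr)).M :=
  TensorProduct.lift ((tmB (CL hl) (CR hr)).compl₁₂ (Beil_il hl a) (Beil_ir hr b))

private theorem Beil_io_tm (hl : l.St V) (hr : r.St N) (a b : Fin 3) (u : V.cp a)
    (v : N.cp b) : Beil_io hl hr a b (u ⊗ₜ[k] v) = tm (Beil_il hl a u) (Beil_ir hr b v) := rfl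

private theorem Beil_pi_io (hl : l.St V) (hr : r.St N) (a b : Fin 3)
    (z : V.cp a ⊗[k] N.cp b) : Beil_pi hl hr a b (Beil_io hl hr a b z) = z := by
  induction z using TensorProduct.induction_on with
  | zero => rw [map_zero, map_zero]
  | add x y hx hy => rw [map_add, map_add, hx, hy]
  | tmul u v =>
    rw [Beil_io_tm, Beil_pi_tm]
    congr 1
    · exact Beil_p_i V a u
    · exact Beil_p_i N b v

private theorem Beil_pi_io_ne (hl : l.St V) (hr : r.St N) {a b c d : Fin 3}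
    (h : a ≠ c ∨ b ≠ d) (z : V.cp c ⊗[k] N.cp d) :
    Beil_pi hl hr a b (Beil_io hl hr c d z) = 0 := by
  induction z using TensorProduct.induction_on with
  | zero => rw [map_zero, map_zero]
  | add x y hx hy => rw [map_add, map_add, hx, hy, add_zero]
  | tmul u v =>
    rw [Beil_io_tm, Beil_pi_tm]
    rcases h with h | h
    · have h1 : Beil_cl hl a (Beil_il hl c u) = 0 := Beil_p_i_ne V h u
      rw [h1, TensorProduct.zero_tmul]
    · have h1 : Beil_cr hr b (Beil_ir hr d v) = 0 := Beil_p_i_ne N h v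
      rw [h1, TensorProduct.tmul_zero]

private theorem Beil_pi_sum (hl : l.St V) (hr : r.St N)
    (z : ∀ a b : Fin 3, V.cp a ⊗[k] N.cp b) (a b : Fin 3) :
    Beil_pi hl hr a b (∑ c, ∑ d, Beil_io hl hr c d (z c d)) = z a b := by
  rw [map_sum, Finset.sum_eq_single a]
  · rw [map_sum, Finset.sum_eq_single b]
    · exact Beil_pi_io hl hr a b _
    · intro d _ hd
      exact Beil_pi_io_ne hl hr (Or.inr (Ne.symm hd)) _
    · intro h
      exact absurd (Finset.mem_univ b) h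
  · intro c _ hc
    rw [map_sum]
    exact Finset.sum_eq_zero fun d _ => Beil_pi_io_ne hl hr (Or.inl (Ne.symm hc)) _
  · intro h
    exact absurd (Finset.mem_univ a) h

private theorem Beil_sum_pi (hl : l.St V) (hr : r.St N) (x : (tb (CL hl) (CR hr)).M) :
    ∑ c, ∑ d, Beil_io hl hr c d (Beil_pi hl hr c d x) = x := by
  refine tb_ind (P := fun x => ∑ c, ∑ d, Beil_io hl hr c d (Beil_pi hl hr c d x) = x)
    ?_ ?_ ?_ x
  · simp
  · intro x y hx hy
    simp only [map_add, Finset.sum_add_distrib]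
    rw [hx, hy]
  · intro m n
    have h1 : ∀ c d, Beil_io hl hr c d (Beil_pi hl hr c d (tm m n)) =
        tm (Beil_il hl c (Beil_cl hl c m)) (Beil_ir hr d (Beil_cr hr d n)) := by
      intro c d
      rw [Beil_pi_tm, Beil_io_tm]
    have hm : Beil_il hl 0 (Beil_cl hl 0 m) + Beil_il hl 1 (Beil_cl hl 1 m) +
      Beil_il hl 2 (Beil_cl hl 2 m) = m := Beil_sum V m
    have hn : Beil_ir hr 0 (Beil_cr hr 0 n) + Beil_ir hr 1 (Beil_cr hr 1 n) +
      Beil_ir hr 2 (Beil_cr hr 2 n) = n := Beil_sum N n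
    simp only [h1, Fin.sum_univ_three]
    conv_rhs => rw [← hm, ← hn]
    simp only [tm_add_left, tm_add_right]
    abel

private theorem Beil_pi_inj (hl : l.St V) (hr : r.St N) {x : (tb (CL hl) (CR hr)).M}
    (h : ∀ a b, Beil_pi hl hr a b x = 0) : x = 0 := by
  rw [← Beil_sum_pi hl hr x]
  simp [h]

/-! ### The map `ν` -/

/-- The multiplication by a rational function. -/
private noncomputable def Beil_hom {S T : Cosp k} {G : GBi k S.A01 T.A01} {N N' : LP k G.E}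
    (h : LP.Stable G N) (h' : LP.Stable G N') (c : RatFunc k) (h0 : ∀ x ∈ N.N0, c • x ∈ N'.N0)
    (h1 : ∀ x ∈ N.N1, c • x ∈ N'.N1) (h01 : ∀ x ∈ N.N01, c • x ∈ N'.N01) :
    Tri.Hom (LP.tri h) (LP.tri h') where
  f0 :=
    { toFun := fun v => ⟨c • v.1, h0 v.1 v.2⟩
      map_add' := fun v w => Subtype.ext (smul_add c v.1 w.1)
      map_smul' := fun a v => Subtype.ext (smul_comm c a v.1) }
  f1 :=
    { toFun := fun v => ⟨c • v.1, h1 v.1 v.2⟩
      map_add' := fun v w => Subtype.ext (smul_add c v.1 w.1)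
      map_smul' := fun a v => Subtype.ext (smul_comm c a v.1) }
  f01 :=
    { toFun := fun v => ⟨c • v.1, h01 v.1 v.2⟩
      map_add' := fun v w => Subtype.ext (smul_add c v.1 w.1)
      map_smul' := fun a v => Subtype.ext (smul_comm c a v.1) }
  l0 := fun _ m => Subtype.ext (((G.l _).map_smul c m.1).symm)
  r0 := fun _ m => Subtype.ext (((G.r _).map_smul c m.1).symm)
  l1 := fun _ m => Subtype.ext (((G.l _).map_smul c m.1).symm)
  r1 := fun _ m => Subtype.ext (((G.r _).map_smul c m.1).symm)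
  l01 := fun _ m => Subtype.ext (((G.l _).map_smul c m.1).symm)
  r01 := fun _ m => Subtype.ext (((G.r _).map_smul c m.1).symm)
  ρ0 := fun _ => rfl
  ρ1 := fun _ => rfl

private theorem Beil_tw {E : Type u} [AddCommGroup E] [Module (RatFunc k) E] [Module k E]
    [IsScalarTower k (RatFunc k) E] (V : LP k E) (a : Fin 3) {v : E}
    (hv : v ∈ (V.tw (-1)).cp a) :
    (1 : RatFunc k) • v ∈ V.cp a ∧ (X : RatFunc k) • v ∈ V.cp a := by
  rw [cp_tw, mem_mn] at hv
  rw [one_smul]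
  exact hv

/-- The multiplication by `c` on the left Čech complexes. -/
private noncomputable def Beil_gl (hl : l.St V) (c : RatFunc k)
    (hc : ∀ a v, v ∈ (V.tw (-1)).cp a → c • v ∈ V.cp a) :
    GMap 0 (CL (hl.tw (-1))) (CL hl) :=
  GMap.res (DHom.id S.cech) (DHom.unit (ptC k).cech)
    (Beil_hom (stable_lG (hl.tw (-1))) (stable_lG hl) c (hc 0) (hc 1) (hc 2)).gmap

private noncomputable def Beil_gr (hr : r.St N) (c : RatFunc k)
    (hc : ∀ a v, v ∈ (N.tw (-1)).cp a → c • v ∈ N.cp a) :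
    GMap 0 (CR (hr.tw (-1))) (CR hr) :=
  GMap.res (DHom.unit (ptC k).cech) (DHom.id T.cech)
    (Beil_hom (stable_rG (hr.tw (-1))) (stable_rG hr) c (hc 0) (hc 1) (hc 2)).gmap

private theorem Beil_gl_dd (hl : l.St V) (c : RatFunc k)
    (hc : ∀ a v, v ∈ (V.tw (-1)).cp a → c • v ∈ V.cp a) : (Beil_gl hl c hc).dd = 0 :=
  (Beil_hom (stable_lG (hl.tw (-1))) (stable_lG hl) c (hc 0) (hc 1) (hc 2)).gmap_dd

private theorem Beil_gr_dd (hr : r.St N) (c : RatFunc k)
    (hc : ∀ a v, v ∈ (N.tw (-1)).cp a → c • v ∈ N.cp a) : (Beil_gr hr c hc).dd = 0 :=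
  (Beil_hom (stable_rG (hr.tw (-1))) (stable_rG hr) c (hc 0) (hc 1) (hc 2)).gmap_dd

private theorem Beil_gl_v (hl : l.St V) (c : RatFunc k)
    (hc : ∀ a v, v ∈ (V.tw (-1)).cp a → c • v ∈ V.cp a) (a : Fin 3)
    (m : (CL (hl.tw (-1))).M) :
    (Beil_cl hl a ((Beil_gl hl c hc).f m)).1 = c • (Beil_cl (hl.tw (-1)) a m).1 := by
  fin_cases a <;> rfl

private theorem Beil_gr_v (hr : r.St N) (c : RatFunc k)
    (hc : ∀ a v, v ∈ (N.tw (-1)).cp a → c • v ∈ N.cp a) (a : Fin 3)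
    (m : (CR (hr.tw (-1))).M) :
    (Beil_cr hr a ((Beil_gr hr c hc).f m)).1 = c • (Beil_cr (hr.tw (-1)) a m).1 := by
  fin_cases a <;> rfl

/-- The map `v ⊗ f ↦ v ⊗ t f - t v ⊗ f`. -/
private noncomputable def Beil_nu (hl : l.St V) (hr : r.St N) :
    GMap 0 (tb (CL (hl.tw (-1))) (CR (hr.tw (-1)))) (tb (CL hl) (CR hr)) :=
  ((Beil_gl hl 1 (fun a _ hv => (Beil_tw V a hv).1)).tbR (CR (hr.tw (-1)))).comp
      ((Beil_gr hr X (fun a _ hv => (Beil_tw N a hv).2)).tbL (CL hl)) (add_zero 0) -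
    ((Beil_gl hl X (fun a _ hv => (Beil_tw V a hv).2)).tbR (CR (hr.tw (-1)))).comp
      ((Beil_gr hr 1 (fun a _ hv => (Beil_tw N a hv).1)).tbL (CL hl)) (add_zero 0)

private theorem Beil_nu_dd (hl : l.St V) (hr : r.St N) : (Beil_nu hl hr).dd = 0 := by
  refine LinearMap.ext fun x => ?_
  unfold Beil_nu
  rw [GMap.dd_sub, GMap.dd_comp, GMap.dd_comp]
  have h1 : ∀ (c : RatFunc k) (hc : ∀ a v, v ∈ (V.tw (-1)).cp a → c • v ∈ V.cp a),
      ((Beil_gl hl c hc).tbR (CR (hr.tw (-1)))).dd = 0 := fun c hc =>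
    (MP_6e5bed_ag_NC.tbR S.cech (CR (hr.tw (-1)))).closed (Beil_gl_dd hl c hc)
  have h2 : ∀ (c : RatFunc k) (hc : ∀ a v, v ∈ (N.tw (-1)).cp a → c • v ∈ N.cp a),
      ((Beil_gr hr c hc).tbL (CL hl)).dd = 0 := fun c hc =>
    (MP_6e5bed_ag_NC.tbL (CL hl) T.cech).closed (Beil_gr_dd hr c hc)
  rw [h1, h1, h2, h2]
  simp

private theorem Beil_nu_tm (hl : l.St V) (hr : r.St N) (m : (CL (hl.tw (-1))).M)
    (n : (CR (hr.tw (-1))).M) : (Beil_nu hl hr).f (tm m n) =
      tm ((Beil_gl hl 1 (fun a _ hv => (Beil_tw V a hv).1)).f m)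
        ((Beil_gr hr X (fun a _ hv => (Beil_tw N a hv).2)).f n) -
      tm ((Beil_gl hl X (fun a _ hv => (Beil_tw V a hv).2)).f m)
        ((Beil_gr hr 1 (fun a _ hv => (Beil_tw N a hv).1)).f n) := by
  unfold Beil_nu
  rw [GMap.sub_f, GMap.comp_f, GMap.comp_f, GMap.tbR_tm, GMap.tbR_tm, GMap.tbL_tm, GMap.tbL_tm,
    Dg.sp_zero, Dg.sp_zero]

private noncomputable def Beil_e {E : Type u} [AddCommGroup E] [Module (RatFunc k) E]
    [Module k E] [IsScalarTower k (RatFunc k) E] (V : LP k E) (a : Fin 3) :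
    (V.tw (-1)).cp a ≃ₗ[k] mn (V.cp a) := LinearEquiv.ofEq _ _ (cp_tw V a)

private theorem Beil_pi_nu (hl : l.St V) (hr : r.St N) (a b : Fin 3)
    (w : (tb (CL (hl.tw (-1))) (CR (hr.tw (-1)))).M) :
    Beil_pi hl hr a b ((Beil_nu hl hr).f w) = nuT (V.cp a) (N.cp b)
      (TensorProduct.congr (Beil_e V a) (Beil_e N b)
        (Beil_pi (hl.tw (-1)) (hr.tw (-1)) a b w)) := by
  refine tb_ind (P := fun w => Beil_pi hl hr a b ((Beil_nu hl hr).f w) =
    nuT (V.cp a) (N.cp b) (TensorProduct.congr (Beil_e V a) (Beil_e N b)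
        (Beil_pi (hl.tw (-1)) (hr.tw (-1)) a b w))) ?_ ?_ ?_ w
  · simp only [map_zero]
  · intro x y hx hy
    simp only [map_add]
    rw [hx, hy]
  · intro m n
    rw [Beil_nu_tm, map_sub, Beil_pi_tm, Beil_pi_tm, Beil_pi_tm, TensorProduct.congr_tmul]
    unfold nuT
    rw [LinearMap.sub_apply, TensorProduct.map_tmul, TensorProduct.map_tmul]
    congr 2
    · exact Subtype.ext ((Beil_gl_v hl 1 _ a m).trans (one_smul _ _))
    · exact Subtype.ext (Beil_gr_v hr X _ b n)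
    · exact Subtype.ext (Beil_gl_v hl X _ a m)
    · exact Subtype.ext ((Beil_gr_v hr 1 _ b n).trans (one_smul _ _))

private theorem Beil_nu_inj (hl : l.St V) (hr : r.St N)
    (w : (tb (CL (hl.tw (-1))) (CR (hr.tw (-1)))).M) (h : (Beil_nu hl hr).f w = 0) :
    w = 0 := by
  refine Beil_pi_inj (hl.tw (-1)) (hr.tw (-1)) fun a b => ?_
  have h1 := Beil_pi_nu hl hr a b w
  rw [h, map_zero] at h1
  have h2 := kerT_inj V N a b (h1.symm.trans (map_zero _).symm)
  exact (LinearEquiv.map_eq_zero_iff _).1 h2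

private theorem Beil_nu_ex (hl : l.St V) (hr : r.St N) (x : (tb (CL hl) (CR hr)).M)
    (h : ∀ a b, piT (V.cp a) (N.cp b) (Beil_pi hl hr a b x) = 0) :
    ∃ w, (Beil_nu hl hr).f w = x := by
  choose z hz using fun a b => kerT_exact V N a b _ (h a b)
  refine ⟨∑ c, ∑ d, Beil_io (hl.tw (-1)) (hr.tw (-1)) c d
    ((TensorProduct.congr (Beil_e V c) (Beil_e N d)).symm (z c d)), ?_⟩
  rw [← sub_eq_zero]
  refine Beil_pi_inj hl hr fun a b => ?_
  rw [map_sub, Beil_pi_nu, Beil_pi_sum (hl.tw (-1)) (hr.tw (-1)) (fun c d =>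
    (TensorProduct.congr (Beil_e V c) (Beil_e N d)).symm (z c d)), LinearEquiv.apply_symm_apply,
    hz, sub_self]

/-! ### The cup product -/

/-- The components of the tensor product of lattice pairs. -/
private noncomputable def Beil_P (V : LP k F.F) (N : LP k E.F) :
    Fin 3 → Submodule k (F.F ⊗[(FExt.triv k).L] E.F) := (V.tens N).cp

/-- The component in the tensor product over `k(t)`. -/
private noncomputable def Beil_phi (hl : l.St V) (hr : r.St N) (a b : Fin 3) :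
    (tb (CL hl) (CR hr)).M →ₗ[k] F.F ⊗[(FExt.triv k).L] E.F :=
  (piT (V.cp a) (N.cp b)).comp (Beil_pi hl hr a b)

private noncomputable def Beil_vl (hl : l.St V) (a : Fin 3) : (CL hl).M →ₗ[k] F.F := Beil_v V a

private noncomputable def Beil_vr (hr : r.St N) (a : Fin 3) : (CR hr).M →ₗ[k] E.F := Beil_v N a

private theorem Beil_phi_tm (hl : l.St V) (hr : r.St N) (a b : Fin 3) (m : (CL hl).M)
    (n : (CR hr).M) : Beil_phi hl hr a b (tm m n) =
      (Beil_vl hl a m) ⊗ₜ[(FExt.triv k).L] (Beil_vr hr b n) := by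
  unfold Beil_phi
  rw [LinearMap.comp_apply, Beil_pi_tm, piT_tmul]
  rfl

private theorem Beil_phi_mem (hl : l.St V) (hr : r.St N) (a b : Fin 3)
    (x : (tb (CL hl) (CR hr)).M) :
    Beil_phi hl hr a b x ∈ Beil_P V N (if a = b then a else 2) :=
  (kerT_range V N a b _).2 ⟨_, rfl⟩

private theorem Beil_phi_surj (hl : l.St V) (hr : r.St N)
    (y : Fin 3 → Fin 3 → F.F ⊗[(FExt.triv k).L] E.F)
    (hy : ∀ a b, y a b ∈ Beil_P V N (if a = b then a else 2)) :
    ∃ x, ∀ a b, Beil_phi hl hr a b x = y a b := by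
  choose z hz using fun a b => (kerT_range V N a b _).1 (hy a b)
  refine ⟨∑ c, ∑ d, Beil_io hl hr c d (z c d), fun a b => ?_⟩
  unfold Beil_phi
  rw [LinearMap.comp_apply, Beil_pi_sum hl hr z]
  exact hz a b

private theorem Beil_phi_nu (hl : l.St V) (hr : r.St N)
    (w : (tb (CL (hl.tw (-1))) (CR (hr.tw (-1)))).M) (a b : Fin 3) :
    Beil_phi hl hr a b ((Beil_nu hl hr).f w) = 0 := by
  unfold Beil_phi
  rw [LinearMap.comp_apply, Beil_pi_nu, kerT_zero]

/-- the differential and the sign in the components -/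
private theorem Beil_vl_d (hl : l.St V) (m : (CL hl).M) :
    Beil_vl hl 0 ((CL hl).dg.d m) = 0 ∧ Beil_vl hl 1 ((CL hl).dg.d m) = 0 ∧
      Beil_vl hl 2 ((CL hl).dg.d m) = Beil_vl hl 1 m - Beil_vl hl 0 m := by
  obtain ⟨v, w⟩ := m
  refine ⟨rfl, rfl, rfl⟩

private theorem Beil_vr_d (hr : r.St N) (m : (CR hr).M) :
    Beil_vr hr 0 ((CR hr).dg.d m) = 0 ∧ Beil_vr hr 1 ((CR hr).dg.d m) = 0 ∧
      Beil_vr hr 2 ((CR hr).dg.d m) = Beil_vr hr 1 m - Beil_vr hr 0 m := by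
  obtain ⟨v, w⟩ := m
  refine ⟨rfl, rfl, rfl⟩

private theorem Beil_vl_s (hl : l.St V) (m : (CL hl).M) :
    Beil_vl hl 0 ((CL hl).dg.s m) = Beil_vl hl 0 m ∧
      Beil_vl hl 1 ((CL hl).dg.s m) = Beil_vl hl 1 m ∧
      Beil_vl hl 2 ((CL hl).dg.s m) = - Beil_vl hl 2 m := by
  obtain ⟨v, w⟩ := m
  have h : (CL hl).dg.s (v, w) = (v, -w) := Dg.two_s _ v w
  rw [h]
  exact ⟨rfl, rfl, rfl⟩

private theorem Beil_phi_d (hl : l.St V) (hr : r.St N) (a b : Fin 3) (m : (CL hl).M)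
    (n : (CR hr).M) : Beil_phi hl hr a b ((tb (CL hl) (CR hr)).dg.d (tm m n)) =
      (Beil_vl hl a ((CL hl).dg.d m)) ⊗ₜ[(FExt.triv k).L] (Beil_vr hr b n) +
      (Beil_vl hl a ((CL hl).dg.s m)) ⊗ₜ[(FExt.triv k).L] (Beil_vr hr b ((CR hr).dg.d n)) := by
  rw [tb_d, map_add, Beil_phi_tm, Beil_phi_tm]

private theorem Beil_d00 (hl : l.St V) (hr : r.St N) (a b : Fin 3) (ha : a ≠ 2) (hb : b ≠ 2)
    (x : (tb (CL hl) (CR hr)).M) :
    Beil_phi hl hr a b ((tb (CL hl) (CR hr)).dg.d x) = 0 := by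
  refine tb_ind (P := fun x => Beil_phi hl hr a b ((tb (CL hl) (CR hr)).dg.d x) = 0)
    (by simp only [map_zero]) (fun x y hx hy => by rw [map_add, map_add, hx, hy, add_zero])
    (fun m n => ?_) x
  rw [Beil_phi_d]
  obtain ⟨h0, h1, h2⟩ := Beil_vl_d hl m
  obtain ⟨h0', h1', h2'⟩ := Beil_vr_d hr n
  have h3 : Beil_vl hl a ((CL hl).dg.d m) = 0 := by
    fin_cases a
    · exact h0
    · exact h1
    · exact absurd rfl ha
  have h4 : Beil_vr hr b ((CR hr).dg.d n) = 0 := by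
    fin_cases b
    · exact h0'
    · exact h1'
    · exact absurd rfl hb
  rw [h3, h4, TensorProduct.zero_tmul, TensorProduct.tmul_zero, add_zero]

private theorem Beil_d2 (hl : l.St V) (hr : r.St N) (b : Fin 3) (hb : b ≠ 2)
    (x : (tb (CL hl) (CR hr)).M) :
    Beil_phi hl hr 2 b ((tb (CL hl) (CR hr)).dg.d x) =
      Beil_phi hl hr 1 b x - Beil_phi hl hr 0 b x := by
  refine tb_ind (P := fun x => Beil_phi hl hr 2 b ((tb (CL hl) (CR hr)).dg.d x) =
      Beil_phi hl hr 1 b x - Beil_phi hl hr 0 b x)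
    (by simp only [map_zero, sub_zero])
    (fun x y hx hy => by simp only [map_add, hx, hy]; abel) (fun m n => ?_) x
  rw [Beil_phi_d, Beil_phi_tm, Beil_phi_tm]
  obtain ⟨h0', h1', h2'⟩ := Beil_vr_d hr n
  have h4 : Beil_vr hr b ((CR hr).dg.d n) = 0 := by
    fin_cases b
    · exact h0'
    · exact h1'
    · exact absurd rfl hb
  rw [(Beil_vl_d hl m).2.2, h4, TensorProduct.tmul_zero, add_zero, TensorProduct.sub_tmul]

private theorem Beil_d2' (hl : l.St V) (hr : r.St N) (a : Fin 3) (ha : a ≠ 2)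
    (x : (tb (CL hl) (CR hr)).M) :
    Beil_phi hl hr a 2 ((tb (CL hl) (CR hr)).dg.d x) =
      Beil_phi hl hr a 1 x - Beil_phi hl hr a 0 x := by
  refine tb_ind (P := fun x => Beil_phi hl hr a 2 ((tb (CL hl) (CR hr)).dg.d x) =
      Beil_phi hl hr a 1 x - Beil_phi hl hr a 0 x)
    (by simp only [map_zero, sub_zero])
    (fun x y hx hy => by simp only [map_add, hx, hy]; abel) (fun m n => ?_) x
  rw [Beil_phi_d, Beil_phi_tm, Beil_phi_tm]
  obtain ⟨h0, h1, h2⟩ := Beil_vl_d hl m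
  obtain ⟨s0, s1, s2⟩ := Beil_vl_s hl m
  have h3 : Beil_vl hl a ((CL hl).dg.d m) = 0 := by
    fin_cases a
    · exact h0
    · exact h1
    · exact absurd rfl ha
  have h4 : Beil_vl hl a ((CL hl).dg.s m) = Beil_vl hl a m := by
    fin_cases a
    · exact s0
    · exact s1
    · exact absurd rfl ha
  rw [h3, h4, (Beil_vr_d hr n).2.2, TensorProduct.zero_tmul, zero_add, TensorProduct.tmul_sub]

private theorem Beil_d22 (hl : l.St V) (hr : r.St N) (x : (tb (CL hl) (CR hr)).M) :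
    Beil_phi hl hr 2 2 ((tb (CL hl) (CR hr)).dg.d x) =
      Beil_phi hl hr 1 2 x - Beil_phi hl hr 0 2 x - Beil_phi hl hr 2 1 x +
        Beil_phi hl hr 2 0 x := by
  refine tb_ind (P := fun x => Beil_phi hl hr 2 2 ((tb (CL hl) (CR hr)).dg.d x) =
      Beil_phi hl hr 1 2 x - Beil_phi hl hr 0 2 x - Beil_phi hl hr 2 1 x +
        Beil_phi hl hr 2 0 x)
    (by simp only [map_zero, sub_zero, add_zero])
    (fun x y hx hy => by simp only [map_add, hx, hy]; abel) (fun m n => ?_) x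
  rw [Beil_phi_d, Beil_phi_tm, Beil_phi_tm, Beil_phi_tm, Beil_phi_tm, (Beil_vl_d hl m).2.2,
    (Beil_vr_d hr n).2.2, (Beil_vl_s hl m).2.2, TensorProduct.sub_tmul, TensorProduct.tmul_sub,
    TensorProduct.neg_tmul, TensorProduct.neg_tmul]
  abel

/-- the components of an element of the Čech complex of the tensor product -/
private noncomputable def Beil_vt (hl : l.St V) (hr : r.St N) (a : Fin 3) :
    (LP.tri (stable_tens hl hr)).bim.M →ₗ[k] F.F ⊗[(FExt.triv k).L] E.F :=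
  Beil_v (F := F.tens E) (V.tens N) a

private theorem Beil_vt_mem (hl : l.St V) (hr : r.St N) (a : Fin 3)
    (x : (LP.tri (stable_tens hl hr)).bim.M) : Beil_vt hl hr a x ∈ Beil_P V N a :=
  Beil_v_mem (F := F.tens E) (V.tens N) a x

private theorem Beil_vt_inj (hl : l.St V) (hr : r.St N)
    (x y : (LP.tri (stable_tens hl hr)).bim.M)
    (h : ∀ a, Beil_vt hl hr a x = Beil_vt hl hr a y) : x = y := by
  obtain ⟨⟨x0, x1⟩, x2⟩ := x
  obtain ⟨⟨y0, y1⟩, y2⟩ := y
  have h0 : x0 = y0 := Subtype.ext (h 0)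
  have h1 : x1 = y1 := Subtype.ext (h 1)
  have h2 : x2 = y2 := Subtype.ext (h 2)
  rw [h0, h1, h2]

private theorem Beil_vt_d (hl : l.St V) (hr : r.St N)
    (x : (LP.tri (stable_tens hl hr)).bim.M) :
    Beil_vt hl hr 0 ((LP.tri (stable_tens hl hr)).bim.dg.d x) = 0 ∧
    Beil_vt hl hr 1 ((LP.tri (stable_tens hl hr)).bim.dg.d x) = 0 ∧
    Beil_vt hl hr 2 ((LP.tri (stable_tens hl hr)).bim.dg.d x) =
      Beil_vt hl hr 1 x - Beil_vt hl hr 0 x := by
  obtain ⟨v, w⟩ := x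
  exact ⟨rfl, rfl, rfl⟩

/-- The cup product, as a linear map. -/
private noncomputable def Beil_muf (hl : l.St V) (hr : r.St N) :
    (tb (CL hl) (CR hr)).M →ₗ[k] (LP.tri (stable_tens hl hr)).bim.M where
  toFun := fun x => ((⟨Beil_phi hl hr 0 0 x, Beil_phi_mem hl hr 0 0 x⟩,
    ⟨Beil_phi hl hr 1 1 x, Beil_phi_mem hl hr 1 1 x⟩),
    ⟨Beil_phi hl hr 0 2 x + Beil_phi hl hr 2 1 x,
      (V.tens N).N01.add_mem (Beil_phi_mem hl hr 0 2 x) (Beil_phi_mem hl hr 2 1 x)⟩)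
  map_add' := fun x y => by
    refine Beil_vt_inj hl hr _ _ fun a => ?_
    refine Eq.trans ?_ (map_add (Beil_vt hl hr a) _ _).symm
    fin_cases a
    · exact map_add (Beil_phi hl hr 0 0) x y
    · exact map_add (Beil_phi hl hr 1 1) x y
    · exact map_add (Beil_phi hl hr 0 2 + Beil_phi hl hr 2 1) x y
  map_smul' := fun c x => by
    refine Beil_vt_inj hl hr _ _ fun a => ?_
    refine Eq.trans ?_ (map_smul (Beil_vt hl hr a) c _).symm
    fin_cases a
    · exact map_smul (Beil_phi hl hr 0 0) c x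
    · exact map_smul (Beil_phi hl hr 1 1) c x
    · exact map_smul (Beil_phi hl hr 0 2 + Beil_phi hl hr 2 1) c x

private theorem Beil_muf_0 (hl : l.St V) (hr : r.St N) (x : (tb (CL hl) (CR hr)).M) :
    Beil_vt hl hr 0 (Beil_muf hl hr x) = Beil_phi hl hr 0 0 x := rfl

private theorem Beil_muf_1 (hl : l.St V) (hr : r.St N) (x : (tb (CL hl) (CR hr)).M) :
    Beil_vt hl hr 1 (Beil_muf hl hr x) = Beil_phi hl hr 1 1 x := rfl

private theorem Beil_muf_2 (hl : l.St V) (hr : r.St N) (x : (tb (CL hl) (CR hr)).M) :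
    Beil_vt hl hr 2 (Beil_muf hl hr x) = Beil_phi hl hr 0 2 x + Beil_phi hl hr 2 1 x := rfl

private theorem Beil_vl_l (hl : l.St V) (a : (S.A0 × S.A1) × S.A01) (m : (CL hl).M) :
    Beil_vl hl 0 ((CL hl).l a m) = l.f (S.r0 a.1.1) (Beil_vl hl 0 m) ∧
    Beil_vl hl 1 ((CL hl).l a m) = l.f (S.r1 a.1.2) (Beil_vl hl 1 m) ∧
    Beil_vl hl 2 ((CL hl).l a m) =
      l.f (S.r0 a.1.1) (Beil_vl hl 2 m) + l.f a.2 (Beil_vl hl 1 m) := ⟨rfl, rfl, rfl⟩

private theorem Beil_vr_r (hr : r.St N) (b : (T.A0 × T.A1) × T.A01) (n : (CR hr).M) :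
    Beil_vr hr 0 ((CR hr).r b n) = r.f (T.r0 b.1.1) (Beil_vr hr 0 n) ∧
    Beil_vr hr 1 ((CR hr).r b n) = r.f (T.r1 b.1.2) (Beil_vr hr 1 n) ∧
    Beil_vr hr 2 ((CR hr).r b n) =
      r.f b.2 (Beil_vr hr 0 n) + r.f (T.r1 b.1.2) (Beil_vr hr 2 n) := ⟨rfl, rfl, rfl⟩

private theorem Beil_vt_l (hl : l.St V) (hr : r.St N) (a : (S.A0 × S.A1) × S.A01)
    (z : (LP.tri (stable_tens hl hr)).bim.M) :
    Beil_vt hl hr 0 ((LP.tri (stable_tens hl hr)).bim.l a z) =
      LinearMap.rTensor E.F (l.f (S.r0 a.1.1)) (Beil_vt hl hr 0 z) ∧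
    Beil_vt hl hr 1 ((LP.tri (stable_tens hl hr)).bim.l a z) =
      LinearMap.rTensor E.F (l.f (S.r1 a.1.2)) (Beil_vt hl hr 1 z) ∧
    Beil_vt hl hr 2 ((LP.tri (stable_tens hl hr)).bim.l a z) =
      LinearMap.rTensor E.F (l.f (S.r0 a.1.1)) (Beil_vt hl hr 2 z) +
        LinearMap.rTensor E.F (l.f a.2) (Beil_vt hl hr 1 z) := ⟨rfl, rfl, rfl⟩

private theorem Beil_vt_r (hl : l.St V) (hr : r.St N) (b : (T.A0 × T.A1) × T.A01)
    (z : (LP.tri (stable_tens hl hr)).bim.M) :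
    Beil_vt hl hr 0 ((LP.tri (stable_tens hl hr)).bim.r b z) =
      LinearMap.lTensor F.F (r.f (T.r0 b.1.1)) (Beil_vt hl hr 0 z) ∧
    Beil_vt hl hr 1 ((LP.tri (stable_tens hl hr)).bim.r b z) =
      LinearMap.lTensor F.F (r.f (T.r1 b.1.2)) (Beil_vt hl hr 1 z) ∧
    Beil_vt hl hr 2 ((LP.tri (stable_tens hl hr)).bim.r b z) =
      LinearMap.lTensor F.F (r.f b.2) (Beil_vt hl hr 0 z) +
        LinearMap.lTensor F.F (r.f (T.r1 b.1.2)) (Beil_vt hl hr 2 z) := ⟨rfl, rfl, rfl⟩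

/-- The cup product. -/
private noncomputable def Beil_mu (hl : l.St V) (hr : r.St N) :
    GMap 0 (tb (CL hl) (CR hr)) (LP.tri (stable_tens hl hr)).bim where
  f := Beil_muf hl hr
  deg := fun {i x} hx => by
    refine tb_degMap _ (fun {i j v w} hv hw => ?_) hx
    rw [add_zero]
    have hb := Dg.two_bil (LP.tri (stable_lG hl)).δ (LP.tri (stable_rG hr)).δ
      (LP.tri (stable_tens hl hr)).δ ((tmB (CL hl) (CR hr)).compr₂ (Beil_muf hl hr))
      ?_ ?_ ?_ ?_ hv hw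
    · exact hb
    · intro v v'
      refine Subtype.ext ?_
      refine (Beil_muf_2 hl hr (tm (M := CL hl) (N := CR hr) (v, 0) (v', 0))).trans ?_
      rw [Beil_phi_tm, Beil_phi_tm]
      have h1 : Beil_vl hl 2 (v, 0) = 0 := rfl
      have h2 : Beil_vr hr 2 (v', 0) = 0 := rfl
      rw [h1, h2, TensorProduct.tmul_zero, TensorProduct.zero_tmul, add_zero]
      rfl
    · intro v w'
      have h1 : Beil_vr hr 0 (0, w') = 0 := rfl
      have h2 : Beil_vr hr 1 (0, w') = 0 := rfl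
      refine Prod.ext (Subtype.ext ?_) (Subtype.ext ?_)
      · refine (Beil_muf_0 hl hr (tm (M := CL hl) (N := CR hr) (v, 0) (0, w'))).trans ?_
        rw [Beil_phi_tm, h1, TensorProduct.tmul_zero]
        rfl
      · refine (Beil_muf_1 hl hr (tm (M := CL hl) (N := CR hr) (v, 0) (0, w'))).trans ?_
        rw [Beil_phi_tm, h2, TensorProduct.tmul_zero]
        rfl
    · intro w v'
      have h1 : Beil_vl hl 0 (0, w) = 0 := rfl
      have h2 : Beil_vl hl 1 (0, w) = 0 := rfl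
      refine Prod.ext (Subtype.ext ?_) (Subtype.ext ?_)
      · refine (Beil_muf_0 hl hr (tm (M := CL hl) (N := CR hr) (0, w) (v', 0))).trans ?_
        rw [Beil_phi_tm, h1, TensorProduct.zero_tmul]
        rfl
      · refine (Beil_muf_1 hl hr (tm (M := CL hl) (N := CR hr) (0, w) (v', 0))).trans ?_
        rw [Beil_phi_tm, h2, TensorProduct.zero_tmul]
        rfl
    · intro w w'
      have h1 : Beil_vl hl 0 (0, w) = 0 := rfl
      have h2 : Beil_vl hl 1 (0, w) = 0 := rfl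
      have h3 : Beil_vr hr 0 (0, w') = 0 := rfl
      have h4 : Beil_vr hr 1 (0, w') = 0 := rfl
      refine Beil_vt_inj hl hr _ _ fun a => ?_
      refine Eq.trans ?_ (map_zero (Beil_vt hl hr a)).symm
      fin_cases a
      · refine (Beil_muf_0 hl hr (tm (M := CL hl) (N := CR hr) (0, w) (0, w'))).trans ?_
        rw [Beil_phi_tm, h1, TensorProduct.zero_tmul]
      · refine (Beil_muf_1 hl hr (tm (M := CL hl) (N := CR hr) (0, w) (0, w'))).trans ?_
        rw [Beil_phi_tm, h2, TensorProduct.zero_tmul]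
      · refine (Beil_muf_2 hl hr (tm (M := CL hl) (N := CR hr) (0, w) (0, w'))).trans ?_
        rw [Beil_phi_tm, Beil_phi_tm, h1, h4, TensorProduct.zero_tmul,
          TensorProduct.tmul_zero, add_zero]
  map_l := fun a x => by
    rw [Dg.sp_zero]
    refine tb_ind (P := fun x => Beil_muf hl hr ((tb (CL hl) (CR hr)).l a x) =
      (LP.tri (stable_tens hl hr)).bim.l a (Beil_muf hl hr x)) ?_ ?_ ?_ x
    · simp only [map_zero]
    · intro x y hx hy
      rw [map_add, map_add, map_add, map_add, hx, hy]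
    · intro m n
      rw [tb_l]
      obtain ⟨h0, h1, h2⟩ := Beil_vl_l hl a m
      obtain ⟨t0, t1, t2⟩ := Beil_vt_l hl hr a
        (Beil_muf hl hr (tm (M := CL hl) (N := CR hr) m n))
      refine Beil_vt_inj hl hr _ _ fun i => ?_
      fin_cases i
      · refine Eq.trans ?_ t0.symm
        refine (Beil_muf_0 hl hr _).trans ?_
        rw [Beil_phi_tm, h0, Beil_muf_0, Beil_phi_tm, LinearMap.rTensor_tmul]
      · refine Eq.trans ?_ t1.symm
        refine (Beil_muf_1 hl hr _).trans ?_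
        rw [Beil_phi_tm, h1, Beil_muf_1, Beil_phi_tm, LinearMap.rTensor_tmul]
      · refine Eq.trans ?_ t2.symm
        refine (Beil_muf_2 hl hr _).trans ?_
        rw [Beil_phi_tm, Beil_phi_tm, h0, h2, Beil_muf_2, Beil_muf_1, Beil_phi_tm, Beil_phi_tm,
          Beil_phi_tm, map_add, LinearMap.rTensor_tmul, LinearMap.rTensor_tmul,
          LinearMap.rTensor_tmul, TensorProduct.add_tmul, add_assoc]
  map_r := fun b x => by
    refine tb_ind (P := fun x => Beil_muf hl hr ((tb (CL hl) (CR hr)).r b x) =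
      (LP.tri (stable_tens hl hr)).bim.r b (Beil_muf hl hr x)) ?_ ?_ ?_ x
    · simp only [map_zero]
    · intro x y hx hy
      rw [map_add, map_add, map_add, map_add, hx, hy]
    · intro m n
      rw [tb_r]
      obtain ⟨h0, h1, h2⟩ := Beil_vr_r hr b n
      obtain ⟨t0, t1, t2⟩ := Beil_vt_r hl hr b
        (Beil_muf hl hr (tm (M := CL hl) (N := CR hr) m n))
      refine Beil_vt_inj hl hr _ _ fun i => ?_
      fin_cases i
      · refine Eq.trans ?_ t0.symm
        refine (Beil_muf_0 hl hr _).trans ?_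
        rw [Beil_phi_tm, h0, Beil_muf_0, Beil_phi_tm, LinearMap.lTensor_tmul]
      · refine Eq.trans ?_ t1.symm
        refine (Beil_muf_1 hl hr _).trans ?_
        rw [Beil_phi_tm, h1, Beil_muf_1, Beil_phi_tm, LinearMap.lTensor_tmul]
      · refine Eq.trans ?_ t2.symm
        refine (Beil_muf_2 hl hr _).trans ?_
        rw [Beil_phi_tm, Beil_phi_tm, h1, h2, Beil_muf_2, Beil_muf_0, Beil_phi_tm, Beil_phi_tm,
          Beil_phi_tm, map_add, LinearMap.lTensor_tmul, LinearMap.lTensor_tmul,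
          LinearMap.lTensor_tmul, TensorProduct.tmul_add, add_assoc]

theorem beil_qiso (hl : l.St V) (hr : r.St N) :
    ∃ (ν : GMap 0 (tb (CL (hl.tw (-1))) (CR (hr.tw (-1)))) (tb (CL hl) (CR hr)))
      (h0 : ν.dd = 0) (q : GMap 0 (cone ν h0) (LP.tri (stable_tens hl hr)).bim), QIso q := by
  have hμ : (Beil_mu hl hr).dd = 0 := by
    refine LinearMap.ext fun x => ?_
    rw [GMap.dd_apply, sg_zero, one_smul, LinearMap.zero_apply, sub_eq_zero]
    obtain ⟨h0, h1, h2⟩ := Beil_vt_d hl hr (Beil_muf hl hr x)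
    refine Beil_vt_inj hl hr _ _ fun a => ?_
    fin_cases a
    · exact h0.trans (Beil_d00 hl hr 0 0 (by decide) (by decide) x).symm
    · exact h1.trans (Beil_d00 hl hr 1 1 (by decide) (by decide) x).symm
    · refine h2.trans ?_
      change _ = Beil_phi hl hr 0 2 ((tb (CL hl) (CR hr)).dg.d x) +
        Beil_phi hl hr 2 1 ((tb (CL hl) (CR hr)).dg.d x)
      rw [Beil_d2' hl hr 0 (by decide), Beil_d2 hl hr 1 (by decide), Beil_muf_0, Beil_muf_1]
      abel
  refine ⟨Beil_nu hl hr, Beil_nu_dd hl hr, Beil_core (Beil_nu hl hr) (Beil_nu_dd hl hr)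
    (Beil_mu hl hr) hμ (Beil_P V N) ?_ ?_ (Beil_phi hl hr) (fun a => Beil_vt hl hr a)
    (Beil_vt_mem hl hr) (fun z z' h => Beil_vt_inj hl hr z z' h)
    (fun z => (Beil_vt_d hl hr z).2.2) (Beil_muf_0 hl hr) (Beil_muf_1 hl hr)
    (Beil_muf_2 hl hr) (fun a => map_zero _) (Beil_phi_mem hl hr) (Beil_phi_surj hl hr)
    (fun x hx => Beil_nu_ex hl hr x hx) (Beil_nu_inj hl hr) (Beil_phi_nu hl hr)
    (Beil_d00 hl hr 0 0 (by decide) (by decide)) (Beil_d00 hl hr 0 1 (by decide) (by decide))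
    (Beil_d00 hl hr 1 0 (by decide) (by decide)) (Beil_d00 hl hr 1 1 (by decide) (by decide))
    (Beil_d2 hl hr 0 (by decide)) (Beil_d2 hl hr 1 (by decide))
    (Beil_d2' hl hr 0 (by decide)) (Beil_d2' hl hr 1 (by decide)) (Beil_d22 hl hr)⟩
  · intro v hv
    exact (V.tens N).N0_le hv
  · intro v hv
    exact (V.tens N).N1_le hv

theorem hasRes_tens (hl : l.St V) (hr : r.St N) (h1 : HasRes (CL hl))
    (h2 : HasRes (CL (hl.tw (-1)))) (h3 : HasRes (CR hr)) (h4 : HasRes (CR (hr.tw (-1)))) :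
    HasRes (LP.tri (stable_tens hl hr)).bim := by
  obtain ⟨ν, h0, q, hq⟩ := beil_qiso hl hr
  exact (HasRes.cone (HasRes.tb base_proper h2 h4 (rflat_base _))
    (HasRes.tb base_proper h1 h3 (rflat_base _)) ν h0).of_qiso q hq

end Pool.Agent.MP_6e5bed_ag_NC
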