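import Pool.Agent.Lib.MP_6e5bed_ag_CV.TriA

set_option autoImplicit false
set_option linter.unusedSectionVars false

/-!
# Coherent sheaves of algebras and bimodules on the projective line
-/

namespace Pool.Agent.MP_6e5bed_ag_NC

universe u

section

variable {k : Type u} [CommRing k]

/-- `A0 → A01 ← A1` is a coherent sheaf of algebras on the projective line: `t` is central in `A0`
and `s` is central in `A1`, the images of `t` and `s` in `A01` are inverse to each other,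
`A01 = A0[1/t] = A1[1/s]`, and `A0` and `A1` are finitely generated modules over `k[t]` and
`k[s]`. -/
structure IsCoh (A : Cosp k) (t : A.A0) (s : A.A1) : Prop where
  t_comm : ∀ a, t * a = a * t
  s_comm : ∀ a, s * a = a * s
  ts : A.r0 t * A.r1 s = 1
  st : A.r1 s * A.r0 t = 1
  loc0 : ∀ c, ∃ (n : ℕ) (a : A.A0), A.r0 t ^ n * c = A.r0 a
  loc1 : ∀ c, ∃ (n : ℕ) (a : A.A1), A.r1 s ^ n * c = A.r1 a
  ker0 : ∀ a, A.r0 a = 0 → ∃ n : ℕ, t ^ n * a = 0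
  ker1 : ∀ a, A.r1 a = 0 → ∃ n : ℕ, s ^ n * a = 0
  fin0 : ∃ F : Finset A.A0, ∀ a, a ∈ Submodule.span k {x | ∃ y ∈ F, ∃ n : ℕ, x = t ^ n * y}
  fin1 : ∃ F : Finset A.A1, ∀ a, a ∈ Submodule.span k {x | ∃ y ∈ F, ∃ n : ℕ, x = s ^ n * y}

end

variable {k : Type u} [Field k]

/-- Coherent bimodules: `t0`, `s1`, `t01`, `s01` are the multiplications by `t` and `s = 1/t`. -/
structure IsCohTri {S T : Cosp k} (M : Tri S T) (t0 : M.M0.M →ₗ[k] M.M0.M)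
    (s1 : M.M1.M →ₗ[k] M.M1.M) (t01 s01 : M.M01.M →ₗ[k] M.M01.M) : Prop where
  l0 : ∀ a m, t0 (M.M0.l a m) = M.M0.l a (t0 m)
  r0 : ∀ b m, t0 (M.M0.r b m) = M.M0.r b (t0 m)
  l1 : ∀ a m, s1 (M.M1.l a m) = M.M1.l a (s1 m)
  r1 : ∀ b m, s1 (M.M1.r b m) = M.M1.r b (s1 m)
  l01 : ∀ a m, t01 (M.M01.l a m) = M.M01.l a (t01 m)
  r01 : ∀ b m, t01 (M.M01.r b m) = M.M01.r b (t01 m)
  ts : ∀ m, t01 (s01 m) = m
  st : ∀ m, s01 (t01 m) = m
  ρ0 : ∀ m, M.ρ0 (t0 m) = t01 (M.ρ0 m)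
  ρ1 : ∀ m, M.ρ1 (s1 m) = s01 (M.ρ1 m)
  loc0 : ∀ c, ∃ (n : ℕ) (a : M.M0.M), (t01 ^ n) c = M.ρ0 a
  loc1 : ∀ c, ∃ (n : ℕ) (a : M.M1.M), (s01 ^ n) c = M.ρ1 a
  ker0 : ∀ a, M.ρ0 a = 0 → ∃ n : ℕ, (t0 ^ n) a = 0
  ker1 : ∀ a, M.ρ1 a = 0 → ∃ n : ℕ, (s1 ^ n) a = 0
  fin0 : ∃ F : Finset M.M0.M, ∀ a, a ∈ Submodule.span k {x | ∃ y ∈ F, ∃ n : ℕ, x = (t0 ^ n) y}
  fin1 : ∃ F : Finset M.M1.M, ∀ a, a ∈ Submodule.span k {x | ∃ y ∈ F, ∃ n : ℕ, x = (s1 ^ n) y}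

private theorem coh_c0 {A : Cosp k} {t : A.A0} {s : A.A1} (h : IsCoh A t s) (c : A.A01) :
    A.r0 t * c = c * A.r0 t := by
  obtain ⟨n, a, ha⟩ := h.loc0 c
  have e1 : A.r1 s ^ n * A.r0 t ^ n = 1 := by
    have hc : Commute (A.r1 s) (A.r0 t) := h.st.trans h.ts.symm
    rw [← hc.mul_pow, h.st, one_pow]
  have e2 : c = A.r1 s ^ n * A.r0 a := by
    rw [← ha, ← mul_assoc, e1, one_mul]
  have c1 : Commute (A.r0 t) (A.r1 s) := h.ts.trans h.st.symm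
  have c2 : Commute (A.r0 t) (A.r0 a) := by
    change A.r0 t * A.r0 a = A.r0 a * A.r0 t
    rw [← map_mul, ← map_mul, h.t_comm]
  rw [e2]
  exact ((c1.pow_right n).mul_right c2).eq

private theorem coh_c1 {A : Cosp k} {t : A.A0} {s : A.A1} (h : IsCoh A t s) (c : A.A01) :
    A.r1 s * c = c * A.r1 s := by
  calc A.r1 s * c = A.r1 s * (c * (A.r0 t * A.r1 s)) := by rw [h.ts, mul_one]
    _ = A.r1 s * ((A.r0 t * c) * A.r1 s) := by rw [coh_c0 h c, mul_assoc]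
    _ = (A.r1 s * A.r0 t) * (c * A.r1 s) := by simp only [mul_assoc]
    _ = c * A.r1 s := by rw [h.st, one_mul]

/-- The diagonal bimodule of a coherent algebra is coherent. -/
theorem IsCoh.tri {A : Cosp k} {t : A.A0} {s : A.A1} (h : IsCoh A t s) :
    IsCohTri (Tri.diag A) (LinearMap.mulLeft k t) (LinearMap.mulLeft k s)
      (LinearMap.mulLeft k (A.r0 t)) (LinearMap.mulLeft k (A.r1 s)) := by
  have p0 : ∀ (n : ℕ) (x : A.A0), (LinearMap.mulLeft k t ^ n) x = t ^ n * x := fun n x => by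
    rw [LinearMap.pow_mulLeft, LinearMap.mulLeft_apply]
  have p1 : ∀ (n : ℕ) (x : A.A1), (LinearMap.mulLeft k s ^ n) x = s ^ n * x := fun n x => by
    rw [LinearMap.pow_mulLeft, LinearMap.mulLeft_apply]
  have q0 : ∀ (n : ℕ) (x : A.A01), (LinearMap.mulLeft k (A.r0 t) ^ n) x = A.r0 t ^ n * x :=
    fun n x => by rw [LinearMap.pow_mulLeft, LinearMap.mulLeft_apply]
  have q1 : ∀ (n : ℕ) (x : A.A01), (LinearMap.mulLeft k (A.r1 s) ^ n) x = A.r1 s ^ n * x :=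
    fun n x => by rw [LinearMap.pow_mulLeft, LinearMap.mulLeft_apply]
  constructor
  · intro (a : A.A0) (m : A.A0)
    change t * (a * m) = a * (t * m)
    rw [← mul_assoc, h.t_comm, mul_assoc]
  · intro (b : A.A0) (m : A.A0)
    change t * (m * b) = (t * m) * b
    rw [mul_assoc]
  · intro (a : A.A1) (m : A.A1)
    change s * (a * m) = a * (s * m)
    rw [← mul_assoc, h.s_comm, mul_assoc]
  · intro (b : A.A1) (m : A.A1)
    change s * (m * b) = (s * m) * b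
    rw [mul_assoc]
  · intro (a : A.A01) (m : A.A01)
    change A.r0 t * (a * m) = a * (A.r0 t * m)
    rw [← mul_assoc, coh_c0 h, mul_assoc]
  · intro (b : A.A01) (m : A.A01)
    change A.r0 t * (m * b) = (A.r0 t * m) * b
    rw [mul_assoc]
  · intro (m : A.A01)
    change A.r0 t * (A.r1 s * m) = m
    rw [← mul_assoc, h.ts, one_mul]
  · intro (m : A.A01)
    change A.r1 s * (A.r0 t * m) = m
    rw [← mul_assoc, h.st, one_mul]
  · intro (m : A.A0)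
    change A.r0 (t * m) = A.r0 t * A.r0 m
    rw [map_mul]
  · intro (m : A.A1)
    change A.r1 (s * m) = A.r1 s * A.r1 m
    rw [map_mul]
  · intro c
    obtain ⟨n, a, ha⟩ := h.loc0 c
    exact ⟨n, a, (q0 n c).trans ha⟩
  · intro c
    obtain ⟨n, a, ha⟩ := h.loc1 c
    exact ⟨n, a, (q1 n c).trans ha⟩
  · intro a ha
    obtain ⟨n, hn⟩ := h.ker0 a ha
    exact ⟨n, (p0 n a).trans hn⟩
  · intro a ha
    obtain ⟨n, hn⟩ := h.ker1 a ha
    exact ⟨n, (p1 n a).trans hn⟩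
  · obtain ⟨F, hF⟩ := h.fin0
    refine ⟨F, fun a => ?_⟩
    have e : {x : A.A0 | ∃ y ∈ F, ∃ n : ℕ, x = (LinearMap.mulLeft k t ^ n) y} =
        {x | ∃ y ∈ F, ∃ n : ℕ, x = t ^ n * y} := by
      ext x
      simp only [p0]
    have h1 := hF a
    rw [← e] at h1
    exact h1
  · obtain ⟨F, hF⟩ := h.fin1
    refine ⟨F, fun a => ?_⟩
    have e : {x : A.A1 | ∃ y ∈ F, ∃ n : ℕ, x = (LinearMap.mulLeft k s ^ n) y} =
        {x | ∃ y ∈ F, ∃ n : ℕ, x = s ^ n * y} := by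
      ext x
      simp only [p1]
    have h1 := hF a
    rw [← e] at h1
    exact h1

end Pool.Agent.MP_6e5bed_ag_NC
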