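import Pool.Agent.Lib.MP_6e5bed_ag_CV.LPA
import Pool.Agent.Lib.MP_6e5bed_ag_CV.KK

set_option autoImplicit false
set_option linter.unusedSectionVars false

/-!
# Finiteness of the cohomology of lattice pairs (NC CURVES)
-/

namespace Pool.Agent.MP_6e5bed_ag_NC

open RatFunc

universe u

variable {k : Type u} [Field k]

namespace LP

section

variable {E : Type u} [AddCommGroup E] [Module (RatFunc k) E] [Module k E]
  [IsScalarTower k (RatFunc k) E] (N : LP k E)

/-- the coordinates of `N1` in a basis of `N0` have bounded poles at zero -/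
private theorem LFin_coord {n : ℕ} (b : Module.Basis (Fin n) (RatFunc k) E)
    (hb : ∀ v : E, v ∈ N.N0 ↔ ∀ i, b.repr v i ∈ kk k X) :
    ∃ M : ℕ, ∀ v ∈ N.N1, ∀ i, ((X : RatFunc k)⁻¹) ^ M * b.repr v i ∈ kk k X⁻¹ := by
  have hX : (X : RatFunc k) ≠ 0 := RatFunc.X_ne_zero
  obtain ⟨S, hS⟩ := N.fg1
  have h1 : ∀ s ∈ N.N1, ∀ i, ∃ m : ℕ, ∀ m' : ℕ, m ≤ m' →
      ((X : RatFunc k)⁻¹) ^ m' * b.repr s i ∈ kk k X⁻¹ := by
    intro s hs i
    obtain ⟨p, hp⟩ := N.loc10 s hs
    have h2 := (hb _).1 hp i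
    obtain ⟨q, hq⟩ := kk_pow_X h2
    refine ⟨q, fun m' hm' => ?_⟩
    have h3 := hq (m' + p) (by omega)
    have h4 : b.repr ((X : RatFunc k) ^ p • s) i = (X : RatFunc k) ^ p * b.repr s i := by
      rw [map_smul]
      rfl
    rw [h4, pow_add, mul_assoc, ← mul_assoc _ ((X : RatFunc k) ^ p), ← mul_pow,
      inv_mul_cancel₀ hX, one_pow, one_mul] at h3
    exact h3
  have hSN : ∀ s ∈ S, s ∈ N.N1 := fun s hs => hS ▸ Submodule.subset_span hs
  choose! m hm using h1
  refine ⟨∑ s ∈ S, ∑ i, m s i, fun v hv i => ?_⟩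
  rw [← hS] at hv
  refine Submodule.span_induction (p := fun v _ =>
    ((X : RatFunc k)⁻¹) ^ (∑ s ∈ S, ∑ i, m s i) * b.repr v i ∈ kk k X⁻¹) ?_ ?_ ?_ ?_ hv
  · intro s hs
    refine hm s (hSN s hs) i _ ?_
    refine le_trans ?_ (Finset.single_le_sum (f := fun s => ∑ i, m s i)
      (fun s _ => Nat.zero_le _) (Finset.mem_coe.1 hs))
    exact Finset.single_le_sum (f := fun i => m s i) (fun i _ => Nat.zero_le _)
      (Finset.mem_univ i)
  · rw [map_zero, Finsupp.zero_apply, mul_zero]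
    exact Subalgebra.zero_mem _
  · intro x y _ _ hx hy
    rw [map_add, Finsupp.add_apply, mul_add]
    exact Subalgebra.add_mem _ hx hy
  · intro c x _ hx
    have h5 : b.repr (c • x) i = (c : RatFunc k) * b.repr x i := by
      rw [Subalgebra.smul_def, map_smul]
      rfl
    rw [h5, mul_left_comm]
    exact Subalgebra.mul_mem _ c.2 hx

/-- The intersection of the two lattices is finite-dimensional. -/
private theorem LFin_inter :
    Module.Finite k ↥(N.N0.restrictScalars k ⊓ N.N1.restrictScalars k) := by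
  obtain ⟨n, b, hb⟩ := exists_basis_X N.fg0 N.sp0
  obtain ⟨M, hM⟩ := LFin_coord N b hb
  let D : Submodule k (RatFunc k) := (Subalgebra.toSubmodule (kk k X)) ⊓
    (Subalgebra.toSubmodule (kk k X⁻¹)).comap (LinearMap.mulLeft k ((X : RatFunc k) ^ (-(M : ℤ))))
  have : Module.Finite k D := kk_inter (-(M : ℤ))
  let F : ↥(N.N0.restrictScalars k ⊓ N.N1.restrictScalars k) →ₗ[k] (Fin n → D) :=
    LinearMap.pi fun i => LinearMap.codRestrict D
      (((b.coord i).restrictScalars k).comp (Submodule.subtype _)) (by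
        rintro ⟨v, hv0, hv1⟩
        refine ⟨(hb v).1 hv0 i, ?_⟩
        change (X : RatFunc k) ^ (-(M : ℤ)) * b.repr v i ∈ kk k X⁻¹
        rw [zpow_neg, zpow_natCast, ← inv_pow]
        exact hM v hv1 i)
  refine Module.Finite.of_injective F fun v w h => ?_
  apply Subtype.ext
  apply b.repr.injective
  refine Finsupp.ext fun i => ?_
  exact congrArg Subtype.val (congrFun h i)

/-- The localization is the sum of the two lattices and of a finite-dimensional space. -/
private theorem LFin_sum : ∃ V : Submodule k E, Module.Finite k V ∧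
    N.N01 ≤ (N.N0.restrictScalars k ⊔ N.N1.restrictScalars k) ⊔ V := by
  classical
  have hX : (X : RatFunc k) ≠ 0 := RatFunc.X_ne_zero
  obtain ⟨S, hS⟩ := N.fg0
  have hSN : ∀ s ∈ S, s ∈ N.N0 := fun s hs => hS ▸ Submodule.subset_span hs
  have h1 : ∀ s ∈ N.N0, ∃ m : ℕ, ∀ m' : ℕ, m ≤ m' → ((X : RatFunc k)⁻¹) ^ m' • s ∈ N.N1 := by
    intro s hs
    obtain ⟨m, hm⟩ := N.loc01 s hs
    refine ⟨m, fun m' hm' => ?_⟩
    obtain ⟨j, rfl⟩ := Nat.exists_eq_add_of_le hm'
    rw [add_comm, pow_add, mul_smul]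
    exact N.Xi_pow_mem hm j
  choose! m hm using h1
  let M : ℕ := ∑ s ∈ S, m s
  let T : Finset E := (S ×ˢ Finset.range M).image fun x => ((X : RatFunc k)⁻¹) ^ x.2 • x.1
  refine ⟨Submodule.span k (T : Set E), Module.Finite.span_finset k T, ?_⟩
  set R : Submodule k E := (N.N0.restrictScalars k ⊔ N.N1.restrictScalars k) ⊔
    Submodule.span k (T : Set E) with hR
  have hR0 : ∀ v ∈ N.N0, v ∈ R := fun v hv =>
    Submodule.mem_sup_left (Submodule.mem_sup_left hv)
  have hR1 : ∀ v ∈ N.N1, v ∈ R := fun v hv =>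
    Submodule.mem_sup_left (Submodule.mem_sup_right hv)
  have hRT : ∀ v ∈ T, v ∈ R := fun v hv => Submodule.mem_sup_right (Submodule.subset_span hv)
  -- the property is stable
  have hk : ∀ c ∈ kk k X, ∀ w : E, (∀ n : ℤ, (X : RatFunc k) ^ n • w ∈ R) →
      ∀ n : ℤ, (X : RatFunc k) ^ n • (c • w) ∈ R := by
    intro c hc
    refine Algebra.adjoin_induction (s := {(X : RatFunc k)}) (p := fun c _ => ∀ w : E,
      (∀ n : ℤ, (X : RatFunc k) ^ n • w ∈ R) → ∀ n : ℤ, (X : RatFunc k) ^ n • (c • w) ∈ R)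
      ?_ ?_ ?_ ?_ hc
    · intro x hx w hw n
      rw [Set.mem_singleton_iff] at hx
      subst hx
      have h3 := hw (n + 1)
      rw [zpow_add₀ hX, zpow_one, mul_smul] at h3
      exact h3
    · intro r w hw n
      rw [algebraMap_smul, smul_comm]
      exact R.smul_mem r (hw n)
    · intro x y _ _ hx hy w hw n
      rw [add_smul, smul_add]
      exact R.add_mem (hx w hw n) (hy w hw n)
    · intro x y _ _ hx hy w hw n
      rw [mul_smul]
      exact hx (y • w) (hy w hw) n
  have hN : ∀ w ∈ N.N0, ∀ n : ℤ, (X : RatFunc k) ^ n • w ∈ R := by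
    intro w hw
    rw [← hS] at hw
    refine Submodule.span_induction (p := fun w _ => ∀ n : ℤ, (X : RatFunc k) ^ n • w ∈ R)
      ?_ ?_ ?_ ?_ hw
    · intro s hs n
      rcases le_or_gt 0 n with h0 | h0
      · obtain ⟨j, rfl⟩ := Int.eq_ofNat_of_zero_le h0
        rw [zpow_natCast]
        exact hR0 _ (N.X_pow_mem (hSN s hs) j)
      · obtain ⟨j, hj⟩ := Int.eq_ofNat_of_zero_le (show 0 ≤ -n by omega)
        have h4 : (X : RatFunc k) ^ n = ((X : RatFunc k)⁻¹) ^ j := by
          rw [show n = -(j : ℤ) by omega, zpow_neg, zpow_natCast, inv_pow]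
        rw [h4]
        rcases lt_or_ge j M with h5 | h5
        · refine hRT _ (Finset.mem_image.2 ⟨(s, j), ?_, rfl⟩)
          exact Finset.mem_product.2 ⟨hs, Finset.mem_range.2 h5⟩
        · refine hR1 _ (hm s (hSN s hs) j (le_trans ?_ h5))
          exact Finset.single_le_sum (f := fun s => m s) (fun s _ => Nat.zero_le _)
            (Finset.mem_coe.1 hs)
    · intro n
      rw [smul_zero]
      exact R.zero_mem
    · intro x y _ _ hx hy n
      rw [smul_add]
      exact R.add_mem (hx n) (hy n)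
    · intro c x _ hx n
      rw [Subalgebra.smul_def]
      exact hk c.1 c.2 x hx n
  rintro v ⟨n, hn⟩
  have h6 := hN _ hn (-(n : ℤ))
  rw [smul_smul, zpow_neg, zpow_natCast, inv_mul_cancel₀ (pow_ne_zero _ hX), one_smul] at h6
  exact h6

end

variable {S T : Cosp k} {G G' : GBi k S.A01 T.A01} {A B : DGA k}

/-- the element of the first lattice -/
private def LFin_e0 {N : LP k G.E} (h : Stable G N) (v : (tri h).M0.M) : G.E :=
  @Subtype.val G.E (fun v => v ∈ N.N0) v

/-- the element of the second lattice -/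
private def LFin_e1 {N : LP k G.E} (h : Stable G N) (v : (tri h).M1.M) : G.E :=
  @Subtype.val G.E (fun v => v ∈ N.N1) v

/-- the element of the localization -/
private def LFin_e01 {N : LP k G.E} (h : Stable G N) (v : (tri h).M01.M) : G.E :=
  @Subtype.val G.E (fun v => v ∈ N.N01) v

private theorem LFin_ker {N : LP k G.E} (h : Stable G N)
    (x : (tri h).M0.M × (tri h).M1.M) (hx : (tri h).δ x = 0) :
    LFin_e1 h x.2 = LFin_e0 h x.1 := by
  have h1 : LFin_e1 h x.2 - LFin_e0 h x.1 = 0 := congrArg (LFin_e01 h) hx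
  exact sub_eq_zero.1 h1

/-- The Čech bimodule of a lattice pair has finite-dimensional cohomology. -/
theorem finCoh {N : LP k G.E} (h : Stable G N) : (tri h).bim.dg.FinCoh := by
  refine Tri.finCoh (tri h) ?_ ?_
  · have := LFin_inter N
    let F : ↥(LinearMap.ker (tri h).δ) →ₗ[k]
        ↥(N.N0.restrictScalars k ⊓ N.N1.restrictScalars k) :=
      { toFun := fun x => ⟨LFin_e0 h x.1.1, x.1.1.2, by
          have h1 := LFin_ker h x.1 (LinearMap.mem_ker.1 x.2)
          change LFin_e0 h x.1.1 ∈ N.N1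
          rw [← h1]
          exact x.1.2.2⟩
        map_add' := fun x y => rfl
        map_smul' := fun c x => rfl }
    refine Module.Finite.of_injective F fun x y hxy => ?_
    have hx := LFin_ker h x.1 (LinearMap.mem_ker.1 x.2)
    have hy := LFin_ker h y.1 (LinearMap.mem_ker.1 y.2)
    have h0 : LFin_e0 h x.1.1 = LFin_e0 h y.1.1 := by
      have h1 : (F x).1 = (F y).1 := congrArg (fun z => z.1) hxy
      exact h1
    apply Subtype.ext
    refine Prod.ext (Subtype.ext h0) (Subtype.ext ?_)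
    exact (hx.trans h0).trans hy.symm
  · obtain ⟨V, hV, hle⟩ := LFin_sum N
    have : Module.Finite k ↥(V ⊓ N.N01) := Submodule.finiteDimensional_inf_left V N.N01
    let F0 : ↥(V ⊓ N.N01) →ₗ[k] (tri h).M01.M :=
      { toFun := fun x => (⟨x.1, x.2.2⟩ : N.N01)
        map_add' := fun x y => rfl
        map_smul' := fun c x => rfl }
    let F : ↥(V ⊓ N.N01) →ₗ[k] ((tri h).M01.M ⧸ LinearMap.range (tri h).δ) :=
      (Submodule.mkQ (LinearMap.range (tri h).δ)).comp F0
    refine Module.Finite.of_surjective F fun q => ?_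
    obtain ⟨v, rfl⟩ := Submodule.mkQ_surjective _ q
    have hv : LFin_e01 h v ∈ N.N01 := v.2
    obtain ⟨w, hw, c, hc, hwc⟩ := Submodule.mem_sup.1 (hle hv)
    obtain ⟨a, ha, b, hb, hab⟩ := Submodule.mem_sup.1 hw
    have ha' : a ∈ N.N0 := ha
    have hb' : b ∈ N.N1 := hb
    have hcN : c ∈ N.N01 := by
      have h1 : c = LFin_e01 h v - a - b := by
        rw [← hwc, ← hab]
        abel
      rw [h1]
      exact N.N01.sub_mem (N.N01.sub_mem hv (N.N0_le ha')) (N.N1_le hb')
    refine ⟨⟨c, hc, hcN⟩, ?_⟩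
    refine (Submodule.Quotient.eq _).2 ?_
    refine ⟨((⟨a, ha'⟩ : N.N0), (⟨-b, N.N1.neg_mem hb'⟩ : N.N1)), ?_⟩
    apply Subtype.ext
    change -b - a = c - LFin_e01 h v
    rw [← hwc, ← hab]
    abel

end LP

end Pool.Agent.MP_6e5bed_ag_NC
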