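import Pool.Agent.Lib.MP_6e5bed_ag_CV.CohGen
import Pool.Agent.Lib.MP_6e5bed_ag_CV.TorsA
import Pool.Agent.Lib.MP_6e5bed_ag_CV.LLe
import Pool.Agent.Lib.MP_6e5bed_ag_CV.LFin

set_option autoImplicit false
set_option linter.unusedSectionVars false

/-!
# Coherent bimodules are extensions of lattice pairs by torsion (NC CURVES)
-/

namespace Pool.Agent.MP_6e5bed_ag_NC

open RatFunc
open scoped TensorProduct

universe u

variable {k : Type u} [Field k]

section aux

open Polynomial (aeval)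

variable {V W : Type u} [AddCommGroup V] [Module k V] [AddCommGroup W] [Module k W]

private theorem CohDec_pow (f : V →ₗ[k] W) (t : V →ₗ[k] V) (t' : W →ₗ[k] W)
    (h : ∀ x, f (t x) = t' (f x)) (n : ℕ) (x : V) : f ((t ^ n) x) = (t' ^ n) (f x) := by
  induction n generalizing x with
  | zero => simp
  | succ n ih => rw [pow_succ, Module.End.mul_apply, ih, h, pow_succ, Module.End.mul_apply]

private theorem CohDec_aeval (f : V →ₗ[k] W) (t : V →ₗ[k] V) (t' : W →ₗ[k] W)
    (h : ∀ x, f (t x) = t' (f x)) (p : Polynomial k) (x : V) :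
    f (aeval t p x) = aeval t' p (f x) := by
  induction p using Polynomial.induction_on' with
  | add p q hp hq =>
    rw [map_add, map_add, LinearMap.add_apply, LinearMap.add_apply, map_add, hp, hq]
  | monomial n a =>
    rw [Polynomial.aeval_monomial, Polynomial.aeval_monomial, Module.End.mul_apply,
      Module.End.mul_apply, Module.algebraMap_end_apply, Module.algebraMap_end_apply, map_smul,
      CohDec_pow f t t' h]

private theorem CohDec_aevalX {E : Type u} [AddCommGroup E] [Module (RatFunc k) E] [Module k E]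
    [IsScalarTower k (RatFunc k) E] (f : V →ₗ[k] E) (t : V →ₗ[k] V) (c : RatFunc k)
    (h : ∀ x, f (t x) = c • f x) (p : Polynomial k) (x : V) :
    f (aeval t p x) = (aeval c p : RatFunc k) • f x := by
  have hpow : ∀ (n : ℕ) (x : V), f ((t ^ n) x) = c ^ n • f x := by
    intro n
    induction n with
    | zero => intro x; simp
    | succ n ih =>
      intro x
      rw [pow_succ, Module.End.mul_apply, ih, h, pow_succ, mul_smul]
  induction p using Polynomial.induction_on' with
  | add p q hp hq =>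
    rw [map_add, map_add, LinearMap.add_apply, map_add, hp, hq, add_smul]
  | monomial n a =>
    rw [Polynomial.aeval_monomial, Polynomial.aeval_monomial, Module.End.mul_apply,
      Module.algebraMap_end_apply, map_smul, hpow, mul_smul, algebraMap_smul]

/-- A submodule of torsion elements of a finitely generated module over `k[t]`. -/
private theorem CohDec_fin (t : V →ₗ[k] V) (F : Finset V)
    (hF : ∀ a : V, a ∈ Submodule.span k {x | ∃ y ∈ F, ∃ n : ℕ, x = (t ^ n) y})
    (U : Submodule k V) (hU : ∀ x ∈ U, t x ∈ U)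
    (htor : ∀ x ∈ U, ∃ p : Polynomial k, p ≠ 0 ∧ aeval t p x = 0) : Module.Finite k U := by
  classical
  let o : V ≃ₗ[k] Module.AEval' t := Module.AEval'.of t
  have ho : ∀ (p : Polynomial k) (x : V), o (aeval t p x) = p • o x := fun p x =>
    Module.AEval.of_aeval_smul t p x
  have hW : Module.Finite (Polynomial k) (Module.AEval' t) := by
    refine ⟨⟨F.image o, ?_⟩⟩
    rw [eq_top_iff]
    intro w _
    obtain ⟨a, rfl⟩ := o.surjective w
    refine Submodule.span_induction (p := fun a _ => o a ∈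
      Submodule.span (Polynomial k) ((F.image o : Finset (Module.AEval' t)) :
        Set (Module.AEval' t))) ?_ ?_ ?_ ?_ (hF a)
    · rintro x ⟨y, hy, n, rfl⟩
      have h1 := ho (Polynomial.X ^ n) y
      rw [map_pow, Polynomial.aeval_X] at h1
      rw [h1]
      refine Submodule.smul_mem _ _ (Submodule.subset_span ?_)
      exact Finset.mem_coe.2 (Finset.mem_image_of_mem o hy)
    · rw [map_zero]
      exact Submodule.zero_mem _
    · intro x y _ _ hx hy
      rw [map_add]
      exact Submodule.add_mem _ hx hy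
    · intro c x _ hx
      have h1 := ho (Polynomial.C c) x
      rw [Polynomial.aeval_C, Module.algebraMap_end_apply] at h1
      rw [h1]
      exact Submodule.smul_mem _ _ hx
  have hUp : ∀ (p : Polynomial k), ∀ x ∈ U, aeval t p x ∈ U := by
    intro p
    have hpow : ∀ (n : ℕ), ∀ x ∈ U, (t ^ n) x ∈ U := by
      intro n
      induction n with
      | zero => intro x hx; simpa using hx
      | succ n ih =>
        intro x hx
        rw [pow_succ, Module.End.mul_apply]
        exact ih _ (hU x hx)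
    induction p using Polynomial.induction_on' with
    | add p q hp hq =>
      intro x hx
      rw [map_add, LinearMap.add_apply]
      exact U.add_mem (hp x hx) (hq x hx)
    | monomial n a =>
      intro x hx
      rw [Polynomial.aeval_monomial, Module.End.mul_apply, Module.algebraMap_end_apply]
      exact U.smul_mem _ (hpow n x hx)
  let U' : Submodule (Polynomial k) (Module.AEval' t) :=
    { carrier := {w | o.symm w ∈ U}
      add_mem' := fun {x y} hx hy => by
        change o.symm (x + y) ∈ U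
        rw [map_add]
        exact U.add_mem hx hy
      zero_mem' := by
        change o.symm 0 ∈ U
        rw [map_zero]
        exact U.zero_mem
      smul_mem' := fun c x hx => by
        change o.symm (c • x) ∈ U
        have h1 := ho c (o.symm x)
        rw [o.apply_symm_apply] at h1
        rw [← h1, o.symm_apply_apply]
        exact hUp c _ hx }
  obtain ⟨S, hS⟩ := IsNoetherian.noetherian U'
  have hSU : ∀ s ∈ S, o.symm s ∈ U := fun s hs => by
    have h1 : s ∈ U' := hS ▸ Submodule.subset_span hs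
    exact h1
  choose! p hp0 hp using htor
  let T : Finset V := S.biUnion fun s =>
    (Finset.range (p (o.symm s)).natDegree).image fun n => (t ^ n) (o.symm s)
  have key : ∀ s ∈ S, ∀ q : Polynomial k, aeval t q (o.symm s) ∈ Submodule.span k (T : Set V) := by
    intro s hs q
    have h1 : aeval t q (o.symm s) = aeval t (q % p (o.symm s)) (o.symm s) := by
      have h2 := EuclideanDomain.div_add_mod q (p (o.symm s))
      conv_lhs => rw [← h2, mul_comm, map_add, map_mul, LinearMap.add_apply,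
        Module.End.mul_apply, hp _ (hSU s hs), map_zero, zero_add]
    rw [h1]
    by_cases h0 : (p (o.symm s)).natDegree = 0
    · have h2 : q % p (o.symm s) = 0 := by
        have h3 : (p (o.symm s)).degree = 0 := by
          rw [Polynomial.degree_eq_natDegree (hp0 _ (hSU s hs)), h0]
          rfl
        have h4 := EuclideanDomain.mod_lt q (hp0 _ (hSU s hs))
        have h5 : (q % p (o.symm s)).degree < (p (o.symm s)).degree := h4
        rw [h3] at h5
        exact Polynomial.degree_eq_bot.1 (Nat.WithBot.lt_zero_iff.1 h5)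
      rw [h2, map_zero, LinearMap.zero_apply]
      exact Submodule.zero_mem _
    · have h2 : (q % p (o.symm s)).natDegree < (p (o.symm s)).natDegree :=
        Polynomial.natDegree_mod_lt q h0
      rw [Polynomial.aeval_eq_sum_range' h2, LinearMap.sum_apply]
      refine Submodule.sum_mem _ fun i hi => ?_
      rw [LinearMap.smul_apply]
      refine Submodule.smul_mem _ _ (Submodule.subset_span ?_)
      exact Finset.mem_coe.2 (Finset.mem_biUnion.2 ⟨s, hs, Finset.mem_image.2 ⟨i, hi, rfl⟩⟩)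
  have hle : U ≤ Submodule.span k (T : Set V) := by
    intro x hx
    have h1 : o x ∈ U' := by
      change o.symm (o x) ∈ U
      rwa [o.symm_apply_apply]
    rw [← hS] at h1
    have h2 : ∀ q : Polynomial k, aeval t q (o.symm (o x)) ∈ Submodule.span k (T : Set V) := by
      refine Submodule.span_induction (p := fun w _ => ∀ q : Polynomial k,
        aeval t q (o.symm w) ∈ Submodule.span k (T : Set V)) ?_ ?_ ?_ ?_ h1
      · intro s hs q
        exact key s hs q
      · intro q
        rw [map_zero, map_zero]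
        exact Submodule.zero_mem _
      · intro y z _ _ hy hz q
        rw [map_add, map_add]
        exact Submodule.add_mem _ (hy q) (hz q)
      · intro c y _ hy q
        have h3 := ho c (o.symm y)
        rw [o.apply_symm_apply] at h3
        rw [← h3, o.symm_apply_apply, ← Module.End.mul_apply, ← map_mul]
        exact hy (q * c)
    have h3 := h2 1
    rwa [map_one, Module.End.one_apply, o.symm_apply_apply] at h3
  have : Module.Finite k (Submodule.span k (T : Set V)) := Module.Finite.span_finset k T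
  exact Submodule.finiteDimensional_of_le hle

/-- torsion for `t` is torsion for `1/t` -/
private theorem CohDec_rev {t s : V →ₗ[k] V} (hst : ∀ x, s (t x) = x) {x : V} {p : Polynomial k}
    (hp : p ≠ 0) (h : aeval t p x = 0) : ∃ p' : Polynomial k, p' ≠ 0 ∧ aeval s p' x = 0 := by
  have hpow : ∀ (n m : ℕ), n ≤ m → ∀ x, (s ^ m) ((t ^ n) x) = (s ^ (m - n)) x := by
    intro n
    induction n with
    | zero => intro m _ x; simp
    | succ n ih =>
      intro m hm x
      rw [pow_succ' t, Module.End.mul_apply]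
      obtain ⟨m', rfl⟩ : ∃ m', m = m' + 1 := ⟨m - 1, by omega⟩
      rw [pow_succ s, Module.End.mul_apply, hst, ih m' (by omega)]
      congr 2
      omega
  have key : ∀ q : Polynomial k, q.natDegree ≤ p.natDegree → ∀ x,
      aeval s (q.reflect p.natDegree) x = (s ^ p.natDegree) (aeval t q x) := by
    intro q hq
    refine Polynomial.induction_with_natDegree_le (motive := fun q => ∀ x,
      aeval s (q.reflect p.natDegree) x = (s ^ p.natDegree) (aeval t q x)) p.natDegree
      ?_ ?_ ?_ q hq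
    · intro x
      simp
    · intro n r _ hn x
      rw [Polynomial.reflect_C_mul_X_pow, Polynomial.revAt_le hn, map_mul, map_mul, map_pow,
        map_pow, Polynomial.aeval_C, Polynomial.aeval_X, Polynomial.aeval_C, Polynomial.aeval_X,
        Module.End.mul_apply, Module.End.mul_apply, Module.algebraMap_end_apply,
        Module.algebraMap_end_apply, map_smul, hpow n _ hn]
    · intro f g _ _ hf hg x
      rw [Polynomial.reflect_add, map_add, map_add, LinearMap.add_apply, LinearMap.add_apply,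
        map_add, hf, hg]
  refine ⟨p.reflect p.natDegree, fun h0 => hp ?_, ?_⟩
  · exact Polynomial.reflect_eq_zero_iff.1 h0
  · rw [key p le_rfl, h, map_zero]

/-- on torsion elements `1/t` is a polynomial in `t` -/
private theorem CohDec_inv {t s : V →ₗ[k] V} (hst : ∀ x, s (t x) = x) (hts : ∀ x, t (s x) = x)
    {x : V} {p : Polynomial k} (hp : p ≠ 0) (h : aeval t p x = 0) :
    ∃ q : Polynomial k, ∀ n : ℕ, (s ^ n) x = aeval t (q ^ n) x := by
  -- remove the powers of `t`
  obtain ⟨p, hp, hc, h⟩ : ∃ p : Polynomial k, p ≠ 0 ∧ p.coeff 0 ≠ 0 ∧ aeval t p x = 0 := by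
    obtain ⟨q, hq, hq0⟩ := Polynomial.exists_eq_pow_rootMultiplicity_mul_and_not_dvd p hp 0
    have hq' : p = Polynomial.X ^ (p.rootMultiplicity 0) * q := by
      simpa using hq
    have hinj : ∀ (n : ℕ) (y : V), (t ^ n) y = 0 → y = 0 := by
      intro n
      induction n with
      | zero => intro y hy; simpa using hy
      | succ n ih =>
        intro y hy
        rw [pow_succ, Module.End.mul_apply] at hy
        have h1 := ih _ hy
        rw [← hst y, h1, map_zero]
    refine ⟨q, ?_, ?_, ?_⟩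
    · rintro rfl
      rw [mul_zero] at hq'
      exact hp hq'
    · intro h0
      apply hq0
      rw [map_zero, sub_zero, Polynomial.X_dvd_iff]
      exact h0
    · rw [hq', map_mul, map_pow, Polynomial.aeval_X, Module.End.mul_apply] at h
      exact hinj _ _ h
  obtain ⟨q, hq⟩ : ∃ q : Polynomial k, s x = aeval t q x := by
    have h1 : p = Polynomial.divX p * Polynomial.X + Polynomial.C (p.coeff 0) :=
      (Polynomial.divX_mul_X_add p).symm
    rw [h1, mul_comm, map_add, map_mul, Polynomial.aeval_X, Polynomial.aeval_C,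
      LinearMap.add_apply, Module.End.mul_apply, Module.algebraMap_end_apply] at h
    refine ⟨Polynomial.C (-(p.coeff 0)⁻¹) * Polynomial.divX p, ?_⟩
    have h2 : t (aeval t (Polynomial.divX p) x) = -(p.coeff 0 • x) := eq_neg_of_add_eq_zero_left h
    have h3 : x = t ((-(p.coeff 0)⁻¹) • aeval t (Polynomial.divX p) x) := by
      rw [map_smul, h2, smul_neg, neg_smul, neg_neg, smul_smul, inv_mul_cancel₀ hc, one_smul]
    rw [map_mul, Polynomial.aeval_C, Module.End.mul_apply, Module.algebraMap_end_apply]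
    conv_lhs => rw [h3, hst]
  have hcomm : ∀ (r : Polynomial k) (y : V), s (aeval t r y) = aeval t r (s y) := fun r y =>
    CohDec_aeval s t t (fun y => by rw [hst, hts]) r y
  refine ⟨q, fun n => ?_⟩
  induction n with
  | zero => simp
  | succ n ih =>
    rw [pow_succ', Module.End.mul_apply, ih, hcomm, hq, ← Module.End.mul_apply, ← map_mul,
      ← pow_succ]

/-- torsion elements are in the image of the chart -/
private theorem CohDec_surj {t s : V →ₗ[k] V} (hst : ∀ x, s (t x) = x) (hts : ∀ x, t (s x) = x)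
    {t₀ : W →ₗ[k] W} (ρ : W →ₗ[k] V) (hρ : ∀ x, ρ (t₀ x) = t (ρ x))
    {x : V} {p : Polynomial k} (hp : p ≠ 0) (h : aeval t p x = 0)
    (hl : ∃ (n : ℕ) (a : W), (t ^ n) x = ρ a) : ∃ a, ρ a = x := by
  obtain ⟨q, hq⟩ := CohDec_inv hst hts hp h
  obtain ⟨n, a, ha⟩ := hl
  refine ⟨aeval t₀ (q ^ n) a, ?_⟩
  rw [CohDec_aeval ρ t₀ t hρ, ← ha]
  have h1 : aeval t (q ^ n) ((t ^ n) x) = (t ^ n) (aeval t (q ^ n) x) := by
    have h2 : ∀ y, aeval t (Polynomial.X ^ n : Polynomial k) y = (t ^ n) y := fun y => by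
      rw [map_pow, Polynomial.aeval_X]
    rw [← h2, ← h2, ← Module.End.mul_apply, ← Module.End.mul_apply, ← map_mul, ← map_mul,
      mul_comm]
  rw [h1, ← hq]
  have h3 : ∀ (n : ℕ) (y : V), (t ^ n) ((s ^ n) y) = y := by
    intro n
    induction n with
    | zero => intro y; simp
    | succ n ih =>
      intro y
      rw [pow_succ, pow_succ', Module.End.mul_apply, Module.End.mul_apply, hts, ih]
  exact h3 n x

private theorem CohDec_powX {E : Type u} [AddCommGroup E] [Module (RatFunc k) E] [Module k E]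
    [IsScalarTower k (RatFunc k) E] (f : V →ₗ[k] E) (t : V →ₗ[k] V) (c : RatFunc k)
    (h : ∀ x, f (t x) = c • f x) (n : ℕ) (x : V) : f ((t ^ n) x) = c ^ n • f x := by
  have h1 := CohDec_aevalX f t c h (Polynomial.X ^ n) x
  rwa [map_pow, map_pow, Polynomial.aeval_X, Polynomial.aeval_X] at h1

private theorem CohDec_fg {E : Type u} [AddCommGroup E] [Module (RatFunc k) E] [Module k E]
    [IsScalarTower k (RatFunc k) E] (f : V →ₗ[k] E) (t : V →ₗ[k] V) (c : RatFunc k)
    (h : ∀ x, f (t x) = c • f x) (N : Submodule (kk k c) E) (hN : ∀ v, v ∈ N ↔ ∃ x, f x = v)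
    (hF : ∃ F : Finset V, ∀ a : V,
      a ∈ Submodule.span k {x | ∃ y ∈ F, ∃ n : ℕ, x = (t ^ n) y}) : N.FG := by
  classical
  obtain ⟨F, hF⟩ := hF
  refine ⟨F.image f, le_antisymm (Submodule.span_le.2 ?_) ?_⟩
  · intro v hv
    obtain ⟨y, _, rfl⟩ := Finset.mem_image.1 (Finset.mem_coe.1 hv)
    exact (hN _).2 ⟨y, rfl⟩
  · intro v hv
    obtain ⟨x, rfl⟩ := (hN v).1 hv
    refine Submodule.span_induction (p := fun a _ => f a ∈
      Submodule.span (kk k c) ((F.image f : Finset E) : Set E)) ?_ ?_ ?_ ?_ (hF x)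
    · rintro _ ⟨y, hy, n, rfl⟩
      rw [CohDec_powX f t c h]
      have h1 : c ^ n • f y = (kk.gen k c ^ n) • f y := rfl
      rw [h1]
      refine Submodule.smul_mem _ _ (Submodule.subset_span ?_)
      exact Finset.mem_coe.2 (Finset.mem_image_of_mem f hy)
    · rw [map_zero]
      exact Submodule.zero_mem _
    · intro x y _ _ hx hy
      rw [map_add]
      exact Submodule.add_mem _ hx hy
    · intro a x _ hx
      rw [map_smul]
      exact Submodule.smul_of_tower_mem _ a hx

end aux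

section sub

variable {R R' : Type u} [Ring R] [Algebra k R] [Ring R'] [Algebra k R']

/-- a sub-bimodule -/
private def CohDecSub (U : KBi k R R') (Z : Submodule k U.M) (hl : ∀ a, ∀ x ∈ Z, U.l a x ∈ Z)
    (hr : ∀ b, ∀ x ∈ Z, U.r b x ∈ Z) : KBi k R R' where
  M := Z
  l := LinearMap.mk₂ k (fun a x => ⟨U.l a x, hl a x x.2⟩)
    (fun a a' x => Subtype.ext (by simp)) (fun c a x => Subtype.ext (by simp))
    (fun a x x' => Subtype.ext (by simp)) (fun c a x => Subtype.ext (by simp))
  r := LinearMap.mk₂ k (fun b x => ⟨U.r b x, hr b x x.2⟩)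
    (fun a a' x => Subtype.ext (by simp)) (fun c a x => Subtype.ext (by simp))
    (fun a x x' => Subtype.ext (by simp)) (fun c a x => Subtype.ext (by simp))
  l_one := fun m => Subtype.ext (U.l_one m)
  r_one := fun m => Subtype.ext (U.r_one m)
  l_mul := fun a a' m => Subtype.ext (U.l_mul a a' m)
  r_mul := fun a a' m => Subtype.ext (U.r_mul a a' m)
  l_r := fun a a' m => Subtype.ext (U.l_r a a' m)

end sub

/-- the sub-bimodule over cospans -/
private def CohDecTri {S T : Cosp k} (M : Tri S T) (U0 : Submodule k M.M0.M)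
    (U1 : Submodule k M.M1.M) (U01 : Submodule k M.M01.M)
    (hl0 : ∀ a, ∀ x ∈ U0, M.M0.l a x ∈ U0) (hr0 : ∀ b, ∀ x ∈ U0, M.M0.r b x ∈ U0)
    (hl1 : ∀ a, ∀ x ∈ U1, M.M1.l a x ∈ U1) (hr1 : ∀ b, ∀ x ∈ U1, M.M1.r b x ∈ U1)
    (hl01 : ∀ a, ∀ x ∈ U01, M.M01.l a x ∈ U01) (hr01 : ∀ b, ∀ x ∈ U01, M.M01.r b x ∈ U01)
    (hρ0 : ∀ x ∈ U0, M.ρ0 x ∈ U01) (hρ1 : ∀ x ∈ U1, M.ρ1 x ∈ U01) : Tri S T where
  M0 := CohDecSub M.M0 U0 hl0 hr0
  M1 := CohDecSub M.M1 U1 hl1 hr1
  M01 := CohDecSub M.M01 U01 hl01 hr01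
  ρ0 := (M.ρ0.comp U0.subtype).codRestrict U01 (fun x => hρ0 x.1 x.2)
  ρ1 := (M.ρ1.comp U1.subtype).codRestrict U01 (fun x => hρ1 x.1 x.2)
  ρ0_l := fun a m => Subtype.ext (M.ρ0_l a m.1)
  ρ0_r := fun b m => Subtype.ext (M.ρ0_r b m.1)
  ρ1_l := fun a m => Subtype.ext (M.ρ1_l a m.1)
  ρ1_r := fun b m => Subtype.ext (M.ρ1_r b m.1)

/-- The torsion of a coherent bimodule, and the lattice pair which is the quotient, with the map
to the generic fibre. -/
theorem exists_dec_gen {S T : Cosp k} {M : Tri S T} {t0 : M.M0.M →ₗ[k] M.M0.M}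
    {s1 : M.M1.M →ₗ[k] M.M1.M} {t01 s01 : M.M01.M →ₗ[k] M.M01.M} (h : IsCohTri M t0 s1 t01 s01) :
    ∃ (τ : Tri S T) (G : GBi k S.A01 T.A01) (j : M.M01.M →ₗ[k] G.E) (N : LP k G.E)
      (hN : LP.Stable G N), (∀ a x, j (M.M01.l a x) = G.l a (j x)) ∧
      (∀ b x, j (M.M01.r b x) = G.r b (j x)) ∧ (∀ x, j (t01 x) = (X : RatFunc k) • j x) ∧
      (∀ v : G.E, ∃ (g : kk k X) (x : M.M01.M), g ≠ 0 ∧ g • v = j x) ∧ τ.Tors ∧
      IsSes τ.bim M.bim (LP.tri hN).bim := by
  obtain ⟨G, j, jl, jr, jt, jg, jk⟩ := exists_gen h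
  have hX : (X : RatFunc k) ≠ 0 := RatFunc.X_ne_zero
  have js : ∀ x, j (s01 x) = (X : RatFunc k)⁻¹ • j x := by
    intro x
    have h1 := jt (s01 x)
    rw [h.ts] at h1
    rw [h1, smul_smul, inv_mul_cancel₀ hX, one_smul]
  have jtn := CohDec_powX j t01 X jt
  have jsn := CohDec_powX j s01 (X : RatFunc k)⁻¹ js
  let j0 : M.M0.M →ₗ[k] G.E := j.comp M.ρ0
  let j1 : M.M1.M →ₗ[k] G.E := j.comp M.ρ1
  have j0t : ∀ m, j0 (t0 m) = (X : RatFunc k) • j0 m := fun m => by
    change j (M.ρ0 (t0 m)) = _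
    rw [h.ρ0, jt]
    rfl
  have j1s : ∀ m, j1 (s1 m) = (X : RatFunc k)⁻¹ • j1 m := fun m => by
    change j (M.ρ1 (s1 m)) = _
    rw [h.ρ1, js]
    rfl
  have inv1 : ∀ (n : ℕ) (v : G.E), ((X : RatFunc k)⁻¹) ^ n • (X : RatFunc k) ^ n • v = v := by
    intro n v
    rw [smul_smul, ← mul_pow, inv_mul_cancel₀ hX, one_pow, one_smul]
  have inv2 : ∀ (n : ℕ) (v : G.E), (X : RatFunc k) ^ n • ((X : RatFunc k)⁻¹) ^ n • v = v := by
    intro n v
    rw [smul_smul, ← mul_pow, mul_inv_cancel₀ hX, one_pow, one_smul]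
  let N0 : Submodule (kk k X) G.E :=
    { carrier := {v | ∃ x, j0 x = v}
      add_mem' := by
        rintro _ _ ⟨x, rfl⟩ ⟨y, rfl⟩
        exact ⟨x + y, map_add _ _ _⟩
      zero_mem' := ⟨0, map_zero _⟩
      smul_mem' := by
        rintro ⟨c, hc⟩ _ ⟨m, rfl⟩
        obtain ⟨p, rfl⟩ := mem_kk_X.1 hc
        exact ⟨Polynomial.aeval t0 p m, CohDec_aevalX j0 t0 X j0t p m⟩ }
  let N1 : Submodule (kk k X⁻¹) G.E :=
    { carrier := {v | ∃ x, j1 x = v}
      add_mem' := by
        rintro _ _ ⟨x, rfl⟩ ⟨y, rfl⟩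
        exact ⟨x + y, map_add _ _ _⟩
      zero_mem' := ⟨0, map_zero _⟩
      smul_mem' := by
        rintro ⟨c, hc⟩ _ ⟨m, rfl⟩
        obtain ⟨p, rfl⟩ := mem_kk_Xi.1 hc
        exact ⟨Polynomial.aeval s1 p m, CohDec_aevalX j1 s1 (X : RatFunc k)⁻¹ j1s p m⟩ }
  let N : LP k G.E :=
    { N0 := N0
      N1 := N1
      fg0 := CohDec_fg j0 t0 X j0t N0 (fun _ => Iff.rfl) h.fin0
      fg1 := CohDec_fg j1 s1 (X : RatFunc k)⁻¹ j1s N1 (fun _ => Iff.rfl) h.fin1
      sp0 := by
        rw [eq_top_iff]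
        intro v _
        obtain ⟨g, x, hg, hgx⟩ := jg v
        obtain ⟨n, a, ha⟩ := h.loc0 x
        have hg0 : (g : RatFunc k) ≠ 0 := fun h => hg (Subtype.ext h)
        have h1 : j0 a = (X : RatFunc k) ^ n • (g : RatFunc k) • v := by
          change j (M.ρ0 a) = _
          rw [← ha, jtn, ← hgx]
          rfl
        have h2 : v = (g : RatFunc k)⁻¹ • ((X : RatFunc k)⁻¹) ^ n • j0 a := by
          rw [h1, inv1, smul_smul, inv_mul_cancel₀ hg0, one_smul]
        rw [h2]
        refine Submodule.smul_mem _ _ (Submodule.smul_mem _ _ (Submodule.subset_span ?_))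
        exact ⟨a, rfl⟩
      sp1 := by
        rw [eq_top_iff]
        intro v _
        obtain ⟨g, x, hg, hgx⟩ := jg v
        obtain ⟨n, a, ha⟩ := h.loc1 x
        have hg0 : (g : RatFunc k) ≠ 0 := fun h => hg (Subtype.ext h)
        have h1 : j1 a = ((X : RatFunc k)⁻¹) ^ n • (g : RatFunc k) • v := by
          change j (M.ρ1 a) = _
          rw [← ha, jsn, ← hgx]
          rfl
        have h2 : v = (g : RatFunc k)⁻¹ • (X : RatFunc k) ^ n • j1 a := by
          rw [h1, inv2, smul_smul, inv_mul_cancel₀ hg0, one_smul]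
        rw [h2]
        refine Submodule.smul_mem _ _ (Submodule.smul_mem _ _ (Submodule.subset_span ?_))
        exact ⟨a, rfl⟩
      loc01 := by
        rintro _ ⟨m, rfl⟩
        obtain ⟨n, a, ha⟩ := h.loc1 (M.ρ0 m)
        refine ⟨n, a, ?_⟩
        change j (M.ρ1 a) = _
        rw [← ha, jsn]
        rfl
      loc10 := by
        rintro _ ⟨m, rfl⟩
        obtain ⟨n, a, ha⟩ := h.loc0 (M.ρ1 m)
        refine ⟨n, a, ?_⟩
        change j (M.ρ0 a) = _
        rw [← ha, jtn]
        rfl }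
  have hN01 : ∀ v, v ∈ N.N01 ↔ ∃ x, j x = v := by
    intro v
    constructor
    · rintro ⟨n, m, hm⟩
      refine ⟨(s01 ^ n) (M.ρ0 m), ?_⟩
      have hm' : j (M.ρ0 m) = (X : RatFunc k) ^ n • v := hm
      rw [jsn, hm', inv1]
    · rintro ⟨x, rfl⟩
      obtain ⟨n, a, ha⟩ := h.loc0 x
      refine ⟨n, a, ?_⟩
      change j (M.ρ0 a) = _
      rw [← ha, jtn]
  have hN : LP.Stable G N :=
    { l0 := by
        rintro a _ ⟨m, rfl⟩
        refine ⟨M.M0.l a m, ?_⟩
        change j (M.ρ0 (M.M0.l a m)) = _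
        rw [M.ρ0_l, jl]
        rfl
      r0 := by
        rintro b _ ⟨m, rfl⟩
        refine ⟨M.M0.r b m, ?_⟩
        change j (M.ρ0 (M.M0.r b m)) = _
        rw [M.ρ0_r, jr]
        rfl
      l1 := by
        rintro a _ ⟨m, rfl⟩
        refine ⟨M.M1.l a m, ?_⟩
        change j (M.ρ1 (M.M1.l a m)) = _
        rw [M.ρ1_l, jl]
        rfl
      r1 := by
        rintro b _ ⟨m, rfl⟩
        refine ⟨M.M1.r b m, ?_⟩
        change j (M.ρ1 (M.M1.r b m)) = _
        rw [M.ρ1_r, jr]
        rfl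
      l01 := by
        intro a v hv
        obtain ⟨x, rfl⟩ := (hN01 v).1 hv
        exact (hN01 _).2 ⟨M.M01.l a x, jl a x⟩
      r01 := by
        intro b v hv
        obtain ⟨x, rfl⟩ := (hN01 v).1 hv
        exact (hN01 _).2 ⟨M.M01.r b x, jr b x⟩ }
  let τ : Tri S T := CohDecTri M (LinearMap.ker j0) (LinearMap.ker j1) (LinearMap.ker j)
    (fun a x hx => by
      rw [LinearMap.mem_ker] at hx ⊢
      change j (M.ρ0 (M.M0.l a x)) = 0
      have hx' : j (M.ρ0 x) = 0 := hx
      rw [M.ρ0_l, jl, hx', map_zero])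
    (fun b x hx => by
      rw [LinearMap.mem_ker] at hx ⊢
      change j (M.ρ0 (M.M0.r b x)) = 0
      have hx' : j (M.ρ0 x) = 0 := hx
      rw [M.ρ0_r, jr, hx', map_zero])
    (fun a x hx => by
      rw [LinearMap.mem_ker] at hx ⊢
      change j (M.ρ1 (M.M1.l a x)) = 0
      have hx' : j (M.ρ1 x) = 0 := hx
      rw [M.ρ1_l, jl, hx', map_zero])
    (fun b x hx => by
      rw [LinearMap.mem_ker] at hx ⊢
      change j (M.ρ1 (M.M1.r b x)) = 0
      have hx' : j (M.ρ1 x) = 0 := hx
      rw [M.ρ1_r, jr, hx', map_zero])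
    (fun a x hx => by
      rw [LinearMap.mem_ker] at hx ⊢
      rw [jl, hx, map_zero])
    (fun b x hx => by
      rw [LinearMap.mem_ker] at hx ⊢
      rw [jr, hx, map_zero])
    (fun x hx => hx) (fun x hx => hx)
  have htor0 : ∀ x ∈ LinearMap.ker j0, ∃ p : Polynomial k, p ≠ 0 ∧
      Polynomial.aeval t0 p x = 0 := by
    intro x hx
    obtain ⟨p, hp, hpx⟩ := (jk (M.ρ0 x)).1 hx
    rw [← CohDec_aeval M.ρ0 t0 t01 h.ρ0] at hpx
    obtain ⟨n, hn⟩ := h.ker0 _ hpx
    refine ⟨Polynomial.X ^ n * p, mul_ne_zero (pow_ne_zero _ Polynomial.X_ne_zero) hp, ?_⟩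
    rw [map_mul, map_pow, Polynomial.aeval_X, Module.End.mul_apply, hn]
  have htor1 : ∀ x ∈ LinearMap.ker j1, ∃ p : Polynomial k, p ≠ 0 ∧
      Polynomial.aeval s1 p x = 0 := by
    intro x hx
    obtain ⟨p', hp', hpx'⟩ := (jk (M.ρ1 x)).1 hx
    obtain ⟨p, hp, hpx⟩ := CohDec_rev h.st hp' hpx'
    rw [← CohDec_aeval M.ρ1 s1 s01 h.ρ1] at hpx
    obtain ⟨n, hn⟩ := h.ker1 _ hpx
    refine ⟨Polynomial.X ^ n * p, mul_ne_zero (pow_ne_zero _ Polynomial.X_ne_zero) hp, ?_⟩
    rw [map_mul, map_pow, Polynomial.aeval_X, Module.End.mul_apply, hn]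
  have hs0 : Function.Surjective τ.ρ0 := by
    rintro ⟨x, hx⟩
    obtain ⟨p, hp, hpx⟩ := (jk x).1 hx
    obtain ⟨a, ha⟩ := CohDec_surj h.st h.ts M.ρ0 h.ρ0 hp hpx (h.loc0 x)
    refine ⟨⟨a, ?_⟩, Subtype.ext ha⟩
    change j (M.ρ0 a) = 0
    rw [ha]
    exact hx
  have hs1 : Function.Surjective τ.ρ1 := by
    rintro ⟨x, hx⟩
    obtain ⟨p', hp', hpx'⟩ := (jk x).1 hx
    obtain ⟨p, hp, hpx⟩ := CohDec_rev h.st hp' hpx'
    obtain ⟨a, ha⟩ := CohDec_surj h.ts h.st M.ρ1 h.ρ1 hp hpx (h.loc1 x)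
    refine ⟨⟨a, ?_⟩, Subtype.ext ha⟩
    change j (M.ρ1 a) = 0
    rw [ha]
    exact hx
  have hf0 : Module.Finite k (LinearMap.ker j0) := by
    obtain ⟨F, hF⟩ := h.fin0
    refine CohDec_fin t0 F hF _ (fun x hx => ?_) htor0
    rw [LinearMap.mem_ker] at hx ⊢
    rw [j0t, hx, smul_zero]
  have hf1 : Module.Finite k (LinearMap.ker j1) := by
    obtain ⟨F, hF⟩ := h.fin1
    refine CohDec_fin s1 F hF _ (fun x hx => ?_) htor1
    rw [LinearMap.mem_ker] at hx ⊢
    rw [j1s, hx, smul_zero]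
  have hf0' : Module.Finite k τ.M0.M := hf0
  have hf01 : Module.Finite k τ.M01.M := Module.Finite.of_surjective τ.ρ0 hs0
  let i : Tri.Hom τ M :=
    { f0 := (LinearMap.ker j0).subtype
      f1 := (LinearMap.ker j1).subtype
      f01 := (LinearMap.ker j).subtype
      l0 := fun _ _ => rfl
      r0 := fun _ _ => rfl
      l1 := fun _ _ => rfl
      r1 := fun _ _ => rfl
      l01 := fun _ _ => rfl
      r01 := fun _ _ => rfl
      ρ0 := fun _ => rfl
      ρ1 := fun _ => rfl }
  let f0 : M.M0.M →ₗ[k] (LP.tri hN).M0.M :=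
    { toFun := fun x => (⟨j0 x, x, rfl⟩ : N.N0)
      map_add' := fun x y => Subtype.ext (map_add j0 x y)
      map_smul' := fun c x => Subtype.ext (map_smul j0 c x) }
  let f1 : M.M1.M →ₗ[k] (LP.tri hN).M1.M :=
    { toFun := fun x => (⟨j1 x, x, rfl⟩ : N.N1)
      map_add' := fun x y => Subtype.ext (map_add j1 x y)
      map_smul' := fun c x => Subtype.ext (map_smul j1 c x) }
  let f01 : M.M01.M →ₗ[k] (LP.tri hN).M01.M :=
    { toFun := fun x => (⟨j x, (hN01 _).2 ⟨x, rfl⟩⟩ : N.N01)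
      map_add' := fun x y => Subtype.ext (map_add j x y)
      map_smul' := fun c x => Subtype.ext (map_smul j c x) }
  let p : Tri.Hom M (LP.tri hN) :=
    { f0 := f0
      f1 := f1
      f01 := f01
      l0 := fun a x => Subtype.ext (by
        change j (M.ρ0 (M.M0.l a x)) = G.l (S.r0 a) (j (M.ρ0 x))
        rw [M.ρ0_l, jl])
      r0 := fun a x => Subtype.ext (by
        change j (M.ρ0 (M.M0.r a x)) = G.r (T.r0 a) (j (M.ρ0 x))
        rw [M.ρ0_r, jr])
      l1 := fun a x => Subtype.ext (by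
        change j (M.ρ1 (M.M1.l a x)) = G.l (S.r1 a) (j (M.ρ1 x))
        rw [M.ρ1_l, jl])
      r1 := fun a x => Subtype.ext (by
        change j (M.ρ1 (M.M1.r a x)) = G.r (T.r1 a) (j (M.ρ1 x))
        rw [M.ρ1_r, jr])
      l01 := fun a x => Subtype.ext (jl a x)
      r01 := fun a x => Subtype.ext (jr a x)
      ρ0 := fun _ => rfl
      ρ1 := fun _ => rfl }
  refine ⟨τ, G, j, N, hN, jl, jr, jt, jg, ⟨hf0, hf1, hf01, hs0, hs1⟩, Tri.isSes i p
    (LinearMap.ker j0).injective_subtype (LinearMap.ker j1).injective_subtype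
    (LinearMap.ker j).injective_subtype ?_ ?_ ?_ ?_ ?_ ?_⟩
  · rintro ⟨_, x, rfl⟩
    exact ⟨x, rfl⟩
  · rintro ⟨_, x, rfl⟩
    exact ⟨x, rfl⟩
  · rintro ⟨v, hv⟩
    obtain ⟨x, rfl⟩ := (hN01 v).1 hv
    exact ⟨x, rfl⟩
  · intro x
    constructor
    · intro hx
      have h1 : j0 x = 0 := congrArg (fun z : N.N0 => z.1) hx
      exact ⟨⟨x, h1⟩, rfl⟩
    · rintro ⟨⟨y, hy⟩, rfl⟩
      exact Subtype.ext hy
  · intro x
    constructor
    · intro hx
      have h1 : j1 x = 0 := congrArg (fun z : N.N1 => z.1) hx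
      exact ⟨⟨x, h1⟩, rfl⟩
    · rintro ⟨⟨y, hy⟩, rfl⟩
      exact Subtype.ext hy
  · intro x
    constructor
    · intro hx
      have h1 : j x = 0 := congrArg (fun z : N.N01 => z.1) hx
      exact ⟨⟨x, h1⟩, rfl⟩
    · rintro ⟨⟨y, hy⟩, rfl⟩
      exact Subtype.ext hy

/-- The torsion of a coherent bimodule, and the lattice pair which is the quotient. -/
theorem exists_dec {S T : Cosp k} {M : Tri S T} {t0 : M.M0.M →ₗ[k] M.M0.M}
    {s1 : M.M1.M →ₗ[k] M.M1.M} {t01 s01 : M.M01.M →ₗ[k] M.M01.M} (h : IsCohTri M t0 s1 t01 s01) :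
    ∃ (τ : Tri S T) (G : GBi k S.A01 T.A01) (N : LP k G.E) (hN : LP.Stable G N), τ.Tors ∧
      IsSes τ.bim M.bim (LP.tri hN).bim := by
  obtain ⟨τ, G, _, N, hN, _, _, _, _, h1, h2⟩ := exists_dec_gen h
  exact ⟨τ, G, N, hN, h1, h2⟩

theorem finCoh_coh {S T : Cosp k} {M : Tri S T} {t0 : M.M0.M →ₗ[k] M.M0.M}
    {s1 : M.M1.M →ₗ[k] M.M1.M} {t01 s01 : M.M01.M →ₗ[k] M.M01.M} (h : IsCohTri M t0 s1 t01 s01) :
    M.bim.dg.FinCoh := by
  obtain ⟨τ, G, N, hN, ⟨h0, h1, h01, _, _⟩, hses⟩ := exists_dec h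
  refine hses.finCoh_mid (Tri.finCoh τ ?_ ?_) (LP.finCoh hN)
  · infer_instance
  · infer_instance

theorem proper_coh {A : Cosp k} {t : A.A0} {s : A.A1} (h : IsCoh A t s) : Proper A.cech := by
  rw [proper_iff]
  exact finCoh_coh h.tri

end Pool.Agent.MP_6e5bed_ag_NC
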