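import Pool.Agent.Lib.MP_6e5bed_ag_CV.LP

set_option autoImplicit false
set_option linter.unusedSectionVars false

/-!
# Bimodules over the generic point: sub-bimodules, quotients, filtrations
-/

namespace Pool.Agent.MP_6e5bed_ag_NC

open RatFunc

universe u

variable {k : Type u} [Field k]

namespace GBi

variable {R R' : Type u} [Ring R] [Algebra k R] [Ring R'] [Algebra k R']

/-- `U` is a sub-bimodule. -/
def Stab (G : GBi k R R') (U : Submodule (RatFunc k) G.E) : Prop :=
  (∀ a, ∀ x ∈ U, G.l a x ∈ U) ∧ ∀ b, ∀ x ∈ U, G.r b x ∈ U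

/-- The sub-bimodule. -/
noncomputable def sub (G : GBi k R R') (U : Submodule (RatFunc k) G.E) (hU : G.Stab U) :
    GBi k R R' where
  E := U
  l := LinearMap.mk₂' k (RatFunc k) (fun a x => ⟨G.l a x.1, hU.1 a x.1 x.2⟩)
    (fun a a' v => Subtype.ext (by simp)) (fun c a v => Subtype.ext (by simp))
    (fun a v v' => Subtype.ext (by simp)) (fun c a v => Subtype.ext (by simp))
  r := LinearMap.mk₂' k (RatFunc k) (fun b x => ⟨G.r b x.1, hU.2 b x.1 x.2⟩)
    (fun a a' v => Subtype.ext (by simp)) (fun c a v => Subtype.ext (by simp))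
    (fun a v v' => Subtype.ext (by simp)) (fun c a v => Subtype.ext (by simp))
  l_one := fun v => Subtype.ext (by simp [G.l_one])
  r_one := fun v => Subtype.ext (by simp [G.r_one])
  l_mul := fun a a' v => Subtype.ext (by simp [G.l_mul])
  r_mul := fun a a' v => Subtype.ext (by simp [G.r_mul])
  l_r := fun a b v => Subtype.ext (by simp [G.l_r])

/-- The quotient bimodule. -/
noncomputable def quot (G : GBi k R R') (U : Submodule (RatFunc k) G.E) (hU : G.Stab U) :
    GBi k R R' where
  E := G.E ⧸ U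
  l :=
    { toFun := fun a => U.mapQ U (G.l a) (fun x hx => hU.1 a x hx)
      map_add' := fun a a' => by ext x; simp
      map_smul' := fun c a => by ext x; simp }
  r :=
    { toFun := fun a => U.mapQ U (G.r a) (fun x hx => hU.2 a x hx)
      map_add' := fun a a' => by ext x; simp
      map_smul' := fun c a => by ext x; simp }
  l_one := fun v => by
    obtain ⟨v, rfl⟩ := U.mkQ_surjective v
    simp [G.l_one]
  r_one := fun v => by
    obtain ⟨v, rfl⟩ := U.mkQ_surjective v
    simp [G.r_one]
  l_mul := fun a a' v => by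
    obtain ⟨v, rfl⟩ := U.mkQ_surjective v
    simp [G.l_mul]
  r_mul := fun a a' v => by
    obtain ⟨v, rfl⟩ := U.mkQ_surjective v
    simp [G.r_mul]
  l_r := fun a b v => by
    obtain ⟨v, rfl⟩ := U.mkQ_surjective v
    simp [G.l_r]

/-- Isomorphism. -/
def Iso (G G' : GBi k R R') : Prop := ∃ f : G.E ≃ₗ[RatFunc k] G'.E,
  (∀ a x, f (G.l a x) = G'.l a (f x)) ∧ ∀ b x, f (G.r b x) = G'.r b (f x)

/-- `G` has no sub-bimodules except `0` and `G`, which are different. -/
def Simple (G : GBi k R R') : Prop := Nontrivial G.E ∧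
  ∀ U : Submodule (RatFunc k) G.E, G.Stab U → U = ⊥ ∨ U = ⊤

/-- `G` has a filtration with `n` subquotients, all of them isomorphic to `G₀`. -/
inductive Ser (G₀ : GBi k R R') : GBi k R R' → ℕ → Prop
  | zero {G : GBi k R R'} : Subsingleton G.E → Ser G₀ G 0
  | step {G : GBi k R R'} {n : ℕ} (U : Submodule (RatFunc k) G.E) (hU : G.Stab U) :
      Ser G₀ (G.sub U hU) n → Iso (G.quot U hU) G₀ → Ser G₀ G (n + 1)

end GBi

end Pool.Agent.MP_6e5bed_ag_NC
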