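import Pool.Agent.Lib.MP_6e5bed_ag_CV.Coh
import Pool.Agent.Lib.MP_6e5bed_ag_CV.LPA
import Pool.Agent.Lib.MP_6e5bed_ag_CV.KK

set_option autoImplicit false
set_option linter.unusedSectionVars false

/-!
# The generic fibre of a coherent bimodule (NC CURVES)
-/

namespace Pool.Agent.MP_6e5bed_ag_NC

open RatFunc
open scoped TensorProduct

universe u

variable {k : Type u} [Field k]

section

variable {V : Type u} [AddCommGroup V] [Module k V] (t : V →ₗ[k] V)

/-- the localization -/
private abbrev CGE : Type u := RatFunc k ⊗[Polynomial k] Module.AEval' t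

/-- the map to the localization -/
private noncomputable def CGj : V →ₗ[k] CGE t where
  toFun v := 1 ⊗ₜ[Polynomial k] Module.AEval'.of t v
  map_add' v w := by rw [map_add, TensorProduct.tmul_add]
  map_smul' c v := by
    rw [map_smul, ← Module.AEval.C_smul, TensorProduct.tmul_smul, RingHom.id_apply,
      TensorProduct.smul_tmul', TensorProduct.smul_tmul']
    congr 1
    rw [Algebra.smul_def, Algebra.smul_def]
    rfl

private theorem CGj_t (v : V) : CGj t (t v) = (X : RatFunc k) • CGj t v := by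
  show (1 : RatFunc k) ⊗ₜ[Polynomial k] Module.AEval'.of t (t v) =
    (X : RatFunc k) • ((1 : RatFunc k) ⊗ₜ[Polynomial k] Module.AEval'.of t v)
  rw [← Module.AEval'.X_smul_of, TensorProduct.tmul_smul, TensorProduct.smul_tmul',
    TensorProduct.smul_tmul']
  congr 1
  rw [Algebra.smul_def, RatFunc.algebraMap_X]
  rfl

private theorem CGj_pow (v : V) (n : ℕ) : CGj t ((t ^ n) v) = (X : RatFunc k) ^ n • CGj t v := by
  induction n with
  | zero => simp
  | succ n ih => rw [pow_succ', Module.End.mul_apply, CGj_t, ih, pow_succ', mul_smul]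

/-- an endomorphism commuting with `t` acts on the localization -/
private noncomputable def CGm (f : V →ₗ[k] V) (hf : ∀ v, t (f v) = f (t v)) :
    CGE t →ₗ[RatFunc k] CGE t :=
  (LinearMap.ofAEval t ((Module.AEval'.of t).toLinearMap.comp f) (fun v => by
    show Module.AEval'.of t (f (t v)) = (Polynomial.X : Polynomial k) • Module.AEval'.of t (f v)
    rw [Module.AEval'.X_smul_of, hf])).baseChange (RatFunc k)

private theorem CGm_tmul (f : V →ₗ[k] V) (hf : ∀ v, t (f v) = f (t v)) (c : RatFunc k) (v : V) :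
    CGm t f hf (c ⊗ₜ[Polynomial k] Module.AEval'.of t v) =
      c ⊗ₜ[Polynomial k] Module.AEval'.of t (f v) := rfl

private theorem CGm_j (f : V →ₗ[k] V) (hf : ∀ v, t (f v) = f (t v)) (v : V) :
    CGm t f hf (CGj t v) = CGj t (f v) := rfl

private theorem CG_ext {W : Type*} [AddCommGroup W] [Module (RatFunc k) W]
    {f g : CGE t →ₗ[RatFunc k] W} (h : ∀ v, f (CGj t v) = g (CGj t v)) : f = g := by
  refine LinearMap.ext fun x => ?_
  induction x using TensorProduct.induction_on with
  | zero => rw [map_zero, map_zero]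
  | add x y hx hy => rw [map_add, map_add, hx, hy]
  | tmul c v =>
    have : c ⊗ₜ[Polynomial k] v = c • CGj t ((Module.AEval'.of t).symm v) := by
      show c ⊗ₜ[Polynomial k] v = c • ((1 : RatFunc k) ⊗ₜ[Polynomial k] v)
      rw [TensorProduct.smul_tmul', smul_eq_mul, mul_one]
    rw [this, map_smul, map_smul, h]

private theorem CG_span (c : CGE t) : c ∈ Submodule.span (RatFunc k) (Set.range (CGj t)) := by
  induction c using TensorProduct.induction_on with
  | zero => exact Submodule.zero_mem _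
  | add x y hx hy => exact Submodule.add_mem _ hx hy
  | tmul c v =>
    have : c ⊗ₜ[Polynomial k] v = c • CGj t ((Module.AEval'.of t).symm v) := by
      show c ⊗ₜ[Polynomial k] v = c • ((1 : RatFunc k) ⊗ₜ[Polynomial k] v)
      rw [TensorProduct.smul_tmul', smul_eq_mul, mul_one]
    rw [this]
    exact Submodule.smul_mem _ _ (Submodule.subset_span ⟨_, rfl⟩)

private theorem CG_fin (F : Finset V) (hF : ∀ x, ∃ n : ℕ, (t ^ n) x ∈
    Submodule.span k {x | ∃ y ∈ F, ∃ n : ℕ, x = (t ^ n) y}) :
    FiniteDimensional (RatFunc k) (CGE t) := by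
  have hX : (X : RatFunc k) ≠ 0 := RatFunc.X_ne_zero
  classical
  refine ⟨⟨F.image (CGj t), ?_⟩⟩
  rw [eq_top_iff]
  intro c _
  refine Submodule.span_le.2 ?_ (CG_span t c)
  rintro _ ⟨x, rfl⟩
  obtain ⟨n, hn⟩ := hF x
  have h1 : CGj t ((t ^ n) x) ∈ Submodule.span (RatFunc k) ((F.image (CGj t) : Finset _) :
      Set (CGE t)) := by
    refine Submodule.span_induction (p := fun y _ => CGj t y ∈ Submodule.span (RatFunc k)
      ((F.image (CGj t) : Finset _) : Set (CGE t))) ?_ ?_ ?_ ?_ hn
    · rintro _ ⟨y, hy, m, rfl⟩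
      rw [CGj_pow]
      exact Submodule.smul_mem _ _ (Submodule.subset_span
        (Finset.mem_coe.2 (Finset.mem_image_of_mem _ hy)))
    · rw [map_zero]
      exact Submodule.zero_mem _
    · intro a b _ _ ha hb
      rw [map_add]
      exact Submodule.add_mem _ ha hb
    · intro c a _ ha
      rw [map_smul, ← algebraMap_smul (RatFunc k) c (CGj t a)]
      exact Submodule.smul_mem _ _ ha
  rw [CGj_pow] at h1
  have h2 := Submodule.smul_mem _ ((X : RatFunc k) ^ n)⁻¹ h1
  rwa [smul_smul, inv_mul_cancel₀ (pow_ne_zero n hX), one_smul] at h2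

private theorem CG_surj (v : CGE t) : ∃ (g : kk k X) (x : V), g ≠ 0 ∧ g • v = CGj t x := by
  obtain ⟨⟨x, s⟩, h⟩ := IsLocalizedModule.surj (nonZeroDivisors (Polynomial k))
    (TensorProduct.mk (Polynomial k) (RatFunc k) (Module.AEval' t) 1) v
  refine ⟨⟨algebraMap _ _ (s : Polynomial k), mem_kk_X.2 ⟨_, aeval_X_left_eq_algebraMap _⟩⟩,
    (Module.AEval'.of t).symm x, ?_, ?_⟩
  · intro h0
    have h1 : algebraMap (Polynomial k) (RatFunc k) (s : Polynomial k) = 0 :=
      congrArg Subtype.val h0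
    exact RatFunc.algebraMap_ne_zero (nonZeroDivisors.ne_zero s.2) h1
  · rw [Subalgebra.smul_def]
    show (algebraMap (Polynomial k) (RatFunc k) (s : Polynomial k)) • v = _
    rw [algebraMap_smul]
    exact h

private theorem CG_ker (x : V) : CGj t x = 0 ↔
    ∃ p : Polynomial k, p ≠ 0 ∧ Polynomial.aeval t p x = 0 := by
  have h := IsLocalizedModule.eq_zero_iff (nonZeroDivisors (Polynomial k))
    (TensorProduct.mk (Polynomial k) (RatFunc k) (Module.AEval' t) 1)
    (m := Module.AEval'.of t x)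
  constructor
  · intro h0
    obtain ⟨s, hs⟩ := h.1 h0
    exact ⟨s, nonZeroDivisors.ne_zero s.2, hs⟩
  · rintro ⟨p, hp, hpx⟩
    exact h.2 ⟨⟨p, mem_nonZeroDivisors_of_ne_zero hp⟩, hpx⟩

end

/-- The generic fibre `K ⊗ M01`: the localization of `M01` with respect to the nonzero
polynomials in `t`. -/
theorem exists_gen {S T : Cosp k} {M : Tri S T} {t0 : M.M0.M →ₗ[k] M.M0.M}
    {s1 : M.M1.M →ₗ[k] M.M1.M} {t01 s01 : M.M01.M →ₗ[k] M.M01.M} (h : IsCohTri M t0 s1 t01 s01) :
    ∃ (G : GBi k S.A01 T.A01) (j : M.M01.M →ₗ[k] G.E),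
      (∀ a x, j (M.M01.l a x) = G.l a (j x)) ∧ (∀ b x, j (M.M01.r b x) = G.r b (j x)) ∧
      (∀ x, j (t01 x) = (X : RatFunc k) • j x) ∧
      (∀ v : G.E, ∃ (g : kk k X) (x : M.M01.M), g ≠ 0 ∧ g • v = j x) ∧
      ∀ x, j x = 0 ↔ ∃ p : Polynomial k, p ≠ 0 ∧ Polynomial.aeval t01 p x = 0 := by
  classical
  obtain ⟨F, hF⟩ := h.fin0
  have hρ : ∀ (n : ℕ) y, M.ρ0 ((t0 ^ n) y) = (t01 ^ n) (M.ρ0 y) := by
    intro n
    induction n with
    | zero => intro y; rfl
    | succ n ih => intro y; rw [pow_succ', pow_succ', Module.End.mul_apply, Module.End.mul_apply,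
        h.ρ0, ih]
  have hfin : FiniteDimensional (RatFunc k) (CGE t01) := by
    refine CG_fin t01 (F.image M.ρ0) fun x => ?_
    obtain ⟨n, a, hn⟩ := h.loc0 x
    refine ⟨n, ?_⟩
    rw [hn]
    refine Submodule.span_induction (p := fun a _ => M.ρ0 a ∈
      Submodule.span k {x | ∃ y ∈ F.image M.ρ0, ∃ n : ℕ, x = (t01 ^ n) y}) ?_ ?_ ?_ ?_ (hF a)
    · rintro _ ⟨y, hy, m, rfl⟩
      exact Submodule.subset_span ⟨M.ρ0 y, Finset.mem_image_of_mem _ hy, m, hρ m y⟩
    · rw [map_zero]
      exact Submodule.zero_mem _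
    · intro a b _ _ ha hb
      rw [map_add]
      exact Submodule.add_mem _ ha hb
    · intro c a _ ha
      rw [map_smul]
      exact Submodule.smul_mem _ _ ha
  refine ⟨{
    E := CGE t01
    fin := hfin
    l :=
      { toFun := fun a => CGm t01 (M.M01.l a) (fun v => h.l01 a v)
        map_add' := fun a b => CG_ext t01 fun v => by
          rw [LinearMap.add_apply, CGm_j, CGm_j, CGm_j, map_add, LinearMap.add_apply, map_add]
        map_smul' := fun c a => CG_ext t01 fun v => by
          rw [RingHom.id_apply, LinearMap.smul_apply, CGm_j, CGm_j, map_smul,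
            LinearMap.smul_apply, map_smul] }
    r :=
      { toFun := fun a => CGm t01 (M.M01.r a) (fun v => h.r01 a v)
        map_add' := fun a b => CG_ext t01 fun v => by
          rw [LinearMap.add_apply, CGm_j, CGm_j, CGm_j, map_add, LinearMap.add_apply, map_add]
        map_smul' := fun c a => CG_ext t01 fun v => by
          rw [RingHom.id_apply, LinearMap.smul_apply, CGm_j, CGm_j, map_smul,
            LinearMap.smul_apply, map_smul] }
    l_one := ?_
    r_one := ?_
    l_mul := ?_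
    r_mul := ?_
    l_r := ?_ }, CGj t01, fun a x => rfl, fun a x => rfl, CGj_t t01, CG_surj t01, CG_ker t01⟩
  · exact fun m => LinearMap.congr_fun (CG_ext t01 (f := CGm t01 (M.M01.l 1) (h.l01 1))
      (g := LinearMap.id) fun v => by rw [CGm_j, M.M01.l_one, LinearMap.id_apply]) m
  · exact fun m => LinearMap.congr_fun (CG_ext t01 (f := CGm t01 (M.M01.r 1) (h.r01 1))
      (g := LinearMap.id) fun v => by rw [CGm_j, M.M01.r_one, LinearMap.id_apply]) m
  · exact fun a a' m => LinearMap.congr_fun (CG_ext t01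
      (f := CGm t01 (M.M01.l (a * a')) (h.l01 _))
      (g := (CGm t01 (M.M01.l a) (h.l01 a)).comp (CGm t01 (M.M01.l a') (h.l01 a'))) fun v => by
        rw [LinearMap.comp_apply, CGm_j, CGm_j, CGm_j, M.M01.l_mul]) m
  · exact fun a a' m => LinearMap.congr_fun (CG_ext t01
      (f := CGm t01 (M.M01.r (a * a')) (h.r01 _))
      (g := (CGm t01 (M.M01.r a') (h.r01 a')).comp (CGm t01 (M.M01.r a) (h.r01 a))) fun v => by
        rw [LinearMap.comp_apply, CGm_j, CGm_j, CGm_j, M.M01.r_mul]) m
  · exact fun a b m => LinearMap.congr_fun (CG_ext t01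
      (f := (CGm t01 (M.M01.l a) (h.l01 a)).comp (CGm t01 (M.M01.r b) (h.r01 b)))
      (g := (CGm t01 (M.M01.r b) (h.r01 b)).comp (CGm t01 (M.M01.l a) (h.l01 a))) fun v => by
        rw [LinearMap.comp_apply, LinearMap.comp_apply, CGm_j, CGm_j, CGm_j, CGm_j,
          M.M01.l_r]) m

end Pool.Agent.MP_6e5bed_ag_NC
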