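import Pool.Agent.Lib.MP_6e5bed_ag_CV.LPA
import Pool.Agent.Lib.MP_6e5bed_ag_CV.KK

set_option autoImplicit false
set_option linter.unusedSectionVars false

/-!
# Corners of lattice pairs (NC CURVES)
-/

namespace Pool.Agent.MP_6e5bed_ag_NC

open RatFunc
open scoped TensorProduct

universe u

variable {k : Type u} [Field k]

section

variable {R R₁ R' : Type u} [Ring R] [Algebra k R] [Ring R₁] [Algebra k R₁] [Ring R']
  [Algebra k R']

/-- The bimodule `e E` for `e = φ 1`. -/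
noncomputable def GBi.corner (G : GBi k R R') (φ : R₁ →ₗ[k] R)
    (hφ : ∀ a b, φ (a * b) = φ a * φ b) : GBi k R₁ R' where
  E := LinearMap.ker (G.l (φ 1) - LinearMap.id)
  l := LinearMap.mk₂' k (RatFunc k) (fun a x => ⟨G.l (φ a) x.1, by
      rw [LinearMap.mem_ker, LinearMap.sub_apply, LinearMap.id_apply, ← G.l_mul, ← hφ, one_mul,
        sub_self]⟩)
    (fun a a' v => Subtype.ext (by simp)) (fun c a v => Subtype.ext (by simp))
    (fun a v v' => Subtype.ext (by simp)) (fun c a v => Subtype.ext (by simp))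
  r := LinearMap.mk₂' k (RatFunc k) (fun b x => ⟨G.r b x.1, by
      have h := x.2
      rw [LinearMap.mem_ker, LinearMap.sub_apply, LinearMap.id_apply, sub_eq_zero] at h ⊢
      rw [G.l_r, h]⟩)
    (fun a a' v => Subtype.ext (by simp)) (fun c a v => Subtype.ext (by simp))
    (fun a v v' => Subtype.ext (by simp)) (fun c a v => Subtype.ext (by simp))
  l_one := fun x => Subtype.ext (by
    have h := x.2
    rw [LinearMap.mem_ker, LinearMap.sub_apply, LinearMap.id_apply, sub_eq_zero] at h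
    exact h)
  r_one := fun v => Subtype.ext (by simp [G.r_one])
  l_mul := fun a a' v => Subtype.ext (by simp [hφ, G.l_mul])
  r_mul := fun a a' v => Subtype.ext (by simp [G.r_mul])
  l_r := fun a b v => Subtype.ext (by simp [G.l_r])

theorem GBi.corner_l (G : GBi k R R') (φ : R₁ →ₗ[k] R) (hφ : ∀ a b, φ (a * b) = φ a * φ b)
    (a : R₁) (x : (G.corner φ hφ).E) : ((G.corner φ hφ).l a x).1 = G.l (φ a) x.1 := rfl

theorem GBi.corner_r (G : GBi k R R') (φ : R₁ →ₗ[k] R) (hφ : ∀ a b, φ (a * b) = φ a * φ b)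
    (b : R') (x : (G.corner φ hφ).E) : ((G.corner φ hφ).r b x).1 = G.r b x.1 := rfl

/-- The inclusion of the corner. -/
private noncomputable def caIn (G : GBi k R R') (φ : R₁ →ₗ[k] R)
    (hφ : ∀ a b, φ (a * b) = φ a * φ b) : (G.corner φ hφ).E →ₗ[RatFunc k] G.E :=
  (LinearMap.ker (G.l (φ 1) - LinearMap.id)).subtype

/-- The projection to the corner. -/
private noncomputable def caPr (G : GBi k R R') (φ : R₁ →ₗ[k] R)
    (hφ : ∀ a b, φ (a * b) = φ a * φ b) : G.E →ₗ[RatFunc k] (G.corner φ hφ).E :=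
  LinearMap.codRestrict (LinearMap.ker (G.l (φ 1) - LinearMap.id)) (G.l (φ 1)) (fun y => by
    rw [LinearMap.mem_ker, LinearMap.sub_apply, LinearMap.id_apply, ← G.l_mul, ← hφ, one_mul,
      sub_self])

private theorem caIn_caPr (G : GBi k R R') (φ : R₁ →ₗ[k] R)
    (hφ : ∀ a b, φ (a * b) = φ a * φ b) (y : G.E) :
    caIn G φ hφ (caPr G φ hφ y) = G.l (φ 1) y := rfl

private theorem caIn_inj (G : GBi k R R') (φ : R₁ →ₗ[k] R)
    (hφ : ∀ a b, φ (a * b) = φ a * φ b) : Function.Injective (caIn G φ hφ) :=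
  Submodule.injective_subtype _

private theorem caIn_fix (G : GBi k R R') (φ : R₁ →ₗ[k] R)
    (hφ : ∀ a b, φ (a * b) = φ a * φ b) (x : (G.corner φ hφ).E) :
    G.l (φ 1) (caIn G φ hφ x) = caIn G φ hφ x := by
  have h := x.2
  rw [LinearMap.mem_ker, LinearMap.sub_apply, LinearMap.id_apply, sub_eq_zero] at h
  exact h

private theorem caPr_caIn (G : GBi k R R') (φ : R₁ →ₗ[k] R)
    (hφ : ∀ a b, φ (a * b) = φ a * φ b) (x : (G.corner φ hφ).E) :
    caPr G φ hφ (caIn G φ hφ x) = x := by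
  apply caIn_inj G φ hφ
  rw [caIn_caPr, caIn_fix]

private theorem caIn_l (G : GBi k R R') (φ : R₁ →ₗ[k] R)
    (hφ : ∀ a b, φ (a * b) = φ a * φ b) (a : R₁) (x : (G.corner φ hφ).E) :
    caIn G φ hφ ((G.corner φ hφ).l a x) = G.l (φ a) (caIn G φ hφ x) := rfl

private theorem caIn_r (G : GBi k R R') (φ : R₁ →ₗ[k] R)
    (hφ : ∀ a b, φ (a * b) = φ a * φ b) (b : R') (x : (G.corner φ hφ).E) :
    caIn G φ hφ ((G.corner φ hφ).r b x) = G.r b (caIn G φ hφ x) := rfl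

end

private theorem ca_one0 {A S : Cosp k} (φ : NCosp A S) : φ.f01 1 = S.r0 (φ.f0 1) := by
  rw [← φ.r0, map_one A.r0]

private theorem ca_one1 {A S : Cosp k} (φ : NCosp A S) : φ.f01 1 = S.r1 (φ.f1 1) := by
  rw [← φ.r1, map_one A.r1]

private theorem ca_comap0 {A S T : Cosp k} (φ : NCosp A S) (G : GBi k S.A01 T.A01)
    {N : LP k G.E} (h : LP.Stable G N) :
    N.N0.comap ((caIn G φ.f01 φ.mul01).restrictScalars (kk k X)) =
      N.N0.map ((caPr G φ.f01 φ.mul01).restrictScalars (kk k X)) := by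
  ext x
  constructor
  · intro hx
    exact ⟨caIn G φ.f01 φ.mul01 x, hx, caPr_caIn G φ.f01 φ.mul01 x⟩
  · rintro ⟨y, hy, rfl⟩
    change caIn G φ.f01 φ.mul01 (caPr G φ.f01 φ.mul01 y) ∈ N.N0
    rw [caIn_caPr, ca_one0]
    exact h.l0 _ _ hy

private theorem ca_comap1 {A S T : Cosp k} (φ : NCosp A S) (G : GBi k S.A01 T.A01)
    {N : LP k G.E} (h : LP.Stable G N) :
    N.N1.comap ((caIn G φ.f01 φ.mul01).restrictScalars (kk k X⁻¹)) =
      N.N1.map ((caPr G φ.f01 φ.mul01).restrictScalars (kk k X⁻¹)) := by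
  ext x
  constructor
  · intro hx
    exact ⟨caIn G φ.f01 φ.mul01 x, hx, caPr_caIn G φ.f01 φ.mul01 x⟩
  · rintro ⟨y, hy, rfl⟩
    change caIn G φ.f01 φ.mul01 (caPr G φ.f01 φ.mul01 y) ∈ N.N1
    rw [caIn_caPr, ca_one1]
    exact h.l1 _ _ hy

private theorem ca_span {A S T : Cosp k} (φ : NCosp A S) (G : GBi k S.A01 T.A01)
    {Z : Set G.E} {Z' : Set (G.corner φ.f01 φ.mul01).E} (hZ : Submodule.span (RatFunc k) Z = ⊤)
    (h : ∀ z ∈ Z, caPr G φ.f01 φ.mul01 z ∈ Z') : Submodule.span (RatFunc k) Z' = ⊤ := by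
  rw [eq_top_iff]
  intro x _
  have h1 : caIn G φ.f01 φ.mul01 x ∈ Submodule.span (RatFunc k) Z := by
    rw [hZ]
    exact Submodule.mem_top
  have h2 : caPr G φ.f01 φ.mul01 (caIn G φ.f01 φ.mul01 x) ∈
      (Submodule.span (RatFunc k) Z).map (caPr G φ.f01 φ.mul01) := ⟨_, h1, rfl⟩
  rw [caPr_caIn, Submodule.map_span] at h2
  refine Submodule.span_mono ?_ h2
  rintro _ ⟨z, hz, rfl⟩
  exact h z hz

/-- The corner of a lattice pair. -/
private noncomputable def caLP {A S T : Cosp k} (φ : NCosp A S) (G : GBi k S.A01 T.A01)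
    {N : LP k G.E} (h : LP.Stable G N) : LP k (G.corner φ.f01 φ.mul01).E where
  N0 := N.N0.comap ((caIn G φ.f01 φ.mul01).restrictScalars (kk k X))
  N1 := N.N1.comap ((caIn G φ.f01 φ.mul01).restrictScalars (kk k X⁻¹))
  fg0 := by
    rw [ca_comap0 φ G h]
    exact N.fg0.map _
  fg1 := by
    rw [ca_comap1 φ G h]
    exact N.fg1.map _
  sp0 := by
    rw [ca_comap0 φ G h]
    exact ca_span φ G N.sp0 (fun z hz => ⟨z, hz, rfl⟩)
  sp1 := by
    rw [ca_comap1 φ G h]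
    exact ca_span φ G N.sp1 (fun z hz => ⟨z, hz, rfl⟩)
  loc01 := by
    intro v hv
    obtain ⟨n, hn⟩ := N.loc01 _ hv
    refine ⟨n, ?_⟩
    change caIn G φ.f01 φ.mul01 (((X : RatFunc k)⁻¹) ^ n • v) ∈ N.N1
    rw [map_smul]
    exact hn
  loc10 := by
    intro v hv
    obtain ⟨n, hn⟩ := N.loc10 _ hv
    refine ⟨n, ?_⟩
    change caIn G φ.f01 φ.mul01 ((X : RatFunc k) ^ n • v) ∈ N.N0
    rw [map_smul]
    exact hn

section corner

variable {A S T : Cosp k} (φ : NCosp A S) (G : GBi k S.A01 T.A01) {N : LP k G.E}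
  (h : LP.Stable G N)

private theorem caLP0 (x : (G.corner φ.f01 φ.mul01).E) :
    x ∈ (caLP φ G h).N0 ↔ caIn G φ.f01 φ.mul01 x ∈ N.N0 := Iff.rfl

private theorem caLP1 (x : (G.corner φ.f01 φ.mul01).E) :
    x ∈ (caLP φ G h).N1 ↔ caIn G φ.f01 φ.mul01 x ∈ N.N1 := Iff.rfl

private theorem caLP01 (x : (G.corner φ.f01 φ.mul01).E) :
    x ∈ (caLP φ G h).N01 ↔ caIn G φ.f01 φ.mul01 x ∈ N.N01 := by
  rw [LP.mem_N01, LP.mem_N01]
  refine exists_congr fun n => ?_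
  rw [caLP0, map_smul]

private theorem ca_stable : LP.Stable (S := A) (T := T) (G.corner φ.f01 φ.mul01)
    (caLP φ G h) where
  l0 := fun a v hv => by
    rw [caLP0, caIn_l, φ.r0]
    exact h.l0 _ _ hv
  r0 := fun b v hv => by
    rw [caLP0, caIn_r]
    exact h.r0 _ _ hv
  l1 := fun a v hv => by
    rw [caLP1, caIn_l, φ.r1]
    exact h.l1 _ _ hv
  r1 := fun b v hv => by
    rw [caLP1, caIn_r]
    exact h.r1 _ _ hv
  l01 := fun a v hv => by
    rw [caLP01] at hv ⊢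
    rw [caIn_l]
    exact h.l01 _ _ hv
  r01 := fun b v hv => by
    rw [caLP01] at hv ⊢
    rw [caIn_r]
    exact h.r01 _ _ hv

private noncomputable def ca_f0 : (caLP φ G h).N0 →ₗ[k] N.N0 where
  toFun := fun x => ⟨caIn G φ.f01 φ.mul01 x.1, x.2⟩
  map_add' := fun _ _ => Subtype.ext (map_add _ _ _)
  map_smul' := fun c x => Subtype.ext
    (((caIn G φ.f01 φ.mul01).restrictScalars k).map_smul c x.1)

private noncomputable def ca_f1 : (caLP φ G h).N1 →ₗ[k] N.N1 where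
  toFun := fun x => ⟨caIn G φ.f01 φ.mul01 x.1, x.2⟩
  map_add' := fun _ _ => Subtype.ext (map_add _ _ _)
  map_smul' := fun c x => Subtype.ext
    (((caIn G φ.f01 φ.mul01).restrictScalars k).map_smul c x.1)

private noncomputable def ca_f01 : (caLP φ G h).N01 →ₗ[k] N.N01 where
  toFun := fun x => ⟨caIn G φ.f01 φ.mul01 x.1, (caLP01 φ G h x.1).1 x.2⟩
  map_add' := fun _ _ => Subtype.ext (map_add _ _ _)
  map_smul' := fun c x => Subtype.ext
    (((caIn G φ.f01 φ.mul01).restrictScalars k).map_smul c x.1)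

private noncomputable def ca_map : (LP.tri (ca_stable φ G h)).bim.M →ₗ[k] (LP.tri h).bim.M :=
  ((ca_f0 φ G h).prodMap (ca_f1 φ G h)).prodMap (ca_f01 φ G h)

end corner

/-- The corner of the Čech bimodule of a lattice pair is the Čech bimodule of a lattice pair of the
corner. -/
theorem exists_corner {A S T : Cosp k} (φ : NCosp A S) (G : GBi k S.A01 T.A01) {N : LP k G.E}
    (h : LP.Stable G N) : ∃ (N' : LP k (G.corner φ.f01 φ.mul01).E)
      (h' : LP.Stable (S := A) (T := T) (G.corner φ.f01 φ.mul01) N'),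
      BIso (pull φ.nhom (LP.tri h).bim) (LP.tri h').bim := by
  refine ⟨caLP φ G h, ca_stable φ G h, ?_⟩
  refine pull_biso φ.nhom (LP.tri h).bim (LP.tri (ca_stable φ G h)).bim (ca_map φ G h)
    ?_ ?_ ?_ ?_ ?_ ?_
  · intro i z hz
    rw [← add_zero i]
    refine Dg.two_degMap (LP.tri (ca_stable φ G h)).δ (Z := (LP.tri h).bim.dg)
      (ca_map φ G h) (fun v => ?_) (fun w => ?_) hz
    · refine Dg.two_deg0' (LP.tri h).δ ?_
      change ca_f01 φ G h 0 = 0
      rw [map_zero]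
    · rw [zero_add]
      refine Dg.two_deg1' (LP.tri h).δ ?_
      change (ca_f0 φ G h 0, ca_f1 φ G h 0) = 0
      rw [map_zero, map_zero]
      rfl
  · intro a z
    obtain ⟨⟨a0, a1⟩, a2⟩ := a
    obtain ⟨⟨z0, z1⟩, z2⟩ := z
    refine Prod.ext (Prod.ext (Subtype.ext ?_) (Subtype.ext ?_)) (Subtype.ext ?_)
    · change caIn G φ.f01 φ.mul01 ((G.corner φ.f01 φ.mul01).l (A.r0 a0) z0.1) =
        G.l (S.r0 (φ.f0 a0)) (caIn G φ.f01 φ.mul01 z0.1)
      rw [caIn_l, φ.r0]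
    · change caIn G φ.f01 φ.mul01 ((G.corner φ.f01 φ.mul01).l (A.r1 a1) z1.1) =
        G.l (S.r1 (φ.f1 a1)) (caIn G φ.f01 φ.mul01 z1.1)
      rw [caIn_l, φ.r1]
    · change caIn G φ.f01 φ.mul01 ((G.corner φ.f01 φ.mul01).l (A.r0 a0) z2.1 +
          (G.corner φ.f01 φ.mul01).l a2 z1.1) =
        G.l (S.r0 (φ.f0 a0)) (caIn G φ.f01 φ.mul01 z2.1) +
          G.l (φ.f01 a2) (caIn G φ.f01 φ.mul01 z1.1)
      rw [map_add, caIn_l, caIn_l, φ.r0]
  · intro b z
    obtain ⟨⟨b0, b1⟩, b2⟩ := b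
    obtain ⟨⟨z0, z1⟩, z2⟩ := z
    refine Prod.ext (Prod.ext (Subtype.ext rfl) (Subtype.ext rfl)) (Subtype.ext ?_)
    change caIn G φ.f01 φ.mul01 ((G.corner φ.f01 φ.mul01).r b2 z0.1 +
          (G.corner φ.f01 φ.mul01).r (T.r1 b1) z2.1) =
        G.r b2 (caIn G φ.f01 φ.mul01 z0.1) +
          G.r (T.r1 b1) (caIn G φ.f01 φ.mul01 z2.1)
    rw [map_add, caIn_r, caIn_r]
  · intro z
    obtain ⟨⟨z0, z1⟩, z2⟩ := z
    refine Prod.ext (Prod.ext (Subtype.ext ?_) (Subtype.ext ?_)) (Subtype.ext ?_)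
    · exact map_zero (caIn G φ.f01 φ.mul01)
    · exact map_zero (caIn G φ.f01 φ.mul01)
    · exact map_sub (caIn G φ.f01 φ.mul01) z1.1 z0.1
  · intro x y hxy
    obtain ⟨⟨x0, x1⟩, x2⟩ := x
    obtain ⟨⟨y0, y1⟩, y2⟩ := y
    have h1 := congrArg (fun z : (N.N0 × N.N1) × N.N01 => (z.1.1 : G.E)) hxy
    have h2 := congrArg (fun z : (N.N0 × N.N1) × N.N01 => (z.1.2 : G.E)) hxy
    have h3 := congrArg (fun z : (N.N0 × N.N1) × N.N01 => (z.2 : G.E)) hxy
    refine Prod.ext (Prod.ext (Subtype.ext ?_) (Subtype.ext ?_)) (Subtype.ext ?_)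
    · exact caIn_inj G φ.f01 φ.mul01 h1
    · exact caIn_inj G φ.f01 φ.mul01 h2
    · exact caIn_inj G φ.f01 φ.mul01 h3
  · intro y hy
    obtain ⟨⟨y0, y1⟩, y2⟩ := y
    have h1 : G.l (S.r0 (φ.f0 1)) y0.1 = y0.1 :=
      congrArg (fun z : (N.N0 × N.N1) × N.N01 => (z.1.1 : G.E)) hy
    have h2 : G.l (S.r1 (φ.f1 1)) y1.1 = y1.1 :=
      congrArg (fun z : (N.N0 × N.N1) × N.N01 => (z.1.2 : G.E)) hy
    have h3 : G.l (S.r0 (φ.f0 1)) y2.1 + G.l (φ.f01 0) y1.1 = y2.1 :=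
      congrArg (fun z : (N.N0 × N.N1) × N.N01 => (z.2 : G.E)) hy
    rw [map_zero, map_zero, LinearMap.zero_apply, add_zero] at h3
    rw [← ca_one0] at h1 h3
    rw [← ca_one1] at h2
    refine ⟨((⟨caPr G φ.f01 φ.mul01 y0.1, ?_⟩, ⟨caPr G φ.f01 φ.mul01 y1.1, ?_⟩),
      ⟨caPr G φ.f01 φ.mul01 y2.1, ?_⟩), ?_⟩
    · rw [caLP0, caIn_caPr, h1]
      exact y0.2
    · rw [caLP1, caIn_caPr, h2]
      exact y1.2
    · rw [caLP01, caIn_caPr, h3]
      exact y2.2
    · refine Prod.ext (Prod.ext (Subtype.ext ?_) (Subtype.ext ?_)) (Subtype.ext ?_)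
      · exact h1
      · exact h2
      · exact h3

end Pool.Agent.MP_6e5bed_ag_NC
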