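import Pool.Agent.Lib.MP_6e5bed_ag_CV.Datum

set_option autoImplicit false
set_option linter.unusedSectionVars false

/-!
# Tensor products over the function field (NC CURVES)
-/

namespace Pool.Agent.MP_6e5bed_ag_NC

open RatFunc
open scoped TensorProduct

universe u

variable {k : Type u} [Field k] {D : FExt k} {R R' : Type u} [Ring R] [Algebra k R] [Ring R']
  [Algebra k R']

/-- A left action. -/
structure LAct (R : Type u) [Ring R] [Algebra k R] (F : LSp D) where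
  f : R →ₗ[k] F.F →ₗ[D.L] F.F
  one : ∀ v, f 1 v = v
  mul : ∀ a b v, f (a * b) v = f a (f b v)

/-- A right action. -/
structure RAct (R : Type u) [Ring R] [Algebra k R] (F : LSp D) where
  f : R →ₗ[k] F.F →ₗ[D.L] F.F
  one : ∀ v, f 1 v = v
  mul : ∀ a b v, f (a * b) v = f b (f a v)

/-- The tautological left action of the endomorphisms. -/
noncomputable def endL {F : LSp D} (V : LP k F.F) : LAct (endCosp V).A01 F where
  f := endAct V
  one := fun _ => rfl
  mul := fun _ _ _ => rfl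

/-- The `k(t)`-linear maps given by a family of linear maps over the function field. -/
noncomputable def toK {F F' : LSp D} (f : R →ₗ[k] F.F →ₗ[D.L] F'.F) :
    R →ₗ[k] F.F →ₗ[RatFunc k] F'.F where
  toFun := fun a => (f a).restrictScalars (RatFunc k)
  map_add' := fun a b => by ext x; simp
  map_smul' := fun c a => by ext x; simp

/-- The bimodule given by commuting left and right actions. -/
noncomputable def GBi.ofAct {E : LSp D} (l : LAct R E) (r : RAct R' E)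
    (h : ∀ a b v, l.f a (r.f b v) = r.f b (l.f a v)) : GBi k R R' where
  E := E.F
  l := toK l.f
  r := toK r.f
  l_one := l.one
  r_one := r.one
  l_mul := l.mul
  r_mul := r.mul
  l_r := h

/-- The tensor product over the function field. -/
noncomputable def LSp.tens (F E : LSp D) : LSp D where
  F := F.F ⊗[D.L] E.F
  finK := by
    have : FiniteDimensional D.L F.F := FiniteDimensional.right (RatFunc k) D.L F.F
    have : FiniteDimensional D.L E.F := FiniteDimensional.right (RatFunc k) D.L E.F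
    exact Module.Finite.trans D.L (F.F ⊗[D.L] E.F)

private theorem lt_tmul_smul {F E : LSp D} (c : RatFunc k) (v : F.F) (x : E.F) :
    v ⊗ₜ[D.L] (c • x) = c • (v ⊗ₜ[D.L] x) := by
  rw [TensorProduct.tmul_smul]

private theorem lt_smul_tmul {F E : LSp D} (c : RatFunc k) (v : F.F) (x : E.F) :
    (c • v) ⊗ₜ[D.L] x = c • (v ⊗ₜ[D.L] x) := by
  rw [TensorProduct.smul_tmul']

private theorem lt_fg {F E : LSp D} (u : RatFunc k) {P : Submodule (kk k u) F.F}
    {Q : Submodule (kk k u) E.F} (hP : P.FG) (hQ : Q.FG) :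
    (Submodule.span (kk k u) {y : F.F ⊗[D.L] E.F | ∃ v ∈ P, ∃ x ∈ Q, y = v ⊗ₜ[D.L] x}).FG := by
  let f : F.F →ₗ[kk k u] E.F →ₗ[kk k u] F.F ⊗[D.L] E.F :=
    LinearMap.mk₂ (kk k u) (fun v x => v ⊗ₜ[D.L] x)
      (fun v v' x => TensorProduct.add_tmul v v' x)
      (fun c v x => lt_smul_tmul (c : RatFunc k) v x)
      (fun v x x' => TensorProduct.tmul_add v x x')
      (fun c v x => lt_tmul_smul (c : RatFunc k) v x)
  have h1 := Submodule.FG.map₂ f hP hQ
  rw [Submodule.map₂_eq_span_image2] at h1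
  have hset : {y : F.F ⊗[D.L] E.F | ∃ v ∈ P, ∃ x ∈ Q, y = v ⊗ₜ[D.L] x} =
      Set.image2 (fun m n => f m n) (P : Set F.F) (Q : Set E.F) := by
    ext y
    constructor
    · rintro ⟨v, hv, x, hx, rfl⟩
      exact ⟨v, hv, x, hx, rfl⟩
    · rintro ⟨v, hv, x, hx, rfl⟩
      exact ⟨v, hv, x, hx, rfl⟩
  rw [hset]
  exact h1

private theorem lt_l_smul {F E : LSp D} (c : k) (g : F.F →ₗ[D.L] F.F) :
    LinearMap.rTensor E.F (c • g) = c • LinearMap.rTensor E.F g := by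
  refine TensorProduct.ext' fun v x => ?_
  rfl

private theorem lt_r_smul {F E : LSp D} (c : k) (g : E.F →ₗ[D.L] E.F) :
    LinearMap.lTensor F.F (c • g) = c • LinearMap.lTensor F.F g := by
  refine TensorProduct.ext' fun v x => ?_
  exact TensorProduct.tmul_smul c v (g x)

private theorem lt_l_one {F E : LSp D} {g : F.F →ₗ[D.L] F.F} (h : ∀ v, g v = v)
    (m : F.F ⊗[D.L] E.F) : LinearMap.rTensor E.F g m = m := by
  rw [show g = LinearMap.id from LinearMap.ext h, LinearMap.rTensor_id, LinearMap.id_apply]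

private theorem lt_r_one {F E : LSp D} {g : E.F →ₗ[D.L] E.F} (h : ∀ v, g v = v)
    (m : F.F ⊗[D.L] E.F) : LinearMap.lTensor F.F g m = m := by
  rw [show g = LinearMap.id from LinearMap.ext h, LinearMap.lTensor_id, LinearMap.id_apply]

private theorem lt_l_mul {F E : LSp D} {g g' g'' : F.F →ₗ[D.L] F.F} (h : ∀ v, g v = g' (g'' v))
    (m : F.F ⊗[D.L] E.F) : LinearMap.rTensor E.F g m =
      LinearMap.rTensor E.F g' (LinearMap.rTensor E.F g'' m) := by
  rw [show g = g' ∘ₗ g'' from LinearMap.ext h, LinearMap.rTensor_comp_apply]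

private theorem lt_r_mul {F E : LSp D} {g g' g'' : E.F →ₗ[D.L] E.F} (h : ∀ v, g v = g' (g'' v))
    (m : F.F ⊗[D.L] E.F) : LinearMap.lTensor F.F g m =
      LinearMap.lTensor F.F g' (LinearMap.lTensor F.F g'' m) := by
  rw [show g = g' ∘ₗ g'' from LinearMap.ext h, LinearMap.lTensor_comp_apply]

private theorem lt_l_r {F E : LSp D} (g : F.F →ₗ[D.L] F.F) (g' : E.F →ₗ[D.L] E.F)
    (m : F.F ⊗[D.L] E.F) : LinearMap.rTensor E.F g (LinearMap.lTensor F.F g' m) =
      LinearMap.lTensor F.F g' (LinearMap.rTensor E.F g m) := by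
  rw [← LinearMap.comp_apply, ← LinearMap.comp_apply, LinearMap.rTensor_comp_lTensor,
    LinearMap.lTensor_comp_rTensor]

private theorem lt_sp {F E : LSp D} {A : Set F.F} {B : Set E.F}
    (hA : Submodule.span (RatFunc k) A = ⊤) (hB : Submodule.span (RatFunc k) B = ⊤)
    {U : Submodule (RatFunc k) (F.F ⊗[D.L] E.F)}
    (h : ∀ v ∈ A, ∀ x ∈ B, v ⊗ₜ[D.L] x ∈ U) : U = ⊤ := by
  rw [eq_top_iff]
  rintro y -
  induction y using TensorProduct.induction_on with
  | zero => exact U.zero_mem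
  | add y z hy hz => exact U.add_mem hy hz
  | tmul v x =>
    have hv : v ∈ Submodule.span (RatFunc k) A := by
      rw [hA]
      trivial
    have hx : x ∈ Submodule.span (RatFunc k) B := by
      rw [hB]
      trivial
    induction hv using Submodule.span_induction with
    | mem v hv =>
      induction hx using Submodule.span_induction with
      | mem x hx => exact h v hv x hx
      | zero =>
        rw [TensorProduct.tmul_zero]
        exact U.zero_mem
      | add x x' _ _ h1 h2 =>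
        rw [TensorProduct.tmul_add]
        exact U.add_mem h1 h2
      | smul c x _ h1 =>
        rw [lt_tmul_smul]
        exact U.smul_mem c h1
    | zero =>
      rw [TensorProduct.zero_tmul]
      exact U.zero_mem
    | add v v' _ _ h1 h2 =>
      rw [TensorProduct.add_tmul]
      exact U.add_mem h1 h2
    | smul c v _ h1 =>
      rw [lt_smul_tmul]
      exact U.smul_mem c h1

/-- induction on the span of the tensors -/
private theorem lt_ind {F E : LSp D} (u : RatFunc k) {P : Submodule (kk k u) F.F}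
    {Q : Submodule (kk k u) E.F} {Z : F.F ⊗[D.L] E.F → Prop} (h0 : Z 0)
    (hadd : ∀ y z, Z y → Z z → Z (y + z))
    (h : ∀ v ∈ P, ∀ x ∈ Q, Z (v ⊗ₜ[D.L] x)) {y : F.F ⊗[D.L] E.F}
    (hy : y ∈ Submodule.span (kk k u)
      {y : F.F ⊗[D.L] E.F | ∃ v ∈ P, ∃ x ∈ Q, y = v ⊗ₜ[D.L] x}) : Z y := by
  have key : ∀ c : kk k u, Z (c • y) := by
    induction hy using Submodule.span_induction with
    | mem y hy =>
      obtain ⟨v, hv, x, hx, rfl⟩ := hy
      intro c
      have h1 : c • (v ⊗ₜ[D.L] x) = (c • v) ⊗ₜ[D.L] x := (lt_smul_tmul (c : RatFunc k) v x).symm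
      rw [h1]
      exact h _ (P.smul_mem c hv) x hx
    | zero =>
      intro c
      rw [smul_zero]
      exact h0
    | add y z _ _ h1 h2 =>
      intro c
      rw [smul_add]
      exact hadd _ _ (h1 c) (h2 c)
    | smul a y _ h1 =>
      intro c
      rw [smul_smul]
      exact h1 _
  have h1 := key 1
  rwa [one_smul] at h1

private theorem lt_loc {F E : LSp D} (u w : RatFunc k) {P : Submodule (kk k u) F.F}
    {Q : Submodule (kk k u) E.F} {P' : Submodule (kk k w) F.F} {Q' : Submodule (kk k w) E.F}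
    (hP : ∀ v ∈ P, ∃ n : ℕ, w ^ n • v ∈ P') (hQ : ∀ x ∈ Q, ∃ n : ℕ, w ^ n • x ∈ Q')
    {y : F.F ⊗[D.L] E.F} (hy : y ∈ Submodule.span (kk k u)
      {y : F.F ⊗[D.L] E.F | ∃ v ∈ P, ∃ x ∈ Q, y = v ⊗ₜ[D.L] x}) :
    ∃ n : ℕ, w ^ n • y ∈ Submodule.span (kk k w)
      {y : F.F ⊗[D.L] E.F | ∃ v ∈ P', ∃ x ∈ Q', y = v ⊗ₜ[D.L] x} := by
  set U := Submodule.span (kk k w)
      {y : F.F ⊗[D.L] E.F | ∃ v ∈ P', ∃ x ∈ Q', y = v ⊗ₜ[D.L] x} with hU
  have hw : ∀ (n : ℕ) (z : F.F ⊗[D.L] E.F), z ∈ U → w ^ n • z ∈ U := by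
    intro n z hz
    exact U.smul_mem ((kk.gen k w) ^ n) hz
  refine lt_ind u (Z := fun y => ∃ n : ℕ, w ^ n • y ∈ U) ?_ ?_ ?_ hy
  · exact ⟨0, by rw [smul_zero]; exact U.zero_mem⟩
  · rintro y z ⟨n, hn⟩ ⟨m, hm⟩
    refine ⟨n + m, ?_⟩
    rw [smul_add]
    refine U.add_mem ?_ ?_
    · rw [add_comm, pow_add, mul_smul]
      exact hw m _ hn
    · rw [pow_add, mul_smul]
      exact hw n _ hm
  · intro v hv x hx
    obtain ⟨n, hn⟩ := hP v hv
    obtain ⟨m, hm⟩ := hQ x hx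
    refine ⟨n + m, Submodule.subset_span ⟨_, hn, _, hm, ?_⟩⟩
    rw [lt_smul_tmul, lt_tmul_smul, smul_smul, pow_add]

private theorem lt_sp' {F E : LSp D} (u : RatFunc k) {P : Submodule (kk k u) F.F}
    {Q : Submodule (kk k u) E.F} (hP : Submodule.span (RatFunc k) (P : Set F.F) = ⊤)
    (hQ : Submodule.span (RatFunc k) (Q : Set E.F) = ⊤) :
    Submodule.span (RatFunc k) ((Submodule.span (kk k u)
      {y : F.F ⊗[D.L] E.F | ∃ v ∈ P, ∃ x ∈ Q, y = v ⊗ₜ[D.L] x} :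
        Submodule (kk k u) (F.F ⊗[D.L] E.F)) : Set (F.F ⊗[D.L] E.F)) = ⊤ :=
  lt_sp hP hQ fun v hv x hx =>
    Submodule.subset_span (Submodule.subset_span ⟨v, hv, x, hx, rfl⟩)

private theorem lt_st_l {F E : LSp D} (u : RatFunc k) {P : Submodule (kk k u) F.F}
    {Q : Submodule (kk k u) E.F} {g : F.F →ₗ[D.L] F.F} (hg : ∀ v, v ∈ P → g v ∈ P)
    {y : F.F ⊗[D.L] E.F} (hy : y ∈ Submodule.span (kk k u)
      {y : F.F ⊗[D.L] E.F | ∃ v ∈ P, ∃ x ∈ Q, y = v ⊗ₜ[D.L] x}) :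
    LinearMap.rTensor E.F g y ∈ Submodule.span (kk k u)
      {y : F.F ⊗[D.L] E.F | ∃ v ∈ P, ∃ x ∈ Q, y = v ⊗ₜ[D.L] x} := by
  refine lt_ind u (Z := fun y => LinearMap.rTensor E.F g y ∈ Submodule.span (kk k u)
      {y : F.F ⊗[D.L] E.F | ∃ v ∈ P, ∃ x ∈ Q, y = v ⊗ₜ[D.L] x}) ?_ ?_ ?_ hy
  · rw [map_zero]
    exact Submodule.zero_mem _
  · intro y z hy hz
    rw [map_add]
    exact Submodule.add_mem _ hy hz
  · intro v hv x hx
    exact Submodule.subset_span ⟨_, hg v hv, x, hx, rfl⟩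

private theorem lt_st_r {F E : LSp D} (u : RatFunc k) {P : Submodule (kk k u) F.F}
    {Q : Submodule (kk k u) E.F} {g : E.F →ₗ[D.L] E.F} (hg : ∀ v, v ∈ Q → g v ∈ Q)
    {y : F.F ⊗[D.L] E.F} (hy : y ∈ Submodule.span (kk k u)
      {y : F.F ⊗[D.L] E.F | ∃ v ∈ P, ∃ x ∈ Q, y = v ⊗ₜ[D.L] x}) :
    LinearMap.lTensor F.F g y ∈ Submodule.span (kk k u)
      {y : F.F ⊗[D.L] E.F | ∃ v ∈ P, ∃ x ∈ Q, y = v ⊗ₜ[D.L] x} := by
  refine lt_ind u (Z := fun y => LinearMap.lTensor F.F g y ∈ Submodule.span (kk k u)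
      {y : F.F ⊗[D.L] E.F | ∃ v ∈ P, ∃ x ∈ Q, y = v ⊗ₜ[D.L] x}) ?_ ?_ ?_ hy
  · rw [map_zero]
    exact Submodule.zero_mem _
  · intro y z hy hz
    rw [map_add]
    exact Submodule.add_mem _ hy hz
  · intro v hv x hx
    exact Submodule.subset_span ⟨v, hv, _, hg x hx, rfl⟩

private theorem lt_st01 {F E : LSp D} {P : Submodule (kk k X) F.F}
    {Q : Submodule (kk k X) E.F} {G : F.F ⊗[D.L] E.F →ₗ[D.L] F.F ⊗[D.L] E.F}
    (hG : ∀ v ∈ P, ∀ x ∈ Q, ∃ m : ℕ, (X : RatFunc k) ^ m • G (v ⊗ₜ[D.L] x) ∈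
      Submodule.span (kk k X) {y : F.F ⊗[D.L] E.F | ∃ v ∈ P, ∃ x ∈ Q, y = v ⊗ₜ[D.L] x})
    {y : F.F ⊗[D.L] E.F} (hy : ∃ n : ℕ, (X : RatFunc k) ^ n • y ∈ Submodule.span (kk k X)
      {y : F.F ⊗[D.L] E.F | ∃ v ∈ P, ∃ x ∈ Q, y = v ⊗ₜ[D.L] x}) :
    ∃ n : ℕ, (X : RatFunc k) ^ n • G y ∈ Submodule.span (kk k X)
      {y : F.F ⊗[D.L] E.F | ∃ v ∈ P, ∃ x ∈ Q, y = v ⊗ₜ[D.L] x} := by
  set U := Submodule.span (kk k X)
      {y : F.F ⊗[D.L] E.F | ∃ v ∈ P, ∃ x ∈ Q, y = v ⊗ₜ[D.L] x} with hU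
  have hw : ∀ (n : ℕ) (z : F.F ⊗[D.L] E.F), z ∈ U → (X : RatFunc k) ^ n • z ∈ U := by
    intro n z hz
    exact U.smul_mem ((kk.gen k X) ^ n) hz
  obtain ⟨n, hn⟩ := hy
  have h1 : ∃ m : ℕ, (X : RatFunc k) ^ m • G ((X : RatFunc k) ^ n • y) ∈ U := by
    refine lt_ind X (Z := fun y => ∃ m : ℕ, (X : RatFunc k) ^ m • G y ∈ U) ?_ ?_ hG hn
    · exact ⟨0, by rw [map_zero, smul_zero]; exact U.zero_mem⟩
    · rintro y z ⟨n, hn⟩ ⟨m, hm⟩
      refine ⟨n + m, ?_⟩
      rw [map_add, smul_add]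
      refine U.add_mem ?_ ?_
      · rw [add_comm, pow_add, mul_smul]
        exact hw m _ hn
      · rw [pow_add, mul_smul]
        exact hw n _ hm
  obtain ⟨m, hm⟩ := h1
  refine ⟨m + n, ?_⟩
  have h2 : G ((X : RatFunc k) ^ n • y) = (X : RatFunc k) ^ n • G y :=
    (G.restrictScalars (RatFunc k)).map_smul _ y
  rw [h2, smul_smul, ← pow_add] at hm
  exact hm


/-- The tensor product of a left and a right module. -/
noncomputable def tensG {F E : LSp D} (l : LAct R F) (r : RAct R' E) : GBi k R R' where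
  E := (F.tens E).F
  l := toK (F := F.tens E) (F' := F.tens E)
    { toFun := fun a => LinearMap.rTensor E.F (l.f a)
      map_add' := fun a b => by
        rw [map_add, LinearMap.rTensor_add]
        rfl
      map_smul' := fun c a => by
        rw [map_smul]
        exact lt_l_smul c (l.f a) }
  r := toK (F := F.tens E) (F' := F.tens E)
    { toFun := fun b => LinearMap.lTensor F.F (r.f b)
      map_add' := fun a b => by
        rw [map_add, LinearMap.lTensor_add]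
        rfl
      map_smul' := fun c a => by
        rw [map_smul]
        exact lt_r_smul c (r.f a) }
  l_one := by exact fun m => lt_l_one l.one m
  r_one := by exact fun m => lt_r_one r.one m
  l_mul := by exact fun a a' m => lt_l_mul (l.mul a a') m
  r_mul := by exact fun b b' m => lt_r_mul (r.mul b b') m
  l_r := by exact fun a b m => lt_l_r (l.f a) (r.f b) m

theorem tensG_l {F E : LSp D} (l : LAct R F) (r : RAct R' E) (a : R) (v : F.F) (x : E.F) :
    (tensG l r).l a (v ⊗ₜ[D.L] x) = (l.f a v) ⊗ₜ[D.L] x := rfl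

theorem tensG_r {F E : LSp D} (l : LAct R F) (r : RAct R' E) (b : R') (v : F.F) (x : E.F) :
    (tensG l r).r b (v ⊗ₜ[D.L] x) = v ⊗ₜ[D.L] (r.f b x) := rfl

/-- The tensor product of lattice pairs. -/
noncomputable def LP.tens {F E : LSp D} (V : LP k F.F) (N : LP k E.F) :
    LP k (F.tens E).F where
  N0 := Submodule.span (kk k X) {y | ∃ v ∈ V.N0, ∃ x ∈ N.N0, y = v ⊗ₜ[D.L] x}
  N1 := Submodule.span (kk k X⁻¹) {y | ∃ v ∈ V.N1, ∃ x ∈ N.N1, y = v ⊗ₜ[D.L] x}
  fg0 := by exact lt_fg X V.fg0 N.fg0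
  fg1 := by exact lt_fg X⁻¹ V.fg1 N.fg1
  sp0 := by exact lt_sp' X V.sp0 N.sp0
  sp1 := by exact lt_sp' X⁻¹ V.sp1 N.sp1
  loc01 := by exact fun v hv => lt_loc X X⁻¹ V.loc01 N.loc01 hv
  loc10 := by exact fun v hv => lt_loc X⁻¹ X V.loc10 N.loc10 hv

/-- The left action preserves the lattices. -/
structure LAct.St {S : Cosp k} {F : LSp D} (l : LAct S.A01 F) (V : LP k F.F) : Prop where
  s0 : ∀ a v, v ∈ V.N0 → l.f (S.r0 a) v ∈ V.N0
  s1 : ∀ a v, v ∈ V.N1 → l.f (S.r1 a) v ∈ V.N1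
  s01 : ∀ a v, v ∈ V.N01 → l.f a v ∈ V.N01

/-- The right action preserves the lattices. -/
structure RAct.St {S : Cosp k} {F : LSp D} (r : RAct S.A01 F) (V : LP k F.F) : Prop where
  s0 : ∀ a v, v ∈ V.N0 → r.f (S.r0 a) v ∈ V.N0
  s1 : ∀ a v, v ∈ V.N1 → r.f (S.r1 a) v ∈ V.N1
  s01 : ∀ a v, v ∈ V.N01 → r.f a v ∈ V.N01

theorem endL_st {F : LSp D} (V : LP k F.F) : (endL V).St V where
  s0 := fun a v hv => a.2 v hv
  s1 := fun a v hv => a.2 v hv
  s01 := fun a v hv => a.2 v hv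

theorem stable_ofAct {S T : Cosp k} {E : LSp D} {l : LAct S.A01 E} {r : RAct T.A01 E}
    (h : ∀ a b v, l.f a (r.f b v) = r.f b (l.f a v)) {N : LP k E.F} (hl : l.St N)
    (hr : r.St N) : LP.Stable (GBi.ofAct l r h) N where
  l0 := hl.s0
  r0 := hr.s0
  l1 := hl.s1
  r1 := hr.s1
  l01 := hl.s01
  r01 := hr.s01

theorem stable_tens {S T : Cosp k} {F E : LSp D} {l : LAct S.A01 F} {r : RAct T.A01 E}
    {V : LP k F.F} {N : LP k E.F} (hl : l.St V) (hr : r.St N) :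
    LP.Stable (tensG l r) (V.tens N) := by
  refine ⟨fun a v hv => lt_st_l X (hl.s0 a) hv, fun b v hv => lt_st_r X (hr.s0 b) hv,
    fun a v hv => lt_st_l X⁻¹ (hl.s1 a) hv, fun b v hv => lt_st_r X⁻¹ (hr.s1 b) hv,
    fun a v hv => lt_st01 (G := LinearMap.rTensor E.F (l.f a)) ?_ hv,
    fun b v hv => lt_st01 (G := LinearMap.lTensor F.F (r.f b)) ?_ hv⟩
  · intro v hv x hx
    obtain ⟨m, hm⟩ := hl.s01 a v (V.N0_le hv)
    exact ⟨m, Submodule.subset_span ⟨_, hm, x, hx, (lt_smul_tmul _ _ _).symm⟩⟩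
  · intro v hv x hx
    obtain ⟨m, hm⟩ := hr.s01 b x (N.N0_le hx)
    exact ⟨m, Submodule.subset_span ⟨v, hv, _, hm, (lt_tmul_smul _ _ _).symm⟩⟩

end Pool.Agent.MP_6e5bed_ag_NC
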