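import Pool.Agent.Lib.MP_6e5bed_ag_CV.CornerA
import Pool.Agent.Lib.MP_6e5bed_ag_CV.LTens

set_option autoImplicit false
set_option linter.unusedSectionVars false

/-!
# The corner given by an algebra which acts on a vector bundle (NC CURVES)
-/

namespace Pool.Agent.MP_6e5bed_ag_NC

open RatFunc
open scoped TensorProduct

universe u

variable {k : Type u} [Field k]

variable {D : FExt k}

/-- The endomorphism `(v, x, y) ↦ (f v, 0, 0)`. -/
private noncomputable def CornerB_E {F : LSp D} (f : F.F →ₗ[D.L] F.F) :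
    Module.End D.L F.plus.F :=
  (LinearMap.inl D.L F.F (D.L × D.L)) ∘ₗ f ∘ₗ (LinearMap.fst D.L F.F (D.L × D.L))

private theorem CornerB_E_apply {F : LSp D} (f : F.F →ₗ[D.L] F.F) (v : F.plus.F) :
    CornerB_E f v = (f v.1, 0, 0) := rfl

private theorem CornerB_mem0 {F : LSp D} (V : LP k F.F) (v : F.F) :
    ((v, 0, 0) : F.plus.F) ∈ V.plus.N0 ↔ v ∈ V.N0 := by
  constructor
  · exact fun h => h.1
  · exact fun h => ⟨h, Submodule.zero_mem _, Submodule.zero_mem _⟩

private theorem CornerB_mem1 {F : LSp D} (V : LP k F.F) (v : F.F) :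
    ((v, 0, 0) : F.plus.F) ∈ V.plus.N1 ↔ v ∈ V.N1 := by
  constructor
  · exact fun h => h.1
  · exact fun h => ⟨h, Submodule.zero_mem _, Submodule.zero_mem _⟩

private theorem CornerB_mem01 {F : LSp D} (V : LP k F.F) (v : F.F) (h : v ∈ V.N01) :
    ((v, 0, 0) : F.plus.F) ∈ V.plus.N01 := by
  obtain ⟨n, hn⟩ := h
  refine ⟨n, ?_⟩
  have h1 : (X : RatFunc k) ^ n • ((v, 0, 0) : F.plus.F) = ((X : RatFunc k) ^ n • v, 0, 0) := by
    refine Prod.ext rfl (Prod.ext ?_ ?_)
    · exact smul_zero _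
    · exact smul_zero _
  exact (congrArg (fun z : F.plus.F => z ∈ V.plus.N0) h1).mpr ((CornerB_mem0 V _).2 hn)

private theorem CornerB_fst01 {F : LSp D} (V : LP k F.F) (v : F.plus.F) (h : v ∈ V.plus.N01) :
    v.1 ∈ V.N01 := by
  obtain ⟨n, hn⟩ := h
  exact ⟨n, hn.1⟩

/-- The algebra `A` acts on `V ⊕ O ⊕ O(1)` through its action on `V`, by zero on `O ⊕ O(1)`. -/
theorem exists_phi {A : Cosp k} {F : LSp D} {l : LAct A.A01 F} {V : LP k F.F} (hl : l.St V) :
    ∃ φ : NCosp A (endCosp V.plus), ∀ (a : A.A01) (v : F.plus.F),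
      (endL V.plus).f (φ.f01 a) v = (l.f a v.1, 0, 0) := by
  have hE : ∀ f g : F.F →ₗ[D.L] F.F, CornerB_E f * CornerB_E g = CornerB_E (f ∘ₗ g) := by
    intro f g
    rfl
  have hm : ∀ a b : A.A01, l.f (a * b) = l.f a ∘ₗ l.f b := fun a b =>
    LinearMap.ext fun v => l.mul a b v
  have hadd : ∀ a b : A.A01, CornerB_E (l.f (a + b)) = CornerB_E (l.f a) + CornerB_E (l.f b) := by
    intro a b
    rw [map_add]
    refine LinearMap.ext fun v => ?_
    rw [LinearMap.add_apply, CornerB_E_apply, CornerB_E_apply, CornerB_E_apply]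
    refine Prod.ext rfl (Prod.ext ?_ ?_)
    · exact (add_zero _).symm
    · exact (add_zero _).symm
  have hsmul : ∀ (c : k) (a : A.A01), CornerB_E (l.f (c • a)) = c • CornerB_E (l.f a) := by
    intro c a
    rw [map_smul]
    refine LinearMap.ext fun v => ?_
    rw [LinearMap.smul_apply, CornerB_E_apply, CornerB_E_apply]
    refine Prod.ext rfl (Prod.ext ?_ ?_)
    · exact (smul_zero _).symm
    · exact (smul_zero _).symm
  refine ⟨{
    f0 :=
      { toFun := fun a => (⟨CornerB_E (l.f (A.r0 a)), fun v hv =>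
          (CornerB_mem0 V _).2 (hl.s0 a v.1 hv.1)⟩ : EA0 V.plus)
        map_add' := fun a b => Subtype.ext
          ((congrArg (fun z => CornerB_E (l.f z)) (map_add A.r0 a b)).trans (hadd _ _))
        map_smul' := fun c a => Subtype.ext
          ((congrArg (fun z => CornerB_E (l.f z)) (map_smul A.r0 c a)).trans (hsmul _ _)) }
    f1 :=
      { toFun := fun a => (⟨CornerB_E (l.f (A.r1 a)), fun v hv =>
          (CornerB_mem1 V _).2 (hl.s1 a v.1 hv.1)⟩ : EA1 V.plus)
        map_add' := fun a b => Subtype.ext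
          ((congrArg (fun z => CornerB_E (l.f z)) (map_add A.r1 a b)).trans (hadd _ _))
        map_smul' := fun c a => Subtype.ext
          ((congrArg (fun z => CornerB_E (l.f z)) (map_smul A.r1 c a)).trans (hsmul _ _)) }
    f01 :=
      { toFun := fun a => (⟨CornerB_E (l.f a), fun v hv =>
          CornerB_mem01 V _ (hl.s01 a v.1 (CornerB_fst01 V v hv))⟩ : EA01 V.plus)
        map_add' := fun a b => Subtype.ext (hadd _ _)
        map_smul' := fun c a => Subtype.ext (hsmul _ _) }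
    mul0 := fun a b => Subtype.ext (by
      change CornerB_E (l.f (A.r0 (a * b))) = CornerB_E (l.f (A.r0 a)) * CornerB_E (l.f (A.r0 b))
      rw [map_mul, hm, hE])
    mul1 := fun a b => Subtype.ext (by
      change CornerB_E (l.f (A.r1 (a * b))) = CornerB_E (l.f (A.r1 a)) * CornerB_E (l.f (A.r1 b))
      rw [map_mul, hm, hE])
    mul01 := fun a b => Subtype.ext (by
      change CornerB_E (l.f (a * b)) = CornerB_E (l.f a) * CornerB_E (l.f b)
      rw [hm, hE])
    r0 := fun a => rfl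
    r1 := fun a => rfl }, fun a v => rfl⟩

/-- The corner of `F ⊗_L E` given by `exists_phi`. -/
theorem corner_iso {A : Cosp k} {R' : Type u} [Ring R'] [Algebra k R'] {F E : LSp D}
    {l : LAct A.A01 F} {r : RAct R' E} {V : LP k F.F} (φ : NCosp A (endCosp V.plus))
    (hφ : ∀ (a : A.A01) (v : F.plus.F), (endL V.plus).f (φ.f01 a) v = (l.f a v.1, 0, 0)) :
    GBi.Iso ((tensG (endL V.plus) r).corner φ.f01 φ.mul01) (tensG l r) := by
  have key : ∀ a : A.A01, (endL V.plus).f (φ.f01 a) = CornerB_E (l.f a) := fun a =>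
    LinearMap.ext fun v => hφ a v
  let p : (F.F × (D.L × D.L)) ⊗[D.L] E.F →ₗ[D.L] F.F ⊗[D.L] E.F :=
    LinearMap.rTensor E.F (LinearMap.fst D.L F.F (D.L × D.L))
  let i : F.F ⊗[D.L] E.F →ₗ[D.L] (F.F × (D.L × D.L)) ⊗[D.L] E.F :=
    LinearMap.rTensor E.F (LinearMap.inl D.L F.F (D.L × D.L))
  have hpi : ∀ y, p (i y) = y := by
    intro y
    change (p ∘ₗ i) y = y
    have : p ∘ₗ i = LinearMap.id := by
      rw [← LinearMap.rTensor_comp, LinearMap.fst_comp_inl, LinearMap.rTensor_id]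
    rw [this]
    rfl
  have hgl : ∀ (a : A.A01) x, (tensG (endL V.plus) r).l (φ.f01 a) x =
      i (LinearMap.rTensor E.F (l.f a) (p x)) := by
    intro a x
    have hcomp : (LinearMap.rTensor E.F ((LinearMap.inl D.L F.F (D.L × D.L)) ∘ₗ (l.f a) ∘ₗ
        (LinearMap.fst D.L F.F (D.L × D.L))) :
        (F.F × (D.L × D.L)) ⊗[D.L] E.F →ₗ[D.L] (F.F × (D.L × D.L)) ⊗[D.L] E.F) =
        i ∘ₗ (LinearMap.rTensor E.F (l.f a)) ∘ₗ p := by
      rw [LinearMap.rTensor_comp, LinearMap.rTensor_comp]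
    exact (congrArg (fun f : F.plus.F →ₗ[D.L] F.plus.F => LinearMap.rTensor E.F f x)
      (key a)).trans (LinearMap.congr_fun hcomp x)
  have hgl1 : ∀ x, (tensG (endL V.plus) r).l (φ.f01 1) x = i (p x) := by
    intro x
    rw [hgl]
    have : l.f 1 = LinearMap.id := LinearMap.ext fun v => l.one v
    rw [this, LinearMap.rTensor_id]
    rfl
  have hmem : ∀ x : (tensG (endL V.plus) r).E, x ∈ LinearMap.ker ((tensG (endL V.plus) r).l (φ.f01 1) - LinearMap.id) ↔
      i (p x) = x := by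
    intro x
    rw [LinearMap.mem_ker, LinearMap.sub_apply, LinearMap.id_apply, sub_eq_zero, hgl1]
    exact Iff.rfl
  refine ⟨{
    toFun := fun x => p x.1
    map_add' := fun x y => by
      exact map_add p x.1 y.1
    map_smul' := fun c x => by
      exact (p.restrictScalars (RatFunc k)).map_smul c x.1
    invFun := fun y => ⟨i y, (hmem _).2 (congrArg i (hpi y))⟩
    left_inv := fun x => Subtype.ext ((hmem _).1 x.2)
    right_inv := fun y => hpi y }, ?_, ?_⟩
  · intro a x
    change p ((tensG (endL V.plus) r).l (φ.f01 a) x.1) = LinearMap.rTensor E.F (l.f a) (p x.1)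
    rw [hgl, hpi]
  · intro b x
    change p (LinearMap.lTensor (F.F × (D.L × D.L)) (r.f b) x.1) =
      LinearMap.lTensor F.F (r.f b) (p x.1)
    have h1 := LinearMap.congr_fun (LinearMap.rTensor_comp_lTensor
      (f := LinearMap.fst D.L F.F (D.L × D.L)) (g := r.f b)) x.1
    have h2 := LinearMap.congr_fun (LinearMap.lTensor_comp_rTensor
      (f := LinearMap.fst D.L F.F (D.L × D.L)) (g := r.f b)) x.1
    exact h1.trans h2.symm

end Pool.Agent.MP_6e5bed_ag_NC
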