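import Pool.Agent.Lib.MP_6e5bed_ag_CV.Two

set_option autoImplicit false

/-!
# Cospans of algebras, their Čech dg algebras, and Čech bimodules
-/

namespace Pool.Agent.MP_6e5bed_ag_NC

universe u

/-- Homomorphisms `A0 → A01 ← A1` of `k`-algebras. -/
structure Cosp (k : Type u) [CommRing k] where
  A0 : Type u
  A1 : Type u
  A01 : Type u
  [ring0 : Ring A0]
  [ring1 : Ring A1]
  [ring01 : Ring A01]
  [alg0 : Algebra k A0]
  [alg1 : Algebra k A1]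
  [alg01 : Algebra k A01]
  r0 : A0 →ₐ[k] A01
  r1 : A1 →ₐ[k] A01

attribute [instance] Cosp.ring0 Cosp.ring1 Cosp.ring01 Cosp.alg0 Cosp.alg1 Cosp.alg01

/-- A `k`-central `A`-`B`-bimodule: `l a m` is `a m` and `r b m` is `m b`. -/
structure KBi (k : Type u) [CommRing k] (A B : Type u) [Ring A] [Algebra k A] [Ring B]
    [Algebra k B] where
  M : Type u
  [grp : AddCommGroup M]
  [mod : Module k M]
  l : A →ₗ[k] M →ₗ[k] M
  r : B →ₗ[k] M →ₗ[k] M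
  l_one : ∀ m, l 1 m = m
  r_one : ∀ m, r 1 m = m
  l_mul : ∀ a a' m, l (a * a') m = l a (l a' m)
  r_mul : ∀ b b' m, r (b * b') m = r b' (r b m)
  l_r : ∀ a b m, l a (r b m) = r b (l a m)

attribute [instance] KBi.grp KBi.mod

variable {k : Type u} [CommRing k]

/-- A bimodule over two cospans of algebras. -/
structure Tri (S T : Cosp k) where
  M0 : KBi k S.A0 T.A0
  M1 : KBi k S.A1 T.A1
  M01 : KBi k S.A01 T.A01
  ρ0 : M0.M →ₗ[k] M01.M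
  ρ1 : M1.M →ₗ[k] M01.M
  ρ0_l : ∀ a m, ρ0 (M0.l a m) = M01.l (S.r0 a) (ρ0 m)
  ρ0_r : ∀ b m, ρ0 (M0.r b m) = M01.r (T.r0 b) (ρ0 m)
  ρ1_l : ∀ a m, ρ1 (M1.l a m) = M01.l (S.r1 a) (ρ1 m)
  ρ1_r : ∀ b m, ρ1 (M1.r b m) = M01.r (T.r1 b) (ρ1 m)

namespace Cosp

variable (S : Cosp k)

/-- The differential `(a0, a1) ↦ r1 a1 - r0 a0`. -/
def δ : S.A0 × S.A1 →ₗ[k] S.A01 :=
  S.r1.toLinearMap.comp (LinearMap.snd k S.A0 S.A1) -
    S.r0.toLinearMap.comp (LinearMap.fst k S.A0 S.A1)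

/-- The multiplication `(a0,a1,c)(b0,b1,e) = (a0b0, a1b1, r0(a0)e + c r1(b1))`. -/
def cmul : ((S.A0 × S.A1) × S.A01) →ₗ[k] ((S.A0 × S.A1) × S.A01) →ₗ[k]
    ((S.A0 × S.A1) × S.A01) :=
  LinearMap.mk₂ k (fun x y => ((x.1.1 * y.1.1, x.1.2 * y.1.2), S.r0 x.1.1 * y.2 + x.2 * S.r1 y.1.2))
    (fun x x' y => by ext <;> simp [add_mul]; abel)
    (fun c x y => by ext <;> simp [smul_add])
    (fun x y y' => by ext <;> simp [mul_add]; abel)
    (fun c x y => by ext <;> simp [smul_add])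

theorem cmul_apply (x y : (S.A0 × S.A1) × S.A01) : S.cmul x y =
    ((x.1.1 * y.1.1, x.1.2 * y.1.2), S.r0 x.1.1 * y.2 + x.2 * S.r1 y.1.2) := rfl

theorem cmul_assoc (a b c : (S.A0 × S.A1) × S.A01) :
    S.cmul (S.cmul a b) c = S.cmul a (S.cmul b c) := by
  simp only [cmul_apply]
  ext <;> simp [mul_assoc, mul_add, add_mul, add_assoc]

theorem cmul_d (a b : (S.A0 × S.A1) × S.A01) : (Dg.two S.δ).d (S.cmul a b) =
    S.cmul ((Dg.two S.δ).d a) b + S.cmul ((Dg.two S.δ).s a) ((Dg.two S.δ).d b) := by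
  obtain ⟨a, c⟩ := a
  obtain ⟨b, e⟩ := b
  rw [cmul_apply, Dg.two_s, Dg.two_d, Dg.two_d, Dg.two_d, cmul_apply, cmul_apply]
  ext
  · simp
  · simp
  · simp [δ, mul_sub, sub_mul]

/-- The Čech dg algebra of a cospan. -/
noncomputable def cech : DGA k where
  A := (S.A0 × S.A1) × S.A01
  dg := Dg.two S.δ
  mul := S.cmul
  one := ((1, 1), 0)
  one_mul := fun a => by
    rw [cmul_apply]
    ext <;> simp
  mul_one := fun a => by
    rw [cmul_apply]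
    ext <;> simp
  mul_assoc := S.cmul_assoc
  one_deg := Dg.two_deg0 S.δ _
  mul_deg := Dg.two_bil S.δ S.δ S.δ S.cmul (fun v v' => by simp [cmul_apply])
    (fun v w => by simp [cmul_apply]) (fun w v => by simp [cmul_apply])
    (fun w w' => by simp [cmul_apply])
  leibniz := S.cmul_d

end Cosp

namespace Tri

variable {S T : Cosp k} (M : Tri S T)

/-- The differential `(m0, m1) ↦ ρ1 m1 - ρ0 m0`. -/
def δ : M.M0.M × M.M1.M →ₗ[k] M.M01.M :=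
  M.ρ1.comp (LinearMap.snd k M.M0.M M.M1.M) - M.ρ0.comp (LinearMap.fst k M.M0.M M.M1.M)

theorem δ_apply (x : M.M0.M × M.M1.M) : M.δ x = M.ρ1 x.2 - M.ρ0 x.1 := rfl

/-- The left action `(a0,a1,c)(m0,m1,n) = (a0m0, a1m1, r0(a0)n + c ρ1(m1))`. -/
def cl : ((S.A0 × S.A1) × S.A01) →ₗ[k] ((M.M0.M × M.M1.M) × M.M01.M) →ₗ[k]
    ((M.M0.M × M.M1.M) × M.M01.M) :=
  LinearMap.mk₂ k (fun a m => ((M.M0.l a.1.1 m.1.1, M.M1.l a.1.2 m.1.2),
      M.M01.l (S.r0 a.1.1) m.2 + M.M01.l a.2 (M.ρ1 m.1.2)))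
    (fun x x' y => by ext <;> simp; abel)
    (fun c x y => by ext <;> simp [smul_add])
    (fun x y y' => by ext <;> simp; abel)
    (fun c x y => by ext <;> simp [smul_add])

/-- The right action `(m0,m1,n)(b0,b1,e) = (m0b0, m1b1, ρ0(m0)e + n r1(b1))`. -/
def cr : ((T.A0 × T.A1) × T.A01) →ₗ[k] ((M.M0.M × M.M1.M) × M.M01.M) →ₗ[k]
    ((M.M0.M × M.M1.M) × M.M01.M) :=
  LinearMap.mk₂ k (fun b m => ((M.M0.r b.1.1 m.1.1, M.M1.r b.1.2 m.1.2),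
      M.M01.r b.2 (M.ρ0 m.1.1) + M.M01.r (T.r1 b.1.2) m.2))
    (fun x x' y => by ext <;> simp; abel)
    (fun c x y => by ext <;> simp [smul_add])
    (fun x y y' => by ext <;> simp; abel)
    (fun c x y => by ext <;> simp [smul_add])

theorem cl_apply (a : (S.A0 × S.A1) × S.A01) (m : (M.M0.M × M.M1.M) × M.M01.M) : M.cl a m =
    ((M.M0.l a.1.1 m.1.1, M.M1.l a.1.2 m.1.2),
      M.M01.l (S.r0 a.1.1) m.2 + M.M01.l a.2 (M.ρ1 m.1.2)) := rfl

theorem cr_apply (b : (T.A0 × T.A1) × T.A01) (m : (M.M0.M × M.M1.M) × M.M01.M) : M.cr b m =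
    ((M.M0.r b.1.1 m.1.1, M.M1.r b.1.2 m.1.2),
      M.M01.r b.2 (M.ρ0 m.1.1) + M.M01.r (T.r1 b.1.2) m.2) := rfl

theorem cl_mul (a a' : (S.A0 × S.A1) × S.A01) (m : (M.M0.M × M.M1.M) × M.M01.M) :
    M.cl (S.cmul a a') m = M.cl a (M.cl a' m) := by
  rw [Cosp.cmul_apply]
  simp only [cl_apply]
  ext
  · simp [M.M0.l_mul]
  · simp [M.M1.l_mul]
  · simp [M.M01.l_mul, M.ρ1_l, add_assoc]

theorem cr_mul (b b' : (T.A0 × T.A1) × T.A01) (m : (M.M0.M × M.M1.M) × M.M01.M) :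
    M.cr (T.cmul b b') m = M.cr b' (M.cr b m) := by
  rw [Cosp.cmul_apply]
  simp only [cr_apply]
  ext
  · simp [M.M0.r_mul]
  · simp [M.M1.r_mul]
  · simp [M.M01.r_mul, M.ρ0_r, add_assoc]

theorem cl_cr (a : (S.A0 × S.A1) × S.A01) (b : (T.A0 × T.A1) × T.A01)
    (m : (M.M0.M × M.M1.M) × M.M01.M) : M.cl a (M.cr b m) = M.cr b (M.cl a m) := by
  simp only [cl_apply, cr_apply]
  ext
  · simp [M.M0.l_r]
  · simp [M.M1.l_r]
  · simp only [map_add, M.ρ0_l, M.ρ1_r, M.M01.l_r]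
    abel

theorem cl_d (a : (S.A0 × S.A1) × S.A01) (m : (M.M0.M × M.M1.M) × M.M01.M) :
    (Dg.two M.δ).d (M.cl a m) = M.cl ((Dg.two S.δ).d a) m +
      M.cl ((Dg.two S.δ).s a) ((Dg.two M.δ).d m) := by
  obtain ⟨a, c⟩ := a
  obtain ⟨m, n⟩ := m
  rw [Dg.two_s, Dg.two_d, Dg.two_d, cl_apply, cl_apply, cl_apply, Dg.two_d]
  ext
  · simp
  · simp
  · simp [δ, Cosp.δ, M.ρ0_l, M.ρ1_l]

theorem cr_d (b : (T.A0 × T.A1) × T.A01) (m : (M.M0.M × M.M1.M) × M.M01.M) :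
    (Dg.two M.δ).d (M.cr b m) = M.cr b ((Dg.two M.δ).d m) +
      M.cr ((Dg.two T.δ).d b) ((Dg.two M.δ).s m) := by
  obtain ⟨b, c⟩ := b
  obtain ⟨m, n⟩ := m
  rw [Dg.two_s, Dg.two_d, Dg.two_d, cr_apply, cr_apply, cr_apply, Dg.two_d]
  ext
  · simp
  · simp
  · simp [δ, Cosp.δ, M.ρ0_r, M.ρ1_r]

/-- The Čech dg bimodule of a bimodule over cospans. -/
noncomputable def bim : Bim S.cech T.cech where
  M := (M.M0.M × M.M1.M) × M.M01.M
  dg := Dg.two M.δ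
  l := M.cl
  r := M.cr
  l_one := fun m => by
    change M.cl ((1, 1), 0) m = m
    rw [cl_apply]
    ext <;> simp [M.M0.l_one, M.M1.l_one, M.M01.l_one]
  r_one := fun m => by
    change M.cr ((1, 1), 0) m = m
    rw [cr_apply]
    ext <;> simp [M.M0.r_one, M.M1.r_one, M.M01.r_one]
  l_mul := M.cl_mul
  r_mul := M.cr_mul
  l_r := M.cl_cr
  l_deg := Dg.two_bil S.δ M.δ M.δ M.cl (fun v v' => by simp [cl_apply])
    (fun v w => by simp [cl_apply]) (fun w v => by simp [cl_apply])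
    (fun w w' => by simp [cl_apply])
  r_deg := fun {i j b m} hm hb => by
    rw [add_comm]
    exact Dg.two_bil T.δ M.δ M.δ M.cr (fun v v' => by simp [cr_apply])
      (fun v w => by simp [cr_apply]) (fun w v => by simp [cr_apply])
      (fun w w' => by simp [cr_apply]) hb hm
  d_l := M.cl_d
  d_r := M.cr_d

end Tri

end Pool.Agent.MP_6e5bed_ag_NC
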