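import Pool.Agent.Lib.MP_6e5bed_ag_CV.LPA

set_option autoImplicit false
set_option linter.unusedSectionVars false

/-!
# Function fields of curves and vector spaces over them
-/

namespace Pool.Agent.MP_6e5bed_ag_NC

open RatFunc

universe u

/-- A finite separable extension of `k(t)`: the function field of a curve. -/
structure FExt (k : Type u) [Field k] where
  L : Type u
  [fld : Field L]
  [algk : Algebra k L]
  [algK : Algebra (RatFunc k) L]
  [tow : IsScalarTower k (RatFunc k) L]
  [fin : FiniteDimensional (RatFunc k) L]
  [sep : Algebra.IsSeparable (RatFunc k) L]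

attribute [instance] FExt.fld FExt.algk FExt.algK FExt.tow FExt.fin FExt.sep

variable {k : Type u} [Field k]

/-- A finite-dimensional vector space over the function field. -/
structure LSp (D : FExt k) where
  F : Type u
  [grp : AddCommGroup F]
  [modk : Module k F]
  [modK : Module (RatFunc k) F]
  [modL : Module D.L F]
  [towkK : IsScalarTower k (RatFunc k) F]
  [towKL : IsScalarTower (RatFunc k) D.L F]
  [towkL : IsScalarTower k D.L F]
  [finK : FiniteDimensional (RatFunc k) F]

attribute [instance] LSp.grp LSp.modk LSp.modK LSp.modL LSp.towkK LSp.towKL LSp.towkL LSp.finK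

end Pool.Agent.MP_6e5bed_ag_NC
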