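import Pool.Agent.Lib.MP_6e5bed_ag_CV.KK
import Pool.Agent.Lib.MP_6e5bed_ag_CV.LSpD

set_option autoImplicit false
set_option linter.unusedSectionVars false

/-!
# Homomorphisms of vector bundles on a curve (NC CURVES)
-/

namespace Pool.Agent.MP_6e5bed_ag_NC

open RatFunc

universe u

variable {k : Type u} [Field k]

section

variable {D : FExt k} {F F' : LSp D}

/-- An `L`-linear map as a linear map over `k[u]`. -/
private def LPH_map (u : RatFunc k) (f : F.F →ₗ[D.L] F'.F) : F.F →ₗ[kk k u] F'.F where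
  toFun := f
  map_add' := map_add f
  map_smul' := fun c v => (f.restrictScalars (RatFunc k)).map_smul (c : RatFunc k) v

private theorem LPH_smul (c : RatFunc k) (f : F.F →ₗ[D.L] F'.F) (v : F.F) :
    f (c • v) = c • f v :=
  (f.restrictScalars (RatFunc k)).map_smul c v

private theorem LPH_fg {u : RatFunc k} [IsPrincipalIdealRing (kk k u)] {n m : ℕ}
    (b : Module.Basis (Fin n) (RatFunc k) F.F) (b' : Module.Basis (Fin m) (RatFunc k) F'.F)
    (P : Submodule (kk k u) (F.F →ₗ[D.L] F'.F))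
    (hP : ∀ f ∈ P, ∀ i j, b'.repr (f (b i)) j ∈ kk k u) : P.FG := by
  let φ : P →ₗ[kk k u] (Fin n → Fin m → kk k u) :=
    { toFun := fun f i j => ⟨b'.repr (f.1 (b i)) j, hP f.1 f.2 i j⟩
      map_add' := fun f g => by
        funext i j
        exact Subtype.ext (by
          show b'.repr ((f.1 + g.1) (b i)) j = _
          rw [LinearMap.add_apply, map_add, Finsupp.add_apply]
          rfl)
      map_smul' := fun c f => by
        funext i j
        exact Subtype.ext (by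
          show b'.repr ((c : RatFunc k) • f.1 (b i)) j = _
          rw [map_smul, Finsupp.smul_apply]
          rfl) }
  have hφ : Function.Injective φ := by
    intro f g h
    refine Subtype.ext (LinearMap.ext fun v => ?_)
    have h1 : ∀ i, f.1 (b i) = g.1 (b i) := by
      intro i
      apply b'.repr.injective
      ext j
      exact congrArg Subtype.val (congrFun (congrFun h i) j)
    have h2 : f.1.restrictScalars (RatFunc k) = g.1.restrictScalars (RatFunc k) :=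
      b.ext h1
    exact congrArg (fun F => F v) h2
  rw [← Module.Finite.iff_fg]
  exact Module.Finite.of_injective φ hφ

private theorem LPH_basis {u : RatFunc k} {n : ℕ} {E : Type u} [AddCommGroup E]
    [Module (RatFunc k) E] (b : Module.Basis (Fin n) (RatFunc k) E) (i : Fin n) (j : Fin n) :
    b.repr (b i) j ∈ kk k u := by
  rw [Module.Basis.repr_self]
  by_cases h : i = j
  · subst h; rw [Finsupp.single_eq_same]; exact Subalgebra.one_mem _
  · rw [Finsupp.single_eq_of_ne (by simpa [eq_comm] using h)]; exact Subalgebra.zero_mem _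

private theorem LPH_01 (V : LP k F.F) (V' : LP k F'.F) (f : F.F →ₗ[D.L] F'.F)
    (hf : ∀ v ∈ V.N0, f v ∈ V'.N0) : ∀ v ∈ V.N01, f v ∈ V'.N01 := by
  intro v hv
  obtain ⟨n, hn⟩ := V.mem_N01.1 hv
  refine V'.mem_N01.2 ⟨n, ?_⟩
  rw [← LPH_smul]
  exact hf _ hn

private theorem LPH_10 (V : LP k F.F) (V' : LP k F'.F) (f : F.F →ₗ[D.L] F'.F)
    (hf : ∀ v ∈ V.N1, f v ∈ V'.N1) : ∀ v ∈ V.N01, f v ∈ V'.N01 := by
  intro v hv
  obtain ⟨n, hn⟩ := V.mem_N01'.1 hv
  refine V'.mem_N01'.2 ⟨n, ?_⟩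
  rw [← LPH_smul]
  exact hf _ hn

private theorem LPH_to0 (V : LP k F.F) (V' : LP k F'.F) (f : F.F →ₗ[D.L] F'.F)
    (hf : ∀ v ∈ V.N01, f v ∈ V'.N01) : ∃ n : ℕ, ∀ v ∈ V.N0, (X : RatFunc k) ^ n • f v ∈ V'.N0 := by
  obtain ⟨S, hS⟩ := V.fg0
  have h1 : ∀ s : F.F, ∃ n : ℕ, s ∈ S → ∀ m : ℕ, n ≤ m → (X : RatFunc k) ^ m • f s ∈ V'.N0 := by
    intro s
    by_cases hs : s ∈ S
    · have h2 : s ∈ V.N0 := hS ▸ Submodule.subset_span hs
      obtain ⟨n, hn⟩ := V'.mem_N01.1 (hf s (V.N0_le h2))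
      refine ⟨n, fun _ m hm => ?_⟩
      obtain ⟨l, rfl⟩ := Nat.exists_eq_add_of_le hm
      rw [add_comm, pow_add, mul_smul]
      exact V'.X_pow_mem hn l
    · exact ⟨0, fun h => absurd h hs⟩
  choose N hN using h1
  refine ⟨∑ s ∈ S, N s, fun v hv => ?_⟩
  rw [← hS] at hv
  refine Submodule.span_induction
    (p := fun v _ => (X : RatFunc k) ^ (∑ s ∈ S, N s) • f v ∈ V'.N0) ?_ ?_ ?_ ?_ hv
  · intro s hs
    exact hN s hs _ (Finset.single_le_sum (fun i _ => Nat.zero_le (N i)) hs)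
  · rw [map_zero, smul_zero]; exact V'.N0.zero_mem
  · intro x y _ _ hx hy
    rw [map_add, smul_add]; exact V'.N0.add_mem hx hy
  · intro c x _ hx
    have h3 : (X : RatFunc k) ^ (∑ s ∈ S, N s) • f (c • x) =
        c • ((X : RatFunc k) ^ (∑ s ∈ S, N s) • f x) := by
      rw [show f (c • x) = (c : RatFunc k) • f x from LPH_smul _ _ _, smul_comm]
      rfl
    rw [h3]
    exact V'.N0.smul_mem c hx

private theorem LPH_to1 (V : LP k F.F) (V' : LP k F'.F) (f : F.F →ₗ[D.L] F'.F)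
    (hf : ∀ v ∈ V.N01, f v ∈ V'.N01) :
    ∃ n : ℕ, ∀ v ∈ V.N1, ((X : RatFunc k)⁻¹) ^ n • f v ∈ V'.N1 := by
  obtain ⟨S, hS⟩ := V.fg1
  have h1 : ∀ s : F.F, ∃ n : ℕ, s ∈ S → ∀ m : ℕ, n ≤ m →
      ((X : RatFunc k)⁻¹) ^ m • f s ∈ V'.N1 := by
    intro s
    by_cases hs : s ∈ S
    · have h2 : s ∈ V.N1 := hS ▸ Submodule.subset_span hs
      obtain ⟨n, hn⟩ := V'.mem_N01'.1 (hf s (V.N1_le h2))
      refine ⟨n, fun _ m hm => ?_⟩
      obtain ⟨l, rfl⟩ := Nat.exists_eq_add_of_le hm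
      rw [add_comm, pow_add, mul_smul]
      exact V'.Xi_pow_mem hn l
    · exact ⟨0, fun h => absurd h hs⟩
  choose N hN using h1
  refine ⟨∑ s ∈ S, N s, fun v hv => ?_⟩
  rw [← hS] at hv
  refine Submodule.span_induction
    (p := fun v _ => ((X : RatFunc k)⁻¹) ^ (∑ s ∈ S, N s) • f v ∈ V'.N1) ?_ ?_ ?_ ?_ hv
  · intro s hs
    exact hN s hs _ (Finset.single_le_sum (fun i _ => Nat.zero_le (N i)) hs)
  · rw [map_zero, smul_zero]; exact V'.N1.zero_mem
  · intro x y _ _ hx hy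
    rw [map_add, smul_add]; exact V'.N1.add_mem hx hy
  · intro c x _ hx
    have h3 : ((X : RatFunc k)⁻¹) ^ (∑ s ∈ S, N s) • f (c • x) =
        c • (((X : RatFunc k)⁻¹) ^ (∑ s ∈ S, N s) • f x) := by
      rw [show f (c • x) = (c : RatFunc k) • f x from LPH_smul _ _ _, smul_comm]
      rfl
    rw [h3]
    exact V'.N1.smul_mem c hx

/-- The homomorphisms between two vector bundles on the curve. -/
noncomputable def LP.hom (V : LP k F.F) (V' : LP k F'.F) : LP k (F.F →ₗ[D.L] F'.F) where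
  N0 :=
    { carrier := {f | ∀ v ∈ V.N0, f v ∈ V'.N0}
      add_mem' := fun {_ _} hf hg v hv => V'.N0.add_mem (hf v hv) (hg v hv)
      zero_mem' := fun _ _ => V'.N0.zero_mem
      smul_mem' := fun c _ hf v hv => V'.N0.smul_mem c (hf v hv) }
  N1 :=
    { carrier := {f | ∀ v ∈ V.N1, f v ∈ V'.N1}
      add_mem' := fun {_ _} hf hg v hv => V'.N1.add_mem (hf v hv) (hg v hv)
      zero_mem' := fun _ _ => V'.N1.zero_mem
      smul_mem' := fun c _ hf v hv => V'.N1.smul_mem c (hf v hv) }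
  fg0 := by
    obtain ⟨n, b, hb⟩ := exists_basis_X V.fg0 V.sp0
    obtain ⟨m, b', hb'⟩ := exists_basis_X V'.fg0 V'.sp0
    refine LPH_fg b b' _ fun f hf i => ?_
    exact (hb' _).1 (hf _ ((hb _).2 fun j => LPH_basis b i j))
  fg1 := by
    obtain ⟨n, b, hb⟩ := exists_basis_Xi V.fg1 V.sp1
    obtain ⟨m, b', hb'⟩ := exists_basis_Xi V'.fg1 V'.sp1
    refine LPH_fg b b' _ fun f hf i => ?_
    exact (hb' _).1 (hf _ ((hb _).2 fun j => LPH_basis b i j))
  sp0 := by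
    rw [span_top_iff_X]
    intro f
    obtain ⟨g, hg, h⟩ := exists_smul_le_X (V.fg0.map (LPH_map X f)) V'.sp0
    exact ⟨g, hg, fun v hv => h _ (Submodule.mem_map_of_mem hv)⟩
  sp1 := by
    rw [span_top_iff_Xi]
    intro f
    obtain ⟨g, hg, h⟩ := exists_smul_le_Xi (V.fg1.map (LPH_map X⁻¹ f)) V'.sp1
    exact ⟨g, hg, fun v hv => h _ (Submodule.mem_map_of_mem hv)⟩
  loc01 := by
    intro f hf
    obtain ⟨n, hn⟩ := LPH_to1 V V' f (LPH_01 V V' f hf)
    exact ⟨n, hn⟩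
  loc10 := by
    intro f hf
    obtain ⟨n, hn⟩ := LPH_to0 V V' f (LPH_10 V V' f hf)
    exact ⟨n, hn⟩

theorem LP.mem_hom_N0 (V : LP k F.F) (V' : LP k F'.F) (f : F.F →ₗ[D.L] F'.F) :
    f ∈ (V.hom V').N0 ↔ ∀ v ∈ V.N0, f v ∈ V'.N0 := Iff.rfl

theorem LP.mem_hom_N1 (V : LP k F.F) (V' : LP k F'.F) (f : F.F →ₗ[D.L] F'.F) :
    f ∈ (V.hom V').N1 ↔ ∀ v ∈ V.N1, f v ∈ V'.N1 := Iff.rfl

theorem LP.mem_hom_N01 (V : LP k F.F) (V' : LP k F'.F) (f : F.F →ₗ[D.L] F'.F) :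
    f ∈ (V.hom V').N01 ↔ ∀ v ∈ V.N01, f v ∈ V'.N01 := by
  constructor
  · rintro ⟨n, hn⟩ v ⟨m, hm⟩
    refine V'.mem_N01.2 ⟨n + m, ?_⟩
    have h := (LP.mem_hom_N0 V V' _).1 hn _ hm
    rw [LinearMap.smul_apply, LPH_smul, smul_smul, ← pow_add] at h
    exact h
  · intro h
    obtain ⟨n, hn⟩ := LPH_to0 V V' f h
    exact ⟨n, (LP.mem_hom_N0 V V' _).2 hn⟩

end

end Pool.Agent.MP_6e5bed_ag_NC
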