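import Pool.Agent.Lib.MP_6e5bed_ag_CV.KK
import Pool.Agent.Lib.MP_6e5bed_ag_CV.LSpD

set_option autoImplicit false
set_option linter.unusedSectionVars false

/-!
# The structure sheaf of a curve (NC CURVES)
-/

namespace Pool.Agent.MP_6e5bed_ag_NC

open RatFunc

universe u

variable {k : Type u} [Field k]

private theorem LPO_fg (D : FExt k) (u : RatFunc k) [IsPrincipalIdealRing (kk k u)]
    [IsFractionRing (kk k u) (RatFunc k)] :
    (Subalgebra.toSubmodule (integralClosure (kk k u) D.L)).FG := by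
  have h : Module.Finite (kk k u) (integralClosure (kk k u) D.L) :=
    IsIntegralClosure.finite (kk k u) (RatFunc k) D.L (integralClosure (kk k u) D.L)
  exact Module.Finite.iff_fg.1 h

private theorem LPO_int (D : FExt k) (u : RatFunc k)
    [IsFractionRing (kk k u) (RatFunc k)] (v : D.L) :
    ∃ g : kk k u, g ≠ 0 ∧ g • v ∈ (Subalgebra.toSubmodule (integralClosure (kk k u) D.L)) := by
  have hv : IsAlgebraic (RatFunc k) v := Algebra.IsAlgebraic.isAlgebraic v
  have hv' : IsAlgebraic (kk k u) v :=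
    (IsFractionRing.isAlgebraic_iff (kk k u) (RatFunc k) D.L).2 hv
  obtain ⟨g, hg0, hg⟩ := hv'.exists_integral_multiple
  exact ⟨g, hg0, hg⟩

private theorem LPO_loc {u : RatFunc k} (D : FExt k)
    (hp : ∀ f ∈ kk k u, ∃ n : ℕ, ∀ m : ℕ, n ≤ m → (u⁻¹) ^ m * f ∈ kk k u⁻¹)
    (v : D.L) (hv : IsIntegral (kk k u) v) :
    ∃ n : ℕ, IsIntegral (kk k u⁻¹) ((u⁻¹ ^ n) • v) := by
  obtain ⟨p, hpm, hpv⟩ := hv
  have hN : ∃ N : ℕ, ∀ i, (u⁻¹) ^ N * (p.coeff i : RatFunc k) ∈ kk k u⁻¹ := by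
    have h1 : ∀ i, ∃ n : ℕ, ∀ m : ℕ, n ≤ m → (u⁻¹) ^ m * (p.coeff i : RatFunc k) ∈ kk k u⁻¹ :=
      fun i => hp _ (p.coeff i).2
    choose n hn using h1
    refine ⟨∑ i ∈ p.support, n i, fun i => ?_⟩
    by_cases hi : i ∈ p.support
    · exact hn i _ (Finset.single_le_sum (f := n) (fun _ _ => Nat.zero_le _) hi)
    · rw [Polynomial.notMem_support_iff.1 hi]
      simp
  obtain ⟨N, hN⟩ := hN
  have hg : u⁻¹ ∈ kk k u⁻¹ := Algebra.subset_adjoin (Set.mem_singleton _)
  have hsum : v ^ p.natDegree = - ∑ i ∈ Finset.range p.natDegree,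
      ((p.coeff i : RatFunc k)) • v ^ i := by
    have h2 := hpv
    rw [Polynomial.eval₂_eq_sum_range, Finset.sum_range_succ] at h2
    rw [Polynomial.Monic.coeff_natDegree hpm, map_one, one_mul] at h2
    rw [eq_neg_iff_add_eq_zero, add_comm]
    rw [← h2]
    congr 1
    refine Finset.sum_congr rfl fun i _ => ?_
    rw [Algebra.smul_def]
    rfl
  refine ⟨N, ?_⟩
  set d := p.natDegree with hd
  have hc : ∀ i ∈ Finset.range d, (u⁻¹) ^ (N * (d - i)) * (p.coeff i : RatFunc k) ∈ kk k u⁻¹ := by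
    intro i hi
    have hi' : i < d := Finset.mem_range.1 hi
    obtain ⟨e, he⟩ := Nat.exists_eq_add_of_lt hi'
    have : N * (d - i) = N * e + N := by
      rw [he]
      have : i + e + 1 - i = e + 1 := by omega
      rw [this, mul_add, mul_one]
    rw [this, pow_add, mul_assoc]
    exact Subalgebra.mul_mem _ (Subalgebra.pow_mem _ hg _) (hN i)
  let q : Polynomial (kk k u⁻¹) := Polynomial.X ^ d + ∑ i ∈ (Finset.range d).attach,
    Polynomial.C (⟨_, hc i.1 i.2⟩ : kk k u⁻¹) * Polynomial.X ^ i.1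
  refine ⟨q, ?_, ?_⟩
  · refine Polynomial.monic_X_pow_add ?_
    rw [← Polynomial.mem_degreeLT]
    refine Submodule.sum_mem _ fun i _ => Polynomial.mem_degreeLT.2 ?_
    refine (Polynomial.degree_C_mul_X_pow_le _ _).trans_lt ?_
    exact_mod_cast Finset.mem_range.1 i.2
  · show Polynomial.eval₂ _ _ (Polynomial.X ^ d + ∑ i ∈ (Finset.range d).attach,
      Polynomial.C (⟨_, hc i.1 i.2⟩ : kk k u⁻¹) * Polynomial.X ^ i.1) = 0
    rw [Polynomial.eval₂_add, Polynomial.eval₂_X_pow, Polynomial.eval₂_finsetSum, smul_pow, hsum]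
    rw [smul_neg, Finset.smul_sum, neg_add_eq_zero]
    rw [← Finset.sum_attach]
    refine Finset.sum_congr rfl fun i _ => ?_
    rw [Polynomial.eval₂_mul, Polynomial.eval₂_C, Polynomial.eval₂_X_pow, smul_pow]
    have h3 : (algebraMap (kk k u⁻¹) D.L) (⟨_, hc i.1 i.2⟩ : kk k u⁻¹) =
      algebraMap (RatFunc k) D.L ((u⁻¹) ^ (N * (d - i.1)) * (p.coeff i.1 : RatFunc k)) := rfl
    rw [h3, ← Algebra.smul_def, smul_smul, smul_smul]
    congr 1
    have hi' : i.1 < d := Finset.mem_range.1 i.2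
    rw [← pow_mul, ← pow_mul, mul_right_comm, ← pow_add, ← mul_add]
    congr 3
    omega

namespace LP

section

variable {D : FExt k}

/-- The lattice pair of the structure sheaf of the curve: the integral closures of `k[t]` and
`k[1/t]`. -/
noncomputable def OO (D : FExt k) : LP k D.L where
  N0 := (integralClosure (kk k X) D.L).toSubmodule
  N1 := (integralClosure (kk k X⁻¹) D.L).toSubmodule
  fg0 := LPO_fg D X
  fg1 := LPO_fg D X⁻¹
  sp0 := (span_top_iff_X _).2 fun v => LPO_int D X v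
  sp1 := (span_top_iff_Xi _).2 fun v => LPO_int D X⁻¹ v
  loc01 := fun v hv => LPO_loc D (fun _ hf => kk_pow_X hf) v hv
  loc10 := fun v hv => by
    have h := LPO_loc (u := (X : RatFunc k)⁻¹) D
      (fun f hf => by rw [inv_inv]; exact kk_pow_Xi hf) v hv
    rw [inv_inv] at h
    exact h

theorem mem_OO_N0 (b : D.L) : b ∈ (OO D).N0 ↔ IsIntegral (kk k X) b := Iff.rfl

theorem mem_OO_N1 (b : D.L) : b ∈ (OO D).N1 ↔ IsIntegral (kk k X⁻¹) b := Iff.rfl

/-- Stability under the structure sheaf of the curve. -/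
def BStable {F : LSp D} (V : LP k F.F) : Prop :=
  (∀ b ∈ (OO D).N0, ∀ v ∈ V.N0, b • v ∈ V.N0) ∧ ∀ b ∈ (OO D).N1, ∀ v ∈ V.N1, b • v ∈ V.N1

end

end LP

end Pool.Agent.MP_6e5bed_ag_NC
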