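import Pool.Agent.Lib.MP_6e5bed_ag_CV.LPB
import Pool.Agent.Lib.MP_6e5bed_ag_CV.LPO
import Pool.Agent.Lib.MP_6e5bed_ag_CV.LPH
import Pool.Agent.Lib.MP_6e5bed_ag_CV.LFin

set_option autoImplicit false
set_option linter.unusedSectionVars false

/-!
# Vector bundles on curves, and their endomorphism dg algebras
-/

namespace Pool.Agent.MP_6e5bed_ag_NC

open RatFunc

universe u

variable {k : Type u} [Field k]

/-- The vector space `F ⊕ L ⊕ L`. -/
noncomputable def LSp.plus {D : FExt k} (F : LSp D) : LSp D where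
  F := F.F × D.L × D.L

/-- The vector bundle `V ⊕ O ⊕ O(1)`. -/
noncomputable def LP.plus {D : FExt k} {F : LSp D} (V : LP k F.F) : LP k F.plus.F :=
  V.prod ((LP.OO D).prod ((LP.OO D).tw 1))

section

variable {D : FExt k} {F : LSp D} (V : LP k F.F)

/-- The endomorphisms of `F` which preserve `V` at `0`. -/
noncomputable def EA0 : Subalgebra k (Module.End D.L F.F) where
  carrier := {f | ∀ v ∈ V.N0, f v ∈ V.N0}
  mul_mem' := fun {_ _} hf hg v hv => hf _ (hg v hv)
  add_mem' := fun {_ _} hf hg v hv => V.N0.add_mem (hf v hv) (hg v hv)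
  algebraMap_mem' := fun c v hv => by
    exact Submodule.smul_mem (Submodule.restrictScalars k V.N0) c hv

/-- The endomorphisms of `F` which preserve `V` at infinity. -/
noncomputable def EA1 : Subalgebra k (Module.End D.L F.F) where
  carrier := {f | ∀ v ∈ V.N1, f v ∈ V.N1}
  mul_mem' := fun {_ _} hf hg v hv => hf _ (hg v hv)
  add_mem' := fun {_ _} hf hg v hv => V.N1.add_mem (hf v hv) (hg v hv)
  algebraMap_mem' := fun c v hv => by
    exact Submodule.smul_mem (Submodule.restrictScalars k V.N1) c hv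

/-- The endomorphisms of `F` which preserve the localization of `V`. -/
noncomputable def EA01 : Subalgebra k (Module.End D.L F.F) where
  carrier := {f | ∀ v ∈ V.N01, f v ∈ V.N01}
  mul_mem' := fun {_ _} hf hg v hv => hf _ (hg v hv)
  add_mem' := fun {_ _} hf hg v hv => V.N01.add_mem (hf v hv) (hg v hv)
  algebraMap_mem' := fun c _ hv => V.N01.smul_mem c hv

theorem EA0_le : EA0 V ≤ EA01 V := fun f hf v hv => by
  obtain ⟨n, hn⟩ := hv
  refine ⟨n, ?_⟩
  have h : (X : RatFunc k) ^ n • f v = f ((X : RatFunc k) ^ n • v) :=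
    ((f.restrictScalars (RatFunc k)).map_smul _ v).symm
  rw [h]
  exact hf _ hn

theorem EA1_le : EA1 V ≤ EA01 V := fun f hf v hv => by
  obtain ⟨n, hn⟩ := V.mem_N01'.1 hv
  refine V.mem_N01'.2 ⟨n, ?_⟩
  have h : ((X : RatFunc k)⁻¹) ^ n • f v = f (((X : RatFunc k)⁻¹) ^ n • v) :=
    ((f.restrictScalars (RatFunc k)).map_smul _ v).symm
  rw [h]
  exact hf _ hn

/-- The endomorphisms of a vector bundle on a curve. -/
noncomputable def endCosp : Cosp k where
  A0 := EA0 V
  A1 := EA1 V
  A01 := EA01 V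
  r0 := Subalgebra.inclusion (EA0_le V)
  r1 := Subalgebra.inclusion (EA1_le V)

/-- The left action of the endomorphisms on `F`. -/
noncomputable def endAct : (endCosp V).A01 →ₗ[k] F.F →ₗ[D.L] F.F := (EA01 V).val.toLinearMap

/-- The generic fibre of the endomorphisms. -/
noncomputable def endG : GBi k (endCosp V).A01 (endCosp V).A01 where
  E := Module.End D.L F.F
  l := LinearMap.mk₂' k (RatFunc k) (fun (a : EA01 V) f => a.1 * f)
    (fun (a a' : EA01 V) f => add_mul a.1 a'.1 f) (fun c (a : EA01 V) f => smul_mul_assoc c a.1 f)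
    (fun (a : EA01 V) f f' => mul_add a.1 f f') (fun c (a : EA01 V) f => mul_smul_comm c a.1 f)
  r := LinearMap.mk₂' k (RatFunc k) (fun (a : EA01 V) f => f * a.1)
    (fun (a a' : EA01 V) f => mul_add f a.1 a'.1) (fun c (a : EA01 V) f => mul_smul_comm c f a.1)
    (fun (a : EA01 V) f f' => add_mul f f' a.1) (fun c (a : EA01 V) f => smul_mul_assoc c f a.1)
  l_one := fun v => by
    change (1 : Module.End D.L F.F) * v = v
    simp
  r_one := fun v => by
    change v * (1 : Module.End D.L F.F) = v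
    simp
  l_mul := fun (a a' : EA01 V) f => mul_assoc a.1 a'.1 f
  r_mul := fun (a a' : EA01 V) f => (mul_assoc f a.1 a'.1).symm
  l_r := fun (a b : EA01 V) f => (mul_assoc a.1 f b.1).symm

theorem stable_end : LP.Stable (S := endCosp V) (T := endCosp V) (endG V) (V.hom V) := by
  constructor
  · intro a v hv w hw
    exact a.2 _ (hv w hw)
  · intro b v hv w hw
    exact hv _ (b.2 w hw)
  · intro a v hv w hw
    exact a.2 _ (hv w hw)
  · intro b v hv w hw
    exact hv _ (b.2 w hw)
  · intro a v hv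
    refine (LP.mem_hom_N01 V V _).2 (fun w hw => ?_)
    exact a.2 _ ((LP.mem_hom_N01 V V v).1 hv w hw)
  · intro b v hv
    refine (LP.mem_hom_N01 V V _).2 (fun w hw => ?_)
    exact (LP.mem_hom_N01 V V v).1 hv _ (b.2 w hw)

/-- The identity, from the lattice pair of endomorphisms to the cospan. -/
noncomputable def Datum_hom : Tri.Hom (LP.tri (stable_end V)) (Tri.diag (endCosp V)) where
  f0 :=
    { toFun := fun f => ⟨f.1, f.2⟩
      map_add' := fun _ _ => rfl
      map_smul' := fun _ _ => rfl }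
  f1 :=
    { toFun := fun f => ⟨f.1, f.2⟩
      map_add' := fun _ _ => rfl
      map_smul' := fun _ _ => rfl }
  f01 :=
    { toFun := fun f => ⟨f.1, (LP.mem_hom_N01 V V f.1).1 f.2⟩
      map_add' := fun _ _ => rfl
      map_smul' := fun _ _ => rfl }
  l0 := fun _ _ => rfl
  r0 := fun _ _ => rfl
  l1 := fun _ _ => rfl
  r1 := fun _ _ => rfl
  l01 := fun _ _ => rfl
  r01 := fun _ _ => rfl
  ρ0 := fun _ => rfl
  ρ1 := fun _ => rfl

/-- The diagonal bimodule is the bimodule of the lattice pair of endomorphisms. -/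
theorem endDiag : BIso (LP.tri (stable_end V)).bim (MP_6e5bed_ag_NC.diag (endCosp V).cech) := by
  refine BIso.trans (Tri.biso (Datum_hom V) ⟨?_, ?_⟩ ⟨?_, ?_⟩ ⟨?_, ?_⟩)
    (Tri.bim_diag (endCosp V))
  · intro f g hfg
    have h : f.1 = g.1 := congrArg (fun z : EA0 V => z.1) hfg
    exact Subtype.ext h
  · intro f
    exact ⟨⟨f.1, f.2⟩, rfl⟩
  · intro f g hfg
    have h : f.1 = g.1 := congrArg (fun z : EA1 V => z.1) hfg
    exact Subtype.ext h
  · intro f
    exact ⟨⟨f.1, f.2⟩, rfl⟩
  · intro f g hfg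
    have h : f.1 = g.1 := congrArg (fun z : EA01 V => z.1) hfg
    exact Subtype.ext h
  · intro f
    exact ⟨⟨f.1, (LP.mem_hom_N01 V V f.1).2 f.2⟩, rfl⟩

theorem proper_end : Proper (endCosp V).cech := by
  rw [proper_iff]
  have h1 : (LP.tri (stable_end V)).bim.dg.FinCoh := LP.finCoh (stable_end V)
  have h2 : (MP_6e5bed_ag_NC.diag (endCosp V).cech).dg.FinCoh :=
    FinCoh.summand (endDiag V).summand h1
  exact h2

end

/-- `W` is the dg algebra `RΓ(C, End V) = REnd V` of the endomorphisms of `V = V' ⊕ O ⊕ O(1)` for a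
vector bundle `V'` on a smooth projective curve `C`: the dg algebra of a curve. -/
def IsCurve (W : DGA k) : Prop := ∃ (D : FExt k) (F : LSp D) (V : LP k F.F), LP.BStable V ∧
  W = (endCosp V.plus).cech

end Pool.Agent.MP_6e5bed_ag_NC
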