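import Pool.Agent.Lib.MP_6e5bed_ag_CV.LemB
import Pool.Agent.Lib.MP_6e5bed_ag_CV.LTens

set_option autoImplicit false
set_option linter.unusedSectionVars false

/-!
# Simple bimodules over the generic point (NC CURVES)
-/

namespace Pool.Agent.MP_6e5bed_ag_NC

open RatFunc
open scoped TensorProduct

universe u

variable {k : Type u} [Field k] {R R' : Type u} [Ring R] [Algebra k R] [Ring R'] [Algebra k R']

/-- a filtration indexed by natural numbers gives `Ser` -/
private theorem lemC_ser (G₀ : GBi k R R') : ∀ (n : ℕ) (H : GBi k R R')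
    (U : ℕ → Submodule (RatFunc k) H.E) (θ : ℕ → H.E →ₗ[RatFunc k] G₀.E),
    U 0 = ⊥ → U n = ⊤ → (∀ i < n, U i ≤ U (i + 1)) →
    (∀ i < n, ∀ z ∈ U (i + 1), (θ i z = 0 ↔ z ∈ U i)) →
    (∀ i < n, ∀ x : G₀.E, ∃ z ∈ U (i + 1), θ i z = x) →
    (∀ i < n, H.Stab (U i)) →
    (∀ i < n, ∀ z ∈ U (i + 1), ∀ a, θ i (H.l a z) = G₀.l a (θ i z)) →
    (∀ i < n, ∀ z ∈ U (i + 1), ∀ b, θ i (H.r b z) = G₀.r b (θ i z)) →
    GBi.Ser G₀ H n := by
  intro n
  induction n with
  | zero =>
    intro H U θ h0 h1 _ _ _ _ _ _
    refine GBi.Ser.zero ?_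
    have h2 : (⊥ : Submodule (RatFunc k) H.E) = ⊤ := h0.symm.trans h1
    exact (Submodule.subsingleton_iff (RatFunc k)).1 (subsingleton_iff_bot_eq_top.1 h2)
  | succ n ih =>
    intro H U θ h0 h1 hm hk hs hst hl hr
    have hmono : ∀ j, j ≤ n → ∀ i, i ≤ j → U i ≤ U j := by
      intro j
      induction j with
      | zero =>
        intro _ i hi
        rw [Nat.le_zero.1 hi]
      | succ j ihj =>
        intro hj i hi
        rcases Nat.lt_or_ge i (j + 1) with h | h
        · exact (ihj (by omega) i (by omega)).trans (hm j (by omega))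
        · rw [le_antisymm hi h]
    refine GBi.Ser.step (U n) (hst n (by omega)) ?_ ?_
    · refine ih (H.sub (U n) (hst n (by omega)))
        (fun i => (U i).comap (U n).subtype) (fun i => (θ i).comp (U n).subtype) ?_ ?_ ?_ ?_ ?_ ?_
        ?_ ?_
      · show (U 0).comap (U n).subtype = ⊥
        rw [h0]
        exact (Submodule.ker_subtype (U n))
      · exact Submodule.comap_subtype_self (U n)
      · intro i hi
        exact Submodule.comap_mono (hm i (by omega))
      · intro i hi z hz
        exact hk i (by omega) z.1 hz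
      · intro i hi x
        obtain ⟨z, hz, hzx⟩ := hs i (by omega) x
        exact ⟨⟨z, hmono n le_rfl (i + 1) hi hz⟩, hz, hzx⟩
      · intro i hi
        exact ⟨fun a x hx => (hst i (by omega)).1 a x.1 hx,
          fun b x hx => (hst i (by omega)).2 b x.1 hx⟩
      · intro i hi z hz a
        exact hl i (by omega) z.1 hz a
      · intro i hi z hz b
        exact hr i (by omega) z.1 hz b
    · have hker : U n = LinearMap.ker (θ n) := by
        ext z
        rw [LinearMap.mem_ker]
        exact (hk n (by omega) z (by rw [h1]; exact Submodule.mem_top)).symm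
      have hsurj : Function.Surjective (θ n) := by
        intro x
        obtain ⟨z, -, hz⟩ := hs n (by omega) x
        exact ⟨z, hz⟩
      let f : (H.E ⧸ U n) ≃ₗ[RatFunc k] G₀.E :=
        (Submodule.quotEquivOfEq _ _ hker).trans
          (LinearMap.quotKerEquivOfSurjective (θ n) hsurj)
      refine ⟨f, ?_, ?_⟩
      · intro a x
        obtain ⟨z, rfl⟩ := (U n).mkQ_surjective x
        exact hl n (by omega) z (by rw [h1]; exact Submodule.mem_top) a
      · intro b x
        obtain ⟨z, rfl⟩ := (U n).mkQ_surjective x
        exact hr n (by omega) z (by rw [h1]; exact Submodule.mem_top) b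

/-- A simple bimodule over `k(t)` is a vector space over a finite separable extension `L` such that
the actions are linear over `L` and the tensor product over `L` has a filtration with all
subquotients isomorphic to it. -/
theorem GBi.lemmaS (G : GBi k R R') (hG : G.Simple) :
    ∃ (D : FExt k) (E : LSp D) (l : LAct R E) (r : RAct R' E)
      (h : ∀ a b v, l.f a (r.f b v) = r.f b (l.f a v)) (n : ℕ),
      GBi.Iso G (GBi.ofAct l r h) ∧ 0 < n ∧ GBi.Ser G (tensG l r) n := by
  obtain ⟨P, hP⟩ : ∃ P : Subalgebra (RatFunc k) (Module.End (RatFunc k) G.E),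
      P = Algebra.adjoin (RatFunc k) (Set.range fun a => (G.l a : Module.End (RatFunc k) G.E)) :=
    ⟨_, rfl⟩
  obtain ⟨Q, hQ⟩ : ∃ Q : Subalgebra (RatFunc k) (Module.End (RatFunc k) G.E),
      Q = Algebra.adjoin (RatFunc k) (Set.range fun b => (G.r b : Module.End (RatFunc k) G.E)) :=
    ⟨_, rfl⟩
  have hlP : ∀ a, (G.l a : Module.End (RatFunc k) G.E) ∈ P := fun a => by
    rw [hP]
    exact Algebra.subset_adjoin ⟨a, rfl⟩
  have hrQ : ∀ b, (G.r b : Module.End (RatFunc k) G.E) ∈ Q := fun b => by
    rw [hQ]
    exact Algebra.subset_adjoin ⟨b, rfl⟩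
  have hc : ∀ p ∈ P, ∀ q ∈ Q, p * q = q * p := by
    have h1 : ∀ b, ∀ p ∈ P, (G.r b : Module.End (RatFunc k) G.E) * p = p * G.r b := by
      intro b p hp
      have h2 : P ≤ Subalgebra.centralizer (RatFunc k)
          {(G.r b : Module.End (RatFunc k) G.E)} := by
        rw [hP]
        refine Algebra.adjoin_le ?_
        rintro _ ⟨a, rfl⟩
        rw [SetLike.mem_coe, Subalgebra.mem_centralizer_iff]
        intro g hg
        rw [Set.mem_singleton_iff] at hg
        rw [hg]
        refine LinearMap.ext fun x => ?_
        exact (G.l_r a b x).symm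
      have h3 := h2 hp
      rw [Subalgebra.mem_centralizer_iff] at h3
      exact h3 _ rfl
    intro p hp q hq
    have h2 : Q ≤ Subalgebra.centralizer (RatFunc k) (P : Set (Module.End (RatFunc k) G.E)) := by
      rw [hQ]
      refine Algebra.adjoin_le ?_
      rintro _ ⟨b, rfl⟩
      rw [SetLike.mem_coe, Subalgebra.mem_centralizer_iff]
      intro g hg
      exact (h1 b g hg).symm
    have h3 := h2 hq
    rw [Subalgebra.mem_centralizer_iff] at h3
    exact h3 p hp
  obtain ⟨L, i1, i2, i3, i4, i5, i6, hPL, hQL, n, U, θ, hn, hU0, hUn, hstep⟩ :=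
    flag (RatFunc k) G.E P Q hc hG.1 (fun U h1 h2 =>
      hG.2 U ⟨fun a x hx => h1 _ (hlP a) x hx, fun b x hx => h2 _ (hrQ b) x hx⟩)
  let i7 : Algebra k L := ((algebraMap (RatFunc k) L).comp (algebraMap k (RatFunc k))).toAlgebra
  have i8 : IsScalarTower k (RatFunc k) L := IsScalarTower.of_algebraMap_eq fun _ => rfl
  have i9 : IsScalarTower k L G.E := IsScalarTower.of_algebraMap_smul fun c x => by
    show algebraMap (RatFunc k) L (algebraMap k (RatFunc k) c) • x = c • x
    rw [algebraMap_smul, algebraMap_smul]
  let D : FExt k := { L := L }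
  let E : LSp D := { F := G.E }
  let l : LAct R E :=
    { f :=
        { toFun := fun a =>
            { toFun := G.l a
              map_add' := fun x y => map_add _ x y
              map_smul' := fun c x => hPL _ (hlP a) c x }
          map_add' := fun a b => by
            ext x
            show G.l (a + b) x = G.l a x + G.l b x
            rw [map_add]
            rfl
          map_smul' := fun c a => by
            ext x
            show G.l (c • a) x = c • G.l a x
            rw [map_smul]
            rfl }
      one := G.l_one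
      mul := G.l_mul }
  let r : RAct R' E :=
    { f :=
        { toFun := fun a =>
            { toFun := G.r a
              map_add' := fun x y => map_add _ x y
              map_smul' := fun c x => hQL _ (hrQ a) c x }
          map_add' := fun a b => by
            ext x
            show G.r (a + b) x = G.r a x + G.r b x
            rw [map_add]
            rfl
          map_smul' := fun c a => by
            ext x
            show G.r (c • a) x = c • G.r a x
            rw [map_smul]
            rfl }
      one := G.r_one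
      mul := G.r_mul }
  refine ⟨D, E, l, r, fun a b v => G.l_r a b v, n, ⟨LinearEquiv.refl _ _, fun a x => rfl,
    fun b x => rfl⟩, hn, ?_⟩
  refine lemC_ser G n (tensG l r) U θ hU0 hUn (fun i hi => (hstep i hi).1)
    (fun i hi => (hstep i hi).2.1) (fun i hi => (hstep i hi).2.2.1)
    (fun i hi => ⟨fun a z hz => ((hstep i hi).2.2.2.1 (l.f a) (hlP a)).1 z hz,
      fun b z hz => ((hstep i hi).2.2.2.2 (r.f b) (hrQ b)).1 z hz⟩)
    (fun i hi z hz a => (((hstep i hi).2.2.2.1 (l.f a) (hlP a)).2 z hz).2)
    (fun i hi z hz b => (((hstep i hi).2.2.2.2 (r.f b) (hrQ b)).2 z hz).2)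

end Pool.Agent.MP_6e5bed_ag_NC
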