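import Pool.Agent.Lib.MP_6e5bed_ag_CV.MStepA
import Pool.Agent.Lib.MP_6e5bed_ag_CV.CornerB
import Pool.Agent.Lib.MP_6e5bed_ag_CV.LemC
import Pool.Agent.Lib.MP_6e5bed_ag_CV.BSpan

set_option autoImplicit false
set_option linter.unusedSectionVars false

/-!
# The classes of lattice pairs factor through curves (NC CURVES)
-/

namespace Pool.Agent.MP_6e5bed_ag_NC

open RatFunc LP
open scoped TensorProduct

universe u

variable {k : Type u} [Field k]

/-- Two classes of the same bimodule are equal modulo `J`. -/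
private theorem mstepB_sub {S T : Cosp k} {J : Submodule ℚ (K0Q S.cech T.cech)}
    (hJ : TorsIn J) {G : GBi k S.A01 T.A01} {c c' : K0Q S.cech T.cech} (hc : IsG J G c)
    (hc' : IsG J G c') : c - c' ∈ J := by
  obtain ⟨N, h, hN, hm⟩ := hc
  have h1 := J.sub_mem (hc'.eq hJ h hN) hm
  rwa [sub_sub_sub_cancel_left] at h1

/-- The class of a simple bimodule is zero modulo classes which factor through `k` or a curve. -/
theorem main_simple [IsAlgClosed k] {Good : DGA k → Prop} (hG : Good (base k))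
    (hC : ∀ W, IsCurve W → Smooth W ∧ Good W) {A : Cosp k} (hA : Smooth A.cech)
    {G : GBi k A.A01 A.A01} (hG' : G.Simple) {N : LP k G.E} (hN : Stable G N) :
    IsG (JS Good A.cech) G 0 := by
  have hJ : TorsIn (JS Good A.cech) := torsIn_JS hG hA
  obtain ⟨D, E, l, r, h, n, iso, hn, ser⟩ := G.lemmaS hG'
  obtain ⟨N₁, h₁, -⟩ := exists_iso iso hN
  have hl₁ : l.St (S := A) N₁ := ⟨h₁.l0, h₁.l1, h₁.l01⟩
  have hr₁ : r.St (S := A) N₁ := ⟨h₁.r0, h₁.r1, h₁.r01⟩
  obtain ⟨N', hB, hl', hr'⟩ := exists_bstable hl₁ hr₁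
  obtain ⟨φ, hφ⟩ := exists_phi hl'
  obtain ⟨hs, hg⟩ := hC (endCosp N'.plus).cech ⟨D, E, N', hB, rfl⟩
  have h0 : IsG (JS Good A.cech) (tensG l r) 0 :=
    (cls_corner hA hl' hr' hs hg φ).iso (corner_iso φ hφ)
  have res : HasRes (tri hN).bim := HasRes.of_finCoh hA hA _ (LP.finCoh hN)
  have hc : IsG (JS Good A.cech) G (rcls _ res) :=
    ⟨N, hN, res, by rw [sub_self]; exact Submodule.zero_mem _⟩
  have h2 := IsG.ser hJ hA hA ser (stable_tens hl' hr') hc
  have h3 := mstepB_sub hJ h2 h0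
  rw [sub_zero] at h3
  have h4 : rcls _ res ∈ JS Good A.cech := by
    have h5 := Submodule.smul_mem _ ((n : ℚ)⁻¹) h3
    rwa [inv_smul_smul₀ (Nat.cast_ne_zero.2 hn.ne')] at h5
  exact hc.congr (by rw [sub_zero]; exact h4)

/-- The class of any bimodule with a stable lattice pair. -/
theorem main_all [IsAlgClosed k] {Good : DGA k → Prop} (hG : Good (base k))
    (hC : ∀ W, IsCurve W → Smooth W ∧ Good W) {A : Cosp k} (hA : Smooth A.cech)
    (G : GBi k A.A01 A.A01) {N : LP k G.E} (hN : Stable G N) :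
    IsG (JS Good A.cech) G 0 := by
  have hJ : TorsIn (JS Good A.cech) := torsIn_JS hG hA
  have key : ∀ N : LP k G.E, Stable G N → IsG (JS Good A.cech) G 0 := by
    refine GBi.ind (P := fun G => ∀ N : LP k G.E, Stable G N → IsG (JS Good A.cech) G 0)
      ?_ ?_ ?_ G
    · intro G h _ _
      exact IsG.zero h
    · intro G h N hN
      exact main_simple hG hC hA h hN
    · intro G U hU h1 h2 N hN
      obtain ⟨N', h', N'', h'', -⟩ := ses_sub hN U hU
      have h3 := IsG.add hJ hA hA U hU hN (h1 N' h') (h2 N'' h'')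
      rwa [add_zero] at h3
  exact key N hN

end Pool.Agent.MP_6e5bed_ag_NC
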