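import Pool.Agent.Lib.MP_6e5bed_ag_CV.CohDec
import Pool.Agent.Lib.MP_6e5bed_ag_CV.MStepB

set_option autoImplicit false
set_option linter.unusedSectionVars false

/-!
# The identity of a coherent algebra factors through curves (NC CURVES)
-/

namespace Pool.Agent.MP_6e5bed_ag_NC

open RatFunc
open scoped TensorProduct

universe u

variable {k : Type u} [Field k]

/-- The class of a coherent bimodule is in `J`, if the classes of torsion bimodules and of lattice
pairs are in `J`. -/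
theorem coh_mem {A : Cosp k} (hA : Smooth A.cech) {J : Submodule ℚ (K0Q A.cech A.cech)}
    (hJ : TorsIn J) (hall : ∀ (G : GBi k A.A01 A.A01) (N : LP k G.E), LP.Stable G N → IsG J G 0)
    {M : Tri A A} {t0 : M.M0.M →ₗ[k] M.M0.M}
    {s1 : M.M1.M →ₗ[k] M.M1.M} {t01 s01 : M.M01.M →ₗ[k] M.M01.M} (h : IsCohTri M t0 s1 t01 s01) :
    ∃ h : HasRes M.bim, rcls _ h ∈ J := by
  obtain ⟨τ, G, N, hN, hτ, hses⟩ := exists_dec h
  obtain ⟨hr, hm⟩ := hJ τ hτ
  have hN' : HasRes (LP.tri hN).bim := HasRes.of_finCoh hA hA _ (LP.finCoh hN)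
  have hm' : rcls _ hN' ∈ J := by
    have := (hall G N hN).eq hJ hN hN'
    rwa [sub_zero] at this
  have hM : HasRes M.bim := hses.mid hr hN'
  refine ⟨hM, ?_⟩
  rw [hses.rcls hr hM hN']
  exact J.add_mem hm hm'

theorem one_mem_gen {A : Cosp k} (hA : Smooth A.cech) {J : Submodule ℚ (K0Q A.cech A.cech)}
    (hJ : TorsIn J) (hall : ∀ (G : GBi k A.A01 A.A01) (N : LP k G.E), LP.Stable G N → IsG J G 0)
    {t : A.A0} {s : A.A1} (h : IsCoh A t s) : K0Q.one hA ∈ J := by
  obtain ⟨hr, hm⟩ := coh_mem hA hJ hall h.tri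
  have hd : HasRes (MP_6e5bed_ag_NC.diag A.cech) := hr.iso (Tri.bim_diag A)
  rw [← rcls_diag hA (proper_coh h) hd, ← rcls_iso (Tri.bim_diag A) hr hd]
  exact hm

theorem one_mem [IsAlgClosed k] {Good : DGA k → Prop} (hG : Good (base k))
    (hC : ∀ W, IsCurve W → Smooth W ∧ Good W) {A : Cosp k} {t : A.A0} {s : A.A1}
    (h : IsCoh A t s) (hA : Smooth A.cech) : K0Q.one hA ∈ JS Good A.cech :=
  one_mem_gen hA (torsIn_JS hG hA) (fun G _ hN => main_all hG hC hA G hN) h

end Pool.Agent.MP_6e5bed_ag_NC
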