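import Pool.Agent.Lib.MP_6e5bed_ag_CV.JSpan

set_option autoImplicit false

/-!
# Transitivity of factorizations (NC CURVES)
-/

namespace Pool.Agent.MP_6e5bed_ag_NC

universe u

variable {k : Type u} [Field k]

/-- If the identities of the dg algebras in `Good` factor through `Good'`, then everything which
factors through `Good` factors through `Good'`. -/
theorem JS.trans {Good Good' : DGA k → Prop} (T : DGA k)
    (h : ∀ X, Good X → ∃ (hs : Smooth X) (_ : Proper X), K0Q.one hs ∈ JS Good' X) :
    JS Good T ≤ JS Good' T := by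
  refine Submodule.span_le.2 ?_
  rintro z ⟨X, hX, f, g, hG, rfl⟩
  obtain ⟨hs, hp, hm⟩ := h X hG
  have key : ∀ o ∈ JS Good' X, K0Q.comp hX (K0Q.comp hX f o) g ∈ JS Good' T := by
    intro o ho
    refine Submodule.span_induction (p := fun o _ => K0Q.comp hX (K0Q.comp hX f o) g ∈
      JS Good' T) ?_ ?_ ?_ ?_ ho
    · rintro z ⟨Y, hY, a, b, hY', rfl⟩
      have h1 : K0Q.comp hX (K0Q.comp hX f (K0Q.comp hY a b)) g =
          K0Q.comp hY (K0Q.comp hX f a) (K0Q.comp hX b g) := by
        rw [← K0Q.comp_assoc, K0Q.comp_assoc]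
      rw [h1]
      exact JS.comp hY hY' _ _
    · simp
    · intro x y _ _ hx hy
      have h1 : K0Q.comp hX (K0Q.comp hX f (x + y)) g = K0Q.comp hX (K0Q.comp hX f x) g +
          K0Q.comp hX (K0Q.comp hX f y) g := by
        rw [map_add, map_add, LinearMap.add_apply]
      rw [h1]
      exact Submodule.add_mem _ hx hy
    · intro c x _ hx
      have h1 : K0Q.comp hX (K0Q.comp hX f (c • x)) g =
          c • K0Q.comp hX (K0Q.comp hX f x) g := by
        rw [map_smul, map_smul, LinearMap.smul_apply]
      rw [h1]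
      exact Submodule.smul_mem _ c hx
  have h2 := key _ hm
  rwa [K0Q.comp_one hs hp] at h2

end Pool.Agent.MP_6e5bed_ag_NC
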