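import Pool.Agent.Lib.MP_6e5bed_ag_CV.MStepB

set_option autoImplicit false
set_option linter.unusedSectionVars false

/-!
# The class of a simple bimodule: general form (NC CURVES)
-/

namespace Pool.Agent.MP_6e5bed_ag_NC

open RatFunc LP
open scoped TensorProduct

universe u

variable {k : Type u} [Field k]

theorem IsG.mono {S T : Cosp k} {J J' : Submodule ℚ (K0Q S.cech T.cech)} (hJ : J ≤ J')
    {G : GBi k S.A01 T.A01} {c : K0Q S.cech T.cech} (h : IsG J G c) : IsG J' G c := by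
  obtain ⟨N, h1, hN, hm⟩ := h
  exact ⟨N, h1, hN, hJ hm⟩

/-- The class of a simple bimodule is in `J`, if the classes of the corners are in `J`. -/
theorem main_simple_gen {A : Cosp k} (hA : Smooth A.cech)
    {J : Submodule ℚ (K0Q A.cech A.cech)} (hJ : TorsIn J) {G : GBi k A.A01 A.A01}
    (hG : G.Simple) {N : LP k G.E} (hN : Stable G N)
    (hcor : ∀ (D : FExt k) (E : LSp D) (l : LAct A.A01 E) (r : RAct A.A01 E)
      (h : ∀ a b v, l.f a (r.f b v) = r.f b (l.f a v)), GBi.Iso G (GBi.ofAct l r h) →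
      ∀ V : LP k E.F, BStable V → l.St V → r.St V → ∀ φ : NCosp A (endCosp V.plus),
        IsG J ((tensG (endL V.plus) r).corner φ.f01 φ.mul01) 0) : IsG J G 0 := by
  obtain ⟨D, E, l, r, h, n, iso, hn, ser⟩ := G.lemmaS hG
  obtain ⟨N₁, h₁, -⟩ := exists_iso iso hN
  have hl₁ : l.St (S := A) N₁ := ⟨h₁.l0, h₁.l1, h₁.l01⟩
  have hr₁ : r.St (S := A) N₁ := ⟨h₁.r0, h₁.r1, h₁.r01⟩
  obtain ⟨N', hB, hl', hr'⟩ := exists_bstable hl₁ hr₁
  obtain ⟨φ, hφ⟩ := exists_phi hl'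
  have h0 : IsG J (tensG l r) 0 :=
    (hcor D E l r h iso N' hB hl' hr' φ).iso (corner_iso φ hφ)
  have res : HasRes (tri hN).bim := HasRes.of_finCoh hA hA _ (LP.finCoh hN)
  have hc : IsG J G (rcls _ res) :=
    ⟨N, hN, res, by rw [sub_self]; exact Submodule.zero_mem _⟩
  have h2 := IsG.ser hJ hA hA ser (stable_tens hl' hr') hc
  have h3 : (n : ℚ) • rcls _ res - 0 ∈ J := by
    obtain ⟨N₂, h₂, hN₂, hm⟩ := h2
    have h5 := J.sub_mem (h0.eq hJ h₂ hN₂) hm
    rwa [sub_sub_sub_cancel_left] at h5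
  rw [sub_zero] at h3
  have h4 : rcls _ res ∈ J := by
    have h5 := Submodule.smul_mem _ ((n : ℚ)⁻¹) h3
    rwa [inv_smul_smul₀ (Nat.cast_ne_zero.2 hn.ne')] at h5
  exact hc.congr (by rw [sub_zero]; exact h4)

end Pool.Agent.MP_6e5bed_ag_NC
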