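import Pool.Agent.Lib.MP_6e5bed_ag_CV.Dual

set_option autoImplicit false
set_option linter.unusedSectionVars false

/-!
# The section given by the separability idempotent (NC CURVES)

`ε = ∑ a_i ⊗ b_i ∈ L ⊗_K L` with `∑ a_i b_i = 1` and `(c ⊗ 1) ε = (1 ⊗ c) ε` (dual bases for the trace
form, or Mathlib: `Algebra.FormallyUnramified.elem`); `σ(v f) = ∑ a_i v ⊗ b_i f`.
-/

namespace Pool.Agent.MP_6e5bed_ag_NC

open RatFunc
open scoped TensorProduct

universe u

section Sigma_general

variable {K L V : Type u} [Field K] [Field L] [Algebra K L] [AddCommGroup V] [Module K V]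
  [Module L V] [IsScalarTower K L V]

/-- `a ⊗ b ↦ a x ⊗ b f` -/
private noncomputable def SigmaE (x : V) (f : V →ₗ[L] L) :
    L ⊗[K] L →ₗ[K] V ⊗[K] (V →ₗ[L] L) :=
  TensorProduct.map ((LinearMap.toSpanSingleton L V x).restrictScalars K)
    ((LinearMap.toSpanSingleton L (V →ₗ[L] L) f).restrictScalars K)

private theorem SigmaE_tmul (x : V) (f : V →ₗ[L] L) (a b : L) :
    SigmaE (K := K) x f (a ⊗ₜ b) = (a • x) ⊗ₜ (b • f) := rfl

private theorem SigmaE_add_left (x y : V) (f : V →ₗ[L] L) (t : L ⊗[K] L) :
    SigmaE (x + y) f t = SigmaE x f t + SigmaE y f t := by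
  induction t using TensorProduct.induction_on with
  | zero => simp
  | tmul a b => simp only [SigmaE_tmul, smul_add, TensorProduct.add_tmul]
  | add t t' h h' => rw [map_add, map_add, map_add, h, h']; abel

private theorem SigmaE_smul_left (c : K) (x : V) (f : V →ₗ[L] L) (t : L ⊗[K] L) :
    SigmaE (c • x) f t = c • SigmaE x f t := by
  induction t using TensorProduct.induction_on with
  | zero => simp
  | tmul a b =>
    rw [SigmaE_tmul, SigmaE_tmul, smul_comm a c x, TensorProduct.smul_tmul']
  | add t t' h h' => rw [map_add, map_add, h, h', smul_add]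

private theorem SigmaE_add_right (x : V) (f f' : V →ₗ[L] L) (t : L ⊗[K] L) :
    SigmaE x (f + f') t = SigmaE x f t + SigmaE x f' t := by
  induction t using TensorProduct.induction_on with
  | zero => simp
  | tmul a b => simp only [SigmaE_tmul, smul_add, TensorProduct.tmul_add]
  | add t t' h h' => rw [map_add, map_add, map_add, h, h']; abel

private theorem SigmaE_sum_left {ι : Type*} (s : Finset ι) (x : ι → V) (f : V →ₗ[L] L)
    (t : L ⊗[K] L) : SigmaE (∑ i ∈ s, x i) f t = ∑ i ∈ s, SigmaE (x i) f t := by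
  classical
  induction s using Finset.induction_on with
  | empty =>
    rw [Finset.sum_empty, Finset.sum_empty]
    have := SigmaE_smul_left (0 : K) 0 f t
    rwa [zero_smul, zero_smul] at this
  | insert i s hi ih => rw [Finset.sum_insert hi, Finset.sum_insert hi, SigmaE_add_left, ih]

private theorem SigmaE_zero_right (x : V) (t : L ⊗[K] L) :
    SigmaE x (0 : V →ₗ[L] L) t = 0 := by
  have := SigmaE_add_right x (0 : V →ₗ[L] L) 0 t
  rw [add_zero] at this
  exact (left_eq_add.1 this)

private theorem SigmaE_sum_right {ι : Type*} (s : Finset ι) (x : V) (f : ι → V →ₗ[L] L)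
    (t : L ⊗[K] L) : SigmaE x (∑ i ∈ s, f i) t = ∑ i ∈ s, SigmaE x (f i) t := by
  classical
  induction s using Finset.induction_on with
  | empty => rw [Finset.sum_empty, Finset.sum_empty, SigmaE_zero_right]
  | insert i s hi ih => rw [Finset.sum_insert hi, Finset.sum_insert hi, SigmaE_add_right, ih]

private theorem SigmaE_mul_left (c : L) (x : V) (f : V →ₗ[L] L) (t : L ⊗[K] L) :
    SigmaE (c • x) f t = SigmaE x f ((c ⊗ₜ 1) * t) := by
  induction t using TensorProduct.induction_on with
  | zero => simp
  | tmul a b =>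
    rw [Algebra.TensorProduct.tmul_mul_tmul, SigmaE_tmul, SigmaE_tmul, one_mul, smul_smul,
      mul_comm a c]
  | add t t' h h' => rw [mul_add, map_add, map_add, h, h']

private theorem SigmaE_mul_right (c : L) (x : V) (f : V →ₗ[L] L) (t : L ⊗[K] L) :
    SigmaE x (c • f) t = SigmaE x f ((1 ⊗ₜ c) * t) := by
  induction t using TensorProduct.induction_on with
  | zero => simp
  | tmul a b =>
    rw [Algebra.TensorProduct.tmul_mul_tmul, SigmaE_tmul, SigmaE_tmul, one_mul, smul_smul,
      mul_comm b c]
  | add t t' h h' => rw [mul_add, map_add, map_add, h, h']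

private theorem SigmaE_rTensor (A : Module.End L V) (x : V) (f : V →ₗ[L] L) (t : L ⊗[K] L) :
    (A.restrictScalars K).rTensor (V →ₗ[L] L) (SigmaE x f t) = SigmaE (A x) f t := by
  induction t using TensorProduct.induction_on with
  | zero => simp
  | tmul a b =>
    rw [SigmaE_tmul, SigmaE_tmul, LinearMap.rTensor_tmul]
    congr 1
    exact A.map_smul a x
  | add t t' h h' => rw [map_add, map_add, map_add, h, h']

private theorem SigmaE_lTensor (B : Module.End L V) (x : V) (f : V →ₗ[L] L) (t : L ⊗[K] L) :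
    (LinearMap.restrictScalars K (LinearMap.lcomp L L B)).lTensor V (SigmaE x f t) =
      SigmaE x (f.comp B) t := by
  induction t using TensorProduct.induction_on with
  | zero => simp
  | tmul a b =>
    rw [SigmaE_tmul, SigmaE_tmul, LinearMap.lTensor_tmul]
    rfl
  | add t t' h h' => rw [map_add, map_add, map_add, h, h']

private theorem SigmaE_mult (m : V ⊗[K] (V →ₗ[L] L) →ₗ[K] Module.End L V)
    (hm : ∀ (v : V) (f : V →ₗ[L] L) (x : V), m (v ⊗ₜ f) x = f x • v)
    (x : V) (f : V →ₗ[L] L) (t : L ⊗[K] L) (y : V) :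
    m (SigmaE x f t) y = (Algebra.TensorProduct.lmul' K t) • f y • x := by
  induction t using TensorProduct.induction_on with
  | zero => simp
  | tmul a b =>
    rw [SigmaE_tmul, hm, Algebra.TensorProduct.lmul'_apply_tmul, LinearMap.smul_apply,
      smul_eq_mul, smul_smul, smul_smul]
    congr 1
    ring
  | add t t' h h' => rw [map_add, map_add, map_add, LinearMap.add_apply, h, h', add_smul]

private theorem Sigma_general [FiniteDimensional K L] [Algebra.IsSeparable K L]
    [FiniteDimensional L V] (m : V ⊗[K] (V →ₗ[L] L) →ₗ[K] Module.End L V)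
    (hm : ∀ (v : V) (f : V →ₗ[L] L) (x : V), m (v ⊗ₜ f) x = f x • v) :
    ∃ σ : Module.End L V →ₗ[K] V ⊗[K] (V →ₗ[L] L),
      (∀ g, m (σ g) = g) ∧
      (∀ (a g : Module.End L V), σ (a * g) =
        (a.restrictScalars K).rTensor (V →ₗ[L] L) (σ g)) ∧
      ∀ (b g : Module.End L V), σ (g * b) =
        (LinearMap.restrictScalars K (LinearMap.lcomp L L b)).lTensor V (σ g) := by
  classical
  have hfu : Algebra.FormallyUnramified K L := Algebra.FormallyUnramified.of_isSeparable K L
  obtain ⟨ε, h1, h2⟩ : ∃ ε : L ⊗[K] L, Algebra.TensorProduct.lmul' K ε = 1 ∧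
      ∀ c : L, ((c ⊗ₜ 1 : L ⊗[K] L)) * ε = (1 ⊗ₜ c) * ε :=
    ⟨Algebra.FormallyUnramified.elem K L, Algebra.FormallyUnramified.lmul_elem,
      fun c => (Algebra.FormallyUnramified.one_tmul_mul_elem c).symm⟩
  let e := Module.finBasis L V
  have hswap : ∀ (c : L) (x : V) (f : V →ₗ[L] L), SigmaE (c • x) f ε = SigmaE x (c • f) ε := by
    intro c x f
    rw [SigmaE_mul_left, SigmaE_mul_right, h2]
  refine ⟨
    { toFun := fun g => ∑ j, SigmaE (g (e j)) (e.coord j) ε
      map_add' := fun g g' => by
        simp only [LinearMap.add_apply, SigmaE_add_left, Finset.sum_add_distrib]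
      map_smul' := fun c g => by
        simp only [LinearMap.smul_apply, SigmaE_smul_left, Finset.smul_sum, RingHom.id_apply] },
    ?_, ?_, ?_⟩
  · intro g
    refine LinearMap.ext fun y => ?_
    show m (∑ j, SigmaE (g (e j)) (e.coord j) ε) y = g y
    rw [map_sum, LinearMap.sum_apply]
    simp only [SigmaE_mult m hm, h1, one_smul]
    conv_rhs => rw [← e.sum_repr y, map_sum]
    refine Finset.sum_congr rfl fun j _ => ?_
    rw [map_smul]
    rfl
  · intro a g
    show ∑ j, SigmaE ((a * g) (e j)) (e.coord j) ε =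
      (a.restrictScalars K).rTensor (V →ₗ[L] L) (∑ j, SigmaE (g (e j)) (e.coord j) ε)
    rw [map_sum]
    simp only [SigmaE_rTensor]
    rfl
  · intro b g
    show ∑ j, SigmaE ((g * b) (e j)) (e.coord j) ε =
      (LinearMap.restrictScalars K (LinearMap.lcomp L L b)).lTensor V
        (∑ j, SigmaE (g (e j)) (e.coord j) ε)
    rw [map_sum]
    simp only [SigmaE_lTensor]
    have h3 : ∀ j, SigmaE ((g * b) (e j)) (e.coord j) ε =
        ∑ l, SigmaE (g (e l)) ((e.repr (b (e j)) l) • e.coord j) ε := by
      intro j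
      have h4 : (g * b) (e j) = ∑ l, (e.repr (b (e j)) l) • g (e l) := by
        rw [Module.End.mul_apply]
        conv_lhs => rw [← e.sum_repr (b (e j)), map_sum]
        refine Finset.sum_congr rfl fun l _ => ?_
        rw [map_smul]
      rw [h4, SigmaE_sum_left]
      exact Finset.sum_congr rfl fun l _ => hswap _ _ _
    have h5 : ∀ l, SigmaE (g (e l)) ((e.coord l).comp b) ε =
        ∑ j, SigmaE (g (e l)) ((e.repr (b (e j)) l) • e.coord j) ε := by
      intro l
      have h6 : (e.coord l).comp b = ∑ j, (e.repr (b (e j)) l) • e.coord j := by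
        refine e.ext fun i => ?_
        rw [LinearMap.comp_apply, LinearMap.sum_apply, Finset.sum_eq_single i]
        · simp [Module.Basis.coord_apply]
        · intro j _ hj
          simp [Module.Basis.coord_apply, Finsupp.single_apply, hj.symm]
        · intro h
          exact absurd (Finset.mem_univ i) h
      rw [h6, SigmaE_sum_right]
    simp only [h3, h5]
    exact Finset.sum_comm

end Sigma_general

variable {k : Type u} [Field k] {D : FExt k}

/-- The map `F ⊗_K F* → End_L F`. -/
noncomputable def multK (F : LSp D) :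
    F.F ⊗[RatFunc k] (F.F →ₗ[D.L] D.L) →ₗ[RatFunc k] Module.End D.L F.F :=
  TensorProduct.lift (LinearMap.mk₂ (RatFunc k) (fun v (f : F.F →ₗ[D.L] D.L) => f.smulRight v)
    (fun v v' f => by ext x; exact smul_add (f x) v v') (fun c v f => by
      ext x
      exact smul_comm (f x) c v)
    (fun v f f' => by ext x; exact add_smul (f x) (f' x) v)
    (fun c v f => by ext x; exact smul_assoc c (f x) v))

theorem multK_tmul (F : LSp D) (v : F.F) (f : F.F →ₗ[D.L] D.L) (x : F.F) :
    multK F (v ⊗ₜ f) x = f x • v := rfl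

theorem exists_sigma (F : LSp D) :
    ∃ σ : Module.End D.L F.F →ₗ[RatFunc k] F.F ⊗[RatFunc k] (F.F →ₗ[D.L] D.L),
      (∀ g, multK F (σ g) = g) ∧
      (∀ (a g : Module.End D.L F.F), σ (a * g) =
        (a.restrictScalars (RatFunc k)).rTensor (F.F →ₗ[D.L] D.L) (σ g)) ∧
      ∀ (b g : Module.End D.L F.F), σ (g * b) =
        (LinearMap.restrictScalars (RatFunc k) (LinearMap.lcomp D.L D.L b)).lTensor F.F (σ g) := by
  have : FiniteDimensional D.L F.F := FiniteDimensional.right (RatFunc k) D.L F.F
  exact Sigma_general (multK F) (multK_tmul F)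

end Pool.Agent.MP_6e5bed_ag_NC
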