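import Pool.Agent.Lib.MP_6e5bed_ag_CV.Dual
import Pool.Agent.Lib.MP_6e5bed_ag_CV.CorPerf

set_option autoImplicit false
set_option linter.unusedSectionVars false

/-!
# Perfect one-sided modules over the algebra of a curve (NC CURVES)

`V = W e` for the projection `e` of `V' ⊕ O ⊕ O(1)` to `O`, and `V(-1) = W e` for the projection to
`O(1)`; the dual bundles are `e W`.
-/

namespace Pool.Agent.MP_6e5bed_ag_NC

open RatFunc
open scoped TensorProduct

universe u

variable {k : Type u} [Field k] {D : FExt k}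

private theorem os_hasRes {A B : DGA k} {M : Bim A B} (h : Perf M) : HasRes M :=
  ⟨M, GMap.id M, h, qiso_of_inv (φ := GMap.id M) (ψ := GMap.id M) (LinearMap.ext GMap.dd_id)
    (fun _ => rfl) fun _ => rfl⟩

private theorem os_K {F F' : LSp D} (f : F.F →ₗ[D.L] F'.F) (c : RatFunc k) (v : F.F) :
    f (c • v) = c • f v :=
  (f.restrictScalars (RatFunc k)).map_smul c v

/-- The columns of the endomorphism algebra. -/
private theorem os_left {F : LSp D} {P N : LP k F.F} (hN : (endL P).St N) (g : F.F →ₗ[D.L] D.L)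
    (w : F.F) (hgw : g w = 1) (h0 : ∀ v, v ∈ N.N0 ↔ ∀ x ∈ P.N0, g x • v ∈ P.N0)
    (h1 : ∀ v, v ∈ N.N1 ↔ ∀ x ∈ P.N1, g x • v ∈ P.N1)
    (h01 : ∀ v, v ∈ N.N01 ↔ ∀ x ∈ P.N01, g x • v ∈ P.N01) (w0 : w ∈ N.N0) (w1 : w ∈ N.N1) :
    Perf (CL hN) := by
  have hadd : ∀ v v' : F.F, g.smulRight (v + v') = g.smulRight v + g.smulRight v' := fun v v' =>
    LinearMap.ext fun x => smul_add (g x) v v'
  have hsub : ∀ v v' : F.F, g.smulRight (v - v') = g.smulRight v - g.smulRight v' := fun v v' =>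
    LinearMap.ext fun x => smul_sub (g x) v v'
  have hsmul : ∀ (c : k) (v : F.F), g.smulRight (c • v) = c • g.smulRight v := fun c v =>
    LinearMap.ext fun x => smul_comm (g x) c v
  have hmul : ∀ (a : Module.End D.L F.F) (v : F.F), g.smulRight (a v) = a * g.smulRight v :=
    fun a v => LinearMap.ext fun x => (map_smul a (g x) v).symm
  have hzero : g.smulRight (0 : F.F) = 0 := LinearMap.ext fun x => smul_zero (g x)
  have hw : ∀ v : F.F, g.smulRight v * g.smulRight w = (g.smulRight v : Module.End D.L F.F) :=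
    fun v => LinearMap.ext fun x => by
      change g (g x • w) • v = g x • v
      rw [map_smul, hgw, smul_eq_mul, mul_one]
  have hz : ∀ v v' : F.F, (g.smulRight v : Module.End D.L F.F) * 0 +
      g.smulRight v' * g.smulRight w = g.smulRight v' := fun v v' => by
    rw [mul_zero, zero_add]
    exact hw v'
  have hmw : ∀ a : Module.End D.L F.F, a * g.smulRight w = g.smulRight (a w) := fun a =>
    (hmul a w).symm
  have hinj : ∀ v v' : F.F, g.smulRight v = g.smulRight v' → v = v' := by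
    intro v v' h
    have h2 := congrArg (fun a : F.F →ₗ[D.L] F.F => a w) h
    change g w • v = g w • v' at h2
    rwa [hgw, one_smul, one_smul] at h2
  let f : ((N.N0 × N.N1) × N.N01) →ₗ[k] ((EA0 P × EA1 P) × EA01 P) :=
    { toFun := fun m => ((⟨g.smulRight m.1.1.1, (h0 _).1 m.1.1.2⟩,
        ⟨g.smulRight m.1.2.1, (h1 _).1 m.1.2.2⟩), ⟨g.smulRight m.2.1, (h01 _).1 m.2.2⟩)
      map_add' := fun m m' => Prod.ext (Prod.ext (Subtype.ext (hadd _ _)) (Subtype.ext (hadd _ _)))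
        (Subtype.ext (hadd _ _))
      map_smul' := fun c m => Prod.ext (Prod.ext (Subtype.ext (hsmul _ _))
        (Subtype.ext (hsmul _ _))) (Subtype.ext (hsmul _ _)) }
  let e : (EA0 P × EA1 P) × EA01 P :=
    ((⟨g.smulRight w, (h0 _).1 w0⟩, ⟨g.smulRight w, (h1 _).1 w1⟩), 0)
  refine perf_of_right_idem (W := (endCosp P).cech) (e := e) ?_ ?_ ?_ (CL hN) f ?_ ?_ ?_ ?_ ?_
  · exact Dg.two_deg0 (endCosp P).δ _
  · refine Prod.ext rfl ?_
    change (endCosp P).r1 e.1.2 - (endCosp P).r0 e.1.1 = 0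
    exact sub_eq_zero.2 (Subtype.ext rfl)
  · refine Prod.ext (Prod.ext (Subtype.ext (hw w)) (Subtype.ext (hw w))) ?_
    change (endCosp P).r0 e.1.1 * 0 + 0 * (endCosp P).r1 e.1.2 = 0
    rw [mul_zero, zero_mul, add_zero]
  · intro i m hm
    have h := Dg.two_degMap (LP.tri (stable_lG hN)).δ (Z := (endCosp P).cech.dg) (m := 0) f
      (fun v => Dg.two_deg0' _ (Subtype.ext hzero))
      (fun v => by
        rw [zero_add]
        exact Dg.two_deg1' _ (Prod.ext (Subtype.ext hzero) (Subtype.ext hzero))) hm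
    rw [add_zero] at h
    exact h
  · intro a m
    refine Prod.ext (Prod.ext (Subtype.ext (hmul _ _)) (Subtype.ext (hmul _ _)))
      (Subtype.ext ?_)
    refine (hadd _ _).trans ?_
    exact congrArg₂ (· + ·) (hmul _ _) (hmul _ _)
  · intro m
    refine Prod.ext (Prod.ext (Subtype.ext hzero) (Subtype.ext hzero)) (Subtype.ext ?_)
    exact hsub _ _
  · intro m m' h
    have a0 := congrArg (fun z : (EA0 P × EA1 P) × EA01 P => z.1.1.1) h
    have a1 := congrArg (fun z : (EA0 P × EA1 P) × EA01 P => z.1.2.1) h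
    have a2 := congrArg (fun z : (EA0 P × EA1 P) × EA01 P => z.2.1) h
    exact Prod.ext (Prod.ext (Subtype.ext (hinj _ _ a0)) (Subtype.ext (hinj _ _ a1)))
      (Subtype.ext (hinj _ _ a2))
  · intro z
    constructor
    · intro h
      have a0 : z.1.1.1 * g.smulRight w = z.1.1.1 :=
        congrArg (fun z : (EA0 P × EA1 P) × EA01 P => z.1.1.1) h
      have a1 : z.1.2.1 * g.smulRight w = z.1.2.1 :=
        congrArg (fun z : (EA0 P × EA1 P) × EA01 P => z.1.2.1) h
      have a2 : z.1.1.1 * 0 + z.2.1 * g.smulRight w = z.2.1 :=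
        congrArg (fun z : (EA0 P × EA1 P) × EA01 P => z.2.1) h
      rw [mul_zero, zero_add] at a2
      rw [hmw] at a0 a1 a2
      refine ⟨((⟨z.1.1.1 w, (h0 _).2 ?_⟩, ⟨z.1.2.1 w, (h1 _).2 ?_⟩), ⟨z.2.1 w, (h01 _).2 ?_⟩), ?_⟩
      · intro x hx
        have h2 := z.1.1.2 x hx
        rw [← a0] at h2
        exact h2
      · intro x hx
        have h2 := z.1.2.2 x hx
        rw [← a1] at h2
        exact h2
      · intro x hx
        have h2 := z.2.2 x hx
        rw [← a2] at h2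
        exact h2
      · exact Prod.ext (Prod.ext (Subtype.ext a0) (Subtype.ext a1)) (Subtype.ext a2)
    · rintro ⟨m, rfl⟩
      refine Prod.ext (Prod.ext (Subtype.ext (hw _)) (Subtype.ext (hw _))) (Subtype.ext ?_)
      exact hz _ _

/-- The rows of the endomorphism algebra. -/
private theorem os_right {F : LSp D} {P : LP k F.F} {N : LP k F.dual.F} (hN : (endR P).St N)
    (g : F.F →ₗ[D.L] D.L) (w : F.F) (hgw : g w = 1)
    (h0 : ∀ f : F.F →ₗ[D.L] D.L, f ∈ N.N0 ↔ ∀ x ∈ P.N0, f x • w ∈ P.N0)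
    (h1 : ∀ f : F.F →ₗ[D.L] D.L, f ∈ N.N1 ↔ ∀ x ∈ P.N1, f x • w ∈ P.N1)
    (h01 : ∀ f : F.F →ₗ[D.L] D.L, f ∈ N.N01 ↔ ∀ x ∈ P.N01, f x • w ∈ P.N01)
    (g0 : g ∈ N.N0) (g1 : g ∈ N.N1) : Perf (CR hN) := by
  have hadd : ∀ f f' : F.F →ₗ[D.L] D.L, (f + f').smulRight w = f.smulRight w + f'.smulRight w :=
    fun f f' => LinearMap.ext fun x => add_smul (f x) (f' x) w
  have hsub : ∀ f f' : F.F →ₗ[D.L] D.L, (f - f').smulRight w = f.smulRight w - f'.smulRight w :=
    fun f f' => LinearMap.ext fun x => sub_smul (f x) (f' x) w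
  have hsmul : ∀ (c : k) (f : F.F →ₗ[D.L] D.L), (c • f).smulRight w = c • f.smulRight w :=
    fun c f => LinearMap.ext fun x => smul_assoc c (f x) w
  have hmul : ∀ (a : Module.End D.L F.F) (f : F.F →ₗ[D.L] D.L),
      (f.comp a).smulRight w = (f.smulRight w : Module.End D.L F.F) * a :=
    fun a f => LinearMap.ext fun x => rfl
  have hzero : (0 : F.F →ₗ[D.L] D.L).smulRight w = 0 := LinearMap.ext fun x => zero_smul D.L w
  have hw : ∀ f : F.F →ₗ[D.L] D.L,
      (g.smulRight w : Module.End D.L F.F) * f.smulRight w = f.smulRight w :=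
    fun f => LinearMap.ext fun x => by
      change g (f x • w) • w = f x • w
      rw [map_smul, hgw, smul_eq_mul, mul_one]
  have hmw : ∀ a : Module.End D.L F.F,
      (g.smulRight w : Module.End D.L F.F) * a = (g.comp a).smulRight w := fun a => rfl
  have hinj : ∀ f f' : F.F →ₗ[D.L] D.L, f.smulRight w = f'.smulRight w → f = f' := by
    intro f f' h
    refine LinearMap.ext fun x => ?_
    have h2 := congrArg (fun a : F.F →ₗ[D.L] F.F => g (a x)) h
    change g (f x • w) = g (f' x • w) at h2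
    rwa [map_smul, map_smul, hgw, smul_eq_mul, smul_eq_mul, mul_one, mul_one] at h2
  let f : ((N.N0 × N.N1) × N.N01) →ₗ[k] ((EA0 P × EA1 P) × EA01 P) :=
    { toFun := fun m => ((⟨LinearMap.smulRight (m.1.1.1 : F.F →ₗ[D.L] D.L) w,
          (h0 _).1 m.1.1.2⟩,
        ⟨LinearMap.smulRight (m.1.2.1 : F.F →ₗ[D.L] D.L) w, (h1 _).1 m.1.2.2⟩),
        ⟨LinearMap.smulRight (m.2.1 : F.F →ₗ[D.L] D.L) w, (h01 _).1 m.2.2⟩)
      map_add' := fun m m' => Prod.ext (Prod.ext (Subtype.ext (hadd _ _)) (Subtype.ext (hadd _ _)))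
        (Subtype.ext (hadd _ _))
      map_smul' := fun c m => Prod.ext (Prod.ext (Subtype.ext (hsmul _ _))
        (Subtype.ext (hsmul _ _))) (Subtype.ext (hsmul _ _)) }
  let e : (EA0 P × EA1 P) × EA01 P :=
    ((⟨g.smulRight w, (h0 _).1 g0⟩, ⟨g.smulRight w, (h1 _).1 g1⟩), 0)
  refine perf_of_left_idem (W := (endCosp P).cech) (e := e) ?_ ?_ ?_ (CR hN) f ?_ ?_ ?_ ?_ ?_
  · exact Dg.two_deg0 (endCosp P).δ _
  · refine Prod.ext rfl ?_
    change (endCosp P).r1 e.1.2 - (endCosp P).r0 e.1.1 = 0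
    exact sub_eq_zero.2 (Subtype.ext rfl)
  · refine Prod.ext (Prod.ext (Subtype.ext (hw g)) (Subtype.ext (hw g))) ?_
    change (endCosp P).r0 e.1.1 * 0 + 0 * (endCosp P).r1 e.1.2 = 0
    rw [mul_zero, zero_mul, add_zero]
  · intro i m hm
    have h := Dg.two_degMap (LP.tri (stable_rG hN)).δ (Z := (endCosp P).cech.dg) (m := 0) f
      (fun v => Dg.two_deg0' _ (Subtype.ext hzero))
      (fun v => by
        rw [zero_add]
        exact Dg.two_deg1' _ (Prod.ext (Subtype.ext hzero) (Subtype.ext hzero))) hm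
    rw [add_zero] at h
    exact h
  · intro a m
    refine Prod.ext (Prod.ext (Subtype.ext (hmul _ _)) (Subtype.ext (hmul _ _)))
      (Subtype.ext ?_)
    refine (hadd _ _).trans ?_
    exact congrArg₂ (· + ·) (hmul _ _) (hmul _ _)
  · intro m
    refine Prod.ext (Prod.ext (Subtype.ext hzero) (Subtype.ext hzero)) (Subtype.ext ?_)
    exact hsub _ _
  · intro m m' h
    have a0 := congrArg (fun z : (EA0 P × EA1 P) × EA01 P => z.1.1.1) h
    have a1 := congrArg (fun z : (EA0 P × EA1 P) × EA01 P => z.1.2.1) h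
    have a2 := congrArg (fun z : (EA0 P × EA1 P) × EA01 P => z.2.1) h
    exact Prod.ext (Prod.ext (Subtype.ext (hinj _ _ a0)) (Subtype.ext (hinj _ _ a1)))
      (Subtype.ext (hinj _ _ a2))
  · intro z
    constructor
    · intro h
      have a0 : (g.smulRight w : Module.End D.L F.F) * z.1.1.1 = z.1.1.1 :=
        congrArg (fun z : (EA0 P × EA1 P) × EA01 P => z.1.1.1) h
      have a1 : (g.smulRight w : Module.End D.L F.F) * z.1.2.1 = z.1.2.1 :=
        congrArg (fun z : (EA0 P × EA1 P) × EA01 P => z.1.2.1) h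
      have a2 : (g.smulRight w : Module.End D.L F.F) * z.2.1 + 0 * z.1.2.1 = z.2.1 :=
        congrArg (fun z : (EA0 P × EA1 P) × EA01 P => z.2.1) h
      rw [zero_mul, add_zero] at a2
      rw [hmw] at a0 a1 a2
      refine ⟨((⟨g.comp z.1.1.1, (h0 _).2 ?_⟩, ⟨g.comp z.1.2.1, (h1 _).2 ?_⟩),
        ⟨g.comp z.2.1, (h01 _).2 ?_⟩), ?_⟩
      · intro x hx
        have h2 := z.1.1.2 x hx
        rw [← a0] at h2
        exact h2
      · intro x hx
        have h2 := z.1.2.2 x hx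
        rw [← a1] at h2
        exact h2
      · intro x hx
        have h2 := z.2.2 x hx
        rw [← a2] at h2
        exact h2
      · exact Prod.ext (Prod.ext (Subtype.ext a0) (Subtype.ext a1)) (Subtype.ext a2)
    · rintro ⟨m, rfl⟩
      refine Prod.ext (Prod.ext (Subtype.ext (hw _)) (Subtype.ext (hw _))) (Subtype.ext ?_)
      change (g.smulRight w : Module.End D.L F.F) *
        LinearMap.smulRight (m.2.1 : F.F →ₗ[D.L] D.L) w +
        0 * LinearMap.smulRight (m.1.2.1 : F.F →ₗ[D.L] D.L) w =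
          LinearMap.smulRight (m.2.1 : F.F →ₗ[D.L] D.L) w
      rw [zero_mul, add_zero]
      exact hw _

private theorem os_mem0 {F : LSp D} (V : LP k F.F) (x : F.F × D.L × D.L) :
    x ∈ V.plus.N0 ↔ x.1 ∈ V.N0 ∧ IsIntegral (kk k X) x.2.1 ∧ IsIntegral (kk k X) x.2.2 := Iff.rfl

private theorem os_mem1 {F : LSp D} (V : LP k F.F) (x : F.F × D.L × D.L) :
    x ∈ V.plus.N1 ↔ x.1 ∈ V.N1 ∧ IsIntegral (kk k X⁻¹) x.2.1 ∧
      IsIntegral (kk k X⁻¹) ((X : RatFunc k) ^ (-1 : ℤ) • x.2.2) := Iff.rfl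

private theorem os_b0 {F : LSp D} {V : LP k F.F} (hB : LP.BStable V) {b : D.L}
    (hb : IsIntegral (kk k X) b) {v : F.F × D.L × D.L} (hv : v ∈ V.plus.N0) :
    b • v ∈ V.plus.N0 := by
  rw [os_mem0] at hv ⊢
  exact ⟨hB.1 b hb _ hv.1, hb.mul hv.2.1, hb.mul hv.2.2⟩

private theorem os_b1 {F : LSp D} {V : LP k F.F} (hB : LP.BStable V) {b : D.L}
    (hb : IsIntegral (kk k X⁻¹) b) {v : F.F × D.L × D.L} (hv : v ∈ V.plus.N1) :
    b • v ∈ V.plus.N1 := by
  rw [os_mem1] at hv ⊢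
  refine ⟨hB.2 b hb _ hv.1, hb.mul hv.2.1, ?_⟩
  have h1 : (X : RatFunc k) ^ (-1 : ℤ) • (b * v.2.2) =
      b * ((X : RatFunc k) ^ (-1 : ℤ) • v.2.2) := (mul_smul_comm _ _ _).symm
  change IsIntegral (kk k X⁻¹) ((X : RatFunc k) ^ (-1 : ℤ) • (b * v.2.2))
  rw [h1]
  exact hb.mul hv.2.2

/-- localization of a condition on products -/
private theorem os_01 {F : LSp D} {P : LP k F.F} (g : F.F →ₗ[D.L] D.L)
    (h : ∀ v ∈ P.N0, ∀ x ∈ P.N0, g x • v ∈ P.N0) {v : F.F} (hv : v ∈ P.N01) {x : F.F}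
    (hx : x ∈ P.N01) : g x • v ∈ P.N01 := by
  obtain ⟨n, hn⟩ := hv
  obtain ⟨m, hm⟩ := hx
  refine ⟨m + n, ?_⟩
  have h1 := h _ hn _ hm
  have h2 : (X : RatFunc k) ^ (m + n) • g x • v =
      g ((X : RatFunc k) ^ m • x) • (X : RatFunc k) ^ n • v := by
    have h3 : g ((X : RatFunc k) ^ m • x) = (X : RatFunc k) ^ m • g x :=
      os_K (F' := LSp.one D) g _ _
    rw [h3, smul_assoc, smul_comm (g x), smul_smul, pow_add]
  rw [h2]
  exact h1

private theorem os_int_one (D : FExt k) (u : RatFunc k) : IsIntegral (kk k u) (1 : D.L) :=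
  isIntegral_one

private theorem os_int_gen (D : FExt k) :
    IsIntegral (kk k X⁻¹) ((X : RatFunc k) ^ (-1 : ℤ) • (1 : D.L)) := by
  have h : (X : RatFunc k) ^ (-1 : ℤ) • (1 : D.L) =
      algebraMap (kk k X⁻¹) D.L (kk.gen k X⁻¹) := by
    rw [zpow_neg_one, ← Algebra.algebraMap_eq_smul_one]
    rfl
  rw [h]
  exact isIntegral_algebraMap

private theorem os_w2_0 {F : LSp D} (V : LP k F.F) {b : D.L} :
    ((0, b, 0) : F.F × D.L × D.L) ∈ V.plus.N0 ↔ IsIntegral (kk k X) b := by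
  rw [os_mem0]
  exact ⟨fun h => h.2.1, fun h => ⟨V.N0.zero_mem, h, isIntegral_zero⟩⟩

private theorem os_w2_1 {F : LSp D} (V : LP k F.F) {b : D.L} :
    ((0, b, 0) : F.F × D.L × D.L) ∈ V.plus.N1 ↔ IsIntegral (kk k X⁻¹) b := by
  rw [os_mem1]
  refine ⟨fun h => h.2.1, fun h => ⟨V.N1.zero_mem, h, ?_⟩⟩
  change IsIntegral (kk k X⁻¹) ((X : RatFunc k) ^ (-1 : ℤ) • (0 : D.L))
  rw [smul_zero]
  exact isIntegral_zero

private theorem os_w3_0 {F : LSp D} (V : LP k F.F) {b : D.L} :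
    ((0, 0, b) : F.F × D.L × D.L) ∈ V.plus.N0 ↔ IsIntegral (kk k X) b := by
  rw [os_mem0]
  exact ⟨fun h => h.2.2, fun h => ⟨V.N0.zero_mem, isIntegral_zero, h⟩⟩

private theorem os_w3_1 {F : LSp D} (V : LP k F.F) {b : D.L} :
    ((0, 0, b) : F.F × D.L × D.L) ∈ V.plus.N1 ↔
      IsIntegral (kk k X⁻¹) ((X : RatFunc k) ^ (-1 : ℤ) • b) := by
  rw [os_mem1]
  exact ⟨fun h => h.2.2, fun h => ⟨V.N1.zero_mem, isIntegral_zero, h⟩⟩

/-- the second and the third coordinate -/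
private noncomputable def os_g2 (F : LSp D) : F.plus.F →ₗ[D.L] D.L :=
  (LinearMap.fst D.L D.L D.L).comp (LinearMap.snd D.L F.F (D.L × D.L))

private noncomputable def os_g3 (F : LSp D) : F.plus.F →ₗ[D.L] D.L :=
  (LinearMap.snd D.L D.L D.L).comp (LinearMap.snd D.L F.F (D.L × D.L))

private theorem os_sm2 (F : LSp D) (b : D.L) :
    b • ((0, 1, 0) : F.F × D.L × D.L) = (0, b, 0) := by
  refine Prod.ext ?_ (Prod.ext ?_ ?_)
  · exact smul_zero (A := F.F) b
  · exact mul_one b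
  · exact mul_zero b

private theorem os_sm3 (F : LSp D) (b : D.L) :
    b • ((0, 0, 1) : F.F × D.L × D.L) = (0, 0, b) := by
  refine Prod.ext ?_ (Prod.ext ?_ ?_)
  · exact smul_zero (A := F.F) b
  · exact mul_zero b
  · exact mul_one b

private theorem os_r2 {F : LSp D} (S : F.F × D.L × D.L → Prop) {b : D.L} {p : Prop}
    (h : S (0, b, 0) ↔ p) : p ↔ S (b • ((0, 1, 0) : F.F × D.L × D.L)) := by
  rw [os_sm2]
  exact h.symm

private theorem os_r3 {F : LSp D} (S : F.F × D.L × D.L → Prop) {b : D.L} {p : Prop}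
    (h : S (0, 0, b) ↔ p) : p ↔ S (b • ((0, 0, 1) : F.F × D.L × D.L)) := by
  rw [os_sm3]
  exact h.symm

private theorem os_e2 {F : LSp D} (V : LP k F.F) (b : D.L) :
    ((0, b, 0) : F.F × D.L × D.L) ∈ V.plus.N01 ↔ b ∈ (LP.OO D).N01 := by
  refine exists_congr fun n => ?_
  have h : (X : RatFunc k) ^ n • ((0, b, 0) : F.F × D.L × D.L) =
      (0, (X : RatFunc k) ^ n • b, 0) := by
    refine Prod.ext ?_ (Prod.ext rfl ?_)
    · exact smul_zero (A := F.F) _
    · exact smul_zero (A := D.L) _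
  have h2 := os_w2_0 V (b := (X : RatFunc k) ^ n • b)
  rw [← h] at h2
  exact h2

private theorem os_e3 {F : LSp D} (V : LP k F.F) (b : D.L) :
    ((0, 0, b) : F.F × D.L × D.L) ∈ V.plus.N01 ↔ b ∈ (LP.OO D).N01 := by
  refine exists_congr fun n => ?_
  have h : (X : RatFunc k) ^ n • ((0, 0, b) : F.F × D.L × D.L) =
      (0, 0, (X : RatFunc k) ^ n • b) := by
    refine Prod.ext ?_ (Prod.ext ?_ rfl)
    · exact smul_zero (A := F.F) _
    · exact smul_zero (A := D.L) _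
  have h2 := os_w3_0 V (b := (X : RatFunc k) ^ n • b)
  rw [← h] at h2
  exact h2

theorem hasRes_CL {F : LSp D} (V : LP k F.F) (hB : LP.BStable V) :
    HasRes (CL (endL_st V.plus)) := by
  have h0 : ∀ v ∈ V.plus.N0, ∀ x ∈ V.plus.N0, os_g2 F x • v ∈ V.plus.N0 := fun v hv x hx =>
    os_b0 hB hx.2.1 hv
  refine os_hasRes (os_left (endL_st V.plus) (os_g2 F) ((0, 1, 0) : F.F × D.L × D.L) rfl
    (fun v => ⟨fun hv x hx => h0 v hv x hx, fun h => ?_⟩)
    (fun v => ⟨fun hv x hx => os_b1 hB hx.2.1 hv, fun h => ?_⟩)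
    (fun v => ⟨fun hv x hx => os_01 (os_g2 F) h0 hv hx, fun h => ?_⟩)
    ((os_w2_0 V).2 isIntegral_one) ((os_w2_1 V).2 isIntegral_one))
  · have h1 := h _ ((os_w2_0 V).2 (os_int_one D X))
    exact (one_smul D.L v) ▸ h1
  · have h1 := h _ ((os_w2_1 V).2 (os_int_one D X⁻¹))
    exact (one_smul D.L v) ▸ h1
  · have h1 := h _ (V.plus.N0_le ((os_w2_0 V).2 (os_int_one D X)))
    exact (one_smul D.L v) ▸ h1

theorem hasRes_CL_tw {F : LSp D} (V : LP k F.F) (hB : LP.BStable V) :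
    HasRes (CL ((endL_st V.plus).tw (-1))) := by
  have hX : (X : RatFunc k) ≠ 0 := RatFunc.X_ne_zero
  have h0 : ∀ v ∈ V.plus.N0, ∀ x ∈ V.plus.N0, os_g3 F x • v ∈ V.plus.N0 := fun v hv x hx =>
    os_b0 hB hx.2.2 hv
  have hXX : ∀ v : F.plus.F, (X : RatFunc k) ^ (-(-1 : ℤ)) • v = (X : RatFunc k) • v := by
    intro v
    rw [neg_neg, zpow_one]
  refine os_hasRes (os_left ((endL_st V.plus).tw (-1)) (os_g3 F) ((0, 0, 1) : F.F × D.L × D.L) rfl
    (fun v => ⟨fun hv x hx => h0 v hv x hx, fun h => ?_⟩)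
    (fun v => ⟨fun hv x hx => ?_, fun h => ?_⟩)
    (fun v => ⟨fun hv x hx => os_01 (os_g3 F) h0 hv hx, fun h => ?_⟩)
    ((os_w3_0 V).2 isIntegral_one) ?_)
  · have h1 := h _ ((os_w3_0 V).2 (os_int_one D X))
    exact (one_smul D.L v) ▸ h1
  · have hv' : (X : RatFunc k) • v ∈ V.plus.N1 := (hXX v) ▸ hv
    have h1 := os_b1 hB hx.2.2 hv'
    have h2 : ((X : RatFunc k) ^ (-1 : ℤ) • x.2.2) • (X : RatFunc k) • v =
        (os_g3 F x • v : F.plus.F) := by
      change ((X : RatFunc k) ^ (-1 : ℤ) • x.2.2) • (X : RatFunc k) • v = (x.2.2 • v : F.plus.F)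
      rw [smul_assoc, smul_comm x.2.2, smul_smul, zpow_neg_one, inv_mul_cancel₀ hX, one_smul]
    exact h2 ▸ h1
  · have h1 := h ((0, 0, (X : RatFunc k) • (1 : D.L)) : F.F × D.L × D.L) ((os_w3_1 V).2 (by
      rw [smul_smul, zpow_neg_one, inv_mul_cancel₀ hX, one_smul]
      exact os_int_one D X⁻¹))
    have h2 : (os_g3 F ((0, 0, (X : RatFunc k) • (1 : D.L)) : F.F × D.L × D.L) • v : F.plus.F) =
        (X : RatFunc k) ^ (-(-1 : ℤ)) • v := by
      rw [hXX]
      change ((X : RatFunc k) • (1 : D.L)) • v = (X : RatFunc k) • v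
      rw [smul_assoc, one_smul]
    have h3 : (X : RatFunc k) ^ (-(-1 : ℤ)) • v ∈ V.plus.N1 := h2 ▸ h1
    exact h3
  · have h1 := h _ (V.plus.N0_le ((os_w3_0 V).2 (os_int_one D X)))
    exact (one_smul D.L v) ▸ h1
  · have h1 : ((0, 0, (X : RatFunc k) • (1 : D.L)) : F.F × D.L × D.L) ∈ V.plus.N1 :=
      (os_w3_1 V).2 (by
        rw [smul_smul, zpow_neg_one, inv_mul_cancel₀ hX, one_smul]
        exact os_int_one D X⁻¹)
    have h2 : ((0, 0, (X : RatFunc k) • (1 : D.L)) : F.F × D.L × D.L) =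
        (X : RatFunc k) ^ (-(-1 : ℤ)) • ((0, 0, 1) : F.F × D.L × D.L) := by
      rw [neg_neg, zpow_one]
      refine Prod.ext ?_ (Prod.ext ?_ rfl)
      · exact (smul_zero (A := F.F) (X : RatFunc k)).symm
      · exact (smul_zero (A := D.L) (X : RatFunc k)).symm
    have h3 : (X : RatFunc k) ^ (-(-1 : ℤ)) • ((0, 0, 1) : F.F × D.L × D.L) ∈ V.plus.N1 :=
      h2 ▸ h1
    exact h3

theorem hasRes_CR {F : LSp D} (V : LP k F.F) : HasRes (CR (endR_st V.plus)) := by
  refine os_hasRes (os_right (endR_st V.plus) (os_g2 F) ((0, 1, 0) : F.F × D.L × D.L) rfl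
    (fun f => ?_) (fun f => ?_) (fun f => ?_) (fun x hx => hx.2.1) (fun x hx => hx.2.1))
  · refine forall_congr' fun x => forall_congr' fun hx => ?_
    exact os_r2 (fun y => (y : F.plus.F) ∈ V.plus.N0) (os_w2_0 V)
  · refine forall_congr' fun x => forall_congr' fun hx => ?_
    exact os_r2 (fun y => (y : F.plus.F) ∈ V.plus.N1) (os_w2_1 V)
  · refine (LP.mem_hom_N01 (F' := LSp.one D) V.plus (LP.OO D) f).trans ?_
    refine forall_congr' fun x => forall_congr' fun hx => ?_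
    exact os_r2 (fun y => (y : F.plus.F) ∈ V.plus.N01) (os_e2 V _)

theorem hasRes_CR_tw {F : LSp D} (V : LP k F.F) : HasRes (CR ((endR_st V.plus).tw 1)) := by
  refine os_hasRes (os_right ((endR_st V.plus).tw 1) (os_g3 F) ((0, 0, 1) : F.F × D.L × D.L) rfl
    (fun f => ?_) (fun f => ?_) (fun f => ?_) (fun x hx => hx.2.2) (fun x hx => hx.2.2))
  · refine forall_congr' fun x => forall_congr' fun hx => ?_
    exact os_r3 (fun y => (y : F.plus.F) ∈ V.plus.N0) (os_w3_0 V)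
  · refine forall_congr' fun x => forall_congr' fun hx => ?_
    exact os_r3 (fun y => (y : F.plus.F) ∈ V.plus.N1) (os_w3_1 V)
  · refine (LP.mem_hom_N01 (F' := LSp.one D) V.plus (LP.OO D) f).trans ?_
    refine forall_congr' fun x => forall_congr' fun hx => ?_
    exact os_r3 (fun y => (y : F.plus.F) ∈ V.plus.N01) (os_e3 V _)

end Pool.Agent.MP_6e5bed_ag_NC
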