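import Pool.Agent.Lib.MP_6e5bed_ag_CV.SimRes
import Pool.Agent.Lib.MP_6e5bed_ag_CV.OneSide

set_option autoImplicit false
set_option linter.unusedSectionVars false

/-!
# Torsion bimodules over the algebra of a curve have resolutions (NC CURVES)
-/

namespace Pool.Agent.MP_6e5bed_ag_NC

open RatFunc
open scoped TensorProduct

universe u

variable {k : Type u} [Field k] [IsAlgClosed k] {D : FExt k} {F : LSp D} {V : LP k F.F}

theorem LP.BStable.plus (hB : LP.BStable V) : LP.BStable V.plus := by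
  refine ⟨?_, ?_⟩
  · rintro b hb ⟨v, w, z⟩ hv
    obtain ⟨h1, h2⟩ := Submodule.mem_prod.1 hv
    obtain ⟨h2, h3⟩ := Submodule.mem_prod.1 h2
    refine Submodule.mem_prod.2 ⟨hB.1 b hb v h1, Submodule.mem_prod.2 ⟨?_, ?_⟩⟩
    · exact (LP.mem_OO_N0 _).2 (((LP.mem_OO_N0 _).1 hb).mul ((LP.mem_OO_N0 _).1 h2))
    · exact (LP.mem_OO_N0 _).2 (((LP.mem_OO_N0 _).1 hb).mul ((LP.mem_OO_N0 _).1 h3))
  · rintro b hb ⟨v, w, z⟩ hv
    obtain ⟨h1, h2⟩ := Submodule.mem_prod.1 hv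
    obtain ⟨h2, h3⟩ := Submodule.mem_prod.1 h2
    refine Submodule.mem_prod.2 ⟨hB.2 b hb v h1, Submodule.mem_prod.2 ⟨?_, ?_⟩⟩
    · exact (LP.mem_OO_N1 _).2 (((LP.mem_OO_N1 _).1 hb).mul ((LP.mem_OO_N1 _).1 h2))
    · refine (LP.mem_tw_N1 _ _ _).2 ?_
      have h4 : (X : RatFunc k) ^ (-1 : ℤ) • z ∈ (LP.OO D).N1 := (LP.mem_tw_N1 _ _ _).1 h3
      have h5 : (X : RatFunc k) ^ (-1 : ℤ) • (b * z) = b * ((X : RatFunc k) ^ (-1 : ℤ) • z) :=
        (mul_smul_comm _ b z).symm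
      change (X : RatFunc k) ^ (-1 : ℤ) • (b * z) ∈ (LP.OO D).N1
      rw [h5]
      exact (LP.mem_OO_N1 _).2 (((LP.mem_OO_N1 _).1 hb).mul ((LP.mem_OO_N1 _).1 h4))

theorem torsW (hB : LP.BStable V) (τ : Tri (endCosp V.plus) (endCosp V.plus)) (hτ : τ.Tors) :
    HasRes τ.bim := by
  have hB' := hB.plus
  have h : HasRes (res (DHom.id _) (DHom.id _) τ.bim) := by
    refine Tri.Tors.hasRes hτ (DHom.id _) (DHom.id _) ?_ ?_
    · intro U hU
      exact KBi.hasRes_of_simple (endCosp V.plus).proj0 (endCosp V.plus).proj0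
        (fun P hP hS => simple_l0 hB' (hasRes_CL V hB) (hasRes_CL_tw V hB) P hP hS)
        (fun P hP hS => simple_r0 hB' (hasRes_CR V) (hasRes_CR_tw V) P hP hS) U hU
    · intro U hU
      exact KBi.hasRes_of_simple (endCosp V.plus).proj1 (endCosp V.plus).proj1
        (fun P hP hS => simple_l1 hB' (hasRes_CL V hB) (hasRes_CL_tw V hB) P hP hS)
        (fun P hP hS => simple_r1 hB' (hasRes_CR V) (hasRes_CR_tw V) P hP hS) U hU
  exact h

end Pool.Agent.MP_6e5bed_ag_NC
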