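import Pool.Agent.Lib.MP_6e5bed_ag_CV.Retr
import Pool.Agent.Lib.MP_6e5bed_ag_CV.Sigma
import Pool.Agent.Lib.MP_6e5bed_ag_CV.Beil
import Pool.Agent.Lib.MP_6e5bed_ag_CV.TorsW
import Pool.Agent.Lib.MP_6e5bed_ag_CV.FCRes

set_option autoImplicit false
set_option linter.unusedSectionVars false

/-!
# The dg algebras of curves are smooth (NC CURVES)
-/

namespace Pool.Agent.MP_6e5bed_ag_NC

open RatFunc
open scoped TensorProduct

universe u

variable {k : Type u} [Field k] {D : FExt k}

/-- One-sided modules do not depend on the field of definition. -/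
theorem CL_toK {S : Cosp k} {F : LSp D} {l : LAct S.A01 F} {V : LP k F.F} (hl : l.St V)
    (hl' : l.toK.St (F := F.toK) V) (h : HasRes (CL hl)) : HasRes (CL hl') := by
  exact h

theorem CR_toK {S : Cosp k} {F : LSp D} {r : RAct S.A01 F} {V : LP k F.F} (hr : r.St V)
    (hr' : r.toK.St (F := F.toK) V) (h : HasRes (CR hr)) : HasRes (CR hr') := by
  exact h

private theorem smoothW_mul_l (F : LSp D) (a : Module.End D.L F.F)
    (x : F.F ⊗[RatFunc k] (F.F →ₗ[D.L] D.L)) :
    multK F ((a.restrictScalars (RatFunc k)).rTensor (F.F →ₗ[D.L] D.L) x) = a * multK F x := by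
  induction x using TensorProduct.induction_on with
  | zero => rw [map_zero, map_zero, mul_zero]
  | tmul v f =>
    refine LinearMap.ext fun y => ?_
    rw [LinearMap.rTensor_tmul, multK_tmul]
    exact (a.map_smul (f y) v).symm
  | add x y hx hy => rw [map_add, map_add, map_add, hx, hy, mul_add]

private theorem smoothW_mul_r (F : LSp D) (b : Module.End D.L F.F)
    (x : F.F ⊗[RatFunc k] (F.F →ₗ[D.L] D.L)) :
    multK F ((LinearMap.restrictScalars (RatFunc k) (LinearMap.lcomp D.L D.L b)).lTensor F.F x) =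
      multK F x * b := by
  induction x using TensorProduct.induction_on with
  | zero => rw [map_zero, map_zero, zero_mul]
  | tmul v f =>
    refine LinearMap.ext fun y => ?_
    rw [LinearMap.lTensor_tmul, multK_tmul]
    rfl
  | add x y hx hy => rw [map_add, map_add, map_add, hx, hy, add_mul]

theorem smooth_curve [IsAlgClosed k] (W : DGA k) (hW : IsCurve W) : Smooth W := by
  obtain ⟨D, F, V, hB, rfl⟩ := hW
  apply smooth_of_hasRes
  refine HasRes.iso ?_ (endDiag V.plus)
  obtain ⟨σ, hσ, σl, σr⟩ := exists_sigma F.plus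
  have hl := endL_st V.plus
  have hl' : (endL V.plus).toK.St (F := F.plus.toK) V.plus := ⟨hl.s0, hl.s1, hl.s01⟩
  have hr := endR_st V.plus
  have hr' : (endR V.plus).toK.St (F := F.plus.dual.toK) V.plus.dual := ⟨hr.s0, hr.s1, hr.s01⟩
  have r1 : HasRes (CL hl') := CL_toK hl hl' (hasRes_CL V hB)
  have r2 : HasRes (CL (hl'.tw (-1))) := CL_toK (hl.tw (-1)) (hl'.tw (-1)) (hasRes_CL_tw V hB)
  have r3 : HasRes (CR hr') := CR_toK hr hr' (hasRes_CR V)
  have r4' : HasRes (CR (hr.tw (-1))) :=
    LP.hasRes_tw' (stable_rG hr) _ _ (hasRes_CR V) (hasRes_CR_tw V) (-1)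
  have r4 : HasRes (CR (hr'.tw (-1))) := CR_toK (hr.tw (-1)) (hr'.tw (-1)) r4'
  have r5 : HasRes (LP.tri (stable_tens hl' hr')).bim := hasRes_tens hl' hr' r1 r2 r3 r4
  exact hasRes_retract (G := endG V.plus)
    (G' := tensG (endL V.plus).toK (endR V.plus).toK) σ (multK F.plus)
    (fun a x => σl a.1 x) (fun a x => σr a.1 x)
    (fun a x => smoothW_mul_l F.plus a.1 x) (fun a x => smoothW_mul_r F.plus a.1 x) hσ
    (DHom.id _) (DHom.id _)
    (fun τ hτ => torsW hB τ hτ) (stable_end V.plus) (stable_tens hl' hr') r5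

end Pool.Agent.MP_6e5bed_ag_NC
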