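import Pool.Agent.Lib.MP_6e5bed_ag_CV.RatA
import Pool.Agent.Lib.MP_6e5bed_ag_CV.SmoothW
import Pool.Agent.Lib.MP_6e5bed_ag_CV.MStepC

set_option autoImplicit false
set_option linter.unusedSectionVars false

/-!
# The projective line: the identity factors through `k` (NC CURVES)
-/

namespace Pool.Agent.MP_6e5bed_ag_NC

open RatFunc
open scoped TensorProduct

universe u

variable {k : Type u} [Field k] {D : FExt k}

private theorem ratB_finrank (h : Module.finrank (RatFunc k) D.L = 1) (F : LSp D) :
    Module.finrank (RatFunc k) (F.F ⊗[RatFunc k] (F.F →ₗ[D.L] D.L)) =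
      Module.finrank (RatFunc k) (Module.End D.L F.F) := by
  have hF : FiniteDimensional D.L F.F := FiniteDimensional.right (RatFunc k) D.L F.F
  have key : ∀ (M : Type u) [AddCommGroup M] [Module (RatFunc k) M] [Module D.L M]
      [IsScalarTower (RatFunc k) D.L M], Module.finrank (RatFunc k) M = Module.finrank D.L M := by
    intro M _ _ _ _
    rw [← Module.finrank_mul_finrank (RatFunc k) D.L M, h, one_mul]
  rw [Module.finrank_tensorProduct, key F.F, key (F.F →ₗ[D.L] D.L), key (Module.End D.L F.F),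
    Module.finrank_linearMap, Module.finrank_linearMap, Module.finrank_self, mul_one]

/-- `F ⊗_K F* → End_L F` is an isomorphism if `L = K`. -/
theorem multK_bij (h : Module.finrank (RatFunc k) D.L = 1) (F : LSp D) :
    Function.Bijective (multK F) := by
  obtain ⟨σ, hσ, -, -⟩ := exists_sigma F
  have hs : Function.Surjective (multK F) := fun g => ⟨σ g, hσ g⟩
  exact ⟨(LinearMap.injective_iff_surjective_of_finrank_eq_finrank (ratB_finrank h F)).2 hs, hs⟩

private theorem ratB_l' {F : LSp D} (a : Module.End D.L F.F)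
    (z : F.F ⊗[RatFunc k] (F.F →ₗ[D.L] D.L)) :
    multK F ((a.restrictScalars (RatFunc k)).rTensor (F.F →ₗ[D.L] D.L) z) = a * multK F z := by
  have h : (multK F) ∘ₗ (a.restrictScalars (RatFunc k)).rTensor (F.F →ₗ[D.L] D.L) =
      (LinearMap.mulLeft (RatFunc k) a) ∘ₗ multK F := by
    refine TensorProduct.ext' fun v f => ?_
    ext x
    change f x • a v = a (f x • v)
    rw [map_smul]
  exact LinearMap.congr_fun h z

private theorem ratB_r' {F : LSp D} (b : Module.End D.L F.F)
    (z : F.F ⊗[RatFunc k] (F.F →ₗ[D.L] D.L)) :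
    multK F ((LinearMap.restrictScalars (RatFunc k) (LinearMap.lcomp D.L D.L b)).lTensor F.F z) =
      multK F z * b := by
  have h : (multK F) ∘ₗ
      (LinearMap.restrictScalars (RatFunc k) (LinearMap.lcomp D.L D.L b)).lTensor F.F =
      (LinearMap.mulRight (RatFunc k) b) ∘ₗ multK F := by
    refine TensorProduct.ext' fun v f => ?_
    ext x
    rfl
  exact LinearMap.congr_fun h z

/-- If `L = k(t)`, the generic fibre of the endomorphisms is a tensor product over `k(t)`. -/
theorem endG_iso (h : Module.finrank (RatFunc k) D.L = 1) {F : LSp D} (V : LP k F.F) :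
    GBi.Iso (tensG (endL V).toK (endR V).toK) (endG V) := by
  refine ⟨LinearEquiv.ofBijective (multK F) (multK_bij h F), fun a z => ?_, fun b z => ?_⟩
  · exact ratB_l' (show EA01 V from a).1 z
  · exact ratB_r' (show EA01 V from b).1 z

private theorem ratB_lst {F : LSp D} {S : Cosp k} {l : LAct S.A01 F} {V : LP k F.F}
    (hl : l.St V) : l.toK.St (F := F.toK) V := ⟨hl.s0, hl.s1, hl.s01⟩

private theorem ratB_rst {F : LSp D} {S : Cosp k} {r : RAct S.A01 F} {V : LP k F.F}
    (hr : r.St V) : r.toK.St (F := F.toK) V := ⟨hr.s0, hr.s1, hr.s01⟩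

/-- If `L = k(t)`, the identity of the dg algebra of endomorphisms factors through `k`. -/
theorem rat_one [IsAlgClosed k] (h : Module.finrank (RatFunc k) D.L = 1) {F : LSp D}
    {V : LP k F.F} (hB : LP.BStable V) (hs : Smooth (endCosp V.plus).cech) :
    K0Q.one hs ∈ JS (fun X => X = base k) (endCosp V.plus).cech := by
  have hJ : TorsIn (JS (fun X => X = base k) (endCosp V.plus).cech) := torsIn_JS rfl hs
  have hl := endL_st V.plus
  have hr := endR_st V.plus
  have h1 : HasRes (CL (ratB_lst hl)) := CL_toK hl _ (hasRes_CL V hB)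
  have h2 : HasRes (CL ((ratB_lst hl).tw (-1))) := CL_toK (hl.tw (-1)) _ (hasRes_CL_tw V hB)
  have h3 : HasRes (CR (ratB_rst hr)) := CR_toK hr _ (hasRes_CR V)
  have h4 : HasRes (CR ((ratB_rst hr).tw (-1))) := by
    refine CR_toK (hr.tw (-1)) _ ?_
    exact LP.hasRes_tw' (stable_rG hr) _ _ (hasRes_CR V) (hasRes_CR_tw V) (-1)
  have ht := hasRes_tens (ratB_lst hl) (ratB_rst hr) h1 h2 h3 h4
  have hG : IsG (JS (fun X => X = base k) (endCosp V.plus).cech)
      (tensG (endL V.plus).toK (endR V.plus).toK) 0 :=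
    ⟨_, stable_tens (ratB_lst hl) (ratB_rst hr), ht, by
      rw [sub_zero]
      exact rcls_tens (Good := fun X => X = base k) rfl _ _ h1 h2 h3 h4 ht⟩
  have hE := hG.iso (endG_iso h V.plus)
  have hd : HasRes (MP_6e5bed_ag_NC.diag (endCosp V.plus).cech) := Smooth.hasRes_diag hs
  have hd' : HasRes (LP.tri (stable_end V.plus)).bim := hd.iso (endDiag V.plus).symm
  have hm := hE.eq hJ (stable_end V.plus) hd'
  rw [sub_zero, rcls_iso (endDiag V.plus) hd' hd, rcls_diag hs (proper_end V.plus) hd] at hm
  exact hm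

end Pool.Agent.MP_6e5bed_ag_NC
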