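import Pool.Agent.Lib.MP_6e5bed_ag_CV.Dev
import Pool.Agent.Lib.MP_6e5bed_ag_CV.RatB
import Pool.Agent.Lib.MP_6e5bed_ag_CV.JTrans
import Pool.Agent.Lib.MP_6e5bed_ag_CV.MStepC

set_option autoImplicit false
set_option linter.unusedSectionVars false

/-!
# Coherent algebras with split generic fibre (NC CURVES)
-/

namespace Pool.Agent.MP_6e5bed_ag_NC

open RatFunc LP
open scoped TensorProduct

universe u

variable {k : Type u} [Field k]

/-- The endomorphisms of `G` are the scalars in `k(t)`. -/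
def GBi.Scal {R R' : Type u} [Ring R] [Algebra k R] [Ring R'] [Algebra k R']
    (G : GBi k R R') : Prop := ∀ f : G.E →ₗ[RatFunc k] G.E, (∀ a x, f (G.l a x) = G.l a (f x)) →
  (∀ b x, f (G.r b x) = G.r b (f x)) → ∃ c : RatFunc k, ∀ x, f x = c • x

/-- The simple bimodules over the generic fibre of `A` have no endomorphisms except the scalars in
`k(t)`. -/
def SplitCoh (A : Cosp k) (t : A.A0) : Prop := ∀ G : GBi k A.A01 A.A01,
  (∀ v, G.l (A.r0 t) v = (X : RatFunc k) • v) → (∀ v, G.r (A.r0 t) v = (X : RatFunc k) • v) →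
    G.Simple → G.Scal

theorem finrank_one {R R' : Type u} [Ring R] [Algebra k R] [Ring R'] [Algebra k R']
    {G : GBi k R R'} (hG : G.Simple) (hS : G.Scal) {D : FExt k} {E : LSp D} {l : LAct R E}
    {r : RAct R' E} {h : ∀ a b v, l.f a (r.f b v) = r.f b (l.f a v)}
    (hi : GBi.Iso G (GBi.ofAct l r h)) : Module.finrank (RatFunc k) D.L = 1 := by
  obtain ⟨f, hl, hr⟩ := hi
  have hn : Nontrivial G.E := hG.1
  obtain ⟨x, hx⟩ := exists_ne (0 : G.E)
  rw [finrank_eq_one_iff_of_nonzero' (1 : D.L) one_ne_zero]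
  intro c
  let m : E.F →ₗ[RatFunc k] E.F :=
    (LinearMap.lsmul D.L E.F c).restrictScalars (RatFunc k)
  let g : G.E →ₗ[RatFunc k] G.E := f.symm.toLinearMap ∘ₗ m ∘ₗ f.toLinearMap
  have hg : ∀ y, f (g y) = c • (show E.F from f y) := fun y => f.apply_symm_apply _
  have hgl : ∀ a y, g (G.l a y) = G.l a (g y) := fun a y => by
    apply f.injective
    rw [hg]
    refine Eq.trans ?_ (hl a (g y)).symm
    rw [hl a y]
    refine Eq.trans ?_ (congrArg (fun z : E.F => l.f a z) (hg y).symm)
    exact ((l.f a).map_smul c _).symm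
  have hgr : ∀ b y, g (G.r b y) = G.r b (g y) := fun b y => by
    apply f.injective
    rw [hg]
    refine Eq.trans ?_ (hr b (g y)).symm
    rw [hr b y]
    refine Eq.trans ?_ (congrArg (fun z : E.F => r.f b z) (hg y).symm)
    exact ((r.f b).map_smul c _).symm
  obtain ⟨d, hd⟩ := hS g hgl hgr
  refine ⟨d, ?_⟩
  have h1 : c • (show E.F from f x) = d • (show E.F from f x) := by
    rw [← hg, hd]
    exact map_smul f d x
  have h2 : (d • (1 : D.L) - c) • (show E.F from f x) = 0 := by
    rw [sub_smul, smul_assoc, one_smul, h1, sub_self]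
  rcases smul_eq_zero.1 h2 with h3 | h3
  · exact sub_eq_zero.1 h3
  · exact absurd (f.map_eq_zero_iff.1 h3) hx

theorem IsCoh.central {A : Cosp k} {t : A.A0} {s : A.A1} (h : IsCoh A t s) (c : A.A01) :
    A.r0 t * c = c * A.r0 t := by
  obtain ⟨n, a, ha⟩ := h.loc0 c
  have h1 : ∀ m : ℕ, A.r1 s ^ m * A.r0 t ^ m = 1 := by
    intro m
    induction m with
    | zero => simp
    | succ m ih =>
      rw [pow_succ, pow_succ', mul_assoc, ← mul_assoc (A.r1 s) (A.r0 t), h.st, one_mul, ih]
  have hc : c = A.r1 s ^ n * A.r0 a := by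
    rw [← ha, ← mul_assoc, h1, one_mul]
  have h2 : Commute (A.r0 t) (A.r1 s) := h.ts.trans h.st.symm
  have h3 : Commute (A.r0 t) (A.r0 a) := by
    change A.r0 t * A.r0 a = A.r0 a * A.r0 t
    rw [← map_mul, ← map_mul, h.t_comm]
  rw [hc]
  exact ((h2.pow_right n).mul_right h3)

theorem one_mem_split [IsAlgClosed k] {A : Cosp k} {t : A.A0} {s : A.A1}
    (h : IsCoh A t s) (hA : Smooth A.cech) (hsp : SplitCoh A t) :
    K0Q.one hA ∈ JS (fun X => X = base k) A.cech := by
  have hJ : TorsIn (JS (fun X => X = base k) A.cech) := torsIn_JS rfl hA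
  have key : ∀ G : GBi k A.A01 A.A01, (∀ v, G.l (A.r0 t) v = (X : RatFunc k) • v) →
      (∀ v, G.r (A.r0 t) v = (X : RatFunc k) • v) → ∀ N : LP k G.E, Stable G N →
      IsG (JS (fun X => X = base k) A.cech) G 0 := by
    intro G
    refine GBi.ind (P := fun G => (∀ v, G.l (A.r0 t) v = (X : RatFunc k) • v) →
      (∀ v, G.r (A.r0 t) v = (X : RatFunc k) • v) → ∀ N : LP k G.E, Stable G N →
      IsG (JS (fun X => X = base k) A.cech) G 0) ?_ ?_ ?_ G
    · intro G hG _ _ _ _
      exact IsG.zero hG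
    · intro G hG tl tr N hN
      refine main_simple_gen hA hJ hG hN fun D E l r hlr iso V hB hl hr φ => ?_
      have h1 := finrank_one hG (hsp G tl tr hG) iso
      have hsW : Smooth (endCosp V.plus).cech := smooth_curve _ ⟨D, E, V, hB, rfl⟩
      refine (cls_corner (Good := fun X => X = (endCosp V.plus).cech) hA hl hr hsW rfl φ).mono
        (JS.trans A.cech fun X hX => ?_)
      subst hX
      exact ⟨hsW, proper_end V.plus, rat_one h1 hB hsW⟩
    · intro G U hU h1 h2 tl tr N hN
      obtain ⟨N', h', N'', h'', -⟩ := ses_sub hN U hU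
      have h3 := IsG.add hJ hA hA U hU hN
        (h1 (fun v => Subtype.ext (tl v.1)) (fun v => Subtype.ext (tr v.1)) N' h')
        (h2 (fun v => ?_) (fun v => ?_) N'' h'')
      · rwa [add_zero] at h3
      · obtain ⟨v, rfl⟩ := U.mkQ_surjective v
        exact congrArg U.mkQ (tl v)
      · obtain ⟨v, rfl⟩ := U.mkQ_surjective v
        exact congrArg U.mkQ (tr v)
  obtain ⟨τ, G, j, N, hN, jl, jr, jt, jg, hτ, hses⟩ := exists_dec_gen h.tri
  have tl : ∀ v, G.l (A.r0 t) v = (X : RatFunc k) • v := by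
    intro v
    obtain ⟨g, x, hg, hx⟩ := jg v
    have h1 : (g : RatFunc k) • G.l (A.r0 t) v = (g : RatFunc k) • (X : RatFunc k) • v := by
      rw [← map_smul, smul_comm]
      change G.l (A.r0 t) (g • v) = (X : RatFunc k) • (g • v)
      rw [hx]
      exact (jl (A.r0 t) x).symm.trans (jt x)
    exact smul_right_injective _ (fun h0 => hg (Subtype.ext h0)) h1
  have tr : ∀ v, G.r (A.r0 t) v = (X : RatFunc k) • v := by
    intro v
    obtain ⟨g, x, hg, hx⟩ := jg v
    have h1 : (g : RatFunc k) • G.r (A.r0 t) v = (g : RatFunc k) • (X : RatFunc k) • v := by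
      rw [← map_smul, smul_comm]
      change G.r (A.r0 t) (g • v) = (X : RatFunc k) • (g • v)
      rw [hx]
      refine (jr (A.r0 t) x).symm.trans (Eq.trans (congrArg j ?_) (jt x))
      exact (h.central x).symm
    exact smul_right_injective _ (fun h0 => hg (Subtype.ext h0)) h1
  obtain ⟨hr, hm⟩ := hJ τ hτ
  have hN' : HasRes (LP.tri hN).bim := HasRes.of_finCoh hA hA _ (LP.finCoh hN)
  have hm' : rcls _ hN' ∈ JS (fun X => X = base k) A.cech := by
    have := (key G tl tr N hN).eq hJ hN hN'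
    rwa [sub_zero] at this
  have hM : HasRes (Tri.diag A).bim := hses.mid hr hN'
  have hd : HasRes (MP_6e5bed_ag_NC.diag A.cech) := hM.iso (Tri.bim_diag A)
  rw [← rcls_diag hA (proper_coh h) hd, ← rcls_iso (Tri.bim_diag A) hM hd,
    hses.rcls hr hM hN']
  exact Submodule.add_mem _ hm hm'

end Pool.Agent.MP_6e5bed_ag_NC
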