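import Pool.Agent.Lib.MP_6e5bed_ag_CV.LTens

set_option autoImplicit false
set_option linter.unusedSectionVars false

/-!
# Duals, restriction to `k(t)`, one-sided modules
-/

namespace Pool.Agent.MP_6e5bed_ag_NC

open RatFunc
open scoped TensorProduct

universe u

variable {k : Type u} [Field k] {D : FExt k}

/-- The function field of the projective line. -/
noncomputable def FExt.triv (k : Type u) [Field k] : FExt k where
  L := RatFunc k

/-- The function field as a vector space. -/
noncomputable def LSp.one (D : FExt k) : LSp D where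
  F := D.L

/-- The dual space. -/
noncomputable def LSp.dual (F : LSp D) : LSp D where
  F := F.F →ₗ[D.L] D.L
  finK := by
    have : FiniteDimensional D.L F.F := FiniteDimensional.right (RatFunc k) D.L F.F
    exact Module.Finite.trans D.L (F.F →ₗ[D.L] D.L)

/-- Restriction of scalars to `k(t)`. -/
noncomputable def LSp.toK (F : LSp D) : LSp (FExt.triv k) where
  F := F.F
  modL := F.modK
  towKL := inferInstanceAs (IsScalarTower (RatFunc k) (RatFunc k) F.F)
  towkL := F.towkK

section

variable {R : Type u} [Ring R] [Algebra k R]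

/-- Restriction of scalars to `k(t)`. -/
noncomputable def LAct.toK {F : LSp D} (l : LAct R F) : LAct R F.toK where
  f := (MP_6e5bed_ag_NC.toK l.f : R →ₗ[k] F.F →ₗ[RatFunc k] F.F)
  one := l.one
  mul := l.mul

/-- Restriction of scalars to `k(t)`. -/
noncomputable def RAct.toK {F : LSp D} (r : RAct R F) : RAct R F.toK where
  f := (MP_6e5bed_ag_NC.toK r.f : R →ₗ[k] F.F →ₗ[RatFunc k] F.F)
  one := r.one
  mul := r.mul

/-- A left module as a bimodule with the right action of `k`. -/
noncomputable def lG {F : LSp D} (l : LAct R F) : GBi k R k where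
  E := F.F
  l := toK l.f
  r :=
    { toFun := fun c => c • LinearMap.id
      map_add' := fun c c' => add_smul c c' _
      map_smul' := fun c c' => mul_smul c c' _ }
  l_one := l.one
  r_one := fun m => one_smul k m
  l_mul := l.mul
  r_mul := fun b b' m => by
    change (b * b') • m = b' • b • m
    rw [smul_smul, mul_comm]
  l_r := fun a b m => by
    change l.f a (b • m) = b • l.f a m
    exact ((l.f a).restrictScalars k).map_smul b m

/-- A right module as a bimodule with the left action of `k`. -/
noncomputable def rG {F : LSp D} (r : RAct R F) : GBi k k R where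
  E := F.F
  l :=
    { toFun := fun c => c • LinearMap.id
      map_add' := fun c c' => add_smul c c' _
      map_smul' := fun c c' => mul_smul c c' _ }
  r := toK r.f
  l_one := fun m => one_smul k m
  r_one := r.one
  l_mul := fun b b' m => mul_smul b b' m
  r_mul := r.mul
  l_r := fun a b m => by
    change a • r.f b m = r.f b (a • m)
    exact (((r.f b).restrictScalars k).map_smul a m).symm

end

/-- The cospan of algebras with all algebras equal to `k`. -/
noncomputable def ptC (k : Type u) [Field k] : Cosp k where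
  A0 := k
  A1 := k
  A01 := k
  r0 := AlgHom.id k k
  r1 := AlgHom.id k k

theorem stable_lG {S : Cosp k} {F : LSp D} {l : LAct S.A01 F} {V : LP k F.F} (hl : l.St V) :
    LP.Stable (S := S) (T := ptC k) (lG l) V where
  l0 := hl.s0
  r0 := fun c _ hv => Submodule.smul_mem (Submodule.restrictScalars k V.N0) c hv
  l1 := hl.s1
  r1 := fun c _ hv => Submodule.smul_mem (Submodule.restrictScalars k V.N1) c hv
  l01 := hl.s01
  r01 := fun c _ hv => V.N01.smul_mem c hv

theorem stable_rG {S : Cosp k} {F : LSp D} {r : RAct S.A01 F} {V : LP k F.F} (hr : r.St V) :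
    LP.Stable (S := ptC k) (T := S) (rG r) V where
  l0 := fun c _ hv => Submodule.smul_mem (Submodule.restrictScalars k V.N0) c hv
  r0 := hr.s0
  l1 := fun c _ hv => Submodule.smul_mem (Submodule.restrictScalars k V.N1) c hv
  r1 := hr.s1
  l01 := fun c _ hv => V.N01.smul_mem c hv
  r01 := hr.s01

/-- The Čech complex of a left module, as a left dg module. -/
noncomputable def CL {S : Cosp k} {F : LSp D} {l : LAct S.A01 F} {V : LP k F.F}
    (hl : l.St V) : Bim S.cech (base k) :=
  res (DHom.id S.cech) (DHom.unit (ptC k).cech) (LP.tri (stable_lG hl)).bim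

/-- The Čech complex of a right module, as a right dg module. -/
noncomputable def CR {S : Cosp k} {F : LSp D} {r : RAct S.A01 F} {V : LP k F.F}
    (hr : r.St V) : Bim (base k) S.cech :=
  res (DHom.unit (ptC k).cech) (DHom.id S.cech) (LP.tri (stable_rG hr)).bim

/-- The right action of the endomorphisms on the dual space. -/
noncomputable def endR {F : LSp D} (V : LP k F.F) : RAct (endCosp V).A01 F.dual where
  f := LinearMap.mk₂' k D.L (fun (a : EA01 V) (f : F.F →ₗ[D.L] D.L) => f.comp a.1)
    (fun (a a' : EA01 V) f => LinearMap.comp_add _ _ _)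
    (fun c (a : EA01 V) f => by
      refine LinearMap.ext fun v => ?_
      exact (f.restrictScalars k).map_smul c (a.1 v))
    (fun (a : EA01 V) f f' => LinearMap.add_comp _ _ _) (fun c (a : EA01 V) f => rfl)
  one := fun _ => rfl
  mul := fun _ _ _ => rfl

/-- The dual vector bundle. -/
noncomputable def LP.dual {F : LSp D} (V : LP k F.F) : LP k F.dual.F :=
  LP.hom (F' := LSp.one D) V (LP.OO D)

theorem LP.mem_dual_N0 {F : LSp D} (V : LP k F.F) (f : F.F →ₗ[D.L] D.L) :
    f ∈ V.dual.N0 ↔ ∀ v ∈ V.N0, IsIntegral (kk k X) (f v) := Iff.rfl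

theorem LP.mem_dual_N1 {F : LSp D} (V : LP k F.F) (f : F.F →ₗ[D.L] D.L) :
    f ∈ V.dual.N1 ↔ ∀ v ∈ V.N1, IsIntegral (kk k X⁻¹) (f v) := Iff.rfl

theorem endR_st {F : LSp D} (V : LP k F.F) : (endR V).St V.dual where
  s0 := fun a v hv w hw => hv _ (a.2 w hw)
  s1 := fun a v hv w hw => hv _ (a.2 w hw)
  s01 := fun a v hv => by
    refine (LP.mem_hom_N01 (F' := LSp.one D) V (LP.OO D) _).2 (fun w hw => ?_)
    exact (LP.mem_hom_N01 (F' := LSp.one D) V (LP.OO D) v).1 hv _ (a.2 w hw)

/-- Twists of stable lattice pairs are stable. -/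
theorem LAct.St.tw {S : Cosp k} {F : LSp D} {l : LAct S.A01 F} {V : LP k F.F} (hl : l.St V)
    (n : ℤ) : l.St (V.tw n) where
  s0 := hl.s0
  s1 := fun a v hv => by
    have h1 := hl.s1 a _ ((LP.mem_tw_N1 V n v).1 hv)
    have h2 : l.f (S.r1 a) ((X : RatFunc k) ^ (-n) • v) =
        (X : RatFunc k) ^ (-n) • l.f (S.r1 a) v :=
      ((l.f (S.r1 a)).restrictScalars (RatFunc k)).map_smul _ v
    rw [h2] at h1
    exact (LP.mem_tw_N1 V n _).2 h1
  s01 := hl.s01

theorem RAct.St.tw {S : Cosp k} {F : LSp D} {r : RAct S.A01 F} {V : LP k F.F} (hr : r.St V)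
    (n : ℤ) : r.St (V.tw n) where
  s0 := hr.s0
  s1 := fun a v hv => by
    have h1 := hr.s1 a _ ((LP.mem_tw_N1 V n v).1 hv)
    have h2 : r.f (S.r1 a) ((X : RatFunc k) ^ (-n) • v) =
        (X : RatFunc k) ^ (-n) • r.f (S.r1 a) v :=
      ((r.f (S.r1 a)).restrictScalars (RatFunc k)).map_smul _ v
    rw [h2] at h1
    exact (LP.mem_tw_N1 V n _).2 h1
  s01 := hr.s01

end Pool.Agent.MP_6e5bed_ag_NC
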