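import Pool.Agent.Lib.MP_6e5bed_ag_CV.LSpD
import Pool.Agent.Lib.MP_6e5bed_ag_CV.KK

set_option autoImplicit false
set_option linter.unusedSectionVars false

/-!
# Dual bases of lattices over the integral closure (NC CURVES)

The integral closure `B` of `k[c]` in `L` is a Dedekind domain with fraction field `L`; a finitely
generated torsion-free module over `B` is projective, and has a dual basis.
-/

namespace Pool.Agent.MP_6e5bed_ag_NC

open RatFunc
open scoped TensorProduct

universe u

section aux

private theorem dualB_split {B M : Type*} [CommRing B] [IsDedekindDomain B] [AddCommGroup M]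
    [Module B M] [Module.IsTorsionFree B M] [Module.Finite B M] :
    ∃ (n : ℕ) (v : Fin n → M) (g : Fin n → (M →ₗ[B] B)), ∀ x, x = ∑ j, g j x • v j := by
  obtain ⟨n, φ, hφ⟩ := Module.Finite.exists_fin' B M
  have : Module.FinitePresentation B M := Module.finitePresentation_of_finite B M
  have : Module.Projective B M := Module.Flat.projective_of_finitePresentation
  obtain ⟨s, hs⟩ := Module.projective_lifting_property φ LinearMap.id hφ
  refine ⟨n, fun j => φ (Pi.single j 1), fun j => (LinearMap.proj j).comp s, fun x => ?_⟩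
  have h1 : φ (s x) = x := LinearMap.congr_fun hs x
  have h2 : s x = ∑ j, (s x) j • (Pi.single j (1 : B) : Fin n → B) := by
    funext i
    rw [Finset.sum_apply]
    simp [Pi.single_apply]
  have h3 : φ (s x) = φ (∑ j, (s x) j • (Pi.single j (1 : B) : Fin n → B)) := congrArg φ h2
  rw [h1] at h3
  rw [map_sum] at h3
  simp only [map_smul] at h3
  exact h3

variable {B L F : Type*} [CommRing B] [IsDedekindDomain B] [Field L] [Algebra B L]
  [IsFractionRing B L] [AddCommGroup F] [Module B F] [Module L F] [IsScalarTower B L F]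

private theorem dualB_main (N : Submodule B F) (hN : N.FG)
    (hs : Submodule.span L (N : Set F) = ⊤) :
    ∃ (n : ℕ) (v : Fin n → F) (f : Fin n → (F →ₗ[L] L)), (∀ j, v j ∈ N) ∧
      (∀ j, ∀ x ∈ N, ∃ b : B, f j x = algebraMap B L b) ∧ ∀ x, x = ∑ j, f j x • v j := by
  have : Module.Finite B N := Module.Finite.iff_fg.2 hN
  have htf : Module.IsTorsionFree B F := by
    refine ⟨fun r hr x y hxy => ?_⟩
    have hr0 : algebraMap B L r ≠ 0 := by
      intro h
      have : r = 0 := (IsFractionRing.injective B L) (by rw [h, map_zero])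
      exact hr.ne_zero this
    have h1 : r • x = r • y := hxy
    rw [← algebraMap_smul L r x, ← algebraMap_smul L r y] at h1
    exact smul_right_injective F hr0 h1
  have : Module.IsTorsionFree B N := inferInstance
  obtain ⟨n, v, g, hg⟩ := dualB_split (B := B) (M := N)
  have hsp : ⊤ ≤ Submodule.span L (N : Set F) := hs.ge
  let e := Module.Basis.ofSpan hsp
  have heN : ∀ i, e i ∈ N := fun i => Module.Basis.ofSpan_subset hsp ⟨i, rfl⟩
  let f : Fin n → (F →ₗ[L] L) := fun j =>
    e.constr L (fun i => algebraMap B L (g j ⟨e i, heN i⟩))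
  have hfe : ∀ j i, f j (e i) = algebraMap B L (g j ⟨e i, heN i⟩) := by
    intro j i
    exact e.constr_basis L _ i
  have hf : ∀ j, ∀ x (hx : x ∈ N), f j x = algebraMap B L (g j ⟨x, hx⟩) := by
    intro j x hx
    obtain ⟨b, hb⟩ := IsLocalization.exist_integer_multiples (nonZeroDivisors B)
      (e.repr x).support (e.repr x)
    have hc : ∀ i, ∃ c : B, i ∈ (e.repr x).support → algebraMap B L c = (b : B) • e.repr x i := by
      intro i
      by_cases hi : i ∈ (e.repr x).support
      · obtain ⟨c, hc⟩ := hb i hi
        exact ⟨c, fun _ => hc⟩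
      · exact ⟨0, fun h => (hi h).elim⟩
    choose c hc using hc
    have hx1 : (b : B) • x = ∑ i ∈ (e.repr x).support, c i • e i := by
      conv_lhs => rw [← e.linearCombination_repr x, Finsupp.linearCombination_apply, Finsupp.sum]
      rw [Finset.smul_sum]
      refine Finset.sum_congr rfl fun i hi => ?_
      rw [← algebraMap_smul L (c i) (e i), hc i hi, smul_assoc]
    have hx2 : (b : B) • (⟨x, hx⟩ : N) = ∑ i ∈ (e.repr x).support, c i • (⟨e i, heN i⟩ : N) := by
      apply Subtype.ext
      rw [Submodule.coe_smul, hx1, Submodule.coe_sum]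
      rfl
    have hx3 := congrArg (g j) hx2
    rw [map_smul, map_sum] at hx3
    have hx4 := congrArg (f j) hx1
    rw [← algebraMap_smul L (b : B) x, map_smul, map_sum] at hx4
    have hx5 : ∑ i ∈ (e.repr x).support, f j (c i • e i) =
        algebraMap B L ((b : B) • g j ⟨x, hx⟩) := by
      rw [hx3, map_sum]
      refine Finset.sum_congr rfl fun i _ => ?_
      rw [← algebraMap_smul L (c i) (e i), map_smul, hfe, map_smul, smul_eq_mul, smul_eq_mul,
        map_mul]
    rw [hx5, smul_eq_mul, smul_eq_mul, map_mul] at hx4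
    have hb0 : algebraMap B L b ≠ 0 := by
      intro h
      have : (b : B) = 0 := (IsFractionRing.injective B L) (by rw [h, map_zero])
      exact nonZeroDivisors.ne_zero b.2 this
    exact mul_left_cancel₀ hb0 hx4
  refine ⟨n, fun j => v j, f, fun j => (v j).2, fun j x hx => ⟨_, hf j x hx⟩, fun x => ?_⟩
  have key : (LinearMap.id : F →ₗ[L] F) = ∑ j, (f j).smulRight ((v j : N) : F) := by
    apply LinearMap.ext_on_range (v := e) (by rw [e.span_eq])
    intro i
    have h1 := congrArg Subtype.val (hg ⟨e i, heN i⟩)
    rw [Submodule.coe_sum] at h1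
    rw [LinearMap.id_apply, LinearMap.sum_apply]
    refine h1.trans (Finset.sum_congr rfl fun j _ => ?_)
    rw [LinearMap.smulRight_apply, hfe, algebraMap_smul]
    rfl
  have := LinearMap.congr_fun key x
  rw [LinearMap.id_apply, LinearMap.sum_apply] at this
  exact this

end aux

variable {k : Type u} [Field k] {D : FExt k}

theorem exists_dual_basis (c : RatFunc k) [IsPrincipalIdealRing (kk k c)]
    [IsFractionRing (kk k c) (RatFunc k)] {F : LSp D} (N : Submodule (kk k c) F.F) (hN : N.FG)
    (hs : Submodule.span (RatFunc k) (N : Set F.F) = ⊤)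
    (hB : ∀ b : D.L, IsIntegral (kk k c) b → ∀ v ∈ N, b • v ∈ N) :
    ∃ (n : ℕ) (v : Fin n → F.F) (f : Fin n → (F.F →ₗ[D.L] D.L)), (∀ j, v j ∈ N) ∧
      (∀ j, ∀ x ∈ N, IsIntegral (kk k c) (f j x)) ∧ ∀ x, x = ∑ j, f j x • v j := by
  have : IsScalarTower (kk k c) (RatFunc k) D.L := inferInstance
  have : IsDedekindDomain (integralClosure (kk k c) D.L) :=
    integralClosure.isDedekindDomain (kk k c) (RatFunc k) D.L
  have : IsFractionRing (integralClosure (kk k c) D.L) D.L :=
    integralClosure.isFractionRing_of_finite_extension (RatFunc k) D.L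
  let N' : Submodule (integralClosure (kk k c) D.L) F.F :=
    { carrier := N
      add_mem' := fun ha hb => N.add_mem ha hb
      zero_mem' := N.zero_mem
      smul_mem' := fun b x hx => hB b.1 b.2 x hx }
  have hmem : ∀ x, x ∈ N' ↔ x ∈ N := fun x => Iff.rfl
  have hN' : N'.FG := by
    obtain ⟨S, hS⟩ := hN
    refine ⟨S, le_antisymm ?_ ?_⟩
    · rw [Submodule.span_le]
      intro x hx
      show x ∈ N
      rw [← hS]
      exact Submodule.subset_span hx
    · intro x hx
      have hx' : x ∈ Submodule.span (kk k c) (S : Set F.F) := by rw [hS]; exact hx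
      refine Submodule.span_induction (p := fun x _ => x ∈ Submodule.span
        (integralClosure (kk k c) D.L) (S : Set F.F)) (fun x hx => Submodule.subset_span hx)
        (Submodule.zero_mem _) (fun x y _ _ hx hy => Submodule.add_mem _ hx hy) ?_ hx'
      intro a x _ hx
      have : a • x = (algebraMap (kk k c) (integralClosure (kk k c) D.L) a) • x := by
        show (a : RatFunc k) • x = (algebraMap (RatFunc k) D.L (a : RatFunc k)) • x
        rw [algebraMap_smul]
      rw [this]
      exact Submodule.smul_mem _ _ hx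
  have hs' : Submodule.span D.L (N' : Set F.F) = ⊤ := by
    rw [eq_top_iff]
    intro x _
    have hx : x ∈ Submodule.span (RatFunc k) (N : Set F.F) := hs ▸ Submodule.mem_top
    refine Submodule.span_induction (p := fun x _ => x ∈ Submodule.span D.L (N' : Set F.F))
      (fun x hx => Submodule.subset_span hx) (Submodule.zero_mem _)
      (fun x y _ _ hx hy => Submodule.add_mem _ hx hy) ?_ hx
    intro a x _ hx
    rw [← algebraMap_smul D.L a x]
    exact Submodule.smul_mem _ _ hx
  obtain ⟨n, v, f, hv, hf, hx⟩ := dualB_main (L := D.L) N' hN' hs'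
  refine ⟨n, v, f, hv, fun j x hx => ?_, hx⟩
  obtain ⟨b, hb⟩ := hf j x hx
  rw [hb]
  exact b.2

end Pool.Agent.MP_6e5bed_ag_NC
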