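import Pool.Agent.Lib.MP_6e5bed_ag_CV.Coh

set_option autoImplicit false
set_option linter.unusedSectionVars false

/-!
# Extension of scalars of coherent algebras (NC CURVES)
-/

namespace Pool.Agent.MP_6e5bed_ag_NC

open RatFunc
open scoped TensorProduct

universe u

variable {k : Type u} [Field k] (K : Type u) [Field K] [Algebra k K]

/-- The extension of scalars `K ⊗ A`. -/
noncomputable def Cosp.ext (A : Cosp k) : Cosp K where
  A0 := K ⊗[k] A.A0
  A1 := K ⊗[k] A.A1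
  A01 := K ⊗[k] A.A01
  r0 := Algebra.TensorProduct.map (AlgHom.id K K) A.r0
  r1 := Algebra.TensorProduct.map (AlgHom.id K K) A.r1

section

variable {A C : Type u} [Ring A] [Algebra k A] [Ring C] [Algebra k C]

private theorem extA_pow (t : A) (n : ℕ) :
    (1 ⊗ₜ[k] t : K ⊗[k] A) ^ n = 1 ⊗ₜ[k] (t ^ n) := by
  rw [Algebra.TensorProduct.tmul_pow, one_pow]

private theorem extA_comm (t : A) (h : ∀ a, t * a = a * t) (x : K ⊗[k] A) :
    (1 ⊗ₜ[k] t : K ⊗[k] A) * x = x * (1 ⊗ₜ[k] t : K ⊗[k] A) := by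
  induction x using TensorProduct.induction_on with
  | zero => rw [mul_zero, zero_mul]
  | add x y hx hy => rw [mul_add, add_mul, hx, hy]
  | tmul x a =>
    rw [Algebra.TensorProduct.tmul_mul_tmul, Algebra.TensorProduct.tmul_mul_tmul, one_mul,
      mul_one, h]

private theorem extA_loc (r : A →ₐ[k] C) (t : A)
    (h : ∀ c, ∃ (n : ℕ) (a : A), r t ^ n * c = r a) (c : K ⊗[k] C) :
    ∃ (n : ℕ) (a : K ⊗[k] A),
      Algebra.TensorProduct.map (AlgHom.id K K) r (1 ⊗ₜ[k] t) ^ n * c =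
        Algebra.TensorProduct.map (AlgHom.id K K) r a := by
  induction c using TensorProduct.induction_on with
  | zero => exact ⟨0, 0, by rw [mul_zero, map_zero]⟩
  | tmul x c =>
    obtain ⟨n, a, ha⟩ := h c
    refine ⟨n, x ⊗ₜ[k] a, ?_⟩
    rw [← map_pow, extA_pow, Algebra.TensorProduct.map_tmul, Algebra.TensorProduct.map_tmul,
      Algebra.TensorProduct.tmul_mul_tmul, map_pow, ha, map_one, one_mul]
    rfl
  | add c₁ c₂ h₁ h₂ =>
    obtain ⟨n₁, a₁, h₁⟩ := h₁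
    obtain ⟨n₂, a₂, h₂⟩ := h₂
    refine ⟨n₁ + n₂, (1 ⊗ₜ[k] t : K ⊗[k] A) ^ n₂ * a₁ + (1 ⊗ₜ[k] t : K ⊗[k] A) ^ n₁ * a₂, ?_⟩
    rw [map_add, map_mul, map_mul, map_pow, map_pow, ← h₁, ← h₂, mul_add, ← mul_assoc,
      ← mul_assoc, ← pow_add, ← pow_add, add_comm n₂ n₁]

private theorem extA_ker (r : A →ₐ[k] C) (t : A)
    (h : ∀ a, r a = 0 → ∃ n : ℕ, t ^ n * a = 0) (a : K ⊗[k] A)
    (ha : Algebra.TensorProduct.map (AlgHom.id K K) r a = 0) :
    ∃ n : ℕ, (1 ⊗ₜ[k] t : K ⊗[k] A) ^ n * a = 0 := by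
  have hx : Function.Exact (LinearMap.ker r.toLinearMap).subtype r.toLinearMap :=
    LinearMap.exact_subtype_ker_map _
  have hx' := Module.Flat.lTensor_exact K hx
  have ha' : LinearMap.lTensor K r.toLinearMap a = 0 := ha
  obtain ⟨b, rfl⟩ := (hx' a).1 ha'
  clear ha ha'
  induction b using TensorProduct.induction_on with
  | zero => exact ⟨0, by rw [map_zero, mul_zero]⟩
  | tmul x c =>
    obtain ⟨n, hn⟩ := h c.1 c.2
    refine ⟨n, ?_⟩
    rw [LinearMap.lTensor_tmul, extA_pow, Algebra.TensorProduct.tmul_mul_tmul,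
      Submodule.subtype_apply, hn, TensorProduct.tmul_zero]
  | add b₁ b₂ h₁ h₂ =>
    obtain ⟨n₁, h₁⟩ := h₁
    obtain ⟨n₂, h₂⟩ := h₂
    refine ⟨n₁ + n₂, ?_⟩
    rw [map_add, mul_add, pow_add, mul_assoc _ _ (LinearMap.lTensor K
      (LinearMap.ker r.toLinearMap).subtype b₂), h₂, mul_zero, add_zero,
      (Commute.pow_pow_self (1 ⊗ₜ[k] t : K ⊗[k] A) n₁ n₂).eq, mul_assoc, h₁, mul_zero]

private theorem extA_fin (t : A) (h : ∃ F : Finset A, ∀ a,
      a ∈ Submodule.span k {x | ∃ y ∈ F, ∃ n : ℕ, x = t ^ n * y}) :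
    ∃ F : Finset (K ⊗[k] A), ∀ a, a ∈ Submodule.span K
      {x : K ⊗[k] A | ∃ y ∈ F, ∃ n : ℕ, x = (1 ⊗ₜ[k] t : K ⊗[k] A) ^ n * y} := by
  classical
  obtain ⟨F, hF⟩ := h
  refine ⟨F.image fun y => (1 ⊗ₜ[k] y : K ⊗[k] A), fun a => ?_⟩
  have h1 : ∀ a : A, (1 ⊗ₜ[k] a : K ⊗[k] A) ∈ Submodule.span K {x : K ⊗[k] A |
      ∃ y ∈ F.image fun y => (1 ⊗ₜ[k] y : K ⊗[k] A), ∃ n : ℕ,
        x = (1 ⊗ₜ[k] t : K ⊗[k] A) ^ n * y} := by
    intro a
    have ha := hF a
    induction ha using Submodule.span_induction with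
    | mem x hx =>
      obtain ⟨y, hy, n, rfl⟩ := hx
      refine Submodule.subset_span ⟨1 ⊗ₜ[k] y, Finset.mem_image_of_mem _ hy, n, ?_⟩
      rw [extA_pow, Algebra.TensorProduct.tmul_mul_tmul, one_mul]
    | zero =>
      rw [TensorProduct.tmul_zero]
      exact Submodule.zero_mem _
    | add x y _ _ hx hy =>
      rw [TensorProduct.tmul_add]
      exact Submodule.add_mem _ hx hy
    | smul c x _ hx =>
      have e : (1 ⊗ₜ[k] (c • x) : K ⊗[k] A) = (algebraMap k K c) • (1 ⊗ₜ[k] x : K ⊗[k] A) := by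
        rw [TensorProduct.smul_tmul', smul_eq_mul, mul_one, TensorProduct.tmul_smul,
          TensorProduct.smul_tmul', Algebra.smul_def, mul_one]
      rw [e]
      exact Submodule.smul_mem _ _ hx
  induction a using TensorProduct.induction_on with
  | zero => exact Submodule.zero_mem _
  | add x y hx hy => exact Submodule.add_mem _ hx hy
  | tmul x a =>
    have e : (x ⊗ₜ[k] a : K ⊗[k] A) = x • (1 ⊗ₜ[k] a : K ⊗[k] A) := by
      rw [TensorProduct.smul_tmul', smul_eq_mul, mul_one]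
    rw [e]
    exact Submodule.smul_mem _ _ (h1 a)

end

theorem IsCoh.ext {A : Cosp k} {t : A.A0} {s : A.A1} (h : IsCoh A t s) :
    IsCoh (A.ext K) (1 ⊗ₜ[k] t : K ⊗[k] A.A0) (1 ⊗ₜ[k] s : K ⊗[k] A.A1) where
  t_comm := extA_comm K t h.t_comm
  s_comm := extA_comm K s h.s_comm
  ts := by
    change Algebra.TensorProduct.map (AlgHom.id K K) A.r0 (1 ⊗ₜ[k] t) *
      Algebra.TensorProduct.map (AlgHom.id K K) A.r1 (1 ⊗ₜ[k] s) = 1
    rw [Algebra.TensorProduct.map_tmul, Algebra.TensorProduct.map_tmul,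
      Algebra.TensorProduct.tmul_mul_tmul, h.ts, map_one, one_mul]
    rfl
  st := by
    change Algebra.TensorProduct.map (AlgHom.id K K) A.r1 (1 ⊗ₜ[k] s) *
      Algebra.TensorProduct.map (AlgHom.id K K) A.r0 (1 ⊗ₜ[k] t) = 1
    rw [Algebra.TensorProduct.map_tmul, Algebra.TensorProduct.map_tmul,
      Algebra.TensorProduct.tmul_mul_tmul, h.st, map_one, one_mul]
    rfl
  loc0 := extA_loc K A.r0 t h.loc0
  loc1 := extA_loc K A.r1 s h.loc1
  ker0 := extA_ker K A.r0 t h.ker0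
  ker1 := extA_ker K A.r1 s h.ker1
  fin0 := extA_fin K t h.fin0
  fin1 := extA_fin K s h.fin1

end Pool.Agent.MP_6e5bed_ag_NC
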