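import Pool.Agent.Lib.MP_6e5bed_ag_CV.ExtA
import Pool.Agent.Lib.MP_6e5bed_ag_BC.BCFinal
import Pool.Agent.Lib.MP_6e5bed_ag_NC.FieldIff

set_option autoImplicit false
set_option linter.unusedSectionVars false

/-!
# Kimura-finiteness and extension of scalars of coherent algebras (NC CURVES)
-/

namespace Pool.Agent.MP_6e5bed_ag_NC

open RatFunc
open scoped TensorProduct

universe u

open Pool.Agent.MP_6e5bed_ag

variable {k : Type u} [Field k] (K : Type u) [Field K] [Algebra k K]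

section lift

variable {K} {V P : Type u} [AddCommGroup V] [Module k V] [AddCommGroup P] [Module K P]

private noncomputable def extB_lift (g : V →+ P)
    (hg : ∀ (r : k) (v : V), g (r • v) = algebraMap k K r • g v) : K ⊗[k] V →ₗ[K] P :=
  letI : Module k P := Module.compHom P (algebraMap k K)
  haveI : IsScalarTower k K P := ⟨fun r s p => by
    rw [Algebra.smul_def, mul_smul]
    rfl⟩
  LinearMap.liftBaseChange K ({ g with map_smul' := hg } : V →ₗ[k] P)

private theorem extB_lift_tmul (g : V →+ P)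
    (hg : ∀ (r : k) (v : V), g (r • v) = algebraMap k K r • g v) (v : V) :
    extB_lift g hg ((1 : K) ⊗ₜ[k] v) = g v := by
  let _ : Module k P := Module.compHom P (algebraMap k K)
  have _ : IsScalarTower k K P := ⟨fun r s p => by
    rw [Algebra.smul_def, mul_smul]
    rfl⟩
  change LinearMap.liftBaseChange K ({ g with map_smul' := hg } : V →ₗ[k] P)
    (1 ⊗ₜ v) = g v
  rw [LinearMap.liftBaseChange_tmul, one_smul]
  rfl

private theorem extB_ext {φ ψ : K ⊗[k] V →ₗ[K] P}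
    (h : ∀ v, φ ((1 : K) ⊗ₜ[k] v) = ψ ((1 : K) ⊗ₜ[k] v)) : φ = ψ := by
  refine LinearMap.ext (fun x => ?_)
  induction x using TensorProduct.induction_on with
  | zero => rw [map_zero, map_zero]
  | add x y hx hy => rw [map_add, map_add, hx, hy]
  | tmul s v =>
    have h1 : s ⊗ₜ[k] v = s • ((1 : K) ⊗ₜ[k] v) := by
      rw [TensorProduct.smul_tmul', smul_eq_mul, mul_one]
    rw [h1, map_smul, map_smul, h]

end lift

/-- `C(A) ⊗ K → C(A ⊗ K)` on `C(A)`. -/
private noncomputable def extB_g (A : Cosp k) : A.cech.A →+ (A.ext K).cech.A where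
  toFun := fun x => ((((1 : K) ⊗ₜ[k] x.1.1 : K ⊗[k] A.A0), ((1 : K) ⊗ₜ[k] x.1.2 : K ⊗[k] A.A1)),
    ((1 : K) ⊗ₜ[k] x.2 : K ⊗[k] A.A01))
  map_zero' := by
    change (((1 : K) ⊗ₜ[k] (0 : A.A0), (1 : K) ⊗ₜ[k] (0 : A.A1)), (1 : K) ⊗ₜ[k] (0 : A.A01)) = 0
    rw [TensorProduct.tmul_zero, TensorProduct.tmul_zero, TensorProduct.tmul_zero]
    rfl
  map_add' := fun x y => by
    change (((1 : K) ⊗ₜ[k] (x.1.1 + y.1.1 : A.A0), (1 : K) ⊗ₜ[k] (x.1.2 + y.1.2 : A.A1)),
      (1 : K) ⊗ₜ[k] (x.2 + y.2 : A.A01)) = _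
    rw [TensorProduct.tmul_add, TensorProduct.tmul_add, TensorProduct.tmul_add]
    rfl

private theorem extB_g_apply (A : Cosp k) (x : (A.A0 × A.A1) × A.A01) : extB_g K A x =
    (((((1 : K) ⊗ₜ[k] x.1.1 : K ⊗[k] A.A0), ((1 : K) ⊗ₜ[k] x.1.2 : K ⊗[k] A.A1)),
    ((1 : K) ⊗ₜ[k] x.2 : K ⊗[k] A.A01)) :
      (K ⊗[k] A.A0 × K ⊗[k] A.A1) × K ⊗[k] A.A01) := rfl

private theorem extB_smul (A : Type u) [AddCommGroup A] [Module k A] (r : k) (a : A) :
    ((1 : K) ⊗ₜ[k] (r • a) : K ⊗[k] A) = algebraMap k K r • ((1 : K) ⊗ₜ[k] a) := by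
  rw [TensorProduct.tmul_smul, algebraMap_smul]

private theorem extB_g_smul (A : Cosp k) (r : k) (x : A.cech.A) :
    extB_g K A (r • x) = algebraMap k K r • extB_g K A x := by
  obtain ⟨⟨a, b⟩, c⟩ := x
  refine Prod.ext (Prod.ext ?_ ?_) ?_
  · exact extB_smul K A.A0 r a
  · exact extB_smul K A.A1 r b
  · exact extB_smul K A.A01 r c

private theorem extB_g_deg (A : Cosp k) {i : ℤ} {x : A.cech.A} (hx : A.cech.dg.IsDeg i x) :
    (A.ext K).cech.dg.IsDeg i (extB_g K A x) := by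
  obtain ⟨⟨a, b⟩, c⟩ := x
  rcases Dg.two_isDeg A.δ hx with ⟨rfl, hc⟩ | ⟨rfl, hv⟩ | ⟨hv, hc⟩
  · refine Dg.two_deg0' (A.ext K).δ ?_
    subst hc
    exact TensorProduct.tmul_zero _ _
  · refine Dg.two_deg1' (A.ext K).δ ?_
    have ha : a = 0 := congrArg Prod.fst hv
    have hb : b = 0 := congrArg Prod.snd hv
    subst ha
    subst hb
    exact Prod.ext (TensorProduct.tmul_zero _ _) (TensorProduct.tmul_zero _ _)
  · have ha : a = 0 := congrArg Prod.fst hv
    have hb : b = 0 := congrArg Prod.snd hv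
    subst ha
    subst hb
    subst hc
    have h : extB_g K A (0 : A.cech.A) = 0 := map_zero _
    refine (congrArg (fun z => (A.ext K).cech.dg.IsDeg i z) h).mpr ?_
    exact Dg.IsDeg.zero _

private theorem extB_g_d (A : Cosp k) (x : A.cech.A) :
    (A.ext K).cech.dg.d (extB_g K A x) = extB_g K A (A.cech.dg.d x) := by
  obtain ⟨⟨a, b⟩, c⟩ := x
  refine Prod.ext (Prod.ext ?_ ?_) ?_
  · exact (TensorProduct.tmul_zero _ _).symm
  · exact (TensorProduct.tmul_zero _ _).symm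
  · change (Algebra.TensorProduct.map (AlgHom.id K K) A.r1) ((1 : K) ⊗ₜ[k] b) -
      (Algebra.TensorProduct.map (AlgHom.id K K) A.r0) ((1 : K) ⊗ₜ[k] a) =
        (1 : K) ⊗ₜ[k] (A.r1 b - A.r0 a)
    rw [Algebra.TensorProduct.map_tmul, Algebra.TensorProduct.map_tmul, TensorProduct.tmul_sub]
    rfl

private theorem extB_g_mul (A : Cosp k) (x y : A.cech.A) :
    extB_g K A (A.cech.mul x y) = (A.ext K).cech.mul (extB_g K A x) (extB_g K A y) := by
  obtain ⟨⟨a, b⟩, c⟩ := x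
  obtain ⟨⟨a', b'⟩, c'⟩ := y
  refine Prod.ext (Prod.ext ?_ ?_) ?_
  · change (1 : K) ⊗ₜ[k] (a * a') = ((1 : K) ⊗ₜ[k] a) * ((1 : K) ⊗ₜ[k] a')
    rw [Algebra.TensorProduct.tmul_mul_tmul, one_mul]
  · change (1 : K) ⊗ₜ[k] (b * b') = ((1 : K) ⊗ₜ[k] b) * ((1 : K) ⊗ₜ[k] b')
    rw [Algebra.TensorProduct.tmul_mul_tmul, one_mul]
  · change (1 : K) ⊗ₜ[k] (A.r0 a * c' + c * A.r1 b') =
      (Algebra.TensorProduct.map (AlgHom.id K K) A.r0) ((1 : K) ⊗ₜ[k] a) * ((1 : K) ⊗ₜ[k] c') +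
        ((1 : K) ⊗ₜ[k] c) * (Algebra.TensorProduct.map (AlgHom.id K K) A.r1) ((1 : K) ⊗ₜ[k] b')
    rw [Algebra.TensorProduct.map_tmul, Algebra.TensorProduct.map_tmul,
      Algebra.TensorProduct.tmul_mul_tmul, Algebra.TensorProduct.tmul_mul_tmul,
      TensorProduct.tmul_add]
    simp

private theorem extB_g_one (A : Cosp k) : extB_g K A A.cech.one = (A.ext K).cech.one := by
  refine Prod.ext (Prod.ext ?_ ?_) ?_
  · rfl
  · rfl
  · exact TensorProduct.tmul_zero _ _

/-- The components of the inverse map. -/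
private noncomputable def extB_j (A : Cosp k) {V : Type u} [AddCommGroup V] [Module k V]
    (φ : V →ₗ[k] (A.A0 × A.A1) × A.A01) : K ⊗[k] V →ₗ[K] (A.cech.bc K).A :=
  extB_lift ((A.cech.ι K).comp φ.toAddMonoidHom) (fun r v => by
    change A.cech.ι K (φ (r • v)) = algebraMap k K r • A.cech.ι K (φ v)
    rw [map_smul]
    exact DGA.ι_smul (A := A.cech) r (φ v))

private theorem extB_j_tmul (A : Cosp k) {V : Type u} [AddCommGroup V] [Module k V]
    (φ : V →ₗ[k] (A.A0 × A.A1) × A.A01) (v : V) :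
    extB_j K A φ ((1 : K) ⊗ₜ[k] v) = A.cech.ι K (φ v) := extB_lift_tmul _ _ _

/-- The inverse map. -/
private noncomputable def extB_h (A : Cosp k) :
    (K ⊗[k] A.A0 × K ⊗[k] A.A1) × K ⊗[k] A.A01 →ₗ[K] (A.cech.bc K).A :=
  LinearMap.coprod (LinearMap.coprod
    (extB_j K A ((LinearMap.inl k (A.A0 × A.A1) A.A01).comp (LinearMap.inl k A.A0 A.A1)))
    (extB_j K A ((LinearMap.inl k (A.A0 × A.A1) A.A01).comp (LinearMap.inr k A.A0 A.A1))))
    (extB_j K A (LinearMap.inr k (A.A0 × A.A1) A.A01))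

private theorem extB_h_apply (A : Cosp k) (x : K ⊗[k] A.A0) (y : K ⊗[k] A.A1)
    (z : K ⊗[k] A.A01) : extB_h K A ((x, y), z) =
    extB_j K A ((LinearMap.inl k (A.A0 × A.A1) A.A01).comp (LinearMap.inl k A.A0 A.A1)) x +
    extB_j K A ((LinearMap.inl k (A.A0 × A.A1) A.A01).comp (LinearMap.inr k A.A0 A.A1)) y +
    extB_j K A (LinearMap.inr k (A.A0 × A.A1) A.A01) z := rfl

private noncomputable def extB_f (A : Cosp k) :
    (A.cech.bc K).A →ₗ[K] (K ⊗[k] A.A0 × K ⊗[k] A.A1) × K ⊗[k] A.A01 :=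
  DGA.lift (A := A.cech) (extB_g K A) (extB_g_smul K A)

private theorem extB_f_ι (A : Cosp k) (x : A.cech.A) :
    extB_f K A (A.cech.ι K x) = extB_g K A x :=
  DGA.lift_ι (A := A.cech) (extB_g K A) (extB_g_smul K A) x

private theorem extB_hf (A : Cosp k) (x : (A.cech.bc K).A) : extB_h K A (extB_f K A x) = x := by
  have h : (extB_h K A).comp (extB_f K A) = LinearMap.id := DGA.ι_ext (A := A.cech) (fun y => by
    rw [LinearMap.comp_apply, extB_f_ι, LinearMap.id_apply]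
    obtain ⟨⟨a, b⟩, c⟩ := y
    refine (extB_h_apply K A _ _ _).trans ?_
    rw [extB_j_tmul, extB_j_tmul, extB_j_tmul]
    refine (congrArg₂ (· + ·) (map_add (A.cech.ι K) _ _).symm rfl).trans
      ((map_add (A.cech.ι K) _ _).symm.trans (congrArg (A.cech.ι K) ?_))
    refine Prod.ext (Prod.ext ?_ ?_) ?_
    · change a + 0 + 0 = a
      rw [add_zero, add_zero]
    · change 0 + b + 0 = b
      rw [add_zero, zero_add]
    · change 0 + 0 + c = c
      rw [add_zero, zero_add])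
  exact LinearMap.congr_fun h x

private theorem extB_fh (A : Cosp k) (x : (K ⊗[k] A.A0 × K ⊗[k] A.A1) × K ⊗[k] A.A01) :
    extB_f K A (extB_h K A x) = x := by
  have h : (extB_f K A).comp (extB_h K A) = LinearMap.id := by
    refine LinearMap.prod_ext (LinearMap.prod_ext ?_ ?_) ?_
    · refine extB_ext (fun v => ?_)
      change extB_f K A (extB_h K A ((1 ⊗ₜ v, 0), 0)) = ((1 ⊗ₜ v, 0), 0)
      rw [extB_h_apply, map_zero, map_zero, add_zero, add_zero, extB_j_tmul]
      refine (extB_f_ι K A _).trans ?_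
      exact Prod.ext (Prod.ext rfl (TensorProduct.tmul_zero _ _)) (TensorProduct.tmul_zero _ _)
    · refine extB_ext (fun v => ?_)
      change extB_f K A (extB_h K A ((0, 1 ⊗ₜ v), 0)) = ((0, 1 ⊗ₜ v), 0)
      rw [extB_h_apply, map_zero, map_zero, add_zero, zero_add, extB_j_tmul]
      refine (extB_f_ι K A _).trans ?_
      exact Prod.ext (Prod.ext (TensorProduct.tmul_zero _ _) rfl) (TensorProduct.tmul_zero _ _)
    · refine extB_ext (fun v => ?_)
      change extB_f K A (extB_h K A ((0, 0), 1 ⊗ₜ v)) = ((0, 0), 1 ⊗ₜ v)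
      rw [extB_h_apply, map_zero, map_zero, add_zero, zero_add, extB_j_tmul]
      refine (extB_f_ι K A _).trans ?_
      exact Prod.ext (Prod.ext (TensorProduct.tmul_zero _ _) (TensorProduct.tmul_zero _ _)) rfl
  exact LinearMap.congr_fun h x

/-- `C(A) ⊗ K = C(A ⊗ K)`. -/
private noncomputable def extB_iso (A : Cosp k) : DIso (A.cech.bc K) (A.ext K).cech :=
  DIso.mk'
    (DHom.ofBc (X := (A.ext K).cech) (extB_f K A)
      (fun {i x} hx => by
        have h := extB_g_deg K A hx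
        rw [← extB_f_ι] at h
        exact h)
      (fun x => by
        have h := extB_g_d K A x
        rw [← extB_f_ι, ← extB_f_ι] at h
        exact h)
      ((extB_f_ι K A _).trans (extB_g_one K A))
      (fun x y => by
        have h := extB_g_mul K A x y
        rw [← extB_f_ι, ← extB_f_ι, ← extB_f_ι] at h
        exact h))
    (extB_h K A) (extB_hf K A) (extB_fh K A)

/-- `C(A) ⊗ K = C(A ⊗ K)`: use the base change of dg algebras in the BC library (`SP.bc`,
`kimuraFinite_bc_iff`), an isomorphism of dg algebras and `mkIso`. -/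
theorem kf_ext (A : Cosp k) (hs : Smooth A.cech) (hp : Proper A.cech) :
    ∃ (hs' : Smooth (A.ext K).cech) (hp' : Proper (A.ext K).cech),
      KimuraFinite (U (⟨(A.ext K).cech, hs', hp'⟩ : SP K)) ↔
        KimuraFinite (U (⟨A.cech, hs, hp⟩ : SP k)) := by
  have hs' : Smooth (A.ext K).cech := (hs.bc K).of_iso (extB_iso K A).symm
  have hp' : Proper (A.ext K).cech := (hp.bc K).of_iso (extB_iso K A).symm
  refine ⟨hs', hp', ?_⟩
  rw [← kimuraFinite_bc_iff (K := K) (⟨A.cech, hs, hp⟩ : SP k)]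
  have e : (⟨A.cech, hs, hp⟩ : SP k).bc K ≅ (⟨(A.ext K).cech, hs', hp'⟩ : SP K) :=
    mkIso (extB_iso K A)
  have e' := (CategoryTheory.Idempotents.toKaroubi (SP K)).mapIso e
  exact ⟨fun h => h.of_iso e'.symm, fun h => h.of_iso e'⟩

end Pool.Agent.MP_6e5bed_ag_NC
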