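import Pool.Agent.Lib.MP_6e5bed_ag.SOp
import Pool.Agent.Lib.MP_6e5bed_ag.Core

set_option autoImplicit false

/-!
# Kimura-finiteness from a decomposition of the identity (NC CURVES, row 11)

If `𝟙 M = ∑ f_i ≫ g_i` with `f_i : M ⟶ X_i`, `e_i` the parity idempotents of `X_i`, then
`a = ∑ f_i e_i g_i` is killed by an alternating sum, `b = 1 - a` by a symmetric sum, so
`a - a ^ 2 = a b` is tensor-nilpotent; take an idempotent congruent to `a` (`exists_idempotent`,
`kill_of_congr`).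
-/

namespace Pool.Agent.MP_6e5bed_ag

open CategoryTheory MonoidalCategory Equiv

universe v u

section KFin

variable {C : Type u} [Category.{v} C] [MonoidalCategory C] [SymmetricCategory C]
    [Preadditive C] [MonoidalPreadditive C] [Linear ℚ C]

theorem altSum_kill_sum {M : C} {n : ℕ} (a : Fin n → (M ⟶ M))
    (h : ∀ i, ∃ r, altSum M r ≫ tmap (a i) r = 0) :
    ∃ r, altSum M r ≫ tmap (∑ i, a i) r = 0 := by
  induction n with
  | zero =>
    refine ⟨1, ?_⟩
    have h1 : tmap (0 : M ⟶ M) 1 = 0 := MonoidalPreadditive.zero_tensor _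
    rw [Finset.univ_eq_empty, Finset.sum_empty, h1, Limits.comp_zero]
  | succ n ih =>
    rw [Fin.sum_univ_succ]
    exact altSum_kill_add (h 0) (ih _ fun i => h i.succ)

theorem symSum_kill_sum {M : C} {n : ℕ} (a : Fin n → (M ⟶ M))
    (h : ∀ i, ∃ r, symSum M r ≫ tmap (a i) r = 0) :
    ∃ r, symSum M r ≫ tmap (∑ i, a i) r = 0 := by
  induction n with
  | zero =>
    refine ⟨1, ?_⟩
    have h1 : tmap (0 : M ⟶ M) 1 = 0 := MonoidalPreadditive.zero_tensor _
    rw [Finset.univ_eq_empty, Finset.sum_empty, h1, Limits.comp_zero]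
  | succ n ih =>
    rw [Fin.sum_univ_succ]
    exact symSum_kill_add (h 0) (ih _ fun i => h i.succ)

/-- Kimura-finiteness from an operator (not necessarily idempotent) -/
theorem opKF_of_kill {M M' : C} [ExactPairing M' M] {a : M ⟶ M}
    (ha : ∃ r, altSum M r ≫ tmap a r = 0) (hb : ∃ r, symSum M r ≫ tmap (𝟙 M - a) r = 0) :
    OpKF M := by
  obtain ⟨r, hr⟩ := ha
  obtain ⟨s, hs⟩ := hb
  have h1 := tNil_comp_alt_sym hr hs (𝟙 M)
  rw [Category.id_comp, Preadditive.comp_sub, Category.comp_id] at h1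
  have h2 : TNil (a ≫ a - a) := by
    have := h1.neg
    rwa [neg_sub] at this
  obtain ⟨g, hg, hga⟩ := exists_idempotent (M' := M') h2
  have hg' : (𝟙 M - g) ≫ (𝟙 M - g) = 𝟙 M - g := by
    simp only [Preadditive.sub_comp, Preadditive.comp_sub, Category.id_comp, Category.comp_id, hg]
    abel
  have h3 : TNil ((𝟙 M - g) - (𝟙 M - a)) := by
    have := hga.neg
    rwa [show -(g - a) = (𝟙 M - g) - (𝟙 M - a) by abel] at this
  exact ⟨g, hg, ⟨r, kill_of_congr (X' := M') hg hga (fun x => altSum_nat x r) hr⟩, s,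
    kill_of_congr (X' := M') hg' h3 (fun x => symSum_nat x s) hs⟩

theorem opKF_of_sum {M M' : C} [ExactPairing M' M]
    {n : ℕ} (X : Fin n → C) (hX : ∀ i, OpKF (X i)) (f : ∀ i, M ⟶ X i) (g : ∀ i, X i ⟶ M)
    (h : 𝟙 M = ∑ i, f i ≫ g i) : OpKF M := by
  choose e he hA hS using hX
  refine opKF_of_kill (M' := M') (a := ∑ i, f i ≫ e i ≫ g i) ?_ ?_
  · refine altSum_kill_sum _ fun i => ?_
    obtain ⟨r, hr⟩ := hA i
    exact ⟨r, tmap_sandwich _ _ _ (altSum_nat _ _) hr⟩
  · have h1 : 𝟙 M - ∑ i, f i ≫ e i ≫ g i = ∑ i, f i ≫ (𝟙 (X i) - e i) ≫ g i := by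
      rw [h, ← Finset.sum_sub_distrib]
      refine Finset.sum_congr rfl fun i _ => ?_
      rw [Preadditive.sub_comp, Preadditive.comp_sub, Category.id_comp]
    rw [h1]
    refine symSum_kill_sum _ fun i => ?_
    obtain ⟨s, hs⟩ := hS i
    exact ⟨s, tmap_sandwich _ _ _ (symSum_nat _ _) hs⟩

end KFin

end Pool.Agent.MP_6e5bed_ag
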