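import Pool.Agent.Lib.MP_6e5bed_ag_CV.DevC
import Pool.Agent.Lib.MP_6e5bed_ag_CV.SmoothW
import Pool.Agent.Lib.MP_6e5bed_ag_CV.KFin
import Pool.Agent.Lib.MP_6e5bed_ag_CV.ExtB
import Pool.Agent.Lib.MP_6e5bed_ag_NC.NFinal

set_option autoImplicit false
set_option linter.unusedSectionVars false

/-!
# Noncommutative projective curves: the identity factors through curves, Kimura-finiteness
-/

namespace Pool.Agent.MP_6e5bed_ag_NC

open CategoryTheory MonoidalCategory Idempotents Pool.Agent.MP_6e5bed_ag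
open scoped TensorProduct

universe u

variable {k : Type u} [Field k]

theorem proper_curve (W : DGA k) (hW : IsCurve W) : Proper W := by
  obtain ⟨D, F, V, _, rfl⟩ := hW
  exact proper_end V.plus

/-- Theorem A. -/
theorem thmA [IsAlgClosed k] {A : Cosp k} {t : A.A0} {s : A.A1} (h : IsCoh A t s) (T : SP k)
    (hT : T.alg = A.cech) : ∃ (n : ℕ) (X : Fin n → SP k),
      (∀ i, (X i).alg = base k ∨ IsCurve (X i).alg) ∧ ∃ (f : ∀ i, T ⟶ X i) (g : ∀ i, X i ⟶ T),
        𝟙 T = ∑ i, f i ≫ g i := by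
  obtain ⟨T, hs, hp⟩ := T
  obtain rfl : T = A.cech := hT
  refine JS.exists_sum (Good := fun X => X = base k ∨ IsCurve X) ?_ ⟨A.cech, hs, hp⟩ ?_
  · rintro X (rfl | hX)
    · exact smooth_base
    · exact smooth_curve X hX
  · exact one_mem (Or.inl rfl) (fun W hW => ⟨smooth_curve W hW, Or.inr hW⟩) h hs

theorem kf_base (X : SP k) (h : X.alg = base k) : KimuraFinite (U X) := by
  obtain ⟨X, hs, hp⟩ := X
  obtain rfl : X = base k := h
  rw [kimuraFinite_U_iff]
  exact opKF_unit (C := SP k)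

theorem kf_of_sum (T : SP k) {n : ℕ} (X : Fin n → SP k) (f : ∀ i, T ⟶ X i)
    (g : ∀ i, X i ⟶ T) (h : 𝟙 T = ∑ i, f i ≫ g i) (hX : ∀ i, KimuraFinite (U (X i))) :
    KimuraFinite (U T) := by
  obtain ⟨M', ⟨hM⟩⟩ := U_dual T
  refine kimuraFinite_of_opKF (opKF_of_sum (M' := M') (fun i => U (X i))
    (fun i => opKF_of_kimuraFinite (hX i)) (fun i => (toKaroubi (SP k)).map (f i))
    (fun i => (toKaroubi (SP k)).map (g i)) ?_)
  rw [← (toKaroubi (SP k)).map_id, h, Functor.map_sum]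
  refine Finset.sum_congr rfl fun i _ => ?_
  rw [Functor.map_comp]

/-- Theorem B over an algebraically closed field. -/
theorem thmB_closed [IsAlgClosed k] {A : Cosp k} {t : A.A0} {s : A.A1} (h : IsCoh A t s)
    (T : SP k) (hT : T.alg = A.cech)
    (hC : ∀ W : SP k, IsCurve W.alg → KimuraFinite (U W)) : KimuraFinite (U T) := by
  obtain ⟨n, X, hX, f, g, hfg⟩ := thmA h T hT
  refine kf_of_sum T X f g hfg fun i => ?_
  rcases hX i with h0 | h0
  · exact kf_base _ h0
  · exact hC _ h0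

/-- Theorem B. -/
theorem thmB {A : Cosp k} {t : A.A0} {s : A.A1} (h : IsCoh A t s) (T : SP k)
    (hT : T.alg = A.cech) (K : Type u) [Field K] [Algebra k K] [IsAlgClosed K]
    (hC : ∀ W : SP K, IsCurve W.alg → KimuraFinite (U W)) : KimuraFinite (U T) := by
  obtain ⟨T, hs, hp⟩ := T
  obtain rfl : T = A.cech := hT
  obtain ⟨hs', hp', hiff⟩ := kf_ext K A hs hp
  exact hiff.1 (thmB_closed (h.ext K) _ rfl hC)

/-- Theorem C: in the split case the identity factors through `k`. -/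
theorem thmC_closed [IsAlgClosed k] {A : Cosp k} {t : A.A0} {s : A.A1} (h : IsCoh A t s)
    (hsp : SplitCoh A t) (T : SP k) (hT : T.alg = A.cech) :
    ∃ (n : ℕ) (X : Fin n → SP k), (∀ i, (X i).alg = base k) ∧
      ∃ (f : ∀ i, T ⟶ X i) (g : ∀ i, X i ⟶ T), 𝟙 T = ∑ i, f i ≫ g i := by
  obtain ⟨T, hs, hp⟩ := T
  obtain rfl : T = A.cech := hT
  refine JS.exists_sum (Good := fun X => X = base k) ?_ ⟨A.cech, hs, hp⟩ ?_
  · rintro X rfl
    exact smooth_base
  · exact one_mem_split h hs hsp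

/-- Theorem C: in the split case the motive is Kimura-finite. -/
theorem thmC {A : Cosp k} {t : A.A0} {s : A.A1} (h : IsCoh A t s) (T : SP k)
    (hT : T.alg = A.cech) (K : Type u) [Field K] [Algebra k K] [IsAlgClosed K]
    (hsp : SplitCoh (A.ext K) (1 ⊗ₜ[k] t : K ⊗[k] A.A0)) : KimuraFinite (U T) := by
  obtain ⟨T, hs, hp⟩ := T
  obtain rfl : T = A.cech := hT
  obtain ⟨hs', hp', hiff⟩ := kf_ext K A hs hp
  obtain ⟨n, X, hX, f, g, hfg⟩ := thmC_closed (h.ext K) hsp ⟨(A.ext K).cech, hs', hp'⟩ rfl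
  exact hiff.1 (kf_of_sum _ X f g hfg fun i => kf_base _ (hX i))

end Pool.Agent.MP_6e5bed_ag_NC
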