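import Pool.Agent.Lib.MP_6e5bed_ag_CV.FinalA
import Pool.Agent.Lib.MP_6e5bed_ag_SP.Final

set_option autoImplicit false
set_option linter.unusedSectionVars false

/-!
# Noncommutative projective curves in all models of the category of noncommutative motives
-/

namespace Pool.Agent.MP_6e5bed_ag_SP

open CategoryTheory MonoidalCategory Pool.Agent.MP_6e5bed_ag Pool.Agent.MP_6e5bed_ag_NC
open scoped TensorProduct

universe u

variable {k : Type u} [Field k]

/-- The smooth and proper dg algebra of `SP k` given by `SmPr`. -/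
noncomputable def spOf (W : DGA k) (h : SmPr (DG.of W)) : SP k :=
  ⟨W, h.smooth (repOf W), h.proper (repOf W)⟩

theorem smPr_curve [IsAlgClosed k] (W : DGA k) (hW : IsCurve W) : SmPr (DG.of W) :=
  SmPr.of (repOf W) (smooth_curve W hW) (proper_curve W hW)

theorem finalA [IsAlgClosed k] {A : Cosp k} {t : A.A0} {s : A.A1} (h : IsCoh A t s)
    (hT : SmPr (DG.of A.cech)) {C : Type (u + 1)} [Category.{u + 1} C] [MonoidalCategory C]
    [SymmetricCategory C] [Preadditive C] [MonoidalPreadditive C] [Linear ℚ C] (H : NCMot k C) :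
    ∃ (n : ℕ) (X : Fin n → DGA k) (hX : ∀ i, SmPr (DG.of (X i))),
      (∀ i, X i = base k ∨ IsCurve (X i)) ∧
      ∃ (f : ∀ i, H.U _ hT ⟶ H.U _ (hX i)) (g : ∀ i, H.U _ (hX i) ⟶ H.U _ hT),
        𝟙 (H.U _ hT) = ∑ i, f i ≫ g i := by
  obtain ⟨n, X, hX, f, g, hfg⟩ := thmA h (spOf A.cech hT) rfl
  refine ⟨n, fun i => (X i).alg, fun i => smPr_of (X i), hX, fun i => H.F.map (f i),
    fun i => H.F.map (g i), ?_⟩
  have h1 : H.F.map (𝟙 (spOf A.cech hT)) = ∑ i, H.F.map (f i) ≫ H.F.map (g i) := by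
    rw [hfg, Functor.map_sum]
    refine Finset.sum_congr rfl fun i _ => ?_
    rw [Functor.map_comp]
  rw [H.F.map_id] at h1
  exact h1

theorem finalB {A : Cosp k} {t : A.A0} {s : A.A1} (h : IsCoh A t s)
    (hT : SmPr (DG.of A.cech)) {C : Type (u + 1)} [Category.{u + 1} C] [MonoidalCategory C]
    [SymmetricCategory C] [Preadditive C] [MonoidalPreadditive C] [Linear ℚ C] (H : NCMot k C)
    (K : Type u) [Field K] [Algebra k K] [IsAlgClosed K]
    {C' : Type (u + 1)} [Category.{u + 1} C'] [MonoidalCategory C'] [SymmetricCategory C']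
    [Preadditive C'] [MonoidalPreadditive C'] [Linear ℚ C'] (H' : NCMot K C')
    (hC : ∀ (W : DGA K) (_ : IsCurve W) (hW : SmPr (DG.of W)), KimuraFinite (H'.U _ hW)) :
    KimuraFinite (H.U _ hT) := by
  rw [H.kimuraFinite_iff hT (spOf A.cech hT) (repOf _)]
  refine thmB h _ rfl K fun W hW => ?_
  rw [← H'.kimuraFinite_iff (smPr_of W) W (repOf _)]
  exact hC W.alg hW _

theorem exists_unitIso {C : Type (u + 1)} [Category.{u + 1} C] [MonoidalCategory C]
    [SymmetricCategory C] [Preadditive C] [MonoidalPreadditive C] [Linear ℚ C] (H : NCMot k C)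
    (X : DGA k) (hX : X = base k) (h : SmPr (DG.of X)) : Nonempty (𝟙_ C ≅ H.U _ h) := by
  subst hX
  have h1 : ∀ c : k, algebraMap k (RA (base k)) c = (c : (base k).A) := fun c => by
    rw [Algebra.algebraMap_eq_smul_one]
    exact base_smul c
  exact ⟨H.unit h ⟨fun a b hab => (h1 a).symm.trans (hab.trans (h1 b)), fun b => ⟨b, h1 b⟩⟩⟩

theorem finalC [IsAlgClosed k] {A : Cosp k} {t : A.A0} {s : A.A1} (h : IsCoh A t s)
    (hsp : SplitCoh A t) (hT : SmPr (DG.of A.cech)) {C : Type (u + 1)} [Category.{u + 1} C]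
    [MonoidalCategory C] [SymmetricCategory C] [Preadditive C] [MonoidalPreadditive C]
    [Linear ℚ C] (H : NCMot k C) :
    ∃ (n : ℕ) (f : Fin n → (H.U _ hT ⟶ 𝟙_ C)) (g : Fin n → (𝟙_ C ⟶ H.U _ hT)),
      𝟙 (H.U _ hT) = ∑ i, f i ≫ g i := by
  obtain ⟨n, X, hX, f, g, hfg⟩ := thmC_closed h hsp (spOf A.cech hT) rfl
  have h1 : H.F.map (𝟙 (spOf A.cech hT)) = ∑ i, H.F.map (f i) ≫ H.F.map (g i) := by
    rw [hfg, Functor.map_sum]
    refine Finset.sum_congr rfl fun i _ => ?_
    rw [Functor.map_comp]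
  rw [H.F.map_id] at h1
  have e : ∀ i, Nonempty (𝟙_ C ≅ H.F.obj (X i)) := fun i => exists_unitIso H _ (hX i) _
  refine ⟨n, fun i => H.F.map (f i) ≫ (e i).some.inv, fun i => (e i).some.hom ≫ H.F.map (g i),
    ?_⟩
  refine h1.trans (Finset.sum_congr rfl fun i _ => ?_)
  simp only [Category.assoc, Iso.inv_hom_id_assoc]
  rfl

theorem finalC' {A : Cosp k} {t : A.A0} {s : A.A1} (h : IsCoh A t s)
    (hT : SmPr (DG.of A.cech)) {C : Type (u + 1)} [Category.{u + 1} C] [MonoidalCategory C]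
    [SymmetricCategory C] [Preadditive C] [MonoidalPreadditive C] [Linear ℚ C] (H : NCMot k C)
    (K : Type u) [Field K] [Algebra k K] [IsAlgClosed K]
    (hsp : SplitCoh (A.ext K) (1 ⊗ₜ[k] t : K ⊗[k] A.A0)) : KimuraFinite (H.U _ hT) := by
  rw [H.kimuraFinite_iff hT (spOf A.cech hT) (repOf _)]
  exact thmC h _ rfl K hsp

end Pool.Agent.MP_6e5bed_ag_SP
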