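import Pool.Agent.Lib.MP_6e5bed_ag_CV.LFin
import Pool.Agent.Lib.MP_6e5bed_ag_CV.LSub
import Pool.Agent.Lib.MP_6e5bed_ag_CV.LLe
import Pool.Agent.Lib.MP_6e5bed_ag_CV.ClsTors

set_option autoImplicit false
set_option linter.unusedSectionVars false

/-!
# Classes of bimodules over the generic point, modulo torsion classes (NC CURVES)
-/

namespace Pool.Agent.MP_6e5bed_ag_NC

open RatFunc LP

universe u

variable {k : Type u} [Field k] {S T : Cosp k}

/-- The classes of all torsion bimodules are in `J`. -/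
def TorsIn (J : Submodule ℚ (K0Q S.cech T.cech)) : Prop :=
  ∀ τ : Tri S T, τ.Tors → ∃ h : HasRes τ.bim, rcls _ h ∈ J

/-- Over an algebraically closed field, the classes of torsion bimodules factor through `k`. -/
theorem torsIn_JS [IsAlgClosed k] {Good : DGA k → Prop} (hG : Good (base k))
    (hS : Smooth S.cech) : TorsIn (JS Good S.cech) := by
  intro τ hτ
  exact hτ.mem _ (fun U hU => KBi.cls_mem hG hS S.proj0 S.proj0 U hU)
    (fun U hU => KBi.cls_mem hG hS S.proj1 S.proj1 U hU)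

private theorem gcls_le {J : Submodule ℚ (K0Q S.cech T.cech)} (hJ : TorsIn J)
    {G : GBi k S.A01 T.A01} {N N' : LP k G.E} (h : Stable G N) (h' : Stable G N')
    (hle : Le N' N) (hN : HasRes (tri h).bim) :
    ∃ hN' : HasRes (tri h').bim, rcls _ hN - rcls _ hN' ∈ J := by
  obtain ⟨τ, hτ, hs⟩ := ses_le h' h hle
  obtain ⟨hr, hm⟩ := hJ τ hτ
  have hN' : HasRes (tri h').bim := hs.left hN hr
  refine ⟨hN', ?_⟩
  rw [hs.rcls hN' hN hr, add_sub_cancel_left]
  exact hm

/-- Lattice pairs in the same bimodule have the same class modulo `J`. -/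
theorem rcls_congr {J : Submodule ℚ (K0Q S.cech T.cech)} (hJ : TorsIn J)
    {G : GBi k S.A01 T.A01} {N N' : LP k G.E} (h : Stable G N) (h' : Stable G N')
    (hN : HasRes (tri h).bim) (hN' : HasRes (tri h').bim) :
    rcls _ hN - rcls _ hN' ∈ J := by
  obtain ⟨N'', h'', hle, hle'⟩ := exists_inf h h'
  obtain ⟨r1, m1⟩ := gcls_le hJ h h'' hle hN
  obtain ⟨r2, m2⟩ := gcls_le hJ h' h'' hle' hN'
  have h3 := J.sub_mem m1 m2
  rwa [sub_sub_sub_cancel_right] at h3

/-- `c` is the class of `G` modulo `J`: of all stable lattice pairs with a resolution; there is one. -/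
def IsG (J : Submodule ℚ (K0Q S.cech T.cech)) (G : GBi k S.A01 T.A01)
    (c : K0Q S.cech T.cech) : Prop :=
  ∃ (N : LP k G.E) (h : Stable G N) (hN : HasRes (tri h).bim), rcls _ hN - c ∈ J

theorem IsG.eq {J : Submodule ℚ (K0Q S.cech T.cech)} (hJ : TorsIn J) {G : GBi k S.A01 T.A01}
    {c : K0Q S.cech T.cech} (hc : IsG J G c) {N : LP k G.E} (h : Stable G N)
    (hN : HasRes (tri h).bim) : rcls _ hN - c ∈ J := by
  obtain ⟨N', h', hN', hc'⟩ := hc
  have h3 := J.add_mem (rcls_congr hJ h h' hN hN') hc'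
  rwa [sub_add_sub_cancel] at h3

theorem IsG.congr {J : Submodule ℚ (K0Q S.cech T.cech)} {G : GBi k S.A01 T.A01}
    {c c' : K0Q S.cech T.cech} (hc : IsG J G c) (h : c - c' ∈ J) : IsG J G c' := by
  obtain ⟨N, hs, hN, hm⟩ := hc
  refine ⟨N, hs, hN, ?_⟩
  have h3 := J.add_mem hm h
  rwa [sub_add_sub_cancel] at h3

theorem IsG.iso {J : Submodule ℚ (K0Q S.cech T.cech)} {G G' : GBi k S.A01 T.A01}
    {c : K0Q S.cech T.cech} (hc : IsG J G c) (h : GBi.Iso G G') : IsG J G' c := by
  obtain ⟨N, hs, hN, hm⟩ := hc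
  obtain ⟨N', hs', hb⟩ := exists_iso h hs
  have hN' : HasRes (tri hs').bim := hN.iso hb
  refine ⟨N', hs', hN', ?_⟩
  rwa [← rcls_iso hb hN hN']

theorem IsG.zero {J : Submodule ℚ (K0Q S.cech T.cech)} {G : GBi k S.A01 T.A01}
    (hG : Subsingleton G.E) : IsG J G 0 := by
  have h0 : ∀ x : G.E, x = 0 := fun x => Subsingleton.elim _ _
  obtain ⟨N⟩ : Nonempty (LP k G.E) := ⟨{
    N0 := ⊥
    N1 := ⊥
    fg0 := Submodule.fg_bot
    fg1 := Submodule.fg_bot
    sp0 := by
      rw [eq_top_iff]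
      intro x _
      rw [h0 x]
      exact Submodule.zero_mem _
    sp1 := by
      rw [eq_top_iff]
      intro x _
      rw [h0 x]
      exact Submodule.zero_mem _
    loc01 := fun v _ => ⟨0, by
      rw [h0 v, smul_zero]
      exact Submodule.zero_mem _⟩
    loc10 := fun v _ => ⟨0, by
      rw [h0 v, smul_zero]
      exact Submodule.zero_mem _⟩ }⟩
  have hs : Stable G N :=
    { l0 := fun a v _ => by
        rw [h0 (G.l (S.r0 a) v)]
        exact Submodule.zero_mem _
      r0 := fun b v _ => by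
        rw [h0 (G.r (T.r0 b) v)]
        exact Submodule.zero_mem _
      l1 := fun a v _ => by
        rw [h0 (G.l (S.r1 a) v)]
        exact Submodule.zero_mem _
      r1 := fun b v _ => by
        rw [h0 (G.r (T.r1 b) v)]
        exact Submodule.zero_mem _
      l01 := fun a v _ => by
        rw [h0 (G.l a v)]
        exact Submodule.zero_mem _
      r01 := fun b v _ => by
        rw [h0 (G.r b v)]
        exact Submodule.zero_mem _ }
  have hM : ∀ x y : (tri hs).bim.M, x = y := by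
    intro x y
    have h1 : ∀ u v : (N.N0 × N.N1) × N.N01, u = v := by
      rintro ⟨⟨u1, u2⟩, u3⟩ ⟨⟨v1, v2⟩, v3⟩
      have e1 : u1 = v1 := Subtype.ext (Subsingleton.elim _ _)
      have e2 : u2 = v2 := Subtype.ext (Subsingleton.elim _ _)
      have e3 : u3 = v3 := Subtype.ext (Subsingleton.elim _ _)
      rw [e1, e2, e3]
    exact h1 x y
  have ha : Acyc (tri hs).bim := fun x _ => ⟨x, hM _ _⟩
  refine ⟨N, hs, HasRes.of_acyc ha, ?_⟩
  rw [rcls_acyc ha, sub_zero]
  exact J.zero_mem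

/-- The class is additive; all stable lattice pairs have resolutions if the Čech algebras are
smooth. -/
theorem IsG.add {J : Submodule ℚ (K0Q S.cech T.cech)} (hJ : TorsIn J) (hS : Smooth S.cech)
    (hT : Smooth T.cech) {G : GBi k S.A01 T.A01} (U : Submodule (RatFunc k) G.E)
    (hU : G.Stab U) {N : LP k G.E} (hN : Stable G N) {c c' : K0Q S.cech T.cech}
    (hc : IsG J (G.sub U hU) c) (hc' : IsG J (G.quot U hU) c') : IsG J G (c + c') := by
  obtain ⟨N', h', N'', h'', hses⟩ := ses_sub hN U hU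
  have r' : HasRes (tri h').bim := HasRes.of_finCoh hS hT _ (LP.finCoh h')
  have r'' : HasRes (tri h'').bim := HasRes.of_finCoh hS hT _ (LP.finCoh h'')
  have r : HasRes (tri hN).bim := HasRes.of_finCoh hS hT _ (LP.finCoh hN)
  refine ⟨N, hN, r, ?_⟩
  rw [hses.rcls r' r r'', add_sub_add_comm]
  exact J.add_mem (hc.eq hJ h' r') (hc'.eq hJ h'' r'')

/-- The class of a bimodule with a filtration with `n` subquotients isomorphic to `G₀`. -/
theorem IsG.ser {J : Submodule ℚ (K0Q S.cech T.cech)} (hJ : TorsIn J) (hS : Smooth S.cech)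
    (hT : Smooth T.cech) {G₀ G : GBi k S.A01 T.A01} {n : ℕ} (h : GBi.Ser G₀ G n)
    {N : LP k G.E} (hN : Stable G N) {c : K0Q S.cech T.cech} (hc : IsG J G₀ c) :
    IsG J G ((n : ℚ) • c) := by
  induction h with
  | zero hG =>
    rw [Nat.cast_zero, zero_smul]
    exact IsG.zero hG
  | step U hU _ hi ih =>
    obtain ⟨N', h', N'', h'', hses⟩ := ses_sub hN U hU
    have h1 := ih h'
    have h2 : GBi.Iso G₀ (GBi.quot _ U hU) := by
      obtain ⟨f, fl, fr⟩ := hi
      refine ⟨f.symm, fun a x => ?_, fun b x => ?_⟩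
      · rw [LinearEquiv.symm_apply_eq, fl, LinearEquiv.apply_symm_apply]
      · rw [LinearEquiv.symm_apply_eq, fr, LinearEquiv.apply_symm_apply]
    have h3 := IsG.add hJ hS hT U hU hN h1 (hc.iso h2)
    rw [Nat.cast_add, Nat.cast_one, add_smul, one_smul]
    exact h3

end Pool.Agent.MP_6e5bed_ag_NC
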