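import Pool.Agent.Lib.MP_6e5bed_ag_NC.FieldIff
import Pool.Agent.Lib.MP_6e5bed_ag_NC.Clos

set_option autoImplicit false

/-!
# h-projective bimodules and lifting through quasi-isomorphisms (NC CURVES, row 1)
-/

namespace Pool.Agent.MP_6e5bed_ag_NC

universe u

variable {k : Type u} [Field k] {A B : DGA k}

/-- Every closed map from `P` to an acyclic bimodule is homotopic to zero. -/
def HProj (P : Bim A B) : Prop := ∀ Y : Bim A B, Acyc Y → NullTo P Y

/-- Perfect bimodules are h-projective (`Perf.null`). -/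
theorem Perf.hproj {P : Bim A B} (h : Perf P) : HProj P := by
  intro Y hY n m f hf hm
  exact h.null hY f hf hm

/-- Maps from an h-projective bimodule lift through quasi-isomorphisms, up to homotopy
(use the cone of `f`, which is acyclic). -/
theorem HProj.lift {P M N : Bim A B} (hP : HProj P) (f : GMap 0 M N) (hf : QIso f)
    (g : GMap 0 P N) (hg : g.dd = 0) : ∃ (h : GMap 0 P M) (s : GMap (-1) P N), h.dd = 0 ∧
      ∀ x, s.dd x = g.f x - f.f (h.f x) := by
  have hc : IsCone f (cone f hf.1) := isCone_cone f hf.1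
  have hA : Acyc (cone f hf.1) := (hc.qiso_iff hf.1).1 hf
  obtain ⟨t, j, p, q, h0, h1, h2, h3, h4, h5, h6, h7⟩ := hc
  have hq := IsCone.q_dd h1 h2 h4 h6 h7
  obtain ⟨H, hH⟩ := hP _ hA 0 (-1) (g.comp j (add_zero 0)) (by
    ext x
    rw [GMap.dd_comp, h1, hg]
    simp) (by ring)
  refine ⟨H.comp p (neg_add_cancel 1), H.comp q (add_zero (-1)), ?_, fun x => ?_⟩
  · ext x
    rw [GMap.dd_comp, h0, hH, GMap.comp_f, h5]
    simp
  · rw [GMap.dd_comp, hq, hH, GMap.comp_f, h4, GMap.comp_f, sg_zero, one_smul]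
    abel

/-- If `f h` is homotopic to zero and `f` is a quasi-isomorphism, then `h` is homotopic to zero. -/
theorem HProj.null_of_comp {P M N : Bim A B} (hP : HProj P) (f : GMap 0 M N) (hf : QIso f)
    (h : GMap 0 P M) (hh : h.dd = 0) (s : GMap (-1) P N) (hs : ∀ x, s.dd x = f.f (h.f x)) :
    ∃ s' : GMap (-1) P M, ∀ x, s'.dd x = h.f x := by
  have hc : IsCone f (cone f hf.1) := isCone_cone f hf.1
  have hA : Acyc (cone f hf.1) := (hc.qiso_iff hf.1).1 hf
  obtain ⟨t, j, p, q, h0, h1, h2, h3, h4, h5, h6, h7⟩ := hc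
  obtain ⟨H, hH⟩ := hP _ hA (-1) (-2) (h.comp t (zero_add (-1)) - s.comp j (add_zero (-1))) (by
    ext x
    rw [GMap.dd_sub, GMap.dd_comp, GMap.dd_comp, h2, hh, h1, hs]
    simp [sg_zero]) (by ring)
  refine ⟨- H.comp p (by norm_num), fun x => ?_⟩
  rw [GMap.dd_neg, GMap.dd_comp, h0, hH, GMap.sub_f, GMap.comp_f, GMap.comp_f, map_sub, h3, h5,
    sg_one, sub_zero, LinearMap.zero_apply, zero_add, neg_smul, one_smul, neg_neg]

/-- A closed map homotopic to a quasi-isomorphism is a quasi-isomorphism. -/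
theorem QIso.of_htpy {M N : Bim A B} {f g : GMap 0 M N} (hf : QIso f) (hg : g.dd = 0)
    (s : GMap (-1) M N) (hs : ∀ x, s.dd x = g.f x - f.f x) : QIso g := by
  have hs' : ∀ x, M.dg.d x = 0 → N.dg.d (s.f x) = g.f x - f.f x := by
    intro x hx
    have h1 := hs x
    rw [GMap.dd_apply, hx, map_zero, smul_zero, sub_zero] at h1
    exact h1
  obtain ⟨h0, h1, h2⟩ := hf
  refine ⟨hg, ?_, ?_⟩
  · rintro x hx ⟨y, hy⟩
    refine h1 x hx ⟨y - s.f x, ?_⟩
    rw [map_sub, hy, hs' x hx]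
    abel
  · intro y hy
    obtain ⟨x, hx, z, hz⟩ := h2 y hy
    refine ⟨x, hx, z - s.f x, ?_⟩
    rw [map_sub, hz, hs' x hx]
    abel

/-- Two out of three: `g` from `g f` and `f`. -/
theorem QIso.of_comp_left {M N P : Bim A B} {f : GMap 0 M N} {g : GMap 0 N P} (hf : QIso f)
    (hg : g.dd = 0) (h : QIso (f.comp g (add_zero 0))) : QIso g := by
  obtain ⟨f0, f1, f2⟩ := hf
  obtain ⟨h0, h1, h2⟩ := h
  refine ⟨hg, ?_, ?_⟩
  · rintro x hx ⟨y, hy⟩
    obtain ⟨x', hx', z, hz⟩ := f2 x hx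
    obtain ⟨w, hw⟩ := h1 x' hx' ⟨y - g.f z, by
      rw [map_sub, hy, GMap.d_f_zero hg, hz, map_sub, GMap.comp_f]
      abel⟩
    refine ⟨f.f w + z, ?_⟩
    rw [map_add, GMap.d_f_zero f0, hw, hz]
    abel
  · intro y hy
    obtain ⟨x, hx, z, hz⟩ := h2 y hy
    exact ⟨f.f x, by rw [GMap.d_f_zero f0, hx, map_zero], z, hz⟩

/-- Two out of three: `f` from `g f` and `g`. -/
theorem QIso.of_comp_right {M N P : Bim A B} {f : GMap 0 M N} {g : GMap 0 N P} (hf : f.dd = 0)
    (hg : QIso g) (h : QIso (f.comp g (add_zero 0))) : QIso f := by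
  obtain ⟨g0, g1, g2⟩ := hg
  obtain ⟨h0, h1, h2⟩ := h
  refine ⟨hf, ?_, ?_⟩
  · rintro x hx ⟨y, hy⟩
    exact h1 x hx ⟨g.f y, by rw [GMap.d_f_zero g0, hy, GMap.comp_f]⟩
  · intro y hy
    obtain ⟨x, hx, z, hz⟩ := h2 (g.f y) (by rw [GMap.d_f_zero g0, hy, map_zero])
    obtain ⟨w, hw⟩ := g1 (y - f.f x) (by
      rw [map_sub, hy, GMap.d_f_zero hf, hx, map_zero, sub_zero]) ⟨z, by
      rw [hz, map_sub, GMap.comp_f]⟩
    exact ⟨x, hx, w, hw⟩

private def hpIn {X P C : Bim A B} (i : GMap 0 X P) (j : GMap 0 X C) :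
    GMap 0 X (tsum (0 : GMap 1 P C) (LinearMap.ext GMap.dd_zero)) where
  f := LinearMap.prod i.f j.f
  deg := fun {n x} hx => by
    have h1 := i.deg hx
    have h2 := j.deg hx
    exact tsum_deg.2 ⟨h1, h2⟩
  map_l := fun a x => by
    change (i.f (X.l a x), j.f (X.l a x)) =
      (P.l (A.dg.sp 0 a) (i.f x), C.l (A.dg.sp 0 a) (j.f x))
    rw [i.map_l, j.map_l]
  map_r := fun b x => by
    change (i.f (X.r b x), j.f (X.r b x)) = (P.r b (i.f x), C.r b (j.f x))
    rw [i.map_r, j.map_r]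

private def hpOut {X P C : Bim A B} (r : GMap 0 P X) (s : GMap 0 C X) :
    GMap 0 (tsum (0 : GMap 1 P C) (LinearMap.ext GMap.dd_zero)) X where
  f := LinearMap.coprod r.f s.f
  deg := fun {n x} hx => by
    obtain ⟨y, c⟩ := x
    have h1 := tsum_deg.1 hx
    exact (r.deg h1.1).add (s.deg h1.2)
  map_l := fun a x => by
    obtain ⟨y, c⟩ := x
    change r.f (P.l a y) + s.f (C.l a c) = X.l (A.dg.sp 0 a) (r.f y + s.f c)
    rw [r.map_l, s.map_l, map_add]
  map_r := fun b x => by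
    obtain ⟨y, c⟩ := x
    change r.f (P.r b y) + s.f (C.r b c) = X.r b (r.f y + s.f c)
    rw [r.map_r, s.map_r, map_add]

/-- A strict direct summand of an h-projective bimodule up to homotopy is a strict summand of the
sum with a contractible bimodule, so it is perfect if `P` is: if `r i` is homotopic to the
identity of `X` and `P` is perfect, then `X` is perfect. (`X` is a strict direct summand of
`P ⊕ cone (id X)`, use `contr_cone_id`.) -/
theorem Perf.of_htpy_retract {X P : Bim A B} (hP : Perf P) (i : GMap 0 X P) (r : GMap 0 P X)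
    (hi : i.dd = 0) (hr : r.dd = 0) (s : GMap (-1) X X) (hs : ∀ x, s.dd x = x - r.f (i.f x)) :
    Perf X := by
  have hid : (GMap.id X).dd = 0 := LinearMap.ext GMap.dd_id
  have hc : IsCone (GMap.id X) (cone (GMap.id X) hid) := isCone_cone _ hid
  have hcon : Contr (cone (GMap.id X) hid) := contr_cone_id X
  revert hc hcon
  generalize cone (GMap.id X) hid = C
  intro hc hcon
  obtain ⟨t, j, p, q, h0, h1, h2, h3, h4, h5, h6, h7⟩ := hc
  have hq := IsCone.q_dd h1 h2 h4 h6 h7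
  have hw : ∀ c, (q.comp s (zero_add (-1))).dd c = s.dd (q.f c) + s.f (p.f c) := by
    intro c
    rw [GMap.dd_comp, hq, sg_neg, sg_one, GMap.id_f, map_neg, neg_smul, one_smul, neg_neg]
  have hE : Perf (tsum (0 : GMap 1 P C) (LinearMap.ext GMap.dd_zero)) :=
    Perf.mid (isExt_tsum _ _) (Perf.contr hcon) hP
  refine Perf.summand ⟨hpIn i j, hpOut r ((q.comp s (zero_add (-1))).D (neg_add_cancel 1)),
    ?_, ?_, fun x => ?_⟩ hE
  · refine LinearMap.ext fun x => ?_
    change (P.dg.d (i.f x), (0 : GMap 1 P C).f (i.f x) + C.dg.d (j.f x)) -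
      sg 0 • (i.f (X.dg.d x), j.f (X.dg.d x)) = 0
    rw [sg_zero, one_smul, GMap.d_f_zero hi, GMap.d_f_zero h1, GMap.zero_f, zero_add, sub_self]
  · refine LinearMap.ext fun x => ?_
    obtain ⟨y, c⟩ := x
    have hD := GMap.d_f_zero (φ := (q.comp s (zero_add (-1))).D (neg_add_cancel 1))
      (LinearMap.ext (GMap.dd_D _ _)) c
    change X.dg.d (r.f y + ((q.comp s (zero_add (-1))).D (neg_add_cancel 1)).f c) -
      sg 0 • (r.f (P.dg.d y) + ((q.comp s (zero_add (-1))).D (neg_add_cancel 1)).f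
        ((0 : GMap 1 P C).f y + C.dg.d c)) = 0
    rw [sg_zero, one_smul, map_add, GMap.d_f_zero hr, hD, GMap.zero_f, zero_add, sub_self]
  · change r.f (i.f x) + ((q.comp s (zero_add (-1))).D (neg_add_cancel 1)).f (j.f x) = x
    rw [GMap.D_f, hw, h4, h5, map_zero, add_zero, hs]
    abel

end Pool.Agent.MP_6e5bed_ag_NC
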