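import Pool.Agent.Lib.MP_6e5bed_ag_CV.HProj
import Pool.Agent.Lib.MP_6e5bed_ag_NC.Fun
import Pool.Agent.Lib.MP_6e5bed_ag_NC.Acy
import Pool.Agent.Lib.MP_6e5bed_ag_NC.K0Api
import Pool.Agent.Lib.MP_6e5bed_ag_NC.FinCoh

set_option autoImplicit false

/-!
# Bimodules with a perfect resolution and their classes (NC CURVES, row 2)
-/

namespace Pool.Agent.MP_6e5bed_ag_NC

universe u

variable {k : Type u} [Field k] {A B : DGA k}

/-- `M` has a perfect resolution. -/
def HasRes (M : Bim A B) : Prop := ∃ (P : Bim A B) (φ : GMap 0 P M), Perf P ∧ QIso φ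

private theorem hres_id (M : Bim A B) : QIso (GMap.id M) :=
  qiso_of_inv (φ := GMap.id M) (ψ := GMap.id M) (LinearMap.ext GMap.dd_id) (fun _ => rfl)
    fun _ => rfl

private theorem hres_zero {Z M : Bim A B} (hZ : ∀ x : Z.M, x = 0) (h : Acyc M) :
    QIso (0 : GMap 0 Z M) := by
  refine ⟨LinearMap.ext fun x => GMap.dd_zero x, ?_, ?_⟩
  · intro x _ _
    exact ⟨0, by rw [map_zero, hZ x]⟩
  · intro y hy
    obtain ⟨z, hz⟩ := h y hy
    exact ⟨0, map_zero _, z, by rw [hz, GMap.zero_f, sub_zero]⟩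

/-- lift of a resolution of `N` through a quasi-isomorphism `M → N` -/
private theorem hres_lift {M N P : Bim A B} (hP : Perf P) (f : GMap 0 M N) (hf : QIso f)
    (φ : GMap 0 P N) (hφ : QIso φ) : ∃ h : GMap 0 P M, QIso h := by
  obtain ⟨h, s, hh, hs⟩ := (Perf.hproj hP).lift f hf φ hφ.1
  refine ⟨h, QIso.of_comp_right hh hf ?_⟩
  refine QIso.of_htpy hφ ?_ (-s) fun x => ?_
  · ext x
    rw [GMap.dd_comp, hh, hf.1]
    simp
  · rw [GMap.dd_neg, hs, GMap.comp_f]
    abel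

theorem Perf.hasRes {M : Bim A B} (h : Perf M) : HasRes M := by
  exact ⟨M, GMap.id M, h, hres_id M⟩

theorem HasRes.of_acyc {M : Bim A B} (h : Acyc M) : HasRes M := by
  obtain ⟨Z, hZ, hZ0⟩ := contr_zero (A := A) (B := B)
  exact ⟨Z, 0, Perf.contr hZ, hres_zero hZ0 h⟩

theorem HasRes.of_qiso {M N : Bim A B} (hM : HasRes M) (f : GMap 0 M N) (hf : QIso f) :
    HasRes N := by
  obtain ⟨P, φ, hP, hφ⟩ := hM
  exact ⟨P, φ.comp f (add_zero 0), hP, hφ.comp hf⟩

/-- Lift the resolution of `N` through `f` (`HProj.lift`). -/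
theorem HasRes.of_qiso' {M N : Bim A B} (hN : HasRes N) (f : GMap 0 M N) (hf : QIso f) :
    HasRes M := by
  obtain ⟨P, φ, hP, hφ⟩ := hN
  obtain ⟨h, hh⟩ := hres_lift hP f hf φ hφ
  exact ⟨P, h, hP, hh⟩

theorem HasRes.iso {M N : Bim A B} (hM : HasRes M) (h : BIso M N) : HasRes N := by
  obtain ⟨φ, ψ, h0, h1, h2⟩ := h
  exact hM.of_qiso φ (qiso_of_inv h0 h1 h2)

/-- The class of a bimodule with a perfect resolution. -/
noncomputable def rcls (M : Bim A B) (h : HasRes M) : K0Q A B :=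
  cls h.choose h.choose_spec.choose_spec.1

theorem rcls_eq {M : Bim A B} (h : HasRes M) {P : Bim A B} (hP : Perf P) (φ : GMap 0 P M)
    (hφ : QIso φ) : rcls M h = cls P hP := by
  obtain ⟨g, hg⟩ := hres_lift hP h.choose_spec.choose h.choose_spec.choose_spec.2 φ hφ
  exact (K0Q.cls_qiso hP h.choose_spec.choose_spec.1 g hg).symm

theorem rcls_perf {M : Bim A B} (h : Perf M) (h' : HasRes M) : rcls M h' = cls M h := by
  exact rcls_eq h' h (GMap.id M) (hres_id M)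

theorem rcls_acyc {M : Bim A B} (h : Acyc M) (h' : HasRes M) : rcls M h' = 0 := by
  obtain ⟨Z, hZ, hZ0⟩ := contr_zero (A := A) (B := B)
  rw [rcls_eq h' (Perf.contr hZ) 0 (hres_zero hZ0 h)]
  exact K0Q.cls_contr _ hZ

theorem rcls_qiso {M N : Bim A B} (hM : HasRes M) (hN : HasRes N) (f : GMap 0 M N)
    (hf : QIso f) : rcls M hM = rcls N hN := by
  obtain ⟨P, φ, hP, hφ⟩ := hM
  rw [rcls_eq ⟨P, φ, hP, hφ⟩ hP φ hφ, rcls_eq hN hP (φ.comp f (add_zero 0)) (hφ.comp hf)]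

theorem rcls_iso {M N : Bim A B} (h : BIso M N) (hM : HasRes M) (hN : HasRes N) :
    rcls M hM = rcls N hN := by
  obtain ⟨φ, ψ, h0, h1, h2⟩ := h
  exact rcls_qiso hM hN φ (qiso_of_inv h0 h1 h2)

/-- A quasi-isomorphism with a bimodule which has finite-dimensional cohomology. -/
theorem QIso.finCoh {M N : Bim A B} (f : GMap 0 M N) (hf : QIso f) :
    M.dg.FinCoh ↔ N.dg.FinCoh := by
  obtain ⟨Z, hZ, hZ0⟩ := contr_zero (A := A) (B := B)
  have hZf : Z.dg.FinCoh := FinCoh.of_acyc hZ.acyc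
  obtain ⟨h0, h1, h2⟩ := hf
  constructor
  · intro hM
    refine finCoh_exact (X := M.dg) (Z := Z.dg) f.f 0 ?_ ?_ ?_ ?_ ?_ hM hZf
    · intro x hx
      rw [GMap.d_f_zero h0, hx, map_zero]
    · intro u
      exact ⟨f.f u, GMap.d_f_zero h0 u⟩
    · intro y _
      rw [LinearMap.zero_apply, map_zero]
    · intro v
      exact ⟨0, by rw [LinearMap.zero_apply, map_zero]⟩
    · intro y hy _
      obtain ⟨x, hx, z, hz⟩ := h2 y hy
      exact ⟨x, hx, z, by rw [hz]; abel⟩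
  · intro hN
    refine finCoh_exact (X := Z.dg) (Z := N.dg) 0 f.f ?_ ?_ ?_ ?_ ?_ hZf hN
    · intro x _
      rw [LinearMap.zero_apply, map_zero]
    · intro u
      exact ⟨0, by rw [LinearMap.zero_apply, map_zero]⟩
    · intro y hy
      rw [GMap.d_f_zero h0, hy, map_zero]
    · intro v
      exact ⟨f.f v, GMap.d_f_zero h0 v⟩
    · intro y hy hw
      obtain ⟨z, hz⟩ := h1 y hy hw
      exact ⟨0, map_zero _, z, by rw [hz, LinearMap.zero_apply, zero_add]⟩

end Pool.Agent.MP_6e5bed_ag_NC
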