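import Pool.Agent.Lib.MP_6e5bed_ag_CV.Ring0

set_option autoImplicit false

/-!
# Finite-dimensional bimodules (NC CURVES, row 14)
-/

namespace Pool.Agent.MP_6e5bed_ag_NC

universe u

variable {k : Type u} [Field k] {R R' : Type u} [Ring R] [Algebra k R] [Ring R'] [Algebra k R']

namespace KBi

/-- a sub-bimodule -/
private noncomputable def KFsub (U : KBi k R R') (X : Submodule k U.M)
    (hl : ∀ a, ∀ x ∈ X, U.l a x ∈ X) (hr : ∀ b, ∀ x ∈ X, U.r b x ∈ X) : KBi k R R' where
  M := X
  l := LinearMap.mk₂ k (fun a v => ⟨U.l a v.1, hl a v.1 v.2⟩)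
    (fun a a' v => Subtype.ext (by simp)) (fun c a v => Subtype.ext (by simp))
    (fun a v v' => Subtype.ext (by simp)) (fun c a v => Subtype.ext (by simp))
  r := LinearMap.mk₂ k (fun a v => ⟨U.r a v.1, hr a v.1 v.2⟩)
    (fun a a' v => Subtype.ext (by simp)) (fun c a v => Subtype.ext (by simp))
    (fun a v v' => Subtype.ext (by simp)) (fun c a v => Subtype.ext (by simp))
  l_one := fun v => Subtype.ext (U.l_one v.1)
  r_one := fun v => Subtype.ext (U.r_one v.1)
  l_mul := fun a a' v => Subtype.ext (U.l_mul a a' v.1)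
  r_mul := fun a a' v => Subtype.ext (U.r_mul a a' v.1)
  l_r := fun a b v => Subtype.ext (U.l_r a b v.1)

/-- a quotient bimodule -/
private noncomputable def KFquot (U : KBi k R R') (X : Submodule k U.M)
    (hl : ∀ a, ∀ x ∈ X, U.l a x ∈ X) (hr : ∀ b, ∀ x ∈ X, U.r b x ∈ X) : KBi k R R' where
  M := U.M ⧸ X
  l :=
    { toFun := fun a => X.mapQ X (U.l a) (hl a)
      map_add' := fun a a' => by ext v; simp
      map_smul' := fun c a => by ext v; simp }
  r :=
    { toFun := fun a => X.mapQ X (U.r a) (hr a)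
      map_add' := fun a a' => by ext v; simp
      map_smul' := fun c a => by ext v; simp }
  l_one := fun v => by
    obtain ⟨w, rfl⟩ := Submodule.Quotient.mk_surjective _ v
    exact congrArg _ (U.l_one w)
  r_one := fun v => by
    obtain ⟨w, rfl⟩ := Submodule.Quotient.mk_surjective _ v
    exact congrArg _ (U.r_one w)
  l_mul := fun a a' v => by
    obtain ⟨w, rfl⟩ := Submodule.Quotient.mk_surjective _ v
    exact congrArg _ (U.l_mul a a' w)
  r_mul := fun a a' v => by
    obtain ⟨w, rfl⟩ := Submodule.Quotient.mk_surjective _ v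
    exact congrArg _ (U.r_mul a a' w)
  l_r := fun a b v => by
    obtain ⟨w, rfl⟩ := Submodule.Quotient.mk_surjective _ v
    exact congrArg _ (U.l_r a b w)

private theorem KFses (U : KBi k R R') (X : Submodule k U.M)
    (hl : ∀ a, ∀ x ∈ X, U.l a x ∈ X) (hr : ∀ b, ∀ x ∈ X, U.r b x ∈ X) :
    IsSes (KFsub U X hl hr) U (KFquot U X hl hr) :=
  ⟨X.subtype, X.mkQ, X.injective_subtype, X.mkQ_surjective, fun x =>
    (Submodule.Quotient.mk_eq_zero X (x := x)).trans
      ⟨fun h => ⟨⟨x, h⟩, rfl⟩, by rintro ⟨y, rfl⟩; exact y.2⟩,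
    fun _ _ => rfl, fun _ _ => rfl, fun _ _ => rfl, fun _ _ => rfl⟩

/-- Induction on the dimension, by filtrations with simple subquotients. -/
theorem ind {P : KBi k R R' → Prop} (h0 : ∀ U : KBi k R R', Subsingleton U.M → P U)
    (hs : ∀ U : KBi k R R', Module.Finite k U.M → U.Simple → P U)
    (he : ∀ U' U U'' : KBi k R R', IsSes U' U U'' → Module.Finite k U.M → P U' → P U'' → P U)
    (U : KBi k R R') (hU : Module.Finite k U.M) : P U := by
  obtain ⟨n, hn⟩ : ∃ n, Module.finrank k U.M = n := ⟨_, rfl⟩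
  induction n using Nat.strong_induction_on generalizing U with
  | _ n ih =>
  rcases subsingleton_or_nontrivial U.M with h | h
  · exact h0 U h
  by_cases hsim : U.Simple
  · exact hs U hU hsim
  have : ∃ X : Submodule k U.M, (∀ a, ∀ x ∈ X, U.l a x ∈ X) ∧ (∀ b, ∀ x ∈ X, U.r b x ∈ X) ∧
      X ≠ ⊥ ∧ X ≠ ⊤ := by
    by_contra hc
    push Not at hc
    exact hsim ⟨h, fun X hl hr => by
      by_cases hX : X = ⊥
      · exact Or.inl hX
      · exact Or.inr (hc X hl hr hX)⟩
  obtain ⟨X, hl, hr, hb, ht⟩ := this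
  have h1 : Module.finrank k X < Module.finrank k U.M := Submodule.finrank_lt ht
  have h2 : Module.finrank k (U.M ⧸ X) + Module.finrank k X = Module.finrank k U.M :=
    Submodule.finrank_quotient_add_finrank X
  have h3 : 0 < Module.finrank k X := by
    rw [Nat.pos_iff_ne_zero]
    intro h0
    exact hb (Submodule.finrank_eq_zero.1 h0)
  refine he _ _ _ (KFses U X hl hr) hU ?_ ?_
  · exact ih (Module.finrank k X) (by omega) (KFsub U X hl hr)
      (inferInstanceAs (Module.Finite k X)) rfl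
  · exact ih (Module.finrank k (U.M ⧸ X)) (by omega) (KFquot U X hl hr)
      (inferInstanceAs (Module.Finite k (U.M ⧸ X))) rfl

private noncomputable def KFl (U : KBi k R R') (X : Submodule k U.M)
    (hl : ∀ a, ∀ x ∈ X, U.l a x ∈ X) : R →ₗ[k] X →ₗ[k] X :=
  LinearMap.mk₂ k (fun a v => ⟨U.l a v.1, hl a v.1 v.2⟩)
    (fun a a' v => Subtype.ext (by simp)) (fun c a v => Subtype.ext (by simp))
    (fun a v v' => Subtype.ext (by simp)) (fun c a v => Subtype.ext (by simp))

/-- the left module given by a stable subspace -/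
private noncomputable def KFP (U : KBi k R R') (X : Submodule k U.M)
    (hl : ∀ a, ∀ x ∈ X, U.l a x ∈ X) : KBi k R k where
  M := X
  l := KFl U X hl
  r := LinearMap.lsmul k X
  l_one := fun v => Subtype.ext (U.l_one v.1)
  r_one := fun v => one_smul _ _
  l_mul := fun a a' v => Subtype.ext (U.l_mul a a' v.1)
  r_mul := fun a a' v => by
    show (a * a') • v = a' • a • v
    rw [mul_comm, mul_smul]
  l_r := fun a b v => ((KFl U X hl a).map_smul b v)

/-- the homomorphisms of left modules -/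
private def KFH (U : KBi k R R') (X : Submodule k U.M)
    (hl : ∀ a, ∀ x ∈ X, U.l a x ∈ X) : Submodule k (X →ₗ[k] U.M) where
  carrier := {q | ∀ (a : R) (x : X), q ⟨U.l a x.1, hl a x.1 x.2⟩ = U.l a (q x)}
  add_mem' := fun {q q'} h h' a x => by
    rw [LinearMap.add_apply, LinearMap.add_apply, h, h', map_add]
  zero_mem' := fun a x => by simp
  smul_mem' := fun c q h a x => by
    rw [LinearMap.smul_apply, LinearMap.smul_apply, h, map_smul]

private noncomputable def KFr (U : KBi k R R') (X : Submodule k U.M)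
    (hl : ∀ a, ∀ x ∈ X, U.l a x ∈ X) : R' →ₗ[k] KFH U X hl →ₗ[k] KFH U X hl :=
  LinearMap.mk₂ k (fun b q => ⟨(U.r b).comp q.1, fun a x => by
      rw [LinearMap.comp_apply, q.2 a x, LinearMap.comp_apply, U.l_r]⟩)
    (fun a a' v => Subtype.ext (LinearMap.ext fun x => by simp))
    (fun c a v => Subtype.ext (LinearMap.ext fun x => by simp))
    (fun a v v' => Subtype.ext (LinearMap.ext fun x => by simp))
    (fun c a v => Subtype.ext (LinearMap.ext fun x => by simp))

/-- the right module of the homomorphisms of left modules -/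
private noncomputable def KFQ (U : KBi k R R') (X : Submodule k U.M)
    (hl : ∀ a, ∀ x ∈ X, U.l a x ∈ X) : KBi k k R' where
  M := KFH U X hl
  l := LinearMap.lsmul k (KFH U X hl)
  r := KFr U X hl
  l_one := fun v => one_smul _ _
  r_one := fun v => Subtype.ext (LinearMap.ext fun x => U.r_one _)
  l_mul := fun a a' v => mul_smul _ _ _
  r_mul := fun a a' v => Subtype.ext (LinearMap.ext fun x => U.r_mul _ _ _)
  l_r := fun a b v => ((KFr U X hl b).map_smul a v).symm

private theorem KFtop {k V Q W : Type u} [Field k] [AddCommGroup V] [Module k V]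
    [AddCommGroup Q] [Module k Q] [AddCommGroup W] [Module k W] [Module.Finite k V]
    [Module.Finite k Q] [Nontrivial V] (e : TensorProduct k V Q ≃ₗ[k] W) (Y : Submodule k Q)
    (h : Function.Surjective (e.toLinearMap.comp (LinearMap.lTensor V Y.subtype))) : Y = ⊤ := by
  have h3 := LinearMap.finrank_le_finrank_of_surjective h
  have h4 : Module.finrank k W = Module.finrank k V * Module.finrank k Q := by
    rw [← e.finrank_eq, Module.finrank_tensorProduct]
  rw [h4, Module.finrank_tensorProduct] at h3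
  have h5 : 0 < Module.finrank k V := Module.finrank_pos
  have h6 := Nat.le_of_mul_le_mul_left h3 h5
  exact Submodule.eq_top_of_finrank_eq (le_antisymm (Submodule.finrank_le Y) h6)

/-- Schur's lemma -/
private theorem KFschur [IsAlgClosed k] (U : KBi k R R') (X : Submodule k U.M)
    [Module.Finite k X] (hl : ∀ a, ∀ x ∈ X, U.l a x ∈ X) (hX : X ≠ ⊥)
    (hmin : ∀ Y : Submodule k X, (∀ (a : R) (x : X), x ∈ Y → (⟨U.l a x.1, hl a x.1 x.2⟩ : X) ∈ Y) →
      Y = ⊥ ∨ Y = ⊤) (f : X →ₗ[k] X)
    (hf : ∀ (a : R) (x : X), f ⟨U.l a x.1, hl a x.1 x.2⟩ = ⟨U.l a (f x).1, hl a (f x).1 (f x).2⟩) :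
    ∃ c : k, ∀ x, f x = c • x := by
  haveI : Nontrivial X := Submodule.nontrivial_iff_ne_bot.2 hX
  obtain ⟨c, hc⟩ := Module.End.exists_eigenvalue (K := k) f
  refine ⟨c, fun x => ?_⟩
  have h1 : Module.End.eigenspace f c = ⊤ := by
    refine (hmin (Module.End.eigenspace f c) fun a x hx => ?_).resolve_left hc
    rw [Module.End.mem_eigenspace_iff] at hx ⊢
    rw [hf]
    refine Subtype.ext ?_
    rw [hx]
    simp
  have h2 : x ∈ Module.End.eigenspace f c := h1 ▸ Submodule.mem_top
  exact Module.End.mem_eigenspace_iff.1 h2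

/-- independent homomorphisms of a simple module have independent values -/
private theorem KFinj [IsAlgClosed k] (U : KBi k R R') (X : Submodule k U.M)
    [Module.Finite k X] (hl : ∀ a, ∀ x ∈ X, U.l a x ∈ X) (hX : X ≠ ⊥)
    (hmin : ∀ Y : Submodule k X, (∀ (a : R) (x : X), x ∈ Y → (⟨U.l a x.1, hl a x.1 x.2⟩ : X) ∈ Y) →
      Y = ⊥ ∨ Y = ⊤) (n : ℕ) (q : Fin n → KFH U X hl) (hq : LinearIndependent k q)
    (p : Fin n → X) (hp : ∑ i, (q i).1 (p i) = 0) : p = 0 := by
  induction n with
  | zero => exact funext fun i => i.elim0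
  | succ n ih =>
  have hq' : LinearIndependent k (fun i : Fin n => q i.succ) :=
    hq.comp Fin.succ (Fin.succ_injective n)
  let K : Submodule k (Fin (n + 1) → X) :=
    LinearMap.ker (∑ i, (q i).1.comp (LinearMap.proj i : (Fin (n + 1) → X) →ₗ[k] X))
  have hK : ∀ p, p ∈ K ↔ ∑ i, (q i).1 (p i) = 0 := fun p => by
    rw [LinearMap.mem_ker, LinearMap.sum_apply]
    rfl
  let pr : K →ₗ[k] X := (LinearMap.proj 0).comp K.subtype
  have hpr : Function.Injective pr := by
    rw [injective_iff_map_eq_zero]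
    rintro ⟨p, hpK⟩ h0
    have h0' : p 0 = 0 := h0
    have h1 := (hK p).1 hpK
    rw [Fin.sum_univ_succ, h0', map_zero, zero_add] at h1
    have h2 := ih (fun i => q i.succ) hq' (fun i => p i.succ) h1
    refine Subtype.ext (funext fun i => ?_)
    refine Fin.cases h0' (fun j => ?_) i
    exact congrFun h2 j
  have hKst : ∀ (a : R) (p : Fin (n + 1) → X), p ∈ K →
      (fun i => (⟨U.l a (p i).1, hl a (p i).1 (p i).2⟩ : X)) ∈ K := fun a p hp => by
    rw [hK] at hp ⊢
    have : ∀ i, (q i).1 (⟨U.l a (p i).1, hl a (p i).1 (p i).2⟩ : X) = U.l a ((q i).1 (p i)) :=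
      fun i => (q i).2 a (p i)
    simp only [this, ← map_sum, hp, map_zero]
  have hrange := hmin (LinearMap.range pr) (by
    rintro a x ⟨p, rfl⟩
    exact ⟨⟨_, hKst a p.1 p.2⟩, rfl⟩)
  rcases hrange with h | h
  · have h1 : pr ⟨p, (hK p).2 hp⟩ = 0 := by
      have : pr ⟨p, (hK p).2 hp⟩ ∈ LinearMap.range pr := ⟨_, rfl⟩
      rw [h] at this
      exact this
    have h2 := hpr (h1.trans (map_zero pr).symm)
    exact congrArg Subtype.val h2
  · exfalso
    let e : K ≃ₗ[k] X := LinearEquiv.ofBijective pr ⟨hpr, LinearMap.range_eq_top.1 h⟩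
    have he0 : ∀ x : X, (e.symm x).1 0 = x := fun x => e.apply_symm_apply x
    have hφ : ∀ i, ∃ c : k, ∀ x, (e.symm x).1 i = c • x := fun i => by
      refine KFschur U X hl hX hmin
        (((LinearMap.proj i).comp K.subtype).comp e.symm.toLinearMap) fun a x => ?_
      have h1 : e.symm ⟨U.l a x.1, hl a x.1 x.2⟩ = ⟨_, hKst a (e.symm x).1 (e.symm x).2⟩ := by
        rw [LinearEquiv.symm_apply_eq]
        refine Subtype.ext ?_
        have := he0 x
        show U.l a x.1 = U.l a ((e.symm x).1 0).1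
        rw [this]
      show (e.symm _).1 i = _
      rw [h1]
      rfl
    choose c hc using hφ
    haveI : Nontrivial X := Submodule.nontrivial_iff_ne_bot.2 hX
    have hc0 : c 0 = 1 := by
      obtain ⟨x, hx⟩ := exists_ne (0 : X)
      have h1 : (c 0 - 1) • x = 0 := by
        rw [sub_smul, one_smul, ← hc 0 x, he0, sub_self]
      exact sub_eq_zero.1 ((smul_eq_zero.1 h1).resolve_right hx)
    have hsum : ∑ i, c i • q i = 0 := by
      refine Subtype.ext (LinearMap.ext fun x => ?_)
      have h1 := (hK _).1 (e.symm x).2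
      simp only [hc, map_smul] at h1
      simpa using h1
    have h3 := Fintype.linearIndependent_iff.1 hq c hsum 0
    rw [hc0] at h3
    exact one_ne_zero h3

/-- Over an algebraically closed field, the simple bimodules are external tensor products:
let `P` be a simple left submodule of `U`, and `Q = Hom_R(P, U)`; the endomorphisms of `P` are the
scalars, so `P ⊗ Q → U` is injective, and its image is a sub-bimodule. -/
theorem Simple.ext [IsAlgClosed k] (U : KBi k R R') (hU : Module.Finite k U.M) (h : U.Simple) :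
    ∃ (P : KBi k R k) (Q : KBi k k R'), Module.Finite k P.M ∧ Module.Finite k Q.M ∧
      P.Simple ∧ Q.Simple ∧ Iso (ext P Q) U := by
  obtain ⟨hnt, hsim⟩ := h
  -- a minimal stable subspace
  obtain ⟨X, hl, hX, hXmin⟩ : ∃ X : Submodule k U.M, ∃ hl : (∀ a, ∀ x ∈ X, U.l a x ∈ X), X ≠ ⊥ ∧
      ∀ Y : Submodule k U.M, (∀ a, ∀ x ∈ Y, U.l a x ∈ Y) → Y ≤ X → Y = ⊥ ∨ Y = X := by
    classical
    have hex : ∃ n, ∃ X : Submodule k U.M, (∀ a, ∀ x ∈ X, U.l a x ∈ X) ∧ X ≠ ⊥ ∧
        Module.finrank k X = n :=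
      ⟨_, ⊤, fun _ _ _ => Submodule.mem_top, top_ne_bot, rfl⟩
    obtain ⟨X, hl, hX, hn⟩ := Nat.find_spec hex
    refine ⟨X, hl, hX, fun Y hY hYX => ?_⟩
    by_cases hb : Y = ⊥
    · exact Or.inl hb
    · refine Or.inr (Submodule.eq_of_le_of_finrank_le hYX ?_)
      rw [hn]
      exact Nat.find_min' hex ⟨Y, hY, hb, rfl⟩
  have hmin : ∀ Y : Submodule k X,
      (∀ (a : R) (x : X), x ∈ Y → (⟨U.l a x.1, hl a x.1 x.2⟩ : X) ∈ Y) → Y = ⊥ ∨ Y = ⊤ := by
    intro Y hY
    rcases hXmin (Y.map X.subtype) (by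
      rintro a x ⟨y, hy, rfl⟩
      exact ⟨_, hY a y hy, rfl⟩) (Submodule.map_subtype_le X Y) with h1 | h1
    · exact Or.inl (Submodule.map_injective_of_injective X.injective_subtype
        (h1.trans (Submodule.map_bot _).symm))
    · refine Or.inr (eq_top_iff.2 fun x _ => ?_)
      have h2 : (x : U.M) ∈ Y.map X.subtype := by
        rw [h1]
        exact x.2
      obtain ⟨y, hy, hyx⟩ := h2
      rwa [← Subtype.ext (a1 := y) (a2 := x) hyx]
  haveI : Nontrivial X := Submodule.nontrivial_iff_ne_bot.2 hX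
  let ev : TensorProduct k X (KFH U X hl) →ₗ[k] U.M :=
    TensorProduct.lift ((LinearMap.id (R := k) (M := X →ₗ[k] U.M)).flip.compl₂ (KFH U X hl).subtype)
  have hev : ∀ x q, ev (x ⊗ₜ q) = q.1 x := fun x q => rfl
  -- images are sub-bimodules
  have himg : ∀ Y : Submodule k (KFH U X hl),
      (∀ (b : R') (q : KFH U X hl), q ∈ Y → KFr U X hl b q ∈ Y) →
      ∀ V : Submodule k U.M, V = Submodule.span k {v | ∃ x : X, ∃ q ∈ Y, q.1 x = v} →
      V = ⊥ ∨ V = ⊤ := by
    intro Y hY V hV
    subst hV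
    refine hsim _ (fun a v hv => ?_) (fun b v hv => ?_)
    · have h1 := Submodule.mem_map_of_mem (f := U.l a) hv
      rw [Submodule.map_span] at h1
      refine Submodule.span_mono ?_ h1
      rintro _ ⟨_, ⟨x, q, hq, rfl⟩, rfl⟩
      exact ⟨⟨U.l a x.1, hl a x.1 x.2⟩, q, hq, q.2 a x⟩
    · have h1 := Submodule.mem_map_of_mem (f := U.r b) hv
      rw [Submodule.map_span] at h1
      refine Submodule.span_mono ?_ h1
      rintro _ ⟨_, ⟨x, q, hq, rfl⟩, rfl⟩
      exact ⟨x, _, hY b q hq, rfl⟩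
  have hinc : X.subtype ∈ KFH U X hl := fun a x => rfl
  have hsurj : Function.Surjective ev := by
    rw [← LinearMap.range_eq_top]
    have h1 := himg ⊤ (fun _ _ _ => Submodule.mem_top) _ rfl
    have h2 : Submodule.span k {v | ∃ x : X, ∃ q ∈ (⊤ : Submodule k (KFH U X hl)), q.1 x = v} ≠
        ⊥ := by
      obtain ⟨x, hx⟩ := exists_ne (0 : X)
      intro hb
      have h3 : (x : U.M) ∈ Submodule.span k
          {v | ∃ x : X, ∃ q ∈ (⊤ : Submodule k (KFH U X hl)), q.1 x = v} :=
        Submodule.subset_span ⟨x, ⟨X.subtype, hinc⟩, Submodule.mem_top, rfl⟩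
      rw [hb, Submodule.mem_bot] at h3
      exact hx (Subtype.ext h3)
    have h3 := h1.resolve_left h2
    rw [eq_top_iff, ← h3, Submodule.span_le]
    rintro _ ⟨x, q, -, rfl⟩
    exact ⟨x ⊗ₜ q, rfl⟩
  have hinj : Function.Injective ev := by
    rw [injective_iff_map_eq_zero]
    intro z hz
    let b := Module.finBasis k (KFH U X hl)
    obtain ⟨p, hp⟩ := TensorProduct.eq_repr_basis_right b z
    have h1 : z = ∑ i, p i ⊗ₜ[k] b i := by
      rw [← hp, Finsupp.sum_fintype]
      intro i
      exact TensorProduct.zero_tmul _ _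
    have h2 : (fun i => p i) = 0 := by
      refine KFinj U X hl hX hmin _ b b.linearIndependent _ ?_
      rw [h1, map_sum] at hz
      exact hz
    rw [h1]
    refine Finset.sum_eq_zero fun i _ => ?_
    rw [show p i = 0 from congrFun h2 i, TensorProduct.zero_tmul]
  let e : TensorProduct k X (KFH U X hl) ≃ₗ[k] U.M := LinearEquiv.ofBijective ev ⟨hinj, hsurj⟩
  refine ⟨KFP U X hl, KFQ U X hl, inferInstanceAs (Module.Finite k X),
    inferInstanceAs (Module.Finite k (KFH U X hl)), ⟨inferInstanceAs (Nontrivial X), ?_⟩,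
    ⟨⟨⟨X.subtype, hinc⟩, 0, fun h0 => ?_⟩, ?_⟩, e, ?_, ?_⟩
  · intro Y hY _
    exact hmin Y hY
  · obtain ⟨x, hx⟩ := exists_ne (0 : X)
    have h1 := congrArg (fun q : KFH U X hl => q.1 x) h0
    exact hx (Subtype.ext h1)
  · intro Y _ hY
    change Submodule k (KFH U X hl) at Y
    rcases himg Y hY _ rfl with h1 | h1
    · refine Or.inl (eq_bot_iff.2 fun q hq => ?_)
      rw [Submodule.mem_bot]
      refine Subtype.ext (LinearMap.ext fun x => ?_)
      have h2 : q.1 x ∈ Submodule.span k {v | ∃ x : X, ∃ q ∈ Y, q.1 x = v} :=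
        Submodule.subset_span ⟨x, q, hq, rfl⟩
      rw [h1, Submodule.mem_bot] at h2
      exact h2
    · refine Or.inr (KFtop e Y ?_)
      rw [← LinearMap.range_eq_top, eq_top_iff, ← h1, Submodule.span_le]
      rintro _ ⟨x, q, hq, rfl⟩
      exact ⟨x ⊗ₜ ⟨q, hq⟩, rfl⟩
  · intro a z
    have h1 : ev.comp (LinearMap.rTensor (KFH U X hl) (KFl U X hl a)) = (U.l a).comp ev :=
      TensorProduct.ext' fun x q => q.2 a x
    exact LinearMap.congr_fun h1 z
  · intro b z
    have h1 : ev.comp (LinearMap.lTensor X (KFr U X hl b)) = (U.r b).comp ev :=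
      TensorProduct.ext' fun x q => rfl
    exact LinearMap.congr_fun h1 z

end KBi

end Pool.Agent.MP_6e5bed_ag_NC
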