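import Pool.Agent.Lib.MP_6e5bed_ag_CV.TDef
import Pool.Agent.Lib.MP_6e5bed_ag_CV.KK

set_option autoImplicit false
set_option linter.unusedSectionVars false

/-!
# The Beilinson resolution, componentwise (NC CURVES)

With bases of the lattices as in `exists_basis_X`: `U` and `U'` are free over `k[t]`, `k[1/t]` or
`k[t,1/t]`, and one is reduced to monomials: for `I, J ⊆ ℤ` among `ℤ_{≥0}`, `ℤ_{≤0}`, `ℤ`, and
`I⁻ = {i | i, i + 1 ∈ I}`, the sequence `0 → k[I⁻ × J⁻] → k[I × J] → k[I + J] → 0`,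
`(i, j) ↦ (i, j + 1) - (i + 1, j)`, `(i, j) ↦ i + j`, is exact (each antidiagonal
`{(i, n - i)} ∩ I × J` is a nonempty interval).
-/

namespace Pool.Agent.MP_6e5bed_ag_NC

open RatFunc
open scoped TensorProduct

universe u

variable {k : Type u} [Field k]

private theorem kt_comm {A B B' : Type u} [AddCommGroup A] [Module k A] [AddCommGroup B]
    [Module k B] [AddCommGroup B'] [Module k B'] (f : B →ₗ[k] B')
    (w : A ⊗[k] B) : TensorProduct.comm k A B' (LinearMap.lTensor A f w) =
      LinearMap.rTensor A f (TensorProduct.comm k A B w) := by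
  induction w using TensorProduct.induction_on with
  | zero => simp only [map_zero]
  | tmul a b => rfl
  | add x y hx hy => simp only [map_add, hx, hy]

private theorem kt_comm' {A B A' : Type u} [AddCommGroup A] [Module k A] [AddCommGroup B]
    [Module k B] [AddCommGroup A'] [Module k A'] (f : A →ₗ[k] A')
    (w : A ⊗[k] B) : TensorProduct.comm k A' B (LinearMap.rTensor B f w) =
      LinearMap.lTensor B f (TensorProduct.comm k A B w) := by
  induction w using TensorProduct.induction_on with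
  | zero => simp only [map_zero]
  | tmul a b => rfl
  | add x y hx hy => simp only [map_add, hx, hy]

section generic

variable {A B : Type u} [AddCommGroup A] [Module k A] [Module (RatFunc k) A]
  [IsScalarTower k (RatFunc k) A] [AddCommGroup B] [Module k B] [Module (RatFunc k) B]
  [IsScalarTower k (RatFunc k) B]

/-- multiplication by an element of the function field -/
private noncomputable def ktm (A : Type u) [AddCommGroup A] [Module k A] [Module (RatFunc k) A]
    [IsScalarTower k (RatFunc k) A] (c : RatFunc k) : A →ₗ[k] A :=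
  (LinearMap.lsmul (RatFunc k) A c).restrictScalars k

private theorem ktm_apply (c : RatFunc k) (v : A) : ktm A c v = c • v := rfl

private theorem kt_fin {θ : RatFunc k} (hθ : Transcendental k θ) (W : Submodule k A)
    [FiniteDimensional k W] (hW : ∀ v ∈ W, θ • v ∈ W) : W = ⊥ := by
  let T : W →ₗ[k] W := (ktm A θ).restrict hW
  have h1 : ∀ (q : Polynomial k) (v : W), ((Polynomial.aeval T q v : W) : A) =
      (Polynomial.aeval θ q) • (v : A) := by
    intro q
    induction q using Polynomial.induction_on' with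
    | add p q hp hq =>
      intro v
      rw [map_add, map_add, LinearMap.add_apply, Submodule.coe_add, hp, hq, add_smul]
    | monomial n a =>
      intro v
      rw [Polynomial.aeval_monomial, Polynomial.aeval_monomial]
      induction n generalizing v with
      | zero =>
        rw [pow_zero, pow_zero, mul_one, mul_one, algebraMap_smul]
        rfl
      | succ n ih =>
        have h2 := ih (T v)
        have h3 : ((T v : W) : A) = θ • (v : A) := rfl
        rw [pow_succ, pow_succ, ← mul_assoc, ← mul_assoc, Module.End.mul_apply, h2, h3, smul_smul]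
  have hint : IsIntegral k T := Algebra.IsIntegral.isIntegral T
  have hne : Polynomial.aeval θ (minpoly k T) ≠ 0 := fun h =>
    hθ ⟨minpoly k T, minpoly.ne_zero hint, h⟩
  rw [eq_bot_iff]
  intro v hv
  have h2 := h1 (minpoly k T) ⟨v, hv⟩
  rw [minpoly.aeval, LinearMap.zero_apply, Submodule.coe_zero] at h2
  exact (smul_eq_zero.1 h2.symm).resolve_left hne

/-- contraction with a functional -/
private noncomputable def ktc (A : Type u) [AddCommGroup A] [Module k A] {Q : Type u}
    [AddCommGroup Q] [Module k Q] (w : A ⊗[k] Q) : Module.Dual k Q →ₗ[k] A :=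
  (TensorProduct.lift (LinearMap.mk₂ k (fun (a : A) (q : Q) =>
    ((LinearMap.toSpanSingleton k A a).comp (Module.Dual.eval k Q q) :
      Module.Dual k Q →ₗ[k] A))
    (fun a a' q => LinearMap.ext fun ψ => smul_add (ψ q) a a')
    (fun c a q => LinearMap.ext fun ψ => smul_comm (ψ q) c a)
    (fun a q q' => LinearMap.ext fun ψ => by
      show ψ (q + q') • a = ψ q • a + ψ q' • a
      rw [map_add, add_smul])
    (fun c a q => LinearMap.ext fun ψ => by
      show ψ (c • q) • a = c • ψ q • a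
      rw [map_smul, smul_eq_mul, mul_smul]))) w

private theorem ktc_tmul {Q : Type u} [AddCommGroup Q] [Module k Q] (a : A) (q : Q)
    (ψ : Module.Dual k Q) : ktc A (a ⊗ₜ[k] q) ψ = ψ q • a := rfl

private theorem ktc_add {Q : Type u} [AddCommGroup Q] [Module k Q] (w w' : A ⊗[k] Q) :
    ktc A (w + w') = ktc A w + ktc A w' := by
  unfold ktc
  rw [map_add]

private theorem ktc_zero {Q : Type u} [AddCommGroup Q] [Module k Q] :
    ktc A (0 : A ⊗[k] Q) = 0 := by
  unfold ktc
  rw [map_zero]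

private theorem ktc_left {Q : Type u} [AddCommGroup Q] [Module k Q] (w : A ⊗[k] Q)
    (c : RatFunc k) (ψ : Module.Dual k Q) :
    ktc A (LinearMap.rTensor Q (ktm A c) w) ψ = c • ktc A w ψ := by
  induction w using TensorProduct.induction_on with
  | zero => rw [map_zero, ktc_zero, LinearMap.zero_apply, smul_zero]
  | tmul a q =>
    rw [LinearMap.rTensor_tmul, ktc_tmul, ktc_tmul, ktm_apply, smul_comm]
  | add x y hx hy =>
    rw [map_add, ktc_add, ktc_add, LinearMap.add_apply, LinearMap.add_apply, hx, hy, smul_add]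

private theorem ktc_right {Q : Type u} [AddCommGroup Q] [Module k Q] (w : A ⊗[k] Q)
    (τ : Q →ₗ[k] Q) (ψ : Module.Dual k Q) :
    ktc A (LinearMap.lTensor A τ w) ψ = ktc A w (ψ.comp τ) := by
  induction w using TensorProduct.induction_on with
  | zero => rw [map_zero, ktc_zero, LinearMap.zero_apply, LinearMap.zero_apply]
  | tmul a q => rfl
  | add x y hx hy =>
    rw [map_add, ktc_add, ktc_add, LinearMap.add_apply, LinearMap.add_apply, hx, hy]

private theorem ktc_fin {Q : Type u} [AddCommGroup Q] [Module k Q] (w : A ⊗[k] Q) :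
    FiniteDimensional k (LinearMap.range (ktc A w)) := by
  have key : ∃ W : Submodule k A, FiniteDimensional k W ∧ LinearMap.range (ktc A w) ≤ W := by
    induction w using TensorProduct.induction_on with
    | zero =>
      refine ⟨⊥, inferInstance, ?_⟩
      rw [ktc_zero, LinearMap.range_zero]
    | tmul a q =>
      refine ⟨Submodule.span k {a}, inferInstance, ?_⟩
      rintro _ ⟨ψ, rfl⟩
      rw [ktc_tmul]
      exact Submodule.smul_mem _ _ (Submodule.mem_span_singleton_self a)
    | add x y hx hy =>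
      obtain ⟨W, hW, h1⟩ := hx
      obtain ⟨W', hW', h2⟩ := hy
      refine ⟨W ⊔ W', inferInstance, ?_⟩
      rintro _ ⟨ψ, rfl⟩
      rw [ktc_add, LinearMap.add_apply]
      exact Submodule.add_mem_sup (h1 ⟨ψ, rfl⟩) (h2 ⟨ψ, rfl⟩)
  obtain ⟨W, hW, hle⟩ := key
  exact Submodule.finiteDimensional_of_le hle

private theorem ktc_sep {Q : Type u} [AddCommGroup Q] [Module k Q] (w : A ⊗[k] Q)
    (h : ∀ ψ, ktc A w ψ = 0) : w = 0 := by
  classical
  let b := Module.Basis.ofVectorSpace k Q
  have h1 : ∀ (w : A ⊗[k] Q) (i), TensorProduct.equivFinsuppOfBasisRight b w i =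
      ktc A w (b.coord i) := by
    intro w i
    induction w using TensorProduct.induction_on with
    | zero => rw [map_zero, ktc_zero]; rfl
    | tmul a q =>
      rw [TensorProduct.equivFinsuppOfBasisRight_apply_tmul_apply, ktc_tmul]
      rfl
    | add x y hx hy => rw [map_add, ktc_add, Finsupp.add_apply, hx, hy, LinearMap.add_apply]
  apply (TensorProduct.equivFinsuppOfBasisRight (M := A) b).injective
  rw [map_zero]
  ext i
  rw [h1, h]
  rfl

/-- Lemma B -/
private theorem kt_B {θ : RatFunc k} (hθ : Transcendental k θ) {Q : Type u} [AddCommGroup Q]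
    [Module k Q] (τ : Q →ₗ[k] Q) (w : A ⊗[k] Q)
    (h : LinearMap.rTensor Q (ktm A θ) w = LinearMap.lTensor A τ w) : w = 0 := by
  have hf := ktc_fin w
  have hbot : LinearMap.range (ktc A w) = ⊥ := by
    refine kt_fin hθ _ ?_
    rintro _ ⟨ψ, rfl⟩
    rw [← ktc_left, h, ktc_right]
    exact ⟨_, rfl⟩
  refine ktc_sep w fun ψ => ?_
  have h1 : ktc A w ψ ∈ LinearMap.range (ktc A w) := ⟨ψ, rfl⟩
  rw [hbot] at h1
  exact h1

/-- Lemma C -/
private theorem kt_C {θ : RatFunc k} (hθ : Transcendental k θ) (U : Submodule k B)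
    (hU : ∀ v ∈ U, θ • v ∈ U) (w : A ⊗[k] B)
    (h : LinearMap.rTensor B (ktm A θ) w - LinearMap.lTensor A (ktm B θ) w ∈
      LinearMap.range (LinearMap.lTensor A U.subtype)) :
    w ∈ LinearMap.range (LinearMap.lTensor A U.subtype) := by
  have hex : Function.Exact (LinearMap.lTensor A U.subtype) (LinearMap.lTensor A U.mkQ) :=
    lTensor_exact A (LinearMap.exact_subtype_mkQ U) U.mkQ_surjective
  have hU' : U ≤ U.comap (ktm B θ) := hU
  have hmk : U.mkQ ∘ₗ ktm B θ = U.mapQ U (ktm B θ) hU' ∘ₗ U.mkQ := LinearMap.ext fun _ => rfl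
  have h0 : LinearMap.lTensor A U.mkQ w = 0 := by
    refine kt_B hθ (U.mapQ U (ktm B θ) hU') _ ?_
    have h1 := (hex _).2 h
    rw [map_sub, sub_eq_zero] at h1
    have h2 : LinearMap.lTensor A U.mkQ (LinearMap.rTensor B (ktm A θ) w) =
        LinearMap.rTensor (B ⧸ U) (ktm A θ) (LinearMap.lTensor A U.mkQ w) := by
      rw [← LinearMap.comp_apply, ← LinearMap.comp_apply, LinearMap.lTensor_comp_rTensor,
        LinearMap.rTensor_comp_lTensor]
    have h3 : LinearMap.lTensor A U.mkQ (LinearMap.lTensor A (ktm B θ) w) =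
        LinearMap.lTensor A (U.mapQ U (ktm B θ) hU') (LinearMap.lTensor A U.mkQ w) := by
      rw [← LinearMap.comp_apply, ← LinearMap.comp_apply, ← LinearMap.lTensor_comp,
        ← LinearMap.lTensor_comp, hmk]
    rw [← h2, ← h3, h1]
  exact (hex _).1 h0

/-- intersections -/
private theorem kt_D (U : Submodule k A) (U' : Submodule k B) (w : A ⊗[k] B)
    (h : w ∈ LinearMap.range (LinearMap.lTensor A U'.subtype))
    (h' : w ∈ LinearMap.range (LinearMap.rTensor B U.subtype)) :
    w ∈ LinearMap.range (TensorProduct.map U.subtype U'.subtype) := by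
  obtain ⟨w1, rfl⟩ := h
  have hex : Function.Exact (LinearMap.rTensor B U.subtype) (LinearMap.rTensor B U.mkQ) :=
    rTensor_exact B (LinearMap.exact_subtype_mkQ U) U.mkQ_surjective
  have hex' : Function.Exact (LinearMap.rTensor U' U.subtype) (LinearMap.rTensor U' U.mkQ) :=
    rTensor_exact U' (LinearMap.exact_subtype_mkQ U) U.mkQ_surjective
  have h1 := (hex _).2 h'
  have h2 : LinearMap.rTensor B U.mkQ (LinearMap.lTensor A U'.subtype w1) =
      LinearMap.lTensor (A ⧸ U) U'.subtype (LinearMap.rTensor U' U.mkQ w1) := by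
    rw [← LinearMap.comp_apply, ← LinearMap.comp_apply, LinearMap.lTensor_comp_rTensor,
      LinearMap.rTensor_comp_lTensor]
  rw [h2] at h1
  have h3 : LinearMap.rTensor U' U.mkQ w1 = 0 :=
    (Module.Flat.lTensor_preserves_injective_linearMap (M := A ⧸ U) U'.subtype
      U'.injective_subtype) (by rw [h1, map_zero])
  obtain ⟨w2, rfl⟩ := (hex' _).1 h3
  refine ⟨w2, ?_⟩
  rw [← LinearMap.comp_apply, LinearMap.lTensor_comp_rTensor]

private theorem kt_lr (c d : RatFunc k) (w : A ⊗[k] B) :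
    LinearMap.lTensor A (ktm B d) (LinearMap.rTensor B (ktm A c) w) =
      LinearMap.rTensor B (ktm A c) (LinearMap.lTensor A (ktm B d) w) := by
  rw [← LinearMap.comp_apply, ← LinearMap.comp_apply, LinearMap.lTensor_comp_rTensor,
    LinearMap.rTensor_comp_lTensor]

private theorem kt_ll (c d : RatFunc k) (w : A ⊗[k] B) :
    LinearMap.lTensor A (ktm B d) (LinearMap.lTensor A (ktm B c) w) =
      LinearMap.lTensor A (ktm B (d * c)) w := by
  have h : ktm B (d * c) = ktm B d ∘ₗ ktm B c := LinearMap.ext fun v => mul_smul d c v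
  rw [h, ← LinearMap.comp_apply, ← LinearMap.lTensor_comp]

private theorem kt_rr (c d : RatFunc k) (w : A ⊗[k] B) :
    LinearMap.rTensor B (ktm A d) (LinearMap.rTensor B (ktm A c) w) =
      LinearMap.rTensor B (ktm A (d * c)) w := by
  have h : ktm A (d * c) = ktm A d ∘ₗ ktm A c := LinearMap.ext fun v => mul_smul d c v
  rw [h, ← LinearMap.comp_apply, ← LinearMap.rTensor_comp]

private theorem ktm_one : ktm A (1 : RatFunc k) = LinearMap.id :=
  LinearMap.ext fun v => one_smul _ v

/-- Lemma E -/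
private theorem kt_E (U : Submodule k B)
    (hs : (∀ v ∈ U, (X : RatFunc k) • v ∈ U) ∨ ∀ v ∈ U, (X : RatFunc k)⁻¹ • v ∈ U)
    (w : A ⊗[k] B)
    (h : LinearMap.rTensor B (ktm A (X : RatFunc k)) w - LinearMap.lTensor A (ktm B X) w ∈
      LinearMap.range (LinearMap.lTensor A U.subtype)) :
    w ∈ LinearMap.range (LinearMap.lTensor A (mn U).subtype) := by
  have hX : (X : RatFunc k) ≠ 0 := RatFunc.X_ne_zero
  have htX : Transcendental k (X : RatFunc k) := RatFunc.transcendental_X
  rcases hs with hs | hs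
  · have h1 := kt_C htX U hs w h
    have h2 : mn U = U := by
      refine le_antisymm (fun v hv => hv.1) fun v hv => ⟨hv, hs v hv⟩
    rw [h2]
    exact h1
  · have htX' : Transcendental k (X : RatFunc k)⁻¹ := fun ha => htX (by
      have := ha.inv
      rwa [inv_inv] at this)
    have h1 : LinearMap.lTensor A (ktm B X) w ∈
        LinearMap.range (LinearMap.lTensor A U.subtype) := by
      refine kt_C htX' U hs _ ?_
      rw [kt_ll, inv_mul_cancel₀ hX, ktm_one, LinearMap.lTensor_id, LinearMap.id_apply]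
      obtain ⟨z, hz⟩ := h
      refine ⟨-LinearMap.rTensor U (ktm A (X : RatFunc k)⁻¹) z, ?_⟩
      have h2 : LinearMap.lTensor A U.subtype (LinearMap.rTensor U (ktm A (X : RatFunc k)⁻¹) z) =
          LinearMap.rTensor B (ktm A (X : RatFunc k)⁻¹) (LinearMap.lTensor A U.subtype z) := by
        rw [← LinearMap.comp_apply, ← LinearMap.comp_apply, LinearMap.lTensor_comp_rTensor,
          LinearMap.rTensor_comp_lTensor]
      rw [map_neg, h2, hz, map_sub, kt_rr, inv_mul_cancel₀ hX, ktm_one, LinearMap.rTensor_id,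
        LinearMap.id_apply, neg_sub]
    obtain ⟨w1, hw1⟩ := h1
    let g : U →ₗ[k] mn U := LinearMap.codRestrict (mn U)
      ((ktm B (X : RatFunc k)⁻¹).comp U.subtype) (fun v => ⟨hs v.1 v.2, by
        show (X : RatFunc k) • (X : RatFunc k)⁻¹ • (v : B) ∈ U
        rw [smul_smul, mul_inv_cancel₀ hX, one_smul]
        exact v.2⟩)
    refine ⟨LinearMap.lTensor A g w1, ?_⟩
    have h3 : (mn U).subtype ∘ₗ g = ktm B (X : RatFunc k)⁻¹ ∘ₗ U.subtype :=
      LinearMap.ext fun _ => rfl
    rw [← LinearMap.comp_apply, ← LinearMap.lTensor_comp, h3, LinearMap.lTensor_comp,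
      LinearMap.comp_apply, hw1, kt_ll, inv_mul_cancel₀ hX, ktm_one, LinearMap.lTensor_id,
      LinearMap.id_apply]

/-- Lemma E, left version -/
private theorem kt_E' (U : Submodule k A)
    (hs : (∀ v ∈ U, (X : RatFunc k) • v ∈ U) ∨ ∀ v ∈ U, (X : RatFunc k)⁻¹ • v ∈ U)
    (w : A ⊗[k] B)
    (h : LinearMap.rTensor B (ktm A (X : RatFunc k)) w - LinearMap.lTensor A (ktm B X) w ∈
      LinearMap.range (LinearMap.rTensor B U.subtype)) :
    w ∈ LinearMap.range (LinearMap.rTensor B (mn U).subtype) := by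
  have h1 : TensorProduct.comm k A B w ∈
      LinearMap.range (LinearMap.lTensor B (mn U).subtype) := by
    refine kt_E (A := B) (B := A) U hs _ ?_
    rw [← kt_comm, ← kt_comm', ← map_sub]
    obtain ⟨z, hz⟩ := h
    refine ⟨-TensorProduct.comm k U B z, ?_⟩
    rw [map_neg, ← kt_comm', hz, ← map_neg, neg_sub]
  obtain ⟨z, hz⟩ := h1
  refine ⟨TensorProduct.comm k B (mn U) z, ?_⟩
  rw [← kt_comm, hz]
  exact (TensorProduct.comm k A B).symm_apply_apply w

/-- the relations -/
private noncomputable def ktd (A B : Type u) [AddCommGroup A] [Module k A] [Module (RatFunc k) A]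
    [IsScalarTower k (RatFunc k) A] [AddCommGroup B] [Module k B] [Module (RatFunc k) B]
    [IsScalarTower k (RatFunc k) B] : A ⊗[k] B →ₗ[k] A ⊗[k] B :=
  LinearMap.rTensor B (ktm A (X : RatFunc k)) - LinearMap.lTensor A (ktm B X)

private theorem kt_bal (c : RatFunc k) : ∀ (x : A) (y : B),
    (c • x) ⊗ₜ[k] y - x ⊗ₜ[k] (c • y) ∈ LinearMap.range (ktd A B) := by
  have hmul : ∀ c d : RatFunc k,
      (∀ (x : A) (y : B), (c • x) ⊗ₜ[k] y - x ⊗ₜ[k] (c • y) ∈ LinearMap.range (ktd A B)) →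
      (∀ (x : A) (y : B), (d • x) ⊗ₜ[k] y - x ⊗ₜ[k] (d • y) ∈ LinearMap.range (ktd A B)) →
      ∀ (x : A) (y : B), ((c * d) • x) ⊗ₜ[k] y - x ⊗ₜ[k] ((c * d) • y) ∈
        LinearMap.range (ktd A B) := by
    intro c d hc hd x y
    have h1 := Submodule.add_mem _ (hc (d • x) y) (hd x (c • y))
    rw [smul_smul, smul_smul, mul_comm d c] at h1
    have h2 : ((c * d) • x) ⊗ₜ[k] y - (d • x) ⊗ₜ[k] (c • y) +
        ((d • x) ⊗ₜ[k] (c • y) - x ⊗ₜ[k] ((c * d) • y)) =
        ((c * d) • x) ⊗ₜ[k] y - x ⊗ₜ[k] ((c * d) • y) := by abel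
    rwa [h2] at h1
  have hinv : ∀ c : RatFunc k, c ≠ 0 →
      (∀ (x : A) (y : B), (c • x) ⊗ₜ[k] y - x ⊗ₜ[k] (c • y) ∈ LinearMap.range (ktd A B)) →
      ∀ (x : A) (y : B), (c⁻¹ • x) ⊗ₜ[k] y - x ⊗ₜ[k] (c⁻¹ • y) ∈ LinearMap.range (ktd A B) := by
    intro c hc0 hc x y
    have h1 := Submodule.neg_mem _ (hc (c⁻¹ • x) (c⁻¹ • y))
    rw [smul_smul, smul_smul, mul_inv_cancel₀ hc0, one_smul, one_smul, neg_sub] at h1
    exact h1
  have hpol : ∀ (p : Polynomial k) (x : A) (y : B),
      ((algebraMap (Polynomial k) (RatFunc k) p) • x) ⊗ₜ[k] y -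
        x ⊗ₜ[k] ((algebraMap (Polynomial k) (RatFunc k) p) • y) ∈
          LinearMap.range (ktd A B) := by
    intro p
    induction p using Polynomial.induction_on' with
    | add p q hp hq =>
      intro x y
      rw [map_add, add_smul, add_smul, TensorProduct.add_tmul, TensorProduct.tmul_add,
        add_sub_add_comm]
      exact Submodule.add_mem _ (hp x y) (hq x y)
    | monomial n a =>
      rw [← Polynomial.C_mul_X_pow_eq_monomial, map_mul, map_pow, RatFunc.algebraMap_C,
        RatFunc.algebraMap_X]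
      refine hmul _ _ ?_ ?_
      · intro x y
        have h1 : ∀ (v : A), (RatFunc.C a : RatFunc k) • v = a • v := fun v =>
          algebraMap_smul (RatFunc k) a v
        have h2 : ∀ (v : B), (RatFunc.C a : RatFunc k) • v = a • v := fun v =>
          algebraMap_smul (RatFunc k) a v
        rw [h1, h2, TensorProduct.smul_tmul, sub_self]
        exact Submodule.zero_mem _
      · induction n with
        | zero =>
          intro x y
          rw [pow_zero, one_smul, one_smul, sub_self]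
          exact Submodule.zero_mem _
        | succ n ih =>
          rw [pow_succ]
          exact hmul _ _ ih fun x y => ⟨x ⊗ₜ[k] y, rfl⟩
  rw [← RatFunc.num_div_denom c, div_eq_mul_inv]
  exact hmul _ _ (hpol _) (hinv _ (RatFunc.algebraMap_ne_zero c.denom_ne_zero) (hpol _))

end generic

section triv

variable {F E : LSp (FExt.triv k)} (V : LP k F.F) (N : LP k E.F) (a b : Fin 3)

private theorem kt_L {F : LSp (FExt.triv k)} (r : (FExt.triv k).L) (v : F.F) :
    r • v = (show RatFunc k from r) • v := by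
  have h := smul_assoc (show RatFunc k from r) (1 : (FExt.triv k).L) v
  rw [one_smul] at h
  rw [← h]
  congr 1
  exact (mul_one r).symm

private theorem kt_t1 {D : FExt k} {F E : LSp D} (c : RatFunc k) (v : F.F) (x : E.F) :
    v ⊗ₜ[D.L] (c • x) = c • (v ⊗ₜ[D.L] x) := by
  rw [TensorProduct.tmul_smul]

private theorem kt_t2 {D : FExt k} {F E : LSp D} (c : RatFunc k) (v : F.F) (x : E.F) :
    (c • v) ⊗ₜ[D.L] x = c • (v ⊗ₜ[D.L] x) := by
  rw [TensorProduct.smul_tmul']

/-- Lemma G -/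
private theorem kt_G (U : Submodule k F.F) (U' : Submodule k E.F) (z : U ⊗[k] U')
    (h : piT U U' z = 0) :
    TensorProduct.map U.subtype U'.subtype z ∈ LinearMap.range (ktd F.F E.F) := by
  let R := LinearMap.range (ktd (k := k) F.F E.F)
  let f : F.F →+ E.F →+ ((F.F ⊗[k] E.F) ⧸ R) :=
    AddMonoidHom.mk' (fun x => AddMonoidHom.mk' (fun y => R.mkQ (x ⊗ₜ[k] y)) (fun y y' => by
      rw [TensorProduct.tmul_add, map_add])) (fun x x' => AddMonoidHom.ext fun y => by
      show R.mkQ ((x + x') ⊗ₜ[k] y) = R.mkQ (x ⊗ₜ[k] y) + R.mkQ (x' ⊗ₜ[k] y)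
      rw [TensorProduct.add_tmul, map_add])
  have hf : ∀ (r : (FExt.triv k).L) (m : F.F) (n : E.F), f (r • m) n = f m (r • n) := by
    intro r m n
    rw [kt_L, kt_L]
    show R.mkQ (_ ⊗ₜ[k] n) = R.mkQ (m ⊗ₜ[k] _)
    rw [← sub_eq_zero, ← map_sub, Submodule.mkQ_apply, Submodule.Quotient.mk_eq_zero]
    exact kt_bal _ m n
  have key : ∀ z : U ⊗[k] U', TensorProduct.liftAddHom f hf (piT U U' z) =
      R.mkQ (TensorProduct.map U.subtype U'.subtype z) := by
    intro z
    induction z using TensorProduct.induction_on with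
    | zero => simp only [map_zero]
    | tmul x y => rfl
    | add x y hx hy => simp only [map_add, hx, hy]
  have h1 := key z
  rw [h, map_zero, eq_comm, Submodule.mkQ_apply, Submodule.Quotient.mk_eq_zero] at h1
  exact h1

private theorem kt_mapinj {A B : Type u} [AddCommGroup A] [Module k A] [AddCommGroup B]
    [Module k B] (U : Submodule k A) (U' : Submodule k B) :
    Function.Injective (TensorProduct.map U.subtype U'.subtype) :=
  TensorProduct.map_injective_of_flat_flat _ _ U.injective_subtype U'.injective_subtype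

private theorem kt_nu {D : FExt k} {F E : LSp D} (U : Submodule k F.F) (U' : Submodule k E.F)
    (w : (mn U) ⊗[k] (mn U')) :
    TensorProduct.map U.subtype U'.subtype (nuT U U' w) =
      -ktd (k := k) F.F E.F (TensorProduct.map (mn U).subtype (mn U').subtype w) := by
  induction w using TensorProduct.induction_on with
  | zero => simp only [map_zero, neg_zero]
  | tmul x y =>
    show TensorProduct.map U.subtype U'.subtype (mnI U x ⊗ₜ[k] mnX U' y -
      mnX U x ⊗ₜ[k] mnI U' y) = -(((X : RatFunc k) • x.1) ⊗ₜ[k] y.1 -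
        x.1 ⊗ₜ[k] ((X : RatFunc k) • y.1))
    rw [map_sub, neg_sub]
    rfl
  | add x y hx hy => rw [map_add, map_add, map_add, map_add, hx, hy, neg_add]

private theorem kt_st {A : Type u} [AddCommGroup A] [Module k A] [Module (RatFunc k) A]
    [IsScalarTower k (RatFunc k) A] (V : LP k A) (a : Fin 3) :
    (∀ v ∈ V.cp a, (X : RatFunc k) • v ∈ V.cp a) ∨
      ∀ v ∈ V.cp a, (X : RatFunc k)⁻¹ • v ∈ V.cp a := by
  fin_cases a
  · exact Or.inl fun v hv => V.X_mem hv
  · exact Or.inr fun v hv => V.Xi_mem hv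
  · exact Or.inl fun v hv => V.N01_X.2 hv

theorem kerT_zero (w : (mn (V.cp a)) ⊗[k] (mn (N.cp b))) :
    piT (V.cp a) (N.cp b) (nuT (V.cp a) (N.cp b) w) = 0 := by
  induction w using TensorProduct.induction_on with
  | zero => simp only [map_zero]
  | tmul x y =>
    show (x.1 ⊗ₜ[(FExt.triv k).L] ((X : RatFunc k) • y.1)) -
      (((X : RatFunc k) • x.1) ⊗ₜ[(FExt.triv k).L] y.1) = 0
    rw [kt_t1, kt_t2, sub_self]
  | add x y hx hy => rw [map_add, map_add, hx, hy, add_zero]

theorem kerT_inj : Function.Injective (nuT (V.cp a) (N.cp b)) := by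
  rw [injective_iff_map_eq_zero]
  intro w hw
  have h1 := kt_nu (V.cp a) (N.cp b) w
  rw [hw, map_zero, eq_comm, neg_eq_zero] at h1
  have h2 : TensorProduct.map (mn (V.cp a)).subtype (mn (N.cp b)).subtype w = 0 := by
    refine kt_B RatFunc.transcendental_X (ktm E.F X) _ ?_
    exact sub_eq_zero.1 h1
  exact kt_mapinj _ _ (by rw [h2, map_zero])

theorem kerT_exact (z : (V.cp a) ⊗[k] (N.cp b)) (h : piT (V.cp a) (N.cp b) z = 0) :
    ∃ w, nuT (V.cp a) (N.cp b) w = z := by
  obtain ⟨w, hw⟩ := kt_G _ _ z h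
  have hl : TensorProduct.map (V.cp a).subtype (N.cp b).subtype z ∈
      LinearMap.range (LinearMap.lTensor F.F (N.cp b).subtype) := by
    refine ⟨LinearMap.rTensor _ (V.cp a).subtype z, ?_⟩
    rw [← LinearMap.comp_apply, LinearMap.lTensor_comp_rTensor]
  have hr : TensorProduct.map (V.cp a).subtype (N.cp b).subtype z ∈
      LinearMap.range (LinearMap.rTensor E.F (V.cp a).subtype) := by
    refine ⟨LinearMap.lTensor _ (N.cp b).subtype z, ?_⟩
    rw [← LinearMap.comp_apply, LinearMap.rTensor_comp_lTensor]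
  have h1 : w ∈ LinearMap.range (LinearMap.lTensor F.F (mn (N.cp b)).subtype) := by
    refine kt_E _ (kt_st N b) w ?_
    have h3 : LinearMap.rTensor E.F (ktm F.F (X : RatFunc k)) w -
        LinearMap.lTensor F.F (ktm E.F X) w =
          TensorProduct.map (V.cp a).subtype (N.cp b).subtype z := hw
    rw [h3]
    exact hl
  have h2 : w ∈ LinearMap.range (LinearMap.rTensor E.F (mn (V.cp a)).subtype) := by
    refine kt_E' _ (kt_st V a) w ?_
    have h3 : LinearMap.rTensor E.F (ktm F.F (X : RatFunc k)) w -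
        LinearMap.lTensor F.F (ktm E.F X) w =
          TensorProduct.map (V.cp a).subtype (N.cp b).subtype z := hw
    rw [h3]
    exact hr
  obtain ⟨w0, hw0⟩ := kt_D _ _ w h1 h2
  refine ⟨-w0, kt_mapinj _ _ ?_⟩
  rw [kt_nu, map_neg, map_neg, neg_neg, hw0, hw]

/-- `piT` is compatible with multiplications preserving the left factor -/
private theorem kt_R1 {D : FExt k} {F E : LSp D} {U W : Submodule k F.F} {U' : Submodule k E.F}
    {c : RatFunc k} (hc : ∀ v ∈ U, c • v ∈ W) {y : F.F ⊗[D.L] E.F}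
    (hy : y ∈ LinearMap.range (piT U U')) : c • y ∈ LinearMap.range (piT W U') := by
  obtain ⟨z, rfl⟩ := hy
  induction z using TensorProduct.induction_on with
  | zero => rw [map_zero, smul_zero]; exact Submodule.zero_mem _
  | tmul x y =>
    rw [piT_tmul, ← kt_t2]
    exact ⟨⟨c • x.1, hc x.1 x.2⟩ ⊗ₜ[k] y, rfl⟩
  | add x y hx hy => rw [map_add, smul_add]; exact Submodule.add_mem _ hx hy

private theorem kt_R2 {D : FExt k} {F E : LSp D} (u : RatFunc k) (P : Submodule (kk k u) F.F)
    (P' : Submodule (kk k u) E.F) (y : F.F ⊗[D.L] E.F) :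
    y ∈ Submodule.span (kk k u) {y : F.F ⊗[D.L] E.F | ∃ v ∈ P, ∃ x ∈ P', y = v ⊗ₜ[D.L] x} ↔
      y ∈ LinearMap.range (piT (P.restrictScalars k) (P'.restrictScalars k)) := by
  constructor
  · intro h
    induction h using Submodule.span_induction with
    | mem y hy =>
      obtain ⟨v, hv, x, hx, rfl⟩ := hy
      exact ⟨(⟨v, hv⟩ : P.restrictScalars k) ⊗ₜ[k] (⟨x, hx⟩ : P'.restrictScalars k), rfl⟩
    | zero => exact Submodule.zero_mem _
    | add x y _ _ hx hy => exact Submodule.add_mem _ hx hy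
    | smul c x _ hx => exact kt_R1 (c := (c : RatFunc k)) (fun v hv => P.smul_mem c hv) hx
  · rintro ⟨z, rfl⟩
    induction z using TensorProduct.induction_on with
    | zero => rw [map_zero]; exact Submodule.zero_mem _
    | tmul x y => exact Submodule.subset_span ⟨x.1, x.2, y.1, y.2, rfl⟩
    | add x y hx hy => rw [map_add]; exact Submodule.add_mem _ hx hy

private theorem kt_R3 {D : FExt k} {F E : LSp D} (V : LP k F.F) (N : LP k E.F)
    (y : F.F ⊗[D.L] E.F) :
    y ∈ (V.tens N).N01 ↔ y ∈ LinearMap.range (piT V.N01 N.N01) := by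
  have hX : (X : RatFunc k) ≠ 0 := RatFunc.X_ne_zero
  constructor
  · rintro ⟨n, hn⟩
    have h1 := (kt_R2 X V.N0 N.N0 _).1 hn
    have hz : ∀ z, piT (V.N0.restrictScalars k) (N.N0.restrictScalars k) z ∈
        LinearMap.range (piT V.N01 N.N01) := by
      intro z
      induction z using TensorProduct.induction_on with
      | zero => rw [map_zero]; exact Submodule.zero_mem _
      | tmul x y =>
        exact ⟨(⟨x.1, V.N0_le x.2⟩ : V.N01) ⊗ₜ[k] (⟨y.1, N.N0_le y.2⟩ : N.N01), rfl⟩
      | add x y hx hy => rw [map_add]; exact Submodule.add_mem _ hx hy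
    have h3 : (X : RatFunc k) ^ n • y ∈ LinearMap.range (piT V.N01 N.N01) := by
      obtain ⟨z, h4⟩ := h1
      have h5 := hz z
      rw [h4] at h5
      exact h5
    have h2 : ((X : RatFunc k) ^ n)⁻¹ • (X : RatFunc k) ^ n • y ∈
        LinearMap.range (piT V.N01 N.N01) := by
      refine kt_R1 (fun v hv => ?_) h3
      have h4 := (V.N01_X_zpow (v := v) (-(n : ℤ))).2 hv
      rwa [zpow_neg, zpow_natCast] at h4
    rwa [smul_smul, inv_mul_cancel₀ (pow_ne_zero n hX), one_smul] at h2
  · rintro ⟨z, rfl⟩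
    induction z using TensorProduct.induction_on with
    | zero => rw [map_zero]; exact Submodule.zero_mem _
    | tmul x y =>
      obtain ⟨n, hn⟩ := x.2
      obtain ⟨m, hm⟩ := y.2
      have h5 : (X : RatFunc k) ^ (n + m) • (x.1 ⊗ₜ[D.L] y.1) =
          ((X : RatFunc k) ^ n • x.1) ⊗ₜ[D.L] ((X : RatFunc k) ^ m • y.1) := by
        rw [pow_add, mul_smul, ← kt_t1, ← kt_t2]
      have h6 : ((X : RatFunc k) ^ n • x.1) ⊗ₜ[D.L] ((X : RatFunc k) ^ m • y.1) ∈
          Submodule.span (kk k X) {y : F.F ⊗[D.L] E.F | ∃ v ∈ V.N0, ∃ x ∈ N.N0,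
            y = v ⊗ₜ[D.L] x} := Submodule.subset_span ⟨_, hn, _, hm, rfl⟩
      rw [← h5] at h6
      exact ⟨n + m, h6⟩
    | add x y hx hy => rw [map_add]; exact Submodule.add_mem _ hx hy

private theorem kt_le {A : Type u} [AddCommGroup A] [Module k A] [Module (RatFunc k) A]
    [IsScalarTower k (RatFunc k) A] (V : LP k A) (a : Fin 3) {v : A} (hv : v ∈ V.cp a) :
    v ∈ V.N01 := by
  fin_cases a
  · exact V.N0_le hv
  · exact V.N1_le hv
  · exact hv

private theorem kt_up {A : Type u} [AddCommGroup A] [Module k A] [Module (RatFunc k) A]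
    [IsScalarTower k (RatFunc k) A] (V : LP k A) {v : A} (hv : v ∈ V.N01) :
    ∃ n : ℕ, ∀ m : ℕ, n ≤ m → ((X : RatFunc k) ^ m • v ∈ V.cp 0 ∧
      (X : RatFunc k) ^ m • v ∈ V.cp 2) ∧ ((X : RatFunc k)⁻¹ ^ m • v ∈ V.cp 1 ∧
        (X : RatFunc k)⁻¹ ^ m • v ∈ V.cp 2) := by
  obtain ⟨n, hn⟩ := V.exists_zpow hv
  exact ⟨n, fun m hm => ⟨⟨(hn m hm).1, V.N0_le (hn m hm).1⟩,
    ⟨(hn m hm).2, V.N1_le (hn m hm).2⟩⟩⟩

private theorem kt_R4 {D : FExt k} {F E : LSp D} (V : LP k F.F) (N : LP k E.F) (a b : Fin 3)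
    (h : ∀ v ∈ V.N01, ∀ x ∈ N.N01, ∃ c : RatFunc k, c ≠ 0 ∧ c • v ∈ V.cp a ∧
      c⁻¹ • x ∈ N.cp b) (y : F.F ⊗[D.L] E.F) :
    y ∈ (V.tens N).N01 ↔ ∃ z, piT (V.cp a) (N.cp b) z = y := by
  rw [kt_R3]
  constructor
  · rintro ⟨z, rfl⟩
    induction z using TensorProduct.induction_on with
    | zero => exact ⟨0, by rw [map_zero, map_zero]⟩
    | tmul x y =>
      obtain ⟨c, hc0, h1, h2⟩ := h x.1 x.2 y.1 y.2
      refine ⟨(⟨_, h1⟩ : V.cp a) ⊗ₜ[k] (⟨_, h2⟩ : N.cp b), ?_⟩
      rw [piT_tmul, piT_tmul]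
      show (c • x.1) ⊗ₜ[D.L] (c⁻¹ • y.1) = x.1 ⊗ₜ[D.L] y.1
      rw [kt_t1, kt_t2, smul_smul, inv_mul_cancel₀ hc0, one_smul]
    | add x y hx hy =>
      obtain ⟨z, hz⟩ := hx
      obtain ⟨z', hz'⟩ := hy
      exact ⟨z + z', by rw [map_add, map_add, hz, hz']⟩
  · rintro ⟨z, rfl⟩
    induction z using TensorProduct.induction_on with
    | zero => rw [map_zero]; exact Submodule.zero_mem _
    | tmul x y =>
      exact ⟨(⟨x.1, kt_le V a x.2⟩ : V.N01) ⊗ₜ[k] (⟨y.1, kt_le N b y.2⟩ : N.N01), rfl⟩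
    | add x y hx hy => rw [map_add]; exact Submodule.add_mem _ hx hy

/-- The image is the corresponding component of the tensor product. -/
theorem kerT_range (y : (F.tens E).F) :
    y ∈ (V.tens N).cp (if a = b then a else 2) ↔ ∃ z, piT (V.cp a) (N.cp b) z = y := by
  have hX : (X : RatFunc k) ≠ 0 := RatFunc.X_ne_zero
  have hup : (∀ v ∈ V.N01, ∀ x ∈ N.N01, ∃ m : ℕ,
      (((X : RatFunc k) ^ m • v ∈ V.cp 0 ∧ (X : RatFunc k) ^ m • v ∈ V.cp 2) ∧
      ((X : RatFunc k)⁻¹ ^ m • v ∈ V.cp 1 ∧ (X : RatFunc k)⁻¹ ^ m • v ∈ V.cp 2)) ∧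
      (((X : RatFunc k) ^ m • x ∈ N.cp 0 ∧ (X : RatFunc k) ^ m • x ∈ N.cp 2) ∧
      ((X : RatFunc k)⁻¹ ^ m • x ∈ N.cp 1 ∧ (X : RatFunc k)⁻¹ ^ m • x ∈ N.cp 2))) := by
    intro v hv x hx
    obtain ⟨n, hn⟩ := kt_up V hv
    obtain ⟨n', hn'⟩ := kt_up N hx
    exact ⟨max n n', hn _ (le_max_left _ _), hn' _ (le_max_right _ _)⟩
  fin_cases a <;> fin_cases b
  · exact kt_R2 X V.N0 N.N0 y
  · refine kt_R4 V N 0 1 (fun v hv x hx => ?_) y
    obtain ⟨m, h1, h2⟩ := hup v hv x hx
    exact ⟨X ^ m, pow_ne_zero _ hX, h1.1.1, by rw [← inv_pow]; exact h2.2.1⟩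
  · refine kt_R4 V N 0 2 (fun v hv x hx => ?_) y
    obtain ⟨m, h1, h2⟩ := hup v hv x hx
    exact ⟨X ^ m, pow_ne_zero _ hX, h1.1.1, by rw [← inv_pow]; exact h2.2.2⟩
  · refine kt_R4 V N 1 0 (fun v hv x hx => ?_) y
    obtain ⟨m, h1, h2⟩ := hup v hv x hx
    exact ⟨X⁻¹ ^ m, pow_ne_zero _ (inv_ne_zero hX), h1.2.1, by
      rw [← inv_pow, inv_inv]; exact h2.1.1⟩
  · exact kt_R2 X⁻¹ V.N1 N.N1 y
  · refine kt_R4 V N 1 2 (fun v hv x hx => ?_) y
    obtain ⟨m, h1, h2⟩ := hup v hv x hx
    exact ⟨X⁻¹ ^ m, pow_ne_zero _ (inv_ne_zero hX), h1.2.1, by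
      rw [← inv_pow, inv_inv]; exact h2.1.2⟩
  · refine kt_R4 V N 2 0 (fun v hv x hx => ?_) y
    obtain ⟨m, h1, h2⟩ := hup v hv x hx
    exact ⟨X⁻¹ ^ m, pow_ne_zero _ (inv_ne_zero hX), h1.2.2, by
      rw [← inv_pow, inv_inv]; exact h2.1.1⟩
  · refine kt_R4 V N 2 1 (fun v hv x hx => ?_) y
    obtain ⟨m, h1, h2⟩ := hup v hv x hx
    exact ⟨X ^ m, pow_ne_zero _ hX, h1.1.2, by rw [← inv_pow]; exact h2.2.1⟩
  · exact kt_R3 V N y

end triv

end Pool.Agent.MP_6e5bed_ag_NC
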