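import Pool.Agent.Lib.MP_6e5bed_ag_CV.TriA

set_option autoImplicit false
set_option linter.unusedSectionVars false

/-!
# Lattice pairs in vector spaces over `k(t)`
-/

namespace Pool.Agent.MP_6e5bed_ag_NC

open RatFunc

universe u

/-- The ring `k[u]` for `u` in `k(t)`. -/
noncomputable def kk (k : Type u) [Field k] (u : RatFunc k) : Subalgebra k (RatFunc k) := Algebra.adjoin k {u}

/-- The element `u` of `k[u]`. -/
noncomputable def kk.gen (k : Type u) [Field k] (u : RatFunc k) : kk k u :=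
  ⟨u, Algebra.subset_adjoin (Set.mem_singleton u)⟩

/-- A lattice pair: a vector bundle on the projective line with generic fibre `E`. -/
structure LP (k : Type u) [Field k] (E : Type u) [AddCommGroup E] [Module (RatFunc k) E] where
  N0 : Submodule (kk k X) E
  N1 : Submodule (kk k X⁻¹) E
  fg0 : N0.FG
  fg1 : N1.FG
  sp0 : Submodule.span (RatFunc k) (N0 : Set E) = ⊤
  sp1 : Submodule.span (RatFunc k) (N1 : Set E) = ⊤
  loc01 : ∀ v ∈ N0, ∃ n : ℕ, ((X : RatFunc k)⁻¹) ^ n • v ∈ N1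
  loc10 : ∀ v ∈ N1, ∃ n : ℕ, (X : RatFunc k) ^ n • v ∈ N0

/-- A bimodule over two algebras, which is a finite-dimensional vector space over `k(t)` such that
the actions are linear. -/
structure GBi (k : Type u) [Field k] (R R' : Type u) [Ring R] [Algebra k R] [Ring R']
    [Algebra k R'] where
  E : Type u
  [grp : AddCommGroup E]
  [mod : Module k E]
  [modK : Module (RatFunc k) E]
  [tow : IsScalarTower k (RatFunc k) E]
  [fin : FiniteDimensional (RatFunc k) E]
  l : R →ₗ[k] E →ₗ[RatFunc k] E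
  r : R' →ₗ[k] E →ₗ[RatFunc k] E
  l_one : ∀ m, l 1 m = m
  r_one : ∀ m, r 1 m = m
  l_mul : ∀ a a' m, l (a * a') m = l a (l a' m)
  r_mul : ∀ b b' m, r (b * b') m = r b' (r b m)
  l_r : ∀ a b m, l a (r b m) = r b (l a m)

attribute [instance] GBi.grp GBi.mod GBi.modK GBi.tow GBi.fin

variable {k : Type u} [Field k]

namespace LP

section

variable {E : Type u} [AddCommGroup E] [Module (RatFunc k) E] [Module k E]
  [IsScalarTower k (RatFunc k) E] (N : LP k E)

theorem X_mem {v : E} (h : v ∈ N.N0) : (X : RatFunc k) • v ∈ N.N0 :=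
  N.N0.smul_mem (kk.gen k X) h

theorem Xi_mem {v : E} (h : v ∈ N.N1) : (X : RatFunc k)⁻¹ • v ∈ N.N1 :=
  N.N1.smul_mem (kk.gen k X⁻¹) h

theorem X_pow_mem {v : E} (h : v ∈ N.N0) (n : ℕ) : (X : RatFunc k) ^ n • v ∈ N.N0 := by
  induction n with
  | zero => simpa using h
  | succ n ih => rw [pow_succ', mul_smul]; exact N.X_mem ih

theorem Xi_pow_mem {v : E} (h : v ∈ N.N1) (n : ℕ) : ((X : RatFunc k)⁻¹) ^ n • v ∈ N.N1 := by
  induction n with
  | zero => simpa using h
  | succ n ih => rw [pow_succ', mul_smul]; exact N.Xi_mem ih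

/-- The localization `N0[1/t] = N1[t]`. -/
noncomputable def N01 : Submodule k E where
  carrier := {v | ∃ n : ℕ, (X : RatFunc k) ^ n • v ∈ N.N0}
  add_mem' := fun {v w} ⟨n, hn⟩ ⟨m, hm⟩ => ⟨n + m, by
    rw [smul_add]
    refine N.N0.add_mem ?_ ?_
    · rw [add_comm, pow_add, mul_smul]
      exact N.X_pow_mem hn m
    · rw [pow_add, mul_smul]
      exact N.X_pow_mem hm n⟩
  zero_mem' := ⟨0, by simp⟩
  smul_mem' := fun c v ⟨n, hn⟩ => ⟨n, by
    rw [smul_comm]
    have : Submodule.restrictScalars k N.N0 ≤ Submodule.restrictScalars k N.N0 := le_rfl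
    exact this (Submodule.smul_mem (Submodule.restrictScalars k N.N0) c hn)⟩

theorem mem_N01 {v : E} : v ∈ N.N01 ↔ ∃ n : ℕ, (X : RatFunc k) ^ n • v ∈ N.N0 := Iff.rfl

theorem mem_N01' {v : E} : v ∈ N.N01 ↔ ∃ n : ℕ, ((X : RatFunc k)⁻¹) ^ n • v ∈ N.N1 := by
  have hX : (X : RatFunc k) ≠ 0 := RatFunc.X_ne_zero
  constructor
  · rintro ⟨n, hn⟩
    obtain ⟨m, hm⟩ := N.loc01 _ hn
    refine ⟨m, ?_⟩
    have h1 := N.Xi_pow_mem hm n
    have h2 : ((X : RatFunc k)⁻¹) ^ n * (((X : RatFunc k)⁻¹) ^ m * (X : RatFunc k) ^ n) =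
        ((X : RatFunc k)⁻¹) ^ m := by
      rw [mul_left_comm, ← mul_pow, inv_mul_cancel₀ hX, one_pow, mul_one]
    rwa [smul_smul, smul_smul, mul_assoc, h2] at h1
  · rintro ⟨n, hn⟩
    obtain ⟨m, hm⟩ := N.loc10 _ hn
    refine ⟨m, ?_⟩
    have h1 := N.X_pow_mem hm n
    have h2 : (X : RatFunc k) ^ n * ((X : RatFunc k) ^ m * ((X : RatFunc k)⁻¹) ^ n) =
        (X : RatFunc k) ^ m := by
      rw [mul_left_comm, ← mul_pow, mul_inv_cancel₀ hX, one_pow, mul_one]
    rwa [smul_smul, smul_smul, mul_assoc, h2] at h1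

theorem N0_le {v : E} (h : v ∈ N.N0) : v ∈ N.N01 := ⟨0, by simpa using h⟩

theorem N1_le {v : E} (h : v ∈ N.N1) : v ∈ N.N01 := N.mem_N01'.2 ⟨0, by simpa using h⟩

/-- multiplication by `t` and `1/t` on the localization -/
theorem N01_X {v : E} : (X : RatFunc k) • v ∈ N.N01 ↔ v ∈ N.N01 := by
  constructor
  · rintro ⟨n, hn⟩
    refine ⟨n + 1, ?_⟩
    rwa [smul_smul, ← pow_succ] at hn
  · rintro ⟨n, hn⟩
    refine ⟨n, ?_⟩
    have h1 := N.X_mem hn
    rwa [smul_smul, mul_comm, ← smul_smul] at h1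

theorem N01_X_zpow {v : E} (n : ℤ) : (X : RatFunc k) ^ n • v ∈ N.N01 ↔ v ∈ N.N01 := by
  have hX : (X : RatFunc k) ≠ 0 := RatFunc.X_ne_zero
  induction n using Int.induction_on with
  | zero => rw [zpow_zero, one_smul]
  | succ i ih =>
    rw [add_comm, zpow_add₀ hX, zpow_one, mul_smul, N.N01_X]
    exact ih
  | pred i ih =>
    have h1 : (X : RatFunc k) * (X : RatFunc k) ^ (-(i : ℤ) - 1) = (X : RatFunc k) ^ (-(i : ℤ)) := by
      rw [← zpow_one_add₀ hX]
      congr 1
      ring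
    rw [← N.N01_X, smul_smul, h1]
    exact ih

/-- An element of the localization is in `N0` after multiplication with a power of `t`, and in
`N1` after multiplication with a power of `1/t`. -/
theorem exists_zpow {v : E} (h : v ∈ N.N01) : ∃ n : ℕ, ∀ m : ℕ, n ≤ m →
    (X : RatFunc k) ^ m • v ∈ N.N0 ∧ ((X : RatFunc k)⁻¹) ^ m • v ∈ N.N1 := by
  obtain ⟨n₁, h₁⟩ := h
  obtain ⟨n₂, h₂⟩ := N.mem_N01'.1 (show v ∈ N.N01 from ⟨n₁, h₁⟩)
  refine ⟨max n₁ n₂, fun m hm => ⟨?_, ?_⟩⟩
  · obtain ⟨j, rfl⟩ := Nat.exists_eq_add_of_le ((le_max_left n₁ n₂).trans hm)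
    rw [add_comm, pow_add, mul_smul]
    exact N.X_pow_mem h₁ j
  · obtain ⟨j, rfl⟩ := Nat.exists_eq_add_of_le ((le_max_right n₁ n₂).trans hm)
    rw [add_comm, pow_add, mul_smul]
    exact N.Xi_pow_mem h₂ j

end

/-- `N ≤ N'` -/
def Le {E : Type u} [AddCommGroup E] [Module (RatFunc k) E] (N N' : LP k E) : Prop :=
  N.N0 ≤ N'.N0 ∧ N.N1 ≤ N'.N1

/-- The actions preserve the lattices. -/
structure Stable {S T : Cosp k} (G : GBi k S.A01 T.A01) (N : LP k G.E) : Prop where
  l0 : ∀ a v, v ∈ N.N0 → G.l (S.r0 a) v ∈ N.N0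
  r0 : ∀ b v, v ∈ N.N0 → G.r (T.r0 b) v ∈ N.N0
  l1 : ∀ a v, v ∈ N.N1 → G.l (S.r1 a) v ∈ N.N1
  r1 : ∀ b v, v ∈ N.N1 → G.r (T.r1 b) v ∈ N.N1
  l01 : ∀ a v, v ∈ N.N01 → G.l a v ∈ N.N01
  r01 : ∀ b v, v ∈ N.N01 → G.r b v ∈ N.N01

/-- The bimodule over cospans given by a stable lattice pair. -/
noncomputable def tri {S T : Cosp k} {G : GBi k S.A01 T.A01} {N : LP k G.E} (h : Stable G N) : Tri S T where
  M0 :=
    { M := N.N0
      l := LinearMap.mk₂ k (fun a v => ⟨G.l (S.r0 a) v.1, h.l0 a v.1 v.2⟩)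
        (fun a a' v => Subtype.ext (by simp)) (fun c a v => Subtype.ext (by simp))
        (fun a v v' => Subtype.ext (by simp)) (fun c a v => Subtype.ext (by
          exact ((G.l (S.r0 a)).restrictScalars k).map_smul c v.1))
      r := LinearMap.mk₂ k (fun b v => ⟨G.r (T.r0 b) v.1, h.r0 b v.1 v.2⟩)
        (fun a a' v => Subtype.ext (by simp)) (fun c a v => Subtype.ext (by simp))
        (fun a v v' => Subtype.ext (by simp)) (fun c a v => Subtype.ext (by
          exact ((G.r (T.r0 a)).restrictScalars k).map_smul c v.1))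
      l_one := fun v => Subtype.ext (by simp [G.l_one])
      r_one := fun v => Subtype.ext (by simp [G.r_one])
      l_mul := fun a a' v => Subtype.ext (by simp [G.l_mul])
      r_mul := fun a a' v => Subtype.ext (by simp [G.r_mul])
      l_r := fun a b v => Subtype.ext (by simp [G.l_r]) }
  M1 :=
    { M := N.N1
      l := LinearMap.mk₂ k (fun a v => ⟨G.l (S.r1 a) v.1, h.l1 a v.1 v.2⟩)
        (fun a a' v => Subtype.ext (by simp)) (fun c a v => Subtype.ext (by simp))
        (fun a v v' => Subtype.ext (by simp)) (fun c a v => Subtype.ext (by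
          exact ((G.l (S.r1 a)).restrictScalars k).map_smul c v.1))
      r := LinearMap.mk₂ k (fun b v => ⟨G.r (T.r1 b) v.1, h.r1 b v.1 v.2⟩)
        (fun a a' v => Subtype.ext (by simp)) (fun c a v => Subtype.ext (by simp))
        (fun a v v' => Subtype.ext (by simp)) (fun c a v => Subtype.ext (by
          exact ((G.r (T.r1 a)).restrictScalars k).map_smul c v.1))
      l_one := fun v => Subtype.ext (by simp [G.l_one])
      r_one := fun v => Subtype.ext (by simp [G.r_one])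
      l_mul := fun a a' v => Subtype.ext (by simp [G.l_mul])
      r_mul := fun a a' v => Subtype.ext (by simp [G.r_mul])
      l_r := fun a b v => Subtype.ext (by simp [G.l_r]) }
  M01 :=
    { M := N.N01
      l := LinearMap.mk₂ k (fun a v => ⟨G.l a v.1, h.l01 a v.1 v.2⟩)
        (fun a a' v => Subtype.ext (by simp)) (fun c a v => Subtype.ext (by simp))
        (fun a v v' => Subtype.ext (by simp)) (fun c a v => Subtype.ext (by
          exact ((G.l a).restrictScalars k).map_smul c v.1))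
      r := LinearMap.mk₂ k (fun b v => ⟨G.r b v.1, h.r01 b v.1 v.2⟩)
        (fun a a' v => Subtype.ext (by simp)) (fun c a v => Subtype.ext (by simp))
        (fun a v v' => Subtype.ext (by simp)) (fun c a v => Subtype.ext (by
          exact ((G.r a).restrictScalars k).map_smul c v.1))
      l_one := fun v => Subtype.ext (by simp [G.l_one])
      r_one := fun v => Subtype.ext (by simp [G.r_one])
      l_mul := fun a a' v => Subtype.ext (by simp [G.l_mul])
      r_mul := fun a a' v => Subtype.ext (by simp [G.r_mul])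
      l_r := fun a b v => Subtype.ext (by simp [G.l_r]) }
  ρ0 :=
    { toFun := fun v => ⟨v.1, N.N0_le v.2⟩
      map_add' := fun _ _ => rfl
      map_smul' := fun _ _ => rfl }
  ρ1 :=
    { toFun := fun v => ⟨v.1, N.N1_le v.2⟩
      map_add' := fun _ _ => rfl
      map_smul' := fun _ _ => rfl }
  ρ0_l := fun _ _ => rfl
  ρ0_r := fun _ _ => rfl
  ρ1_l := fun _ _ => rfl
  ρ1_r := fun _ _ => rfl

end LP

end Pool.Agent.MP_6e5bed_ag_NC
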