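import Pool.Agent.Lib.MP_6e5bed_ag_CV.KK
import Pool.Agent.Lib.MP_6e5bed_ag_CV.LPA

set_option autoImplicit false
set_option linter.unusedSectionVars false

/-!
# Direct sums and twists of lattice pairs (NC CURVES)
-/

namespace Pool.Agent.MP_6e5bed_ag_NC

open RatFunc

universe u

variable {k : Type u} [Field k]

namespace LP

private theorem LPB_X_pow_mem {E : Type u} [AddCommGroup E] [Module (RatFunc k) E] (N : LP k E)
    {v : E} (h : v ∈ N.N0) (n : ℕ) : (X : RatFunc k) ^ n • v ∈ N.N0 := by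
  induction n with
  | zero => simpa using h
  | succ n ih =>
    rw [pow_succ', mul_smul]
    exact N.N0.smul_mem (kk.gen k X) ih

private theorem LPB_Xi_pow_mem {E : Type u} [AddCommGroup E] [Module (RatFunc k) E] (N : LP k E)
    {v : E} (h : v ∈ N.N1) (n : ℕ) : ((X : RatFunc k)⁻¹) ^ n • v ∈ N.N1 := by
  induction n with
  | zero => simpa using h
  | succ n ih =>
    rw [pow_succ', mul_smul]
    exact N.N1.smul_mem (kk.gen k X⁻¹) ih

private theorem LPB_span_prod {E E' : Type u} [AddCommGroup E] [Module (RatFunc k) E]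
    [AddCommGroup E'] [Module (RatFunc k) E'] {s : Set E} {t : Set E'} (hs : (0 : E) ∈ s)
    (ht : (0 : E') ∈ t) (h : Submodule.span (RatFunc k) s = ⊤)
    (h' : Submodule.span (RatFunc k) t = ⊤) :
    Submodule.span (RatFunc k) (s ×ˢ t) = ⊤ := by
  have h1 := LinearMap.span_inl_union_inr (R := RatFunc k) (s := s) (t := t)
  rw [h, h', Submodule.prod_top] at h1
  rw [eq_top_iff, ← h1]
  apply Submodule.span_mono
  rintro x (⟨v, hv, rfl⟩ | ⟨v, hv, rfl⟩)
  · exact ⟨hv, ht⟩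
  · exact ⟨hs, hv⟩

section

variable {E E' : Type u} [AddCommGroup E] [Module (RatFunc k) E] [AddCommGroup E']
  [Module (RatFunc k) E']

/-- The direct sum of lattice pairs. -/
noncomputable def prod (N : LP k E) (N' : LP k E') : LP k (E × E') where
  N0 := N.N0.prod N'.N0
  N1 := N.N1.prod N'.N1
  fg0 := N.fg0.prod N'.fg0
  fg1 := N.fg1.prod N'.fg1
  sp0 := by
    rw [Submodule.prod_coe]
    exact LPB_span_prod N.N0.zero_mem N'.N0.zero_mem N.sp0 N'.sp0
  sp1 := by
    rw [Submodule.prod_coe]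
    exact LPB_span_prod N.N1.zero_mem N'.N1.zero_mem N.sp1 N'.sp1
  loc01 := by
    rintro ⟨v, w⟩ hv
    obtain ⟨hv1, hv2⟩ := Submodule.mem_prod.1 hv
    obtain ⟨n, hn⟩ := N.loc01 v hv1
    obtain ⟨m, hm⟩ := N'.loc01 w hv2
    refine ⟨n + m, Submodule.mem_prod.2 ⟨?_, ?_⟩⟩
    · change ((X : RatFunc k)⁻¹) ^ (n + m) • v ∈ N.N1
      rw [add_comm, pow_add, mul_smul]
      exact LPB_Xi_pow_mem N hn m
    · change ((X : RatFunc k)⁻¹) ^ (n + m) • w ∈ N'.N1
      rw [pow_add, mul_smul]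
      exact LPB_Xi_pow_mem N' hm n
  loc10 := by
    rintro ⟨v, w⟩ hv
    obtain ⟨hv1, hv2⟩ := Submodule.mem_prod.1 hv
    obtain ⟨n, hn⟩ := N.loc10 v hv1
    obtain ⟨m, hm⟩ := N'.loc10 w hv2
    refine ⟨n + m, Submodule.mem_prod.2 ⟨?_, ?_⟩⟩
    · change (X : RatFunc k) ^ (n + m) • v ∈ N.N0
      rw [add_comm, pow_add, mul_smul]
      exact LPB_X_pow_mem N hn m
    · change (X : RatFunc k) ^ (n + m) • w ∈ N'.N0
      rw [pow_add, mul_smul]
      exact LPB_X_pow_mem N' hm n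

/-- The twist `N(n)`: the same lattice at `0`, multiplied by `t ^ n` at infinity. -/
noncomputable def tw (N : LP k E) (n : ℤ) : LP k E where
  N0 := N.N0
  N1 := N.N1.comap (LinearMap.lsmul (RatFunc k) E ((X : RatFunc k) ^ (-n)) |>.restrictScalars
    (kk k X⁻¹))
  fg0 := N.fg0
  fg1 := by
    have hX : (X : RatFunc k) ≠ 0 := RatFunc.X_ne_zero
    have h1 := N.fg1.map (LinearMap.lsmul (RatFunc k) E ((X : RatFunc k) ^ n) |>.restrictScalars
      (kk k X⁻¹))
    convert h1 using 1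
    ext v
    rw [Submodule.mem_comap, Submodule.mem_map]
    constructor
    · intro h
      refine ⟨_, h, ?_⟩
      change (X : RatFunc k) ^ n • (X : RatFunc k) ^ (-n) • v = v
      rw [smul_smul, ← zpow_add₀ hX, add_neg_cancel, zpow_zero, one_smul]
    · rintro ⟨w, hw, rfl⟩
      change (X : RatFunc k) ^ (-n) • (X : RatFunc k) ^ n • w ∈ N.N1
      rw [smul_smul, ← zpow_add₀ hX, neg_add_cancel, zpow_zero, one_smul]
      exact hw
  sp0 := N.sp0
  sp1 := by
    have hX : (X : RatFunc k) ≠ 0 := RatFunc.X_ne_zero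
    rw [eq_top_iff, ← N.sp1, Submodule.span_le]
    intro v hv
    have h1 : (X : RatFunc k) ^ n • v ∈ N.N1.comap (LinearMap.lsmul (RatFunc k) E
        ((X : RatFunc k) ^ (-n)) |>.restrictScalars (kk k X⁻¹)) := by
      rw [Submodule.mem_comap]
      change (X : RatFunc k) ^ (-n) • (X : RatFunc k) ^ n • v ∈ N.N1
      rw [smul_smul, ← zpow_add₀ hX, neg_add_cancel, zpow_zero, one_smul]
      exact hv
    have h2 := Submodule.smul_mem _ ((X : RatFunc k) ^ (-n))
      (Submodule.subset_span (R := RatFunc k) h1)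
    rw [smul_smul, ← zpow_add₀ hX, neg_add_cancel, zpow_zero, one_smul] at h2
    exact h2
  loc01 := by
    intro v hv
    have hX : (X : RatFunc k) ≠ 0 := RatFunc.X_ne_zero
    obtain ⟨m, hm⟩ := N.loc01 v hv
    refine ⟨m + n.natAbs, ?_⟩
    rw [Submodule.mem_comap]
    change (X : RatFunc k) ^ (-n) • ((X : RatFunc k)⁻¹) ^ (m + n.natAbs) • v ∈ N.N1
    have h1 := LPB_Xi_pow_mem N hm (n + n.natAbs).toNat
    have h2 : (X : RatFunc k) ^ (-n) * ((X : RatFunc k)⁻¹) ^ (m + n.natAbs) =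
        ((X : RatFunc k)⁻¹) ^ (n + n.natAbs).toNat * ((X : RatFunc k)⁻¹) ^ m := by
      rw [← pow_add, inv_pow, inv_pow, ← zpow_natCast, ← zpow_natCast, ← zpow_neg, ← zpow_neg,
        ← zpow_add₀ hX]
      congr 1
      have h3 : ((n + n.natAbs).toNat : ℤ) = n + n.natAbs := Int.toNat_of_nonneg (by omega)
      push_cast
      push_cast at h3
      omega
    rw [smul_smul, h2, mul_smul]
    exact h1
  loc10 := by
    intro v hv
    have hX : (X : RatFunc k) ≠ 0 := RatFunc.X_ne_zero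
    obtain ⟨m, hm⟩ := N.loc10 _ hv
    change (X : RatFunc k) ^ m • (X : RatFunc k) ^ (-n) • v ∈ N.N0 at hm
    refine ⟨m + n.natAbs, ?_⟩
    have h1 := LPB_X_pow_mem N hm (n + n.natAbs).toNat
    have h2 : (X : RatFunc k) ^ (m + n.natAbs) = (X : RatFunc k) ^ (n + n.natAbs).toNat *
        ((X : RatFunc k) ^ m * (X : RatFunc k) ^ (-n)) := by
      rw [← zpow_natCast, ← zpow_natCast, ← zpow_natCast, ← zpow_add₀ hX, ← zpow_add₀ hX]
      congr 1
      have h3 : ((n + n.natAbs).toNat : ℤ) = n + n.natAbs := Int.toNat_of_nonneg (by omega)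
      push_cast
      push_cast at h3
      omega
    rw [h2, mul_smul, mul_smul]
    exact h1

theorem mem_tw_N0 (N : LP k E) (n : ℤ) (v : E) : v ∈ (N.tw n).N0 ↔ v ∈ N.N0 := Iff.rfl

theorem mem_tw_N1 (N : LP k E) (n : ℤ) (v : E) :
    v ∈ (N.tw n).N1 ↔ (X : RatFunc k) ^ (-n) • v ∈ N.N1 := Iff.rfl

end

end LP

end Pool.Agent.MP_6e5bed_ag_NC
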