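import Pool.Agent.Lib.MP_6e5bed_ag_CV.LLe

set_option autoImplicit false
set_option linter.unusedSectionVars false

/-!
# Resolutions of lattice pairs (NC CURVES)
-/

namespace Pool.Agent.MP_6e5bed_ag_NC

open RatFunc

universe u

variable {k : Type u} [Field k]

namespace LP

variable {S T : Cosp k} {G G' : GBi k S.A01 T.A01} {A B : DGA k}

private theorem hasRes_iff_le (α : DHom A S.cech) (β : DHom B T.cech)
    (ht : ∀ τ : Tri S T, τ.Tors → HasRes (res α β τ.bim)) {N N' : LP k G.E} (h : Stable G N)
    (h' : Stable G N') (hle : Le N N') :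
    HasRes (res α β (tri h).bim) ↔ HasRes (res α β (tri h').bim) := by
  obtain ⟨τ, hτ, hs⟩ := ses_le h h' hle
  have hs' := hs.res α β
  exact ⟨fun hN => hs'.mid hN (ht τ hτ), fun hN => hs'.left hN (ht τ hτ)⟩

/-- If all torsion bimodules have resolutions, then `N` has one if and only if `N'` has one. -/
theorem hasRes_iff (α : DHom A S.cech) (β : DHom B T.cech)
    (ht : ∀ τ : Tri S T, τ.Tors → HasRes (res α β τ.bim)) {N N' : LP k G.E} (h : Stable G N)
    (h' : Stable G N') : HasRes (res α β (tri h).bim) ↔ HasRes (res α β (tri h').bim) := by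
  obtain ⟨N'', h'', h1, h2⟩ := exists_inf h h'
  exact (hasRes_iff_le α β ht h'' h h1).symm.trans (hasRes_iff_le α β ht h'' h' h2)

end LP

end Pool.Agent.MP_6e5bed_ag_NC
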