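import Mathlib

set_option autoImplicit false

/-!
# Tensor products of central simple algebras (NC CURVES)
-/

namespace Pool.Agent.MP_6e5bed_ag_NC

open scoped TensorProduct

universe u

/-- The tensor product of central simple algebras is simple (`P` finite-dimensional, with centre
`K`). -/
theorem simple_tensor (K : Type u) [Field K] (P Q : Type u) [Ring P] [Algebra K P] [Ring Q]
    [Algebra K Q] [IsSimpleRing P] [IsSimpleRing Q] [FiniteDimensional K P]
    (hP : Subalgebra.center K P = ⊥) : IsSimpleRing (P ⊗[K] Q) := by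
  classical
  let b := Module.Basis.ofVectorSpace K Q
  let B := Algebra.TensorProduct.basis P b
  have hl : ∀ (a : P) (z : P ⊗[K] Q) i, B.repr ((a ⊗ₜ[K] (1 : Q)) * z) i = a * B.repr z i := by
    intro a z i
    induction z using TensorProduct.induction_on with
    | zero => simp
    | tmul p q =>
      rw [Algebra.TensorProduct.tmul_mul_tmul, one_mul, Algebra.TensorProduct.basis_repr_tmul,
        Algebra.TensorProduct.basis_repr_tmul]
      simp [mul_assoc]
    | add x y hx hy => rw [mul_add, map_add, map_add, Finsupp.add_apply, Finsupp.add_apply, hx, hy,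
        mul_add]
  have hr : ∀ (a : P) (z : P ⊗[K] Q) i, B.repr (z * (a ⊗ₜ[K] (1 : Q))) i = B.repr z i * a := by
    intro a z i
    induction z using TensorProduct.induction_on with
    | zero => simp
    | tmul p q =>
      rw [Algebra.TensorProduct.tmul_mul_tmul, mul_one, Algebra.TensorProduct.basis_repr_tmul,
        Algebra.TensorProduct.basis_repr_tmul]
      simp only [Finsupp.smul_apply, Finsupp.mapRange_apply, smul_eq_mul]
      rw [mul_assoc, mul_assoc, Algebra.commutes]
    | add x y hx hy => rw [add_mul, map_add, map_add, Finsupp.add_apply, Finsupp.add_apply, hx, hy,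
        add_mul]
  have : Nontrivial (P ⊗[K] Q) := by
    obtain ⟨i⟩ : Nonempty (Module.Basis.ofVectorSpaceIndex K Q) := by
      by_contra h
      rw [not_nonempty_iff] at h
      have : Subsingleton Q := (b.repr.toEquiv.injective).subsingleton
      exact not_subsingleton Q this
    refine ⟨B i, 0, fun h => ?_⟩
    have h2 : B.repr (B i) i = 0 := by rw [h]; simp
    rw [B.repr_self, Finsupp.single_eq_same] at h2
    exact one_ne_zero h2
  refine IsSimpleRing.of_eq_bot_or_eq_top fun I => ?_
  by_contra hI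
  rw [not_or] at hI
  obtain ⟨hI0, hI1⟩ := hI
  -- a nonzero element with minimal support
  have hex : ∃ n : ℕ, ∃ z ∈ I, z ≠ 0 ∧ (B.repr z).support.card = n := by
    by_contra h
    apply hI0
    rw [eq_bot_iff]
    intro z hz
    rw [TwoSidedIdeal.mem_bot]
    by_contra h0
    exact h ⟨_, z, hz, h0, rfl⟩
  obtain ⟨z, hz, hz0, hzn⟩ := Nat.find_spec hex
  have hmin : ∀ y ∈ I, y ≠ 0 → (B.repr z).support.card ≤ (B.repr y).support.card := by
    intro y hy hy0
    rw [hzn]
    exact Nat.find_min' hex ⟨y, hy, hy0, rfl⟩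
  have hne : (B.repr z).support.Nonempty := by
    rw [Finsupp.support_nonempty_iff]
    intro h
    exact hz0 (B.repr.map_eq_zero_iff.1 h)
  obtain ⟨i0, hi0⟩ := hne
  let J : TwoSidedIdeal P := TwoSidedIdeal.mk'
    {x : P | ∃ y ∈ I, (∀ i, B.repr z i = 0 → B.repr y i = 0) ∧ B.repr y i0 = x}
    ⟨0, I.zero_mem, fun i _ => by simp, by simp⟩
    (by
      rintro _ _ ⟨y, hy, h1, rfl⟩ ⟨y', hy', h1', rfl⟩
      exact ⟨y + y', I.add_mem hy hy', fun i hi => by
        rw [map_add, Finsupp.add_apply, h1 i hi, h1' i hi, add_zero], by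
        rw [map_add, Finsupp.add_apply]⟩)
    (by
      rintro _ ⟨y, hy, h1, rfl⟩
      exact ⟨-y, I.neg_mem hy, fun i hi => by
        rw [map_neg, Finsupp.neg_apply, h1 i hi, neg_zero], by
        rw [map_neg, Finsupp.neg_apply]⟩)
    (by
      rintro a _ ⟨y, hy, h1, rfl⟩
      exact ⟨(a ⊗ₜ[K] (1 : Q)) * y, I.mul_mem_left _ _ hy, fun i hi => by
        rw [hl, h1 i hi, mul_zero], by rw [hl]⟩)
    (by
      rintro _ a ⟨y, hy, h1, rfl⟩
      exact ⟨y * (a ⊗ₜ[K] (1 : Q)), I.mul_mem_right _ _ hy, fun i hi => by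
        rw [hr, h1 i hi, zero_mul], by rw [hr]⟩)
  have hJ : (1 : P) ∈ J := by
    refine IsSimpleRing.one_mem_of_ne_zero_mem J (x := B.repr z i0) (Finsupp.mem_support_iff.1 hi0) ?_
    rw [TwoSidedIdeal.mem_mk']
    exact ⟨z, hz, fun i hi => hi, rfl⟩
  rw [TwoSidedIdeal.mem_mk'] at hJ
  obtain ⟨y, hy, h1, h2⟩ := hJ
  have hy0 : y ≠ 0 := by
    rintro rfl
    rw [map_zero, Finsupp.zero_apply] at h2
    exact one_ne_zero h2.symm
  -- the coefficients of `y` are central
  have hc : ∀ i (a : P), a * B.repr y i = B.repr y i * a := by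
    intro i a
    have h3 : (a ⊗ₜ[K] (1 : Q)) * y - y * (a ⊗ₜ[K] (1 : Q)) = 0 := by
      by_contra h
      have h4 := hmin _ (I.sub_mem (I.mul_mem_left _ _ hy) (I.mul_mem_right _ _ hy)) h
      have h5 : (B.repr ((a ⊗ₜ[K] (1 : Q)) * y - y * (a ⊗ₜ[K] (1 : Q)))).support ⊆
          (B.repr z).support.erase i0 := by
        intro j hj
        rw [Finsupp.mem_support_iff, map_sub, Finsupp.sub_apply, hl, hr] at hj
        rw [Finset.mem_erase, Finsupp.mem_support_iff]
        refine ⟨?_, fun h6 => hj ?_⟩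
        · rintro rfl
          rw [h2] at hj
          simp at hj
        · rw [h1 j h6]
          simp
      have h6 := Finset.card_le_card h5
      rw [Finset.card_erase_of_mem hi0] at h6
      have h7 : 0 < (B.repr z).support.card := Finset.card_pos.2 ⟨i0, hi0⟩
      omega
    have h4 : B.repr ((a ⊗ₜ[K] (1 : Q)) * y - y * (a ⊗ₜ[K] (1 : Q))) i = 0 := by rw [h3]; simp
    rw [map_sub, Finsupp.sub_apply, hl, hr, sub_eq_zero] at h4
    exact h4
  have hc2 : ∀ i, ∃ c : K, algebraMap K P c = B.repr y i := by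
    intro i
    have h3 : B.repr y i ∈ Subalgebra.center K P := by
      rw [Subalgebra.mem_center_iff]
      intro a
      exact hc i a
    rw [hP] at h3
    exact h3
  choose c hc3 using hc2
  obtain ⟨q, hq⟩ : ∃ q : Q, y = 1 ⊗ₜ[K] q := by
    refine ⟨∑ i ∈ (B.repr y).support, c i • b i, ?_⟩
    conv_lhs => rw [← B.linearCombination_repr y]
    rw [Finsupp.linearCombination_apply, Finsupp.sum, TensorProduct.tmul_sum]
    refine Finset.sum_congr rfl fun i _ => ?_
    rw [← hc3 i, Algebra.TensorProduct.basis_apply, TensorProduct.smul_tmul', smul_eq_mul, mul_one,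
      Algebra.algebraMap_eq_smul_one, TensorProduct.smul_tmul]
  have hq0 : q ≠ 0 := by
    rintro rfl
    rw [TensorProduct.tmul_zero] at hq
    exact hy0 hq
  let J' : TwoSidedIdeal Q := TwoSidedIdeal.mk' {x : Q | (1 : P) ⊗ₜ[K] x ∈ I}
    (by rw [Set.mem_setOf_eq, TensorProduct.tmul_zero]; exact I.zero_mem)
    (by
      intro x y hx hy
      rw [Set.mem_setOf_eq] at hx hy ⊢
      rw [TensorProduct.tmul_add]
      exact I.add_mem hx hy)
    (by
      intro x hx
      rw [Set.mem_setOf_eq] at hx ⊢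
      rw [TensorProduct.tmul_neg]
      exact I.neg_mem hx)
    (by
      intro x y hy
      rw [Set.mem_setOf_eq] at hy ⊢
      have := I.mul_mem_left ((1 : P) ⊗ₜ[K] x) _ hy
      rwa [Algebra.TensorProduct.tmul_mul_tmul, one_mul] at this)
    (by
      intro x y hx
      rw [Set.mem_setOf_eq] at hx ⊢
      have := I.mul_mem_right _ ((1 : P) ⊗ₜ[K] y) hx
      rwa [Algebra.TensorProduct.tmul_mul_tmul, one_mul] at this)
  have hJ' : (1 : Q) ∈ J' := by
    refine IsSimpleRing.one_mem_of_ne_zero_mem J' hq0 ?_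
    rw [TwoSidedIdeal.mem_mk', Set.mem_setOf_eq, ← hq]
    exact hy
  rw [TwoSidedIdeal.mem_mk', Set.mem_setOf_eq] at hJ'
  apply hI1
  rw [eq_top_iff]
  intro x _
  have := I.mul_mem_left x _ hJ'
  rwa [← Algebra.TensorProduct.one_def, mul_one] at this

end Pool.Agent.MP_6e5bed_ag_NC
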