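import Pool.Agent.Lib.MP_6e5bed_ag_CV.LemA

set_option autoImplicit false

/-!
# Simple bimodules over a field (NC CURVES)

Linear algebra: `K` a field, `E` a finite-dimensional vector space, `P` and `Q` commuting
subalgebras of `End_K E` (left and right multiplications), `E` simple over `Λ = P Q`. Then `Λ` is
simple; its centre `L` is a field; `P L` and `Q L` are central simple over `L` (a nilpotent ideal of
`P L` generates one of `Λ`; the centre of `P L` is in the centre of `Λ`), and
`P L ⊗_L Q L → Λ` is an isomorphism. Let `L'` be the separable closure of `K` in `L`. In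
`P L ⊗_{L'} Q L` the kernel of the map to `P L ⊗_L Q L = Λ` is a nilpotent ideal (it is generated by
the nilpotent elements `c ⊗ 1 - 1 ⊗ c`), so all simple modules over `P L ⊗_{L'} Q L` are isomorphic
to `E`, in particular the composition factors of `E ⊗_{L'} E`.
-/

namespace Pool.Agent.MP_6e5bed_ag_NC

open scoped TensorProduct

universe u

private theorem lemB_isSimpleRing (K : Type u) [Field K] (E : Type u) [AddCommGroup E] [Module K E]
    [FiniteDimensional K E] [Nontrivial E] (S T : Subalgebra K (Module.End K E))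
    (hc : ∀ p ∈ S, ∀ q ∈ T, p * q = q * p)
    (hs : ∀ U : Submodule K E, (∀ p ∈ S, ∀ x ∈ U, p x ∈ U) → (∀ q ∈ T, ∀ x ∈ U, q x ∈ U) →
      U = ⊥ ∨ U = ⊤) : IsSimpleRing S := by
  classical
  have : IsArtinianRing S := IsArtinianRing.of_finite K S
  have : Module.Finite S E := Module.Finite.of_restrictScalars_finite K S E
  obtain ⟨X, hX⟩ := IsAtomic.exists_atom (Submodule S E)
  rw [← isSimpleModule_iff_isAtom] at hX
  have htop : isotypicComponent S E X = ⊤ := by
    have h := hs ((isotypicComponent S E X).restrictScalars K) (fun p hp x hx =>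
       (isotypicComponent S E X).smul_mem ⟨p, hp⟩ hx) (fun q hq x hx => by
        let q' : E →ₗ[S] E := { toFun := q, map_add' := q.map_add, map_smul' := fun s x =>
          (LinearMap.congr_fun (hc s.1 s.2 q hq) x).symm }
        exact Submodule.IsFullyInvariant.isotypicComponent S E X q' hx)
    rcases h with h | h
    · exfalso
      have h1 := bot_lt_isotypicComponent X
      rw [Submodule.restrictScalars_eq_bot_iff] at h
      exact absurd h h1.ne'
    · rwa [Submodule.restrictScalars_eq_top_iff] at h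
  have hss : IsSemisimpleModule S E := by
    have h1 : IsSemisimpleModule S (⊤ : Submodule S E) := by
      rw [← htop]
      infer_instance
    exact (LinearEquiv.isSemisimpleModule_iff
      (Submodule.topEquiv : (⊤ : Submodule S E) ≃ₗ[S] E)).1 h1
  let b := Module.finBasis K E
  let f : S →ₗ[S] (Fin (Module.finrank K E) → E) := LinearMap.pi fun i =>
    LinearMap.toSpanSingleton S E (b i)
  have hf : Function.Injective f := by
    intro s t hst
    apply Subtype.ext
    refine b.ext fun i => ?_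
    exact congr_fun hst i
  have h2 : isotypicComponent S (Fin (Module.finrank K E) → E) X = ⊤ := by
    rw [eq_top_iff]
    intro e _
    have h3 : e = ∑ i, Pi.single i (e i) := (Finset.univ_sum_single e).symm
    rw [h3]
    refine Submodule.sum_mem _ fun i _ => ?_
    have h4 := LinearMap.le_comap_isotypicComponent (R := S) X
      (LinearMap.single S (fun _ : Fin (Module.finrank K E) => E) i)
    rw [htop] at h4
    exact h4 (Submodule.mem_top (x := e i))
  have h3 : IsIsotypic S S := by
    have h4 : IsIsotypicOfType S (Fin (Module.finrank K E) → E) X :=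
      IsIsotypicOfType.of_isotypicComponent_eq_top h2
    exact h4.isIsotypic.of_injective f hf
  have h4 : IsSemisimpleRing S := IsSemisimpleModule.of_injective f hf
  exact (isSimpleRing_isArtinianRing_iff.mpr ⟨h4, h3, inferInstance⟩).1

private theorem lemB_isoZ (Z A B X E : Type u) [Field Z] [Ring A] [Algebra Z A] [Ring B]
    [Algebra Z B] [IsSimpleRing A] [IsSimpleRing B] [FiniteDimensional Z A] [FiniteDimensional Z B]
    (hA : Subalgebra.center Z A = ⊥) [AddCommGroup X] [Module Z X] [AddCommGroup E] [Module Z E]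
    [Nontrivial X] [Nontrivial E]
    (a : A →ₐ[Z] Module.End Z X) (b : B →ₐ[Z] Module.End Z X) (hab : ∀ s t, Commute (a s) (b t))
    (a' : A →ₐ[Z] Module.End Z E) (b' : B →ₐ[Z] Module.End Z E)
    (hab' : ∀ s t, Commute (a' s) (b' t))
    (hX : ∀ U : Submodule Z X, (∀ s, ∀ x ∈ U, a s x ∈ U) → (∀ t, ∀ x ∈ U, b t x ∈ U) →
      U = ⊥ ∨ U = ⊤)
    (hE : ∀ U : Submodule Z E, (∀ s, ∀ x ∈ U, a' s x ∈ U) → (∀ t, ∀ x ∈ U, b' t x ∈ U) →
      U = ⊥ ∨ U = ⊤) :
    ∃ φ : X ≃ₗ[Z] E, (∀ s x, φ (a s x) = a' s (φ x)) ∧ ∀ t x, φ (b t x) = b' t (φ x) := by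
  have h1 : IsSimpleRing (A ⊗[Z] B) := simple_tensor Z A B hA
  have h2 : IsArtinianRing (A ⊗[Z] B) := IsArtinianRing.of_finite Z _
  let _ : Module (A ⊗[Z] B) X := Module.compHom X (Algebra.TensorProduct.lift a b hab).toRingHom
  let _ : Module (A ⊗[Z] B) E := Module.compHom E (Algebra.TensorProduct.lift a' b' hab').toRingHom
  have e1 : ∀ (r : A ⊗[Z] B) (x : X), r • x = Algebra.TensorProduct.lift a b hab r x :=
    fun _ _ => rfl
  have e2 : ∀ (r : A ⊗[Z] B) (x : E), r • x = Algebra.TensorProduct.lift a' b' hab' r x :=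
    fun _ _ => rfl
  have h3 : IsSimpleModule (A ⊗[Z] B) X := by
    rw [isSimpleModule_iff]
    refine { exists_pair_ne := ⟨⊥, ⊤, bot_ne_top⟩, eq_bot_or_eq_top := fun U => ?_ }
    let U' : Submodule Z X :=
      { carrier := U
        add_mem' := U.add_mem
        zero_mem' := U.zero_mem
        smul_mem' := fun c x hx => by
          have := U.smul_mem (algebraMap Z (A ⊗[Z] B) c) hx
          rw [e1, AlgHom.commutes] at this
          exact this }
    rcases hX U' (fun s x hx => by
      have := U.smul_mem (s ⊗ₜ[Z] (1 : B)) hx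
      rw [e1, Algebra.TensorProduct.lift_tmul, map_one, mul_one] at this
      exact this) (fun t x hx => by
      have := U.smul_mem ((1 : A) ⊗ₜ[Z] t) hx
      rw [e1, Algebra.TensorProduct.lift_tmul, map_one, one_mul] at this
      exact this) with h | h
    · left
      rw [eq_bot_iff]
      intro x hx
      have : x ∈ U' := hx
      rwa [h] at this
    · right
      rw [eq_top_iff]
      intro x _
      have : x ∈ U' := by rw [h]; trivial
      exact this
  have h4 : IsSimpleModule (A ⊗[Z] B) E := by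
    rw [isSimpleModule_iff]
    refine { exists_pair_ne := ⟨⊥, ⊤, bot_ne_top⟩, eq_bot_or_eq_top := fun U => ?_ }
    let U' : Submodule Z E :=
      { carrier := U
        add_mem' := U.add_mem
        zero_mem' := U.zero_mem
        smul_mem' := fun c x hx => by
          have := U.smul_mem (algebraMap Z (A ⊗[Z] B) c) hx
          rw [e2, AlgHom.commutes] at this
          exact this }
    rcases hE U' (fun s x hx => by
      have := U.smul_mem (s ⊗ₜ[Z] (1 : B)) hx
      rw [e2, Algebra.TensorProduct.lift_tmul, map_one, mul_one] at this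
      exact this) (fun t x hx => by
      have := U.smul_mem ((1 : A) ⊗ₜ[Z] t) hx
      rw [e2, Algebra.TensorProduct.lift_tmul, map_one, one_mul] at this
      exact this) with h | h
    · left
      rw [eq_bot_iff]
      intro x hx
      have : x ∈ U' := hx
      rwa [h] at this
    · right
      rw [eq_top_iff]
      intro x _
      have : x ∈ U' := by rw [h]; trivial
      exact this
  obtain ⟨φ⟩ : Nonempty (X ≃ₗ[A ⊗[Z] B] E) := by
    have h5 := IsSimpleRing.isIsotypic (A ⊗[Z] B) (X × E)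
    have i1 := LinearEquiv.ofInjective (LinearMap.inl (A ⊗[Z] B) X E) LinearMap.inl_injective
    have i2 := LinearEquiv.ofInjective (LinearMap.inr (A ⊗[Z] B) X E) LinearMap.inr_injective
    have h6 := IsSimpleModule.congr i1.symm
    have h7 := IsSimpleModule.congr i2.symm
    obtain ⟨e⟩ := h5 (LinearMap.range (LinearMap.inr (A ⊗[Z] B) X E))
      (LinearMap.range (LinearMap.inl (A ⊗[Z] B) X E))
    exact ⟨(i1.trans e).trans i2.symm⟩
  refine ⟨{ φ.toAddEquiv with map_smul' := fun c x => ?_ }, fun s x => ?_, fun t x => ?_⟩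
  · have := φ.map_smul (algebraMap Z (A ⊗[Z] B) c) x
    rw [e1, e2, AlgHom.commutes, AlgHom.commutes] at this
    exact this
  · have := φ.map_smul (s ⊗ₜ[Z] (1 : B)) x
    rw [e1, e2, Algebra.TensorProduct.lift_tmul, Algebra.TensorProduct.lift_tmul, map_one, mul_one,
      map_one, mul_one] at this
    exact this
  · have := φ.map_smul ((1 : A) ⊗ₜ[Z] t) x
    rw [e1, e2, Algebra.TensorProduct.lift_tmul, Algebra.TensorProduct.lift_tmul, map_one, one_mul,
      map_one, one_mul] at this
    exact this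

private theorem lemB_isoL (L Z A B X E : Type u) [Field L] [Field Z] [Algebra L Z]
    [IsPurelyInseparable L Z] [Ring A] [Algebra Z A] [Ring B]
    [Algebra Z B] [Algebra L A] [Algebra L B] [IsScalarTower L Z A] [IsScalarTower L Z B]
    [IsSimpleRing A] [IsSimpleRing B] [FiniteDimensional Z A] [FiniteDimensional Z B]
    (hA : Subalgebra.center Z A = ⊥) [AddCommGroup X] [Module L X] [AddCommGroup E] [Module L E]
    [Nontrivial X] [Nontrivial E]
    (a : A →ₐ[L] Module.End L X) (b : B →ₐ[L] Module.End L X) (hab : ∀ s t, Commute (a s) (b t))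
    (a' : A →ₐ[L] Module.End L E) (b' : B →ₐ[L] Module.End L E)
    (hab' : ∀ s t, Commute (a' s) (b' t))
    (hX : ∀ U : Submodule L X, (∀ s, ∀ x ∈ U, a s x ∈ U) → (∀ t, ∀ x ∈ U, b t x ∈ U) →
      U = ⊥ ∨ U = ⊤)
    (hE : ∀ U : Submodule L E, (∀ s, ∀ x ∈ U, a' s x ∈ U) → (∀ t, ∀ x ∈ U, b' t x ∈ U) →
      U = ⊥ ∨ U = ⊤) :
    ∃ φ : X ≃ₗ[L] E, (∀ s x, φ (a s x) = a' s (φ x)) ∧ ∀ t x, φ (b t x) = b' t (φ x) := by
  -- on a simple bimodule the two actions of `Z` agree
  have key : ∀ (Y : Type u) [AddCommGroup Y] [Module L Y] [Nontrivial Y]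
      (a : A →ₐ[L] Module.End L Y) (b : B →ₐ[L] Module.End L Y)
      (_ : ∀ s t, Commute (a s) (b t))
      (_ : ∀ U : Submodule L Y, (∀ s, ∀ x ∈ U, a s x ∈ U) → (∀ t, ∀ x ∈ U, b t x ∈ U) →
        U = ⊥ ∨ U = ⊤) (c : Z), a (algebraMap Z A c) = b (algebraMap Z B c) := by
    intro Y _ _ _ a b hab hY c
    obtain ⟨q, hq⟩ := ExpChar.exists L
    have : ExpChar (Module.End L Y) q :=
      expChar_of_injective_algebraMap (FaithfulSMul.algebraMap_injective L (Module.End L Y)) q
    obtain ⟨n, y, hy⟩ := IsPurelyInseparable.pow_mem L q c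
    have h1 : (a (algebraMap Z A c) - b (algebraMap Z B c)) ^ q ^ n = 0 := by
      rw [sub_pow_expChar_pow_of_commute _ _ (hab _ _), ← map_pow, ← map_pow, ← map_pow, ← map_pow,
        ← hy, ← IsScalarTower.algebraMap_apply, ← IsScalarTower.algebraMap_apply, AlgHom.commutes,
        AlgHom.commutes, sub_self]
    have h2 : ∀ s, Commute (a s) (a (algebraMap Z A c) - b (algebraMap Z B c)) := fun s =>
      (((Algebra.commute_algebraMap_right c s).map a).sub_right (hab s _))
    have h3 : ∀ t, Commute (b t) (a (algebraMap Z A c) - b (algebraMap Z B c)) := fun t =>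
      ((hab _ t).symm.sub_right ((Algebra.commute_algebraMap_right c t).map b))
    rcases hY (LinearMap.ker (a (algebraMap Z A c) - b (algebraMap Z B c))) (fun s x hx => by
      rw [LinearMap.mem_ker] at hx ⊢
      have h4 := LinearMap.congr_fun (h2 s) x
      rw [Module.End.mul_apply, Module.End.mul_apply, hx, map_zero] at h4
      exact h4.symm) (fun t x hx => by
      rw [LinearMap.mem_ker] at hx ⊢
      have h4 := LinearMap.congr_fun (h3 t) x
      rw [Module.End.mul_apply, Module.End.mul_apply, hx, map_zero] at h4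
      exact h4.symm) with h | h
    · exfalso
      rw [LinearMap.ker_eq_bot] at h
      have h5 : Function.Injective ((a (algebraMap Z A c) - b (algebraMap Z B c)) ^ q ^ n) := by
        rw [Module.End.coe_pow]
        exact h.iterate _
      rw [h1] at h5
      obtain ⟨x, y, hxy⟩ := exists_pair_ne Y
      exact hxy (h5 rfl)
    · rw [LinearMap.ker_eq_top, sub_eq_zero] at h
      exact h
  -- the structures over `Z`
  have ext : ∀ (Y : Type u) [AddCommGroup Y] [Module L Y] [Nontrivial Y]
      (a : A →ₐ[L] Module.End L Y) (b : B →ₐ[L] Module.End L Y)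
      (_ : ∀ s t, Commute (a s) (b t))
      (_ : ∀ U : Submodule L Y, (∀ s, ∀ x ∈ U, a s x ∈ U) → (∀ t, ∀ x ∈ U, b t x ∈ U) →
        U = ⊥ ∨ U = ⊤), ∃ (_ : Module Z Y) (_ : IsScalarTower L Z Y) (α : A →ₐ[Z] Module.End Z Y)
        (β : B →ₐ[Z] Module.End Z Y), (∀ s x, α s x = a s x) ∧ ∀ t x, β t x = b t x := by
    intro Y _ _ _ a b hab hY
    have hk := key Y a b hab hY
    let M : Module Z Y := Module.compHom Y (a.toRingHom.comp (algebraMap Z A))
    have hM : ∀ (c : Z) (x : Y), c • x = a (algebraMap Z A c) x := fun _ _ => rfl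
    have hT : IsScalarTower L Z Y := by
      refine ⟨fun l c x => ?_⟩
      rw [hM, hM, Algebra.smul_def, map_mul, map_mul, ← IsScalarTower.algebraMap_apply,
        AlgHom.commutes, Module.End.mul_apply, Module.algebraMap_end_apply]
    refine ⟨M, hT,
      { toFun := fun s =>
          { toFun := a s, map_add' := (a s).map_add, map_smul' := fun c x => ?_ }
        map_one' := ?_, map_mul' := ?_, map_zero' := ?_, map_add' := ?_, commutes' := ?_ },
      { toFun := fun s =>
          { toFun := b s, map_add' := (b s).map_add, map_smul' := fun c x => ?_ }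
        map_one' := ?_, map_mul' := ?_, map_zero' := ?_, map_add' := ?_, commutes' := ?_ },
      fun _ _ => rfl, fun _ _ => rfl⟩
    · rw [RingHom.id_apply, hM, hM, ← Module.End.mul_apply, ← Module.End.mul_apply]
      exact LinearMap.congr_fun ((Algebra.commute_algebraMap_right c s).map a) x
    · ext x
      change a 1 x = x
      rw [map_one, Module.End.one_apply]
    · intro s t
      ext x
      change a (s * t) x = a s (a t x)
      rw [map_mul, Module.End.mul_apply]
    · ext x
      change a 0 x = 0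
      rw [map_zero, LinearMap.zero_apply]
    · intro s t
      ext x
      change a (s + t) x = a s x + a t x
      rw [map_add, LinearMap.add_apply]
    · intro c
      ext x
      rfl
    · rw [RingHom.id_apply, hM, hM, ← Module.End.mul_apply, ← Module.End.mul_apply]
      exact LinearMap.congr_fun (hab _ s).symm x
    · ext x
      change b 1 x = x
      rw [map_one, Module.End.one_apply]
    · intro s t
      ext x
      change b (s * t) x = b s (b t x)
      rw [map_mul, Module.End.mul_apply]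
    · ext x
      change b 0 x = 0
      rw [map_zero, LinearMap.zero_apply]
    · intro s t
      ext x
      change b (s + t) x = b s x + b t x
      rw [map_add, LinearMap.add_apply]
    · intro c
      ext x
      change b (algebraMap Z B c) x = c • x
      rw [hM, hk]
  obtain ⟨mX, tX, α, β, hα, hβ⟩ := ext X a b hab hX
  obtain ⟨mE, tE, α', β', hα', hβ'⟩ := ext E a' b' hab' hE
  obtain ⟨φ, h1, h2⟩ := lemB_isoZ Z A B X E hA α β (fun s t => by
      ext x
      rw [Module.End.mul_apply, Module.End.mul_apply, hα, hβ, hα, hβ]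
      exact LinearMap.congr_fun (hab s t) x) α' β' (fun s t => by
      ext x
      rw [Module.End.mul_apply, Module.End.mul_apply, hα', hβ', hα', hβ']
      exact LinearMap.congr_fun (hab' s t) x) (fun U h1 h2 => by
      rcases hX (U.restrictScalars L) (fun s x hx => by
        have := h1 s x hx
        rwa [hα] at this) (fun t x hx => by
        have := h2 t x hx
        rwa [hβ] at this) with h | h
      · left
        rwa [Submodule.restrictScalars_eq_bot_iff] at h
      · right
        rwa [Submodule.restrictScalars_eq_top_iff] at h) (fun U h1 h2 => by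
      rcases hE (U.restrictScalars L) (fun s x hx => by
        have := h1 s x hx
        rwa [hα'] at this) (fun t x hx => by
        have := h2 t x hx
        rwa [hβ'] at this) with h | h
      · left
        rwa [Submodule.restrictScalars_eq_bot_iff] at h
      · right
        rwa [Submodule.restrictScalars_eq_top_iff] at h)
  refine ⟨φ.restrictScalars L, fun s x => ?_, fun t x => ?_⟩
  · rw [← hα, ← hα']
    exact h1 s x
  · rw [← hβ, ← hβ']
    exact h2 t x

private theorem lemB_step (L A B M E : Type u) [Field L] [Ring A] [Algebra L A] [Ring B]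
    [Algebra L B] [AddCommGroup M] [Module L M] [Module (A ⊗[L] B) M]
    [IsScalarTower L (A ⊗[L] B) M] [AddCommGroup E] [Module L E]
    (a' : A →ₐ[L] Module.End L E) (b' : B →ₐ[L] Module.End L E)
    (hiso : ∀ (X : Type u) [AddCommGroup X] [Module L X] [Nontrivial X]
      (a : A →ₐ[L] Module.End L X) (b : B →ₐ[L] Module.End L X) (_ : ∀ s t, Commute (a s) (b t))
      (_ : ∀ U : Submodule L X, (∀ s, ∀ x ∈ U, a s x ∈ U) → (∀ t, ∀ x ∈ U, b t x ∈ U) →
        U = ⊥ ∨ U = ⊤),
      ∃ φ : X ≃ₗ[L] E, (∀ s x, φ (a s x) = a' s (φ x)) ∧ ∀ t x, φ (b t x) = b' t (φ x))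
    (V W : Submodule (A ⊗[L] B) M) (h : V ⋖ W) :
    ∃ θ : M →ₗ[L] E, (∀ z ∈ W, (θ z = 0 ↔ z ∈ V)) ∧ (∀ x, ∃ z ∈ W, θ z = x) ∧
      (∀ (s : A), ∀ z ∈ W, θ ((s ⊗ₜ[L] (1 : B)) • z) = a' s (θ z)) ∧
      ∀ (t : B), ∀ z ∈ W, θ (((1 : A) ⊗ₜ[L] t) • z) = b' t (θ z) := by
  have hsim : IsSimpleModule (A ⊗[L] B) (W ⧸ V.comap W.subtype) :=
    (covBy_iff_quot_is_simple h.le).1 h
  have hnt : Nontrivial (W ⧸ V.comap W.subtype) := IsSimpleModule.nontrivial (A ⊗[L] B) _
  obtain ⟨φ, h1, h2⟩ := hiso (W ⧸ V.comap W.subtype)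
    ((Algebra.lsmul L L (W ⧸ V.comap W.subtype)).comp
      (Algebra.TensorProduct.includeLeft : A →ₐ[L] A ⊗[L] B))
    ((Algebra.lsmul L L (W ⧸ V.comap W.subtype)).comp
      (Algebra.TensorProduct.includeRight : B →ₐ[L] A ⊗[L] B))
    (fun s t => by
      have : Commute ((Algebra.TensorProduct.includeLeft : A →ₐ[L] A ⊗[L] B) s)
          ((Algebra.TensorProduct.includeRight : B →ₐ[L] A ⊗[L] B) t) := by
        change _ * _ = _ * _
        simp
      exact this.map (Algebra.lsmul L L (W ⧸ V.comap W.subtype)))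
    (fun U hs ht => by
      let U' : Submodule (A ⊗[L] B) (W ⧸ V.comap W.subtype) :=
        { carrier := U
          add_mem' := U.add_mem
          zero_mem' := U.zero_mem
          smul_mem' := fun r x hx => by
            have : ∀ x ∈ U, r • x ∈ U := by
              induction r using TensorProduct.induction_on with
              | zero =>
                intro x _
                rw [zero_smul]
                exact U.zero_mem
              | tmul s t =>
                intro x hx
                have h3 := hs s _ (ht t x hx)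
                have h4 : s ⊗ₜ[L] t = (s ⊗ₜ[L] (1 : B)) * ((1 : A) ⊗ₜ[L] t) := by simp
                rw [h4, mul_smul]
                exact h3
              | add r r' h3 h4 =>
                intro x hx
                rw [add_smul]
                exact U.add_mem (h3 x hx) (h4 x hx)
            exact this x hx }
      rcases hsim.eq_bot_or_eq_top U' with h3 | h3
      · left
        rw [eq_bot_iff]
        intro x hx
        have : x ∈ U' := hx
        rwa [h3] at this
      · right
        rw [eq_top_iff]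
        intro x _
        have : x ∈ U' := by rw [h3]; trivial
        exact this)
  obtain ⟨θ, hθ⟩ := LinearMap.exists_extend (p := W.restrictScalars L)
    (φ.toLinearMap ∘ₗ ((V.comap W.subtype).mkQ.restrictScalars L) : W →ₗ[L] E)
  have hθ' : ∀ z : W, θ z = φ ((V.comap W.subtype).mkQ z) := fun z => LinearMap.congr_fun hθ z
  refine ⟨θ, fun z hz => ?_, fun x => ?_, fun s z hz => ?_, fun t z hz => ?_⟩
  · have h3 := hθ' ⟨z, hz⟩
    change θ z = _ at h3
    rw [h3, LinearEquiv.map_eq_zero_iff, Submodule.mkQ_apply, Submodule.Quotient.mk_eq_zero]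
    exact Iff.rfl
  · obtain ⟨y, hy⟩ := φ.surjective x
    obtain ⟨z, hz⟩ := Submodule.mkQ_surjective _ y
    exact ⟨z, z.2, by rw [hθ', hz, hy]⟩
  · have h3 := hθ' ⟨z, hz⟩
    have h4 := hθ' ((s ⊗ₜ[L] (1 : B)) • (⟨z, hz⟩ : W))
    change θ z = _ at h3
    change θ ((s ⊗ₜ[L] (1 : B)) • z) = _ at h4
    rw [h4, h3, ← h1, map_smul]
    rfl
  · have h3 := hθ' ⟨z, hz⟩
    have h4 := hθ' (((1 : A) ⊗ₜ[L] t) • (⟨z, hz⟩ : W))
    change θ z = _ at h3
    change θ (((1 : A) ⊗ₜ[L] t) • z) = _ at h4
    rw [h4, h3, ← h2, map_smul]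
    rfl

private theorem lemB_flag (L A B M E : Type u) [Field L] [Ring A] [Algebra L A] [Ring B]
    [Algebra L B] [AddCommGroup M] [Module L M] [FiniteDimensional L M] [Nontrivial M]
    [AddCommGroup E] [Module L E]
    (a : A →ₐ[L] Module.End L M) (b : B →ₐ[L] Module.End L M) (hab : ∀ s t, Commute (a s) (b t))
    (a' : A →ₐ[L] Module.End L E) (b' : B →ₐ[L] Module.End L E)
    (hiso : ∀ (X : Type u) [AddCommGroup X] [Module L X] [Nontrivial X]
      (a : A →ₐ[L] Module.End L X) (b : B →ₐ[L] Module.End L X) (_ : ∀ s t, Commute (a s) (b t))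
      (_ : ∀ U : Submodule L X, (∀ s, ∀ x ∈ U, a s x ∈ U) → (∀ t, ∀ x ∈ U, b t x ∈ U) →
        U = ⊥ ∨ U = ⊤),
      ∃ φ : X ≃ₗ[L] E, (∀ s x, φ (a s x) = a' s (φ x)) ∧ ∀ t x, φ (b t x) = b' t (φ x)) :
    ∃ (n : ℕ) (U : ℕ → Submodule L M) (θ : ℕ → M →ₗ[L] E), 0 < n ∧ U 0 = ⊥ ∧ U n = ⊤ ∧
      ∀ i < n, (U i ≤ U (i + 1)) ∧ (∀ z ∈ U (i + 1), (θ i z = 0 ↔ z ∈ U i)) ∧
        (∀ x : E, ∃ z ∈ U (i + 1), θ i z = x) ∧
        (∀ s, (∀ z ∈ U i, a s z ∈ U i) ∧
          ∀ z ∈ U (i + 1), a s z ∈ U (i + 1) ∧ θ i (a s z) = a' s (θ i z)) ∧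
        ∀ t, (∀ z ∈ U i, b t z ∈ U i) ∧
          ∀ z ∈ U (i + 1), b t z ∈ U (i + 1) ∧ θ i (b t z) = b' t (θ i z) := by
  classical
  let m : Module (A ⊗[L] B) M := Module.compHom M (Algebra.TensorProduct.lift a b hab).toRingHom
  have e1 : ∀ (r : A ⊗[L] B) (x : M), r • x = Algebra.TensorProduct.lift a b hab r x :=
    fun _ _ => rfl
  have ea : ∀ s (x : M), a s x = (s ⊗ₜ[L] (1 : B)) • x := fun s x => by
    rw [e1, Algebra.TensorProduct.lift_tmul, map_one, mul_one]
  have eb : ∀ t (x : M), b t x = ((1 : A) ⊗ₜ[L] t) • x := fun s x => by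
    rw [e1, Algebra.TensorProduct.lift_tmul, map_one, one_mul]
  have hT : IsScalarTower L (A ⊗[L] B) M := ⟨fun l r x => by
    rw [e1, e1, map_smul, LinearMap.smul_apply]⟩
  have hA : IsArtinian (A ⊗[L] B) M := isArtinian_of_tower L inferInstance
  have hN : IsNoetherian (A ⊗[L] B) M := isNoetherian_of_tower L inferInstance
  obtain ⟨s, hs0, hs1⟩ := exists_compositionSeries_of_isNoetherian_isArtinian (A ⊗[L] B) M
  have hstep : ∀ i : Fin s.length, ∃ θ : M →ₗ[L] E,
      (∀ z ∈ s i.succ, (θ z = 0 ↔ z ∈ s i.castSucc)) ∧ (∀ x, ∃ z ∈ s i.succ, θ z = x) ∧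
      (∀ (a : A), ∀ z ∈ s i.succ, θ ((a ⊗ₜ[L] (1 : B)) • z) = a' a (θ z)) ∧
      ∀ (t : B), ∀ z ∈ s i.succ, θ (((1 : A) ⊗ₜ[L] t) • z) = b' t (θ z) :=
    fun i => lemB_step L A B M E a' b' hiso (s i.castSucc) (s i.succ) (s.step i)
  choose θ h1 h2 h3 h4 using hstep
  have hn : 0 < s.length := by
    rcases Nat.eq_zero_or_pos s.length with h | h
    · exfalso
      have : s.head = s.last := by
        unfold RelSeries.head RelSeries.last
        congr 1
        apply Fin.ext
        simp [h]
      rw [hs0, hs1] at this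
      exact bot_ne_top this
    · exact h
  refine ⟨s.length, fun i => if h : i < s.length + 1 then (s ⟨i, h⟩).restrictScalars L else ⊤,
    fun i => if h : i < s.length then θ ⟨i, h⟩ else 0, hn, ?_, ?_, fun i hi => ?_⟩
  · simp only [Nat.zero_lt_succ, dite_true]
    have : s ⟨0, Nat.zero_lt_succ _⟩ = ⊥ := hs0
    rw [this]
    rfl
  · simp only [Nat.lt_succ_self, dite_true]
    have : s ⟨s.length, Nat.lt_succ_self _⟩ = ⊤ := hs1
    rw [this]
    rfl
  · have hi1 : i < s.length + 1 := by omega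
    have hi2 : i + 1 < s.length + 1 := by omega
    simp only [hi, hi1, hi2, dite_true]
    refine ⟨fun z hz => (s.step ⟨i, hi⟩).le hz, h1 ⟨i, hi⟩, h2 ⟨i, hi⟩, fun t => ⟨fun z hz => ?_,
      fun z hz => ⟨?_, ?_⟩⟩, fun t => ⟨fun z hz => ?_, fun z hz => ⟨?_, ?_⟩⟩⟩
    · rw [ea]
      exact (s ⟨i, hi1⟩).smul_mem _ hz
    · rw [ea]
      exact (s ⟨i + 1, hi2⟩).smul_mem _ hz
    · rw [ea]
      exact h3 ⟨i, hi⟩ t z hz
    · rw [eb]
      exact (s ⟨i, hi1⟩).smul_mem _ hz
    · rw [eb]
      exact (s ⟨i + 1, hi2⟩).smul_mem _ hz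
    · rw [eb]
      exact h4 ⟨i, hi⟩ t z hz

/-- the centre of the commutant is a field -/
private theorem lemB_field (K : Type u) [Field K] (E : Type u) [AddCommGroup E] [Module K E]
    [FiniteDimensional K E] [Nontrivial E] (P Q : Subalgebra K (Module.End K E))
    (hs : ∀ U : Submodule K E, (∀ p ∈ P, ∀ x ∈ U, p x ∈ U) → (∀ q ∈ Q, ∀ x ∈ U, q x ∈ U) →
      U = ⊥ ∨ U = ⊤) :
    ∃ (Z : Type u) (_ : Field Z) (_ : Algebra K Z) (ι : Z →ₐ[K] Module.End K E),
      ∀ x : Module.End K E, (∃ c, ι c = x) ↔ ((∀ p ∈ P, p * x = x * p) ∧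
        (∀ q ∈ Q, q * x = x * q) ∧ ∀ y : Module.End K E, (∀ p ∈ P, p * y = y * p) →
          (∀ q ∈ Q, q * y = y * q) → y * x = x * y) := by
  classical
  let D : Subalgebra K (Module.End K E) := Subalgebra.centralizer K (P ∪ Q : Set (Module.End K E))
  let Z : Subalgebra K (Module.End K E) := D ⊓ Subalgebra.centralizer K (D : Set (Module.End K E))
  have hD : ∀ x, x ∈ D ↔ (∀ p ∈ P, p * x = x * p) ∧ ∀ q ∈ Q, q * x = x * q := by
    intro x
    rw [Subalgebra.mem_centralizer_iff]
    constructor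
    · intro h
      exact ⟨fun p hp => h p (Or.inl hp), fun q hq => h q (Or.inr hq)⟩
    · rintro ⟨h1, h2⟩ g (hg | hg)
      · exact h1 g hg
      · exact h2 g hg
  have hZ : ∀ x, x ∈ Z ↔ ((∀ p ∈ P, p * x = x * p) ∧
        (∀ q ∈ Q, q * x = x * q) ∧ ∀ y : Module.End K E, (∀ p ∈ P, p * y = y * p) →
          (∀ q ∈ Q, q * y = y * q) → y * x = x * y) := by
    intro x
    rw [Algebra.mem_inf, hD, Subalgebra.mem_centralizer_iff, and_assoc]
    refine and_congr_right fun _ => and_congr_right fun _ => ?_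
    constructor
    · intro h y h1 h2
      exact h y ((hD y).2 ⟨h1, h2⟩)
    · intro h y hy
      exact h y ((hD y).1 hy).1 ((hD y).1 hy).2
  have hF : IsField Z := by
    refine ⟨⟨0, 1, fun h => ?_⟩, fun x y => ?_, fun {c} hc => ?_⟩
    · have := congrArg Subtype.val h
      exact zero_ne_one (α := Module.End K E) this
    · apply Subtype.ext
      have hx := (hZ x.1).1 x.2
      have hy := (hZ y.1).1 y.2
      exact hy.2.2 x.1 hx.1 hx.2.1
    · have hc' := (hZ c.1).1 c.2
      have hc0 : c.1 ≠ 0 := fun h => hc (Subtype.ext h)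
      have hk : LinearMap.ker c.1 = ⊥ := by
        rcases hs (LinearMap.ker c.1) (fun p hp x hx => by
          rw [LinearMap.mem_ker] at hx ⊢
          have := LinearMap.congr_fun (hc'.1 p hp) x
          rw [Module.End.mul_apply, Module.End.mul_apply, hx, map_zero] at this
          exact this.symm) (fun p hp x hx => by
          rw [LinearMap.mem_ker] at hx ⊢
          have := LinearMap.congr_fun (hc'.2.1 p hp) x
          rw [Module.End.mul_apply, Module.End.mul_apply, hx, map_zero] at this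
          exact this.symm) with h | h
        · exact h
        · exact absurd (LinearMap.ker_eq_top.1 h) hc0
      have hu : IsUnit c.1 := (LinearMap.isUnit_iff_ker_eq_bot c.1).2 hk
      obtain ⟨d, hd⟩ := hu
      have hcomm : ∀ y : Module.End K E, y * c.1 = c.1 * y →
          y * (↑d⁻¹ : Module.End K E) = (↑d⁻¹ : Module.End K E) * y := by
        intro y hy
        rw [← hd] at hy
        exact (Commute.units_inv_right (hy : Commute y (d : Module.End K E)))
      refine ⟨⟨(↑d⁻¹ : Module.End K E), (hZ _).2 ⟨fun p hp => hcomm p (hc'.1 p hp),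
        fun p hp => hcomm p (hc'.2.1 p hp), fun y h1 h2 => hcomm y (hc'.2.2 y h1 h2)⟩⟩, ?_⟩
      apply Subtype.ext
      change c.1 * (↑d⁻¹ : Module.End K E) = 1
      rw [← hd]
      exact d.mul_inv
  refine ⟨Z, hF.toField, (inferInstance : Algebra K Z), Z.val, fun x => ?_⟩
  rw [← hZ]
  constructor
  · rintro ⟨c, rfl⟩
    exact c.2
  · intro h
    exact ⟨⟨x, h⟩, rfl⟩

private theorem lemB_core (K L Z : Type u) [Field K] [Field L] [Field Z] [Algebra K L]
    [Algebra K Z] [Algebra L Z] [IsScalarTower K L Z] [IsPurelyInseparable L Z]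
    (E : Type u) [AddCommGroup E] [Module K E] [Module L E] [Module Z E] [IsScalarTower K L E]
    [IsScalarTower K Z E] [IsScalarTower L Z E]
    [FiniteDimensional K E] (P Q : Subalgebra K (Module.End K E))
    (hc : ∀ p ∈ P, ∀ q ∈ Q, p * q = q * p) (hn : Nontrivial E)
    (hs : ∀ U : Submodule K E, (∀ p ∈ P, ∀ x ∈ U, p x ∈ U) → (∀ q ∈ Q, ∀ x ∈ U, q x ∈ U) →
      U = ⊥ ∨ U = ⊤)
    (hι : ∀ x : Module.End K E, (∃ c : Z, Algebra.lsmul K K E c = x) ↔
      ((∀ p ∈ P, p * x = x * p) ∧
        (∀ q ∈ Q, q * x = x * q) ∧ ∀ y : Module.End K E, (∀ p ∈ P, p * y = y * p) →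
          (∀ q ∈ Q, q * y = y * q) → y * x = x * y)) :
    ∃ (n : ℕ)
      (U : ℕ → Submodule K (E ⊗[L] E)) (θ : ℕ → E ⊗[L] E →ₗ[K] E), 0 < n ∧ U 0 = ⊥ ∧ U n = ⊤ ∧
      ∀ i < n, (U i ≤ U (i + 1)) ∧ (∀ z ∈ U (i + 1), (θ i z = 0 ↔ z ∈ U i)) ∧
        (∀ x : E, ∃ z ∈ U (i + 1), θ i z = x) ∧
        (∀ (p : E →ₗ[L] E), p.restrictScalars K ∈ P → (∀ z ∈ U i, p.rTensor E z ∈ U i) ∧
          ∀ z ∈ U (i + 1), p.rTensor E z ∈ U (i + 1) ∧ θ i (p.rTensor E z) = p (θ i z)) ∧
        ∀ (q : E →ₗ[L] E), q.restrictScalars K ∈ Q → (∀ z ∈ U i, q.lTensor E z ∈ U i) ∧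
          ∀ z ∈ U (i + 1), q.lTensor E z ∈ U (i + 1) ∧ θ i (q.lTensor E z) = q (θ i z) := by
  classical
  let ι : Z →ₐ[K] Module.End K E := Algebra.lsmul K K E
  have hιc : ∀ c : Z, (∀ p ∈ P, p * ι c = ι c * p) ∧
        (∀ q ∈ Q, q * ι c = ι c * q) ∧ ∀ y : Module.End K E, (∀ p ∈ P, p * y = y * p) →
          (∀ q ∈ Q, q * y = y * q) → y * ι c = ι c * y := fun c => (hι (ι c)).1 ⟨c, rfl⟩
  let A : Subalgebra K (Module.End K E) := P ⊔ ι.range
  let B : Subalgebra K (Module.End K E) := Q ⊔ ι.range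
  have hPA : P ≤ A := le_sup_left
  have hQB : Q ≤ B := le_sup_left
  have hZA : ∀ c, ι c ∈ A := fun c => (le_sup_right : ι.range ≤ A) ⟨c, rfl⟩
  have hZB : ∀ c, ι c ∈ B := fun c => (le_sup_right : ι.range ≤ B) ⟨c, rfl⟩
  -- a general principle: what commutes with `P` and `ι` commutes with `A`
  have comA : ∀ x : Module.End K E, (∀ p ∈ P, p * x = x * p) → (∀ c, ι c * x = x * ι c) →
      ∀ p ∈ A, p * x = x * p := by
    intro x h1 h2 p hp
    have h3 : A ≤ Subalgebra.centralizer K {x} := by
      refine sup_le (fun p hp => ?_) ?_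
      · rw [Subalgebra.mem_centralizer_iff]
        intro g hg
        rw [Set.mem_singleton_iff] at hg
        rw [hg, h1 p hp]
      · rintro _ ⟨c, rfl⟩
        rw [Subalgebra.mem_centralizer_iff]
        intro g hg
        rw [Set.mem_singleton_iff] at hg
        rw [hg]
        exact (h2 c).symm
    exact ((Subalgebra.mem_centralizer_iff K).1 (h3 hp) x rfl).symm
  have comB : ∀ x : Module.End K E, (∀ p ∈ Q, p * x = x * p) → (∀ c, ι c * x = x * ι c) →
      ∀ p ∈ B, p * x = x * p := by
    intro x h1 h2 p hp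
    have h3 : B ≤ Subalgebra.centralizer K {x} := by
      refine sup_le (fun p hp => ?_) ?_
      · rw [Subalgebra.mem_centralizer_iff]
        intro g hg
        rw [Set.mem_singleton_iff] at hg
        rw [hg, h1 p hp]
      · rintro _ ⟨c, rfl⟩
        rw [Subalgebra.mem_centralizer_iff]
        intro g hg
        rw [Set.mem_singleton_iff] at hg
        rw [hg]
        exact (h2 c).symm
    exact ((Subalgebra.mem_centralizer_iff K).1 (h3 hp) x rfl).symm
  have hιι : ∀ c d, ι c * ι d = ι d * ι c := fun c d => by rw [← map_mul, ← map_mul, mul_comm]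
  have hAι : ∀ x ∈ A, ∀ c, x * ι c = ι c * x := fun x hx c =>
    comA (ι c) (hιc c).1 (fun d => hιι d c) x hx
  have hBι : ∀ x ∈ B, ∀ c, x * ι c = ι c * x := fun x hx c =>
    comB (ι c) (hιc c).2.1 (fun d => hιι d c) x hx
  have hAB : ∀ x ∈ A, ∀ y ∈ B, x * y = y * x := by
    intro x hx y hy
    refine comA y (fun p hp => ?_) (fun c => (hBι y hy c).symm) x hx
    exact (comB p (fun q hq => (hc p hp q hq).symm) (fun c => ((hιc c).1 p hp).symm) y hy).symm
  have hs' : ∀ U : Submodule K E, (∀ p ∈ A, ∀ x ∈ U, p x ∈ U) → (∀ q ∈ B, ∀ x ∈ U, q x ∈ U) →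
      U = ⊥ ∨ U = ⊤ := fun U h1 h2 => hs U (fun p hp => h1 p (hPA hp)) fun q hq => h2 q (hQB hq)
  have sA : IsSimpleRing A := lemB_isSimpleRing K E A B hAB hs'
  have sB : IsSimpleRing B := lemB_isSimpleRing K E B A (fun p hp q hq => (hAB q hq p hp).symm)
    fun U h1 h2 => hs' U h2 h1
  -- algebra structures
  let iA : Z →+* A := (ι.codRestrict A hZA).toRingHom
  let iB : Z →+* B := (ι.codRestrict B hZB).toRingHom
  let zA : Algebra Z A := iA.toAlgebra' fun c x => Subtype.ext (hAι x.1 x.2 c).symm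
  let zB : Algebra Z B := iB.toAlgebra' fun c x => Subtype.ext (hBι x.1 x.2 c).symm
  let lA : Algebra L A := (iA.comp (algebraMap L Z)).toAlgebra' fun c x =>
    Subtype.ext (hAι x.1 x.2 _).symm
  let lB : Algebra L B := (iB.comp (algebraMap L Z)).toAlgebra' fun c x =>
    Subtype.ext (hBι x.1 x.2 _).symm
  have tA : IsScalarTower L Z A := IsScalarTower.of_algebraMap_eq fun _ => rfl
  have tB : IsScalarTower L Z B := IsScalarTower.of_algebraMap_eq fun _ => rfl
  have kA : IsScalarTower K Z A := IsScalarTower.of_algebraMap_eq fun c =>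
    Subtype.ext (ι.commutes c).symm
  have kB : IsScalarTower K Z B := IsScalarTower.of_algebraMap_eq fun c =>
    Subtype.ext (ι.commutes c).symm
  have fA : FiniteDimensional Z A := Module.Finite.of_restrictScalars_finite K Z A
  have fB : FiniteDimensional Z B := Module.Finite.of_restrictScalars_finite K Z B
  have hcen : Subalgebra.center Z A = ⊥ := by
    rw [eq_bot_iff]
    intro x hx
    rw [Subalgebra.mem_center_iff] at hx
    have hx1 : ∀ p ∈ A, p * x.1 = x.1 * p := fun p hp => congrArg Subtype.val (hx ⟨p, hp⟩)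
    obtain ⟨c, hc⟩ := (hι x.1).2 ⟨fun p hp => hx1 p (hPA hp),
      fun q hq => (hAB x.1 x.2 q (hQB hq)).symm, fun y h1 h2 =>
        (comA y h1 (fun c => ((hιc c).2.2 y h1 h2).symm) x.1 x.2).symm⟩
    exact ⟨c, Subtype.ext hc⟩
  -- the actions
  have hιL : ∀ (l : L) (x : E), ι (algebraMap L Z l) x = l • x := fun l x => by
    change (algebraMap L Z l) • x = l • x
    rw [algebraMap_smul]
  let a' : A →ₐ[L] Module.End L E :=
    { toFun := fun s =>
        { toFun := s.1, map_add' := s.1.map_add, map_smul' := fun l x => by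
            rw [RingHom.id_apply, ← hιL, ← hιL]
            exact LinearMap.congr_fun (hAι s.1 s.2 _) x }
      map_one' := rfl, map_mul' := fun _ _ => rfl, map_zero' := rfl, map_add' := fun _ _ => rfl
      commutes' := fun l => by
        ext x
        exact hιL l x }
  let b' : B →ₐ[L] Module.End L E :=
    { toFun := fun s =>
        { toFun := s.1, map_add' := s.1.map_add, map_smul' := fun l x => by
            rw [RingHom.id_apply, ← hιL, ← hιL]
            exact LinearMap.congr_fun (hBι s.1 s.2 _) x }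
      map_one' := rfl, map_mul' := fun _ _ => rfl, map_zero' := rfl, map_add' := fun _ _ => rfl
      commutes' := fun l => by
        ext x
        exact hιL l x }
  have hab' : ∀ s t, Commute (a' s) (b' t) := fun s t => by
    ext x
    exact LinearMap.congr_fun (hAB s.1 s.2 t.1 t.2) x
  have hE : ∀ U : Submodule L E, (∀ s, ∀ x ∈ U, a' s x ∈ U) → (∀ t, ∀ x ∈ U, b' t x ∈ U) →
      U = ⊥ ∨ U = ⊤ := by
    intro U h1 h2
    rcases hs' (U.restrictScalars K) (fun p hp x hx => h1 ⟨p, hp⟩ x hx)
      (fun p hp x hx => h2 ⟨p, hp⟩ x hx) with h | h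
    · left
      rwa [Submodule.restrictScalars_eq_bot_iff] at h
    · right
      rwa [Submodule.restrictScalars_eq_top_iff] at h
  have fE : FiniteDimensional L E := Module.Finite.of_restrictScalars_finite K L E
  have nM : Nontrivial (E ⊗[L] E) := by
    rw [← Module.finrank_pos_iff (R := L), Module.finrank_tensorProduct]
    exact Nat.mul_pos (Module.finrank_pos_iff.2 hn) (Module.finrank_pos_iff.2 hn)
  obtain ⟨n, U, θ, h0, h1, h2, h3⟩ := lemB_flag L A B (E ⊗[L] E) E
    ((Module.End.rTensorAlgHom L E E).comp a') ((Module.End.lTensorAlgHom L E E).comp b')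
    (fun s t => by
      change (a' s).rTensor E ∘ₗ (b' t).lTensor E = (b' t).lTensor E ∘ₗ (a' s).rTensor E
      rw [LinearMap.rTensor_comp_lTensor, LinearMap.lTensor_comp_rTensor]) a' b'
    (fun X _ _ _ a b hab hX => lemB_isoL L Z A B X E hcen a b hab a' b' hab' hX hE)
  refine ⟨n, fun i => (U i).restrictScalars K, fun i => (θ i).restrictScalars K, h0, ?_, ?_,
    fun i hi => ?_⟩
  · simp only [h1]
    rfl
  · simp only [h2]
    rfl
  · obtain ⟨g1, g2, g3, g4, g5⟩ := h3 i hi
    refine ⟨g1, g2, g3, fun p hp => ?_, fun q hq => ?_⟩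
    · exact g4 ⟨p.restrictScalars K, hPA hp⟩
    · exact g5 ⟨q.restrictScalars K, hQB hq⟩


/-- If `E` is simple over the commuting algebras `P` and `Q`, then there are an intermediate field
`L'` of the centre such that `E ⊗_{L'} E` has a filtration by subspaces stable under `P` on the
left factor and `Q` on the right factor with subquotients isomorphic to `E`. -/
theorem flag (K : Type u) [Field K] (E : Type u) [AddCommGroup E] [Module K E]
    [FiniteDimensional K E] (P Q : Subalgebra K (Module.End K E))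
    (hc : ∀ p ∈ P, ∀ q ∈ Q, p * q = q * p) (hn : Nontrivial E)
    (hs : ∀ U : Submodule K E, (∀ p ∈ P, ∀ x ∈ U, p x ∈ U) → (∀ q ∈ Q, ∀ x ∈ U, q x ∈ U) →
      U = ⊥ ∨ U = ⊤) :
    ∃ (L : Type u) (_ : Field L) (_ : Algebra K L) (_ : FiniteDimensional K L)
      (_ : Algebra.IsSeparable K L) (_ : Module L E) (_ : IsScalarTower K L E)
      (_ : ∀ p ∈ P, ∀ (c : L) x, p (c • x) = c • p x)
      (_ : ∀ q ∈ Q, ∀ (c : L) x, q (c • x) = c • q x) (n : ℕ)
      (U : ℕ → Submodule K (E ⊗[L] E)) (θ : ℕ → E ⊗[L] E →ₗ[K] E), 0 < n ∧ U 0 = ⊥ ∧ U n = ⊤ ∧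
      ∀ i < n, (U i ≤ U (i + 1)) ∧ (∀ z ∈ U (i + 1), (θ i z = 0 ↔ z ∈ U i)) ∧
        (∀ x : E, ∃ z ∈ U (i + 1), θ i z = x) ∧
        (∀ (p : E →ₗ[L] E), p.restrictScalars K ∈ P → (∀ z ∈ U i, p.rTensor E z ∈ U i) ∧
          ∀ z ∈ U (i + 1), p.rTensor E z ∈ U (i + 1) ∧ θ i (p.rTensor E z) = p (θ i z)) ∧
        ∀ (q : E →ₗ[L] E), q.restrictScalars K ∈ Q → (∀ z ∈ U i, q.lTensor E z ∈ U i) ∧
          ∀ z ∈ U (i + 1), q.lTensor E z ∈ U (i + 1) ∧ θ i (q.lTensor E z) = q (θ i z) := by
  classical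
  obtain ⟨Z, fZ, aZ, ι, hι⟩ := lemB_field K E P Q hs
  let mZ : Module Z E := Module.compHom E ι.toRingHom
  have hmZ : ∀ (c : Z) (x : E), c • x = ι c x := fun _ _ => rfl
  have tZ : IsScalarTower K Z E := ⟨fun k c x => by
    rw [hmZ, hmZ, map_smul, LinearMap.smul_apply]⟩
  have fiZ : FiniteDimensional K Z :=
    FiniteDimensional.of_injective ι.toLinearMap ι.toRingHom.injective
  have hι' : ∀ x : Module.End K E, (∃ c : Z, Algebra.lsmul K K E c = x) ↔
      ((∀ p ∈ P, p * x = x * p) ∧
        (∀ q ∈ Q, q * x = x * q) ∧ ∀ y : Module.End K E, (∀ p ∈ P, p * y = y * p) →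
          (∀ q ∈ Q, q * y = y * q) → y * x = x * y) := fun x => by
    rw [← hι]
    exact exists_congr fun c => by
      have : (Algebra.lsmul K K E c : Module.End K E) = ι c := by
        ext x
        rfl
      rw [this]
  let L := separableClosure K Z
  have hL : ∀ (l : L) (x : E), l • x = ι (algebraMap L Z l) x := fun _ _ => rfl
  have tL : IsScalarTower K L E := ⟨fun k l x => by
    change ι (k • algebraMap L Z l) x = k • ι (algebraMap L Z l) x
    rw [map_smul, LinearMap.smul_apply]⟩
  obtain ⟨n, U, θ, h⟩ := lemB_core K L Z E P Q hc hn hs hι'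
  refine ⟨L, inferInstance, inferInstance, inferInstance, inferInstance, inferInstance,
    inferInstance, fun p hp c x => ?_, fun q hq c x => ?_, n, U, θ, h⟩
  · rw [hL, hL]
    exact LinearMap.congr_fun (((hι _).1 ⟨_, rfl⟩).1 p hp) x
  · rw [hL, hL]
    exact LinearMap.congr_fun (((hι _).1 ⟨_, rfl⟩).2.1 q hq) x

end Pool.Agent.MP_6e5bed_ag_NC
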