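import Pool.Agent.Lib.MP_6e5bed_ag_CV.CornerA
import Pool.Agent.Lib.MP_6e5bed_ag_CV.LTens
import Pool.Agent.Lib.MP_6e5bed_ag_CV.GCls
import Pool.Agent.Lib.MP_6e5bed_ag_CV.Corner

set_option autoImplicit false
set_option linter.unusedSectionVars false

/-!
# The classes of lattice pairs factor through curves (NC CURVES)
-/

namespace Pool.Agent.MP_6e5bed_ag_NC

open RatFunc LP
open scoped TensorProduct

universe u

variable {k : Type u} [Field k]

/-- The class of a corner factors through the ambient dg algebra. -/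
private theorem mstepA_aux {Good : DGA k → Prop} {A W : DGA k} (hA : Smooth A) (hW : Smooth W)
    (hp : Proper W) (hG : Good W) (φ : NHom A W) {Y : Bim W A} (hY : Y.dg.FinCoh) {Z : Bim A A}
    (hZ : BIso (pull φ Y) Z) : ∃ h : HasRes Z, rcls Z h ∈ JS Good A := by
  have hX : HasRes (pull φ (MP_6e5bed_ag_NC.diag W)) :=
    HasRes.of_finCoh hA hW _ (finCoh_pull φ _ ((proper_iff W).1 hp))
  have hYr : HasRes Y := HasRes.of_finCoh hW hA _ hY
  have ht : HasRes (tb (pull φ (MP_6e5bed_ag_NC.diag W)) Y) := HasRes.tb hp hX hYr (rflat_pull φ)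
  have hbi : BIso (tb (pull φ (MP_6e5bed_ag_NC.diag W)) Y) Z := (pull_tb φ Y).trans hZ
  refine ⟨ht.iso hbi, ?_⟩
  rw [← rcls_iso hbi ht (ht.iso hbi)]
  exact JS.tb hp hG hX hYr (rflat_pull φ) ht

/-- The class of the corner factors through the curve algebra. -/
theorem cls_corner {Good : DGA k → Prop} {A : Cosp k} (hA : Smooth A.cech) {D : FExt k}
    {E : LSp D} {l : LAct A.A01 E} {r : RAct A.A01 E} {N : LP k E.F} (hl : l.St N)
    (hr : r.St N) (hs : Smooth (endCosp N.plus).cech) (hG : Good (endCosp N.plus).cech)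
    (φ : NCosp A (endCosp N.plus)) :
    IsG (JS Good A.cech) ((tensG (endL N.plus) r).corner φ.f01 φ.mul01) 0 := by
  have hY : LP.Stable (S := endCosp N.plus) (T := A) (tensG (endL N.plus) r) (N.plus.tens N) :=
    stable_tens (endL_st N.plus) hr
  obtain ⟨N', h', hiso⟩ := exists_corner φ (tensG (endL N.plus) r) hY
  obtain ⟨h, hm⟩ := mstepA_aux hA hs (proper_end N.plus) hG φ.nhom (LP.finCoh hY) hiso
  refine ⟨N', h', h, ?_⟩
  rw [sub_zero]
  exact hm

end Pool.Agent.MP_6e5bed_ag_NC
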