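import Mathlib

set_option autoImplicit false

/-!
# Simple modules over Azumaya-type algebras over Dedekind domains (NC CURVES)

`R` acts on the `Z`-module `M`; for `v ∈ M` and `f ∈ M'` there are `τ v f ∈ R` and `e f v ∈ Z` with
`(τ v f) w = e f w • v`, `g τ(v, f) = τ(g v, f)`, and `1 = ∑ τ(v_j, f_j)`.
Proof: `P` simple, `Z` acts on `P` by scalars `χ : Z → k` (Schur), `m = ker χ` is a maximal ideal. For
`s ≠ 0` in `P` there is `j` with `τ(v, f_j) s ≠ 0` for some `v`; put `q v = τ(v, f_j) s`; `q` is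
`R`-linear, surjective, `q (m M) = 0`. If `q v = 0`, then
`0 = τ(w, f) q(v) = q (e f v • w) = χ (e f v) q(w)` for all `w`, so `e f v ∈ m` for all `f`,
and `v = ∑ e f_j v • v_j ∈ m M`. Choose `u ∈ m`, `u ∉ m ^ 2`; `(u) = m I`, `m + I = Z`; `b ∈ I`,
`b ≡ 1` modulo `m`; `b m ⊆ (u)`.
-/

namespace Pool.Agent.MP_6e5bed_ag_NC

universe u

/-- Schur: central elements act by scalars on finite-dimensional simple modules. -/
private theorem Morita_schur {k R P : Type u} [Field k] [IsAlgClosed k] [Ring R] [Algebra k R]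
    [AddCommGroup P] [Module k P] [Module.Finite k P] [Module R P] [IsScalarTower k R P]
    [IsSimpleModule R P] (z : R) (hz : ∀ r, z * r = r * z) : ∃ a : k, ∀ p : P, z • p = a • p := by
  have hn : Nontrivial P := IsSimpleModule.nontrivial R P
  have hcomm : ∀ (a : k) (r : R) (p : P), r • a • p = a • r • p := by
    intro a r p
    rw [← algebraMap_smul R a p, ← algebraMap_smul R a (r • p), smul_smul, smul_smul,
      Algebra.commutes]
  let T : P →ₗ[k] P :=
    { toFun := fun p => z • p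
      map_add' := fun p q => smul_add z p q
      map_smul' := fun a p => hcomm a z p }
  obtain ⟨a, ha⟩ := Module.End.exists_eigenvalue T
  obtain ⟨v, hv⟩ := ha.exists_hasEigenvector
  let U : Submodule R P :=
    { carrier := {p | z • p = a • p}
      add_mem' := fun {p q} hp hq => by
        change z • (p + q) = a • (p + q)
        rw [smul_add, smul_add, hp, hq]
      zero_mem' := by
        change z • (0 : P) = a • (0 : P)
        rw [smul_zero, smul_zero]
      smul_mem' := fun r p hp => by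
        change z • r • p = a • r • p
        have hp' : z • p = a • p := hp
        rw [smul_smul, hz, ← smul_smul, hp', hcomm] }
  have hU : U ≠ ⊥ := by
    intro h
    have h1 : v ∈ U := hv.apply_eq_smul
    rw [h, Submodule.mem_bot] at h1
    exact hv.2 h1
  have hU' : U = ⊤ := (IsSimpleOrder.eq_bot_or_eq_top U).resolve_left hU
  refine ⟨a, fun p => ?_⟩
  have h1 : p ∈ U := by
    rw [hU']
    exact Submodule.mem_top
  exact h1

theorem morita {k Z R M M' P : Type u} [Field k] [IsAlgClosed k] [CommRing Z] [Algebra k Z]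
    [IsDedekindDomain Z] (hZ : ¬ IsField Z) [Ring R] [Algebra k R] [AddCommGroup M]
    [Module Z M] [Module k M] [IsScalarTower k Z M] [Module R M] [IsScalarTower k R M]
    (ζ : Z →+* R) (hζ : ∀ c r, ζ c * r = r * ζ c) (hζM : ∀ c (v : M), ζ c • v = c • v)
    (hζk : ∀ c : k, ζ (algebraMap k Z c) = algebraMap k R c)
    [AddCommGroup M'] (τ : M →+ M' →+ R) (e : M' → M → Z)
    (h1 : ∀ v f (w : M), τ v f • w = e f w • v) (h2 : ∀ (g : R) v f, g * τ v f = τ (g • v) f)
    {n : ℕ} (v₀ : Fin n → M) (f₀ : Fin n → M') (h3 : ∑ j, τ (v₀ j) (f₀ j) = 1)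
    [AddCommGroup P] [Module k P] [Module.Finite k P] [Module R P] [IsScalarTower k R P]
    [IsSimpleModule R P] :
    ∃ (u b : Z) (q : M →ₗ[R] P), u ≠ 0 ∧ Function.Surjective q ∧ (∀ v, q (b • v) = q v) ∧
      (∀ v, q (u • v) = 0) ∧ ∀ v, q v = 0 → ∃ w, b • v = u • w := by
  have hn : Nontrivial P := IsSimpleModule.nontrivial R P
  obtain ⟨s, hs⟩ := exists_ne (0 : P)
  have hχ0 : ∀ c : Z, ∃ a : k, ∀ p : P, ζ c • p = a • p := fun c =>
    Morita_schur (ζ c) (hζ c)
  choose χ₀ hχ₀ using hχ0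
  have huniq : ∀ a b : k, a • s = b • s → a = b := fun a b hab => smul_left_injective k hs hab
  let χ : Z →+* k :=
    { toFun := χ₀
      map_one' := huniq _ _ (by rw [← hχ₀, map_one, one_smul, one_smul])
      map_mul' := fun c d => huniq _ _ (by
        rw [← hχ₀, map_mul, mul_smul, hχ₀ d, hχ₀ c, smul_smul])
      map_zero' := huniq _ _ (by rw [← hχ₀, map_zero, zero_smul, zero_smul])
      map_add' := fun c d => huniq _ _ (by
        rw [← hχ₀, map_add, add_smul, hχ₀ d, hχ₀ c, add_smul]) }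
  have hχ : ∀ (c : Z) (p : P), ζ c • p = χ c • p := hχ₀
  have hχk : ∀ a : k, χ (algebraMap k Z a) = a := by
    intro a
    refine huniq _ _ ?_
    rw [← hχ, hζk, algebraMap_smul]
  have hmax : (RingHom.ker χ).IsMaximal :=
    RingHom.ker_isMaximal_of_surjective χ (fun a => ⟨_, hχk a⟩)
  -- the element `s`
  obtain ⟨j, v₁, hv₁⟩ : ∃ j, ∃ v : M, τ v (f₀ j) • s ≠ 0 := by
    by_contra hcon
    push Not at hcon
    apply hs
    rw [← one_smul R s, ← h3, Finset.sum_smul]
    exact Finset.sum_eq_zero fun j _ => hcon j (v₀ j)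
  let q : M →ₗ[R] P :=
    { toFun := fun v => τ v (f₀ j) • s
      map_add' := fun v w => by rw [map_add, AddMonoidHom.add_apply, add_smul]
      map_smul' := fun g v => by rw [← h2, mul_smul, RingHom.id_apply] }
  have hq : ∀ v, q v = τ v (f₀ j) • s := fun v => rfl
  have hqs : Function.Surjective q := by
    rw [← LinearMap.range_eq_top]
    refine (IsSimpleOrder.eq_bot_or_eq_top (LinearMap.range q)).resolve_left ?_
    intro h
    have h4 : q v₁ ∈ LinearMap.range q := ⟨v₁, rfl⟩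
    rw [h, Submodule.mem_bot] at h4
    exact hv₁ h4
  have hqc : ∀ (c : Z) (v : M), q (c • v) = χ c • q v := by
    intro c v
    rw [← hζM, map_smul, hχ]
  have hker : ∀ v, q v = 0 → ∀ f, χ (e f v) = 0 := by
    intro v hv f
    have h4 : τ v₁ f • q v = 0 := by rw [hv, smul_zero]
    rw [← map_smul, h1, hqc] at h4
    exact (smul_eq_zero.1 h4).resolve_right hv₁
  -- the elements `u` and `b`
  obtain ⟨m, hm⟩ : ∃ m : Ideal Z, m = RingHom.ker χ := ⟨_, rfl⟩
  rw [← hm] at hmax
  have hmem : ∀ c, c ∈ m ↔ χ c = 0 := by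
    intro c
    rw [hm, RingHom.mem_ker]
  have hbot : m ≠ ⊥ := Ring.ne_bot_of_isMaximal_of_not_isField hmax hZ
  obtain ⟨u, hu1, hu2⟩ := Ideal.exists_mem_pow_notMem_pow_succ m hbot hmax.ne_top 1
  rw [pow_one] at hu1
  have hu0 : u ≠ 0 := by
    intro h0
    apply hu2
    rw [h0]
    exact Ideal.zero_mem _
  obtain ⟨I, hI⟩ : m ∣ Ideal.span {u} := Ideal.dvd_span_singleton.2 hu1
  have hIm : ¬ I ≤ m := by
    intro hle
    apply hu2
    have h4 : u ∈ Ideal.span {u} := Ideal.mem_span_singleton_self u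
    rw [hI] at h4
    have h5 : m * I ≤ m ^ (1 + 1) := by
      rw [pow_succ, pow_one]
      exact Ideal.mul_mono_right hle
    exact h5 h4
  obtain ⟨b₀, hb1, hb2⟩ := SetLike.not_le_iff_exists.1 hIm
  have hb3 : χ b₀ ≠ 0 := fun h0 => hb2 ((hmem b₀).2 h0)
  obtain ⟨b, hb⟩ : ∃ b : Z, b = algebraMap k Z (χ b₀)⁻¹ * b₀ := ⟨_, rfl⟩
  have hbI : b ∈ I := by
    rw [hb]
    exact I.mul_mem_left _ hb1
  have hχb : χ b = 1 := by
    rw [hb, map_mul, hχk, inv_mul_cancel₀ hb3]
  have hbm : ∀ c : Z, χ c = 0 → ∃ d, b * c = u * d := by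
    intro c hc
    have h4 : c * b ∈ m * I := Ideal.mul_mem_mul ((hmem c).2 hc) hbI
    rw [← hI, Ideal.mem_span_singleton'] at h4
    obtain ⟨d, hd⟩ := h4
    exact ⟨d, by rw [mul_comm b c, ← hd, mul_comm]⟩
  refine ⟨u, b, q, hu0, hqs, ?_, ?_, ?_⟩
  · intro v
    rw [hqc, hχb, one_smul]
  · intro v
    rw [hqc, (hmem u).1 hu1, zero_smul]
  · intro v hv
    have h4 : ∀ i : Fin n, ∃ d, b * e (f₀ i) v = u * d := fun i => hbm _ (hker v hv (f₀ i))
    choose d hd using h4
    refine ⟨∑ i, d i • v₀ i, ?_⟩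
    have h5 : v = ∑ i, e (f₀ i) v • v₀ i := by
      conv_lhs => rw [← one_smul R v, ← h3, Finset.sum_smul]
      exact Finset.sum_congr rfl fun i _ => h1 _ _ _
    conv_lhs => rw [h5]
    rw [Finset.smul_sum, Finset.smul_sum]
    refine Finset.sum_congr rfl fun i _ => ?_
    rw [smul_smul, hd, mul_smul]

end Pool.Agent.MP_6e5bed_ag_NC
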