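import Pool.Agent.Lib.MP_6e5bed_ag_CV.Tw
import Pool.Agent.Lib.MP_6e5bed_ag_CV.TorsA

set_option autoImplicit false
set_option linter.unusedSectionVars false

/-!
# Quotients by multiplication operators (NC CURVES)

`u : N(-n) → N` is injective, the quotient is a torsion bimodule `M` with `M0 = N0 / u N0`,
`M1 = N1 / t ^ (-n) u N1`. The kernel of `M1 → M01` is a direct summand of `M1` (Fitting lemma for the
multiplication by `1/t`), and the kernel of `M0 → M01` is a direct summand of `M0`; use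
`Tri.hasRes_M0` and `Tri.hasRes_M1`.
-/

namespace Pool.Agent.MP_6e5bed_ag_NC

open RatFunc
open scoped TensorProduct

universe u

variable {k : Type u} [Field k]

/-- the quotient of a bimodule -/
private noncomputable def MulU_q {A B : Type u} [Ring A] [Algebra k A] [Ring B] [Algebra k B]
    (M : KBi k A B) (U : Submodule k M.M) (hl : ∀ a, ∀ x ∈ U, M.l a x ∈ U)
    (hr : ∀ b, ∀ x ∈ U, M.r b x ∈ U) : KBi k A B where
  M := M.M ⧸ U
  l :=
    { toFun := fun a => U.mapQ U (M.l a) (fun x hx => hl a x hx)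
      map_add' := fun a a' => by ext x; simp
      map_smul' := fun c a => by ext x; simp }
  r :=
    { toFun := fun a => U.mapQ U (M.r a) (fun x hx => hr a x hx)
      map_add' := fun a a' => by ext x; simp
      map_smul' := fun c a => by ext x; simp }
  l_one := fun v => by
    obtain ⟨v, rfl⟩ := U.mkQ_surjective v
    simp [M.l_one]
  r_one := fun v => by
    obtain ⟨v, rfl⟩ := U.mkQ_surjective v
    simp [M.r_one]
  l_mul := fun a a' v => by
    obtain ⟨v, rfl⟩ := U.mkQ_surjective v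
    simp [M.l_mul]
  r_mul := fun a a' v => by
    obtain ⟨v, rfl⟩ := U.mkQ_surjective v
    simp [M.r_mul]
  l_r := fun a b v => by
    obtain ⟨v, rfl⟩ := U.mkQ_surjective v
    simp [M.l_r]

section

variable {E : Type u} [AddCommGroup E] [Module (RatFunc k) E]

/-- Fitting: a finite-dimensional quotient of lattices surjects onto its localization. -/
private theorem MulU_fit [Module k E] [IsScalarTower k (RatFunc k) E] {u : RatFunc k}
    (N N' : Submodule (kk k u) E)
    (hf : Module.Finite k (N' ⧸ N.submoduleOf N')) (v : E) (n : ℕ) (hv : u ^ n • v ∈ N') :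
    ∃ w ∈ N', ∃ m : ℕ, u ^ m • (v - w) ∈ N := by
  let f : Module.End k (N' ⧸ N.submoduleOf N') :=
    { toFun := fun y => kk.gen k u • y
      map_add' := fun y z => smul_add _ y z
      map_smul' := fun c y => by
        obtain ⟨y, rfl⟩ := (N.submoduleOf N').mkQ_surjective y
        have h1 : kk.gen k u • (c • y) = c • (kk.gen k u • y) :=
          Subtype.ext (smul_comm u c y.1)
        exact congrArg (N.submoduleOf N').mkQ h1 }
  have hfp : ∀ (m : ℕ) (y : N' ⧸ N.submoduleOf N'), (f ^ m) y = (kk.gen k u) ^ m • y := by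
    intro m y
    induction m with
    | zero => rw [pow_zero, pow_zero, one_smul]; rfl
    | succ m ih => rw [pow_succ', pow_succ', mul_smul, ← ih]; rfl
  obtain ⟨m, hm⟩ := Filter.eventually_atTop.1 f.eventually_iInf_range_pow_eq
  have hr : LinearMap.range (f ^ m) = LinearMap.range (f ^ (m + n)) :=
    (hm m le_rfl).symm.trans (hm (m + n) (Nat.le_add_right _ _))
  let y : N' := ⟨u ^ n • v, hv⟩
  have hy : (f ^ m) (Submodule.Quotient.mk y) ∈ LinearMap.range (f ^ (m + n)) := by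
    rw [← hr]
    exact ⟨_, rfl⟩
  obtain ⟨z, hz⟩ := hy
  obtain ⟨w, rfl⟩ := (N.submoduleOf N').mkQ_surjective z
  rw [hfp, hfp] at hz
  have h1 : Submodule.Quotient.mk (p := N.submoduleOf N')
      ((kk.gen k u) ^ m • y - (kk.gen k u) ^ (m + n) • w) = 0 := by
    rw [Submodule.Quotient.mk_sub, Submodule.Quotient.mk_smul, Submodule.Quotient.mk_smul,
      sub_eq_zero]
    exact hz.symm
  rw [Submodule.Quotient.mk_eq_zero] at h1
  refine ⟨w.1, w.2, m + n, ?_⟩
  have h2 : ((kk.gen k u) ^ m • y - (kk.gen k u) ^ (m + n) • w : N').1 ∈ N := h1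
  have h3 : ((kk.gen k u) ^ m • y - (kk.gen k u) ^ (m + n) • w : N').1 =
      u ^ (m + n) • (v - w.1) := by
    change u ^ m • (u ^ n • v) - u ^ (m + n) • w.1 = _
    rw [smul_smul, ← pow_add, smul_sub]
  rw [← h3]
  exact h2

end

/-- Fitting: the projection onto the part where `f` is bijective. -/
private theorem MulU_e {M : Type u} [AddCommGroup M] [Module k M] [Module.Finite k M]
    (f : Module.End k M) : ∃ e : M →ₗ[k] M, (∀ m, e (e m) = e m) ∧
      (∀ m, e m = 0 ↔ ∃ n : ℕ, (f ^ n) m = 0) ∧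
      ∀ g : M →ₗ[k] M, (∀ m, g (f m) = f (g m)) → ∀ m, e (g m) = g (e m) := by
  obtain ⟨n, hn⟩ := Filter.eventually_atTop.1
    (f.eventually_isCompl_ker_pow_range_pow.and f.eventually_iSup_ker_pow_eq)
  obtain ⟨h1, h2⟩ := hn n le_rfl
  refine ⟨Submodule.projection _ _ h1.symm, fun m => ?_, fun m => ?_, fun g hg m => ?_⟩
  · exact Submodule.projection_apply_of_mem_left h1.symm
      (Submodule.projection_apply_mem h1.symm m)
  · rw [Submodule.projection_apply_eq_zero_iff, LinearMap.mem_ker]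
    constructor
    · intro h
      exact ⟨n, h⟩
    · rintro ⟨j, hj⟩
      have h3 : m ∈ ⨆ i : ℕ, LinearMap.ker (f ^ i) :=
        Submodule.mem_iSup_of_mem j (LinearMap.mem_ker.2 hj)
      rw [h2] at h3
      exact LinearMap.mem_ker.1 h3
  · have hgp : ∀ (i : ℕ) (x : M), g ((f ^ i) x) = (f ^ i) (g x) := by
      intro i
      induction i with
      | zero => intro x; rfl
      | succ i ih =>
        intro x
        rw [pow_succ, Module.End.mul_apply, ih, Module.End.mul_apply, hg]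
    have hm : m = Submodule.projection _ _ h1.symm m + Submodule.projection _ _ h1 m :=
      (Submodule.projection_add_projection_eq_self h1.symm m).symm
    have ha : Submodule.projection _ _ h1.symm (g (Submodule.projection _ _ h1.symm m)) =
        g (Submodule.projection _ _ h1.symm m) := by
      apply Submodule.projection_apply_of_mem_left
      obtain ⟨y, hy⟩ := Submodule.projection_apply_mem h1.symm m
      rw [← hy, hgp]
      exact ⟨g y, rfl⟩
    have hb : Submodule.projection _ _ h1.symm (g (Submodule.projection _ _ h1 m)) = 0 := by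
      rw [Submodule.projection_apply_eq_zero_iff, LinearMap.mem_ker, ← hgp]
      have h4 := Submodule.projection_apply_mem h1 m
      rw [LinearMap.mem_ker] at h4
      rw [h4, map_zero]
    conv_lhs => rw [hm, map_add, map_add, ha, hb, add_zero]

/-- multiplication by `u` on the quotient of two `k[u]`-modules -/
private noncomputable def MulU_mul {E : Type u} [AddCommGroup E] [Module (RatFunc k) E]
    [Module k E] [IsScalarTower k (RatFunc k) E] {u : RatFunc k} (P P' : Submodule (kk k u) E) :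
    Module.End k (P ⧸ (P'.submoduleOf P).restrictScalars k) :=
  ((P'.submoduleOf P).restrictScalars k).mapQ ((P'.submoduleOf P).restrictScalars k)
    { toFun := fun y => kk.gen k u • y
      map_add' := fun y z => smul_add _ y z
      map_smul' := fun c y => Subtype.ext (smul_comm u c y.1) }
    (fun _ hy => (P'.submoduleOf P).smul_mem (kk.gen k u) hy)

private theorem MulU_pow {E : Type u} [AddCommGroup E] [Module (RatFunc k) E]
    [Module k E] [IsScalarTower k (RatFunc k) E] {u : RatFunc k} (P P' : Submodule (kk k u) E)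
    (v : P) (n : ℕ) : ((MulU_mul P P') ^ n)
      (((P'.submoduleOf P).restrictScalars k).mkQ v) = 0 ↔ u ^ n • v.1 ∈ P' := by
  have h1 : ((MulU_mul P P') ^ n) (((P'.submoduleOf P).restrictScalars k).mkQ v) =
      ((P'.submoduleOf P).restrictScalars k).mkQ ((kk.gen k u) ^ n • v) := by
    induction n with
    | zero => rw [pow_zero, pow_zero, one_smul]; rfl
    | succ n ih =>
      rw [pow_succ', pow_succ', Module.End.mul_apply, ih, mul_smul]
      rfl
  rw [h1, ← LinearMap.mem_ker, Submodule.ker_mkQ]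
  exact Iff.rfl

namespace LP

variable {S T : Cosp k} {G : GBi k S.A01 T.A01} {A B : DGA k}

private theorem MulU_N01 {E : Type u} [AddCommGroup E] [Module (RatFunc k) E] [Module k E]
    [IsScalarTower k (RatFunc k) E] {N N' : LP k E} (hle : Le N N') {v : E} (h : v ∈ N.N01) :
    v ∈ N'.N01 := by
  obtain ⟨n, hn⟩ := h
  exact ⟨n, hle.1 hn⟩

/-- If `N ≤ N'` have resolutions, then `N'0 / N0` has a resolution. -/
private theorem MulU_le0 {N N' : LP k G.E} (h : Stable G N) (h' : Stable G N') (hle : Le N N')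
    (α : DHom A S.cech) (β : DHom B T.cech) (hN : HasRes (res α β (tri h).bim))
    (hN' : HasRes (res α β (tri h').bim)) (U : KBi k S.A0 T.A0) (p : N'.N0 →ₗ[k] U.M)
    (hp : Function.Surjective p) (hk : ∀ v, p v = 0 ↔ v.1 ∈ N.N0)
    (pl : ∀ a v, p ((tri h').M0.l a v) = U.l a (p v))
    (pr : ∀ b v, p ((tri h').M0.r b v) = U.r b (p v)) :
    HasRes (res (α.comp S.proj0) (β.comp T.proj0) U.bim) := by
  let U1 : Submodule k (tri h').M1.M := (N.N1.submoduleOf N'.N1).restrictScalars k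
  let U01 : Submodule k (tri h').M01.M := N.N01.comap N'.N01.subtype
  have hf1 := finite_quot_Xi (N := N.N1) (N' := N'.N1) N.sp1 N'.fg1
  let Q1 : KBi k S.A1 T.A1 := MulU_q (tri h').M1 U1 (fun a x hx => h.l1 a x.1 hx)
    (fun b x hx => h.r1 b x.1 hx)
  let Q01 : KBi k S.A01 T.A01 := MulU_q (tri h').M01 U01 (fun a x hx => h.l01 a x.1 hx)
    (fun b x hx => h.r01 b x.1 hx)
  have hρk : LinearMap.ker p ≤ LinearMap.ker (U01.mkQ.comp (tri h').ρ0) := by
    intro v hv
    have h1 : v.1 ∈ N.N0 := (hk v).1 hv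
    exact (Submodule.Quotient.mk_eq_zero U01 (x := (tri h').ρ0 v)).2 (N.N0_le h1)
  let ρ0 : U.M →ₗ[k] Q01.M := ((LinearMap.ker p).liftQ (U01.mkQ.comp (tri h').ρ0) hρk).comp
    (p.quotKerEquivOfSurjective hp).symm.toLinearMap
  have hρ0 : ∀ v : N'.N0, ρ0 (p v) = U01.mkQ ((tri h').ρ0 v) := by
    intro v
    have h1 : (p.quotKerEquivOfSurjective hp).symm (p v) = (LinearMap.ker p).mkQ v := by
      rw [LinearEquiv.symm_apply_eq]
      rfl
    change ((LinearMap.ker p).liftQ (U01.mkQ.comp (tri h').ρ0) hρk)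
      ((p.quotKerEquivOfSurjective hp).symm (p v)) = _
    rw [h1]
    rfl
  let τ : Tri S T :=
    { M0 := U
      M1 := Q1
      M01 := Q01
      ρ0 := ρ0
      ρ1 := U1.mapQ U01 (tri h').ρ1 (fun x hx => N.N1_le hx)
      ρ0_l := fun a v => by
        obtain ⟨v, rfl⟩ := hp v
        rw [← pl, hρ0, hρ0]
        exact congrArg U01.mkQ ((tri h').ρ0_l a v)
      ρ0_r := fun a v => by
        obtain ⟨v, rfl⟩ := hp v
        rw [← pr, hρ0, hρ0]
        exact congrArg U01.mkQ ((tri h').ρ0_r a v)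
      ρ1_l := fun a v => by
        obtain ⟨v, rfl⟩ := U1.mkQ_surjective v
        exact congrArg U01.mkQ ((tri h').ρ1_l a v)
      ρ1_r := fun a v => by
        obtain ⟨v, rfl⟩ := U1.mkQ_surjective v
        exact congrArg U01.mkQ ((tri h').ρ1_r a v) }
  have hs1 : Function.Surjective τ.ρ1 := by
    intro z
    obtain ⟨v, rfl⟩ := U01.mkQ_surjective z
    obtain ⟨n, hn⟩ := (N'.mem_N01').1 v.2
    obtain ⟨w, hw, m, hm⟩ := MulU_fit N.N1 N'.N1 hf1 v.1 n hn
    refine ⟨U1.mkQ ⟨w, hw⟩, ?_⟩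
    change U01.mkQ ((tri h').ρ1 ⟨w, hw⟩) = U01.mkQ v
    rw [← sub_eq_zero, ← map_sub, ← LinearMap.mem_ker, Submodule.ker_mkQ]
    have h1 : v.1 - w ∈ N.N01 := N.mem_N01'.2 ⟨m, hm⟩
    have h2 : -(v.1 - w) ∈ N.N01 := N.N01.neg_mem h1
    rw [neg_sub] at h2
    exact h2
  have hF1 : Module.Finite k (N'.N1 ⧸ (N.N1.submoduleOf N'.N1).restrictScalars k) :=
    Module.Finite.equiv (Submodule.Quotient.restrictScalarsEquiv k (N.N1.submoduleOf N'.N1)).symm
  -- the exact sequence
  let i : Tri.Hom (tri h) (tri h') :=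
    { f0 :=
        { toFun := fun x => ⟨x.1, hle.1 x.2⟩
          map_add' := fun _ _ => rfl
          map_smul' := fun _ _ => rfl }
      f1 :=
        { toFun := fun x => ⟨x.1, hle.2 x.2⟩
          map_add' := fun _ _ => rfl
          map_smul' := fun _ _ => rfl }
      f01 :=
        { toFun := fun x => ⟨x.1, MulU_N01 hle x.2⟩
          map_add' := fun _ _ => rfl
          map_smul' := fun _ _ => rfl }
      l0 := fun _ _ => rfl
      r0 := fun _ _ => rfl
      l1 := fun _ _ => rfl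
      r1 := fun _ _ => rfl
      l01 := fun _ _ => rfl
      r01 := fun _ _ => rfl
      ρ0 := fun _ => rfl
      ρ1 := fun _ => rfl }
  let q : Tri.Hom (tri h') τ :=
    { f0 := p
      f1 := U1.mkQ
      f01 := U01.mkQ
      l0 := pl
      r0 := pr
      l1 := fun _ _ => rfl
      r1 := fun _ _ => rfl
      l01 := fun _ _ => rfl
      r01 := fun _ _ => rfl
      ρ0 := fun v => (hρ0 v).symm
      ρ1 := fun _ => rfl }
  have hses : IsSes (tri h).bim (tri h').bim τ.bim := by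
    refine Tri.isSes i q ?_ ?_ ?_ hp U1.mkQ_surjective U01.mkQ_surjective ?_ ?_ ?_
    · intro x y hxy
      have h2 : (⟨x.1, hle.1 x.2⟩ : N'.N0) = ⟨y.1, hle.1 y.2⟩ := hxy
      exact Subtype.ext (Subtype.mk.inj h2)
    · intro x y hxy
      have h2 : (⟨x.1, hle.2 x.2⟩ : N'.N1) = ⟨y.1, hle.2 y.2⟩ := hxy
      exact Subtype.ext (Subtype.mk.inj h2)
    · intro x y hxy
      have h2 : (⟨x.1, MulU_N01 hle x.2⟩ : N'.N01) = ⟨y.1, MulU_N01 hle y.2⟩ := hxy
      exact Subtype.ext (Subtype.mk.inj h2)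
    · intro x
      change p x = 0 ↔ _
      rw [hk]
      constructor
      · intro hx
        exact ⟨⟨x.1, hx⟩, rfl⟩
      · rintro ⟨y, rfl⟩
        exact y.2
    · intro x
      change U1.mkQ x = 0 ↔ _
      rw [← LinearMap.mem_ker, Submodule.ker_mkQ]
      constructor
      · intro hx
        exact ⟨⟨x.1, hx⟩, rfl⟩
      · rintro ⟨y, rfl⟩
        exact y.2
    · intro x
      change U01.mkQ x = 0 ↔ _
      rw [← LinearMap.mem_ker, Submodule.ker_mkQ]
      constructor
      · intro hx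
        exact ⟨⟨x.1, hx⟩, rfl⟩
      · rintro ⟨y, rfl⟩
        exact y.2
  have hτ : HasRes (res α β τ.bim) := (hses.res α β).right hN hN'
  obtain ⟨e, he1, he2, he3⟩ := MulU_e (MulU_mul N'.N1 N.N1)
  refine Tri.hasRes_M0 τ hs1 e ?_ ?_ he1 ?_ α β hτ
  · intro a m
    refine he3 (Q1.l a) (fun x => ?_) m
    obtain ⟨x, rfl⟩ := U1.mkQ_surjective x
    refine congrArg U1.mkQ (Subtype.ext ?_)
    exact (G.l (S.r1 a)).map_smul (X : RatFunc k)⁻¹ x.1
  · intro b m
    refine he3 (Q1.r b) (fun x => ?_) m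
    obtain ⟨x, rfl⟩ := U1.mkQ_surjective x
    refine congrArg U1.mkQ (Subtype.ext ?_)
    exact (G.r (T.r1 b)).map_smul (X : RatFunc k)⁻¹ x.1
  · intro m
    refine (he2 m).trans ?_
    obtain ⟨v, rfl⟩ := U1.mkQ_surjective m
    have h1 : τ.ρ1 (U1.mkQ v) = 0 ↔ v.1 ∈ N.N01 := by
      change U01.mkQ ((tri h').ρ1 v) = 0 ↔ _
      rw [← LinearMap.mem_ker, Submodule.ker_mkQ]
      exact Iff.rfl
    refine Iff.trans ?_ h1.symm
    rw [N.mem_N01']
    exact exists_congr fun n => MulU_pow N'.N1 N.N1 v n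

/-- If `N ≤ N'` have resolutions, then `N'1 / N1` has a resolution. -/
private theorem MulU_le1 {N N' : LP k G.E} (h : Stable G N) (h' : Stable G N') (hle : Le N N')
    (α : DHom A S.cech) (β : DHom B T.cech) (hN : HasRes (res α β (tri h).bim))
    (hN' : HasRes (res α β (tri h').bim)) (U : KBi k S.A1 T.A1) (p : N'.N1 →ₗ[k] U.M)
    (hp : Function.Surjective p) (hk : ∀ v, p v = 0 ↔ v.1 ∈ N.N1)
    (pl : ∀ a v, p ((tri h').M1.l a v) = U.l a (p v))
    (pr : ∀ b v, p ((tri h').M1.r b v) = U.r b (p v)) :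
    HasRes (res (α.comp S.proj1) (β.comp T.proj1) U.bim) := by
  let U0 : Submodule k (tri h').M0.M := (N.N0.submoduleOf N'.N0).restrictScalars k
  let U01 : Submodule k (tri h').M01.M := N.N01.comap N'.N01.subtype
  have hf0 := finite_quot_X (N := N.N0) (N' := N'.N0) N.sp0 N'.fg0
  let Q0 : KBi k S.A0 T.A0 := MulU_q (tri h').M0 U0 (fun a x hx => h.l0 a x.1 hx)
    (fun b x hx => h.r0 b x.1 hx)
  let Q01 : KBi k S.A01 T.A01 := MulU_q (tri h').M01 U01 (fun a x hx => h.l01 a x.1 hx)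
    (fun b x hx => h.r01 b x.1 hx)
  have hρk : LinearMap.ker p ≤ LinearMap.ker (U01.mkQ.comp (tri h').ρ1) := by
    intro v hv
    have h1 : v.1 ∈ N.N1 := (hk v).1 hv
    exact (Submodule.Quotient.mk_eq_zero U01 (x := (tri h').ρ1 v)).2 (N.N1_le h1)
  let ρ1 : U.M →ₗ[k] Q01.M := ((LinearMap.ker p).liftQ (U01.mkQ.comp (tri h').ρ1) hρk).comp
    (p.quotKerEquivOfSurjective hp).symm.toLinearMap
  have hρ1 : ∀ v : N'.N1, ρ1 (p v) = U01.mkQ ((tri h').ρ1 v) := by
    intro v
    have h1 : (p.quotKerEquivOfSurjective hp).symm (p v) = (LinearMap.ker p).mkQ v := by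
      rw [LinearEquiv.symm_apply_eq]
      rfl
    change ((LinearMap.ker p).liftQ (U01.mkQ.comp (tri h').ρ1) hρk)
      ((p.quotKerEquivOfSurjective hp).symm (p v)) = _
    rw [h1]
    rfl
  let τ : Tri S T :=
    { M0 := Q0
      M1 := U
      M01 := Q01
      ρ0 := U0.mapQ U01 (tri h').ρ0 (fun x hx => N.N0_le hx)
      ρ1 := ρ1
      ρ0_l := fun a v => by
        obtain ⟨v, rfl⟩ := U0.mkQ_surjective v
        exact congrArg U01.mkQ ((tri h').ρ0_l a v)
      ρ0_r := fun a v => by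
        obtain ⟨v, rfl⟩ := U0.mkQ_surjective v
        exact congrArg U01.mkQ ((tri h').ρ0_r a v)
      ρ1_l := fun a v => by
        obtain ⟨v, rfl⟩ := hp v
        rw [← pl, hρ1, hρ1]
        exact congrArg U01.mkQ ((tri h').ρ1_l a v)
      ρ1_r := fun a v => by
        obtain ⟨v, rfl⟩ := hp v
        rw [← pr, hρ1, hρ1]
        exact congrArg U01.mkQ ((tri h').ρ1_r a v) }
  have hs0 : Function.Surjective τ.ρ0 := by
    intro z
    obtain ⟨v, rfl⟩ := U01.mkQ_surjective z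
    obtain ⟨n, hn⟩ := (N'.mem_N01).1 v.2
    obtain ⟨w, hw, m, hm⟩ := MulU_fit N.N0 N'.N0 hf0 v.1 n hn
    refine ⟨U0.mkQ ⟨w, hw⟩, ?_⟩
    change U01.mkQ ((tri h').ρ0 ⟨w, hw⟩) = U01.mkQ v
    rw [← sub_eq_zero, ← map_sub, ← LinearMap.mem_ker, Submodule.ker_mkQ]
    have h1 : v.1 - w ∈ N.N01 := ⟨m, hm⟩
    have h2 : -(v.1 - w) ∈ N.N01 := N.N01.neg_mem h1
    rw [neg_sub] at h2
    exact h2
  have hF0 : Module.Finite k (N'.N0 ⧸ (N.N0.submoduleOf N'.N0).restrictScalars k) :=
    Module.Finite.equiv (Submodule.Quotient.restrictScalarsEquiv k (N.N0.submoduleOf N'.N0)).symm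
  -- the exact sequence
  let i : Tri.Hom (tri h) (tri h') :=
    { f0 :=
        { toFun := fun x => ⟨x.1, hle.1 x.2⟩
          map_add' := fun _ _ => rfl
          map_smul' := fun _ _ => rfl }
      f1 :=
        { toFun := fun x => ⟨x.1, hle.2 x.2⟩
          map_add' := fun _ _ => rfl
          map_smul' := fun _ _ => rfl }
      f01 :=
        { toFun := fun x => ⟨x.1, MulU_N01 hle x.2⟩
          map_add' := fun _ _ => rfl
          map_smul' := fun _ _ => rfl }
      l0 := fun _ _ => rfl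
      r0 := fun _ _ => rfl
      l1 := fun _ _ => rfl
      r1 := fun _ _ => rfl
      l01 := fun _ _ => rfl
      r01 := fun _ _ => rfl
      ρ0 := fun _ => rfl
      ρ1 := fun _ => rfl }
  let q : Tri.Hom (tri h') τ :=
    { f0 := U0.mkQ
      f1 := p
      f01 := U01.mkQ
      l0 := fun _ _ => rfl
      r0 := fun _ _ => rfl
      l1 := pl
      r1 := pr
      l01 := fun _ _ => rfl
      r01 := fun _ _ => rfl
      ρ0 := fun _ => rfl
      ρ1 := fun v => (hρ1 v).symm }
  have hses : IsSes (tri h).bim (tri h').bim τ.bim := by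
    refine Tri.isSes i q ?_ ?_ ?_ U0.mkQ_surjective hp U01.mkQ_surjective ?_ ?_ ?_
    · intro x y hxy
      have h2 : (⟨x.1, hle.1 x.2⟩ : N'.N0) = ⟨y.1, hle.1 y.2⟩ := hxy
      exact Subtype.ext (Subtype.mk.inj h2)
    · intro x y hxy
      have h2 : (⟨x.1, hle.2 x.2⟩ : N'.N1) = ⟨y.1, hle.2 y.2⟩ := hxy
      exact Subtype.ext (Subtype.mk.inj h2)
    · intro x y hxy
      have h2 : (⟨x.1, MulU_N01 hle x.2⟩ : N'.N01) = ⟨y.1, MulU_N01 hle y.2⟩ := hxy
      exact Subtype.ext (Subtype.mk.inj h2)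
    · intro x
      change U0.mkQ x = 0 ↔ _
      rw [← LinearMap.mem_ker, Submodule.ker_mkQ]
      constructor
      · intro hx
        exact ⟨⟨x.1, hx⟩, rfl⟩
      · rintro ⟨y, rfl⟩
        exact y.2
    · intro x
      change p x = 0 ↔ _
      rw [hk]
      constructor
      · intro hx
        exact ⟨⟨x.1, hx⟩, rfl⟩
      · rintro ⟨y, rfl⟩
        exact y.2
    · intro x
      change U01.mkQ x = 0 ↔ _
      rw [← LinearMap.mem_ker, Submodule.ker_mkQ]
      constructor
      · intro hx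
        exact ⟨⟨x.1, hx⟩, rfl⟩
      · rintro ⟨y, rfl⟩
        exact y.2
  have hτ : HasRes (res α β τ.bim) := (hses.res α β).right hN hN'
  obtain ⟨e, he1, he2, he3⟩ := MulU_e (MulU_mul N'.N0 N.N0)
  refine Tri.hasRes_M1 τ hs0 e ?_ ?_ he1 ?_ α β hτ
  · intro a m
    refine he3 (Q0.l a) (fun x => ?_) m
    obtain ⟨x, rfl⟩ := U0.mkQ_surjective x
    refine congrArg U0.mkQ (Subtype.ext ?_)
    exact (G.l (S.r0 a)).map_smul (X : RatFunc k) x.1
  · intro b m
    refine he3 (Q0.r b) (fun x => ?_) m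
    obtain ⟨x, rfl⟩ := U0.mkQ_surjective x
    refine congrArg U0.mkQ (Subtype.ext ?_)
    exact (G.r (T.r0 b)).map_smul (X : RatFunc k) x.1
  · intro m
    refine (he2 m).trans ?_
    obtain ⟨v, rfl⟩ := U0.mkQ_surjective m
    have h1 : τ.ρ0 (U0.mkQ v) = 0 ↔ v.1 ∈ N.N01 := by
      change U01.mkQ ((tri h').ρ0 v) = 0 ↔ _
      rw [← LinearMap.mem_ker, Submodule.ker_mkQ]
      exact Iff.rfl
    refine Iff.trans ?_ h1.symm
    rw [N.mem_N01]
    exact exists_congr fun n => MulU_pow N'.N0 N.N0 v n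

/-- The image of a lattice pair under a surjective map. -/
private noncomputable def MulU_map {E : Type u} [AddCommGroup E] [Module (RatFunc k) E]
    (N : LP k E) (f : E →ₗ[RatFunc k] E) (hf : Function.Surjective f) : LP k E where
  N0 := N.N0.map (f.restrictScalars (kk k X))
  N1 := N.N1.map (f.restrictScalars (kk k X⁻¹))
  fg0 := N.fg0.map _
  fg1 := N.fg1.map _
  sp0 := by
    rw [span_top_iff_X]
    intro v
    obtain ⟨w, rfl⟩ := hf v
    obtain ⟨g, hg, h1⟩ := (span_top_iff_X N.N0).1 N.sp0 w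
    exact ⟨g, hg, g • w, h1, (f.restrictScalars (kk k X)).map_smul g w⟩
  sp1 := by
    rw [span_top_iff_Xi]
    intro v
    obtain ⟨w, rfl⟩ := hf v
    obtain ⟨g, hg, h1⟩ := (span_top_iff_Xi N.N1).1 N.sp1 w
    exact ⟨g, hg, g • w, h1, (f.restrictScalars (kk k X⁻¹)).map_smul g w⟩
  loc01 := by
    rintro _ ⟨w, hw, rfl⟩
    obtain ⟨n, hn⟩ := N.loc01 w hw
    exact ⟨n, _, hn, f.map_smul _ w⟩
  loc10 := by
    rintro _ ⟨w, hw, rfl⟩
    obtain ⟨n, hn⟩ := N.loc10 w hw
    exact ⟨n, _, hn, f.map_smul _ w⟩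

private theorem MulU_mem_N01 {E : Type u} [AddCommGroup E] [Module (RatFunc k) E] [Module k E]
    [IsScalarTower k (RatFunc k) E] (N : LP k E) (f : E →ₗ[RatFunc k] E)
    (hf : Function.Surjective f) (v : E) : v ∈ (N.MulU_map f hf).N01 ↔ ∃ w ∈ N.N01, f w = v := by
  have hX : (X : RatFunc k) ≠ 0 := RatFunc.X_ne_zero
  constructor
  · rintro ⟨n, w, hw, h⟩
    have h' : f w = (X : RatFunc k) ^ n • v := h
    refine ⟨((X : RatFunc k) ^ n)⁻¹ • w, ⟨n, ?_⟩, ?_⟩
    · rw [smul_inv_smul₀ (pow_ne_zero n hX)]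
      exact hw
    · rw [map_smul, h', inv_smul_smul₀ (pow_ne_zero n hX)]
  · rintro ⟨w, ⟨n, hn⟩, rfl⟩
    exact ⟨n, _, hn, f.map_smul _ w⟩

private theorem MulU_stable {N : LP k G.E} (h : Stable G N) (f : G.E →ₗ[RatFunc k] G.E)
    (hf : Function.Surjective f) (il : ∀ a x, f (G.l a x) = G.l a (f x))
    (ir : ∀ a x, f (G.r a x) = G.r a (f x)) : Stable G (N.MulU_map f hf) where
  l0 := by
    rintro a _ ⟨w, hw, rfl⟩
    exact ⟨_, h.l0 a w hw, il _ w⟩
  r0 := by
    rintro a _ ⟨w, hw, rfl⟩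
    exact ⟨_, h.r0 a w hw, ir _ w⟩
  l1 := by
    rintro a _ ⟨w, hw, rfl⟩
    exact ⟨_, h.l1 a w hw, il _ w⟩
  r1 := by
    rintro a _ ⟨w, hw, rfl⟩
    exact ⟨_, h.r1 a w hw, ir _ w⟩
  l01 := by
    intro a v hv
    obtain ⟨w, hw, rfl⟩ := (MulU_mem_N01 N f hf v).1 hv
    exact (MulU_mem_N01 N f hf _).2 ⟨_, h.l01 a w hw, il _ w⟩
  r01 := by
    intro a v hv
    obtain ⟨w, hw, rfl⟩ := (MulU_mem_N01 N f hf v).1 hv
    exact (MulU_mem_N01 N f hf _).2 ⟨_, h.r01 a w hw, ir _ w⟩

private theorem MulU_res {A' B' : DGA k} (α : DHom A A') (β : DHom B B') {M M' : Bim A' B'}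
    (hM : BIso M M') : BIso (res α β M) (res α β M') := by
  obtain ⟨φ, ψ, h0, h1, h2⟩ := hM
  exact ⟨φ.res α β, ψ.res α β, h0, h1, h2⟩

private theorem MulU_biso {N : LP k G.E} (h : Stable G N) (f : G.E →ₗ[RatFunc k] G.E)
    (hf : Function.Surjective f) (hi : Function.Injective f)
    (il : ∀ a x, f (G.l a x) = G.l a (f x)) (ir : ∀ a x, f (G.r a x) = G.r a (f x)) :
    BIso (tri h).bim (tri (MulU_stable h f hf il ir)).bim := by
  have h' := MulU_stable h f hf il ir
  let g : Tri.Hom (tri h) (tri h') :=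
    { f0 :=
        { toFun := fun v => ⟨f v.1, v.1, v.2, rfl⟩
          map_add' := fun v w => Subtype.ext (f.map_add v.1 w.1)
          map_smul' := fun c v => Subtype.ext ((f.restrictScalars k).map_smul c v.1) }
      f1 :=
        { toFun := fun v => ⟨f v.1, v.1, v.2, rfl⟩
          map_add' := fun v w => Subtype.ext (f.map_add v.1 w.1)
          map_smul' := fun c v => Subtype.ext ((f.restrictScalars k).map_smul c v.1) }
      f01 :=
        { toFun := fun v => ⟨f v.1, (MulU_mem_N01 N f hf _).2 ⟨v.1, v.2, rfl⟩⟩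
          map_add' := fun v w => Subtype.ext (f.map_add v.1 w.1)
          map_smul' := fun c v => Subtype.ext ((f.restrictScalars k).map_smul c v.1) }
      l0 := fun _ m => Subtype.ext (il _ m.1)
      r0 := fun _ m => Subtype.ext (ir _ m.1)
      l1 := fun _ m => Subtype.ext (il _ m.1)
      r1 := fun _ m => Subtype.ext (ir _ m.1)
      l01 := fun a m => Subtype.ext (il a m.1)
      r01 := fun a m => Subtype.ext (ir a m.1)
      ρ0 := fun _ => rfl
      ρ1 := fun _ => rfl }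
  refine Tri.biso g ⟨?_, ?_⟩ ⟨?_, ?_⟩ ⟨?_, ?_⟩
  · intro x y hxy
    exact Subtype.ext (hi (congrArg Subtype.val hxy))
  · rintro ⟨_, w, hw, rfl⟩
    exact ⟨⟨w, hw⟩, rfl⟩
  · intro x y hxy
    exact Subtype.ext (hi (congrArg Subtype.val hxy))
  · rintro ⟨_, w, hw, rfl⟩
    exact ⟨⟨w, hw⟩, rfl⟩
  · intro x y hxy
    exact Subtype.ext (hi (congrArg Subtype.val hxy))
  · rintro ⟨v, hv⟩
    obtain ⟨w, hw, rfl⟩ := (MulU_mem_N01 N f hf v).1 hv
    exact ⟨⟨w, hw⟩, rfl⟩

/-- Membership in the image of `N(-n)` at infinity. -/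
private theorem MulU_mem1 {E : Type u} [AddCommGroup E] [Module (RatFunc k) E] (N : LP k E)
    (u : E →ₗ[RatFunc k] E) (us : Function.Surjective u) (n : ℕ) (v : E) :
    v ∈ ((N.tw (-n)).MulU_map u us).N1 ↔ ∃ w ∈ N.N1, ((X : RatFunc k)⁻¹) ^ n • u w = v := by
  have hX : (X : RatFunc k) ≠ 0 := RatFunc.X_ne_zero
  constructor
  · rintro ⟨w, hw, rfl⟩
    have hw' : (X : RatFunc k) ^ (-(-(n : ℤ))) • w ∈ N.N1 := (mem_tw_N1 N _ w).1 hw
    rw [neg_neg, zpow_natCast] at hw'
    refine ⟨_, hw', ?_⟩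
    rw [map_smul, smul_smul, ← mul_pow, inv_mul_cancel₀ hX, one_pow, one_smul]
    rfl
  · rintro ⟨w, hw, rfl⟩
    refine ⟨((X : RatFunc k)⁻¹) ^ n • w, (mem_tw_N1 N _ _).2 ?_, u.map_smul _ w⟩
    rw [neg_neg, zpow_natCast, smul_smul, ← mul_pow, mul_inv_cancel₀ hX, one_pow, one_smul]
    exact hw

private theorem MulU_Le {E : Type u} [AddCommGroup E] [Module (RatFunc k) E] (N : LP k E)
    (u : E →ₗ[RatFunc k] E) (us : Function.Surjective u) (n : ℕ)
    (u0 : ∀ v ∈ N.N0, u v ∈ N.N0) (u1 : ∀ v ∈ N.N1, ((X : RatFunc k)⁻¹) ^ n • u v ∈ N.N1) :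
    Le ((N.tw (-n)).MulU_map u us) N := by
  constructor
  · rintro _ ⟨w, hw, rfl⟩
    exact u0 w hw
  · intro v hv
    obtain ⟨w, hw, rfl⟩ := (MulU_mem1 N u us n v).1 hv
    exact u1 w hw

theorem hasRes_quot0 {N : LP k G.E} (h : Stable G N) (α : DHom A S.cech) (β : DHom B T.cech)
    (u : G.E →ₗ[RatFunc k] G.E) (ul : ∀ a x, u (G.l a x) = G.l a (u x))
    (ur : ∀ b x, u (G.r b x) = G.r b (u x)) (ui : Function.Injective u) (n : ℕ)
    (u0 : ∀ v ∈ N.N0, u v ∈ N.N0) (u1 : ∀ v ∈ N.N1, ((X : RatFunc k)⁻¹) ^ n • u v ∈ N.N1)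
    (h0 : HasRes (res α β (tri h).bim)) (h1 : HasRes (res α β (tri (h.tw (-n))).bim))
    (U : KBi k S.A0 T.A0) (p : N.N0 →ₗ[k] U.M) (hp : Function.Surjective p)
    (hk : ∀ v, p v = 0 ↔ ∃ w ∈ N.N0, u w = v.1)
    (pl : ∀ a v, p ((tri h).M0.l a v) = U.l a (p v))
    (pr : ∀ b v, p ((tri h).M0.r b v) = U.r b (p v)) :
    HasRes (res (α.comp S.proj0) (β.comp T.proj0) U.bim) := by
  have us : Function.Surjective u := LinearMap.injective_iff_surjective.1 ui
  exact MulU_le0 (MulU_stable (h.tw (-n)) u us ul ur) h (MulU_Le N u us n u0 u1) α β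
    (h1.iso (MulU_res α β (MulU_biso (h.tw (-n)) u us ui ul ur))) h0 U p hp hk pl pr

theorem hasRes_quot1 {N : LP k G.E} (h : Stable G N) (α : DHom A S.cech) (β : DHom B T.cech)
    (u : G.E →ₗ[RatFunc k] G.E) (ul : ∀ a x, u (G.l a x) = G.l a (u x))
    (ur : ∀ b x, u (G.r b x) = G.r b (u x)) (ui : Function.Injective u) (n : ℕ)
    (u0 : ∀ v ∈ N.N0, u v ∈ N.N0) (u1 : ∀ v ∈ N.N1, ((X : RatFunc k)⁻¹) ^ n • u v ∈ N.N1)
    (h0 : HasRes (res α β (tri h).bim)) (h1 : HasRes (res α β (tri (h.tw (-n))).bim))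
    (U : KBi k S.A1 T.A1) (p : N.N1 →ₗ[k] U.M) (hp : Function.Surjective p)
    (hk : ∀ v, p v = 0 ↔ ∃ w ∈ N.N1, ((X : RatFunc k)⁻¹) ^ n • u w = v.1)
    (pl : ∀ a v, p ((tri h).M1.l a v) = U.l a (p v))
    (pr : ∀ b v, p ((tri h).M1.r b v) = U.r b (p v)) :
    HasRes (res (α.comp S.proj1) (β.comp T.proj1) U.bim) := by
  have us : Function.Surjective u := LinearMap.injective_iff_surjective.1 ui
  exact MulU_le1 (MulU_stable (h.tw (-n)) u us ul ur) h (MulU_Le N u us n u0 u1) α β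
    (h1.iso (MulU_res α β (MulU_biso (h.tw (-n)) u us ui ul ur))) h0 U p hp
    (fun v => (hk v).trans (MulU_mem1 N u us n v.1).symm) pl pr

end LP

end Pool.Agent.MP_6e5bed_ag_NC
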