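import Pool.Agent.Lib.MP_6e5bed_ag_CV.Beil
import Pool.Agent.Lib.MP_6e5bed_ag_CV.JSpan

set_option autoImplicit false
set_option linter.unusedSectionVars false

/-!
# The classes of tensor products over `k(t)` (NC CURVES)
-/

namespace Pool.Agent.MP_6e5bed_ag_NC

open RatFunc
open scoped TensorProduct

universe u

variable {k : Type u} [Field k]

private theorem ratA_ext {A B : DGA k} {M N : Bim A B} (hM : HasRes (M.shift 1)) (hN : HasRes N)
    (φ : GMap 0 M N) (h : φ.dd = 0) (hc : HasRes (cone φ h)) :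
    rcls _ hc = rcls _ hN + rcls _ hM :=
  (IsExt.isSes (isCone_cone φ h).isExt).rcls hN hc hM

theorem rcls_cone {A B : DGA k} {M N : Bim A B} (hM : HasRes M) (hN : HasRes N) (φ : GMap 0 M N)
    (h : φ.dd = 0) (hc : HasRes (cone φ h)) : rcls _ hc = rcls _ hN - rcls _ hM := by
  have hs : HasRes (M.shift 1) := hM.shift 1
  have h0 : (GMap.id M).dd = 0 := LinearMap.ext fun x => GMap.dd_id x
  have hi : Contr (cone (GMap.id M) h0) := contr_cone_id M
  have hi' : HasRes (cone (GMap.id M) h0) := HasRes.of_acyc hi.acyc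
  have h1 := ratA_ext hs hM (GMap.id M) h0 hi'
  rw [rcls_acyc hi.acyc] at h1
  rw [ratA_ext hs hN φ h hc, sub_eq_add_neg]
  congr 1
  exact eq_neg_of_add_eq_zero_right h1.symm

/-- The class of a tensor product over `k(t)` is a combination of external products. -/
theorem rcls_tens {Good : DGA k → Prop} (hG : Good (base k)) {S : Cosp k}
    {F E : LSp (FExt.triv k)} {l : LAct S.A01 F} {r : RAct S.A01 E} {V : LP k F.F}
    {N : LP k E.F} (hl : l.St V) (hr : r.St N) (h1 : HasRes (CL hl))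
    (h2 : HasRes (CL (hl.tw (-1)))) (h3 : HasRes (CR hr)) (h4 : HasRes (CR (hr.tw (-1))))
    (h : HasRes (LP.tri (stable_tens hl hr)).bim) : rcls _ h ∈ JS Good S.cech := by
  obtain ⟨ν, h0, q, hq⟩ := beil_qiso hl hr
  have a1 : HasRes (tb (CL (hl.tw (-1))) (CR (hr.tw (-1)))) :=
    HasRes.tb base_proper h2 h4 (rflat_base _)
  have a2 : HasRes (tb (CL hl) (CR hr)) := HasRes.tb base_proper h1 h3 (rflat_base _)
  have a3 : HasRes (cone ν h0) := HasRes.cone a1 a2 ν h0
  rw [← rcls_qiso a3 h q hq, rcls_cone a1 a2 ν h0 a3]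
  exact Submodule.sub_mem _ (JS.tb_base hG h1 h3 a2) (JS.tb_base hG h2 h4 a1)

end Pool.Agent.MP_6e5bed_ag_NC
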