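import Pool.Agent.Lib.MP_6e5bed_ag_CV.RTb

set_option autoImplicit false

/-!
# Resolutions of the diagonal act as units on all bimodules (NC CURVES, row 6)

`R → A` is a homotopy equivalence of right (and of left) modules: right linear closed maps from a
perfect bimodule `X : Bim A B` to an acyclic `Y : Bim (base k) B` are homotopic to zero (induction
on `Perf`; free case `A ⊗ B`: a closed right linear map is a chain map from the complex `A` to the
acyclic, hence contractible, complex `Y`; the other cases: `NullTo.mid` etc. for `fgL`).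
-/

namespace Pool.Agent.MP_6e5bed_ag_NC

open scoped TensorProduct

universe u

variable {k : Type u} [Field k] {A B : DGA k}

private theorem resRight_sg {n m : ℤ} (hm : m + 1 = n) : sg m * sg n = -1 := by
  rw [← hm, sg_add, sg_one, mul_neg_one, mul_neg, sg_mul_self]

private theorem resRight_h {M : Bim A B} (hM : Acyc M) : ∃ h : M.M →ₗ[k] M.M,
    (∀ {i : ℤ} {y : M.M}, M.dg.IsDeg i y → M.dg.IsDeg (i + -1) (h y)) ∧
    ∀ y, M.dg.d (h y) + h (M.dg.d y) = y := by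
  obtain ⟨h, hh⟩ := contr_of_acyc (V := und M) hM
  have h1 : ∃ e : M.M →ₗ[k] M.M,
      (∀ {i : ℤ} {y : M.M}, M.dg.IsDeg i y → M.dg.IsDeg (i + -1) (e y)) ∧
      ∀ y, M.dg.d (e y) - sg (-1) • e (M.dg.d y) = y :=
    ⟨h.f, fun {i y} hy => h.deg hy, fun y => LinearMap.congr_fun hh y⟩
  obtain ⟨e, he, he'⟩ := h1
  refine ⟨e, he, fun y => ?_⟩
  have h2 := he' y
  rw [sg_odd (by decide), neg_smul, one_smul, sub_neg_eq_add] at h2
  exact h2

private theorem resRight_rawL {Y : Bim (base k) B} {h : Y.M →ₗ[k] Y.M}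
    (hdeg : ∀ {i : ℤ} {y : Y.M}, Y.dg.IsDeg i y → Y.dg.IsDeg (i + -1) (h y))
    (hh : ∀ y, Y.dg.d (h y) + h (Y.dg.d y) = y) {n m : ℤ} (hm : m + 1 = n)
    (F : A.A ⊗[k] B.A →ₗ[k] Y.M)
    (Fdeg : ∀ {i : ℤ} {x : A.A ⊗[k] B.A}, (A.dg.tensor B.dg).IsDeg i x →
      Y.dg.IsDeg (i + n) (F x))
    (Fr : ∀ a b b', F (a ⊗ₜ B.mul b b') = Y.r b' (F (a ⊗ₜ b)))
    (Fd : ∀ x, Y.dg.d (F x) = sg n • F ((A.dg.tensor B.dg).d x)) :
    ∃ H : A.A ⊗[k] B.A →ₗ[k] Y.M,
      (∀ {i : ℤ} {x : A.A ⊗[k] B.A}, (A.dg.tensor B.dg).IsDeg i x → Y.dg.IsDeg (i + m) (H x)) ∧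
      (∀ a b b', H (a ⊗ₜ B.mul b b') = Y.r b' (H (a ⊗ₜ b))) ∧
      ∀ x, Y.dg.d (H x) - sg m • H ((A.dg.tensor B.dg).d x) = F x := by
  obtain ⟨φ, hφ⟩ : ∃ φ : A.A →ₗ[k] Y.M, ∀ a, φ a = F (a ⊗ₜ B.one) :=
    ⟨F ∘ₗ (TensorProduct.mk k A.A B.A).flip B.one, fun a => rfl⟩
  have hφdeg : ∀ {i : ℤ} {a : A.A}, A.dg.IsDeg i a → Y.dg.IsDeg (i + m) (h (φ a)) := by
    intro i a ha
    have h1 := hdeg (Fdeg (Dg.tensor_deg ha B.one_deg))
    rw [hφ]
    rwa [show i + 0 + n + -1 = i + m by omega] at h1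
  obtain ⟨H, hH⟩ : ∃ H : A.A ⊗[k] B.A →ₗ[k] Y.M, ∀ a b, H (a ⊗ₜ b) = Y.r b (h (φ a)) :=
    ⟨TensorProduct.lift (Y.r.flip ∘ₗ (h ∘ₗ φ)), fun a b => by
      rw [TensorProduct.lift.tmul]
      rfl⟩
  refine ⟨H, fun {i x} hx => ?_, fun a b b' => ?_, fun x => ?_⟩
  · refine Dg.tensor_degMap H (fun i j v w hv hw => ?_) hx
    rw [hH, show i + j + m = i + m + j by ring]
    exact Y.r_deg (hφdeg hv) hw
  · rw [hH, hH, Y.r_mul]
  · induction x using TensorProduct.induction_on with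
    | zero => simp
    | add x y hx hy =>
      rw [map_add, map_add, map_add, map_add, map_add, smul_add, ← hx, ← hy]
      abel
    | tmul a b =>
      have hs : Y.dg.s (h (φ a)) = sg m • h (φ (A.dg.s a)) :=
        Dg.s_degMap (X := A.dg) (Y := Y.dg) (h ∘ₗ φ) (fun {j v} hv => hφdeg hv) a
      have hd1 : h (φ (A.dg.d a)) = sg n • h (Y.dg.d (φ a)) := by
        rw [hφ a, Fd, Dg.tensor_d, B.d_one, TensorProduct.tmul_zero, add_zero, map_zsmul,
          smul_smul, sg_mul_self, one_smul, hφ]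
      have h1 : F (a ⊗ₜ b) = Y.r b (φ a) := by
        rw [hφ, ← Fr, B.one_mul]
      rw [hH, Y.d_r, Dg.tensor_d, map_add, hH, hH, hs, hd1, h1, map_zsmul, map_zsmul, smul_add,
        smul_smul, resRight_sg hm, neg_smul, one_smul]
      conv_rhs => rw [← hh (φ a), map_add]
      abel

private theorem resRight_rawR {Y : Bim A (base k)} {h : Y.M →ₗ[k] Y.M}
    (hdeg : ∀ {i : ℤ} {y : Y.M}, Y.dg.IsDeg i y → Y.dg.IsDeg (i + -1) (h y))
    (hh : ∀ y, Y.dg.d (h y) + h (Y.dg.d y) = y) {n m : ℤ} (hm : m + 1 = n)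
    (F : A.A ⊗[k] B.A →ₗ[k] Y.M)
    (Fdeg : ∀ {i : ℤ} {x : A.A ⊗[k] B.A}, (A.dg.tensor B.dg).IsDeg i x →
      Y.dg.IsDeg (i + n) (F x))
    (Fl : ∀ a' a b, F (A.mul a' a ⊗ₜ b) = Y.l (A.dg.sp n a') (F (a ⊗ₜ b)))
    (Fd : ∀ x, Y.dg.d (F x) = sg n • F ((A.dg.tensor B.dg).d x)) :
    ∃ H : A.A ⊗[k] B.A →ₗ[k] Y.M,
      (∀ {i : ℤ} {x : A.A ⊗[k] B.A}, (A.dg.tensor B.dg).IsDeg i x → Y.dg.IsDeg (i + m) (H x)) ∧
      (∀ a' a b, H (A.mul a' a ⊗ₜ b) = Y.l (A.dg.sp m a') (H (a ⊗ₜ b))) ∧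
      ∀ x, Y.dg.d (H x) - sg m • H ((A.dg.tensor B.dg).d x) = F x := by
  obtain ⟨ψ, hψ⟩ : ∃ ψ : B.A →ₗ[k] Y.M, ∀ b, ψ b = F (A.one ⊗ₜ b) :=
    ⟨F ∘ₗ TensorProduct.mk k A.A B.A A.one, fun a => rfl⟩
  have hψdeg : ∀ {i : ℤ} {b : B.A}, B.dg.IsDeg i b → Y.dg.IsDeg (m + i) (h (ψ b)) := by
    intro i b hb
    have h1 := hdeg (Fdeg (Dg.tensor_deg A.one_deg hb))
    rw [hψ]
    rwa [show 0 + i + n + -1 = m + i by omega] at h1
  obtain ⟨H, hH⟩ : ∃ H : A.A ⊗[k] B.A →ₗ[k] Y.M,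
      ∀ a b, H (a ⊗ₜ b) = Y.l (A.dg.sp m a) (h (ψ b)) :=
    ⟨TensorProduct.lift ((Y.l ∘ₗ A.dg.sp m).compl₂ (h ∘ₗ ψ)), fun a b => by
      rw [TensorProduct.lift.tmul]
      rfl⟩
  refine ⟨H, fun {i x} hx => ?_, fun a' a b => ?_, fun x => ?_⟩
  · refine Dg.tensor_degMap H (fun i j v w hv hw => ?_) hx
    rw [hH, show i + j + m = i + (m + j) by ring]
    exact Y.l_deg hv.sp (hψdeg hw)
  · have h1 : A.dg.sp m (A.mul a' a) = A.mul (A.dg.sp m a') (A.dg.sp m a) :=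
      (diag A).sp_l m a' a
    rw [hH, hH, h1, Y.l_mul]
  · induction x using TensorProduct.induction_on with
    | zero => simp
    | add x y hx hy =>
      rw [map_add, map_add, map_add, map_add, map_add, smul_add, ← hx, ← hy]
      abel
    | tmul a b =>
      have hd1 : h (ψ (B.dg.d b)) = sg n • h (Y.dg.d (ψ b)) := by
        rw [hψ b, Fd, Dg.tensor_d, A.d_one, TensorProduct.zero_tmul, zero_add, A.s_one,
          map_zsmul, smul_smul, sg_mul_self, one_smul, hψ]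
      have h1 : F (a ⊗ₜ b) = Y.l (A.dg.sp n a) (ψ b) := by
        rw [hψ, ← Fl, A.mul_one]
      have h2 : A.dg.sp n a = A.dg.sp m (A.dg.s a) := by
        rw [← hm, Dg.sp_add, Dg.sp_one]
      rw [hH, Y.d_l, Dg.tensor_d, map_add, hH, hH, hd1, h1, h2, Dg.d_sp, Dg.s_sp, map_zsmul,
        map_zsmul, LinearMap.smul_apply, smul_add, smul_smul, resRight_sg hm, neg_smul, one_smul]
      conv_rhs => rw [← hh (ψ b), map_add]
      abel

private theorem resRight_freeL {Y : Bim (base k) B} (hY : Acyc Y) :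
    NullTo (fgL (free A B)) Y := by
  intro n m f hf hm
  obtain ⟨h, hdeg, hh⟩ := resRight_h hY
  obtain ⟨F, hF⟩ : ∃ F : A.A ⊗[k] B.A →ₗ[k] Y.M, ∀ x, F x = f.f x := ⟨f.f, fun _ => rfl⟩
  obtain ⟨H, H1, H2, H3⟩ := resRight_rawL (A := A) hdeg hh hm F
    (fun {i x} hx => by rw [hF]; exact f.deg hx)
    (fun a b b' => by rw [hF, hF]; exact f.map_r b' (a ⊗ₜ[k] b : A.A ⊗[k] B.A))
    (fun x => by rw [hF, hF]; exact GMap.d_f hf x)
  have Hr : ∀ b' (x : A.A ⊗[k] B.A),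
      H (LinearMap.lTensor A.A (B.mul.flip b') x) = Y.r b' (H x) := by
    intro b' x
    induction x using TensorProduct.induction_on with
    | zero => rw [map_zero, map_zero, map_zero]
    | add x y hx hy => rw [map_add, map_add, hx, hy, map_add, map_add]
    | tmul a b =>
      rw [LinearMap.lTensor_tmul]
      exact H2 a b b'
  refine ⟨⟨H, fun {i x} hx => H1 hx, fun c x => ?_, fun b x => Hr b x⟩, fun x => ?_⟩
  · have h1 : (base k).dg.sp m c = c := by
      rcases Int.even_or_odd m with h | h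
      · exact Dg.sp_even h c
      · rw [Dg.sp_odd h]
        exact base_s (k := k) c
    rw [h1]
    have h2 : (fgL (free A B)).l c x = (show k from c) • x := base_l (fgL (free A B)) c x
    have h3 : Y.l c (H x) = (show k from c) • H x := base_l Y c (H x)
    rw [h2]
    exact (map_smul H (show k from c) x).trans h3.symm
  · exact (H3 x).trans (hF x)

private theorem resRight_freeR {Y : Bim A (base k)} (hY : Acyc Y) :
    NullTo (fgR (free A B)) Y := by
  intro n m f hf hm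
  obtain ⟨h, hdeg, hh⟩ := resRight_h hY
  obtain ⟨F, hF⟩ : ∃ F : A.A ⊗[k] B.A →ₗ[k] Y.M, ∀ x, F x = f.f x := ⟨f.f, fun _ => rfl⟩
  obtain ⟨H, H1, H2, H3⟩ := resRight_rawR (B := B) hdeg hh hm F
    (fun {i x} hx => by rw [hF]; exact f.deg hx)
    (fun a' a b => by rw [hF, hF]; exact f.map_l a' (a ⊗ₜ[k] b : A.A ⊗[k] B.A))
    (fun x => by rw [hF, hF]; exact GMap.d_f hf x)
  have Hl : ∀ a' (x : A.A ⊗[k] B.A),
      H (LinearMap.rTensor B.A (A.mul a') x) = Y.l (A.dg.sp m a') (H x) := by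
    intro a' x
    induction x using TensorProduct.induction_on with
    | zero => rw [map_zero, map_zero, map_zero]
    | add x y hx hy => rw [map_add, map_add, hx, hy, map_add, map_add]
    | tmul a b =>
      rw [LinearMap.rTensor_tmul]
      exact H2 a' a b
  refine ⟨⟨H, fun {i x} hx => H1 hx, fun a x => Hl a x, fun c x => ?_⟩, fun x => ?_⟩
  · have h2 : (fgR (free A B)).r c x = (show k from c) • x := base_r (fgR (free A B)) c x
    have h3 : Y.r c (H x) = (show k from c) • H x := base_r Y c (H x)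
    rw [h2]
    exact (map_smul H (show k from c) x).trans h3.symm
  · exact (H3 x).trans (hF x)

theorem nullTo_fgL {X : Bim A B} (hX : Perf X) {Y : Bim (base k) B} (hY : Acyc Y) :
    NullTo (fgL X) Y := by
  induction hX with
  | free => exact resRight_freeL hY
  | contr h => exact NullTo.of_contr ((resF (DHom.unit A) (DHom.id B)).contr h) Y
  | mid h _ _ h1 h2 => exact NullTo.mid ((resF (DHom.unit A) (DHom.id B)).isExt h) h1 h2
  | left h _ _ h1 h2 => exact NullTo.left ((resF (DHom.unit A) (DHom.id B)).isExt h) h1 h2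
  | right h _ _ h1 h2 => exact NullTo.right ((resF (DHom.unit A) (DHom.id B)).isExt h) h1 h2
  | summand h _ h1 => exact NullTo.summand ((resF (DHom.unit A) (DHom.id B)).isSummand h) h1

theorem nullTo_fgR {X : Bim A B} (hX : Perf X) {Y : Bim A (base k)} (hY : Acyc Y) :
    NullTo (fgR X) Y := by
  induction hX with
  | free => exact resRight_freeR hY
  | contr h => exact NullTo.of_contr ((resF (DHom.id A) (DHom.unit B)).contr h) Y
  | mid h _ _ h1 h2 => exact NullTo.mid ((resF (DHom.id A) (DHom.unit B)).isExt h) h1 h2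
  | left h _ _ h1 h2 => exact NullTo.left ((resF (DHom.id A) (DHom.unit B)).isExt h) h1 h2
  | right h _ _ h1 h2 => exact NullTo.right ((resF (DHom.id A) (DHom.unit B)).isExt h) h1 h2
  | summand h _ h1 => exact NullTo.summand ((resF (DHom.id A) (DHom.unit B)).isSummand h) h1

private theorem resRight_htpy {M N : Bim A B} {f : GMap 0 M N} (hf : QIso f)
    (hM : ∀ Y : Bim A B, Acyc Y → NullTo M Y) (hN : ∀ Y : Bim A B, Acyc Y → NullTo N Y) :
    HtpyEq f := by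
  have hC := isCone_cone f hf.1
  have hA : Acyc (cone f hf.1) := (hC.qiso_iff hf.1).1 hf
  have h1 : IsExt M (cone (GMap.id M) (LinearMap.ext GMap.dd_id)) (M.shift 1) :=
    (isCone_cone (GMap.id M) (LinearMap.ext GMap.dd_id)).isExt
  have h2 : NullTo (M.shift 1) (cone f hf.1) :=
    NullTo.right h1 (hM _ hA) (NullTo.of_contr (contr_cone_id M) _)
  have h3 : NullTo (cone f hf.1) (cone f hf.1) := NullTo.mid hC.isExt (hN _ hA) h2
  exact hC.htpyEq hf.1 (contr_of_nullTo h3)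

private theorem resRight_diagL {Y : Bim (base k) B} (hY : Acyc Y) :
    NullTo (fgL (diag B)) Y := by
  intro n m f hf hm
  obtain ⟨F, hF⟩ : ∃ F : B.A →ₗ[k] Y.M, ∀ x, F x = f.f x := ⟨f.f, fun _ => rfl⟩
  have Fr : ∀ b b', F (B.mul b b') = Y.r b' (F b) := fun b b' => by
    rw [hF, hF]
    exact f.map_r b' b
  have Fdeg : ∀ {i : ℤ} {x : B.A}, B.dg.IsDeg i x → Y.dg.IsDeg (i + n) (F x) := by
    intro i x hx
    rw [hF]
    exact f.deg hx
  have Fd : ∀ x, Y.dg.d (F x) = sg n • F (B.dg.d x) := fun x => by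
    rw [hF, hF]
    exact GMap.d_f hf x
  obtain ⟨z0, hz0⟩ := hY (F B.one) (by rw [Fd, B.d_one, map_zero, smul_zero])
  have hz : Y.dg.IsDeg m (Y.dg.ρ z0 m) := Dg.isDeg_ρ z0 m
  have hdz : Y.dg.d (Y.dg.ρ z0 m) = F B.one := by
    rw [← Y.dg.ρ_d, hz0, hm]
    have h3 : Y.dg.ρ (F B.one) = Finsupp.single n (F B.one) := by
      have h4 := Fdeg B.one_deg
      rw [zero_add] at h4
      exact h4
    rw [h3, Finsupp.single_eq_same]
  set z := Y.dg.ρ z0 m with hzdef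
  obtain ⟨H, hH⟩ : ∃ H : B.A →ₗ[k] Y.M, ∀ b, H b = Y.r b z := ⟨Y.r.flip z, fun b => rfl⟩
  have hs : Y.dg.s z = sg m • z := by
    have h1 := Dg.sp_of_deg 1 hz
    rwa [Dg.sp_one, one_mul] at h1
  refine ⟨⟨H, fun {i x} hx => ?_, fun c x => ?_, fun b x => ?_⟩, fun x => ?_⟩
  · have h1 : ∀ (i : ℤ) (x : B.A), B.dg.IsDeg i x → Y.dg.IsDeg (i + m) (H x) := by
      intro i x hx
      rw [hH, add_comm]
      exact Y.r_deg hz hx
    exact h1 i x hx
  · have h1 : (base k).dg.sp m c = c := by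
      rcases Int.even_or_odd m with h | h
      · exact Dg.sp_even h c
      · rw [Dg.sp_odd h]
        exact base_s (k := k) c
    rw [h1]
    have h2 : (fgL (diag B)).l c x = (show k from c) • x := base_l (fgL (diag B)) c x
    have h3 : Y.l c (H x) = (show k from c) • H x := base_l Y c (H x)
    rw [h2]
    exact (map_smul H (show k from c) x).trans h3.symm
  · have h1 : ∀ x b : B.A, H (B.mul x b) = Y.r b (H x) := fun x b => by
      rw [hH, hH, Y.r_mul]
    exact h1 x b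
  · have h1 : ∀ x : B.A, Y.dg.d (H x) - sg m • H (B.dg.d x) = F x := fun x => by
      rw [hH, hH, Y.d_r, hdz, hs, map_zsmul, add_sub_cancel_right, ← Fr, B.one_mul]
    exact (h1 x).trans (hF x)

private theorem resRight_diagR {Y : Bim A (base k)} (hY : Acyc Y) :
    NullTo (fgR (diag A)) Y := by
  intro n m f hf hm
  obtain ⟨F, hF⟩ : ∃ F : A.A →ₗ[k] Y.M, ∀ x, F x = f.f x := ⟨f.f, fun _ => rfl⟩
  have Fl : ∀ a a', F (A.mul a a') = Y.l (A.dg.sp n a) (F a') := fun a a' => by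
    rw [hF, hF]
    exact f.map_l a a'
  have Fdeg : ∀ {i : ℤ} {x : A.A}, A.dg.IsDeg i x → Y.dg.IsDeg (i + n) (F x) := by
    intro i x hx
    rw [hF]
    exact f.deg hx
  have Fd : ∀ x, Y.dg.d (F x) = sg n • F (A.dg.d x) := fun x => by
    rw [hF, hF]
    exact GMap.d_f hf x
  obtain ⟨z0, hz0⟩ := hY (F A.one) (by rw [Fd, A.d_one, map_zero, smul_zero])
  have hz : Y.dg.IsDeg m (Y.dg.ρ z0 m) := Dg.isDeg_ρ z0 m
  have hdz : Y.dg.d (Y.dg.ρ z0 m) = F A.one := by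
    rw [← Y.dg.ρ_d, hz0, hm]
    have h3 : Y.dg.ρ (F A.one) = Finsupp.single n (F A.one) := by
      have h4 := Fdeg A.one_deg
      rw [zero_add] at h4
      exact h4
    rw [h3, Finsupp.single_eq_same]
  set z := Y.dg.ρ z0 m with hzdef
  obtain ⟨H, hH⟩ : ∃ H : A.A →ₗ[k] Y.M, ∀ a, H a = Y.l (A.dg.sp m a) z :=
    ⟨Y.l.flip z ∘ₗ A.dg.sp m, fun b => rfl⟩
  refine ⟨⟨H, fun {i x} hx => ?_, fun a x => ?_, fun c x => ?_⟩, fun x => ?_⟩
  · have h1 : ∀ (i : ℤ) (x : A.A), A.dg.IsDeg i x → Y.dg.IsDeg (i + m) (H x) := by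
      intro i x hx
      rw [hH]
      exact Y.l_deg (Dg.IsDeg.sp hx) hz
    exact h1 i x hx
  · have h1 : ∀ a x : A.A, H (A.mul a x) = Y.l (A.dg.sp m a) (H x) := fun a x => by
      have h2 : A.dg.sp m (A.mul a x) = A.mul (A.dg.sp m a) (A.dg.sp m x) :=
        (diag A).sp_l m a x
      rw [hH, hH, h2, Y.l_mul]
    exact h1 a x
  · have h2 : (fgR (diag A)).r c x = (show k from c) • x := base_r (fgR (diag A)) c x
    have h3 : Y.r c (H x) = (show k from c) • H x := base_r Y c (H x)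
    rw [h2]
    exact (map_smul H (show k from c) x).trans h3.symm
  · have h1 : ∀ x : A.A, Y.dg.d (H x) - sg m • H (A.dg.d x) = F x := fun x => by
      have h2 : A.dg.sp n x = A.dg.sp m (A.dg.s x) := by
        rw [← hm, Dg.sp_add, Dg.sp_one]
      rw [hH, hH, Y.d_l, hdz, Dg.d_sp, Dg.s_sp, map_zsmul, LinearMap.smul_apply,
        add_sub_cancel_left, ← h2, ← Fl, A.mul_one]
    exact (h1 x).trans (hF x)

private theorem resRight_qisoR {R : Bim A A} (hR : Perf R) {f : GMap 0 R (diag A)}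
    (hf : QIso f) (N : Bim A B) : QIso (f.tbR N) := by
  have h1 : QIso (f.res (DHom.unit A) (DHom.id A)) := hf
  have h2 : HtpyEq (f.res (DHom.unit A) (DHom.id A)) :=
    resRight_htpy h1 (fun Y hY => nullTo_fgL hR hY) (fun Y hY => resRight_diagL hY)
  have h3 := (h2.map (tbR (base k) N)).qiso
  exact h3

private theorem resRight_qisoL {R : Bim B B} (hR : Perf R) {f : GMap 0 R (diag B)}
    (hf : QIso f) (N : Bim A B) : QIso (f.tbL N) := by
  have h1 : QIso (f.res (DHom.id B) (DHom.unit B)) := hf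
  have h2 : HtpyEq (f.res (DHom.id B) (DHom.unit B)) :=
    resRight_htpy h1 (fun Y hY => nullTo_fgR hR hY) (fun Y hY => resRight_diagR hY)
  have h3 := (h2.map (tbL N (base k))).qiso
  exact h3

/-- `R ⊗_A N → A ⊗_A N = N` is a quasi-isomorphism. -/
theorem qiso_tbR_diag {R : Bim A A} (hR : Perf R) {f : GMap 0 R (diag A)} (hf : QIso f)
    (N : Bim A B) : ∃ g : GMap 0 (tb R N) N, QIso g := by
  have h1 := resRight_qisoR hR hf N
  obtain ⟨φ, ψ, h2, h3, h4⟩ := tb_diag_left N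
  exact ⟨_, h1.comp (qiso_of_inv h2 h3 h4)⟩

/-- `N ⊗_B R → N ⊗_B B = N` is a quasi-isomorphism. -/
theorem qiso_tbL_diag {R : Bim B B} (hR : Perf R) {f : GMap 0 R (diag B)} (hf : QIso f)
    (N : Bim A B) : ∃ g : GMap 0 (tb N R) N, QIso g := by
  have h1 := resRight_qisoL hR hf N
  obtain ⟨φ, ψ, h2, h3, h4⟩ := tb_diag_right N
  exact ⟨_, h1.comp (qiso_of_inv h2 h3 h4)⟩

end Pool.Agent.MP_6e5bed_ag_NC
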