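import Pool.Agent.Lib.MP_6e5bed_ag_CV.LSub
import Pool.Agent.Lib.MP_6e5bed_ag_CV.LRes

set_option autoImplicit false
set_option linter.unusedSectionVars false

/-!
# Direct summands of generic fibres (NC CURVES)

`N₁ = N ∩ σ⁻¹(N')` and `N₁' = N' ∩ μ⁻¹(N₁)` are stable lattice pairs, and `LP.isSummand` applies.
-/

namespace Pool.Agent.MP_6e5bed_ag_NC

open RatFunc
open scoped TensorProduct

universe u

variable {k : Type u} [Field k] {S T : Cosp k} {A B : DGA k}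

private theorem Retr_summand_res {A' B' : DGA k} {M N : Bim A' B'} (h : IsSummand M N)
    (α : DHom A A') (β : DHom B B') : IsSummand (res α β M) (res α β N) := by
  obtain ⟨i, r, hi, hr, h⟩ := h
  exact ⟨i.res α β, r.res α β, hi, hr, h⟩

section

variable {E E' : Type u} [AddCommGroup E] [Module (RatFunc k) E] [Module k E]
  [IsScalarTower k (RatFunc k) E] [AddCommGroup E'] [Module (RatFunc k) E'] [Module k E']
  [IsScalarTower k (RatFunc k) E']

/-- The lattice pair `N ∩ f⁻¹(N')`. -/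
private noncomputable def Retr_inf (N : LP k E) (N' : LP k E') (f : E →ₗ[RatFunc k] E') :
    LP k E where
  N0 := N.N0 ⊓ N'.N0.comap (f.restrictScalars (kk k X))
  N1 := N.N1 ⊓ N'.N1.comap (f.restrictScalars (kk k X⁻¹))
  fg0 := Submodule.FG.of_le N.fg0 inf_le_left
  fg1 := Submodule.FG.of_le N.fg1 inf_le_left
  sp0 := by
    rw [span_top_iff_X]
    intro v
    obtain ⟨g, hg0, hg⟩ := (span_top_iff_X _).1 N.sp0 v
    obtain ⟨g', hg0', hg'⟩ := (span_top_iff_X _).1 N'.sp0 (f v)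
    refine ⟨g * g', mul_ne_zero hg0 hg0', ?_, ?_⟩
    · change (g * g') • v ∈ N.N0
      rw [mul_comm, mul_smul]
      exact N.N0.smul_mem _ hg
    · change (f.restrictScalars (kk k X)) ((g * g') • v) ∈ N'.N0
      rw [map_smul, mul_smul]
      exact N'.N0.smul_mem _ hg'
  sp1 := by
    rw [span_top_iff_Xi]
    intro v
    obtain ⟨g, hg0, hg⟩ := (span_top_iff_Xi _).1 N.sp1 v
    obtain ⟨g', hg0', hg'⟩ := (span_top_iff_Xi _).1 N'.sp1 (f v)
    refine ⟨g * g', mul_ne_zero hg0 hg0', ?_, ?_⟩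
    · change (g * g') • v ∈ N.N1
      rw [mul_comm, mul_smul]
      exact N.N1.smul_mem _ hg
    · change (f.restrictScalars (kk k X⁻¹)) ((g * g') • v) ∈ N'.N1
      rw [map_smul, mul_smul]
      exact N'.N1.smul_mem _ hg'
  loc01 := by
    rintro v ⟨h1, h2⟩
    obtain ⟨n, hn⟩ := N.loc01 v h1
    obtain ⟨m, hm⟩ := N'.loc01 (f v) h2
    refine ⟨n + m, ?_, ?_⟩
    · change ((X : RatFunc k)⁻¹) ^ (n + m) • v ∈ N.N1
      rw [add_comm, pow_add, mul_smul]
      exact N.Xi_pow_mem hn m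
    · change f (((X : RatFunc k)⁻¹) ^ (n + m) • v) ∈ N'.N1
      rw [map_smul, pow_add, mul_smul]
      exact N'.Xi_pow_mem hm n
  loc10 := by
    rintro v ⟨h1, h2⟩
    obtain ⟨n, hn⟩ := N.loc10 v h1
    obtain ⟨m, hm⟩ := N'.loc10 (f v) h2
    refine ⟨n + m, ?_, ?_⟩
    · change (X : RatFunc k) ^ (n + m) • v ∈ N.N0
      rw [add_comm, pow_add, mul_smul]
      exact N.X_pow_mem hn m
    · change f ((X : RatFunc k) ^ (n + m) • v) ∈ N'.N0
      rw [map_smul, pow_add, mul_smul]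
      exact N'.X_pow_mem hm n

private theorem Retr_mem0 (N : LP k E) (N' : LP k E') (f : E →ₗ[RatFunc k] E') (v : E) :
    v ∈ (Retr_inf N N' f).N0 ↔ v ∈ N.N0 ∧ f v ∈ N'.N0 :=
  Iff.rfl

private theorem Retr_mem1 (N : LP k E) (N' : LP k E') (f : E →ₗ[RatFunc k] E') (v : E) :
    v ∈ (Retr_inf N N' f).N1 ↔ v ∈ N.N1 ∧ f v ∈ N'.N1 :=
  Iff.rfl

private theorem Retr_mem01 (N : LP k E) (N' : LP k E') (f : E →ₗ[RatFunc k] E') (v : E) :
    v ∈ (Retr_inf N N' f).N01 ↔ v ∈ N.N01 ∧ f v ∈ N'.N01 := by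
  constructor
  · rintro ⟨n, hn⟩
    rw [Retr_mem0] at hn
    refine ⟨⟨n, hn.1⟩, ⟨n, ?_⟩⟩
    rw [← map_smul]
    exact hn.2
  · rintro ⟨⟨n, hn⟩, ⟨m, hm⟩⟩
    refine ⟨n + m, ?_⟩
    rw [Retr_mem0]
    constructor
    · rw [add_comm, pow_add, mul_smul]
      exact N.X_pow_mem hn m
    · rw [map_smul, pow_add, mul_smul]
      exact N'.X_pow_mem hm n

end

private theorem Retr_stable {G G' : GBi k S.A01 T.A01} {N : LP k G.E} {N' : LP k G'.E}
    (f : G.E →ₗ[RatFunc k] G'.E) (fl : ∀ a x, f (G.l a x) = G'.l a (f x))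
    (fr : ∀ a x, f (G.r a x) = G'.r a (f x)) (h : LP.Stable G N) (h' : LP.Stable G' N') :
    LP.Stable G (Retr_inf N N' f) where
  l0 := by
    intro a v hv
    rw [Retr_mem0] at hv ⊢
    refine ⟨h.l0 a v hv.1, ?_⟩
    rw [fl]
    exact h'.l0 a _ hv.2
  r0 := by
    intro a v hv
    rw [Retr_mem0] at hv ⊢
    refine ⟨h.r0 a v hv.1, ?_⟩
    rw [fr]
    exact h'.r0 a _ hv.2
  l1 := by
    intro a v hv
    rw [Retr_mem1] at hv ⊢
    refine ⟨h.l1 a v hv.1, ?_⟩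
    rw [fl]
    exact h'.l1 a _ hv.2
  r1 := by
    intro a v hv
    rw [Retr_mem1] at hv ⊢
    refine ⟨h.r1 a v hv.1, ?_⟩
    rw [fr]
    exact h'.r1 a _ hv.2
  l01 := by
    intro a v hv
    rw [Retr_mem01] at hv ⊢
    refine ⟨h.l01 a v hv.1, ?_⟩
    rw [fl]
    exact h'.l01 a _ hv.2
  r01 := by
    intro a v hv
    rw [Retr_mem01] at hv ⊢
    refine ⟨h.r01 a v hv.1, ?_⟩
    rw [fr]
    exact h'.r01 a _ hv.2

theorem hasRes_retract {G G' : GBi k S.A01 T.A01} (σ : G.E →ₗ[RatFunc k] G'.E)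
    (μ : G'.E →ₗ[RatFunc k] G.E) (σl : ∀ a x, σ (G.l a x) = G'.l a (σ x))
    (σr : ∀ a x, σ (G.r a x) = G'.r a (σ x)) (μl : ∀ a x, μ (G'.l a x) = G.l a (μ x))
    (μr : ∀ a x, μ (G'.r a x) = G.r a (μ x)) (hμ : ∀ x, μ (σ x) = x) (α : DHom A S.cech)
    (β : DHom B T.cech) (ht : ∀ τ : Tri S T, τ.Tors → HasRes (res α β τ.bim)) {N : LP k G.E}
    {N' : LP k G'.E} (h : LP.Stable G N) (h' : LP.Stable G' N')
    (hN' : HasRes (res α β (LP.tri h').bim)) : HasRes (res α β (LP.tri h).bim) := by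
  have h1 : LP.Stable G (Retr_inf N N' σ) := Retr_stable σ σl σr h h'
  have h2 : LP.Stable G' (Retr_inf N' (Retr_inf N N' σ) μ) := Retr_stable μ μl μr h' h1
  have hs : IsSummand (LP.tri h1).bim (LP.tri h2).bim := by
    refine LP.isSummand h1 h2 σ μ σl σr μl μr hμ ?_ ?_ ?_ ?_
    · intro x hx
      rw [Retr_mem0]
      refine ⟨((Retr_mem0 _ _ _ _).1 hx).2, ?_⟩
      rw [hμ]
      exact hx
    · intro x hx
      rw [Retr_mem1]
      refine ⟨((Retr_mem1 _ _ _ _).1 hx).2, ?_⟩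
      rw [hμ]
      exact hx
    · intro x hx
      exact ((Retr_mem0 _ _ _ _).1 hx).2
    · intro x hx
      exact ((Retr_mem1 _ _ _ _).1 hx).2
  have h3 : HasRes (res α β (LP.tri h2).bim) := (LP.hasRes_iff α β ht h' h2).1 hN'
  have h4 : HasRes (res α β (LP.tri h1).bim) := HasRes.summand h3 (Retr_summand_res hs α β)
  exact (LP.hasRes_iff α β ht h1 h).1 h4

end Pool.Agent.MP_6e5bed_ag_NC
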