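import Pool.Agent.Lib.MP_6e5bed_ag_CV.DualB
import Pool.Agent.Lib.MP_6e5bed_ag_CV.Morita
import Pool.Agent.Lib.MP_6e5bed_ag_CV.Ring0

set_option autoImplicit false
set_option linter.unusedSectionVars false

/-!
# Simple modules over the endomorphisms of a vector bundle (NC CURVES)

Apply `morita` to `Z` the integral closure, `R = EAc`, `M = N`, `M' = dualc` for left modules, and
to `R` the opposite ring, `M = dualc`, `M' = N` for right modules.
-/

namespace Pool.Agent.MP_6e5bed_ag_NC

open RatFunc
open scoped TensorProduct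

universe u

variable {k : Type u} [Field k] {D : FExt k}

/-- The endomorphisms which preserve `N`. -/
noncomputable def EAc (c : RatFunc k) {F : LSp D} (N : Submodule (kk k c) F.F) :
    Subalgebra k (Module.End D.L F.F) where
  carrier := {f | ∀ v ∈ N, f v ∈ N}
  mul_mem' := fun {_ _} hf hg v hv => hf _ (hg v hv)
  add_mem' := fun {_ _} hf hg v hv => N.add_mem (hf v hv) (hg v hv)
  algebraMap_mem' := fun a v hv => by
    exact Submodule.smul_mem (Submodule.restrictScalars k N) a hv

/-- The dual lattice. -/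
noncomputable def dualc (c : RatFunc k) {F : LSp D} (N : Submodule (kk k c) F.F) :
    Submodule (kk k c) (F.F →ₗ[D.L] D.L) where
  carrier := {f | ∀ v ∈ N, IsIntegral (kk k c) (f v)}
  add_mem' := fun {_ _} hf hg v hv => (hf v hv).add (hg v hv)
  zero_mem' := fun v _ => by
    exact isIntegral_zero
  smul_mem' := fun a _ hf v hv => by
    exact IsIntegral.smul a (hf v hv)

/-! ### auxiliary structures -/

section Aux

variable (c : RatFunc k) {F : LSp D} (N : Submodule (kk k c) F.F)

/-- The module structure over the integral closure. -/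
@[reducible] private noncomputable def SimpLR_modZ
    (hB : ∀ b : D.L, IsIntegral (kk k c) b → ∀ v ∈ N, b • v ∈ N) :
    Module (integralClosure (kk k c) D.L) N where
  smul z v := ⟨z.1 • v.1, hB z.1 z.2 v.1 v.2⟩
  one_smul v := Subtype.ext (one_smul D.L v.1)
  mul_smul z w v := Subtype.ext (mul_smul z.1 w.1 v.1)
  smul_zero z := Subtype.ext (smul_zero z.1)
  smul_add z v w := Subtype.ext (smul_add z.1 v.1 w.1)
  add_smul z w v := Subtype.ext (add_smul z.1 w.1 v.1)
  zero_smul v := Subtype.ext (zero_smul D.L v.1)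

/-- The action of the endomorphisms. -/
@[reducible] private noncomputable def SimpLR_modR : Module (EAc c N) N where
  smul a v := ⟨a.1 v.1, a.2 v.1 v.2⟩
  one_smul _ := rfl
  mul_smul _ _ _ := rfl
  smul_zero a := Subtype.ext (map_zero a.1)
  smul_add a v w := Subtype.ext (map_add a.1 v.1 w.1)
  add_smul _ _ _ := rfl
  zero_smul _ := rfl

/-- The module structure over the integral closure of the dual lattice. -/
@[reducible] private noncomputable def SimpLR_modZd :
    Module (integralClosure (kk k c) D.L) (dualc c N) where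
  smul z f := ⟨z.1 • f.1, fun v hv => IsIntegral.mul z.2 (f.2 v hv)⟩
  one_smul v := Subtype.ext (one_smul D.L v.1)
  mul_smul z w v := Subtype.ext (mul_smul z.1 w.1 v.1)
  smul_zero z := Subtype.ext (smul_zero z.1)
  smul_add z v w := Subtype.ext (smul_add z.1 v.1 w.1)
  add_smul z w v := Subtype.ext (add_smul z.1 w.1 v.1)
  zero_smul v := Subtype.ext (zero_smul D.L v.1)

/-- The action of the opposite ring of the endomorphisms on the dual lattice. -/
@[reducible] private noncomputable def SimpLR_modRd : Module (EAc c N)ᵐᵒᵖ (dualc c N) where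
  smul a f := ⟨f.1.comp a.unop.1, fun v hv => f.2 _ (a.unop.2 v hv)⟩
  one_smul _ := rfl
  mul_smul _ _ _ := rfl
  smul_zero _ := rfl
  smul_add _ _ _ := rfl
  add_smul a b f := Subtype.ext (LinearMap.ext fun x => map_add f.1 (a.unop.1 x) (b.unop.1 x))
  zero_smul f := Subtype.ext (LinearMap.ext fun _ => map_zero f.1)

/-- The integral closure is central in the endomorphisms. -/
private noncomputable def SimpLR_zeta
    (hB : ∀ b : D.L, IsIntegral (kk k c) b → ∀ v ∈ N, b • v ∈ N) :
    integralClosure (kk k c) D.L →+* EAc c N where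
  toFun z := ⟨algebraMap D.L (Module.End D.L F.F) z.1, fun v hv => hB z.1 z.2 v hv⟩
  map_one' := Subtype.ext (map_one (algebraMap D.L (Module.End D.L F.F)))
  map_mul' z w := Subtype.ext (map_mul (algebraMap D.L (Module.End D.L F.F)) z.1 w.1)
  map_zero' := Subtype.ext (map_zero (algebraMap D.L (Module.End D.L F.F)))
  map_add' z w := Subtype.ext (map_add (algebraMap D.L (Module.End D.L F.F)) z.1 w.1)

/-- Rank one endomorphisms. -/
private noncomputable def SimpLR_tau
    (hB : ∀ b : D.L, IsIntegral (kk k c) b → ∀ v ∈ N, b • v ∈ N) :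
    N →+ dualc c N →+ EAc c N :=
  AddMonoidHom.mk' (fun v => AddMonoidHom.mk'
    (fun f => (⟨f.1.smulRight v.1, fun x hx => hB _ (f.2 x hx) _ v.2⟩ : EAc c N))
    (fun f g => Subtype.ext (LinearMap.ext fun x => add_smul (f.1 x) (g.1 x) v.1)))
    (fun v w => AddMonoidHom.ext fun f =>
      Subtype.ext (LinearMap.ext fun x => smul_add (f.1 x) v.1 w.1))

/-- Rank one endomorphisms. -/
private noncomputable def SimpLR_taud
    (hB : ∀ b : D.L, IsIntegral (kk k c) b → ∀ v ∈ N, b • v ∈ N) :
    dualc c N →+ N →+ (EAc c N)ᵐᵒᵖ :=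
  AddMonoidHom.mk' (fun f => AddMonoidHom.mk'
    (fun v => MulOpposite.op (SimpLR_tau c N hB v f))
    (fun v w => by rw [map_add, AddMonoidHom.add_apply, MulOpposite.op_add]))
    (fun f g => AddMonoidHom.ext fun v => by
      change MulOpposite.op (SimpLR_tau c N hB v (f + g)) =
        MulOpposite.op (SimpLR_tau c N hB v f) + MulOpposite.op (SimpLR_tau c N hB v g)
      rw [map_add, MulOpposite.op_add])

private theorem SimpLR_ded [IsPrincipalIdealRing (kk k c)] [IsFractionRing (kk k c) (RatFunc k)] :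
    IsDedekindDomain (integralClosure (kk k c) D.L) :=
  integralClosure.isDedekindDomain (kk k c) (RatFunc k) D.L

private theorem SimpLR_field (hc : ¬ IsField (kk k c)) :
    ¬ IsField (integralClosure (kk k c) D.L) := by
  intro h
  refine hc (isField_of_isIntegral_of_isField (R := kk k c)
    (S := integralClosure (kk k c) D.L) ?_ h)
  intro x y hxy
  have h1 : algebraMap (RatFunc k) D.L x.1 = algebraMap (RatFunc k) D.L y.1 :=
    congrArg Subtype.val hxy
  exact Subtype.ext ((algebraMap (RatFunc k) D.L).injective h1)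

private theorem SimpLR_zeta_k
    (hB : ∀ b : D.L, IsIntegral (kk k c) b → ∀ v ∈ N, b • v ∈ N) (a : k) :
    SimpLR_zeta c N hB (algebraMap k (integralClosure (kk k c) D.L) a) =
      algebraMap k (EAc c N) a := by
  refine Subtype.ext (LinearMap.ext fun x => ?_)
  change (algebraMap k D.L a) • x = a • x
  exact algebraMap_smul D.L a x

private theorem SimpLR_zeta_comm
    (hB : ∀ b : D.L, IsIntegral (kk k c) b → ∀ v ∈ N, b • v ∈ N)
    (z : integralClosure (kk k c) D.L) (r : EAc c N) :
    SimpLR_zeta c N hB z * r = r * SimpLR_zeta c N hB z := by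
  refine Subtype.ext (LinearMap.ext fun x => ?_)
  change z.1 • r.1 x = r.1 (z.1 • x)
  rw [map_smul]

end Aux

theorem simple_left [IsAlgClosed k] (c : RatFunc k) [IsPrincipalIdealRing (kk k c)]
    [IsFractionRing (kk k c) (RatFunc k)] (hc : ¬ IsField (kk k c)) {F : LSp D}
    (N : Submodule (kk k c) F.F) (hN : N.FG)
    (hs : Submodule.span (RatFunc k) (N : Set F.F) = ⊤)
    (hB : ∀ b : D.L, IsIntegral (kk k c) b → ∀ v ∈ N, b • v ∈ N)
    (P : KBi k (EAc c N) k) (hP : Module.Finite k P.M) (hS : P.Simple) :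
    ∃ (u b : D.L) (q : N →ₗ[k] P.M), IsIntegral (kk k c) u ∧ IsIntegral (kk k c) b ∧ u ≠ 0 ∧
      Function.Surjective q ∧
      (∀ (a : EAc c N) (v : N), q ⟨a.1 v.1, a.2 v.1 v.2⟩ = P.l a (q v)) ∧
      (∀ v w : N, w.1 = b • v.1 → q w = q v) ∧ (∀ v w : N, w.1 = u • v.1 → q w = 0) ∧
      ∀ v : N, q v = 0 → ∃ w : N, b • v.1 = u • w.1 := by
  have hded : IsDedekindDomain (integralClosure (kk k c) D.L) := SimpLR_ded c
  have hZ : ¬ IsField (integralClosure (kk k c) D.L) := SimpLR_field c hc
  let iZ : Module (integralClosure (kk k c) D.L) N := SimpLR_modZ c N hB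
  let iR : Module (EAc c N) N := SimpLR_modR c N
  let iP : Module (EAc c N) P.M :=
    { smul := fun a m => P.l a m
      one_smul := P.l_one
      mul_smul := P.l_mul
      smul_zero := fun a => map_zero (P.l a)
      smul_add := fun a m m' => map_add (P.l a) m m'
      add_smul := fun a b m => LinearMap.congr_fun (map_add P.l a b) m
      zero_smul := fun m => LinearMap.congr_fun (map_zero P.l) m }
  have t1 : IsScalarTower k (integralClosure (kk k c) D.L) N :=
    ⟨fun a z v => Subtype.ext (smul_assoc a z.1 v.1)⟩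
  have t2 : IsScalarTower k (EAc c N) N := ⟨fun a r v => rfl⟩
  have t3 : IsScalarTower k (EAc c N) P.M :=
    ⟨fun a r m => LinearMap.congr_fun (map_smul P.l a r) m⟩
  have hr : ∀ (a : k) (m : P.M), P.r a m = a • m := by
    intro a m
    have h1 : P.r a = a • P.r 1 := by
      rw [← map_smul, smul_eq_mul, mul_one]
    rw [h1, LinearMap.smul_apply, P.r_one]
  have hsimp : IsSimpleModule (EAc c N) P.M := by
    have hnt : Nontrivial P.M := hS.1
    rw [isSimpleModule_iff]
    refine ⟨fun X => ?_⟩
    have h1 := hS.2 (X.restrictScalars k) (fun a x hx => X.smul_mem a hx) (fun a x hx => by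
      rw [hr]
      exact (X.restrictScalars k).smul_mem a hx)
    rcases h1 with h1 | h1
    · left
      exact (Submodule.restrictScalars_eq_bot_iff _ _ _).1 h1
    · right
      exact (Submodule.restrictScalars_eq_top_iff _ _ _).1 h1
  obtain ⟨n, v₀, f₀, hv, hf, hvf⟩ := exists_dual_basis c N hN hs hB
  obtain ⟨u, b, q, hu, hq, hqb, hqu, hq0⟩ := morita (k := k)
    (Z := integralClosure (kk k c) D.L) (R := EAc c N) (M := N) (M' := dualc c N) (P := P.M) hZ
    (SimpLR_zeta c N hB) (SimpLR_zeta_comm c N hB) (fun z v => rfl) (SimpLR_zeta_k c N hB)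
    (SimpLR_tau c N hB) (fun f v => ⟨f.1 v.1, f.2 v.1 v.2⟩) (fun v f w => rfl)
    (fun g v f => Subtype.ext (LinearMap.ext fun x => map_smul g.1 (f.1 x) v.1))
    (fun j => ⟨v₀ j, hv j⟩) (fun j => ⟨f₀ j, hf j⟩) (by
      refine Subtype.ext (LinearMap.ext fun x => ?_)
      have h2 := hvf x
      rw [AddSubmonoidClass.coe_finsetSum, LinearMap.sum_apply]
      exact h2.symm)
  refine ⟨u.1, b.1, q.restrictScalars k, u.2, b.2, fun h => hu (Subtype.ext h), hq, ?_, ?_, ?_, ?_⟩
  · intro a v
    exact map_smul q a v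
  · intro v w hw
    have h3 : w = b • v := Subtype.ext hw
    rw [h3]
    exact hqb v
  · intro v w hw
    have h3 : w = u • v := Subtype.ext hw
    rw [h3]
    exact hqu v
  · intro v hv
    obtain ⟨w, hw⟩ := hq0 v hv
    exact ⟨w, congrArg Subtype.val hw⟩

theorem simple_right [IsAlgClosed k] (c : RatFunc k) [IsPrincipalIdealRing (kk k c)]
    [IsFractionRing (kk k c) (RatFunc k)] (hc : ¬ IsField (kk k c)) {F : LSp D}
    (N : Submodule (kk k c) F.F) (hN : N.FG)
    (hs : Submodule.span (RatFunc k) (N : Set F.F) = ⊤)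
    (hB : ∀ b : D.L, IsIntegral (kk k c) b → ∀ v ∈ N, b • v ∈ N)
    (P : KBi k k (EAc c N)) (hP : Module.Finite k P.M) (hS : P.Simple) :
    ∃ (u b : D.L) (q : dualc c N →ₗ[k] P.M), IsIntegral (kk k c) u ∧ IsIntegral (kk k c) b ∧
      u ≠ 0 ∧ Function.Surjective q ∧
      (∀ (a : EAc c N) (v w : dualc c N), w.1 = v.1.comp a.1 → q w = P.r a (q v)) ∧
      (∀ v w : dualc c N, w.1 = b • v.1 → q w = q v) ∧
      (∀ v w : dualc c N, w.1 = u • v.1 → q w = 0) ∧
      ∀ v : dualc c N, q v = 0 → ∃ w : dualc c N, b • v.1 = u • w.1 := by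
  have hded : IsDedekindDomain (integralClosure (kk k c) D.L) := SimpLR_ded c
  have hZ : ¬ IsField (integralClosure (kk k c) D.L) := SimpLR_field c hc
  let iZ : Module (integralClosure (kk k c) D.L) (dualc c N) := SimpLR_modZd c N
  let iR : Module (EAc c N)ᵐᵒᵖ (dualc c N) := SimpLR_modRd c N
  let iP : Module (EAc c N)ᵐᵒᵖ P.M :=
    { smul := fun a m => P.r a.unop m
      one_smul := P.r_one
      mul_smul := fun a b m => P.r_mul b.unop a.unop m
      smul_zero := fun a => map_zero (P.r a.unop)
      smul_add := fun a m m' => map_add (P.r a.unop) m m'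
      add_smul := fun a b m => LinearMap.congr_fun (map_add P.r a.unop b.unop) m
      zero_smul := fun m => LinearMap.congr_fun (map_zero P.r) m }
  have t1 : IsScalarTower k (integralClosure (kk k c) D.L) (dualc c N) :=
    ⟨fun a z v => Subtype.ext (smul_assoc a z.1 v.1)⟩
  have t2 : IsScalarTower k (EAc c N)ᵐᵒᵖ (dualc c N) :=
    ⟨fun a r v => Subtype.ext (LinearMap.ext fun x =>
      ((v.1.restrictScalars k).map_smul a (r.unop.1 x)))⟩
  have t3 : IsScalarTower k (EAc c N)ᵐᵒᵖ P.M :=
    ⟨fun a r m => LinearMap.congr_fun (map_smul P.r a r.unop) m⟩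
  have hl : ∀ (a : k) (m : P.M), P.l a m = a • m := by
    intro a m
    have h1 : P.l a = a • P.l 1 := by
      rw [← map_smul, smul_eq_mul, mul_one]
    rw [h1, LinearMap.smul_apply, P.l_one]
  have hsimp : IsSimpleModule (EAc c N)ᵐᵒᵖ P.M := by
    have hnt : Nontrivial P.M := hS.1
    rw [isSimpleModule_iff]
    refine ⟨fun X => ?_⟩
    have h1 := hS.2 (X.restrictScalars k) (fun a x hx => by
      rw [hl]
      exact (X.restrictScalars k).smul_mem a hx) (fun a x hx => X.smul_mem (MulOpposite.op a) hx)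
    rcases h1 with h1 | h1
    · left
      exact (Submodule.restrictScalars_eq_bot_iff _ _ _).1 h1
    · right
      exact (Submodule.restrictScalars_eq_top_iff _ _ _).1 h1
  obtain ⟨n, v₀, f₀, hv, hf, hvf⟩ := exists_dual_basis c N hN hs hB
  obtain ⟨u, b, q, hu, hq, hqb, hqu, hq0⟩ := morita (k := k)
    (Z := integralClosure (kk k c) D.L) (R := (EAc c N)ᵐᵒᵖ) (M := dualc c N) (M' := N)
    (P := P.M) hZ
    ((SimpLR_zeta c N hB).toOpposite (fun x y => SimpLR_zeta_comm c N hB x _))
    (fun z r => MulOpposite.unop_injective (SimpLR_zeta_comm c N hB z r.unop).symm)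
    (fun z f => Subtype.ext (LinearMap.ext fun x => map_smul f.1 z.1 x))
    (fun a => congrArg MulOpposite.op (SimpLR_zeta_k c N hB a))
    (SimpLR_taud c N hB) (fun v f => ⟨f.1 v.1, f.2 v.1 v.2⟩)
    (fun f v g => Subtype.ext (LinearMap.ext fun x => by
      change g.1 (f.1 x • v.1) = g.1 v.1 * f.1 x
      rw [map_smul, smul_eq_mul, mul_comm]))
    (fun g f v => MulOpposite.unop_injective rfl)
    (fun j => ⟨f₀ j, hf j⟩) (fun j => ⟨v₀ j, hv j⟩) (by
      apply MulOpposite.unop_injective
      refine (map_sum (MulOpposite.opAddEquiv (α := EAc c N)).symm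
        (fun j => SimpLR_taud c N hB ⟨f₀ j, hf j⟩ ⟨v₀ j, hv j⟩) Finset.univ).trans ?_
      refine Subtype.ext (LinearMap.ext fun x => ?_)
      have h2 := hvf x
      rw [AddSubmonoidClass.coe_finsetSum, LinearMap.sum_apply]
      exact h2.symm)
  refine ⟨u.1, b.1, q.restrictScalars k, u.2, b.2, fun h => hu (Subtype.ext h), hq, ?_, ?_, ?_, ?_⟩
  · intro a v w hw
    have h3 : w = MulOpposite.op a • v := Subtype.ext hw
    rw [h3]
    exact map_smul q (MulOpposite.op a) v
  · intro v w hw
    have h3 : w = b • v := Subtype.ext hw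
    rw [h3]
    exact hqb v
  · intro v w hw
    have h3 : w = u • v := Subtype.ext hw
    rw [h3]
    exact hqu v
  · intro v hv
    obtain ⟨w, hw⟩ := hq0 v hv
    exact ⟨w, congrArg Subtype.val hw⟩

end Pool.Agent.MP_6e5bed_ag_NC
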