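import Pool.Agent.Lib.MP_6e5bed_ag_CV.Dual
import Pool.Agent.Lib.MP_6e5bed_ag_CV.SimpLR
import Pool.Agent.Lib.MP_6e5bed_ag_CV.MulU
import Pool.Agent.Lib.MP_6e5bed_ag_CV.ClsTors

set_option autoImplicit false
set_option linter.unusedSectionVars false

/-!
# Simple modules over the endomorphisms of a vector bundle have resolutions (NC CURVES)

By `simple_left`, the simple module `P` is a direct summand of `N / u N` (`v ↦ b v` and `q`); `u` is
in `t ^ n B_1` for large `n` (`LP.OO`, `loc01`); use `hasRes_quot0`, `hasRes_tw` and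
`HasRes.summand`. At infinity: `u ∈ B_1`, use `t ^ n u ∈ B_0` in `hasRes_quot1`.
-/

namespace Pool.Agent.MP_6e5bed_ag_NC

open RatFunc
open scoped TensorProduct

universe u

section general

variable {k : Type u} [Field k] {R R' : Type u} [Ring R] [Algebra k R] [Ring R'] [Algebra k R']
  {A B : DGA k}

/-- the quotient of a bimodule by the image of an endomorphism -/
private noncomputable def srQ (M : KBi k R R') (u : M.M →ₗ[k] M.M)
    (ul : ∀ a x, u (M.l a x) = M.l a (u x)) (ur : ∀ b x, u (M.r b x) = M.r b (u x)) :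
    KBi k R R' where
  M := M.M ⧸ LinearMap.range u
  l :=
    { toFun := fun a => (LinearMap.range u).mapQ (LinearMap.range u) (M.l a) (by
        rintro _ ⟨x, rfl⟩
        exact ⟨M.l a x, ul a x⟩)
      map_add' := fun a a' => by ext v; simp
      map_smul' := fun c a => by ext v; simp }
  r :=
    { toFun := fun a => (LinearMap.range u).mapQ (LinearMap.range u) (M.r a) (by
        rintro _ ⟨x, rfl⟩
        exact ⟨M.r a x, ur a x⟩)
      map_add' := fun a a' => by ext v; simp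
      map_smul' := fun c a => by ext v; simp }
  l_one := fun v => by
    obtain ⟨w, rfl⟩ := Submodule.Quotient.mk_surjective _ v
    exact congrArg _ (M.l_one w)
  r_one := fun v => by
    obtain ⟨w, rfl⟩ := Submodule.Quotient.mk_surjective _ v
    exact congrArg _ (M.r_one w)
  l_mul := fun a a' v => by
    obtain ⟨w, rfl⟩ := Submodule.Quotient.mk_surjective _ v
    exact congrArg _ (M.l_mul a a' w)
  r_mul := fun a a' v => by
    obtain ⟨w, rfl⟩ := Submodule.Quotient.mk_surjective _ v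
    exact congrArg _ (M.r_mul a a' w)
  l_r := fun a b v => by
    obtain ⟨w, rfl⟩ := Submodule.Quotient.mk_surjective _ v
    exact congrArg _ (M.l_r a b w)

/-- a map of bimodules in degree zero, restricted -/
private noncomputable def srMap (α : DHom A (ring k R)) (β : DHom B (ring k R'))
    {U V : KBi k R R'} (f : U.M →ₗ[k] V.M) (hl : ∀ a x, f (U.l a x) = V.l a (f x))
    (hr : ∀ b x, f (U.r b x) = V.r b (f x)) : GMap 0 (res α β U.bim) (res α β V.bim) where
  f := f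
  deg := fun {i v} h => by
    rw [add_zero]
    rcases Dg.conc_cases h with h1 | h1
    · rw [h1]
      exact Dg.conc_deg _
    · rw [h1, map_zero]
      exact Dg.IsDeg.zero _
  map_l := fun a m => by
    rw [Dg.sp_zero]
    exact hl _ _
  map_r := fun b m => hr _ _

private theorem srMap_dd (α : DHom A (ring k R)) (β : DHom B (ring k R'))
    {U V : KBi k R R'} (f : U.M →ₗ[k] V.M) (hl : ∀ a x, f (U.l a x) = V.l a (f x))
    (hr : ∀ b x, f (U.r b x) = V.r b (f x)) : (srMap α β f hl hr).dd = 0 := by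
  refine LinearMap.ext fun x => ?_
  change (0 : V.M) - (sg 0) • f (0 : U.M) = 0
  rw [map_zero, smul_zero, sub_zero]

private theorem sr_fac {M P U : Type u} [AddCommGroup M] [Module k M] [AddCommGroup P]
    [Module k P] [AddCommGroup U] [Module k U] (q : M →ₗ[k] P) (hq : Function.Surjective q)
    (f : M →ₗ[k] U) (h : ∀ v, q v = 0 → f v = 0) : ∃ i : P →ₗ[k] U, ∀ v, i (q v) = f v := by
  refine ⟨((LinearMap.ker q).liftQ f h) ∘ₗ (q.quotKerEquivOfSurjective hq).symm.toLinearMap,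
    fun v => ?_⟩
  have h1 : (q.quotKerEquivOfSurjective hq).symm (q v) = Submodule.Quotient.mk v := by
    rw [LinearEquiv.symm_apply_eq]
    rfl
  change (LinearMap.ker q).liftQ f h ((q.quotKerEquivOfSurjective hq).symm (q v)) = f v
  rw [h1]
  rfl

private theorem sr_summand (α : DHom A (ring k R)) (β : DHom B (ring k R')) (M P : KBi k R R')
    (u b : M.M →ₗ[k] M.M)
    (ul : ∀ a x, u (M.l a x) = M.l a (u x)) (ur : ∀ b x, u (M.r b x) = M.r b (u x))
    (bl : ∀ a x, b (M.l a x) = M.l a (b x)) (br : ∀ c x, b (M.r c x) = M.r c (b x))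
    (q : M.M →ₗ[k] P.M) (hq : Function.Surjective q) (ql : ∀ a x, q (M.l a x) = P.l a (q x))
    (qr : ∀ a x, q (M.r a x) = P.r a (q x)) (qb : ∀ v, q (b v) = q v) (qu : ∀ v, q (u v) = 0)
    (qk : ∀ v, q v = 0 → ∃ w, b v = u w) :
    IsSummand (res α β P.bim) (res α β (srQ M u ul ur).bim) := by
  obtain ⟨i, hi⟩ := sr_fac q hq ((LinearMap.range u).mkQ ∘ₗ b) (fun v hv => by
    obtain ⟨w, hw⟩ := qk v hv
    rw [LinearMap.comp_apply, hw, Submodule.mkQ_apply, Submodule.Quotient.mk_eq_zero]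
    exact ⟨w, rfl⟩)
  obtain ⟨r, hr⟩ := sr_fac (LinearMap.range u).mkQ (Submodule.mkQ_surjective _) q (fun v hv => by
    rw [Submodule.mkQ_apply, Submodule.Quotient.mk_eq_zero] at hv
    obtain ⟨w, rfl⟩ := hv
    exact qu w)
  have hi' : ∀ v, i (q v) = (LinearMap.range u).mkQ (b v) := hi
  have il : ∀ a x, i (P.l a x) = (srQ M u ul ur).l a (i x) := by
    intro a x
    obtain ⟨v, rfl⟩ := hq x
    rw [← ql, hi', hi', bl]
    rfl
  have ir : ∀ a x, i (P.r a x) = (srQ M u ul ur).r a (i x) := by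
    intro a x
    obtain ⟨v, rfl⟩ := hq x
    rw [← qr, hi', hi', br]
    rfl
  have rl : ∀ a (x : (srQ M u ul ur).M), r ((srQ M u ul ur).l a x) = P.l a (r x) := by
    intro a x
    obtain ⟨v, rfl⟩ := Submodule.mkQ_surjective _ x
    have h1 : (srQ M u ul ur).l a ((LinearMap.range u).mkQ v) =
      (LinearMap.range u).mkQ (M.l a v) := rfl
    rw [h1, hr, hr, ql]
  have rr : ∀ a (x : (srQ M u ul ur).M), r ((srQ M u ul ur).r a x) = P.r a (r x) := by
    intro a x
    obtain ⟨v, rfl⟩ := Submodule.mkQ_surjective _ x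
    have h1 : (srQ M u ul ur).r a ((LinearMap.range u).mkQ v) =
      (LinearMap.range u).mkQ (M.r a v) := rfl
    rw [h1, hr, hr, qr]
  refine ⟨srMap α β (U := P) (V := srQ M u ul ur) i il ir,
    srMap α β (U := srQ M u ul ur) (V := P) r rl rr, srMap_dd _ _ _ _ _, srMap_dd _ _ _ _ _, ?_⟩
  intro x
  obtain ⟨v, rfl⟩ := hq x
  change r (i (q v)) = q v
  rw [hi', hr, qb]

private theorem sr0 {S T : Cosp k} {G : GBi k S.A01 T.A01} {N : LP k G.E}
    (h : LP.Stable G N) (α : DHom A S.cech) (β : DHom B T.cech)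
    (u b : G.E →ₗ[RatFunc k] G.E) (ul : ∀ a x, u (G.l a x) = G.l a (u x))
    (ur : ∀ b x, u (G.r b x) = G.r b (u x)) (bl : ∀ a x, b (G.l a x) = G.l a (b x))
    (br : ∀ c x, b (G.r c x) = G.r c (b x)) (ui : Function.Injective u) (n : ℕ)
    (u0 : ∀ v ∈ N.N0, u v ∈ N.N0) (u1 : ∀ v ∈ N.N1, ((X : RatFunc k)⁻¹) ^ n • u v ∈ N.N1)
    (b0 : ∀ v ∈ N.N0, b v ∈ N.N0)
    (h0 : HasRes (res α β (LP.tri h).bim)) (h1 : HasRes (res α β (LP.tri (h.tw (-n))).bim))
    (P : KBi k S.A0 T.A0) (q : N.N0 →ₗ[k] P.M) (hq : Function.Surjective q)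
    (ql : ∀ a v, q ((LP.tri h).M0.l a v) = P.l a (q v))
    (qr : ∀ b v, q ((LP.tri h).M0.r b v) = P.r b (q v))
    (qb : ∀ v w : N.N0, w.1 = b v.1 → q w = q v) (qu : ∀ v w : N.N0, w.1 = u v.1 → q w = 0)
    (qk : ∀ v : N.N0, q v = 0 → ∃ w : N.N0, b v.1 = u w.1) :
    HasRes (res (α.comp S.proj0) (β.comp T.proj0) P.bim) := by
  let u' : (LP.tri h).M0.M →ₗ[k] (LP.tri h).M0.M :=
    { toFun := fun v => ⟨u v.1, u0 v.1 v.2⟩
      map_add' := fun v w => Subtype.ext (map_add u v.1 w.1)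
      map_smul' := fun c v => Subtype.ext ((u.restrictScalars k).map_smul c v.1) }
  let b' : (LP.tri h).M0.M →ₗ[k] (LP.tri h).M0.M :=
    { toFun := fun v => ⟨b v.1, b0 v.1 v.2⟩
      map_add' := fun v w => Subtype.ext (map_add b v.1 w.1)
      map_smul' := fun c v => Subtype.ext ((b.restrictScalars k).map_smul c v.1) }
  have ul' : ∀ a x, u' ((LP.tri h).M0.l a x) = (LP.tri h).M0.l a (u' x) :=
    fun a x => Subtype.ext (ul _ _)
  have ur' : ∀ a x, u' ((LP.tri h).M0.r a x) = (LP.tri h).M0.r a (u' x) :=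
    fun a x => Subtype.ext (ur _ _)
  have bl' : ∀ a x, b' ((LP.tri h).M0.l a x) = (LP.tri h).M0.l a (b' x) :=
    fun a x => Subtype.ext (bl _ _)
  have br' : ∀ a x, b' ((LP.tri h).M0.r a x) = (LP.tri h).M0.r a (b' x) :=
    fun a x => Subtype.ext (br _ _)
  refine HasRes.summand (LP.hasRes_quot0 h α β u ul ur ui n u0 u1 h0 h1
    (srQ (LP.tri h).M0 u' ul' ur') (LinearMap.range u').mkQ
    (Submodule.mkQ_surjective (LinearMap.range u')) ?_
    (fun _ _ => rfl) (fun _ _ => rfl))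
    (sr_summand (α.comp S.proj0) (β.comp T.proj0) (LP.tri h).M0 P u' b' ul' ur' bl' br' q hq
      ql qr (fun v => qb v _ rfl) (fun v => qu v _ rfl) ?_)
  · intro v
    refine (Submodule.Quotient.mk_eq_zero (LinearMap.range u') (x := v)).trans ?_
    constructor
    · rintro ⟨w, hw⟩
      exact ⟨w.1, w.2, congrArg Subtype.val hw⟩
    · rintro ⟨w, hw, hwv⟩
      exact ⟨⟨w, hw⟩, Subtype.ext hwv⟩
  · intro v hv
    obtain ⟨w, hw⟩ := qk v hv
    exact ⟨w, Subtype.ext hw⟩

private theorem sr1 {S T : Cosp k} {G : GBi k S.A01 T.A01} {N : LP k G.E}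
    (h : LP.Stable G N) (α : DHom A S.cech) (β : DHom B T.cech)
    (u b : G.E →ₗ[RatFunc k] G.E) (ul : ∀ a x, u (G.l a x) = G.l a (u x))
    (ur : ∀ b x, u (G.r b x) = G.r b (u x)) (bl : ∀ a x, b (G.l a x) = G.l a (b x))
    (br : ∀ c x, b (G.r c x) = G.r c (b x)) (ui : Function.Injective u) (n : ℕ)
    (u0 : ∀ v ∈ N.N0, u v ∈ N.N0) (u1 : ∀ v ∈ N.N1, ((X : RatFunc k)⁻¹) ^ n • u v ∈ N.N1)
    (b1 : ∀ v ∈ N.N1, b v ∈ N.N1)
    (h0 : HasRes (res α β (LP.tri h).bim)) (h1 : HasRes (res α β (LP.tri (h.tw (-n))).bim))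
    (P : KBi k S.A1 T.A1) (q : N.N1 →ₗ[k] P.M) (hq : Function.Surjective q)
    (ql : ∀ a v, q ((LP.tri h).M1.l a v) = P.l a (q v))
    (qr : ∀ b v, q ((LP.tri h).M1.r b v) = P.r b (q v))
    (qb : ∀ v w : N.N1, w.1 = b v.1 → q w = q v)
    (qu : ∀ v w : N.N1, w.1 = ((X : RatFunc k)⁻¹) ^ n • u v.1 → q w = 0)
    (qk : ∀ v : N.N1, q v = 0 → ∃ w : N.N1, b v.1 = ((X : RatFunc k)⁻¹) ^ n • u w.1) :
    HasRes (res (α.comp S.proj1) (β.comp T.proj1) P.bim) := by
  let u' : (LP.tri h).M1.M →ₗ[k] (LP.tri h).M1.M :=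
    { toFun := fun v => ⟨((X : RatFunc k)⁻¹) ^ n • u v.1, u1 v.1 v.2⟩
      map_add' := fun v w => Subtype.ext (by
        change ((X : RatFunc k)⁻¹) ^ n • u (v.1 + w.1) =
          ((X : RatFunc k)⁻¹) ^ n • u v.1 + ((X : RatFunc k)⁻¹) ^ n • u w.1
        rw [map_add, smul_add])
      map_smul' := fun c v => Subtype.ext (by
        change ((X : RatFunc k)⁻¹) ^ n • u (c • v.1) = c • ((X : RatFunc k)⁻¹) ^ n • u v.1
        have h2 : u (c • v.1) = c • u v.1 := (u.restrictScalars k).map_smul c v.1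
        rw [h2, smul_comm]) }
  let b' : (LP.tri h).M1.M →ₗ[k] (LP.tri h).M1.M :=
    { toFun := fun v => ⟨b v.1, b1 v.1 v.2⟩
      map_add' := fun v w => Subtype.ext (map_add b v.1 w.1)
      map_smul' := fun c v => Subtype.ext ((b.restrictScalars k).map_smul c v.1) }
  have ul' : ∀ a x, u' ((LP.tri h).M1.l a x) = (LP.tri h).M1.l a (u' x) :=
    fun a x => Subtype.ext (by
      change ((X : RatFunc k)⁻¹) ^ n • u (G.l (S.r1 a) x.1) =
        G.l (S.r1 a) (((X : RatFunc k)⁻¹) ^ n • u x.1)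
      rw [ul, map_smul])
  have ur' : ∀ a x, u' ((LP.tri h).M1.r a x) = (LP.tri h).M1.r a (u' x) :=
    fun a x => Subtype.ext (by
      change ((X : RatFunc k)⁻¹) ^ n • u (G.r (T.r1 a) x.1) =
        G.r (T.r1 a) (((X : RatFunc k)⁻¹) ^ n • u x.1)
      rw [ur, map_smul])
  have bl' : ∀ a x, b' ((LP.tri h).M1.l a x) = (LP.tri h).M1.l a (b' x) :=
    fun a x => Subtype.ext (bl _ _)
  have br' : ∀ a x, b' ((LP.tri h).M1.r a x) = (LP.tri h).M1.r a (b' x) :=
    fun a x => Subtype.ext (br _ _)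
  refine HasRes.summand (LP.hasRes_quot1 h α β u ul ur ui n u0 u1 h0 h1
    (srQ (LP.tri h).M1 u' ul' ur') (LinearMap.range u').mkQ
    (Submodule.mkQ_surjective (LinearMap.range u')) ?_
    (fun _ _ => rfl) (fun _ _ => rfl))
    (sr_summand (α.comp S.proj1) (β.comp T.proj1) (LP.tri h).M1 P u' b' ul' ur' bl' br' q hq
      ql qr (fun v => qb v _ rfl) (fun v => qu v _ rfl) ?_)
  · intro v
    refine (Submodule.Quotient.mk_eq_zero (LinearMap.range u') (x := v)).trans ?_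
    constructor
    · rintro ⟨w, hw⟩
      exact ⟨w.1, w.2, congrArg Subtype.val hw⟩
    · rintro ⟨w, hw, hwv⟩
      exact ⟨⟨w, hw⟩, Subtype.ext hwv⟩
  · intro v hv
    obtain ⟨w, hw⟩ := qk v hv
    exact ⟨w, Subtype.ext hw⟩

private theorem sr_notField {c : RatFunc k} (h : Transcendental k c) : ¬ IsField (kk k c) := by
  intro hf
  have hc0 : kk.gen k c ≠ 0 := by
    intro h0
    have h1 : c = 0 := congrArg Subtype.val h0
    apply h
    rw [h1]
    exact isAlgebraic_zero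
  obtain ⟨g, hg⟩ := hf.mul_inv_cancel hc0
  have hg' : c * g.1 = 1 := congrArg Subtype.val hg
  have h2 : ∃ p : Polynomial k, Polynomial.aeval c p = g.1 := by
    have h3 : g.1 ∈ Algebra.adjoin k {c} := g.2
    rw [Algebra.adjoin_singleton_eq_range_aeval] at h3
    exact h3
  obtain ⟨p, hp⟩ := h2
  apply h
  refine ⟨Polynomial.X * p - 1, ?_, ?_⟩
  · intro h4
    have h5 := congrArg (Polynomial.eval 0) h4
    simp at h5
  · rw [map_sub, map_mul, Polynomial.aeval_X, hp, map_one, hg', sub_self]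

private theorem sr_notField_X : ¬ IsField (kk k (X : RatFunc k)) :=
  sr_notField RatFunc.transcendental_X

private theorem sr_notField_Xi : ¬ IsField (kk k (X : RatFunc k)⁻¹) := by
  refine sr_notField ?_
  intro h
  apply RatFunc.transcendental_X (K := k)
  have h1 := h.inv
  rwa [inv_inv] at h1

end general

section mul

variable {k : Type u} [Field k] {D : FExt k}

/-- multiplication by a scalar -/
private noncomputable def srM (F : LSp D) (u : D.L) : F.F →ₗ[RatFunc k] F.F :=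
  (LinearMap.lsmul D.L F.F u).restrictScalars (RatFunc k)

private theorem srM_apply (F : LSp D) (u : D.L) (v : F.F) : srM F u v = u • v := rfl

private theorem srM_inj (F : LSp D) {u : D.L} (hu : u ≠ 0) : Function.Injective (srM F u) := by
  intro v w h
  rw [srM_apply, srM_apply] at h
  exact smul_right_injective F.F hu h

private theorem sr_smul (F : LSp D) (c : RatFunc k) (u : D.L) (v : F.F) :
    c • u • v = (c • u) • v := (smul_assoc c u v).symm

private theorem sr_rk {R : Type u} [Ring R] [Algebra k R] (P : KBi k R k) (c : k) (x : P.M) :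
    P.r c x = c • x := by
  have h1 : P.r (c • 1) x = c • P.r 1 x := by
    rw [map_smul]
    rfl
  rwa [P.r_one, smul_eq_mul, mul_one] at h1

private theorem sr_lk {R : Type u} [Ring R] [Algebra k R] (P : KBi k k R) (c : k) (x : P.M) :
    P.l c x = c • x := by
  have h1 : P.l (c • 1) x = c • P.l 1 x := by
    rw [map_smul]
    rfl
  rwa [P.l_one, smul_eq_mul, mul_one] at h1

private theorem sr_cancel (n : ℕ) (u : D.L) :
    ((X : RatFunc k)⁻¹) ^ n • ((X : RatFunc k) ^ n • u) = u := by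
  rw [smul_smul, ← mul_pow, inv_mul_cancel₀ RatFunc.X_ne_zero, one_pow, one_smul]

private theorem sr_ne (n : ℕ) {u : D.L} (hu : u ≠ 0) : ((X : RatFunc k) ^ n • u) ≠ 0 :=
  smul_ne_zero (pow_ne_zero n RatFunc.X_ne_zero) hu

end mul

variable {k : Type u} [Field k] [IsAlgClosed k] {D : FExt k} {F : LSp D} {V : LP k F.F}

theorem simple_l0 (hB : LP.BStable V) (h0 : HasRes (CL (endL_st V)))
    (h1 : HasRes (CL ((endL_st V).tw (-1)))) (P : KBi k (endCosp V).A0 k)
    (hP : Module.Finite k P.M) (hS : P.Simple) :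
    HasRes (res (endCosp V).proj0 (DHom.unit (ring k k)) P.bim) := by
  obtain ⟨u, b, q, hu, hb, hu0, hq, hqa, hqb, hqu, hqk⟩ := simple_left (F := F) X sr_notField_X
    V.N0 V.fg0 V.sp0 (fun b hb v hv => hB.1 b hb v hv) P hP hS
  obtain ⟨n, hn⟩ := (LP.OO D).loc01 u hu
  have e1 : ∀ (w : D.L) (c : k) (x : F.F), w • c • x = c • w • x := fun w c x => smul_comm w c x
  have e2 : ∀ v ∈ V.N1, ((X : RatFunc k)⁻¹) ^ n • srM F u v ∈ V.N1 := fun v hv => by
    rw [srM_apply, sr_smul]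
    exact hB.2 _ hn v hv
  have e3 : ∀ (c : k) (v : V.N0), q (c • v) = P.r c (q v) := fun c v => by
    rw [sr_rk, map_smul]
  exact sr0 (S := endCosp V) (T := ptC k) (G := lG (endL V)) (N := V)
    (stable_lG (endL_st V)) (DHom.id _) (DHom.unit (ptC k).cech) (srM F u) (srM F b)
    (fun a x => ((endAct V a).map_smul u x).symm) (e1 u)
    (fun a x => ((endAct V a).map_smul b x).symm) (e1 b)
    (srM_inj F hu0) n (fun v hv => hB.1 u hu v hv) e2
    (fun v hv => hB.1 b hb v hv) h0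
    (LP.hasRes_tw (stable_lG (endL_st V)) _ _ h0 h1 (-n)) P q hq
    (fun a v => hqa a v) e3 hqb hqu hqk

theorem simple_l1 (hB : LP.BStable V) (h0 : HasRes (CL (endL_st V)))
    (h1 : HasRes (CL ((endL_st V).tw (-1)))) (P : KBi k (endCosp V).A1 k)
    (hP : Module.Finite k P.M) (hS : P.Simple) :
    HasRes (res (endCosp V).proj1 (DHom.unit (ring k k)) P.bim) := by
  obtain ⟨u, b, q, hu, hb, hu0, hq, hqa, hqb, hqu, hqk⟩ := simple_left (F := F)
    (X : RatFunc k)⁻¹ sr_notField_Xi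
    V.N1 V.fg1 V.sp1 (fun b hb v hv => hB.2 b hb v hv) P hP hS
  obtain ⟨n, hn⟩ := (LP.OO D).loc10 u hu
  have e1 : ∀ (w : D.L) (c : k) (x : F.F), w • c • x = c • w • x := fun w c x => smul_comm w c x
  have e0 : ∀ v : F.F, ((X : RatFunc k)⁻¹) ^ n • srM F ((X : RatFunc k) ^ n • u) v = u • v :=
    fun v => by
      rw [srM_apply, sr_smul, sr_cancel]
  have e2 : ∀ v ∈ V.N1, ((X : RatFunc k)⁻¹) ^ n • srM F ((X : RatFunc k) ^ n • u) v ∈ V.N1 :=
    fun v hv => by
      rw [e0]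
      exact hB.2 _ hu v hv
  have e3 : ∀ (c : k) (v : V.N1), q (c • v) = P.r c (q v) := fun c v => by
    rw [sr_rk, map_smul]
  have e4 : ∀ v w : V.N1, w.1 = ((X : RatFunc k)⁻¹) ^ n • srM F ((X : RatFunc k) ^ n • u) v.1 →
      q w = 0 := fun v w h => hqu v w (by rw [h, e0])
  have e5 : ∀ v : V.N1, q v = 0 → ∃ w : V.N1,
      srM F b v.1 = ((X : RatFunc k)⁻¹) ^ n • srM F ((X : RatFunc k) ^ n • u) w.1 :=
    fun v h => by
      obtain ⟨w, hw⟩ := hqk v h
      exact ⟨w, by rw [e0, ← hw, srM_apply]⟩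
  exact sr1 (S := endCosp V) (T := ptC k) (G := lG (endL V)) (N := V)
    (stable_lG (endL_st V)) (DHom.id _) (DHom.unit (ptC k).cech)
    (srM F ((X : RatFunc k) ^ n • u)) (srM F b)
    (fun a x => ((endAct V a).map_smul _ x).symm) (e1 _)
    (fun a x => ((endAct V a).map_smul b x).symm) (e1 b)
    (srM_inj F (sr_ne n hu0)) n (fun v hv => hB.1 _ hn v hv) e2
    (fun v hv => hB.2 b hb v hv) h0
    (LP.hasRes_tw (stable_lG (endL_st V)) _ _ h0 h1 (-n)) P q hq
    (fun a v => hqa a v) e3 hqb e4 e5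

theorem simple_r0 (hB : LP.BStable V) (h0 : HasRes (CR (endR_st V)))
    (h1 : HasRes (CR ((endR_st V).tw 1))) (P : KBi k k (endCosp V).A0)
    (hP : Module.Finite k P.M) (hS : P.Simple) :
    HasRes (res (DHom.unit (ring k k)) (endCosp V).proj0 P.bim) := by
  obtain ⟨u, b, q, hu, hb, hu0, hq, hqa, hqb, hqu, hqk⟩ := simple_right (F := F) X sr_notField_X
    V.N0 V.fg0 V.sp0 (fun b hb v hv => hB.1 b hb v hv) P hP hS
  obtain ⟨n, hn⟩ := (LP.OO D).loc01 u hu
  have e1 : ∀ (w : D.L) (c : k) (x : F.dual.F), w • c • x = c • w • x :=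
    fun w c x => smul_comm w c x
  have e6 : ∀ w : D.L, IsIntegral (kk k X) w → ∀ v ∈ V.dual.N0, srM F.dual w v ∈ V.dual.N0 :=
    fun w hw v hv x hx => hw.mul (hv x hx)
  have e7 : ∀ w : D.L, IsIntegral (kk k (X : RatFunc k)⁻¹) w → ∀ v ∈ V.dual.N1,
      srM F.dual w v ∈ V.dual.N1 :=
    fun w hw v hv x hx => hw.mul (hv x hx)
  have e2 : ∀ v ∈ V.dual.N1, ((X : RatFunc k)⁻¹) ^ n • srM F.dual u v ∈ V.dual.N1 :=
    fun v hv => by
      rw [srM_apply, sr_smul]
      exact e7 _ hn v hv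
  have e3 : ∀ (c : k) (v : V.dual.N0), q (c • v) = P.l c (q v) := fun c v => by
    rw [sr_lk]
    exact q.map_smul c v
  exact sr0 (S := ptC k) (T := endCosp V) (G := rG (endR V)) (N := V.dual)
    (stable_rG (endR_st V)) (DHom.unit (ptC k).cech) (DHom.id _) (srM F.dual u) (srM F.dual b)
    (e1 u) (fun a x => rfl)
    (e1 b) (fun a x => rfl)
    (srM_inj F.dual hu0) n (e6 u hu) e2 (e6 b hb) h0
    (LP.hasRes_tw' (stable_rG (endR_st V)) _ _ h0 h1 (-n)) P q hq
    e3 (fun a v => hqa a v _ rfl) hqb hqu hqk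

theorem simple_r1 (hB : LP.BStable V) (h0 : HasRes (CR (endR_st V)))
    (h1 : HasRes (CR ((endR_st V).tw 1))) (P : KBi k k (endCosp V).A1)
    (hP : Module.Finite k P.M) (hS : P.Simple) :
    HasRes (res (DHom.unit (ring k k)) (endCosp V).proj1 P.bim) := by
  obtain ⟨u, b, q, hu, hb, hu0, hq, hqa, hqb, hqu, hqk⟩ := simple_right (F := F)
    (X : RatFunc k)⁻¹ sr_notField_Xi
    V.N1 V.fg1 V.sp1 (fun b hb v hv => hB.2 b hb v hv) P hP hS
  obtain ⟨n, hn⟩ := (LP.OO D).loc10 u hu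
  have e1 : ∀ (w : D.L) (c : k) (x : F.dual.F), w • c • x = c • w • x :=
    fun w c x => smul_comm w c x
  have e6 : ∀ w : D.L, IsIntegral (kk k X) w → ∀ v ∈ V.dual.N0, srM F.dual w v ∈ V.dual.N0 :=
    fun w hw v hv x hx => hw.mul (hv x hx)
  have e7 : ∀ w : D.L, IsIntegral (kk k (X : RatFunc k)⁻¹) w → ∀ v ∈ V.dual.N1,
      srM F.dual w v ∈ V.dual.N1 :=
    fun w hw v hv x hx => hw.mul (hv x hx)
  have e0 : ∀ v : F.dual.F,
      ((X : RatFunc k)⁻¹) ^ n • srM F.dual ((X : RatFunc k) ^ n • u) v = u • v :=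
    fun v => by
      rw [srM_apply, sr_smul, sr_cancel]
  have e2 : ∀ v ∈ V.dual.N1,
      ((X : RatFunc k)⁻¹) ^ n • srM F.dual ((X : RatFunc k) ^ n • u) v ∈ V.dual.N1 :=
    fun v hv => by
      rw [e0]
      exact e7 _ hu v hv
  have e3 : ∀ (c : k) (v : V.dual.N1), q (c • v) = P.l c (q v) := fun c v => by
    rw [sr_lk]
    exact q.map_smul c v
  have e4 : ∀ v w : V.dual.N1,
      w.1 = ((X : RatFunc k)⁻¹) ^ n • srM F.dual ((X : RatFunc k) ^ n • u) v.1 →
      q w = 0 := fun v w h => hqu v w (h.trans (e0 v.1))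
  have e5 : ∀ v : V.dual.N1, q v = 0 → ∃ w : V.dual.N1,
      srM F.dual b v.1 = ((X : RatFunc k)⁻¹) ^ n • srM F.dual ((X : RatFunc k) ^ n • u) w.1 :=
    fun v h => by
      obtain ⟨w, hw⟩ := hqk v h
      refine ⟨w, ?_⟩
      rw [e0]
      exact hw
  exact sr1 (S := ptC k) (T := endCosp V) (G := rG (endR V)) (N := V.dual)
    (stable_rG (endR_st V)) (DHom.unit (ptC k).cech) (DHom.id _)
    (srM F.dual ((X : RatFunc k) ^ n • u)) (srM F.dual b)
    (e1 _) (fun a x => rfl)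
    (e1 b) (fun a x => rfl)
    (srM_inj F.dual (sr_ne n hu0)) n (e6 _ hn) e2 (e7 b hb) h0
    (LP.hasRes_tw' (stable_rG (endR_st V)) _ _ h0 h1 (-n)) P q hq
    e3 (fun a v => hqa a v _ rfl) hqb e4 e5

end Pool.Agent.MP_6e5bed_ag_NC
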