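import Pool.Agent.Lib.MP_6e5bed_ag_CV.StRep
import Pool.Agent.Lib.MP_6e5bed_ag_CV.Datum

set_option autoImplicit false
set_option linter.unusedSectionVars false

/-!
# Comparison of the two descriptions of the dg algebras of curves
-/

namespace Pool.Agent.MP_6e5bed_ag_SP

open Pool.Agent.MP_6e5bed_ag_NC

universe u

private noncomputable def StCurve_V0 {k : Type u} [Field k] {D : FExt k} {F : LSp D} {V : LP k F.F}
    (hB : LP.BStable V) : Submodule (IC D.L (RatFunc.X : RatFunc k)) F.F where
  carrier := {v | v ∈ V.N0}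
  add_mem' := fun {_ _} ha hb => V.N0.add_mem ha hb
  zero_mem' := V.N0.zero_mem
  smul_mem' := fun b v hv => hB.1 b.1 b.2 v hv

private noncomputable def StCurve_V1 {k : Type u} [Field k] {D : FExt k} {F : LSp D} {V : LP k F.F}
    (hB : LP.BStable V) : Submodule (IC D.L (RatFunc.X : RatFunc k)⁻¹) F.F where
  carrier := {v | v ∈ V.N1}
  add_mem' := fun {_ _} ha hb => V.N1.add_mem ha hb
  zero_mem' := V.N1.zero_mem
  smul_mem' := fun b v hv => hB.2 b.1 b.2 v hv

private theorem StCurve_fg {k : Type u} [Field k] {D : FExt k} {F : LSp D} {u : RatFunc k}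
    {N : Submodule (kk k u) F.F} (hN : N.FG) (W : Submodule (IC D.L u) F.F)
    (h : ∀ v, v ∈ W ↔ v ∈ N) : W.FG := by
  obtain ⟨S, hS⟩ := hN
  refine ⟨S, le_antisymm ?_ ?_⟩
  · rw [Submodule.span_le]
    intro v hv
    rw [SetLike.mem_coe, h, ← hS]
    exact Submodule.subset_span hv
  · intro v hv
    rw [h, ← hS] at hv
    induction hv using Submodule.span_induction with
    | mem x hx => exact Submodule.subset_span hx
    | zero => exact Submodule.zero_mem _
    | add x y _ _ hx hy => exact Submodule.add_mem _ hx hy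
    | smul a x _ hx =>
      have h0 : algebraMap (RatFunc k) D.L a.1 ∈ IC D.L u :=
        isIntegral_algebraMap (R := Algebra.adjoin k {u}) (A := D.L) (x := a)
      have h1 : a • x = (⟨algebraMap (RatFunc k) D.L a.1, h0⟩ : IC D.L u) • x :=
        (algebraMap_smul D.L a.1 x).symm
      rw [h1]
      exact Submodule.smul_mem _ _ hx

private theorem StCurve_span {k : Type u} [Field k] {D : FExt k} {F : LSp D} {s : Set F.F}
    (h : Submodule.span (RatFunc k) s = ⊤) : Submodule.span D.L s = ⊤ := by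
  rw [eq_top_iff]
  intro v _
  have hv : v ∈ Submodule.span (RatFunc k) s := by rw [h]; exact Submodule.mem_top
  induction hv using Submodule.span_induction with
  | mem x hx => exact Submodule.subset_span hx
  | zero => exact Submodule.zero_mem _
  | add x y _ _ hx hy => exact Submodule.add_mem _ (hx trivial) (hy trivial)
  | smul a x _ hx =>
    rw [← algebraMap_smul D.L a x]
    exact Submodule.smul_mem _ _ (hx trivial)

private theorem StCurve_bundle {k : Type u} [Field k] {D : FExt k} {F : LSp D} {V : LP k F.F}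
    (hB : LP.BStable V) : IsBundle (StCurve_V0 hB) (StCurve_V1 hB) where
  fg0 := StCurve_fg V.fg0 _ fun _ => Iff.rfl
  fg1 := StCurve_fg V.fg1 _ fun _ => Iff.rfl
  span := StCurve_span V.sp0
  loc0 := fun v hv => V.loc01 v hv
  loc1 := fun v hv => V.loc10 v hv

private theorem StCurve_plus1 {k : Type u} [Field k] {D : FExt k} {F : LSp D} {V : LP k F.F}
    (hB : LP.BStable V) (v : F.F × D.L × D.L) : v ∈ plus1 (StCurve_V1 hB) ↔ v ∈ V.plus.N1 := by
  have h1 : v ∈ V.plus.N1 ↔ (v.1 ∈ V.N1 ∧ v.2.1 ∈ (LP.OO D).N1 ∧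
      (RatFunc.X : RatFunc k) ^ (-1 : ℤ) • v.2.2 ∈ (LP.OO D).N1) := Iff.rfl
  rw [h1, zpow_neg_one]
  exact Iff.rfl

theorem isCurveDG_of {k : Type u} [Field k] (W : DGA k) (hW : IsCurve W) :
    IsCurveDG (DG.of W) := by
  obtain ⟨D, F, V, hB, rfl⟩ := hW
  obtain ⟨e, he⟩ := isCech_of (endCosp V.plus)
  refine ⟨D.L, F.F, inferInstance, inferInstance, inferInstance, inferInstance, inferInstance,
    inferInstance, inferInstance, inferInstance, inferInstance, inferInstance, inferInstance,
    inferInstance, inferInstance, StCurve_V0 hB, StCurve_V1 hB, EA0 V.plus, EA1 V.plus,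
    EA01 V.plus, EA0_le V.plus, EA1_le V.plus, StCurve_bundle hB, ?_, ?_, ?_, e, he⟩
  · intro f
    exact Iff.rfl
  · intro f
    have h1 : f ∈ EA1 V.plus ↔ ∀ v : F.F × D.L × D.L, v ∈ V.plus.N1 → f v ∈ V.plus.N1 := Iff.rfl
    refine Iff.trans h1 (forall_congr' fun v => ?_)
    exact (imp_congr (StCurve_plus1 hB v) (StCurve_plus1 hB (f v))).symm
  · intro f
    exact Iff.rfl

end Pool.Agent.MP_6e5bed_ag_SP
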