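import Pool.Agent.Lib.MP_6e5bed_ag_SP.NCMot

set_option autoImplicit false

/-!
# Coherent sheaves of algebras on the projective line, Čech dg algebras, dg algebras of curves
-/

namespace Pool.Agent.MP_6e5bed_ag_SP

universe u

section

variable {k A0 A1 A01 T : Type u} [CommRing k] [Ring A0] [Algebra k A0] [Ring A1] [Algebra k A1]
  [Ring A01] [Algebra k A01] [Ring T] [Algebra k T]

/-- `A0 → A01 ← A1` is a coherent sheaf of algebras on the projective line: `t` is central in `A0`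
and `s` is central in `A1`, the images of `t` and `s` in `A01` are inverse to each other,
`A01 = A0[1/t] = A1[1/s]`, and `A0` and `A1` are finitely generated modules over `k[t]` and
`k[s]`. -/
structure IsCohAlg (r0 : A0 →ₐ[k] A01) (r1 : A1 →ₐ[k] A01) (t : A0) (s : A1) : Prop where
  t_comm : ∀ a, t * a = a * t
  s_comm : ∀ a, s * a = a * s
  ts : r0 t * r1 s = 1
  st : r1 s * r0 t = 1
  loc0 : ∀ c, ∃ (n : ℕ) (a : A0), r0 t ^ n * c = r0 a
  loc1 : ∀ c, ∃ (n : ℕ) (a : A1), r1 s ^ n * c = r1 a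
  ker0 : ∀ a, r0 a = 0 → ∃ n : ℕ, t ^ n * a = 0
  ker1 : ∀ a, r1 a = 0 → ∃ n : ℕ, s ^ n * a = 0
  fin0 : ∃ F : Finset A0, ∀ a, a ∈ Submodule.span k {x | ∃ y ∈ F, ∃ n : ℕ, x = t ^ n * y}
  fin1 : ∃ F : Finset A1, ∀ a, a ∈ Submodule.span k {x | ∃ y ∈ F, ∃ n : ℕ, x = s ^ n * y}

/-- The dg algebra `X` is the Čech dg algebra of `A0 → A01 ← A1`: the elements are `(a0, a1, c)`,
`a0` and `a1` of degree `0`, `c` of degree `1`, with
`(a0, a1, c) (b0, b1, e) = (a0 b0, a1 b1, a0 e + c b1)` and `d (a0, a1, c) = (0, 0, a1 - a0)`. -/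
structure IsCech (r0 : A0 →ₐ[k] A01) (r1 : A1 →ₐ[k] A01) (X : DG k T)
    (e : T ≃ₗ[k] (A0 × A1) × A01) : Prop where
  one : e 1 = ((1, 1), 0)
  mul : ∀ a b, e (a * b) =
    (((e a).1.1 * (e b).1.1, (e a).1.2 * (e b).1.2), r0 (e a).1.1 * (e b).2 + (e a).2 * r1 (e b).1.2)
  gr0 : ∀ a, a ∈ X.gr 0 ↔ (e a).2 = 0
  gr1 : ∀ a, a ∈ X.gr 1 ↔ (e a).1 = 0
  d : ∀ a, e (X.d a) = (0, r1 (e a).1.2 - r0 (e a).1.1)

end

section

variable {k : Type u} [Field k] (L F : Type u) [Field L] [Algebra (RatFunc k) L]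
  [AddCommGroup F] [Module (RatFunc k) F] [Module L F]

/-- The integral closure of `k[u]` in the extension `L` of `k(t)`. -/
noncomputable abbrev IC (u : RatFunc k) : Subalgebra (Algebra.adjoin k {u}) L :=
  integralClosure (Algebra.adjoin k {u}) L

variable {L F}

/-- The lattices `V0` and `V1` in the `L`-vector space `F`, over the integral closures of `k[t]` and
`k[1/t]` in `L`, are a vector bundle on the smooth projective curve with the function field `L`. -/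
structure IsBundle (V0 : Submodule (IC L (RatFunc.X : RatFunc k)) F)
    (V1 : Submodule (IC L (RatFunc.X : RatFunc k)⁻¹) F) : Prop where
  fg0 : V0.FG
  fg1 : V1.FG
  span : Submodule.span L (V0 : Set F) = ⊤
  loc0 : ∀ v ∈ V0, ∃ n : ℕ, ((RatFunc.X : RatFunc k)⁻¹) ^ n • v ∈ V1
  loc1 : ∀ v ∈ V1, ∃ n : ℕ, (RatFunc.X : RatFunc k) ^ n • v ∈ V0

/-- The lattice `V0 ⊕ O ⊕ O(1)` over the integral closure of `k[t]`. -/
def plus0 (V0 : Submodule (IC L (RatFunc.X : RatFunc k)) F) : Set (F × L × L) :=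
  {v | v.1 ∈ V0 ∧ v.2.1 ∈ IC L (RatFunc.X : RatFunc k) ∧ v.2.2 ∈ IC L (RatFunc.X : RatFunc k)}

/-- The lattice `V1 ⊕ O ⊕ O(1)` over the integral closure of `k[1/t]`. -/
def plus1 (V1 : Submodule (IC L (RatFunc.X : RatFunc k)⁻¹) F) : Set (F × L × L) :=
  {v | v.1 ∈ V1 ∧ v.2.1 ∈ IC L (RatFunc.X : RatFunc k)⁻¹ ∧
    (RatFunc.X : RatFunc k)⁻¹ • v.2.2 ∈ IC L (RatFunc.X : RatFunc k)⁻¹}

end

/-- The dg algebra `X` is `REnd(V ⊕ O ⊕ O(1))` for a vector bundle `V` on a smooth projective curve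
over `k`: the Čech dg algebra of `End(V ⊕ O ⊕ O(1))`. -/
def IsCurveDG {k W : Type u} [Field k] [Ring W] [Algebra k W] (X : DG k W) : Prop :=
  ∃ (L F : Type u) (_ : Field L) (_ : Algebra k L) (_ : Algebra (RatFunc k) L)
    (_ : IsScalarTower k (RatFunc k) L) (_ : FiniteDimensional (RatFunc k) L)
    (_ : Algebra.IsSeparable (RatFunc k) L) (_ : AddCommGroup F) (_ : Module k F)
    (_ : Module (RatFunc k) F) (_ : Module L F) (_ : IsScalarTower k (RatFunc k) F)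
    (_ : IsScalarTower (RatFunc k) L F) (_ : IsScalarTower k L F)
    (V0 : Submodule (IC L (RatFunc.X : RatFunc k)) F)
    (V1 : Submodule (IC L (RatFunc.X : RatFunc k)⁻¹) F)
    (A0 A1 A01 : Subalgebra k (Module.End L (F × L × L))) (h0 : A0 ≤ A01) (h1 : A1 ≤ A01),
    IsBundle V0 V1 ∧ (∀ f, f ∈ A0 ↔ ∀ v ∈ plus0 V0, f v ∈ plus0 V0) ∧
    (∀ f, f ∈ A1 ↔ ∀ v ∈ plus1 V1, f v ∈ plus1 V1) ∧
    (∀ f, f ∈ A01 ↔ ∀ v, (∃ n : ℕ, (RatFunc.X : RatFunc k) ^ n • v ∈ plus0 V0) →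
      ∃ n : ℕ, (RatFunc.X : RatFunc k) ^ n • f v ∈ plus0 V0) ∧
    ∃ e, IsCech (A0 := A0) (A1 := A1) (A01 := A01) (Subalgebra.inclusion h0)
      (Subalgebra.inclusion h1) X e

end Pool.Agent.MP_6e5bed_ag_SP
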