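import Pool.Agent.Lib.MP_6e5bed_ag_CV.StCurve
import Pool.Agent.Lib.MP_6e5bed_ag_CV.FinalB

set_option autoImplicit false
set_option linter.unusedSectionVars false

/-!
# Noncommutative projective curves: the final statements
-/

namespace Pool.Agent.MP_6e5bed_ag_SP

open CategoryTheory MonoidalCategory Pool.Agent.MP_6e5bed_ag Pool.Agent.MP_6e5bed_ag_NC

universe u

variable {k : Type u} [Field k]

theorem sum_of_iso {C : Type*} [Category C] [Preadditive C] {A B : C} (φ : A ≅ B) {n : ℕ}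
    {Y : Fin n → C} (f : ∀ i, B ⟶ Y i) (g : ∀ i, Y i ⟶ B) (h : 𝟙 B = ∑ i, f i ≫ g i) :
    𝟙 A = ∑ i, (φ.hom ≫ f i) ≫ g i ≫ φ.inv := by
  have h2 : φ.hom ≫ 𝟙 B ≫ φ.inv = 𝟙 A := by rw [Category.id_comp, φ.hom_inv_id]
  rw [← h2, h, Preadditive.sum_comp, Preadditive.comp_sum]
  refine Finset.sum_congr rfl fun i _ => ?_
  simp only [Category.assoc]

theorem bij_base (X : DGA k) (hX : X = base k) :
    Function.Bijective (algebraMap k (RA X)) := by
  subst hX
  have h1 : ∀ c : k, algebraMap k (RA (base k)) c = (c : (base k).A) := fun c => by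
    rw [Algebra.algebraMap_eq_smul_one]
    exact base_smul c
  exact ⟨fun a b hab => (h1 a).symm.trans (hab.trans (h1 b)), fun b => ⟨b, h1 b⟩⟩

section

variable {A0 A1 A01 T : Type u} [Ring A0] [Algebra k A0] [Ring A1] [Algebra k A1]
  [Ring A01] [Algebra k A01] [Ring T] [Algebra k T] {r0 : A0 →ₐ[k] A01} {r1 : A1 →ₐ[k] A01}
  {t : A0} {s : A1} {X : DG k T} {e : T ≃ₗ[k] (A0 × A1) × A01}
  {C : Type (u + 1)} [Category.{u + 1} C] [MonoidalCategory C]
  [SymmetricCategory C] [Preadditive C] [MonoidalPreadditive C] [Linear ℚ C] (H : NCMot k C)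

/-- The smooth and proper dg algebra `RΓ(P¹, A)`. -/
noncomputable def spCech (hX : IsCech r0 r1 X e) (hs : SmPr X) : SP k :=
  ⟨(mkCosp r0 r1).cech, hs.smooth hX.exists_rep.some, hs.proper hX.exists_rep.some⟩

theorem stA [IsAlgClosed k] (h : IsCohAlg r0 r1 t s) (hX : IsCech r0 r1 X e) (hs : SmPr X) :
    ∃ (n : ℕ) (W : Fin n → Type u) (_ : ∀ i, Ring (W i)) (_ : ∀ i, Algebra k (W i))
      (Y : ∀ i, DG k (W i)) (hY : ∀ i, SmPr (Y i)),
      (∀ i, Function.Bijective (algebraMap k (W i)) ∨ IsCurveDG (Y i)) ∧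
      ∃ (f : ∀ i, H.U X hs ⟶ H.U (Y i) (hY i)) (g : ∀ i, H.U (Y i) (hY i) ⟶ H.U X hs),
        𝟙 (H.U X hs) = ∑ i, f i ≫ g i := by
  obtain ⟨φ⟩ := H.exists_iso hs (B := spCech hX hs) hX.exists_rep.some
  obtain ⟨n, S, hS, f, g, hfg⟩ := thmA h.isCoh (spCech hX hs) rfl
  refine ⟨n, fun i => RA (S i).alg, fun i => inferInstance, fun i => inferInstance,
    fun i => DG.of (S i).alg, fun i => smPr_of (S i), fun i => ?_,
    fun i => φ.hom ≫ H.F.map (f i), fun i => H.F.map (g i) ≫ φ.inv, ?_⟩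
  · rcases hS i with h0 | h0
    · exact Or.inl (bij_base _ h0)
    · exact Or.inr (isCurveDG_of _ h0)
  · have h1 : H.F.map (𝟙 (spCech hX hs)) = ∑ i, H.F.map (f i) ≫ H.F.map (g i) := by
      rw [hfg, Functor.map_sum]
      refine Finset.sum_congr rfl fun i _ => ?_
      rw [Functor.map_comp]
    rw [H.F.map_id] at h1
    exact sum_of_iso (B := H.F.obj (spCech hX hs)) φ (fun i => H.F.map (f i))
      (fun i => H.F.map (g i)) h1

end

end Pool.Agent.MP_6e5bed_ag_SP
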