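import Pool.Agent.Lib.MP_6e5bed_ag_CV.StDefs
import Pool.Agent.Lib.MP_6e5bed_ag_CV.Coh
import Pool.Agent.Lib.MP_6e5bed_ag_SP.RepA

set_option autoImplicit false

/-!
# Comparison of the two descriptions of Čech dg algebras
-/

namespace Pool.Agent.MP_6e5bed_ag_SP

open Pool.Agent.MP_6e5bed_ag_NC

universe u

section

variable {k A0 A1 A01 T : Type u} [CommRing k] [Ring A0] [Algebra k A0] [Ring A1] [Algebra k A1]
  [Ring A01] [Algebra k A01] [Ring T] [Algebra k T]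

/-- The cospan. -/
def mkCosp (r0 : A0 →ₐ[k] A01) (r1 : A1 →ₐ[k] A01) : Cosp k where
  A0 := A0
  A1 := A1
  A01 := A01
  r0 := r0
  r1 := r1

theorem IsCohAlg.isCoh {r0 : A0 →ₐ[k] A01} {r1 : A1 →ₐ[k] A01} {t : A0} {s : A1}
    (h : IsCohAlg r0 r1 t s) : IsCoh (mkCosp r0 r1) t s :=
  ⟨h.t_comm, h.s_comm, h.ts, h.st, h.loc0, h.loc1, h.ker0, h.ker1, h.fin0, h.fin1⟩

private theorem StRep_iff0 {k : Type u} [CommRing k] {V W : Type u} [AddCommGroup V] [Module k V]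
    [AddCommGroup W] [Module k W] (δ : V →ₗ[k] W) (x : V × W) :
    (Dg.two δ).IsDeg 0 x ↔ x.2 = 0 := by
  constructor
  · intro h
    obtain ⟨v, w⟩ := x
    rcases Dg.two_isDeg δ h with ⟨-, h1⟩ | ⟨h1, -⟩ | ⟨-, h1⟩
    · exact h1
    · exact absurd h1 (by decide)
    · exact h1
  · exact Dg.two_deg0' δ

private theorem StRep_iff1 {k : Type u} [CommRing k] {V W : Type u} [AddCommGroup V] [Module k V]
    [AddCommGroup W] [Module k W] (δ : V →ₗ[k] W) (x : V × W) :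
    (Dg.two δ).IsDeg 1 x ↔ x.1 = 0 := by
  constructor
  · intro h
    obtain ⟨v, w⟩ := x
    rcases Dg.two_isDeg δ h with ⟨h1, -⟩ | ⟨-, h1⟩ | ⟨h1, -⟩
    · exact absurd h1 (by decide)
    · exact h1
    · exact h1
  · exact Dg.two_deg1' δ

private theorem StRep_ne {k : Type u} [CommRing k] {V : Type u} [AddCommGroup V] [Module k V]
    (X : Cx k V) {n : ℤ} (h0 : n ≠ 0) (h1 : n ≠ 1) {v v0 v1 : V} (hv : v ∈ X.gr n)
    (hv0 : v0 ∈ X.gr 0) (hv1 : v1 ∈ X.gr 1) (h : v = v0 + v1) : v = 0 := by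
  have e : X.toDg.ρ v = Finsupp.single n v := ((Cx.toDg_rep X).mem n v).1 hv
  have e0 : X.toDg.ρ v0 = Finsupp.single 0 v0 := ((Cx.toDg_rep X).mem 0 v0).1 hv0
  have e1 : X.toDg.ρ v1 = Finsupp.single 1 v1 := ((Cx.toDg_rep X).mem 1 v1).1 hv1
  have h2 : X.toDg.ρ v = X.toDg.ρ v0 + X.toDg.ρ v1 := by rw [← map_add, ← h]
  rw [e, e0, e1] at h2
  have h3 := DFunLike.congr_fun h2 n
  rw [Finsupp.add_apply, Finsupp.single_eq_same, Finsupp.single_eq_of_ne h0,
    Finsupp.single_eq_of_ne h1, add_zero] at h3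
  exact h3

theorem IsCech.exists_rep {r0 : A0 →ₐ[k] A01} {r1 : A1 →ₐ[k] A01} {X : DG k T}
    {e : T ≃ₗ[k] (A0 × A1) × A01} (h : IsCech r0 r1 X e) :
    Nonempty (Rep X (mkCosp r0 r1).cech) := by
  have hd0 : ∀ v : T, e.symm ((e v).1, 0) ∈ X.gr 0 := fun v => by
    rw [h.gr0, e.apply_symm_apply]
  have hd1 : ∀ v : T, e.symm (0, (e v).2) ∈ X.gr 1 := fun v => by
    rw [h.gr1, e.apply_symm_apply]
  have hsum : ∀ v : T, v = e.symm ((e v).1, 0) + e.symm (0, (e v).2) := fun v => by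
    rw [← map_add]
    apply e.injective
    rw [e.apply_symm_apply]
    simp
  refine ⟨⟨e, h.one, h.mul, ⟨fun n v => ?_, fun v => h.d v⟩⟩⟩
  by_cases h0 : n = 0
  · subst h0
    exact (h.gr0 v).trans (StRep_iff0 (mkCosp r0 r1).δ (e v)).symm
  · by_cases h1 : n = 1
    · subst h1
      exact (h.gr1 v).trans (StRep_iff1 (mkCosp r0 r1).δ (e v)).symm
    · constructor
      · intro hv
        have h2 := StRep_ne X.toCx h0 h1 hv (hd0 v) (hd1 v) (hsum v)
        have h3 : e v = 0 := by rw [h2, map_zero]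
        change (Dg.two (mkCosp r0 r1).δ).IsDeg n (e v)
        rw [h3]
        exact Dg.IsDeg.zero _
      · intro hv
        have h2 : (Dg.two (mkCosp r0 r1).δ).IsDeg n ((e v).1, (e v).2) := hv
        rcases Dg.two_isDeg _ h2 with ⟨h3, -⟩ | ⟨h3, -⟩ | ⟨h3, h4⟩
        · exact absurd h3 h0
        · exact absurd h3 h1
        · have h5 : e v = 0 := Prod.ext h3 h4
          have h6 : v = 0 := by
            apply e.injective
            rw [h5, map_zero]
          rw [h6]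
          exact Submodule.zero_mem _

end

theorem isCech_of {k : Type u} [CommRing k] (A : Cosp k) :
    ∃ e : RA A.cech ≃ₗ[k] (A.A0 × A.A1) × A.A01, IsCech A.r0 A.r1 (DG.of A.cech) e := by
  refine ⟨(repOf A.cech).e, (repOf A.cech).one, fun a b => (repOf A.cech).mul a b,
    fun a => ?_, fun a => ?_, fun a => (repOf A.cech).rep.d a⟩
  · exact ((repOf A.cech).rep.mem 0 a).trans (StRep_iff0 A.δ _)
  · exact ((repOf A.cech).rep.mem 1 a).trans (StRep_iff1 A.δ _)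

end Pool.Agent.MP_6e5bed_ag_SP
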