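import Pool.Agent.Lib.MP_6e5bed_ag_CV.Dual

set_option autoImplicit false
set_option linter.unusedSectionVars false

/-!
# The components of tensor products of lattice pairs
-/

namespace Pool.Agent.MP_6e5bed_ag_NC

open RatFunc
open scoped TensorProduct

universe u

variable {k : Type u} [Field k]

section

variable {E : Type u} [AddCommGroup E] [Module (RatFunc k) E] [Module k E]
  [IsScalarTower k (RatFunc k) E]

/-- The three components of a lattice pair. -/
noncomputable def LP.cp (V : LP k E) : Fin 3 → Submodule k E :=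
  ![Submodule.restrictScalars k V.N0, Submodule.restrictScalars k V.N1, V.N01]

/-- The elements `v` with `v ∈ U` and `t v ∈ U`. -/
noncomputable def mn (U : Submodule k E) : Submodule k E :=
  U ⊓ U.comap ((LinearMap.lsmul (RatFunc k) E (X : RatFunc k)).restrictScalars k)

theorem mem_mn {U : Submodule k E} {v : E} :
    v ∈ mn U ↔ v ∈ U ∧ (X : RatFunc k) • v ∈ U := Iff.rfl

/-- These are the components of the twist `V(-1)`. -/
theorem cp_tw (V : LP k E) (a : Fin 3) : (V.tw (-1)).cp a = mn (V.cp a) := by
  have hX : (X : RatFunc k) ≠ 0 := RatFunc.X_ne_zero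
  have h0 : Submodule.restrictScalars k (V.tw (-1)).N0 =
      mn (Submodule.restrictScalars k V.N0) := by
    ext v
    rw [mem_mn]
    constructor
    · intro h
      exact ⟨h, V.X_mem h⟩
    · intro h
      exact h.1
  have h1 : Submodule.restrictScalars k (V.tw (-1)).N1 =
      mn (Submodule.restrictScalars k V.N1) := by
    ext v
    have h2 : v ∈ Submodule.restrictScalars k (V.tw (-1)).N1 ↔
        (X : RatFunc k) • v ∈ V.N1 := by
      have h3 := LP.mem_tw_N1 V (-1) v
      rw [neg_neg, zpow_one] at h3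
      exact h3
    rw [mem_mn, h2]
    constructor
    · intro h
      refine ⟨?_, h⟩
      have h3 := V.Xi_mem h
      rw [inv_smul_smul₀ hX] at h3
      exact h3
    · intro h
      exact h.2
  have h01 : (V.tw (-1)).N01 = mn V.N01 := by
    ext v
    have h2 : v ∈ (V.tw (-1)).N01 ↔ v ∈ V.N01 := Iff.rfl
    rw [mem_mn, h2, V.N01_X, and_self]
  fin_cases a
  · exact h0
  · exact h1
  · exact h01

end

section

variable {D : FExt k} {F E : LSp D}

/-- The map `U ⊗_k U' → F ⊗_L E`. -/
noncomputable def piT (U : Submodule k F.F) (U' : Submodule k E.F) :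
    U ⊗[k] U' →ₗ[k] F.F ⊗[D.L] E.F :=
  TensorProduct.lift (LinearMap.mk₂ k (fun (x : U) (y : U') => x.1 ⊗ₜ[D.L] y.1)
    (fun x x' y => TensorProduct.add_tmul _ _ _)
    (fun c x y => (TensorProduct.smul_tmul' c x.1 y.1).symm)
    (fun x y y' => TensorProduct.tmul_add _ _ _)
    (fun c x y => by
      rw [Submodule.coe_smul, TensorProduct.tmul_smul]))

theorem piT_tmul (U : Submodule k F.F) (U' : Submodule k E.F) (x : U) (y : U') :
    piT U U' (x ⊗ₜ[k] y) = x.1 ⊗ₜ[D.L] y.1 := rfl

/-- The inclusion of `mn U`. -/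
noncomputable def mnI (U : Submodule k F.F) : mn U →ₗ[k] U := Submodule.inclusion inf_le_left

/-- The multiplication by `t` on `mn U`. -/
noncomputable def mnX (U : Submodule k F.F) : mn U →ₗ[k] U :=
  LinearMap.codRestrict U (((LinearMap.lsmul (RatFunc k) F.F
    (X : RatFunc k)).restrictScalars k).comp (mn U).subtype) (fun v => v.2.2)

/-- The map `w ⊗ w' ↦ w ⊗ t w' - t w ⊗ w'`. -/
noncomputable def nuT (U : Submodule k F.F) (U' : Submodule k E.F) :
    (mn U) ⊗[k] (mn U') →ₗ[k] U ⊗[k] U' :=
  TensorProduct.map (mnI U) (mnX U') - TensorProduct.map (mnX U) (mnI U')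

end

end Pool.Agent.MP_6e5bed_ag_NC
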