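import Pool.Agent.Lib.MP_6e5bed_ag_CV.Ring0
import Pool.Agent.Lib.MP_6e5bed_ag_CV.Corner

set_option autoImplicit false

/-!
# Maps, exact sequences and summands of Čech bimodules (NC CURVES, row 12)
-/

namespace Pool.Agent.MP_6e5bed_ag_NC

universe u

variable {k : Type u} [Field k]

namespace Tri

variable {S T : Cosp k}

/-- A homomorphism of bimodules over cospans. -/
structure Hom (M N : Tri S T) where
  f0 : M.M0.M →ₗ[k] N.M0.M
  f1 : M.M1.M →ₗ[k] N.M1.M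
  f01 : M.M01.M →ₗ[k] N.M01.M
  l0 : ∀ a m, f0 (M.M0.l a m) = N.M0.l a (f0 m)
  r0 : ∀ b m, f0 (M.M0.r b m) = N.M0.r b (f0 m)
  l1 : ∀ a m, f1 (M.M1.l a m) = N.M1.l a (f1 m)
  r1 : ∀ b m, f1 (M.M1.r b m) = N.M1.r b (f1 m)
  l01 : ∀ a m, f01 (M.M01.l a m) = N.M01.l a (f01 m)
  r01 : ∀ b m, f01 (M.M01.r b m) = N.M01.r b (f01 m)
  ρ0 : ∀ m, f01 (M.ρ0 m) = N.ρ0 (f0 m)
  ρ1 : ∀ m, f01 (M.ρ1 m) = N.ρ1 (f1 m)

theorem Hom.map_cl {M N : Tri S T} (f : Hom M N) (a : (S.A0 × S.A1) × S.A01)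
    (m : (M.M0.M × M.M1.M) × M.M01.M) : ((f.f0.prodMap f.f1).prodMap f.f01) (M.cl a m) =
      N.cl a (((f.f0.prodMap f.f1).prodMap f.f01) m) := by
  rw [cl_apply, cl_apply]
  change ((f.f0 (M.M0.l a.1.1 m.1.1), f.f1 (M.M1.l a.1.2 m.1.2)),
    f.f01 (M.M01.l (S.r0 a.1.1) m.2 + M.M01.l a.2 (M.ρ1 m.1.2))) = _
  rw [f.l0, f.l1, map_add, f.l01, f.l01, f.ρ1]
  rfl

theorem Hom.map_cr {M N : Tri S T} (f : Hom M N) (b : (T.A0 × T.A1) × T.A01)
    (m : (M.M0.M × M.M1.M) × M.M01.M) : ((f.f0.prodMap f.f1).prodMap f.f01) (M.cr b m) =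
      N.cr b (((f.f0.prodMap f.f1).prodMap f.f01) m) := by
  rw [cr_apply, cr_apply]
  change ((f.f0 (M.M0.r b.1.1 m.1.1), f.f1 (M.M1.r b.1.2 m.1.2)),
    f.f01 (M.M01.r b.2 (M.ρ0 m.1.1) + M.M01.r (T.r1 b.1.2) m.2)) = _
  rw [f.r0, f.r1, map_add, f.r01, f.r01, f.ρ0]
  rfl

/-- The map of Čech bimodules. -/
noncomputable def Hom.gmap {M N : Tri S T} (f : Hom M N) : GMap 0 M.bim N.bim where
  f := (f.f0.prodMap f.f1).prodMap f.f01
  deg := fun {i m} hm => by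
    refine Dg.two_degMap M.δ (Z := N.bim.dg) _ (fun v => ?_) (fun w => ?_) hm
    · refine Dg.two_deg0' N.δ ?_
      change f.f01 0 = 0
      rw [map_zero]
    · rw [zero_add]
      refine Dg.two_deg1' N.δ ?_
      change (f.f0 0, f.f1 0) = 0
      rw [map_zero, map_zero]
      rfl
  map_l := fun a m => by
    rw [Dg.sp_zero]
    exact f.map_cl a m
  map_r := fun b m => f.map_cr b m

theorem Hom.gmap_f {M N : Tri S T} (f : Hom M N) (x : (M.M0.M × M.M1.M) × M.M01.M) :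
    f.gmap.f x = ((f.f0 x.1.1, f.f1 x.1.2), f.f01 x.2) := rfl

theorem Hom.gmap_dd {M N : Tri S T} (f : Hom M N) : f.gmap.dd = 0 := by
  refine LinearMap.ext fun x => ?_
  rw [GMap.dd_apply, sg_zero, one_smul, LinearMap.zero_apply, sub_eq_zero]
  obtain ⟨v, w⟩ := x
  change (Dg.two N.δ).d ((f.f0 v.1, f.f1 v.2), f.f01 w) = f.gmap.f ((Dg.two M.δ).d (v, w))
  rw [Dg.two_d, Dg.two_d, Hom.gmap_f]
  change (0, N.δ (f.f0 v.1, f.f1 v.2)) = ((f.f0 0, f.f1 0), f.f01 (M.δ v))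
  rw [δ_apply, δ_apply, map_zero, map_zero, map_sub, f.ρ0, f.ρ1]
  rfl

theorem biso {M N : Tri S T} (f : Hom M N) (h0 : Function.Bijective f.f0)
    (h1 : Function.Bijective f.f1) (h01 : Function.Bijective f.f01) : BIso M.bim N.bim := by
  refine BIso.of_bij f.gmap f.gmap_dd ⟨?_, ?_⟩
  · exact (h0.1.prodMap h1.1).prodMap h01.1
  · exact (h0.2.prodMap h1.2).prodMap h01.2

theorem isSummand {M N : Tri S T} (i : Hom M N) (r : Hom N M) (h0 : ∀ x, r.f0 (i.f0 x) = x)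
    (h1 : ∀ x, r.f1 (i.f1 x) = x) (h01 : ∀ x, r.f01 (i.f01 x) = x) :
    IsSummand M.bim N.bim := by
  refine ⟨i.gmap, r.gmap, i.gmap_dd, r.gmap_dd, fun x => ?_⟩
  change ((r.f0 (i.f0 x.1.1), r.f1 (i.f1 x.1.2)), r.f01 (i.f01 x.2)) = x
  rw [h0, h1, h01]
  rfl

theorem isSes {M' M M'' : Tri S T} (i : Hom M' M) (p : Hom M M'')
    (hi0 : Function.Injective i.f0) (hi1 : Function.Injective i.f1)
    (hi01 : Function.Injective i.f01) (hp0 : Function.Surjective p.f0)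
    (hp1 : Function.Surjective p.f1) (hp01 : Function.Surjective p.f01)
    (h0 : ∀ x, p.f0 x = 0 ↔ ∃ y, i.f0 y = x) (h1 : ∀ x, p.f1 x = 0 ↔ ∃ y, i.f1 y = x)
    (h01 : ∀ x, p.f01 x = 0 ↔ ∃ y, i.f01 y = x) : IsSes M'.bim M.bim M''.bim := by
  refine ⟨i.gmap, p.gmap, i.gmap_dd, p.gmap_dd, (hi0.prodMap hi1).prodMap hi01,
    (hp0.prodMap hp1).prodMap hp01, fun x => ?_⟩
  obtain ⟨⟨x0, x1⟩, x01⟩ := x
  constructor
  · intro h
    have h' : (((p.f0 x0, p.f1 x1), p.f01 x01) : (M''.M0.M × M''.M1.M) × M''.M01.M) = 0 := h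
    rw [Prod.mk_eq_zero, Prod.mk_eq_zero] at h'
    obtain ⟨y0, rfl⟩ := (h0 _).1 h'.1.1
    obtain ⟨y1, rfl⟩ := (h1 _).1 h'.1.2
    obtain ⟨y01, rfl⟩ := (h01 _).1 h'.2
    exact ⟨((y0, y1), y01), rfl⟩
  · rintro ⟨⟨⟨y0, y1⟩, y01⟩, h⟩
    have h' : (((i.f0 y0, i.f1 y1), i.f01 y01) : (M.M0.M × M.M1.M) × M.M01.M) =
      ((x0, x1), x01) := h
    rw [Prod.mk.injEq, Prod.mk.injEq] at h'
    change (((p.f0 x0, p.f1 x1), p.f01 x01) : (M''.M0.M × M''.M1.M) × M''.M01.M) = 0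
    rw [(h0 _).2 ⟨_, h'.1.1⟩, (h1 _).2 ⟨_, h'.1.2⟩, (h01 _).2 ⟨_, h'.2⟩]
    rfl

/-- The cohomology is finite-dimensional if the kernel and the cokernel of the differential
`(m0, m1) ↦ ρ1 m1 - ρ0 m0` are so. -/
theorem finCoh (M : Tri S T) (h0 : Module.Finite k (LinearMap.ker M.δ))
    (h1 : Module.Finite k (M.M01.M ⧸ LinearMap.range M.δ)) : M.bim.dg.FinCoh := by
  change Module.Finite k (LinearMap.ker (Dg.two M.δ).d ⧸
    (LinearMap.range (Dg.two M.δ).d).comap (LinearMap.ker (Dg.two M.δ).d).subtype)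
  have hk : ∀ x : (M.M0.M × M.M1.M) × M.M01.M, (Dg.two M.δ).d x = 0 ↔ M.δ x.1 = 0 := by
    rintro ⟨v, w⟩
    rw [Dg.two_d, Prod.mk_eq_zero]
    exact ⟨fun h => h.2, fun h => ⟨rfl, h⟩⟩
  -- the map to `ker δ × coker δ`
  let F : LinearMap.ker (Dg.two M.δ).d →ₗ[k]
      (LinearMap.ker M.δ) × (M.M01.M ⧸ LinearMap.range M.δ) :=
    { toFun := fun x => (⟨x.1.1, (hk x.1).1 x.2⟩, Submodule.Quotient.mk x.1.2)
      map_add' := fun x y => rfl
      map_smul' := fun c x => rfl }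
  have hF : ∀ x, F x = 0 →
      x ∈ (LinearMap.range (Dg.two M.δ).d).comap (LinearMap.ker (Dg.two M.δ).d).subtype := by
    intro x hx
    have h2 := congrArg Prod.fst hx
    have h3 : Submodule.Quotient.mk (p := LinearMap.range M.δ) x.1.2 = 0 := congrArg Prod.snd hx
    rw [Submodule.Quotient.mk_eq_zero] at h3
    obtain ⟨v, hv⟩ := h3
    have h4 : x.1.1 = 0 := congrArg Subtype.val h2
    refine ⟨(v, 0), ?_⟩
    rw [Dg.two_d]
    change (0, M.δ v) = x.1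
    rw [hv, ← h4]
  have hinj : ∀ x, x ∈ (LinearMap.range (Dg.two M.δ).d).comap
      (LinearMap.ker (Dg.two M.δ).d).subtype → F x = 0 := by
    rintro x ⟨⟨v, w⟩, hvw⟩
    rw [Dg.two_d] at hvw
    have hx1 : x.1.1 = 0 := (congrArg Prod.fst hvw).symm
    have hx2 : x.1.2 = M.δ v := (congrArg Prod.snd hvw).symm
    refine Prod.ext (Subtype.ext hx1) ?_
    change Submodule.Quotient.mk (p := LinearMap.range M.δ) x.1.2 = 0
    rw [Submodule.Quotient.mk_eq_zero]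
    exact ⟨v, hx2.symm⟩
  let G := Submodule.liftQ _ F (fun x hx => LinearMap.mem_ker.2 (hinj x hx))
  have hG : Function.Injective G := by
    rw [← LinearMap.ker_eq_bot, Submodule.ker_liftQ_eq_bot]
    intro x hx
    exact hF x hx
  exact Module.Finite.of_injective G hG

/-- The bimodule with the components of the cospan. -/
def diag (S : Cosp k) : Tri S S where
  M0 :=
    { M := S.A0
      l := LinearMap.mul k S.A0
      r := (LinearMap.mul k S.A0).flip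
      l_one := by simp
      r_one := by simp
      l_mul := by simp [mul_assoc]
      r_mul := by simp [mul_assoc]
      l_r := by simp [mul_assoc] }
  M1 :=
    { M := S.A1
      l := LinearMap.mul k S.A1
      r := (LinearMap.mul k S.A1).flip
      l_one := by simp
      r_one := by simp
      l_mul := by simp [mul_assoc]
      r_mul := by simp [mul_assoc]
      l_r := by simp [mul_assoc] }
  M01 :=
    { M := S.A01
      l := LinearMap.mul k S.A01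
      r := (LinearMap.mul k S.A01).flip
      l_one := by simp
      r_one := by simp
      l_mul := by simp [mul_assoc]
      r_mul := by simp [mul_assoc]
      l_r := by simp [mul_assoc] }
  ρ0 := S.r0.toLinearMap
  ρ1 := S.r1.toLinearMap
  ρ0_l := by simp
  ρ0_r := by simp
  ρ1_l := by simp
  ρ1_r := by simp

theorem bim_diag (S : Cosp k) : BIso (diag S).bim (MP_6e5bed_ag_NC.diag S.cech) := by
  refine BIso.of_bij (⟨LinearMap.id, ?_, ?_, ?_⟩ :
    GMap 0 (diag S).bim (MP_6e5bed_ag_NC.diag S.cech)) ?_ Function.bijective_id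
  · intro i m hm
    rw [add_zero]
    exact hm
  · intro a m
    rw [Dg.sp_zero]
    rfl
  · intro b m
    rfl
  · refine LinearMap.ext fun x => ?_
    rw [GMap.dd_apply, sg_zero, one_smul, LinearMap.zero_apply, sub_eq_zero]
    rfl

end Tri

/-- A homomorphism of cospans which need not preserve the unit elements. -/
structure NCosp (S T : Cosp k) where
  f0 : S.A0 →ₗ[k] T.A0
  f1 : S.A1 →ₗ[k] T.A1
  f01 : S.A01 →ₗ[k] T.A01
  mul0 : ∀ a b, f0 (a * b) = f0 a * f0 b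
  mul1 : ∀ a b, f1 (a * b) = f1 a * f1 b
  mul01 : ∀ a b, f01 (a * b) = f01 a * f01 b
  r0 : ∀ a, f01 (S.r0 a) = T.r0 (f0 a)
  r1 : ∀ a, f01 (S.r1 a) = T.r1 (f1 a)

theorem NCosp.map_cmul {S T : Cosp k} (φ : NCosp S T) (a b : (S.A0 × S.A1) × S.A01) :
    ((φ.f0.prodMap φ.f1).prodMap φ.f01) (S.cmul a b) =
      T.cmul (((φ.f0.prodMap φ.f1).prodMap φ.f01) a)
        (((φ.f0.prodMap φ.f1).prodMap φ.f01) b) := by
  rw [Cosp.cmul_apply, Cosp.cmul_apply]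
  change ((φ.f0 (a.1.1 * b.1.1), φ.f1 (a.1.2 * b.1.2)),
    φ.f01 (S.r0 a.1.1 * b.2 + a.2 * S.r1 b.1.2)) = _
  rw [φ.mul0, φ.mul1, map_add, φ.mul01, φ.mul01, φ.r0, φ.r1]
  rfl

/-- The non-unital homomorphism of Čech algebras. -/
noncomputable def NCosp.nhom {S T : Cosp k} (φ : NCosp S T) : NHom S.cech T.cech where
  f := (φ.f0.prodMap φ.f1).prodMap φ.f01
  deg := fun {i a} ha => by
    rw [← add_zero i]
    refine Dg.two_degMap S.δ (Z := T.cech.dg) _ (fun v => ?_) (fun w => ?_) ha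
    · refine Dg.two_deg0' T.δ ?_
      change φ.f01 0 = 0
      rw [map_zero]
    · rw [zero_add]
      refine Dg.two_deg1' T.δ ?_
      change (φ.f0 0, φ.f1 0) = 0
      rw [map_zero, map_zero]
      rfl
  d := fun a => by
    obtain ⟨v, w⟩ := a
    change (Dg.two T.δ).d ((φ.f0 v.1, φ.f1 v.2), φ.f01 w) =
      ((φ.f0.prodMap φ.f1).prodMap φ.f01) ((Dg.two S.δ).d (v, w))
    rw [Dg.two_d, Dg.two_d]
    change (0, T.r1 (φ.f1 v.2) - T.r0 (φ.f0 v.1)) =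
      ((φ.f0 0, φ.f1 0), φ.f01 (S.r1 v.2 - S.r0 v.1))
    rw [map_zero, map_zero, map_sub, φ.r0, φ.r1]
    rfl
  mul := fun a b => φ.map_cmul a b

end Pool.Agent.MP_6e5bed_ag_NC
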