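import Pool.Agent.Lib.MP_6e5bed_ag_CV.LPB
import Pool.Agent.Lib.MP_6e5bed_ag_CV.Ses
import Pool.Agent.Lib.MP_6e5bed_ag_CV.LSub

set_option autoImplicit false
set_option linter.unusedSectionVars false

/-!
# Twists of lattice pairs have resolutions (NC CURVES)
-/

namespace Pool.Agent.MP_6e5bed_ag_NC

open RatFunc
open scoped TensorProduct

universe u

variable {k : Type u} [Field k] {S T : Cosp k} {G : GBi k S.A01 T.A01} {A B : DGA k}

/-- The direct sum of bimodules. -/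
private noncomputable def Tw_kprod {R R' : Type u} [Ring R] [Algebra k R] [Ring R'] [Algebra k R']
    (U V : KBi k R R') : KBi k R R' where
  M := U.M × V.M
  l := LinearMap.mk₂ k (fun a m => (U.l a m.1, V.l a m.2))
    (fun a a' m => by ext <;> simp) (fun c a m => by ext <;> simp)
    (fun a m m' => by ext <;> simp) (fun c a m => by ext <;> simp)
  r := LinearMap.mk₂ k (fun a m => (U.r a m.1, V.r a m.2))
    (fun a a' m => by ext <;> simp) (fun c a m => by ext <;> simp)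
    (fun a m m' => by ext <;> simp) (fun c a m => by ext <;> simp)
  l_one := fun m => Prod.ext (U.l_one m.1) (V.l_one m.2)
  r_one := fun m => Prod.ext (U.r_one m.1) (V.r_one m.2)
  l_mul := fun a a' m => Prod.ext (U.l_mul a a' m.1) (V.l_mul a a' m.2)
  r_mul := fun a a' m => Prod.ext (U.r_mul a a' m.1) (V.r_mul a a' m.2)
  l_r := fun a b m => Prod.ext (U.l_r a b m.1) (V.l_r a b m.2)

/-- The direct sum of bimodules over cospans. -/
private noncomputable def Tw_tprod (M N : Tri S T) : Tri S T where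
  M0 := Tw_kprod M.M0 N.M0
  M1 := Tw_kprod M.M1 N.M1
  M01 := Tw_kprod M.M01 N.M01
  ρ0 := M.ρ0.prodMap N.ρ0
  ρ1 := M.ρ1.prodMap N.ρ1
  ρ0_l := fun a m => Prod.ext (M.ρ0_l a m.1) (N.ρ0_l a m.2)
  ρ0_r := fun a m => Prod.ext (M.ρ0_r a m.1) (N.ρ0_r a m.2)
  ρ1_l := fun a m => Prod.ext (M.ρ1_l a m.1) (N.ρ1_l a m.2)
  ρ1_r := fun a m => Prod.ext (M.ρ1_r a m.1) (N.ρ1_r a m.2)

/-- The map to the direct sum. -/
private noncomputable def Tw_pair {M N N' : Tri S T} (f : Tri.Hom M N) (g : Tri.Hom M N') :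
    Tri.Hom M (Tw_tprod N N') where
  f0 := f.f0.prod g.f0
  f1 := f.f1.prod g.f1
  f01 := f.f01.prod g.f01
  l0 := fun a m => Prod.ext (f.l0 a m) (g.l0 a m)
  r0 := fun a m => Prod.ext (f.r0 a m) (g.r0 a m)
  l1 := fun a m => Prod.ext (f.l1 a m) (g.l1 a m)
  r1 := fun a m => Prod.ext (f.r1 a m) (g.r1 a m)
  l01 := fun a m => Prod.ext (f.l01 a m) (g.l01 a m)
  r01 := fun a m => Prod.ext (f.r01 a m) (g.r01 a m)
  ρ0 := fun m => Prod.ext (f.ρ0 m) (g.ρ0 m)
  ρ1 := fun m => Prod.ext (f.ρ1 m) (g.ρ1 m)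

/-- The map from the direct sum. -/
private noncomputable def Tw_copair {M N N' : Tri S T} (f : Tri.Hom N M) (g : Tri.Hom N' M) :
    Tri.Hom (Tw_tprod N N') M where
  f0 := f.f0.coprod g.f0
  f1 := f.f1.coprod g.f1
  f01 := f.f01.coprod g.f01
  l0 := fun a m => by
    change f.f0 (N.M0.l a m.1) + g.f0 (N'.M0.l a m.2) = M.M0.l a (f.f0 m.1 + g.f0 m.2)
    rw [map_add, f.l0, g.l0]
  r0 := fun a m => by
    change f.f0 (N.M0.r a m.1) + g.f0 (N'.M0.r a m.2) = M.M0.r a (f.f0 m.1 + g.f0 m.2)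
    rw [map_add, f.r0, g.r0]
  l1 := fun a m => by
    change f.f1 (N.M1.l a m.1) + g.f1 (N'.M1.l a m.2) = M.M1.l a (f.f1 m.1 + g.f1 m.2)
    rw [map_add, f.l1, g.l1]
  r1 := fun a m => by
    change f.f1 (N.M1.r a m.1) + g.f1 (N'.M1.r a m.2) = M.M1.r a (f.f1 m.1 + g.f1 m.2)
    rw [map_add, f.r1, g.r1]
  l01 := fun a m => by
    change f.f01 (N.M01.l a m.1) + g.f01 (N'.M01.l a m.2) = M.M01.l a (f.f01 m.1 + g.f01 m.2)
    rw [map_add, f.l01, g.l01]
  r01 := fun a m => by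
    change f.f01 (N.M01.r a m.1) + g.f01 (N'.M01.r a m.2) = M.M01.r a (f.f01 m.1 + g.f01 m.2)
    rw [map_add, f.r01, g.r01]
  ρ0 := fun m => by
    change f.f01 (N.ρ0 m.1) + g.f01 (N'.ρ0 m.2) = M.ρ0 (f.f0 m.1 + g.f0 m.2)
    rw [map_add, f.ρ0, g.ρ0]
  ρ1 := fun m => by
    change f.f01 (N.ρ1 m.1) + g.f01 (N'.ρ1 m.2) = M.ρ1 (f.f1 m.1 + g.f1 m.2)
    rw [map_add, f.ρ1, g.ρ1]

/-- The identity and the zero map. -/
private noncomputable def Tw_id (M : Tri S T) : Tri.Hom M M where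
  f0 := LinearMap.id
  f1 := LinearMap.id
  f01 := LinearMap.id
  l0 := fun _ _ => rfl
  r0 := fun _ _ => rfl
  l1 := fun _ _ => rfl
  r1 := fun _ _ => rfl
  l01 := fun _ _ => rfl
  r01 := fun _ _ => rfl
  ρ0 := fun _ => rfl
  ρ1 := fun _ => rfl

private noncomputable def Tw_zero (M N : Tri S T) : Tri.Hom M N where
  f0 := 0
  f1 := 0
  f01 := 0
  l0 := fun _ _ => by simp
  r0 := fun _ _ => by simp
  l1 := fun _ _ => by simp
  r1 := fun _ _ => by simp
  l01 := fun _ _ => by simp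
  r01 := fun _ _ => by simp
  ρ0 := fun _ => by simp
  ρ1 := fun _ => by simp

private theorem Tw_isExt (M N : Tri S T) : IsExt M.bim (Tw_tprod M N).bim N.bim := by
  refine ⟨(Tw_pair (Tw_id M) (Tw_zero M N)).gmap, (Tw_copair (Tw_zero M N) (Tw_id N)).gmap,
    (Tw_copair (Tw_id M) (Tw_zero N M)).gmap, (Tw_pair (Tw_zero N M) (Tw_id N)).gmap,
    Tri.Hom.gmap_dd _, Tri.Hom.gmap_dd _, ?_, ?_, ?_, ?_, ?_⟩
  · rintro ⟨⟨x0, x1⟩, x01⟩
    change ((x0 + 0, x1 + 0), x01 + 0) = ((x0, x1), x01)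
    rw [add_zero, add_zero, add_zero]
  · rintro ⟨⟨x0, x1⟩, x01⟩
    change ((0 + x0, 0 + x1), 0 + x01) = ((x0, x1), x01)
    rw [zero_add, zero_add, zero_add]
  · rintro ⟨⟨x0, x1⟩, x01⟩
    change ((((0 : N.M0.M) + 0, (0 : N.M1.M) + 0), (0 : N.M01.M) + 0) :
      (N.M0.M × N.M1.M) × N.M01.M) = 0
    rw [add_zero, add_zero, add_zero]
    rfl
  · rintro ⟨⟨x0, x1⟩, x01⟩
    change ((((0 : M.M0.M) + 0, (0 : M.M1.M) + 0), (0 : M.M01.M) + 0) :
      (M.M0.M × M.M1.M) × M.M01.M) = 0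
    rw [add_zero, add_zero, add_zero]
    rfl
  · rintro ⟨⟨⟨x0, y0⟩, ⟨x1, y1⟩⟩, ⟨x01, y01⟩⟩
    change ((((x0 + 0 + 0, (0 : N.M0.M) + (0 + y0)), (x1 + 0 + 0, (0 : N.M1.M) + (0 + y1))),
      (x01 + 0 + 0, (0 : N.M01.M) + (0 + y01))) :
        ((M.M0.M × N.M0.M) × (M.M1.M × N.M1.M)) × (M.M01.M × N.M01.M)) =
      (((x0, y0), (x1, y1)), (x01, y01))
    simp only [add_zero, zero_add]

private theorem Tw_int {P : ℤ → Prop} (hs : ∀ m, P m → (P (m - 1) ↔ P (m + 1))) {a : ℤ}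
    (h0 : P a) (h1 : P (a + 1)) (n : ℤ) : P n := by
  have h : P n ∧ P (n + 1) := by
    refine Int.inductionOn' n a ⟨h0, h1⟩ ?_ ?_
    · rintro m - ⟨h2, h3⟩
      refine ⟨h3, ?_⟩
      have h4 := hs (m + 1) h3
      rw [add_sub_cancel_right] at h4
      exact h4.1 h2
    · rintro m - ⟨h2, h3⟩
      rw [sub_add_cancel]
      exact ⟨(hs m h2).2 h3, h2⟩
  exact h.1

namespace LP

private theorem Tw_ext {E : Type u} [AddCommGroup E] [Module (RatFunc k) E] {N N' : LP k E}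
    (h0 : N.N0 = N'.N0) (h1 : N.N1 = N'.N1) : N = N' := by
  obtain ⟨a, b, _, _, _, _, _, _⟩ := N
  obtain ⟨a', b', _, _, _, _, _, _⟩ := N'
  simp only at h0 h1
  subst h0
  subst h1
  rfl

theorem Stable.tw {N : LP k G.E} (h : Stable G N) (n : ℤ) : Stable G (N.tw n) := by
  refine ⟨h.l0, h.r0, fun a v hv => ?_, fun a v hv => ?_, h.l01, h.r01⟩
  · rw [mem_tw_N1] at hv ⊢
    rw [← map_smul]
    exact h.l1 a _ hv
  · rw [mem_tw_N1] at hv ⊢
    rw [← map_smul]
    exact h.r1 a _ hv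

/-- `N(0) = N` and `N(n)(m) = N(n + m)`. -/
theorem tw_zero {E : Type u} [AddCommGroup E] [Module (RatFunc k) E] (N : LP k E) :
    N.tw 0 = N := by
  refine Tw_ext rfl ?_
  ext v
  rw [mem_tw_N1, neg_zero, zpow_zero, one_smul]

theorem tw_tw {E : Type u} [AddCommGroup E] [Module (RatFunc k) E] (N : LP k E) (n m : ℤ) :
    (N.tw n).tw m = N.tw (n + m) := by
  refine Tw_ext rfl ?_
  ext v
  rw [mem_tw_N1, mem_tw_N1, mem_tw_N1, smul_smul, ← zpow_add₀ RatFunc.X_ne_zero, neg_add]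

/-- Multiplication by an element of `k(t)` as a homomorphism of bimodules over cospans. -/
private noncomputable def Tw_smul {N N' : LP k G.E} (h : Stable G N) (h' : Stable G N')
    (c : RatFunc k) (c0 : ∀ v ∈ N.N0, c • v ∈ N'.N0) (c1 : ∀ v ∈ N.N1, c • v ∈ N'.N1)
    (c01 : ∀ v ∈ N.N01, c • v ∈ N'.N01) : Tri.Hom (tri h) (tri h') where
  f0 :=
    { toFun := fun v => ⟨c • v.1, c0 v.1 v.2⟩
      map_add' := fun v w => Subtype.ext (smul_add c v.1 w.1)
      map_smul' := fun a v => Subtype.ext (smul_comm c a v.1) }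
  f1 :=
    { toFun := fun v => ⟨c • v.1, c1 v.1 v.2⟩
      map_add' := fun v w => Subtype.ext (smul_add c v.1 w.1)
      map_smul' := fun a v => Subtype.ext (smul_comm c a v.1) }
  f01 :=
    { toFun := fun v => ⟨c • v.1, c01 v.1 v.2⟩
      map_add' := fun v w => Subtype.ext (smul_add c v.1 w.1)
      map_smul' := fun a v => Subtype.ext (smul_comm c a v.1) }
  l0 := fun a v => Subtype.ext (map_smul (G.l (S.r0 a)) c v.1).symm
  r0 := fun a v => Subtype.ext (map_smul (G.r (T.r0 a)) c v.1).symm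
  l1 := fun a v => Subtype.ext (map_smul (G.l (S.r1 a)) c v.1).symm
  r1 := fun a v => Subtype.ext (map_smul (G.r (T.r1 a)) c v.1).symm
  l01 := fun a v => Subtype.ext (map_smul (G.l a) c v.1).symm
  r01 := fun a v => Subtype.ext (map_smul (G.r a) c v.1).symm
  ρ0 := fun _ => rfl
  ρ1 := fun _ => rfl

/-- The exact sequence `0 → N(-1) → N ⊕ N → N(1) → 0`, `x ↦ (x, t x)`, `(x, y) ↦ t x - y`; the
middle term is an extension of `N` by `N`. -/
theorem koszul {N : LP k G.E} (h : Stable G N) :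
    ∃ M : Bim S.cech T.cech, IsExt (tri h).bim M (tri h).bim ∧
      IsSes (tri (h.tw (-1))).bim M (tri (h.tw 1)).bim := by
  have hX : (X : RatFunc k) ≠ 0 := RatFunc.X_ne_zero
  have hm : ∀ v : G.E, v ∈ (N.tw (-1)).N1 ↔ (X : RatFunc k) • v ∈ N.N1 := by
    intro v
    rw [mem_tw_N1, neg_neg, zpow_one]
  have hp : ∀ v : G.E, v ∈ (N.tw 1).N1 ↔ (X : RatFunc k)⁻¹ • v ∈ N.N1 := by
    intro v
    rw [mem_tw_N1, zpow_neg, zpow_one]
  have hXi : ∀ v : G.E, (X : RatFunc k)⁻¹ • (X : RatFunc k) • v = v := by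
    intro v
    rw [smul_smul, inv_mul_cancel₀ hX, one_smul]
  have hXX : ∀ v : G.E, (X : RatFunc k) • (X : RatFunc k)⁻¹ • v = v := by
    intro v
    rw [smul_smul, mul_inv_cancel₀ hX, one_smul]
  let i1 : Tri.Hom (tri (h.tw (-1))) (tri h) := Tw_smul (h.tw (-1)) h 1
    (fun v hv => by
      rw [one_smul]
      exact hv)
    (fun v hv => by
      rw [one_smul, ← hXi v]
      exact N.Xi_mem ((hm v).1 hv))
    (fun v hv => by
      rw [one_smul]
      exact hv)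
  let i2 : Tri.Hom (tri (h.tw (-1))) (tri h) := Tw_smul (h.tw (-1)) h X
    (fun v hv => N.X_mem hv)
    (fun v hv => (hm v).1 hv)
    (fun v hv => N.N01_X.2 hv)
  let p1 : Tri.Hom (tri h) (tri (h.tw 1)) := Tw_smul h (h.tw 1) X
    (fun v hv => N.X_mem hv)
    (fun v hv => (hp _).2 (by
      rw [hXi]
      exact hv))
    (fun v hv => N.N01_X.2 hv)
  let p2 : Tri.Hom (tri h) (tri (h.tw 1)) := Tw_smul h (h.tw 1) (-1)
    (fun v hv => by
      rw [neg_smul, one_smul]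
      exact N.N0.neg_mem hv)
    (fun v hv => (hp _).2 (by
      rw [neg_smul, one_smul, smul_neg]
      exact N.N1.neg_mem (N.Xi_mem hv)))
    (fun v hv => by
      rw [neg_smul, one_smul]
      exact N.N01.neg_mem hv)
  refine ⟨(Tw_tprod (tri h) (tri h)).bim, Tw_isExt _ _, Tri.isSes (Tw_pair i1 i2)
    (Tw_copair p1 p2) ?_ ?_ ?_ ?_ ?_ ?_ ?_ ?_ ?_⟩
  · intro x y hxy
    have h1 : (1 : RatFunc k) • x.1 = (1 : RatFunc k) • y.1 :=
      congrArg (fun z : N.N0 × N.N0 => z.1.1) hxy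
    rw [one_smul, one_smul] at h1
    exact Subtype.ext h1
  · intro x y hxy
    have h1 : (1 : RatFunc k) • x.1 = (1 : RatFunc k) • y.1 :=
      congrArg (fun z : N.N1 × N.N1 => z.1.1) hxy
    rw [one_smul, one_smul] at h1
    exact Subtype.ext h1
  · intro x y hxy
    have h1 : (1 : RatFunc k) • x.1 = (1 : RatFunc k) • y.1 :=
      congrArg (fun z : N.N01 × N.N01 => z.1.1) hxy
    rw [one_smul, one_smul] at h1
    exact Subtype.ext h1
  · intro y
    refine ⟨((0 : N.N0), (⟨-y.1, N.N0.neg_mem y.2⟩ : N.N0)), ?_⟩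
    apply Subtype.ext
    change (X : RatFunc k) • (0 : G.E) + (-1 : RatFunc k) • (-y.1) = y.1
    rw [smul_zero, zero_add, neg_smul, one_smul, neg_neg]
  · intro y
    refine ⟨((⟨(X : RatFunc k)⁻¹ • y.1, (hp y.1).1 y.2⟩ : N.N1), (0 : N.N1)), ?_⟩
    apply Subtype.ext
    change (X : RatFunc k) • (X : RatFunc k)⁻¹ • y.1 + (-1 : RatFunc k) • (0 : G.E) = y.1
    rw [smul_zero, add_zero, hXX]
  · intro y
    refine ⟨((0 : N.N01), (⟨-y.1, N.N01.neg_mem y.2⟩ : N.N01)), ?_⟩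
    apply Subtype.ext
    change (X : RatFunc k) • (0 : G.E) + (-1 : RatFunc k) • (-y.1) = y.1
    rw [smul_zero, zero_add, neg_smul, one_smul, neg_neg]
  · rintro ⟨x, y⟩
    constructor
    · intro hxy
      have h1 : (X : RatFunc k) • x.1 + (-1 : RatFunc k) • y.1 = 0 := congrArg Subtype.val hxy
      rw [neg_smul, one_smul, ← sub_eq_add_neg, sub_eq_zero] at h1
      refine ⟨x, ?_⟩
      exact Prod.ext (Subtype.ext (one_smul _ x.1)) (Subtype.ext h1)
    · rintro ⟨z, hz⟩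
      have h1 : (1 : RatFunc k) • z.1 = x.1 := congrArg (fun z : N.N0 × N.N0 => z.1.1) hz
      have h2 : (X : RatFunc k) • z.1 = y.1 := congrArg (fun z : N.N0 × N.N0 => z.2.1) hz
      apply Subtype.ext
      change (X : RatFunc k) • x.1 + (-1 : RatFunc k) • y.1 = 0
      rw [← h1, ← h2, one_smul, neg_smul, one_smul, add_neg_cancel]
  · rintro ⟨x, y⟩
    constructor
    · intro hxy
      have h1 : (X : RatFunc k) • x.1 + (-1 : RatFunc k) • y.1 = 0 := congrArg Subtype.val hxy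
      rw [neg_smul, one_smul, ← sub_eq_add_neg, sub_eq_zero] at h1
      refine ⟨⟨x.1, (hm x.1).2 (by rw [h1]; exact y.2)⟩, ?_⟩
      exact Prod.ext (Subtype.ext (one_smul _ x.1)) (Subtype.ext h1)
    · rintro ⟨z, hz⟩
      have h1 : (1 : RatFunc k) • z.1 = x.1 := congrArg (fun z : N.N1 × N.N1 => z.1.1) hz
      have h2 : (X : RatFunc k) • z.1 = y.1 := congrArg (fun z : N.N1 × N.N1 => z.2.1) hz
      apply Subtype.ext
      change (X : RatFunc k) • x.1 + (-1 : RatFunc k) • y.1 = 0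
      rw [← h1, ← h2, one_smul, neg_smul, one_smul, add_neg_cancel]
  · rintro ⟨x, y⟩
    constructor
    · intro hxy
      have h1 : (X : RatFunc k) • x.1 + (-1 : RatFunc k) • y.1 = 0 := congrArg Subtype.val hxy
      rw [neg_smul, one_smul, ← sub_eq_add_neg, sub_eq_zero] at h1
      refine ⟨⟨x.1, x.2⟩, ?_⟩
      exact Prod.ext (Subtype.ext (one_smul _ x.1)) (Subtype.ext h1)
    · rintro ⟨z, hz⟩
      have h1 : (1 : RatFunc k) • z.1 = x.1 := congrArg (fun z : N.N01 × N.N01 => z.1.1) hz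
      have h2 : (X : RatFunc k) • z.1 = y.1 := congrArg (fun z : N.N01 × N.N01 => z.2.1) hz
      apply Subtype.ext
      change (X : RatFunc k) • x.1 + (-1 : RatFunc k) • y.1 = 0
      rw [← h1, ← h2, one_smul, neg_smul, one_smul, add_neg_cancel]

private theorem Tw_congr {N N' : LP k G.E} (e : N = N') (h : Stable G N) (h' : Stable G N')
    (α : DHom A S.cech) (β : DHom B T.cech) :
    HasRes (res α β (tri h).bim) ↔ HasRes (res α β (tri h').bim) := by
  subst e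
  exact Iff.rfl

private theorem Tw_step {N : LP k G.E} (h : Stable G N) (α : DHom A S.cech) (β : DHom B T.cech)
    (m : ℤ) (hm : HasRes (res α β (tri (h.tw m)).bim)) :
    HasRes (res α β (tri (h.tw (m - 1))).bim) ↔ HasRes (res α β (tri (h.tw (m + 1))).bim) := by
  obtain ⟨M, h1, h2⟩ := koszul (h.tw m)
  have h3 : HasRes (res α β M) := (h1.isSes.res α β).mid hm hm
  have h4 := h2.res α β
  have e1 := Tw_congr (tw_tw N m (-1)).symm (h.tw (m + -1)) ((h.tw m).tw (-1)) α β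
  have e2 := Tw_congr (tw_tw N m 1).symm (h.tw (m + 1)) ((h.tw m).tw 1) α β
  rw [sub_eq_add_neg, e1, e2]
  exact ⟨fun h5 => h4.right h5 h3, fun h5 => h4.left h3 h5⟩

/-- If `N` and `N(-1)` have resolutions, then all twists have resolutions. -/
theorem hasRes_tw {N : LP k G.E} (h : Stable G N) (α : DHom A S.cech) (β : DHom B T.cech)
    (h0 : HasRes (res α β (tri h).bim)) (h1 : HasRes (res α β (tri (h.tw (-1))).bim)) (n : ℤ) :
    HasRes (res α β (tri (h.tw n)).bim) := by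
  refine Tw_int (P := fun n => HasRes (res α β (tri (h.tw n)).bim)) (Tw_step h α β) h1 ?_ n
  exact (Tw_congr (tw_zero N).symm h (h.tw 0) α β).1 h0

/-- If `N` and `N(1)` have resolutions, then all twists have resolutions. -/
theorem hasRes_tw' {N : LP k G.E} (h : Stable G N) (α : DHom A S.cech) (β : DHom B T.cech)
    (h0 : HasRes (res α β (tri h).bim)) (h1 : HasRes (res α β (tri (h.tw 1)).bim)) (n : ℤ) :
    HasRes (res α β (tri (h.tw n)).bim) := by
  refine Tw_int (P := fun n => HasRes (res α β (tri (h.tw n)).bim)) (Tw_step h α β)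
    ((Tw_congr (tw_zero N).symm h (h.tw 0) α β).1 h0) h1 n

end LP

end Pool.Agent.MP_6e5bed_ag_NC
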