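import Pool.Agent.Lib.MP_6e5bed_ag_NC.GMap

set_option autoImplicit false

/-!
# Complexes in degrees 0 and 1
-/

namespace Pool.Agent.MP_6e5bed_ag_NC

universe u

variable {k : Type u} [CommRing k] {V W : Type u} [AddCommGroup V] [Module k V]
  [AddCommGroup W] [Module k W]

/-- The components of the elements of `V × W`. -/
noncomputable def twoρ (V W : Type u) [AddCommGroup V] [Module k V] [AddCommGroup W] [Module k W] :
    V × W →ₗ[k] (ℤ →₀ V × W) :=
  (Finsupp.lsingle 0).comp ((LinearMap.inl k V W).comp (LinearMap.fst k V W)) +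
    (Finsupp.lsingle 1).comp ((LinearMap.inr k V W).comp (LinearMap.snd k V W))

theorem twoρ_apply (v : V × W) : twoρ (k := k) V W v =
    Finsupp.single 0 (v.1, (0 : W)) + Finsupp.single 1 ((0 : V), v.2) := rfl

theorem twoρ_zero (v : V × W) : twoρ (k := k) V W v 0 = (v.1, 0) := by
  rw [twoρ_apply, Finsupp.add_apply, Finsupp.single_eq_same,
    Finsupp.single_eq_of_ne (by decide), add_zero]

theorem twoρ_one (v : V × W) : twoρ (k := k) V W v 1 = (0, v.2) := by
  rw [twoρ_apply, Finsupp.add_apply, Finsupp.single_eq_same,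
    Finsupp.single_eq_of_ne (by decide), zero_add]

theorem twoρ_ne {n : ℤ} (h0 : n ≠ 0) (h1 : n ≠ 1) (v : V × W) : twoρ (k := k) V W v n = 0 := by
  rw [twoρ_apply, Finsupp.add_apply, Finsupp.single_eq_of_ne h0,
    Finsupp.single_eq_of_ne h1, add_zero]

/-- The complex `V → W`, with `V` in degree `0` and `W` in degree `1`. -/
noncomputable def Dg.two (δ : V →ₗ[k] W) : Dg k (V × W) where
  ρ := twoρ V W
  sum_ρ := fun v => by
    rw [twoρ_apply, Finsupp.sum_add_index' (fun _ => rfl) (fun _ _ _ => rfl)]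
    simp
  ρ_ρ := fun v n => by
    by_cases h0 : n = 0
    · subst h0
      rw [twoρ_zero, twoρ_apply]
      simp
    · by_cases h1 : n = 1
      · subst h1
        rw [twoρ_one, twoρ_apply]
        simp
      · rw [twoρ_ne h0 h1, map_zero, Finsupp.single_zero]
  d := (LinearMap.inr k V W).comp (δ.comp (LinearMap.fst k V W))
  d_d := fun v => by simp
  ρ_d := fun v n => by
    by_cases h0 : n = 0
    · subst h0
      rw [twoρ_zero, zero_add, twoρ_one]
      simp
    · by_cases h1 : n = 1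
      · subst h1
        rw [twoρ_one, twoρ_ne (by decide) (by decide)]
        simp
        rfl
      · by_cases h2 : n + 1 = 0
        · rw [h2, twoρ_zero, twoρ_ne h0 h1]
          simp
        · rw [twoρ_ne h2 (by omega), twoρ_ne h0 h1]
          simp
          rfl

namespace Dg

variable (δ : V →ₗ[k] W)

theorem two_d (v : V) (w : W) : (Dg.two δ).d (v, w) = (0, δ v) := rfl

theorem two_ρ (v : V) (w : W) : (Dg.two δ).ρ (v, w) =
    Finsupp.single 0 (v, (0 : W)) + Finsupp.single 1 ((0 : V), w) := rfl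

theorem two_deg0 (v : V) : (Dg.two δ).IsDeg 0 (v, (0 : W)) := by
  unfold Dg.IsDeg
  rw [two_ρ]
  simp

theorem two_deg1 (w : W) : (Dg.two δ).IsDeg 1 ((0 : V), w) := by
  unfold Dg.IsDeg
  rw [two_ρ]
  simp

theorem two_isDeg {n : ℤ} {v : V} {w : W} (h : (Dg.two δ).IsDeg n (v, w)) :
    (n = 0 ∧ w = 0) ∨ (n = 1 ∧ v = 0) ∨ (v = 0 ∧ w = 0) := by
  have h' : twoρ (k := k) V W (v, w) = Finsupp.single n (v, w) := h
  by_cases h0 : n = 0
  · subst h0
    have h1 := DFunLike.congr_fun h' 1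
    rw [twoρ_one, Finsupp.single_eq_of_ne (by decide)] at h1
    exact Or.inl ⟨rfl, congrArg Prod.snd h1⟩
  · by_cases h1 : n = 1
    · subst h1
      have h2 := DFunLike.congr_fun h' 0
      rw [twoρ_zero, Finsupp.single_eq_of_ne (by decide)] at h2
      exact Or.inr (Or.inl ⟨rfl, congrArg Prod.fst h2⟩)
    · have h2 := DFunLike.congr_fun h' n
      rw [twoρ_ne h0 h1, Finsupp.single_eq_same] at h2
      exact Or.inr (Or.inr ⟨(congrArg Prod.fst h2).symm, (congrArg Prod.snd h2).symm⟩)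

/-- A linear map on `V × W` which is homogeneous on `V` and on `W` is homogeneous. -/
theorem two_degMap {U : Type u} [AddCommGroup U] [Module k U] {Z : Dg k U} {m : ℤ}
    (f : V × W →ₗ[k] U) (h0 : ∀ v, Z.IsDeg m (f (v, 0))) (h1 : ∀ w, Z.IsDeg (m + 1) (f (0, w)))
    {n : ℤ} {x : V × W} (hx : (Dg.two δ).IsDeg n x) : Z.IsDeg (n + m) (f x) := by
  obtain ⟨v, w⟩ := x
  rcases two_isDeg δ hx with ⟨rfl, rfl⟩ | ⟨rfl, rfl⟩ | ⟨rfl, rfl⟩
  · rw [zero_add]; exact h0 v
  · rw [add_comm]; exact h1 w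
  · have : f ((0 : V), (0 : W)) = 0 := map_zero f
    rw [this]
    exact IsDeg.zero _

theorem two_s (v : V) (w : W) : (Dg.two δ).s (v, w) = (v, -w) := by
  have h : ((v, w) : V × W) = (v, 0) + (0, w) := by simp
  rw [h, map_add, s_of_even (o_of_even (two_deg0 δ v) Even.zero),
    s_of_odd (o_of_odd (two_deg1 δ w) odd_one)]
  simp

theorem two_deg0' {x : V × W} (h : x.2 = 0) : (Dg.two δ).IsDeg 0 x := by
  have h1 : x = (x.1, 0) := Prod.ext rfl h
  rw [h1]
  exact two_deg0 δ _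

theorem two_deg1' {x : V × W} (h : x.1 = 0) : (Dg.two δ).IsDeg 1 x := by
  have h1 : x = (0, x.2) := Prod.ext h rfl
  rw [h1]
  exact two_deg1 δ _

/-- A bilinear map is homogeneous if it is so on the pairs of homogeneous elements. -/
theorem two_bil {V' W' V'' W'' : Type u} [AddCommGroup V'] [Module k V'] [AddCommGroup W']
    [Module k W'] [AddCommGroup V''] [Module k V''] [AddCommGroup W''] [Module k W'']
    (δ' : V' →ₗ[k] W') (δ'' : V'' →ₗ[k] W'') (β : V × W →ₗ[k] V' × W' →ₗ[k] V'' × W'')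
    (h00 : ∀ v v', (β (v, 0) (v', 0)).2 = 0) (h01 : ∀ v w', (β (v, 0) (0, w')).1 = 0)
    (h10 : ∀ w v', (β (0, w) (v', 0)).1 = 0) (h11 : ∀ w w', β (0, w) (0, w') = 0)
    {i j : ℤ} {x : V × W} {y : V' × W'} (hx : (Dg.two δ).IsDeg i x) (hy : (Dg.two δ').IsDeg j y) :
    (Dg.two δ'').IsDeg (i + j) (β x y) := by
  obtain ⟨v, w⟩ := x
  obtain ⟨v', w'⟩ := y
  rcases Dg.two_isDeg δ hx with ⟨rfl, rfl⟩ | ⟨rfl, rfl⟩ | ⟨rfl, rfl⟩
  · rcases Dg.two_isDeg δ' hy with ⟨rfl, rfl⟩ | ⟨rfl, rfl⟩ | ⟨rfl, rfl⟩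
    · exact two_deg0' δ'' (h00 _ _)
    · exact two_deg1' δ'' (h01 _ _)
    · have h : β (v, 0) ((0, 0) : V' × W') = 0 := map_zero _
      rw [h]
      exact Dg.IsDeg.zero _
  · rcases Dg.two_isDeg δ' hy with ⟨rfl, rfl⟩ | ⟨rfl, rfl⟩ | ⟨rfl, rfl⟩
    · exact two_deg1' δ'' (h10 _ _)
    · rw [h11]
      exact Dg.IsDeg.zero _
    · have h : β (0, w) ((0, 0) : V' × W') = 0 := map_zero _
      rw [h]
      exact Dg.IsDeg.zero _
  · have h : β ((0, 0) : V × W) = 0 := map_zero _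
    rw [h]
    exact Dg.IsDeg.zero _

end Dg

end Pool.Agent.MP_6e5bed_ag_NC
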